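import Mathlib

namespace BernD.SD1


open Finset

lemma div_of_mem_Ico {i j x : ℕ} (hx : x ∈ Ico (i * 2 ^ j) ((i + 1) * 2 ^ j)) : x / 2 ^ j = i := by
  rw [mem_Ico] at hx
  exact Nat.div_eq_of_lt_le hx.1 hx.2

lemma weak_dyadic (h' : ℕ → ℝ) (h0 : ∀ x, 0 ≤ h' x) (c : ℝ) (hc : 0 < c) : ∀ j i : ℕ,
    c * (((Ico (i * 2 ^ j) ((i + 1) * 2 ^ j)).filter (fun x => ∃ j' ≤ j, c * 2 ^ j' ≤
      ∑ z ∈ Ico (x / 2 ^ j' * 2 ^ j') ((x / 2 ^ j' + 1) * 2 ^ j'), h' z)).card : ℝ) ≤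
      ∑ z ∈ Ico (i * 2 ^ j) ((i + 1) * 2 ^ j), h' z := by
  classical
  have hbigcase : ∀ j i : ℕ, c * 2 ^ j ≤ ∑ z ∈ Ico (i * 2 ^ j) ((i + 1) * 2 ^ j), h' z →
      ∀ (p : ℕ → Prop) [DecidablePred p], c * (((Ico (i * 2 ^ j) ((i + 1) * 2 ^ j)).filter p).card : ℝ) ≤
      ∑ z ∈ Ico (i * 2 ^ j) ((i + 1) * 2 ^ j), h' z := by
    intro j i hb p _
    refine le_trans (mul_le_mul_of_nonneg_left ?_ hc.le) hb
    have h1 : ((Ico (i * 2 ^ j) ((i + 1) * 2 ^ j)).filter p).card ≤ 2 ^ j := by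
      refine (card_filter_le _ _).trans (le_of_eq ?_)
      rw [Nat.card_Ico, add_mul, one_mul, Nat.add_sub_cancel_left]
    exact_mod_cast h1
  intro j
  induction j with
  | zero =>
    intro i
    by_cases hbig : c * 2 ^ 0 ≤ ∑ z ∈ Ico (i * 2 ^ 0) ((i + 1) * 2 ^ 0), h' z
    · exact hbigcase 0 i hbig _
    · rw [filter_eq_empty_iff.mpr, card_empty, Nat.cast_zero, mul_zero]
      · exact sum_nonneg fun z _ => h0 z
      · intro x hx
        rintro ⟨j', hj', hle⟩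
        obtain rfl : j' = 0 := by omega
        rw [div_of_mem_Ico hx] at hle
        exact hbig hle
  | succ j ih =>
    intro i
    by_cases hbig : c * 2 ^ (j + 1) ≤ ∑ z ∈ Ico (i * 2 ^ (j + 1)) ((i + 1) * 2 ^ (j + 1)), h' z
    · exact hbigcase (j + 1) i hbig _
    · have e1 : i * 2 ^ (j + 1) = (2 * i) * 2 ^ j := by ring
      have e2 : (i + 1) * 2 ^ (j + 1) = (2 * i + 1 + 1) * 2 ^ j := by ring
      have hl1 : (2 * i) * 2 ^ j ≤ (2 * i + 1) * 2 ^ j := Nat.mul_le_mul_right _ (by omega)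
      have hl2 : (2 * i + 1) * 2 ^ j ≤ (2 * i + 1 + 1) * 2 ^ j := Nat.mul_le_mul_right _ (by omega)
      have hsum : ∑ z ∈ Ico (i * 2 ^ (j + 1)) ((i + 1) * 2 ^ (j + 1)), h' z =
          (∑ z ∈ Ico ((2 * i) * 2 ^ j) ((2 * i + 1) * 2 ^ j), h' z) +
          ∑ z ∈ Ico ((2 * i + 1) * 2 ^ j) ((2 * i + 1 + 1) * 2 ^ j), h' z := by
        rw [e1, e2]
        exact (sum_Ico_consecutive _ hl1 hl2).symm
      rw [hsum]
      have hsub : ((Ico (i * 2 ^ (j + 1)) ((i + 1) * 2 ^ (j + 1))).filter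
          (fun x => ∃ j' ≤ j + 1, c * 2 ^ j' ≤
          ∑ z ∈ Ico (x / 2 ^ j' * 2 ^ j') ((x / 2 ^ j' + 1) * 2 ^ j'), h' z)) ⊆
          ((Ico ((2 * i) * 2 ^ j) ((2 * i + 1) * 2 ^ j)).filter (fun x => ∃ j' ≤ j, c * 2 ^ j' ≤
            ∑ z ∈ Ico (x / 2 ^ j' * 2 ^ j') ((x / 2 ^ j' + 1) * 2 ^ j'), h' z)) ∪
          ((Ico ((2 * i + 1) * 2 ^ j) ((2 * i + 1 + 1) * 2 ^ j)).filter
            (fun x => ∃ j' ≤ j, c * 2 ^ j' ≤
            ∑ z ∈ Ico (x / 2 ^ j' * 2 ^ j') ((x / 2 ^ j' + 1) * 2 ^ j'), h' z)) := by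
        intro x hx
        rw [mem_filter] at hx
        obtain ⟨hx1, j', hj', hle⟩ := hx
        have hj : j' ≤ j := by
          rcases Nat.lt_or_ge j j' with h | h
          · exfalso
            obtain rfl : j' = j + 1 := by omega
            rw [div_of_mem_Ico hx1] at hle
            exact hbig hle
          · exact h
        rw [e1, e2, mem_Ico] at hx1
        rw [mem_union, mem_filter, mem_filter, mem_Ico, mem_Ico]
        rcases Nat.lt_or_ge x ((2 * i + 1) * 2 ^ j) with h | h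
        · left; exact ⟨⟨hx1.1, h⟩, j', hj, hle⟩
        · right; exact ⟨⟨h, hx1.2⟩, j', hj, hle⟩
      have hcard := (card_le_card hsub).trans (card_union_le _ _)
      have hcard' := (Nat.cast_le (α := ℝ)).mpr hcard
      rw [Nat.cast_add] at hcard'
      calc _ ≤ c * (_ + _) := mul_le_mul_of_nonneg_left hcard' hc.le
        _ = c * _ + c * _ := mul_add _ _ _
        _ ≤ _ := add_le_add (ih (2 * i)) (ih (2 * i + 1))

lemma block_sub (K k x : ℕ) :
    (range (2 ^ K)).filter (fun z => z / 2 ^ k = x / 2 ^ k) ⊆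
      Ico (x / 2 ^ k * 2 ^ k) ((x / 2 ^ k + 1) * 2 ^ k) := by
  intro z hz
  rw [mem_filter] at hz
  rw [mem_Ico, ← hz.2]
  have hk : 0 < 2 ^ k := by positivity
  constructor
  · exact Nat.div_mul_le_self z (2 ^ k)
  · have := Nat.lt_div_mul_add (a := z) hk
    rw [add_mul, one_mul]
    exact this

lemma weak_Mh (K s : ℕ) (h : ℕ → ℝ) (h0 : ∀ x, 0 ≤ h x) (Mh : ℕ → ℝ)
    (hM : ∀ x < 2^K, ∃ a ≤ K, Mh x =
      (∑ z ∈ (range (2^K)).filter (fun z => z / 2^(K-a) = x / 2^(K-a)), h z) / 2^(K-a)) :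
    (1/2:ℝ)^(s+1) * (((range (2^K)).filter (fun x => (1/2:ℝ)^s ≤ Mh x)).card : ℝ) ≤
      ∑ x ∈ (range (2^K)).filter (fun x => (1/2:ℝ)^(s+1) ≤ h x), h x := by
  classical
  set h' : ℕ → ℝ := fun z => if (1/2:ℝ)^(s+1) ≤ h z then h z else 0 with hh'
  have h0' : ∀ x, 0 ≤ h' x := by
    intro x
    simp only [hh']
    split_ifs
    · exact h0 x
    · exact le_rfl
  have hle : ∀ z, h z ≤ h' z + (1/2:ℝ)^(s+1) := by
    intro z
    simp only [hh']
    split_ifs with hz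
    · have : (0:ℝ) ≤ (1/2:ℝ)^(s+1) := by positivity
      linarith
    · push Not at hz
      linarith
  have hw := weak_dyadic h' h0' ((1/2:ℝ)^(s+1)) (by positivity) K 0
  rw [zero_mul, zero_add, one_mul, ← range_eq_Ico] at hw
  have hr : ∑ x ∈ (range (2^K)).filter (fun x => (1/2:ℝ)^(s+1) ≤ h x), h x =
      ∑ x ∈ range (2^K), h' x := by
    rw [sum_filter]
  rw [hr]
  refine le_trans (mul_le_mul_of_nonneg_left ?_ (by positivity)) hw
  apply Nat.cast_le.mpr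
  apply card_le_card
  intro x hx
  rw [mem_filter, mem_range] at hx
  obtain ⟨hx1, hx2⟩ := hx
  obtain ⟨a, ha, hMx⟩ := hM x hx1
  rw [mem_filter, mem_range]
  refine ⟨hx1, K - a, Nat.sub_le _ _, ?_⟩
  set k := K - a with hk
  have hsub := block_sub K k x
  have hcard : (((range (2 ^ K)).filter (fun z => z / 2 ^ k = x / 2 ^ k)).card : ℝ) ≤ 2 ^ k := by
    have h1 := card_le_card hsub
    rw [Nat.card_Ico, add_mul, one_mul, Nat.add_sub_cancel_left] at h1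
    exact_mod_cast h1
  rw [hMx, le_div_iff₀ (by positivity)] at hx2
  have h2 : ∑ z ∈ (range (2 ^ K)).filter (fun z => z / 2 ^ k = x / 2 ^ k), h z ≤
      (∑ z ∈ (range (2 ^ K)).filter (fun z => z / 2 ^ k = x / 2 ^ k), h' z) +
        (1/2:ℝ)^(s+1) * 2 ^ k := by
    calc _ ≤ ∑ z ∈ (range (2 ^ K)).filter (fun z => z / 2 ^ k = x / 2 ^ k),
          (h' z + (1/2:ℝ)^(s+1)) := sum_le_sum fun z _ => hle z
      _ = (∑ z ∈ (range (2 ^ K)).filter (fun z => z / 2 ^ k = x / 2 ^ k), h' z) +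
          (((range (2 ^ K)).filter (fun z => z / 2 ^ k = x / 2 ^ k)).card : ℝ) *
            (1/2:ℝ)^(s+1) := by
          rw [sum_add_distrib, sum_const, nsmul_eq_mul]
      _ ≤ _ := by
          have : (((range (2 ^ K)).filter (fun z => z / 2 ^ k = x / 2 ^ k)).card : ℝ) *
            (1/2:ℝ)^(s+1) ≤ 2 ^ k * (1/2:ℝ)^(s+1) :=
            mul_le_mul_of_nonneg_right hcard (by positivity)
          linarith
  have h3 : (1/2:ℝ)^s = 2 * (1/2:ℝ)^(s+1) := by rw [pow_succ]; ring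
  have h4 : ∑ z ∈ (range (2 ^ K)).filter (fun z => z / 2 ^ k = x / 2 ^ k), h' z ≤
      ∑ z ∈ Ico (x / 2 ^ k * 2 ^ k) ((x / 2 ^ k + 1) * 2 ^ k), h' z :=
    sum_le_sum_of_subset_of_nonneg hsub fun z _ _ => h0' z
  rw [h3] at hx2
  linarith

theorem max1 (K L : ℕ) (h : ℕ → ℝ) (h0 : ∀ x, 0 ≤ h x) (h1 : ∀ x, h x ≤ 1) (Mh : ℕ → ℝ)
    (hM : ∀ x < 2^K, ∃ a ≤ K, Mh x =
      (∑ z ∈ (range (2^K)).filter (fun z => z / 2^(K-a) = x / 2^(K-a)), h z) / 2^(K-a)) :
    ∑ x ∈ (range (2^K)).filter (fun x => (1/2:ℝ)^L ≤ Mh x), Mh x ≤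
      4 * ((L:ℝ)+1) * ∑ x ∈ (range (2^K)).filter (fun x => (1/2:ℝ)^(L+1) ≤ h x), h x := by
  classical
  set T : ℝ := ∑ x ∈ (range (2^K)).filter (fun x => (1/2:ℝ)^(L+1) ≤ h x), h x with hT
  -- `Mh ≤ 1`
  have hMle : ∀ x < 2^K, Mh x ≤ 1 := by
    intro x hx
    obtain ⟨a, ha, hMx⟩ := hM x hx
    rw [hMx, div_le_one (by positivity)]
    have hsub := block_sub K (K - a) x
    have hcard : (((range (2 ^ K)).filter (fun z => z / 2 ^ (K-a) = x / 2 ^ (K-a))).card : ℝ) ≤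
        2 ^ (K-a) := by
      have h1 := card_le_card hsub
      rw [Nat.card_Ico, add_mul, one_mul, Nat.add_sub_cancel_left] at h1
      exact_mod_cast h1
    calc _ ≤ ∑ z ∈ (range (2 ^ K)).filter (fun z => z / 2 ^ (K-a) = x / 2 ^ (K-a)), (1:ℝ) :=
          sum_le_sum fun z _ => h1 z
      _ = (((range (2 ^ K)).filter (fun z => z / 2 ^ (K-a) = x / 2 ^ (K-a))).card : ℝ) := by
          rw [sum_const, nsmul_eq_mul, mul_one]
      _ ≤ _ := hcard
  have hpoint : ∀ x ∈ (range (2^K)).filter (fun x => (1/2:ℝ)^L ≤ Mh x), Mh x ≤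
      ∑ s ∈ range (L + 1), (if (1/2:ℝ)^s ≤ Mh x then 2 * (1/2:ℝ)^s else 0) := by
    intro x hx
    rw [mem_filter, mem_range] at hx
    obtain ⟨hx1, hx2⟩ := hx
    have hex : ∃ s, (1/2:ℝ)^s ≤ Mh x := ⟨L, hx2⟩
    have hs := Nat.find_spec hex
    have hsL : Nat.find hex ≤ L := Nat.find_min' hex hx2
    have hmin : ∀ t, t < Nat.find hex → ¬ (1/2:ℝ)^t ≤ Mh x := fun t ht => Nat.find_min hex ht
    generalize Nat.find hex = s0 at hs hsL hmin
    have h5 : Mh x ≤ 2 * (1/2:ℝ)^s0 := by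
      cases s0 with
      | zero =>
        rw [pow_zero]
        linarith [hMle x hx1]
      | succ t =>
        have h6 := hmin t (Nat.lt_succ_self t)
        push Not at h6
        rw [pow_succ]
        linarith
    refine h5.trans ?_
    have h6 := single_le_sum (f := fun s => (if (1/2:ℝ)^s ≤ Mh x then 2 * (1/2:ℝ)^s else 0))
      (s := range (L + 1)) (fun s _ => by
        show (0:ℝ) ≤ (if (1/2:ℝ)^s ≤ Mh x then 2 * (1/2:ℝ)^s else 0)
        split_ifs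
        · positivity
        · exact le_rfl) (mem_range.mpr (Nat.lt_succ_of_le hsL))
    simp only [if_pos hs] at h6
    exact h6
  calc ∑ x ∈ (range (2^K)).filter (fun x => (1/2:ℝ)^L ≤ Mh x), Mh x
      ≤ ∑ x ∈ (range (2^K)).filter (fun x => (1/2:ℝ)^L ≤ Mh x),
        ∑ s ∈ range (L + 1), (if (1/2:ℝ)^s ≤ Mh x then 2 * (1/2:ℝ)^s else 0) := sum_le_sum hpoint
    _ ≤ ∑ x ∈ range (2^K),
        ∑ s ∈ range (L + 1), (if (1/2:ℝ)^s ≤ Mh x then 2 * (1/2:ℝ)^s else 0) := by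
        apply sum_le_sum_of_subset_of_nonneg (filter_subset _ _)
        intro x _ _
        apply sum_nonneg
        intro s _
        split_ifs
        · positivity
        · exact le_rfl
    _ = ∑ s ∈ range (L + 1), ∑ x ∈ range (2^K),
        (if (1/2:ℝ)^s ≤ Mh x then 2 * (1/2:ℝ)^s else 0) := sum_comm
    _ = ∑ s ∈ range (L + 1), 4 * ((1/2:ℝ)^(s+1) *
        (((range (2^K)).filter (fun x => (1/2:ℝ)^s ≤ Mh x)).card : ℝ)) := by
        refine sum_congr rfl fun s _ => ?_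
        rw [← sum_filter, sum_const, nsmul_eq_mul, pow_succ]
        ring
    _ ≤ ∑ s ∈ range (L + 1), 4 * T := by
        apply sum_le_sum
        intro s hs
        rw [mem_range] at hs
        apply mul_le_mul_of_nonneg_left _ (by norm_num)
        refine (weak_Mh K s h h0 Mh hM).trans ?_
        rw [hT]
        apply sum_le_sum_of_subset_of_nonneg
        · intro x hx
          rw [mem_filter] at hx ⊢
          refine ⟨hx.1, le_trans ?_ hx.2⟩
          exact pow_le_pow_of_le_one (by norm_num) (by norm_num) (by omega)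
        · intro x _ _
          exact h0 x
    _ = 4 * ((L:ℝ)+1) * T := by
        rw [sum_const, card_range, nsmul_eq_mul]
        push_cast
        ring

end BernD.SD1
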