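import Pool.Agent.Helper643.BernD

open Finset



namespace BernD.SD10
open Classical in
theorem d10_rct_mono (K : ℕ) (P Q : ℕ → ℕ → Prop) (t p s q t' p' s' q' : ℕ)
    (h : ∀ x y, x / 2^(K-t) = p → y / 2^s = q → P x y →
      x / 2^(K-t') = p' ∧ y / 2^s' = q' ∧ Q x y) :
    rct K P t p s q * (2^(K-t) * 2^s) ≤ rct K Q t' p' s' q' * (2^(K-t') * 2^s') := by
  unfold rct
  rw [div_mul_cancel₀ _ (by positivity), div_mul_cancel₀ _ (by positivity)]
  have hsub : (range (2^K) ×ˢ range (2^K)).filter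
      (fun z => z.1 / 2^(K-t) = p ∧ z.2 / 2^s = q ∧ P z.1 z.2) ⊆
      (range (2^K) ×ˢ range (2^K)).filter
      (fun z => z.1 / 2^(K-t') = p' ∧ z.2 / 2^s' = q' ∧ Q z.1 z.2) := by
    intro z hz
    rw [Finset.mem_filter] at hz ⊢
    exact ⟨hz.1, h z.1 z.2 hz.2.1 hz.2.2.1 hz.2.2.2⟩
  exact_mod_cast Finset.card_le_card hsub

theorem d10_rct_le (K : ℕ) (P Q : ℕ → ℕ → Prop) (t p s q : ℕ)
    (h : ∀ x y, P x y → Q x y) : rct K P t p s q ≤ rct K Q t p s q := by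
  have h1 := d10_rct_mono K P Q t p s q t p s q (fun x y hx hy hP => ⟨hx, hy, h x y hP⟩)
  have h2 : (0 : ℝ) < 2^(K-t) * 2^s := by positivity
  exact le_of_mul_le_mul_right h1 h2

theorem d10_bad_mono {K : ℕ} {g : ℕ → ℕ → ℝ} {lam : ℝ} (hlam : 0 < lam) {t p y : ℕ}
    (h : Bad K g (2*lam) t p y) : Bad K g lam t p y := by
  unfold Bad at h ⊢
  refine lt_of_lt_of_le h (d10_rct_le K _ _ t p _ _ fun x y hxy => ?_)
  have : lam < 2 * lam := by linarith
  exact this.trans hxy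

theorem d10_om_mono {K : ℕ} {g : ℕ → ℕ → ℝ} {lam : ℝ} (hlam : 0 < lam) {x y : ℕ}
    (h : Om K g (2*lam) x y) : Om K g lam x y := by
  obtain ⟨t, ht, hb⟩ := h
  exact ⟨t, ht, d10_bad_mono hlam hb⟩

theorem d10_div {x : ℕ} (b c d : ℕ) (h : d = b + c) : x / 2^d = x / 2^b / 2^c := by
  rw [h, pow_add, Nat.div_div_eq_div_mul]

theorem d10_pw (K : ℕ) (g : ℕ → ℕ → ℝ) (lam : ℝ) (a l p q : ℕ)
    (hθ : rct K (Om K g lam) a p (a+l+1) q < (1/2:ℝ)^(l+4)) (y : ℕ)
    (h1 : y / 2^(a+l+1) = q) : pw K g lam a p y ≤ 1/8 := by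
  unfold pw
  have h2 := d10_rct_mono K (Om K g lam) (Om K g lam) a p a (y/2^a) a p (a+l+1) q
    (fun x z hx hz hP => ⟨hx, by
      rw [d10_div a (l+1) (a+l+1) (by omega), hz, ← d10_div a (l+1) (a+l+1) (by omega), h1], hP⟩)
  have h3 : (0:ℝ) < 2^(K-a) := by positivity
  have h4 : (0:ℝ) < 2^a := by positivity
  have h5 : (0:ℝ) < 2^l := by positivity
  have e1 : (2:ℝ)^(a+l+1) = 2^a * (2 * 2^l) := by ring
  have e2 : (1/2:ℝ)^(l+4) = 1 / (2^l * 16) := by
    rw [one_div, inv_pow, pow_add]; norm_num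
  rw [e1] at h2
  rw [e2] at hθ
  set A := rct K (Om K g lam) a p a (y/2^a) with hA
  set B := rct K (Om K g lam) a p (a+l+1) q with hB
  have h6 : A ≤ B * (2 * 2^l) := by
    have h7 : A * (2^(K-a) * 2^a) ≤ (B * (2 * 2^l)) * (2^(K-a) * 2^a) := by
      refine h2.trans (le_of_eq ?_); ring
    exact le_of_mul_le_mul_right h7 (by positivity)
  have h8 : B * (2 * 2^l) ≤ 1 / (2^l * 16) * (2 * 2^l) :=
    mul_le_mul_of_nonneg_right hθ.le (by positivity)
  have h9 : 1 / (2^l * 16) * (2 * 2^l) = (1:ℝ)/8 := by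
    field_simp
    norm_num
  linarith

open Classical in
theorem d10_notbad (K : ℕ) (g : ℕ → ℕ → ℝ) (lam : ℝ) (a l : ℕ) (hal : a + l < K) (p : ℕ)
    (hp : p < 2^a) (q : ℕ)
    (hθ : rct K (Om K g lam) a p (a+l+1) q < (1/2:ℝ)^(l+4)) (s r z : ℕ) (hs : a ≤ s)
    (hs' : s ≤ a + l) (hr : r / 2^(s-a) = p) (hz : z < 2^K) (hzq : z / 2^(a+l+1) = q) :
    ¬ Bad K g lam s r z := by
  intro hbad
  have hrs : r < 2^s := by
    have h1 : r / 2^(s-a) < 2^a := by rw [hr]; exact hp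
    rw [Nat.div_lt_iff_lt_mul (by positivity), ← pow_add] at h1
    rwa [show a + (s - a) = s by omega] at h1
  have hc : z / 2^(s+1) < 2^(K-(s+1)) := by
    rw [Nat.div_lt_iff_lt_mul (by positivity), ← pow_add]
    rwa [show K - (s+1) + (s+1) = K by omega]
  set c := z / 2^(s+1) with hcdef
  have hsub : (Finset.Ico (r * 2^(K-s)) ((r+1) * 2^(K-s))) ×ˢ
      (Finset.Ico (c * 2^(s+1)) ((c+1) * 2^(s+1))) ⊆
      (range (2^K) ×ˢ range (2^K)).filter
      (fun w => w.1 / 2^(K-a) = p ∧ w.2 / 2^(a+l+1) = q ∧ Om K g lam w.1 w.2) := by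
    rintro ⟨x, w⟩ hxw
    rw [Finset.mem_product, Finset.mem_Ico, Finset.mem_Ico] at hxw
    obtain ⟨⟨hx1, hx2⟩, hw1, hw2⟩ := hxw
    simp only at hx1 hx2 hw1 hw2
    have hx : x / 2^(K-s) = r := Nat.div_eq_of_lt_le hx1 hx2
    have hw : w / 2^(s+1) = c := Nat.div_eq_of_lt_le hw1 hw2
    rw [Finset.mem_filter, Finset.mem_product, Finset.mem_range, Finset.mem_range]
    refine ⟨⟨?_, ?_⟩, ?_, ?_, ?_⟩
    · refine lt_of_lt_of_le hx2 ?_
      calc (r+1) * 2^(K-s) ≤ 2^s * 2^(K-s) := Nat.mul_le_mul_right _ hrs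
        _ = 2^K := by rw [← pow_add]; congr 1; omega
    · refine lt_of_lt_of_le hw2 ?_
      calc (c+1) * 2^(s+1) ≤ 2^(K-(s+1)) * 2^(s+1) := Nat.mul_le_mul_right _ hc
        _ = 2^K := by rw [← pow_add]; congr 1; omega
    · change x / 2^(K-a) = p
      rw [d10_div (K-s) (s-a) (K-a) (by omega), hx, hr]
    · change w / 2^(a+l+1) = q
      rw [d10_div (s+1) (a+l-s) (a+l+1) (by omega), hw, hcdef,
        ← d10_div (s+1) (a+l-s) (a+l+1) (by omega), hzq]
    · refine ⟨s, by omega, ?_⟩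
      change Bad K g lam s (x / 2^(K-s)) w
      rw [hx]
      unfold Bad at hbad ⊢
      rw [hw]
      exact hbad
  have hcard := Finset.card_le_card hsub
  rw [Finset.card_product, Nat.card_Ico, Nat.card_Ico, ← Nat.sub_mul, ← Nat.sub_mul,
    Nat.add_sub_cancel_left, Nat.add_sub_cancel_left, one_mul, one_mul] at hcard
  have hcard' : ((2:ℝ)^(K-s) * 2^(s+1)) ≤ rct K (Om K g lam) a p (a+l+1) q *
      (2^(K-a) * 2^(a+l+1)) := by
    unfold rct
    rw [div_mul_cancel₀ _ (by positivity)]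
    exact_mod_cast hcard
  have e1 : ((2:ℝ)^(K-s) * 2^(s+1)) = 2^(K+1) := by
    rw [← pow_add]; congr 1; omega
  have e2 : ((2:ℝ)^(K-a) * 2^(a+l+1)) = 2^(K+1) * 2^l := by
    rw [← pow_add, ← pow_add]; congr 1; omega
  have e3 : (1/2:ℝ)^(l+4) = 1 / (2^l * 16) := by
    rw [one_div, inv_pow, pow_add]; norm_num
  rw [e1, e2] at hcard'
  rw [e3] at hθ
  have h5 : (0:ℝ) < 2^l := by positivity
  have h6 : (0:ℝ) < 2^(K+1) := by positivity
  have h7 : rct K (Om K g lam) a p (a+l+1) q * (2^(K+1) * 2^l) <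
      1 / (2^l * 16) * (2^(K+1) * 2^l) := mul_lt_mul_of_pos_right hθ (by positivity)
  have h8 : 1 / (2^l * 16) * (2^(K+1) * 2^l) = (2:ℝ)^(K+1) / 16 := by
    field_simp
  rw [h8] at h7
  linarith

theorem d10_U_step {K : ℕ} {g : ℕ → ℕ → ℝ} {X : ℕ → ℕ → ℕ → ℝ} {lam : ℝ} {s r z : ℕ}
    (hs : s < K) (hb : ¬ Bad K g lam s r z) :
    U K g X lam s r z = (U K g X lam (s+1) (2*r) z + U K g X lam (s+1) (2*r+1) z) / 2 := by
  unfold U
  have e : K - s = (K - (s+1)) + 1 := by omega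
  rw [e, Uaux, if_neg hb]

theorem d10 (K : ℕ) (g : ℕ → ℕ → ℝ) (X : ℕ → ℕ → ℕ → ℝ) (hX : Pot K g X)
    (hΓ : ∀ mu : ℝ, ∀ t ≤ K, ∀ p < 2^t, ∀ y < 2^K, ∀ y' < 2^K, y / 2^t = y' / 2^t →
      U K g X mu t p y - X t p y = U K g X mu t p y' - X t p y')
    (lam : ℝ) (hlam : 0 < lam) (a l : ℕ) (hal : a + l < K) (p : ℕ) (hp : p < 2^a)
    (q : ℕ) (hq : q < 2^(K-(a+l+1)))
    (hθ : rct K (Om K g lam) a p (a+l+1) q < (1/2:ℝ)^(l+4))
    (y : ℕ) (hy : y < 2^K) (y' : ℕ) (hy' : y' < 2^K)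
    (h1 : y / 2^(a+l+1) = q) (h2 : y' / 2^(a+l+1) = q) :
    ee K g X lam a p y = ee K g X lam a p y' := by
  have hlam2 : ∀ s r z : ℕ, ¬ Bad K g lam s r z → ¬ Bad K g (2*lam) s r z :=
    fun s r z h h' => h (d10_bad_mono hlam h')
  have hpw : ∀ z, z / 2^(a+l+1) = q → pw K g lam a p z ≤ 1/8 := fun z hz =>
    d10_pw K g lam a l p q hθ z hz
  have hpw2 : ∀ z, z / 2^(a+l+1) = q → pw K g (2*lam) a p z ≤ 1/8 := fun z hz => by
    refine le_trans ?_ (hpw z hz)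
    exact d10_rct_le K _ _ a p _ _ fun x y h => d10_om_mono hlam h
  have hee : ∀ z, z / 2^(a+l+1) = q → ee K g X lam a p z =
      ((U K g X (2*lam) (a+1) (2*p) z - U K g X lam (a+1) (2*p) z) -
      (U K g X (2*lam) (a+1) (2*p+1) z - U K g X lam (a+1) (2*p+1) z)) / 2 := by
    intro z hz
    unfold ee
    rw [if_pos (hpw z hz), if_pos (hpw2 z hz)]
    unfold kk
    ring
  have key : ∀ n s : ℕ, s + n = a + l + 1 → a + 1 ≤ s → ∀ r, r / 2^(s-a) = p →
      U K g X (2*lam) s r y - U K g X lam s r y = U K g X (2*lam) s r y' - U K g X lam s r y' := by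
    intro n
    induction n with
    | zero =>
      intro s hs has r hr
      have hs1 : s = a + l + 1 := by omega
      have hrs : r < 2^s := by
        have h1 : r / 2^(s-a) < 2^a := by rw [hr]; exact hp
        rw [Nat.div_lt_iff_lt_mul (by positivity), ← pow_add] at h1
        rwa [show a + (s - a) = s by omega] at h1
      have hyy : y / 2^s = y' / 2^s := by rw [hs1, h1, h2]
      have g1 := hΓ (2*lam) s (by omega) r hrs y hy y' hy' hyy
      have g2 := hΓ lam s (by omega) r hrs y hy y' hy' hyy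
      linarith
    | succ n ih =>
      intro s hs has r hr
      have hnb : ∀ z, z < 2^K → z / 2^(a+l+1) = q → ¬ Bad K g lam s r z := fun z hz hzq =>
        d10_notbad K g lam a l hal p hp q hθ s r z (by omega) (by omega) hr hz hzq
      have hsK : s < K := by omega
      have c1 : (2 * r) / 2^(s+1-a) = p := by
        rw [show s + 1 - a = 1 + (s - a) by omega, pow_add, pow_one, ← Nat.div_div_eq_div_mul,
          show 2 * r / 2 = r by omega, hr]
      have c2 : (2 * r + 1) / 2^(s+1-a) = p := by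
        rw [show s + 1 - a = 1 + (s - a) by omega, pow_add, pow_one, ← Nat.div_div_eq_div_mul,
          show (2 * r + 1) / 2 = r by omega, hr]
      have i1 := ih (s+1) (by omega) (by omega) (2*r) c1
      have i2 := ih (s+1) (by omega) (by omega) (2*r+1) c2
      rw [d10_U_step hsK (hnb y hy h1), d10_U_step hsK (hnb y' hy' h2),
        d10_U_step hsK (hlam2 _ _ _ (hnb y hy h1)), d10_U_step hsK (hlam2 _ _ _ (hnb y' hy' h2))]
      linarith
  have c1 : (2 * p) / 2^(a+1-a) = p := by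
    rw [show a + 1 - a = 1 by omega, pow_one]; omega
  have c2 : (2 * p + 1) / 2^(a+1-a) = p := by
    rw [show a + 1 - a = 1 by omega, pow_one]; omega
  have k1 := key l (a+1) (by omega) le_rfl (2*p) c1
  have k2 := key l (a+1) (by omega) le_rfl (2*p+1) c2
  rw [hee y h1, hee y' h2, k1, k2]

end BernD.SD10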