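import Pool.Agent.Helper643.BernD

open Finset



namespace BernD.SD11a
/-- a block of a range is an interval -/
theorem blk12910 (M m s : ℕ) (hm : 0 < m) (h : (s + 1) * m ≤ M) :
    (range M).filter (fun y => y / m = s) = Finset.Ico (s * m) ((s + 1) * m) := by
  ext y
  simp only [Finset.mem_filter, Finset.mem_range, Finset.mem_Ico]
  constructor
  · rintro ⟨_, rfl⟩
    refine ⟨Nat.div_mul_le_self y m, ?_⟩
    have := Nat.div_add_mod y m
    have h2 := Nat.mod_lt y hm
    nlinarith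
  · rintro ⟨h1, h2⟩
    refine ⟨lt_of_lt_of_le h2 h, ?_⟩
    exact Nat.div_eq_of_lt_le h1 h2

/-- size of a block -/
theorem card12910 (M m s : ℕ) (hm : 0 < m) (h : (s + 1) * m ≤ M) :
    ((range M).filter (fun y => y / m = s)).card = m := by
  rw [blk12910 M m s hm h, Nat.card_Ico, add_mul, one_mul, Nat.add_sub_cancel_left]

/-- the alternating sum over a block vanishes -/
theorem alt12910 (K n q : ℕ) (h : (q + 1) * 2 ^ (n + 1) ≤ 2 ^ K) :
    ∑ y ∈ (range (2^K)).filter (fun y => y / 2^(n+1) = q), (-1:ℝ)^(y / 2^n) = 0 := by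
  have hpos : 0 < 2 ^ n := by positivity
  rw [blk12910 _ _ _ (by positivity) h]
  have e1 : q * 2 ^ (n + 1) ≤ (2 * q + 1) * 2 ^ n := by rw [pow_succ]; nlinarith
  have e2 : (2 * q + 1) * 2 ^ n ≤ (q + 1) * 2 ^ (n + 1) := by rw [pow_succ]; nlinarith
  rw [← Finset.sum_Ico_consecutive _ e1 e2]
  have s1 : ∑ y ∈ Finset.Ico (q * 2 ^ (n + 1)) ((2 * q + 1) * 2 ^ n), (-1:ℝ)^(y / 2^n) = 2 ^ n := by
    have : ∀ y ∈ Finset.Ico (q * 2 ^ (n + 1)) ((2 * q + 1) * 2 ^ n), (-1:ℝ)^(y / 2^n) = 1 := by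
      intro y hy
      rw [Finset.mem_Ico] at hy
      have : y / 2 ^ n = 2 * q := by
        apply Nat.div_eq_of_lt_le
        · have := hy.1
          rw [pow_succ] at this
          nlinarith
        · exact hy.2
      rw [this, pow_mul]
      norm_num
    rw [Finset.sum_congr rfl this, Finset.sum_const, Nat.card_Ico]
    have : (2 * q + 1) * 2 ^ n - q * 2 ^ (n + 1) = 2 ^ n := by
      have : (2 * q + 1) * 2 ^ n = q * 2 ^ (n + 1) + 2 ^ n := by rw [pow_succ]; ring
      rw [this, Nat.add_sub_cancel_left]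
    rw [this]
    simp
  have s2 : ∑ y ∈ Finset.Ico ((2 * q + 1) * 2 ^ n) ((q + 1) * 2 ^ (n + 1)), (-1:ℝ)^(y / 2^n) = - 2 ^ n := by
    have : ∀ y ∈ Finset.Ico ((2 * q + 1) * 2 ^ n) ((q + 1) * 2 ^ (n + 1)), (-1:ℝ)^(y / 2^n) = -1 := by
      intro y hy
      rw [Finset.mem_Ico] at hy
      have : y / 2 ^ n = 2 * q + 1 := by
        apply Nat.div_eq_of_lt_le
        · exact hy.1
        · have := hy.2
          rw [pow_succ] at this
          nlinarith
      rw [this, pow_succ, pow_mul]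
      norm_num
    rw [Finset.sum_congr rfl this, Finset.sum_const, Nat.card_Ico]
    have : (q + 1) * 2 ^ (n + 1) - (2 * q + 1) * 2 ^ n = 2 ^ n := by
      have : (q + 1) * 2 ^ (n + 1) = (2 * q + 1) * 2 ^ n + 2 ^ n := by rw [pow_succ]; ring
      rw [this, Nat.add_sub_cancel_left]
    rw [this]
    simp
  rw [s1, s2]
  ring

open Classical in
/-- rct as a sum over y -/
theorem rct12910 (K : ℕ) (P : ℕ → ℕ → Prop) (t p s q : ℕ) :
    rct K P t p s q = (∑ y ∈ (range (2^K)).filter (fun y => y / 2^s = q),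
      (((range (2^K)).filter (fun x => x / 2^(K-t) = p ∧ P x y)).card : ℝ)) / (2^(K-t) * 2^s) := by
  unfold rct
  congr 1
  have : ((range (2^K) ×ˢ range (2^K)).filter
    (fun z => z.1 / 2^(K-t) = p ∧ z.2 / 2^s = q ∧ P z.1 z.2)).card =
    ∑ y ∈ (range (2^K)).filter (fun y => y / 2^s = q),
      ((range (2^K)).filter (fun x => x / 2^(K-t) = p ∧ P x y)).card := by
    rw [Finset.card_eq_sum_card_fiberwise (f := Prod.snd) (t := (range (2^K)).filter (fun y => y / 2^s = q))]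
    · apply Finset.sum_congr rfl
      intro y hy
      rw [Finset.mem_filter] at hy
      apply Finset.card_bij (fun z _ => z.1)
      · intro z hz
        simp only [Finset.mem_filter, Finset.mem_product] at hz ⊢
        obtain ⟨⟨⟨h1, h2⟩, h3, h4, h5⟩, h6⟩ := hz
        refine ⟨h1, h3, ?_⟩
        rw [← h6]
        exact h5
      · intro z hz z' hz' h
        simp only [Finset.mem_filter] at hz hz'
        exact Prod.ext h (hz.2.trans hz'.2.symm)
      · intro x hx
        simp only [Finset.mem_filter] at hx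
        refine ⟨(x, y), ?_, rfl⟩
        simp only [Finset.mem_filter, Finset.mem_product]
        exact ⟨⟨⟨hx.1, hy.1⟩, hx.2.1, hy.2, hx.2.2⟩, trivial⟩
    · intro z hz
      simp only [Finset.coe_filter, Finset.mem_product, Set.mem_ofPred_eq] at hz ⊢
      exact ⟨hz.1.2, hz.2.2.1⟩
  rw [this]
  push_cast
  rfl

/-- the average of `pw` over a block -/
theorem avg12910 (K : ℕ) (P : ℕ → ℕ → Prop) (a l p q : ℕ) (hal : a + l < K)
    (hq : q < 2^(K-(a+l+1))) :
    ∑ y ∈ (range (2^K)).filter (fun y => y / 2^(a+l+1) = q), rct K P a p a (y / 2^a) =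
      rct K P a p (a+l+1) q * 2^(a+l+1) := by
  classical
  simp only [rct12910]
  set N : ℕ → ℝ := fun y => (((range (2^K)).filter (fun x => x / 2^(K-a) = p ∧ P x y)).card : ℝ) with hN
  rw [← Finset.sum_div]
  have h2 : ∀ m : ℕ, (2:ℝ)^m ≠ 0 := fun m => by positivity
  have key : ∑ y ∈ (range (2^K)).filter (fun y => y / 2^(a+l+1) = q),
      ∑ y' ∈ (range (2^K)).filter (fun y' => y' / 2^a = y / 2^a), N y' =
      2^a * ∑ y' ∈ (range (2^K)).filter (fun y' => y' / 2^(a+l+1) = q), N y' := by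
    have hdiv : ∀ y : ℕ, y / 2^(a+l+1) = y / 2^a / 2^(l+1) := by
      intro y
      rw [Nat.div_div_eq_div_mul, ← pow_add, add_assoc]
    have hsw : ∑ y ∈ (range (2^K)).filter (fun y => y / 2^(a+l+1) = q),
      ∑ y' ∈ (range (2^K)).filter (fun y' => y' / 2^a = y / 2^a), N y' =
      ∑ y' ∈ (range (2^K)).filter (fun y' => y' / 2^(a+l+1) = q),
      ∑ y ∈ (range (2^K)).filter (fun y => y / 2^a = y' / 2^a), N y' := by
      apply Finset.sum_comm'
      intro y y'
      simp only [Finset.mem_filter]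
      constructor
      · rintro ⟨⟨h1, h2⟩, h3, h4⟩
        refine ⟨⟨h1, h4.symm⟩, h3, ?_⟩
        rw [hdiv] at h2 ⊢
        rw [h4, h2]
      · rintro ⟨⟨h1, h2⟩, h3, h4⟩
        refine ⟨⟨h1, ?_⟩, h3, h2.symm⟩
        rw [hdiv] at h4 ⊢
        rw [h2, h4]
    rw [hsw, Finset.mul_sum]
    apply Finset.sum_congr rfl
    intro y' hy'
    rw [Finset.mem_filter, Finset.mem_range] at hy'
    rw [Finset.sum_const, card12910 (2^K) (2^a) (y' / 2^a) (by positivity)]
    · rw [nsmul_eq_mul]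
      push_cast
      rfl
    · have h3 : y' / 2 ^ a < 2 ^ (K - a) := by
        rw [Nat.div_lt_iff_lt_mul (by positivity), ← pow_add, Nat.sub_add_cancel (by omega)]
        exact hy'.1
      calc (y' / 2 ^ a + 1) * 2 ^ a ≤ 2 ^ (K - a) * 2 ^ a := Nat.mul_le_mul_right _ h3
        _ = 2 ^ K := by rw [← pow_add, Nat.sub_add_cancel (by omega)]
  rw [key]
  field_simp

theorem d11a (K : ℕ) (g : ℕ → ℕ → ℝ) (X : ℕ → ℕ → ℕ → ℝ) (lam : ℝ) (a l : ℕ) (hal : a + l < K)
    (h10 : ∀ p < 2^a, ∀ q < 2^(K-(a+l+1)),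
      rct K (Om K g lam) a p (a+l+1) q < (1/2:ℝ)^(l+4) →
      ∀ y < 2^K, ∀ y' < 2^K, y / 2^(a+l+1) = q → y' / 2^(a+l+1) = q →
      ee K g X lam a p y = ee K g X lam a p y')
    (p : ℕ) (hp : p < 2^a) (q : ℕ) (hq : q < 2^(K-(a+l+1))) :
    (rct K (Om K g lam) a p (a+l+1) q < (1/2:ℝ)^(l+4) → cf K l (ee K g X lam) a p q = 0) ∧
    ((1/2:ℝ)^(l+4) ≤ rct K (Om K g lam) a p (a+l+1) q →
      (cf K l (ee K g X lam) a p q)^2 ≤ 17 * rct K (Om K g lam) a p (a+l+1) q *
        ((∑ y ∈ (range (2^K)).filter (fun y => y / 2^(a+l+1) = q),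
          (ee K g X lam a p y)^2 / (pw K g lam a p y + (1/2:ℝ)^l)) / 2^(a+l+1))) := by
  classical
  have hblock : (q + 1) * 2 ^ (a + l + 1) ≤ 2 ^ K := by
    calc (q + 1) * 2 ^ (a + l + 1) ≤ 2 ^ (K - (a + l + 1)) * 2 ^ (a + l + 1) :=
          Nat.mul_le_mul_right _ hq
      _ = 2 ^ K := by rw [← pow_add, Nat.sub_add_cancel (by omega)]
  have hpos : 0 < 2 ^ (a + l + 1) := by positivity
  constructor
  · intro hlt
    have hy0 : q * 2 ^ (a + l + 1) < 2 ^ K := by
      refine lt_of_lt_of_le ?_ hblock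
      rw [add_mul, one_mul]
      omega
    have hy0q : q * 2 ^ (a + l + 1) / 2 ^ (a + l + 1) = q := Nat.mul_div_cancel q hpos
    unfold cf
    have : ∀ y ∈ (range (2^K)).filter (fun y => y / 2^(a+l+1) = q),
        (-1:ℝ)^(y / 2^(a+l)) * ee K g X lam a p y =
        (-1:ℝ)^(y / 2^(a+l)) * ee K g X lam a p (q * 2 ^ (a + l + 1)) := by
      intro y hy
      rw [Finset.mem_filter, Finset.mem_range] at hy
      rw [h10 p hp q hq hlt y hy.1 _ hy0 hy.2 hy0q]
    rw [Finset.sum_congr rfl this, ← Finset.sum_mul, alt12910 K (a + l) q hblock]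
    simp
  · intro hge
    have havg := avg12910 K (Om K g lam) a l p q hal hq
    have hcard := card12910 (2^K) (2 ^ (a + l + 1)) q hpos hblock
    set θ := rct K (Om K g lam) a p (a+l+1) q with hθ
    have hθ0 : 0 ≤ θ := by
      rw [hθ]
      unfold rct
      positivity
    have hpw0 : ∀ y, 0 ≤ pw K g lam a p y := by
      intro y
      unfold pw rct
      positivity
    have hG : ∑ y ∈ (range (2^K)).filter (fun y => y / 2^(a+l+1) = q), (pw K g lam a p y + (1/2:ℝ)^l) =
        (θ + (1/2:ℝ)^l) * 2 ^ (a + l + 1) := by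
      rw [Finset.sum_add_distrib, Finset.sum_const, hcard]
      have : ∑ y ∈ (range (2^K)).filter (fun y => y / 2^(a+l+1) = q), pw K g lam a p y = θ * 2 ^ (a + l + 1) := havg
      rw [this, nsmul_eq_mul]
      push_cast
      ring
    have hGpos : 0 < (θ + (1/2:ℝ)^l) * 2 ^ (a + l + 1) := by positivity
    have hCS := Finset.sq_sum_div_le_sum_sq_div ((range (2^K)).filter (fun y => y / 2^(a+l+1) = q))
      (fun y => (-1:ℝ)^(y / 2^(a+l)) * ee K g X lam a p y) (g := fun y => pw K g lam a p y + (1/2:ℝ)^l)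
      (fun y _ => by have := hpw0 y; positivity)
    have hsq : ∀ y, ((-1:ℝ)^(y / 2^(a+l)) * ee K g X lam a p y) ^ 2 = (ee K g X lam a p y) ^ 2 := by
      intro y
      rw [mul_pow, ← pow_mul, mul_comm (y / 2 ^ (a + l)) 2, pow_mul]
      norm_num
    simp only [hsq] at hCS
    rw [hG, div_le_iff₀ hGpos] at hCS
    have he : (1/2:ℝ)^l ≤ 16 * θ := by
      have : (1/2:ℝ)^(l+4) = (1/2:ℝ)^l / 16 := by rw [pow_add]; norm_num; ring
      rw [this] at hge
      linarith
    unfold cf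
    set A := ∑ y ∈ (range (2^K)).filter (fun y => y / 2^(a+l+1) = q), (-1:ℝ)^(y / 2^(a+l)) * ee K g X lam a p y with hA
    set Q := ∑ y ∈ (range (2^K)).filter (fun y => y / 2^(a+l+1) = q),
          (ee K g X lam a p y)^2 / (pw K g lam a p y + (1/2:ℝ)^l) with hQ
    have hQ0 : 0 ≤ Q := by
      rw [hQ]
      apply Finset.sum_nonneg
      intro y _
      have := hpw0 y
      positivity
    have h2 : (0:ℝ) < 2 ^ (a + l + 1) := by positivity
    rw [div_pow, div_le_iff₀ (by positivity)]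
    have h3 : 17 * θ * (Q / 2 ^ (a + l + 1)) * (2 ^ (a + l + 1)) ^ 2 = Q * (17 * θ * 2 ^ (a + l + 1)) := by
      field_simp
    rw [h3]
    refine le_trans hCS ?_
    apply mul_le_mul_of_nonneg_left _ hQ0
    apply mul_le_mul_of_nonneg_right _ h2.le
    linarith

end BernD.SD11a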