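import Pool.Agent.Helper643.BernD

open Finset



namespace BernD.SD11b
theorem d11b_card1 (N M q : ℕ) (hM : 0 < M) :
    ((range N).filter (fun y => y / M = q)).card ≤ M := by
  have hsub : (range N).filter (fun y => y / M = q) ⊆ Finset.Ico (q * M) ((q + 1) * M) := by
    intro y hy
    rw [mem_filter] at hy
    rw [Finset.mem_Ico]
    obtain ⟨_, h1⟩ := hy
    subst h1
    constructor
    · exact Nat.div_mul_le_self y M
    · rw [mul_comm]
      exact Nat.lt_mul_div_succ y hM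
  calc ((range N).filter (fun y => y / M = q)).card
      ≤ (Finset.Ico (q * M) ((q + 1) * M)).card := Finset.card_le_card hsub
    _ = M := by
      rw [Nat.card_Ico, Nat.succ_mul, Nat.add_sub_cancel_left]

theorem d11b_avgy (N M : ℕ) (hM : 0 < M) (F : ℕ → ℝ) (hF : ∀ y, 0 ≤ F y) :
    ∑ y ∈ range N, (∑ y' ∈ (range N).filter (fun y' => y' / M = y / M), F y') / M ≤
      ∑ y ∈ range N, F y := by
  have hM' : (0:ℝ) < M := by exact_mod_cast hM
  calc ∑ y ∈ range N, (∑ y' ∈ (range N).filter (fun y' => y' / M = y / M), F y') / M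
      = ∑ y ∈ range N, ∑ y' ∈ range N, (if y' / M = y / M then F y' / M else 0) := by
        refine Finset.sum_congr rfl fun y _ => ?_
        rw [Finset.sum_filter, Finset.sum_div]
        refine Finset.sum_congr rfl fun y' _ => ?_
        split_ifs <;> simp
    _ = ∑ y' ∈ range N, ∑ y ∈ range N, (if y' / M = y / M then F y' / M else 0) :=
        Finset.sum_comm
    _ = ∑ y' ∈ range N, (((range N).filter (fun y => y / M = y' / M)).card : ℝ) * (F y' / M) := by
        refine Finset.sum_congr rfl fun y' _ => ?_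
        rw [← Finset.sum_filter, Finset.sum_const, nsmul_eq_mul]
        congr 3
        ext y
        simp only [mem_filter, eq_comm]
    _ ≤ ∑ y' ∈ range N, (M : ℝ) * (F y' / M) := by
        refine Finset.sum_le_sum fun y' _ => ?_
        apply mul_le_mul_of_nonneg_right _ (div_nonneg (hF y') hM'.le)
        exact_mod_cast d11b_card1 N M (y' / M) hM
    _ = ∑ y ∈ range N, F y := by
        refine Finset.sum_congr rfl fun y' _ => ?_
        field_simp

theorem d11b_sumx (K a : ℕ) (ha : a ≤ K) (F : ℕ → ℝ) (hF : ∀ y, 0 ≤ F y) :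
    ∑ x ∈ range (2^K), F (x / 2^(K-a)) ≤ ∑ p ∈ range (2^a), (2:ℝ)^(K-a) * F p := by
  have hmaps : ∀ x ∈ range (2^K), x / 2^(K-a) ∈ range (2^a) := by
    intro x hx
    rw [mem_range] at hx ⊢
    apply Nat.div_lt_of_lt_mul
    rw [← pow_add, Nat.sub_add_cancel ha]
    exact hx
  rw [← Finset.sum_fiberwise_of_maps_to hmaps]
  refine Finset.sum_le_sum fun p _ => ?_
  calc ∑ x ∈ (range (2^K)).filter (fun x => x / 2^(K-a) = p), F (x / 2^(K-a))
      = ∑ x ∈ (range (2^K)).filter (fun x => x / 2^(K-a) = p), F p := by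
        refine Finset.sum_congr rfl fun x hx => ?_
        rw [(mem_filter.1 hx).2]
    _ = (((range (2^K)).filter (fun x => x / 2^(K-a) = p)).card : ℝ) * F p := by
        rw [Finset.sum_const, nsmul_eq_mul]
    _ ≤ (2:ℝ)^(K-a) * F p := by
        apply mul_le_mul_of_nonneg_right _ (hF p)
        have h := d11b_card1 (2^K) (2^(K-a)) p (by positivity)
        calc (((range (2^K)).filter (fun x => x / 2^(K-a) = p)).card : ℝ)
            ≤ ((2^(K-a) : ℕ) : ℝ) := by exact_mod_cast h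
          _ = (2:ℝ)^(K-a) := by push_cast; rfl

theorem d11b_rct_nonneg (K : ℕ) (P : ℕ → ℕ → Prop) (t p s q : ℕ) : 0 ≤ rct K P t p s q := by
  unfold rct
  positivity

theorem d11b_num_nonneg (K : ℕ) (P : ℕ → ℕ → Prop) : 0 ≤ num K P := by
  unfold num
  positivity

open Classical in
theorem d11b (K : ℕ) (g : ℕ → ℕ → ℝ) (X : ℕ → ℕ → ℕ → ℝ) (lam : ℝ) (hlam : 0 < lam)
    (l : ℕ) (hl : l < K)
    (h11a : ∀ a, a + l < K → ∀ p < 2^a, ∀ q < 2^(K-(a+l+1)),
      (rct K (Om K g lam) a p (a+l+1) q < (1/2:ℝ)^(l+4) → cf K l (ee K g X lam) a p q = 0) ∧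
      ((1/2:ℝ)^(l+4) ≤ rct K (Om K g lam) a p (a+l+1) q →
        (cf K l (ee K g X lam) a p q)^2 ≤ 17 * rct K (Om K g lam) a p (a+l+1) q *
          ((∑ y ∈ (range (2^K)).filter (fun y => y / 2^(a+l+1) = q),
            (ee K g X lam a p y)^2 / (pw K g lam a p y + (1/2:ℝ)^l)) / 2^(a+l+1))))
    (h9 : ∑ y ∈ range (2^K), ∑ t ∈ range K, ∑ p ∈ range (2^t),
        (1/2:ℝ)^t * (ee K g X lam t p y)^2 / (pw K g lam t p y + (1/2:ℝ)^l)
      ≤ 10^8 * lam^2 * (1 + Real.log (1/((1/2:ℝ)^l))) * num K (Om K g lam) / 2^K)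
    (hstrong : ∀ (Θ : ℕ → ℕ → ℝ),
      (∀ x < 2^K, ∀ y < 2^K, ∃ a ≤ K, ∃ s ≤ K,
        Θ x y = rct K (Om K g lam) a (x / 2^(K-a)) s (y / 2^s)) →
      ∑ z ∈ (range (2^K) ×ˢ range (2^K)).filter (fun z => (1/2:ℝ)^(l+4) ≤ Θ z.1 z.2), Θ z.1 z.2
        ≤ 16 * (((l+4:ℕ):ℝ)+1) * (((l+4:ℕ):ℝ)+2) * num K (Om K g lam)) :
    SS K l (cf K l (ee K g X lam)) ≤ 10^6 * ((l:ℝ)+1)^2 * lam * num K (Om K g lam) := by
  set e : ℝ := (1/2:ℝ)^l with he
  have hepos : 0 < e := by positivity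
  set n : ℝ := num K (Om K g lam) with hn
  have hnn : 0 ≤ n := d11b_num_nonneg _ _
  let F : ℕ → ℕ → ℕ → ℝ := fun a p y => (ee K g X lam a p y)^2 / (pw K g lam a p y + e)
  have hpw : ∀ a p y, 0 ≤ pw K g lam a p y := fun a p y => d11b_rct_nonneg _ _ _ _ _ _
  have hF : ∀ a p y, 0 ≤ F a p y := fun a p y =>
    div_nonneg (sq_nonneg _) (by have := hpw a p y; linarith)
  let θ : ℕ → ℕ → ℕ → ℝ := fun a x y =>
    rct K (Om K g lam) a (x / 2^(K-a)) (a+l+1) (y / 2^(a+l+1))
  have hθ : ∀ a x y, 0 ≤ θ a x y := fun a x y => d11b_rct_nonneg _ _ _ _ _ _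
  have hne : (range (K-l)).Nonempty := ⟨0, by rw [mem_range]; omega⟩
  choose am ham hmax using fun (z : ℕ × ℕ) =>
    Finset.exists_max_image (range (K-l)) (fun a => θ a z.1 z.2) hne
  let Θ : ℕ → ℕ → ℝ := fun x y => θ (am (x,y)) x y
  have hΘ : ∀ x y, 0 ≤ Θ x y := fun x y => hθ _ _ _
  have h1 := hstrong Θ (by
    intro x _ y _
    have h := ham (x,y)
    rw [mem_range] at h
    exact ⟨am (x,y), by omega, am (x,y)+l+1, by omega, rfl⟩)
  let E : ℕ → ℕ → ℕ → ℝ := fun a x y =>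
    (∑ y' ∈ (range (2^K)).filter (fun y' => y' / 2^(a+l+1) = y / 2^(a+l+1)),
      F a (x / 2^(K-a)) y') / 2^(a+l+1)
  have hE : ∀ a x y, 0 ≤ E a x y := fun a x y =>
    div_nonneg (Finset.sum_nonneg fun y' _ => hF _ _ _) (by positivity)
  have hp : ∀ x < 2^K, ∀ a ∈ range (K-l), x / 2^(K-a) < 2^a := by
    intro x hx a ha
    rw [mem_range] at ha
    apply Nat.div_lt_of_lt_mul
    rw [← pow_add, Nat.sub_add_cancel (by omega)]
    exact hx
  have hq : ∀ y < 2^K, ∀ a ∈ range (K-l), y / 2^(a+l+1) < 2^(K-(a+l+1)) := by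
    intro y hy a ha
    rw [mem_range] at ha
    apply Nat.div_lt_of_lt_mul
    rw [← pow_add, Nat.add_sub_cancel' (by omega)]
    exact hy
  have hle : ∀ x y, ∀ a ∈ range (K-l), θ a x y ≤ Θ x y := fun x y a ha => hmax (x,y) a ha
  have hc0 : ∀ x < 2^K, ∀ y < 2^K, ∀ a ∈ range (K-l), θ a x y < (1/2:ℝ)^(l+4) →
      cf K l (ee K g X lam) a (x / 2^(K-a)) (y / 2^(a+l+1)) = 0 := by
    intro x hx y hy a ha hlt
    have ha' := mem_range.1 ha
    exact (h11a a (by omega) _ (hp x hx a ha) _ (hq y hy a ha)).1 hlt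
  have hc : ∀ x < 2^K, ∀ y < 2^K, ∀ a ∈ range (K-l),
      (cf K l (ee K g X lam) a (x / 2^(K-a)) (y / 2^(a+l+1)))^2 ≤ Θ x y * (17 * E a x y) := by
    intro x hx y hy a ha
    by_cases hlt : θ a x y < (1/2:ℝ)^(l+4)
    · rw [hc0 x hx y hy a ha hlt]
      have := mul_nonneg (hΘ x y) (mul_nonneg (by norm_num : (0:ℝ) ≤ 17) (hE a x y))
      simpa using this
    · have ha' := mem_range.1 ha
      have h2 := (h11a a (by omega) _ (hp x hx a ha) _ (hq y hy a ha)).2 (not_lt.1 hlt)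
      refine h2.trans ?_
      have h3 : 17 * θ a x y * E a x y ≤ Θ x y * (17 * E a x y) := by
        have := mul_le_mul_of_nonneg_right (hle x y a ha)
          (mul_nonneg (by norm_num : (0:ℝ) ≤ 17) (hE a x y))
        linarith
      exact h3
  -- the set of relevant points
  set B := (range (2^K) ×ˢ range (2^K)).filter (fun z : ℕ × ℕ => (1/2:ℝ)^(l+4) ≤ Θ z.1 z.2)
    with hB
  have hSS : SS K l (cf K l (ee K g X lam)) ≤
      ∑ z ∈ B, Real.sqrt (Θ z.1 z.2) * Real.sqrt (17 * ∑ a ∈ range (K-l), E a z.1 z.2) := by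
    unfold SS
    rw [← Finset.sum_product' (range (2^K)) (range (2^K)) (fun x y =>
      Real.sqrt (∑ a ∈ range (K - l),
        (cf K l (ee K g X lam) a (x / 2^(K-a)) (y / 2^(a+l+1)))^2))]
    rw [← Finset.sum_subset (s₁ := B) (Finset.filter_subset _ _)]
    · refine Finset.sum_le_sum fun z hz => ?_
      have hz' := Finset.mem_product.1 (Finset.mem_filter.1 hz).1
      rw [mem_range, mem_range] at hz'
      rw [← Real.sqrt_mul (hΘ _ _)]
      apply Real.sqrt_le_sqrt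
      rw [Finset.mul_sum, Finset.mul_sum]
      exact Finset.sum_le_sum fun a ha => hc _ hz'.1 _ hz'.2 a ha
    · intro z hz hzB
      have hz' := Finset.mem_product.1 hz
      rw [mem_range, mem_range] at hz'
      have hlt : Θ z.1 z.2 < (1/2:ℝ)^(l+4) := by
        by_contra hcon
        exact hzB (Finset.mem_filter.2 ⟨hz, not_lt.1 hcon⟩)
      have h0 : ∑ a ∈ range (K - l),
          (cf K l (ee K g X lam) a (z.1 / 2^(K-a)) (z.2 / 2^(a+l+1)))^2 = 0 := by
        refine Finset.sum_eq_zero fun a ha => ?_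
        rw [hc0 _ hz'.1 _ hz'.2 a ha (lt_of_le_of_lt (hle _ _ a ha) hlt)]
        norm_num
      rw [h0, Real.sqrt_zero]
  have hCS : ∑ z ∈ B, Real.sqrt (Θ z.1 z.2) * Real.sqrt (17 * ∑ a ∈ range (K-l), E a z.1 z.2) ≤
      Real.sqrt (∑ z ∈ B, Θ z.1 z.2) *
        Real.sqrt (∑ z ∈ B, 17 * ∑ a ∈ range (K-l), E a z.1 z.2) :=
    Real.sum_sqrt_mul_sqrt_le B (f := fun z : ℕ × ℕ => Θ z.1 z.2)
      (g := fun z : ℕ × ℕ => 17 * ∑ a ∈ range (K-l), E a z.1 z.2)
      (fun z => hΘ _ _) (fun z => mul_nonneg (by norm_num) (Finset.sum_nonneg fun a _ => hE _ _ _))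
  -- the sum of the `E`
  have hEa : ∀ a ∈ range (K-l), ∑ z ∈ range (2^K) ×ˢ range (2^K), E a z.1 z.2 ≤
      ∑ y ∈ range (2^K), ∑ p ∈ range (2^a), (2:ℝ)^(K-a) * F a p y := by
    intro a ha
    have ha' := mem_range.1 ha
    rw [Finset.sum_product]
    calc ∑ x ∈ range (2^K), ∑ y ∈ range (2^K), E a x y
        ≤ ∑ x ∈ range (2^K), ∑ y ∈ range (2^K), F a (x / 2^(K-a)) y := by
          refine Finset.sum_le_sum fun x _ => ?_
          have h := d11b_avgy (2^K) (2^(a+l+1)) (by positivity) (fun y => F a (x / 2^(K-a)) y)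
            (fun y => hF _ _ _)
          push_cast at h
          exact h
      _ = ∑ y ∈ range (2^K), ∑ x ∈ range (2^K), F a (x / 2^(K-a)) y := Finset.sum_comm
      _ ≤ ∑ y ∈ range (2^K), ∑ p ∈ range (2^a), (2:ℝ)^(K-a) * F a p y := by
          refine Finset.sum_le_sum fun y _ => ?_
          exact d11b_sumx K a (by omega) (fun p => F a p y) (fun p => hF _ _ _)
  have hEsum : ∑ z ∈ range (2^K) ×ˢ range (2^K), ∑ a ∈ range (K-l), E a z.1 z.2 ≤
      10^8 * lam^2 * (1 + (l:ℝ) * Real.log 2) * n := by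
    rw [Finset.sum_comm]
    calc ∑ a ∈ range (K-l), ∑ z ∈ range (2^K) ×ˢ range (2^K), E a z.1 z.2
        ≤ ∑ a ∈ range (K-l), ∑ y ∈ range (2^K), ∑ p ∈ range (2^a), (2:ℝ)^(K-a) * F a p y :=
          Finset.sum_le_sum hEa
      _ ≤ ∑ a ∈ range K, ∑ y ∈ range (2^K), ∑ p ∈ range (2^a), (2:ℝ)^(K-a) * F a p y := by
          apply Finset.sum_le_sum_of_subset_of_nonneg
          · intro a ha
            rw [mem_range] at ha ⊢
            omega
          · intro a _ _
            exact Finset.sum_nonneg fun y _ => Finset.sum_nonneg fun p _ =>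
              mul_nonneg (by positivity) (hF _ _ _)
      _ = ∑ y ∈ range (2^K), ∑ a ∈ range K, ∑ p ∈ range (2^a), (2:ℝ)^(K-a) * F a p y :=
          Finset.sum_comm
      _ = (2:ℝ)^K * ∑ y ∈ range (2^K), ∑ t ∈ range K, ∑ p ∈ range (2^t),
            (1/2:ℝ)^t * (ee K g X lam t p y)^2 / (pw K g lam t p y + e) := by
          rw [Finset.mul_sum]
          refine Finset.sum_congr rfl fun y _ => ?_
          rw [Finset.mul_sum]
          refine Finset.sum_congr rfl fun a ha => ?_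
          rw [Finset.mul_sum]
          refine Finset.sum_congr rfl fun p _ => ?_
          have ha' := mem_range.1 ha
          have h2 : (2:ℝ)^(K-a) = (2:ℝ)^K * (1/2:ℝ)^a := by
            rw [one_div, inv_pow, pow_sub₀ (2:ℝ) (by norm_num) ha'.le]
          rw [h2]
          simp only [F]
          ring
      _ ≤ (2:ℝ)^K * (10^8 * lam^2 * (1 + Real.log (1/e)) * n / 2^K) :=
          mul_le_mul_of_nonneg_left h9 (by positivity)
      _ = 10^8 * lam^2 * (1 + (l:ℝ) * Real.log 2) * n := by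
          have h3 : Real.log (1/e) = (l:ℝ) * Real.log 2 := by
            rw [he, one_div, Real.log_inv, Real.log_pow, one_div, Real.log_inv]
            ring
          rw [h3]
          field_simp
  have hEB : ∑ z ∈ B, 17 * ∑ a ∈ range (K-l), E a z.1 z.2 ≤
      17 * (10^8 * lam^2 * (1 + (l:ℝ)) * n) := by
    rw [← Finset.mul_sum]
    apply mul_le_mul_of_nonneg_left _ (by norm_num)
    calc ∑ z ∈ B, ∑ a ∈ range (K-l), E a z.1 z.2
        ≤ ∑ z ∈ range (2^K) ×ˢ range (2^K), ∑ a ∈ range (K-l), E a z.1 z.2 := by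
          apply Finset.sum_le_sum_of_subset_of_nonneg (Finset.filter_subset _ _)
          intro z _ _
          exact Finset.sum_nonneg fun a _ => hE _ _ _
      _ ≤ 10^8 * lam^2 * (1 + (l:ℝ) * Real.log 2) * n := hEsum
      _ ≤ 10^8 * lam^2 * (1 + (l:ℝ)) * n := by
          apply mul_le_mul_of_nonneg_right _ hnn
          apply mul_le_mul_of_nonneg_left _ (by positivity)
          have h4 : Real.log 2 ≤ 1 := by
            have := Real.log_two_lt_d9
            linarith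
          have h5 : (l:ℝ) * Real.log 2 ≤ l * 1 :=
            mul_le_mul_of_nonneg_left h4 (Nat.cast_nonneg _)
          linarith
  have hl0 : (0:ℝ) ≤ l := Nat.cast_nonneg _
  refine hSS.trans (hCS.trans ?_)
  rw [← Real.sqrt_mul (Finset.sum_nonneg fun z _ => hΘ _ _)]
  apply Real.sqrt_le_iff.2
  refine ⟨by positivity, ?_⟩
  have hA : ∑ z ∈ B, Θ z.1 z.2 ≤ 480 * ((l:ℝ)+1)^2 * n := by
    refine h1.trans ?_
    apply mul_le_mul_of_nonneg_right _ hnn
    push_cast
    nlinarith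
  calc (∑ z ∈ B, Θ z.1 z.2) * ∑ z ∈ B, 17 * ∑ a ∈ range (K-l), E a z.1 z.2
      ≤ (480 * ((l:ℝ)+1)^2 * n) * (17 * (10^8 * lam^2 * (1 + (l:ℝ)) * n)) := by
        apply mul_le_mul hA hEB
        · exact Finset.sum_nonneg fun z _ => mul_nonneg (by norm_num)
            (Finset.sum_nonneg fun a _ => hE _ _ _)
        · positivity
    _ = (8160 * 10^8) * (((l:ℝ)+1)^3 * (lam^2 * n^2)) := by ring
    _ ≤ (10^12) * (((l:ℝ)+1)^4 * (lam^2 * n^2)) := by
        apply mul_le_mul (by norm_num) _ (by positivity) (by norm_num)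
        apply mul_le_mul_of_nonneg_right _ (by positivity)
        have h6 : (1:ℝ) ≤ (l:ℝ)+1 := by linarith
        exact pow_le_pow_right₀ h6 (by norm_num)
    _ = (10^6 * ((l:ℝ)+1)^2 * lam * n)^2 := by ring

end BernD.SD11b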