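import Pool.Agent.Helper643.BernD

open Finset



namespace BernD.SD11c
theorem minkD (s : Finset ℕ) (f h : ℕ → ℝ) :
    Real.sqrt (∑ i ∈ s, (f i + h i)^2) ≤ Real.sqrt (∑ i ∈ s, (f i)^2) +
      Real.sqrt (∑ i ∈ s, (h i)^2) := by
  apply Real.sqrt_le_iff.mpr
  refine ⟨by positivity, ?_⟩
  have hf : 0 ≤ ∑ i ∈ s, (f i)^2 := Finset.sum_nonneg fun _ _ => sq_nonneg _
  have hh : 0 ≤ ∑ i ∈ s, (h i)^2 := Finset.sum_nonneg fun _ _ => sq_nonneg _
  have h1 := Real.sum_mul_le_sqrt_mul_sqrt s f h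
  have h2 : ∑ i ∈ s, (f i + h i)^2 = ∑ i ∈ s, (f i)^2 + ∑ i ∈ s, (h i)^2 +
      2 * ∑ i ∈ s, f i * h i := by
    rw [Finset.mul_sum, ← Finset.sum_add_distrib, ← Finset.sum_add_distrib]
    exact Finset.sum_congr rfl fun i _ => by ring
  have h3 : (Real.sqrt (∑ i ∈ s, (f i)^2) + Real.sqrt (∑ i ∈ s, (h i)^2))^2 =
      ∑ i ∈ s, (f i)^2 + ∑ i ∈ s, (h i)^2 +
      2 * (Real.sqrt (∑ i ∈ s, (f i)^2) * Real.sqrt (∑ i ∈ s, (h i)^2)) := by
    have e1 := Real.sq_sqrt hf
    have e2 := Real.sq_sqrt hh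
    nlinarith
  rw [h2, h3]
  linarith

theorem ss_addD (K l : ℕ) (c d : ℕ → ℕ → ℕ → ℝ) :
    SS K l (fun a p q => c a p q + d a p q) ≤ SS K l c + SS K l d := by
  unfold SS
  rw [← Finset.sum_add_distrib]
  apply Finset.sum_le_sum
  intro x _
  rw [← Finset.sum_add_distrib]
  apply Finset.sum_le_sum
  intro y _
  exact minkD _ _ _

theorem cf_addD (K l : ℕ) (k h : ℕ → ℕ → ℕ → ℝ) :
    cf K l (fun t p y => k t p y + h t p y) = fun a p q => cf K l k a p q + cf K l h a p q := by
  funext a p q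
  unfold cf
  rw [← add_div, ← Finset.sum_add_distrib]
  congr 1
  exact Finset.sum_congr rfl fun y _ => by ring

theorem ss_sumD (K l : ℕ) (N : ℕ) (k : ℕ → ℕ → ℕ → ℕ → ℝ) (r : ℕ → ℕ → ℕ → ℝ) :
    SS K l (cf K l (fun t p y => ∑ j ∈ range N, k j t p y + r t p y)) ≤
      ∑ j ∈ range N, SS K l (cf K l (k j)) + SS K l (cf K l r) := by
  induction N with
  | zero => simp
  | succ n ih =>
    have e : (fun t p y => ∑ j ∈ range (n+1), k j t p y + r t p y) =
        fun t p y => k n t p y + (∑ j ∈ range n, k j t p y + r t p y) := by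
      funext t p y
      rw [Finset.sum_range_succ]; ring
    rw [e, cf_addD]
    refine (ss_addD K l _ _).trans ?_
    rw [Finset.sum_range_succ]
    have := ih
    linarith

theorem ss_congrD (K l : ℕ) (k h : ℕ → ℕ → ℕ → ℝ)
    (H : ∀ t < K, ∀ p < 2^t, ∀ y < 2^K, k t p y = h t p y) :
    SS K l (cf K l k) = SS K l (cf K l h) := by
  unfold SS
  apply Finset.sum_congr rfl
  intro x hx
  apply Finset.sum_congr rfl
  intro y hy
  congr 1
  apply Finset.sum_congr rfl
  intro a ha
  congr 1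
  unfold cf
  congr 1
  apply Finset.sum_congr rfl
  intro y' hy'
  rw [Finset.mem_filter, Finset.mem_range] at hy'
  rw [Finset.mem_range] at ha hx
  have haK : a < K := by omega
  rw [H a haK _ ?_ y' hy'.1]
  rw [Nat.div_lt_iff_lt_mul (by positivity), ← pow_add]
  rwa [show a + (K - a) = K by omega]

theorem card_blockD (M d q : ℕ) (hd : 0 < d) :
    ((range M).filter (fun y => y / d = q)).card ≤ d := by
  have : ((range M).filter (fun y => y / d = q)) ⊆ Finset.Ico (q*d) (q*d+d) := by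
    intro y hy
    rw [Finset.mem_filter] at hy
    rw [Finset.mem_Ico]
    have h1 := Nat.div_add_mod y d
    have h2 := Nat.mod_lt y hd
    rw [hy.2] at h1
    rw [Nat.mul_comm] at h1
    generalize q * d = w at h1 ⊢
    constructor <;> omega
  calc _ ≤ (Finset.Ico (q*d) (q*d+d)).card := Finset.card_le_card this
    _ = d := by simp

theorem ss_bdD (K l : ℕ) (k : ℕ → ℕ → ℕ → ℝ) (B : ℝ) (hB : 0 ≤ B)
    (H : ∀ t < K, ∀ p < 2^t, ∀ y < 2^K, |k t p y| ≤ B) :
    SS K l (cf K l k) ≤ Real.sqrt K * B * 4^K := by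
  have hcf : ∀ a < K, ∀ p < 2^a, ∀ q, |cf K l k a p q| ≤ B := by
    intro a ha p hp q
    unfold cf
    rw [abs_div, abs_of_pos (show (0:ℝ) < 2^(a+l+1) by positivity), div_le_iff₀ (by positivity)]
    refine (Finset.abs_sum_le_sum_abs _ _).trans ?_
    have : ∀ y ∈ (range (2^K)).filter (fun y => y / 2^(a+l+1) = q),
        |(-1:ℝ)^(y / 2^(a+l)) * k a p y| ≤ B := by
      intro y hy
      rw [Finset.mem_filter, Finset.mem_range] at hy
      rw [abs_mul, abs_pow, abs_neg, abs_one, one_pow, one_mul]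
      exact H a ha p hp y hy.1
    refine (Finset.sum_le_sum this).trans ?_
    rw [Finset.sum_const, nsmul_eq_mul, mul_comm]
    apply mul_le_mul_of_nonneg_left _ hB
    exact_mod_cast card_blockD (2^K) (2^(a+l+1)) q (by positivity)
  unfold SS
  have h1 : ∀ x ∈ range (2^K), ∑ y ∈ range (2^K),
      Real.sqrt (∑ a ∈ range (K - l), (cf K l k a (x / 2^(K-a)) (y / 2^(a+l+1)))^2) ≤
      2^K * (Real.sqrt K * B) := by
    intro x hx
    rw [Finset.mem_range] at hx
    have h2 : ∀ y ∈ range (2^K),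
        Real.sqrt (∑ a ∈ range (K - l), (cf K l k a (x / 2^(K-a)) (y / 2^(a+l+1)))^2) ≤
        Real.sqrt K * B := by
      intro y _
      apply Real.sqrt_le_iff.mpr
      refine ⟨by positivity, ?_⟩
      rw [mul_pow, Real.sq_sqrt (by positivity)]
      have h3 : ∀ a ∈ range (K - l), (cf K l k a (x / 2^(K-a)) (y / 2^(a+l+1)))^2 ≤ B^2 := by
        intro a ha
        rw [Finset.mem_range] at ha
        have haK : a < K := by omega
        apply sq_le_sq'
        · have := hcf a haK (x / 2^(K-a)) ?_ (y / 2^(a+l+1))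
          · exact (abs_le.mp this).1
          · rw [Nat.div_lt_iff_lt_mul (by positivity), ← pow_add]
            rwa [show a + (K - a) = K by omega]
        · have := hcf a haK (x / 2^(K-a)) ?_ (y / 2^(a+l+1))
          · exact (abs_le.mp this).2
          · rw [Nat.div_lt_iff_lt_mul (by positivity), ← pow_add]
            rwa [show a + (K - a) = K by omega]
      refine (Finset.sum_le_sum h3).trans ?_
      rw [Finset.sum_const, Finset.card_range, nsmul_eq_mul]
      apply mul_le_mul_of_nonneg_right _ (sq_nonneg _)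
      exact_mod_cast Nat.sub_le K l
    refine (Finset.sum_le_sum h2).trans ?_
    rw [Finset.sum_const, Finset.card_range, nsmul_eq_mul]
    push_cast
    exact le_rfl
  refine (Finset.sum_le_sum h1).trans ?_
  rw [Finset.sum_const, Finset.card_range, nsmul_eq_mul]
  push_cast
  rw [show (4:ℝ)^K = 2^K * 2^K by rw [← mul_pow]; norm_num]
  apply le_of_eq; ring

theorem block_splitD (M n p : ℕ) (f : ℕ → ℝ) :
    ∑ x ∈ (range M).filter (fun x => x / 2^(n+1) = p), f x =
    ∑ x ∈ (range M).filter (fun x => x / 2^n = 2*p), f x +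
    ∑ x ∈ (range M).filter (fun x => x / 2^n = 2*p+1), f x := by
  rw [← Finset.sum_union]
  · congr 1
    ext x
    simp only [Finset.mem_filter, Finset.mem_union, Finset.mem_range]
    rw [pow_succ, ← Nat.div_div_eq_div_mul]
    constructor
    · rintro ⟨h1, h2⟩
      have : x / 2^n = 2*p ∨ x / 2^n = 2*p+1 := by omega
      rcases this with h | h
      · exact Or.inl ⟨h1, h⟩
      · exact Or.inr ⟨h1, h⟩
    · rintro (⟨h1, h2⟩ | ⟨h1, h2⟩)
      · exact ⟨h1, by omega⟩
      · exact ⟨h1, by omega⟩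
  · rw [Finset.disjoint_left]
    intro x hx hx'
    rw [Finset.mem_filter] at hx hx'
    omega

theorem uaux_avgD (K : ℕ) (g : ℕ → ℕ → ℝ) (X : ℕ → ℕ → ℕ → ℝ) (bad : ℕ → ℕ → Prop) (y : ℕ)
    (hbad : ∀ t p, ¬ bad t p) (htop : ∀ x < 2^K, X K x y = g x y) :
    ∀ n t p, t + n = K → p < 2^t → Uaux bad (fun t p => X t p y) n t p =
      (∑ x ∈ (range (2^K)).filter (fun x => x / 2^n = p), g x y) / 2^n := by
  intro n
  induction n with
  | zero =>
    intro t p ht hp
    rw [Nat.add_zero] at ht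
    subst ht
    have : (range (2^t)).filter (fun x => x / 2^0 = p) = {p} := by
      ext x
      simp only [Finset.mem_filter, Finset.mem_range, pow_zero, Nat.div_one, Finset.mem_singleton]
      constructor
      · rintro ⟨_, h⟩; exact h
      · rintro rfl; exact ⟨hp, rfl⟩
    rw [this, Finset.sum_singleton, pow_zero, div_one, Uaux]
    exact htop p hp
  | succ n ih =>
    intro t p ht hp
    rw [Uaux, if_neg (hbad t p), ih (t+1) (2*p) (by omega) (by rw [pow_succ]; omega),
      ih (t+1) (2*p+1) (by omega) (by rw [pow_succ]; omega), block_splitD]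
    rw [pow_succ]
    field_simp

theorem levD (δ v : ℝ) (hδ : 0 < δ) (hv : 0 ≤ v) (N : ℕ) :
    ∑ j ∈ range N, (if δ * 2^j < v then δ * 2^j else 0) ≤ 2 * v ∧
    ∑ j ∈ range N, (if δ * 2^j < v then δ * 2^j else 0) ≤ δ * 2^N := by
  induction N with
  | zero => simp only [Finset.range_zero, Finset.sum_empty, pow_zero, mul_one]; exact ⟨by positivity, hδ.le⟩
  | succ n ih =>
    rw [Finset.sum_range_succ, pow_succ]
    obtain ⟨h1, h2⟩ := ih
    by_cases h : δ * 2^n < v
    · simp only [if_pos h]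
      constructor <;> linarith
    · simp only [if_neg h]
      have : 0 < δ * 2^n := by positivity
      constructor
      · linarith
      · linarith

open Classical in
theorem num_eqD (K : ℕ) (P : ℕ → ℕ → Prop) :
    num K P = ∑ x ∈ range (2^K), ∑ y ∈ range (2^K), if P x y then (1:ℝ) else 0 := by
  unfold num
  rw [Finset.card_filter, ← Finset.sum_product']
  push_cast
  rfl

theorem rct_zeroD (K : ℕ) (P : ℕ → ℕ → Prop) (t p s q : ℕ)
    (h : ∀ x < 2^K, ∀ y < 2^K, ¬ P x y) : rct K P t p s q = 0 := by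
  classical
  unfold rct
  have : ((range (2^K) ×ˢ range (2^K)).filter
      (fun z => z.1 / 2^(K-t) = p ∧ z.2 / 2^s = q ∧ P z.1 z.2)) = ∅ := by
    apply Finset.filter_false_of_mem
    rintro z hz ⟨_, _, h3⟩
    rw [Finset.mem_product, Finset.mem_range, Finset.mem_range] at hz
    exact h _ hz.1 _ hz.2 h3
  rw [this]
  simp

open Classical in
theorem d11c (K : ℕ) (g : ℕ → ℕ → ℝ) (X : ℕ → ℕ → ℕ → ℝ) (hX : Pot K g X)
    (l : ℕ) (hl : l < K)
    (hee : ∀ lam : ℝ, 0 < lam → SS K l (cf K l (ee K g X lam)) ≤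
      10^6 * ((l:ℝ)+1)^2 * lam * num K (Om K g lam))
    (hOm : ∀ lam : ℝ, 0 < lam → num K (Om K g lam) ≤ 7680 * num K (fun x y => lam < |g x y|))
    (hk : ∀ lam : ℝ, 0 < lam → ∀ t < K, ∀ p < 2^t, ∀ y < 2^K, pw K g lam t p y ≤ 1/8 →
      |kk K g X lam t p y| ≤ 7 * lam) :
    SS K l (cf K l (kinf K g)) ≤ 2 * 10^10 * ((l:ℝ)+1)^2 *
      ∑ x ∈ range (2^K), ∑ y ∈ range (2^K), |g x y| := by
  classical
  obtain ⟨M, hM⟩ : ∃ M : ℝ, ∀ x < 2^K, ∀ y < 2^K, |g x y| ≤ M := by
    refine ⟨∑ x ∈ range (2^K), ∑ y ∈ range (2^K), |g x y|, ?_⟩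
    intro x hx y hy
    have h1 : |g x y| ≤ ∑ y ∈ range (2^K), |g x y| :=
      Finset.single_le_sum (f := fun y => |g x y|) (fun _ _ => abs_nonneg _)
        (Finset.mem_range.mpr hy)
    have h2 : ∑ y ∈ range (2^K), |g x y| ≤ ∑ x ∈ range (2^K), ∑ y ∈ range (2^K), |g x y| :=
      Finset.single_le_sum (f := fun x => ∑ y ∈ range (2^K), |g x y|)
        (fun _ _ => Finset.sum_nonneg fun _ _ => abs_nonneg _) (Finset.mem_range.mpr hx)
    exact h1.trans h2
  -- main estimate for each δ
  have main : ∀ δ : ℝ, 0 < δ → SS K l (cf K l (kinf K g)) ≤ 2 * 10^10 * ((l:ℝ)+1)^2 *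
      ∑ x ∈ range (2^K), ∑ y ∈ range (2^K), |g x y| + Real.sqrt K * (7 * δ) * 4^K := by
    intro δ hδ
    obtain ⟨N, hN⟩ : ∃ N : ℕ, M ≤ δ * 2^N := by
      obtain ⟨N, hN⟩ := pow_unbounded_of_one_lt (M / δ) (one_lt_two)
      refine ⟨N, ?_⟩
      rw [div_lt_iff₀ hδ] at hN
      linarith
    let F : ℝ → ℕ → ℕ → ℕ → ℝ := fun lam t p y =>
      if pw K g lam t p y ≤ 1/8 then kk K g X lam t p y else 0
    have hee' : ∀ lam t p y, ee K g X lam t p y = F (2*lam) t p y - F lam t p y := by
      intro lam t p y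
      simp only [ee, F]
    have htel : ∀ t p y, ∑ j ∈ range N, ee K g X (δ * 2^j) t p y =
        F (δ * 2^N) t p y - F δ t p y := by
      intro t p y
      have : ∀ j ∈ range N, ee K g X (δ * 2^j) t p y =
          F (δ * 2^(j+1)) t p y - F (δ * 2^j) t p y := by
        intro j _
        rw [hee', pow_succ, show 2 * (δ * 2^j) = δ * (2^j * 2) by ring]
      rw [Finset.sum_congr rfl this, Finset.sum_range_sub (fun j => F (δ * 2^j) t p y)]
      simp
    -- top level
    have hnot : ∀ x < 2^K, ∀ y < 2^K, ¬ (δ * 2^N < |g x y|) := by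
      intro x hx y hy h
      have := hM x hx y hy
      linarith
    have hBad : ∀ t p y, ¬ Bad K g (δ * 2^N) t p y := by
      intro t p y h
      unfold Bad at h
      rw [rct_zeroD K _ _ _ _ _ hnot] at h
      norm_num at h
    have hOmF : ∀ x y, ¬ Om K g (δ * 2^N) x y := by
      rintro x y ⟨t, _, h⟩
      exact hBad _ _ _ h
    have hpw : ∀ t p y, pw K g (δ * 2^N) t p y = 0 := by
      intro t p y
      unfold pw
      exact rct_zeroD K _ _ _ _ _ (fun x _ y _ => hOmF x y)
    have hU : ∀ t ≤ K, ∀ p < 2^t, ∀ y < 2^K, U K g X (δ * 2^N) t p y =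
        (∑ x ∈ (range (2^K)).filter (fun x => x / 2^(K-t) = p), g x y) / 2^(K-t) := by
      intro t ht p hp y hy
      unfold U
      exact uaux_avgD K g X _ y (fun t p => hBad t p y) (fun x hx => hX.top x hx y hy) (K-t) t p
        (by omega) hp
    have htopF : ∀ t < K, ∀ p < 2^t, ∀ y < 2^K, F (δ * 2^N) t p y = kinf K g t p y := by
      intro t ht p hp y hy
      simp only [F]
      rw [hpw, if_pos (by norm_num)]
      unfold kk kinf
      rw [hU (t+1) (by omega) (2*p) (by rw [pow_succ]; omega) y hy,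
        hU (t+1) (by omega) (2*p+1) (by rw [pow_succ]; omega) y hy]
    have hk1 : SS K l (cf K l (kinf K g)) =
        SS K l (cf K l (fun t p y => ∑ j ∈ range N, ee K g X (δ * 2^j) t p y + F δ t p y)) := by
      apply ss_congrD
      intro t ht p hp y hy
      rw [htel, htopF t ht p hp y hy]
      ring
    rw [hk1]
    refine (ss_sumD K l N (fun j => ee K g X (δ * 2^j)) (F δ)).trans ?_
    have hF : SS K l (cf K l (F δ)) ≤ Real.sqrt K * (7 * δ) * 4^K := by
      apply ss_bdD K l _ _ (by positivity)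
      intro t ht p hp y hy
      simp only [F]
      split_ifs with h
      · exact hk δ hδ t ht p hp y hy h
      · rw [abs_zero]; positivity
    have hsum : ∑ j ∈ range N, SS K l (cf K l (ee K g X (δ * 2^j))) ≤
        2 * 10^10 * ((l:ℝ)+1)^2 * ∑ x ∈ range (2^K), ∑ y ∈ range (2^K), |g x y| := by
      have h1 : ∀ j ∈ range N, SS K l (cf K l (ee K g X (δ * 2^j))) ≤
          (7680 * 10^6 * ((l:ℝ)+1)^2) * ∑ x ∈ range (2^K), ∑ y ∈ range (2^K),
            (if δ * 2^j < |g x y| then δ * 2^j else 0) := by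
        intro j _
        have hpos : 0 < δ * 2^j := by positivity
        have e1 := hee (δ * 2^j) hpos
        have e2 := hOm (δ * 2^j) hpos
        have e3 : (δ * 2^j) * num K (fun x y => δ * 2^j < |g x y|) =
            ∑ x ∈ range (2^K), ∑ y ∈ range (2^K),
            (if δ * 2^j < |g x y| then δ * 2^j else 0) := by
          rw [num_eqD, Finset.mul_sum]
          apply Finset.sum_congr rfl
          intro x _
          rw [Finset.mul_sum]
          apply Finset.sum_congr rfl
          intro y _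
          rw [mul_ite, mul_one, mul_zero]
        rw [← e3]
        refine e1.trans ?_
        have : (0:ℝ) ≤ 10^6 * ((l:ℝ)+1)^2 * (δ * 2^j) := by positivity
        have := mul_le_mul_of_nonneg_left e2 this
        refine this.trans (le_of_eq ?_)
        ring
      refine (Finset.sum_le_sum h1).trans ?_
      rw [← Finset.mul_sum]
      have h2 : ∑ j ∈ range N, ∑ x ∈ range (2^K), ∑ y ∈ range (2^K),
            (if δ * 2^j < |g x y| then δ * 2^j else 0) ≤
            ∑ x ∈ range (2^K), ∑ y ∈ range (2^K), 2 * |g x y| := by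
        rw [Finset.sum_comm]
        apply Finset.sum_le_sum
        intro x _
        rw [Finset.sum_comm]
        apply Finset.sum_le_sum
        intro y _
        exact (levD δ |g x y| hδ (abs_nonneg _) N).1
      have h3 : ∑ x ∈ range (2^K), ∑ y ∈ range (2^K), 2 * |g x y| =
          2 * ∑ x ∈ range (2^K), ∑ y ∈ range (2^K), |g x y| := by
        rw [Finset.mul_sum]
        exact Finset.sum_congr rfl fun x _ => by rw [Finset.mul_sum]
      rw [h3] at h2
      have hnn : 0 ≤ ∑ x ∈ range (2^K), ∑ y ∈ range (2^K), |g x y| :=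
        Finset.sum_nonneg fun _ _ => Finset.sum_nonneg fun _ _ => abs_nonneg _
      have hl2 : (0:ℝ) ≤ ((l:ℝ)+1)^2 := by positivity
      calc _ ≤ (7680 * 10^6 * ((l:ℝ)+1)^2) * (2 * ∑ x ∈ range (2^K), ∑ y ∈ range (2^K), |g x y|) :=
            mul_le_mul_of_nonneg_left h2 (by positivity)
        _ = (15360 * 10^6) * (((l:ℝ)+1)^2 * ∑ x ∈ range (2^K), ∑ y ∈ range (2^K), |g x y|) := by ring
        _ ≤ (2 * 10^10) * (((l:ℝ)+1)^2 * ∑ x ∈ range (2^K), ∑ y ∈ range (2^K), |g x y|) := by
            apply mul_le_mul_of_nonneg_right (by norm_num)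
            positivity
        _ = _ := by ring
    linarith
  apply le_of_forall_pos_le_add
  intro ε hε
  have hC : 0 < Real.sqrt K * 7 * 4^K + 1 := by positivity
  have := main (ε / (Real.sqrt K * 7 * 4^K + 1)) (by positivity)
  refine this.trans ?_
  have h1 : Real.sqrt K * (7 * (ε / (Real.sqrt K * 7 * 4^K + 1))) * 4^K ≤ ε := by
    have : Real.sqrt K * (7 * (ε / (Real.sqrt K * 7 * 4^K + 1))) * 4^K =
        (Real.sqrt K * 7 * 4^K) * ε / (Real.sqrt K * 7 * 4^K + 1) := by ring
    rw [this, div_le_iff₀ hC]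
    nlinarith
  linarith

end BernD.SD11c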