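import Pool.Agent.Helper643.BernD

open Finset



namespace BernD.SD2
open Classical in
/-- indicator -/
noncomputable def st836_ind (P : ℕ → ℕ → Prop) (x y : ℕ) : ℝ := if P x y then 1 else 0

theorem st836_ind_nonneg (P : ℕ → ℕ → Prop) (x y : ℕ) : 0 ≤ st836_ind P x y := by
  unfold st836_ind; split_ifs <;> norm_num

theorem st836_ind_le (P : ℕ → ℕ → Prop) (x y : ℕ) : st836_ind P x y ≤ 1 := by
  unfold st836_ind; split_ifs <;> norm_num

/-- average over a dyadic block -/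
noncomputable def st836_av (K : ℕ) (f : ℕ → ℝ) (s y : ℕ) : ℝ :=
  (∑ z ∈ (range (2^K)).filter (fun z => z / 2^s = y / 2^s), f z) / 2^s

theorem st836_av_nonneg {K : ℕ} {f : ℕ → ℝ} (hf : ∀ x, 0 ≤ f x) (s y : ℕ) :
    0 ≤ st836_av K f s y :=
  div_nonneg (Finset.sum_nonneg fun x _ => hf x) (by positivity)

theorem st836_av_le {K : ℕ} {f : ℕ → ℝ} (hf : ∀ x, f x ≤ 1) (s y : ℕ) :
    st836_av K f s y ≤ 1 := by
  unfold st836_av
  rw [div_le_one (by positivity)]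
  have h1 : ((range (2^K)).filter (fun z => z / 2^s = y / 2^s)) ⊆
      Finset.Ico (y / 2^s * 2^s) (y / 2^s * 2^s + 2^s) := by
    intro z hz
    rw [Finset.mem_filter] at hz
    rw [Finset.mem_Ico, ← hz.2]
    refine ⟨Nat.div_mul_le_self _ _, ?_⟩
    exact Nat.lt_div_mul_add (by positivity)
  have h2 := Finset.card_le_card h1
  rw [Nat.card_Ico, Nat.add_sub_cancel_left] at h2
  calc (∑ z ∈ (range (2^K)).filter (fun z => z / 2^s = y / 2^s), f z)
      ≤ ∑ z ∈ (range (2^K)).filter (fun z => z / 2^s = y / 2^s), (1 : ℝ) :=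
        Finset.sum_le_sum fun x _ => hf x
    _ = (((range (2^K)).filter (fun z => z / 2^s = y / 2^s)).card : ℝ) := by simp
    _ ≤ 2^s := by exact_mod_cast h2

theorem st836_av_mono {K : ℕ} {f g : ℕ → ℝ} (h : ∀ x < 2^K, f x ≤ g x) (s y : ℕ) :
    st836_av K f s y ≤ st836_av K g s y := by
  unfold st836_av
  apply div_le_div_of_nonneg_right _ (by positivity)
  apply Finset.sum_le_sum
  intro x hx
  exact h x (Finset.mem_range.1 (Finset.mem_filter.1 hx).1)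

theorem st836_exists (K : ℕ) (f : ℕ → ℝ) (y : ℕ) :
    ∃ S, S ≤ K ∧ ∀ s ≤ K, st836_av K f s y ≤ st836_av K f S y := by
  obtain ⟨S, hS, hS2⟩ := Finset.exists_max_image (range (K + 1)) (fun s => st836_av K f s y)
    ⟨0, by simp⟩
  refine ⟨S, Nat.lt_succ_iff.1 (Finset.mem_range.1 hS), fun s hs => ?_⟩
  exact hS2 s (Finset.mem_range.2 (Nat.lt_succ_iff.2 hs))

/-- maximal function -/
noncomputable def st836_mx (K : ℕ) (f : ℕ → ℝ) (y : ℕ) : ℝ :=
  st836_av K f (Classical.choose (st836_exists K f y)) y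

theorem st836_mx_eq (K : ℕ) (f : ℕ → ℝ) (y : ℕ) : ∃ s ≤ K, st836_mx K f y = st836_av K f s y :=
  ⟨_, (Classical.choose_spec (st836_exists K f y)).1, rfl⟩

theorem st836_le_mx (K : ℕ) (f : ℕ → ℝ) (y : ℕ) {s : ℕ} (hs : s ≤ K) :
    st836_av K f s y ≤ st836_mx K f y :=
  (Classical.choose_spec (st836_exists K f y)).2 s hs

theorem st836_mx_nonneg {K : ℕ} {f : ℕ → ℝ} (hf : ∀ x, 0 ≤ f x) (y : ℕ) :
    0 ≤ st836_mx K f y := st836_av_nonneg hf _ _

theorem st836_mx_le {K : ℕ} {f : ℕ → ℝ} (hf : ∀ x, f x ≤ 1) (y : ℕ) :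
    st836_mx K f y ≤ 1 := st836_av_le hf _ _

/-- the one-parameter maximal function, cut off -/
noncomputable def st836_h (K : ℕ) (P : ℕ → ℕ → Prop) (x y : ℕ) : ℝ :=
  if x < 2^K ∧ y < 2^K then st836_mx K (st836_ind P x) y else 0

theorem st836_h_nonneg (K : ℕ) (P : ℕ → ℕ → Prop) (x y : ℕ) : 0 ≤ st836_h K P x y := by
  unfold st836_h; split_ifs
  · exact st836_mx_nonneg (st836_ind_nonneg P x) y
  · exact le_rfl

theorem st836_h_le (K : ℕ) (P : ℕ → ℕ → Prop) (x y : ℕ) : st836_h K P x y ≤ 1 := by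
  unfold st836_h; split_ifs
  · exact st836_mx_le (st836_ind_le P x) y
  · norm_num

theorem st836_rct (K : ℕ) (P : ℕ → ℕ → Prop) (a s x y : ℕ) :
    rct K P a (x / 2^(K-a)) s (y / 2^s) =
      st836_av K (fun x' => st836_av K (st836_ind P x') s y) (K-a) x := by
  classical
  unfold rct st836_av
  rw [← Finset.sum_div, div_div, mul_comm ((2:ℝ)^s)]
  congr 1
  rw [Finset.natCast_card_filter, Finset.sum_product, Finset.sum_filter]
  apply Finset.sum_congr rfl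
  intro x' _
  split_ifs with h1
  · rw [Finset.sum_filter]
    apply Finset.sum_congr rfl
    intro y' _
    unfold st836_ind
    by_cases h2 : y' / 2^s = y / 2^s
    · by_cases h3 : P x' y'
      · simp [h1, h2, h3]
      · simp [h1, h2, h3]
    · simp [h1, h2]
  · apply Finset.sum_eq_zero
    intro y' _
    simp [h1]

theorem st836_rct_le (K : ℕ) (P : ℕ → ℕ → Prop) (a s x y : ℕ) (hs : s ≤ K)
    (hy : y < 2^K) :
    rct K P a (x / 2^(K-a)) s (y / 2^s) ≤ st836_mx K (fun x' => st836_h K P x' y) x := by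
  rw [st836_rct]
  refine le_trans ?_ (st836_le_mx K _ x (Nat.sub_le K a))
  apply st836_av_mono
  intro x' hx'
  unfold st836_h
  rw [if_pos ⟨hx', hy⟩]
  exact st836_le_mx K _ y hs

theorem st836_num (K : ℕ) (P : ℕ → ℕ → Prop) :
    num K P = ∑ x ∈ range (2^K), ∑ y ∈ range (2^K), st836_ind P x y := by
  classical
  unfold num
  rw [Finset.natCast_card_filter, Finset.sum_product]
  apply Finset.sum_congr rfl
  intro x _
  apply Finset.sum_congr rfl
  intro y _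
  unfold st836_ind
  rfl

theorem st836_max
    (max1 : ∀ (K L : ℕ) (h : ℕ → ℝ), (∀ x, 0 ≤ h x) → (∀ x, h x ≤ 1) → ∀ (Mh : ℕ → ℝ),
      (∀ x < 2^K, ∃ a ≤ K, Mh x =
        (∑ z ∈ (range (2^K)).filter (fun z => z / 2^(K-a) = x / 2^(K-a)), h z) / 2^(K-a)) →
      ∑ x ∈ (range (2^K)).filter (fun x => (1/2:ℝ)^L ≤ Mh x), Mh x ≤
        4 * ((L:ℝ)+1) * ∑ x ∈ (range (2^K)).filter (fun x => (1/2:ℝ)^(L+1) ≤ h x), h x)
    (K L : ℕ) (f : ℕ → ℝ) (hf : ∀ x, 0 ≤ f x) (hf1 : ∀ x, f x ≤ 1) :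
    ∑ x ∈ (range (2^K)).filter (fun x => (1/2:ℝ)^L ≤ st836_mx K f x), st836_mx K f x ≤
        4 * ((L:ℝ)+1) * ∑ x ∈ (range (2^K)).filter (fun x => (1/2:ℝ)^(L+1) ≤ f x), f x := by
  apply max1 K L f hf hf1
  intro x _
  obtain ⟨s, hs, he⟩ := st836_mx_eq K f x
  refine ⟨K - s, Nat.sub_le _ _, ?_⟩
  rw [he, Nat.sub_sub_self hs]
  rfl

theorem strong
    (max1 : ∀ (K L : ℕ) (h : ℕ → ℝ), (∀ x, 0 ≤ h x) → (∀ x, h x ≤ 1) → ∀ (Mh : ℕ → ℝ),
      (∀ x < 2^K, ∃ a ≤ K, Mh x =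
        (∑ z ∈ (range (2^K)).filter (fun z => z / 2^(K-a) = x / 2^(K-a)), h z) / 2^(K-a)) →
      ∑ x ∈ (range (2^K)).filter (fun x => (1/2:ℝ)^L ≤ Mh x), Mh x ≤
        4 * ((L:ℝ)+1) * ∑ x ∈ (range (2^K)).filter (fun x => (1/2:ℝ)^(L+1) ≤ h x), h x)
    (K L : ℕ) (P : ℕ → ℕ → Prop) (Θ : ℕ → ℕ → ℝ)
    (hΘ : ∀ x < 2^K, ∀ y < 2^K, ∃ a ≤ K, ∃ s ≤ K,
      Θ x y = rct K P a (x / 2^(K-a)) s (y / 2^s)) :
    ∑ z ∈ (range (2^K) ×ˢ range (2^K)).filter (fun z => (1/2:ℝ)^L ≤ Θ z.1 z.2), Θ z.1 z.2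
      ≤ 16 * ((L:ℝ)+1) * ((L:ℝ)+2) * num K P := by
  classical
  have hMnn : ∀ x y, 0 ≤ st836_mx K (fun x' => st836_h K P x' y) x := fun x y =>
    st836_mx_nonneg (fun x' => st836_h_nonneg K P x' y) x
  have s1 : ∑ z ∈ (range (2^K) ×ˢ range (2^K)).filter (fun z => (1/2:ℝ)^L ≤ Θ z.1 z.2), Θ z.1 z.2
      ≤ ∑ y ∈ range (2^K), ∑ x ∈ (range (2^K)).filter
        (fun x => (1/2:ℝ)^L ≤ st836_mx K (fun x' => st836_h K P x' y) x),
          st836_mx K (fun x' => st836_h K P x' y) x := by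
    rw [Finset.sum_filter, Finset.sum_product, Finset.sum_comm]
    apply Finset.sum_le_sum
    intro y hy
    rw [Finset.sum_filter]
    apply Finset.sum_le_sum
    intro x hx
    rw [Finset.mem_range] at hx hy
    obtain ⟨a, ha, s, hs, he⟩ := hΘ x hx y hy
    have hle : Θ x y ≤ st836_mx K (fun x' => st836_h K P x' y) x := by
      rw [he]; exact st836_rct_le K P a s x y hs hy
    change (if (1/2:ℝ)^L ≤ Θ x y then Θ x y else 0) ≤ _
    by_cases h1 : (1/2:ℝ)^L ≤ Θ x y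
    · rw [if_pos h1, if_pos (h1.trans hle)]
      exact hle
    · rw [if_neg h1]
      split_ifs
      · exact hMnn x y
      · exact le_rfl
  have s2 : ∑ y ∈ range (2^K), ∑ x ∈ (range (2^K)).filter
        (fun x => (1/2:ℝ)^L ≤ st836_mx K (fun x' => st836_h K P x' y) x),
          st836_mx K (fun x' => st836_h K P x' y) x
      ≤ ∑ y ∈ range (2^K), 4 * ((L:ℝ)+1) * ∑ x ∈ (range (2^K)).filter
        (fun x => (1/2:ℝ)^(L+1) ≤ st836_h K P x y), st836_h K P x y := by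
    apply Finset.sum_le_sum
    intro y _
    exact st836_max max1 K L (fun x' => st836_h K P x' y) (fun x' => st836_h_nonneg K P x' y)
      (fun x' => st836_h_le K P x' y)
  have s3 : ∑ y ∈ range (2^K), 4 * ((L:ℝ)+1) * ∑ x ∈ (range (2^K)).filter
        (fun x => (1/2:ℝ)^(L+1) ≤ st836_h K P x y), st836_h K P x y
      = 4 * ((L:ℝ)+1) * ∑ x ∈ range (2^K), ∑ y ∈ (range (2^K)).filter
        (fun y => (1/2:ℝ)^(L+1) ≤ st836_h K P x y), st836_h K P x y := by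
    rw [← Finset.mul_sum]
    congr 1
    simp only [Finset.sum_filter]
    rw [Finset.sum_comm]
  have s4 : ∀ x ∈ range (2^K), ∑ y ∈ (range (2^K)).filter
        (fun y => (1/2:ℝ)^(L+1) ≤ st836_h K P x y), st836_h K P x y
      ≤ 4 * ((L:ℝ)+2) * ∑ y ∈ range (2^K), st836_ind P x y := by
    intro x hx
    rw [Finset.mem_range] at hx
    have h1 := st836_max max1 K (L+1) (st836_ind P x) (st836_ind_nonneg P x) (st836_ind_le P x)
    have h2 : ∑ y ∈ (range (2^K)).filter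
        (fun y => (1/2:ℝ)^(L+1) ≤ st836_h K P x y), st836_h K P x y
        = ∑ y ∈ (range (2^K)).filter
        (fun y => (1/2:ℝ)^(L+1) ≤ st836_mx K (st836_ind P x) y), st836_mx K (st836_ind P x) y := by
      rw [Finset.sum_filter, Finset.sum_filter]
      apply Finset.sum_congr rfl
      intro y hy
      rw [Finset.mem_range] at hy
      have h3 : st836_h K P x y = st836_mx K (st836_ind P x) y := by
        unfold st836_h
        rw [if_pos ⟨hx, hy⟩]
      rw [h3]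
    rw [h2]
    refine h1.trans ?_
    push_cast
    have h4 : ∑ y ∈ (range (2^K)).filter (fun y => (1/2:ℝ)^(L+1+1) ≤ st836_ind P x y),
        st836_ind P x y ≤ ∑ y ∈ range (2^K), st836_ind P x y :=
      Finset.sum_le_sum_of_subset_of_nonneg (Finset.filter_subset _ _)
        (fun y _ _ => st836_ind_nonneg P x y)
    calc 4 * ((L:ℝ) + 1 + 1) * ∑ y ∈ (range (2^K)).filter
          (fun y => (1/2:ℝ)^(L+1+1) ≤ st836_ind P x y), st836_ind P x y
        ≤ 4 * ((L:ℝ) + 1 + 1) * ∑ y ∈ range (2^K), st836_ind P x y :=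
          mul_le_mul_of_nonneg_left h4 (by positivity)
      _ = 4 * ((L:ℝ)+2) * ∑ y ∈ range (2^K), st836_ind P x y := by ring
  calc _ ≤ _ := s1
    _ ≤ _ := s2
    _ = _ := s3
    _ ≤ 4 * ((L:ℝ)+1) * ∑ x ∈ range (2^K), 4 * ((L:ℝ)+2) * ∑ y ∈ range (2^K), st836_ind P x y :=
        mul_le_mul_of_nonneg_left (Finset.sum_le_sum s4) (by positivity)
    _ = 16 * ((L:ℝ)+1) * ((L:ℝ)+2) * num K P := by
        rw [st836_num, ← Finset.mul_sum]
        ring

end BernD.SD2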