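import Pool.Agent.Helper643.BernD

open Finset



namespace BernD.SD3
open Finset

noncomputable def medS (B : Finset ℕ) (f : ℕ → ℝ) : Finset ℝ := by
  classical
  exact (B.image f).filter (fun v => B.card ≤ 2 * (B.filter (fun x => f x ≤ v)).card)

theorem mem_medS (B : Finset ℕ) (f : ℕ → ℝ) (v : ℝ) :
    v ∈ medS B f ↔ (∃ x ∈ B, f x = v) ∧ B.card ≤ 2 * (B.filter (fun x => f x ≤ v)).card := by
  classical
  unfold medS
  rw [Finset.mem_filter, Finset.mem_image]

theorem medS_nonempty (B : Finset ℕ) (f : ℕ → ℝ) (hB : B.Nonempty) : (medS B f).Nonempty := by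
  classical
  obtain ⟨x, hx, hmax⟩ := B.exists_max_image f hB
  refine ⟨f x, (mem_medS B f _).mpr ⟨⟨x, hx, rfl⟩, ?_⟩⟩
  have : B.filter (fun z => f z ≤ f x) = B := Finset.filter_true_of_mem hmax
  rw [this]; omega

open Classical in
noncomputable def med (B : Finset ℕ) (f : ℕ → ℝ) : ℝ :=
  if h : (medS B f).Nonempty then (medS B f).min' h else 0

theorem med_mem (B : Finset ℕ) (f : ℕ → ℝ) (hB : B.Nonempty) : med B f ∈ medS B f := by
  unfold med
  rw [dif_pos (medS_nonempty B f hB)]
  exact Finset.min'_mem _ _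

theorem med_le (B : Finset ℕ) (f : ℕ → ℝ) (v : ℝ) (hv : v ∈ medS B f) : med B f ≤ v := by
  unfold med
  rw [dif_pos ⟨v, hv⟩]
  exact Finset.min'_le _ _ hv

theorem med_ge (B : Finset ℕ) (f : ℕ → ℝ) (hB : B.Nonempty) :
    B.card ≤ 2 * (B.filter (fun x => med B f ≤ f x)).card := by
  classical
  set L := B.filter (fun x => f x < med B f) with hL
  have hsplit : L.card + (B.filter (fun x => med B f ≤ f x)).card = B.card := by
    have := Finset.card_filter_add_card_filter_not (s := B) (fun x => f x < med B f)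
    simp only [not_lt] at this
    exact this
  by_cases hLe : L.Nonempty
  · obtain ⟨x, hx, hmax⟩ := L.exists_max_image f hLe
    have hxB : x ∈ B := (Finset.mem_filter.mp hx).1
    have hxlt : f x < med B f := (Finset.mem_filter.mp hx).2
    have hnot : f x ∉ medS B f := fun h => absurd (med_le B f _ h) (not_le.mpr hxlt)
    rw [mem_medS] at hnot
    push Not at hnot
    have h1 := hnot ⟨x, hxB, rfl⟩
    have h2 : L.card ≤ (B.filter (fun z => f z ≤ f x)).card := by
      apply Finset.card_le_card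
      intro z hz
      exact Finset.mem_filter.mpr ⟨(Finset.mem_filter.mp hz).1, hmax z hz⟩
    omega
  · rw [Finset.not_nonempty_iff_eq_empty] at hLe
    rw [hLe, Finset.card_empty] at hsplit
    omega

theorem med_trans (B : Finset ℕ) (f f' : ℕ → ℝ) (c : ℝ) (hB : B.Nonempty)
    (h : ∀ x ∈ B, f' x = f x + c) : med B f' ≤ med B f + c := by
  classical
  apply med_le
  obtain ⟨⟨x, hx, hxe⟩, hc⟩ := (mem_medS B f _).mp (med_mem B f hB)
  rw [mem_medS]
  refine ⟨⟨x, hx, by rw [h x hx, hxe]⟩, ?_⟩
  have : B.filter (fun x => f' x ≤ med B f + c) = B.filter (fun x => f x ≤ med B f) := by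
    apply Finset.filter_congr
    intro z hz
    rw [h z hz]
    constructor <;> intro h <;> linarith
  rw [this]
  exact hc

theorem med_eq (B : Finset ℕ) (f f' : ℕ → ℝ) (c : ℝ) (hB : B.Nonempty)
    (h : ∀ x ∈ B, f' x = f x + c) : med B f' = med B f + c := by
  apply le_antisymm (med_trans B f f' c hB h)
  have := med_trans B f' f (-c) hB (fun x hx => by rw [h x hx]; ring)
  linarith

def blk (K t p : ℕ) : Finset ℕ := (range (2^K)).filter (fun x => x / 2^(K-t) = p)

theorem blk_card (K t p : ℕ) (ht : t ≤ K) (hp : p < 2^t) : (blk K t p).card = 2^(K-t) := by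
  have hpos : 0 < 2^(K-t) := by positivity
  have : blk K t p = Finset.Ico (p * 2^(K-t)) (p * 2^(K-t) + 2^(K-t)) := by
    ext x
    unfold blk
    rw [Finset.mem_filter, Finset.mem_range, Finset.mem_Ico]
    have hK : 2^t * 2^(K-t) = 2^K := by rw [← pow_add]; congr 1; omega
    constructor
    · rintro ⟨_, h⟩
      rw [Nat.div_eq_iff hpos] at h
      omega
    · rintro ⟨h1, h2⟩
      refine ⟨?_, ?_⟩
      · have : (p + 1) * 2^(K-t) ≤ 2^t * 2^(K-t) := Nat.mul_le_mul_right _ hp
        rw [hK] at this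
        have e : (p + 1) * 2^(K-t) = p * 2^(K-t) + 2^(K-t) := by ring
        omega
      · rw [Nat.div_eq_iff hpos]
        omega
  rw [this, Nat.card_Ico]
  omega

theorem exists_pot (K : ℕ) (g : ℕ → ℕ → ℝ) (hadd : Additive K g) :
    ∃ X : ℕ → ℕ → ℕ → ℝ, Pot K g X := by
  classical
  have hne : ∀ t ≤ K, ∀ p < 2^t, (blk K t p).Nonempty := by
    intro t ht p hp
    rw [← Finset.card_pos, blk_card K t p ht hp]
    positivity
  have hmem : ∀ t p x, x ∈ blk K t p ↔ x < 2^K ∧ x / 2^(K-t) = p := by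
    intro t p x
    unfold blk
    rw [Finset.mem_filter, Finset.mem_range]
  refine ⟨fun t p y => med (blk K t p) (fun x => g x y), ?_, ?_, ?_, ?_⟩
  · intro x hx y _
    have hb := (mem_medS _ _ _).mp (med_mem (blk K K x) (fun x => g x y) (hne K le_rfl x hx))
    obtain ⟨⟨z, hz, hze⟩, _⟩ := hb
    have hz' := ((hmem K x z).mp hz).2
    rw [Nat.sub_self, pow_zero, Nat.div_one] at hz'
    rw [← hze, hz']
  · intro t ht p hp y _
    have hb := (mem_medS _ _ _).mp (med_mem (blk K t p) (fun x => g x y) (hne t ht p hp))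
    have h1 := hb.2
    rw [blk_card K t p ht hp] at h1
    refine h1.trans (le_of_eq ?_)
    congr 2
    ext z
    rw [Finset.mem_filter, Finset.mem_filter, hmem, Finset.mem_range]
    tauto
  · intro t ht p hp y _
    have h1 := med_ge (blk K t p) (fun x => g x y) (hne t ht p hp)
    rw [blk_card K t p ht hp] at h1
    refine h1.trans (le_of_eq ?_)
    congr 2
    ext z
    rw [Finset.mem_filter, Finset.mem_filter, hmem, Finset.mem_range]
    tauto
  · intro t ht p hp y hy y' hy' hyy
    have hp2 : p / 2 < 2^t := by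
      rw [pow_succ] at hp
      omega
    obtain ⟨x0, hx0⟩ := hne t ht.le (p/2) hp2
    have hx0' := (hmem _ _ _).mp hx0
    have hc : ∀ x ∈ blk K t (p/2), g x y = g x y' + (g x0 y - g x0 y') := by
      intro x hx
      have hx' := (hmem _ _ _).mp hx
      have := hadd t ht.le x hx'.1 x0 hx0'.1 y hy y' hy' (hx'.2.trans hx0'.2.symm) hyy
      linarith
    have hsub : ∀ x ∈ blk K (t+1) p, x ∈ blk K t (p/2) := by
      intro x hx
      have hx' := (hmem _ _ _).mp hx
      rw [hmem]
      refine ⟨hx'.1, ?_⟩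
      have e : 2^(K-t) = 2^(K-(t+1)) * 2 := by
        rw [← pow_succ]; congr 1; omega
      rw [e, ← Nat.div_div_eq_div_mul, hx'.2]
    have h1 := med_eq (blk K t (p/2)) (fun x => g x y') (fun x => g x y) (g x0 y - g x0 y')
      (hne t ht.le (p/2) hp2) hc
    have h2 := med_eq (blk K (t+1) p) (fun x => g x y') (fun x => g x y) (g x0 y - g x0 y')
      (hne (t+1) ht p hp) (fun x hx => hc x (hsub x hx))
    rw [h1, h2]
    ring

end BernD.SD3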