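import Mathlib

namespace BernD.SD4


open Finset

open Classical in
theorem ott (K : ℕ) (g : ℕ → ℝ) (X : ℕ → ℕ → ℝ) (lam : ℝ)
    (hle : ∀ t ≤ K, ∀ p < 2^t,
      2^(K-t) ≤ 2 * ((range (2^K)).filter (fun x => x / 2^(K-t) = p ∧ g x ≤ X t p)).card)
    (hge : ∀ t ≤ K, ∀ p < 2^t,
      2^(K-t) ≤ 2 * ((range (2^K)).filter (fun x => x / 2^(K-t) = p ∧ X t p ≤ g x)).card)
    (O : ℕ → ℕ → ℝ)
    (hOK : ∀ p < 2^K, O K p = if lam < |X K p| then 1 else 0)
    (hO : ∀ t < K, ∀ p < 2^t, O t p = if lam < |X t p| then 1
      else (O (t+1) (2*p) + O (t+1) (2*p+1)) / 2) :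
    ∀ t ≤ K, ∀ p < 2^t, O t p * 2^(K-t) ≤
      2 * (((range (2^K)).filter (fun x => x / 2^(K-t) = p ∧ lam < |g x|)).card : ℝ) := by
  classical
  have big : ∀ t ≤ K, ∀ p < 2^t, lam < |X t p| →
      (2:ℝ)^(K-t) ≤
        2 * (((range (2^K)).filter (fun x => x / 2^(K-t) = p ∧ lam < |g x|)).card : ℝ) := by
    intro t ht p hp hX
    rcases lt_abs.1 hX with h | h
    · have h1 := hge t ht p hp
      have h2 : ((range (2^K)).filter (fun x => x / 2^(K-t) = p ∧ X t p ≤ g x)).card ≤
          ((range (2^K)).filter (fun x => x / 2^(K-t) = p ∧ lam < |g x|)).card := by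
        apply Finset.card_le_card
        intro x hx
        rw [mem_filter] at hx ⊢
        exact ⟨hx.1, hx.2.1, lt_of_lt_of_le (lt_of_lt_of_le h hx.2.2) (le_abs_self _)⟩
      have h3 : 2^(K-t) ≤
          2 * ((range (2^K)).filter (fun x => x / 2^(K-t) = p ∧ lam < |g x|)).card := by omega
      exact_mod_cast h3
    · have h1 := hle t ht p hp
      have h2 : ((range (2^K)).filter (fun x => x / 2^(K-t) = p ∧ g x ≤ X t p)).card ≤
          ((range (2^K)).filter (fun x => x / 2^(K-t) = p ∧ lam < |g x|)).card := by
        apply Finset.card_le_card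
        intro x hx
        rw [mem_filter] at hx ⊢
        refine ⟨hx.1, hx.2.1, lt_of_lt_of_le ?_ (neg_le_abs _)⟩
        linarith [hx.2.2]
      have h3 : 2^(K-t) ≤
          2 * ((range (2^K)).filter (fun x => x / 2^(K-t) = p ∧ lam < |g x|)).card := by omega
      exact_mod_cast h3
  have main : ∀ d t, t ≤ K → K - t = d → ∀ p < 2^t, O t p * 2^(K-t) ≤
      2 * (((range (2^K)).filter (fun x => x / 2^(K-t) = p ∧ lam < |g x|)).card : ℝ) := by
    intro d
    induction d with
    | zero =>
      intro t ht hd p hp
      have htK : t = K := by omega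
      subst htK
      by_cases hX : lam < |X t p|
      · rw [hOK p hp, if_pos hX, one_mul]
        exact big t le_rfl p hp hX
      · rw [hOK p hp, if_neg hX, zero_mul]
        positivity
    | succ d ih =>
      intro t ht hd p hp
      have htK : t < K := by omega
      by_cases hX : lam < |X t p|
      · rw [hO t htK p hp, if_pos hX, one_mul]
        exact big t ht p hp hX
      · rw [hO t htK p hp, if_neg hX]
        have hp1 : 2 * p < 2 ^ (t + 1) := by rw [pow_succ]; omega
        have hp2 : 2 * p + 1 < 2 ^ (t + 1) := by rw [pow_succ]; omega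
        have i1 := ih (t + 1) (by omega) (by omega) (2 * p) hp1
        have i2 := ih (t + 1) (by omega) (by omega) (2 * p + 1) hp2
        have e1 : K - (t + 1) = d := by omega
        rw [e1] at i1 i2
        rw [hd]
        have hcard : ((range (2^K)).filter (fun x => x / 2^d = 2 * p ∧ lam < |g x|)).card +
            ((range (2^K)).filter (fun x => x / 2^d = 2 * p + 1 ∧ lam < |g x|)).card ≤
            ((range (2^K)).filter (fun x => x / 2^(d+1) = p ∧ lam < |g x|)).card := by
          rw [← Finset.card_union_of_disjoint]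
          · apply Finset.card_le_card
            intro x hx
            rw [mem_union, mem_filter, mem_filter] at hx
            rw [mem_filter, pow_succ, ← Nat.div_div_eq_div_mul]
            rcases hx with ⟨h1, h2, h3⟩ | ⟨h1, h2, h3⟩
            · exact ⟨h1, by omega, h3⟩
            · exact ⟨h1, by omega, h3⟩
          · rw [Finset.disjoint_left]
            intro x hx hx'
            rw [mem_filter] at hx hx'
            have h1 := hx.2.1
            have h2 := hx'.2.1
            omega
        have hcard' : ((((range (2^K)).filter (fun x => x / 2^d = 2 * p ∧ lam < |g x|)).card : ℝ) +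
            (((range (2^K)).filter (fun x => x / 2^d = 2 * p + 1 ∧ lam < |g x|)).card : ℝ)) ≤
            (((range (2^K)).filter (fun x => x / 2^(d+1) = p ∧ lam < |g x|)).card : ℝ) := by
          exact_mod_cast hcard
        have e2 : (O (t+1) (2*p) + O (t+1) (2*p+1)) / 2 * 2 ^ (d + 1) =
            O (t+1) (2*p) * 2 ^ d + O (t+1) (2*p+1) * 2 ^ d := by
          rw [pow_succ]; ring
        rw [e2]
        linarith
  intro t ht p hp
  exact main (K - t) t ht rfl p hp

end BernD.SD4
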