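import Pool.Agent.Helper643.BernD

open Finset



namespace BernD.SD5
/-- auxiliary recursion -/
noncomputable def goodO (Y : ℕ → ℕ → ℝ) (lam : ℝ) : ℕ → ℕ → ℕ → ℝ
  | 0, s, q => if lam < |Y s q| then 1 else 0
  | n+1, s, q => if lam < |Y s q| then 1
      else (goodO Y lam n (s+1) (2*q) + goodO Y lam n (s+1) (2*q+1)) / 2

theorem goodO_nonneg (Y : ℕ → ℕ → ℝ) (lam : ℝ) (n : ℕ) : ∀ s q, 0 ≤ goodO Y lam n s q := by
  induction n with
  | zero => intro s q; unfold goodO; split_ifs <;> norm_num
  | succ n ih =>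
    intro s q
    unfold goodO
    split_ifs
    · norm_num
    · have h1 := ih (s+1) (2*q)
      have h2 := ih (s+1) (2*q+1)
      linarith

theorem good_card (K t y : ℕ) (ht : t ≤ K) (hy : y < 2^K) :
    2^t ≤ ((range (2^K)).filter (fun y' => y' / 2^t = y / 2^t)).card := by
  have hsub : Finset.Ico (y / 2^t * 2^t) (y / 2^t * 2^t + 2^t) ⊆
      (range (2^K)).filter (fun y' => y' / 2^t = y / 2^t) := by
    intro a ha
    rw [Finset.mem_Ico] at ha
    have hpos : 0 < 2^t := by positivity
    have hc : y / 2^t < 2^(K-t) := by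
      rw [Nat.div_lt_iff_lt_mul hpos, ← pow_add]
      rwa [Nat.sub_add_cancel ht]
    have hK : y / 2^t * 2^t + 2^t ≤ 2^K := by
      have h1 : (y / 2^t + 1) * 2^t ≤ 2^(K-t) * 2^t := Nat.mul_le_mul_right _ hc
      rw [← pow_add, Nat.sub_add_cancel ht] at h1
      linarith
    rw [Finset.mem_filter, Finset.mem_range]
    refine ⟨by omega, ?_⟩
    apply Nat.div_eq_of_lt_le
    · exact ha.1
    · rw [add_mul, one_mul]; exact ha.2
  have h := Finset.card_le_card hsub
  rw [Nat.card_Ico] at h
  omega

open Classical in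
theorem good_inc
    (ott : ∀ (K : ℕ) (g : ℕ → ℝ) (X : ℕ → ℕ → ℝ) (lam : ℝ),
      (∀ t ≤ K, ∀ p < 2^t,
        2^(K-t) ≤ 2 * ((range (2^K)).filter (fun x => x / 2^(K-t) = p ∧ g x ≤ X t p)).card) →
      (∀ t ≤ K, ∀ p < 2^t,
        2^(K-t) ≤ 2 * ((range (2^K)).filter (fun x => x / 2^(K-t) = p ∧ X t p ≤ g x)).card) →
      ∀ (O : ℕ → ℕ → ℝ),
      (∀ p < 2^K, O K p = if lam < |X K p| then 1 else 0) →
      (∀ t < K, ∀ p < 2^t, O t p = if lam < |X t p| then 1
        else (O (t+1) (2*p) + O (t+1) (2*p+1)) / 2) →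
      ∀ t ≤ K, ∀ p < 2^t, O t p * 2^(K-t) ≤
        2 * (((range (2^K)).filter (fun x => x / 2^(K-t) = p ∧ lam < |g x|)).card : ℝ))
    (K : ℕ) (g : ℕ → ℕ → ℝ) (X : ℕ → ℕ → ℕ → ℝ) (hX : Pot K g X)
    (lam : ℝ) (hlam : 0 ≤ lam) (t : ℕ) (ht : t < K) (p : ℕ) (hp : p < 2^t) (y : ℕ) (hy : y < 2^K)
    (hgood : ¬ Bad K g lam t p y)
    (O : ℕ → ℕ → ℝ)
    (hOK : ∀ q < 2^K, O K q = if 2*lam < |X K q y - X t p y| then 1 else 0)
    (hO : ∀ s < K, ∀ q < 2^s, O s q = if 2*lam < |X s q y - X t p y| then 1
      else (O (s+1) (2*q) + O (s+1) (2*q+1)) / 2) :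
    O t p ≤ 1/4 := by
  have htK : t ≤ K := ht.le
  set Y : Finset ℕ := (range (2^K)).filter (fun y' => y' / 2^t = y / 2^t) with hYdef
  have hYc : 2^t ≤ Y.card := good_card K t y htK hy
  -- bounds on O
  have hOb : ∀ n ≤ K, ∀ q < 2^(K-n), 0 ≤ O (K-n) q ∧ O (K-n) q ≤ 1 := by
    intro n
    induction n with
    | zero =>
      intro _ q hq
      rw [Nat.sub_zero] at hq ⊢
      rw [hOK q hq]
      split_ifs <;> norm_num
    | succ n ih =>
      intro hn q hq
      have hs : K - (n+1) < K := by omega
      have hs2 : K - (n+1) + 1 = K - n := by omega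
      have hp2 : 2^(K-n) = 2 * 2^(K-(n+1)) := by rw [← hs2, pow_succ]; ring
      rw [hO _ hs q hq, hs2]
      have h1 := ih (by omega) (2*q) (by omega)
      have h2 := ih (by omega) (2*q+1) (by omega)
      split_ifs
      · norm_num
      · constructor <;> linarith [h1.1, h1.2, h2.1, h2.2]
  have hOt : 0 ≤ O t p ∧ O t p ≤ 1 := by
    have := hOb (K-t) (by omega) p (by rwa [Nat.sub_sub_self htK])
    rwa [Nat.sub_sub_self htK] at this
  -- main pointwise estimate
  have hmain : ∀ y' ∈ Y, O t p * 2^(K-t) ≤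
      2 * (((range (2^K)).filter (fun x => x / 2^(K-t) = p ∧ lam < |g x y'|)).card : ℝ) := by
    intro y' hy'
    rw [hYdef, Finset.mem_filter, Finset.mem_range] at hy'
    obtain ⟨hy'K, hy'e⟩ := hy'
    have hinc : ∀ d, t + d ≤ K → ∀ q < 2^(t+d), q / 2^d = p →
        X (t+d) q y' - X t p y' = X (t+d) q y - X t p y := by
      intro d
      induction d with
      | zero =>
        intro _ q _ hq
        rw [pow_zero, Nat.div_one] at hq
        subst hq
        simp
      | succ d ih =>
        intro hd q hq hqp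
        have hq2 : q / 2 < 2^(t+d) := by
          rw [← add_assoc, pow_succ] at hq
          omega
        have hqp2 : q / 2 / 2^d = p := by
          rw [Nat.div_div_eq_div_mul, ← pow_succ']
          exact hqp
        have h1 := ih (by omega) (q/2) hq2 hqp2
        have he : y / 2^(t+d) = y' / 2^(t+d) := by
          rw [pow_add, ← Nat.div_div_eq_div_mul, ← Nat.div_div_eq_div_mul, hy'e]
        have h2 := hX.inc (t+d) (by omega) q hq y hy y' hy'K he
        rw [← add_assoc]
        linarith
    -- the recursion for y'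
    set Z : ℕ → ℕ → ℝ := fun s q => X s q y' with hZ
    set O' : ℕ → ℕ → ℝ := fun s q => goodO Z lam (K-s) s q with hO'
    have hO'K : ∀ q < 2^K, O' K q = if lam < |Z K q| then 1 else 0 := by
      intro q _
      simp only [hO', Nat.sub_self]
      rfl
    have hO'r : ∀ s < K, ∀ q < 2^s, O' s q = if lam < |Z s q| then 1
        else (O' (s+1) (2*q) + O' (s+1) (2*q+1)) / 2 := by
      intro s hs q _
      have : K - s = (K - (s+1)) + 1 := by omega
      simp only [hO']
      rw [this]
      rfl
    have hott := ott K (fun x => g x y') Z lam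
      (fun t ht p hp => hX.medle t ht p hp y' hy'K) (fun t ht p hp => hX.medge t ht p hp y' hy'K)
      O' hO'K hO'r t htK p hp
    refine le_trans (mul_le_mul_of_nonneg_right ?_ (by positivity)) hott
    by_cases hbig : lam < |Z t p|
    · rw [hO'r t ht p hp, if_pos hbig]
      exact hOt.2
    · push Not at hbig
      have hcmp : ∀ n, n ≤ K - t → ∀ q < 2^(K-n), q / 2^(K-n-t) = p → O (K-n) q ≤ O' (K-n) q := by
        intro n
        induction n with
        | zero =>
          intro hn q hq hqp
          rw [Nat.sub_zero] at hq hqp ⊢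
          have h1 := hinc (K-t) (by omega) q (by rwa [Nat.add_sub_cancel' htK]) hqp
          rw [Nat.add_sub_cancel' htK] at h1
          rw [hOK q hq, hO'K q hq]
          by_cases h2 : 2*lam < |X K q y - X t p y|
          · have h3 : lam < |Z K q| := by
              rw [← h1] at h2
              have h4 := abs_sub (X K q y') (X t p y')
              have h5 : |X t p y'| ≤ lam := hbig
              change lam < |X K q y'|
              linarith
            rw [if_pos h2, if_pos h3]
          · rw [if_neg h2]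
            split_ifs <;> norm_num
        | succ n ih =>
          intro hn q hq hqp
          have hs : K - (n+1) < K := by omega
          have hs2 : K - (n+1) + 1 = K - n := by omega
          have hp2 : 2^(K-n) = 2 * 2^(K-(n+1)) := by rw [← hs2, pow_succ]; ring
          have hst : K - (n+1) = t + (K - (n+1) - t) := by omega
          have h1 := hinc (K-(n+1)-t) (by omega) q (by rw [← hst]; exact hq) hqp
          rw [← hst] at h1
          rw [hO _ hs q hq, hO'r _ hs q hq, hs2]
          have hpw : K - n - t = (K - (n+1) - t) + 1 := by omega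
          have c1 := ih (by omega) (2*q) (by omega) (by
            rw [hpw, pow_succ', ← Nat.div_div_eq_div_mul, Nat.mul_div_cancel_left _ (by norm_num)]
            exact hqp)
          have c2 := ih (by omega) (2*q+1) (by omega) (by
            rw [hpw, pow_succ', ← Nat.div_div_eq_div_mul]
            have : (2*q+1)/2 = q := by omega
            rw [this]
            exact hqp)
          have b1 := hOb n (by omega) (2*q) (by omega)
          have b2 := hOb n (by omega) (2*q+1) (by omega)
          by_cases h2 : 2*lam < |X (K-(n+1)) q y - X t p y|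
          · have h3 : lam < |Z (K-(n+1)) q| := by
              rw [← h1] at h2
              have h4 := abs_sub (X (K-(n+1)) q y') (X t p y')
              have h5 : |X t p y'| ≤ lam := hbig
              change lam < |X (K-(n+1)) q y'|
              linarith
            rw [if_pos h2, if_pos h3]
          · rw [if_neg h2]
            split_ifs
            · linarith [b1.2, b2.2]
            · linarith
      have hfin := hcmp (K-t) le_rfl p (by rwa [Nat.sub_sub_self htK]) (by
        rw [Nat.sub_sub_self htK, Nat.sub_self, pow_zero, Nat.div_one])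
      rwa [Nat.sub_sub_self htK] at hfin
  -- summation
  have hsum1 : (Y.card : ℝ) * (O t p * 2^(K-t)) ≤
      ∑ y' ∈ Y, 2 * (((range (2^K)).filter (fun x => x / 2^(K-t) = p ∧ lam < |g x y'|)).card : ℝ) := by
    rw [← nsmul_eq_mul]
    exact Finset.card_nsmul_le_sum Y _ _ hmain
  rw [← Finset.mul_sum, ← Nat.cast_sum] at hsum1
  set S : Finset (ℕ × ℕ) := (range (2^K) ×ˢ range (2^K)).filter
    (fun z => z.1 / 2^(K-t) = p ∧ z.2 / 2^(t+1) = y / 2^(t+1) ∧ lam < |g z.1 z.2|) with hS
  have hsum2 : ∑ y' ∈ Y, ((range (2^K)).filter (fun x => x / 2^(K-t) = p ∧ lam < |g x y'|)).card ≤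
      S.card := by
    rw [← Finset.card_sigma]
    apply Finset.card_le_card_of_injOn (fun z => ((z.2, z.1) : ℕ × ℕ))
    · intro z hz
      rw [Finset.mem_coe, Finset.mem_sigma, hYdef, Finset.mem_filter, Finset.mem_filter] at hz
      obtain ⟨⟨a1, a2⟩, a3, a4, a5⟩ := hz
      rw [Finset.mem_coe, hS, Finset.mem_filter, Finset.mem_product]
      refine ⟨⟨a3, a1⟩, a4, ?_, a5⟩
      change z.1 / 2^(t+1) = y / 2^(t+1)
      rw [pow_succ, ← Nat.div_div_eq_div_mul, ← Nat.div_div_eq_div_mul, a2]
    · rintro ⟨a, b⟩ _ ⟨c, d⟩ _ h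
      simp only [Prod.mk.injEq] at h
      obtain ⟨h1, h2⟩ := h
      subst h1
      subst h2
      rfl
  have hbad : (S.card : ℝ) ≤ (1/16) * (2^(K-t) * 2^(t+1)) := by
    unfold Bad at hgood
    push Not at hgood
    unfold rct at hgood
    rw [div_le_iff₀ (by positivity)] at hgood
    refine le_trans (le_of_eq ?_) hgood
    congr 1
  have hfin : (2 : ℝ)^t * (O t p * 2^(K-t)) ≤ 2 * ((1/16) * (2^(K-t) * 2^(t+1))) := by
    have h1 : (2 : ℝ)^t ≤ (Y.card : ℝ) := by exact_mod_cast hYc
    have h2 : (2 : ℝ)^t * (O t p * 2^(K-t)) ≤ (Y.card : ℝ) * (O t p * 2^(K-t)) :=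
      mul_le_mul_of_nonneg_right h1 (mul_nonneg hOt.1 (by positivity))
    have h3 : ((∑ y' ∈ Y, ((range (2^K)).filter
        (fun x => x / 2^(K-t) = p ∧ lam < |g x y'|)).card : ℕ) : ℝ) ≤ (S.card : ℝ) := by
      exact_mod_cast hsum2
    linarith
  have hpos : (0 : ℝ) < 2^t * 2^(K-t) := by positivity
  rw [pow_succ] at hfin
  have h9 : (2 : ℝ)^t * 2^(K-t) * O t p ≤ 2^t * 2^(K-t) * (1/4) := by linarith
  exact le_of_mul_le_mul_left h9 hpos

end BernD.SD5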