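import Mathlib

namespace BernD.SD6


open Finset

theorem vbound_aux (K : ℕ) (X : ℕ → ℕ → ℝ) (lam : ℝ) (c : ℝ) : ∃ O : ℕ → ℕ → ℝ,
      (∀ q, O K q = if 2*lam < |X K q - c| then 1 else 0) ∧
      (∀ s < K, ∀ q, O s q = if 2*lam < |X s q - c| then 1
        else (O (s+1) (2*q) + O (s+1) (2*q+1)) / 2) ∧ (∀ s q, 0 ≤ O s q) := by
  let aux : ℕ → ℕ → ℝ := fun n => Nat.rec (fun q => if 2*lam < |X K q - c| then (1:ℝ) else 0)
    (fun n f q => if 2*lam < |X (K-(n+1)) q - c| then 1 else (f (2*q) + f (2*q+1)) / 2) n
  refine ⟨fun s q => aux (K - s) q, ?_, ?_, ?_⟩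
  · intro q
    simp only [Nat.sub_self]
    rfl
  · intro s hs q
    obtain ⟨m, hm⟩ : ∃ m, K - s = m + 1 := ⟨K - s - 1, by omega⟩
    have hm2 : K - (s + 1) = m := by omega
    have hm3 : K - (m+1) = s := by omega
    beta_reduce
    rw [hm, hm2]
    change (if 2*lam < |X (K-(m+1)) q - c| then 1 else (aux m (2*q) + aux m (2*q+1)) / 2) = _
    rw [hm3]
  · have h : ∀ n q, 0 ≤ aux n q := by
      intro n
      induction n with
      | zero =>
        intro q
        change 0 ≤ if 2*lam < |X K q - c| then (1:ℝ) else 0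
        split_ifs <;> norm_num
      | succ n ih =>
        intro q
        change 0 ≤ if 2*lam < |X (K-(n+1)) q - c| then 1 else (aux n (2*q) + aux n (2*q+1)) / 2
        split_ifs
        · norm_num
        · have h1 := ih (2*q)
          have h2 := ih (2*q+1)
          linarith
    intro s q
    exact h _ _

open Classical in
theorem vbound (K : ℕ) (X : ℕ → ℕ → ℝ) (bad : ℕ → ℕ → Prop) (lam : ℝ) (hlam : 0 ≤ lam)
    (h4 : ∀ t < K, ∀ p < 2^t, ¬ bad t p → ∀ O : ℕ → ℕ → ℝ,
      (∀ q < 2^K, O K q = if 2*lam < |X K q - X t p| then 1 else 0) →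
      (∀ s < K, ∀ q < 2^s, O s q = if 2*lam < |X s q - X t p| then 1
        else (O (s+1) (2*q) + O (s+1) (2*q+1)) / 2) → O t p ≤ 1/4)
    (V : ℕ → ℕ → ℝ → ℝ)
    (hVK : ∀ p < 2^K, ∀ c, V K p c = (X K p - c)^2)
    (hV : ∀ t < K, ∀ p < 2^t, ∀ c, V t p c = if bad t p then (X t p - c)^2
      else (V (t+1) (2*p) c + V (t+1) (2*p+1) c) / 2)
    (U : ℕ → ℕ → ℝ)
    (hUK : ∀ p < 2^K, U K p = X K p)
    (hU : ∀ t < K, ∀ p < 2^t, U t p = if bad t p then X t p
      else (U (t+1) (2*p) + U (t+1) (2*p+1)) / 2) :
    (∀ t ≤ K, ∀ p < 2^t, V t p (X t p) ≤ 24 * lam^2) ∧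
    (∀ t ≤ K, ∀ p < 2^t, |U t p - X t p| ≤ 5 * lam) ∧
    (∀ t < K, ∀ p < 2^t, ¬ bad t p → |X (t+1) (2*p) - X t p| ≤ 2*lam ∧
      |X (t+1) (2*p+1) - X t p| ≤ 2*lam) := by
  have hO := fun c => vbound_aux K X lam c
  have hself : ∀ t p, ¬ (2*lam < |X t p - X t p|) := by
    intro t p
    rw [sub_self, abs_zero]
    linarith
  have h3 : ∀ t < K, ∀ p < 2^t, ¬ bad t p → |X (t+1) (2*p) - X t p| ≤ 2*lam ∧
      |X (t+1) (2*p+1) - X t p| ≤ 2*lam := by
    intro t ht p hp hb
    obtain ⟨O, hOK, hOs, hO0⟩ := hO (X t p)
    have h5 := h4 t ht p hp hb O (fun q _ => hOK q) (fun s hs q _ => hOs s hs q)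
    have h6 := hOs t ht p
    rw [if_neg (hself t p)] at h6
    have hone : ∀ q, 2*lam < |X (t+1) q - X t p| → O (t+1) q = 1 := by
      intro q hq
      rcases Nat.lt_or_ge (t+1) K with h | h
      · rw [hOs (t+1) h q, if_pos hq]
      · obtain rfl : t + 1 = K := by omega
        rw [hOK q, if_pos hq]
    constructor
    · by_contra hc
      push Not at hc
      have h7 := hone _ hc
      have h8 := hO0 (t+1) (2*p+1)
      linarith
    · by_contra hc
      push Not at hc
      have h7 := hone _ hc
      have h8 := hO0 (t+1) (2*p)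
      linarith
  have hshift : ∀ n s, s + n = K → ∀ q < 2^s, ∀ c d, V s q c ≤ 2 * V s q d + 2 * (d - c)^2 := by
    intro n
    induction n with
    | zero =>
      intro s hs q hq c d
      obtain rfl : s = K := by omega
      rw [hVK q hq, hVK q hq]
      nlinarith [sq_nonneg ((X s q - d) - (d - c))]
    | succ n ih =>
      intro s hs q hq c d
      have hsK : s < K := by omega
      have hq2 : 2 * q < 2^(s+1) := by rw [pow_succ]; omega
      have hq3 : 2 * q + 1 < 2^(s+1) := by rw [pow_succ]; omega
      rw [hV s hsK q hq, hV s hsK q hq]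
      split_ifs with hb
      · nlinarith [sq_nonneg ((X s q - d) - (d - c))]
      · have e1 := ih (s+1) (by omega) (2*q) hq2 c d
        have e2 := ih (s+1) (by omega) (2*q+1) hq3 c d
        linarith
  have hU2 : ∀ n s, s + n = K → ∀ q < 2^s, ∀ c, (U s q - c)^2 ≤ V s q c := by
    intro n
    induction n with
    | zero =>
      intro s hs q hq c
      obtain rfl : s = K := by omega
      rw [hVK q hq, hUK q hq]
    | succ n ih =>
      intro s hs q hq c
      have hsK : s < K := by omega
      have hq2 : 2 * q < 2^(s+1) := by rw [pow_succ]; omega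
      have hq3 : 2 * q + 1 < 2^(s+1) := by rw [pow_succ]; omega
      rw [hV s hsK q hq, hU s hsK q hq]
      split_ifs with hb
      · exact le_rfl
      · have e1 := ih (s+1) (by omega) (2*q) hq2 c
        have e2 := ih (s+1) (by omega) (2*q+1) hq3 c
        nlinarith [sq_nonneg (U (s+1) (2*q) - U (s+1) (2*q+1))]
  have h1 : ∀ n t, t + n = K → ∀ p < 2^t, V t p (X t p) ≤ 24 * lam^2 := by
    intro n
    induction n using Nat.strong_induction_on with
    | _ n ih =>
      intro t htn p hp
      rcases Nat.eq_zero_or_pos n with h0 | hn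
      · obtain rfl : t = K := by omega
        rw [hVK p hp, sub_self, zero_pow two_ne_zero]
        positivity
      have ht : t < K := by omega
      have hp2 : 2 * p < 2^(t+1) := by rw [pow_succ]; omega
      have hp3 : 2 * p + 1 < 2^(t+1) := by rw [pow_succ]; omega
      by_cases hb : bad t p
      · rw [hV t ht p hp, if_pos hb, sub_self, zero_pow two_ne_zero]
        positivity
      rw [hV t ht p hp, if_neg hb]
      obtain ⟨O, hOK, hOs, hO0⟩ := hO (X t p)
      have h5 := h4 t ht p hp hb O (fun q _ => hOK q) (fun s hs q _ => hOs s hs q)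
      have h6 := hOs t ht p
      rw [if_neg (hself t p)] at h6
      have h7 : ∀ m s, s + m = K → t < s → ∀ q < 2^s, |X s q - X t p| ≤ 4*lam →
          V s q (X t p) ≤ 4*lam^2 + 76*lam^2*O s q := by
        intro m
        induction m with
        | zero =>
          intro s hs hts q hq hX
          obtain rfl : s = K := by omega
          rw [hVK q hq, hOK q]
          split_ifs with hx
          · rw [← sq_abs]
            nlinarith [abs_nonneg (X s q - X t p)]
          · rw [← sq_abs]
            nlinarith [abs_nonneg (X s q - X t p)]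
        | succ m ihm =>
          intro s hs hts q hq hX
          have hsK : s < K := by omega
          have hq2 : 2 * q < 2^(s+1) := by rw [pow_succ]; omega
          have hq3 : 2 * q + 1 < 2^(s+1) := by rw [pow_succ]; omega
          by_cases hx : 2*lam < |X s q - X t p|
          · rw [hOs s hsK q, if_pos hx]
            have e1 := hshift (m+1) s hs q hq (X t p) (X s q)
            have e2 := ih (m+1) (by omega) s hs q hq
            have e3 : (X s q - X t p)^2 ≤ 16 * lam^2 := by
              rw [← sq_abs]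
              nlinarith [abs_nonneg (X s q - X t p)]
            linarith
          · by_cases hbs : bad s q
            · rw [hV s hsK q hq, if_pos hbs]
              have e3 : (X s q - X t p)^2 ≤ 4 * lam^2 := by
                rw [← sq_abs]
                push Not at hx
                nlinarith [abs_nonneg (X s q - X t p)]
              have e4 : 0 ≤ 76 * lam^2 * O s q := mul_nonneg (by positivity) (hO0 s q)
              linarith
            · rw [hV s hsK q hq, if_neg hbs, hOs s hsK q, if_neg hx]
              push Not at hx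
              obtain ⟨e1, e2⟩ := h3 s hsK q hq hbs
              have e3 : |X (s+1) (2*q) - X t p| ≤ 4*lam := by
                have := abs_sub_le (X (s+1) (2*q)) (X s q) (X t p)
                linarith
              have e4 : |X (s+1) (2*q+1) - X t p| ≤ 4*lam := by
                have := abs_sub_le (X (s+1) (2*q+1)) (X s q) (X t p)
                linarith
              have e5 := ihm (s+1) (by omega) (by omega) (2*q) hq2 e3
              have e6 := ihm (s+1) (by omega) (by omega) (2*q+1) hq3 e4
              linarith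
      obtain ⟨e1, e2⟩ := h3 t ht p hp hb
      obtain ⟨m, rfl⟩ : ∃ m, n = m + 1 := ⟨n - 1, by omega⟩
      have e5 := h7 m (t+1) (by omega) (by omega) (2*p) hp2 (by linarith)
      have e6 := h7 m (t+1) (by omega) (by omega) (2*p+1) hp3 (by linarith)
      have e7 : lam^2 * O t p ≤ lam^2 * (1/4) := mul_le_mul_of_nonneg_left h5 (sq_nonneg _)
      rw [h6] at e7
      nlinarith [sq_nonneg lam]
  refine ⟨fun t ht p hp => h1 (K - t) t (by omega) p hp, fun t ht p hp => ?_, h3⟩
  have e1 := h1 (K - t) t (by omega) p hp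
  have e2 := hU2 (K - t) t (by omega) p hp (X t p)
  apply abs_le_of_sq_le_sq _ (by linarith)
  nlinarith [sq_nonneg lam]

end BernD.SD6
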