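import Mathlib

namespace BernD.SD7


open Finset

theorem d7_log {s z : ℝ} (hs : 0 < s) (hz : 0 < z) :
    2 * s ^ 2 - 2 * s * z ≤ 2 * s ^ 2 * (Real.log s - Real.log z) := by
  have h := Real.log_le_sub_one_of_pos (div_pos hz hs)
  rw [Real.log_div hz.ne' hs.ne'] at h
  have h1 : 1 - z / s ≤ Real.log s - Real.log z := by linarith
  have h2 : 2 * s ^ 2 * (1 - z / s) ≤ 2 * s ^ 2 * (Real.log s - Real.log z) :=
    mul_le_mul_of_nonneg_left h1 (by positivity)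
  have h3 : 2 * s ^ 2 * (1 - z / s) = 2 * s ^ 2 - 2 * s * z := by
    field_simp
  linarith

theorem d7_poly {s r z : ℝ} (hs : 0 < s) (hr : 0 < r) (hz : 0 < z)
    (h : s ^ 2 + r ^ 2 = 2 * z ^ 2) :
    (s ^ 2 - r ^ 2) ^ 2 ≤ 8 * z ^ 2 * (4 * z ^ 2 - 2 * z * (s + r)) := by
  have hw : s + r ≤ 2 * z := by
    apply le_of_sq_le_sq _ (by positivity)
    nlinarith [sq_nonneg (s - r)]
  have hw0 : 0 < s + r := by positivity
  have h1 : (s ^ 2 - r ^ 2) ^ 2 = (s + r) ^ 2 * (4 * z ^ 2 - (s + r) ^ 2) := by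
    have : 4 * z ^ 2 = 2 * (s ^ 2 + r ^ 2) := by linarith
    rw [this]
    ring
  rw [h1]
  have h2 : (s + r) ^ 2 ≤ (2 * z) ^ 2 := pow_le_pow_left₀ hw0.le hw 2
  have h3 : (s + r) ^ 2 * (2 * z + (s + r)) ≤ (2 * z) ^ 2 * (4 * z) :=
    mul_le_mul h2 (by linarith) (by positivity) (by positivity)
  have h4 : 0 ≤ (2 * z - (s + r)) * (16 * z ^ 3 - (s + r) ^ 2 * (2 * z + (s + r))) := by
    apply mul_nonneg (by linarith)
    nlinarith
  nlinarith

theorem d7_key {A B : ℝ} (hA : 0 < A) (hB : 0 < B) :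
    (A - B) ^ 2 / (4 * (A + B)) ≤
      A * Real.log A + B * Real.log B - (A + B) * Real.log ((A + B) / 2) := by
  obtain ⟨s, hs, hsA⟩ : ∃ s : ℝ, 0 < s ∧ s ^ 2 = A := ⟨Real.sqrt A, Real.sqrt_pos.2 hA, Real.sq_sqrt hA.le⟩
  obtain ⟨r, hr, hrB⟩ : ∃ s : ℝ, 0 < s ∧ s ^ 2 = B := ⟨Real.sqrt B, Real.sqrt_pos.2 hB, Real.sq_sqrt hB.le⟩
  have hQ : 0 < (A + B) / 2 := by positivity
  obtain ⟨z, hz, hzQ⟩ : ∃ s : ℝ, 0 < s ∧ s ^ 2 = (A + B) / 2 :=
    ⟨Real.sqrt ((A + B) / 2), Real.sqrt_pos.2 hQ, Real.sq_sqrt hQ.le⟩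
  have hsum : s ^ 2 + r ^ 2 = 2 * z ^ 2 := by
    rw [hsA, hrB, hzQ]
    ring
  have l1 : Real.log A = 2 * Real.log s := by
    rw [← hsA, Real.log_pow]
    norm_num
  have l2 : Real.log B = 2 * Real.log r := by
    rw [← hrB, Real.log_pow]
    norm_num
  have l3 : Real.log ((A + B) / 2) = 2 * Real.log z := by
    rw [← hzQ, Real.log_pow]
    norm_num
  rw [l1, l2, l3]
  have k1 := d7_log hs hz
  have k2 := d7_log hr hz
  have k3 := d7_poly hs hr hz hsum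
  have hAB : A + B = 2 * z ^ 2 := by
    rw [hzQ]
    ring
  rw [hAB, ← hsA, ← hrB]
  have k4 : (s ^ 2 - r ^ 2) ^ 2 / (4 * (2 * z ^ 2)) ≤ 4 * z ^ 2 - 2 * z * (s + r) := by
    rw [div_le_iff₀ (by positivity)]
    nlinarith
  have k5 : 4 * z ^ 2 * Real.log z = 2 * (s ^ 2 + r ^ 2) * Real.log z := by
    rw [hsum]
    ring
  nlinarith

theorem d7_M {A B M0 M1 K : ℝ} (hA : 0 < A) (hB : 0 < B)
    (hY : (M0 + M1) ^ 2 ≤ K ^ 2 * (A + B) ^ 2) :
    (M0 - M1) ^ 2 / (2 * (A + B)) ≤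
      (M0 ^ 2 / A + M1 ^ 2 / B - (M0 + M1) ^ 2 / (A + B)) + K ^ 2 * (A - B) ^ 2 / (A + B) := by
  have hAB : 0 < A + B := by positivity
  have e1 : M0 ^ 2 / A + M1 ^ 2 / B - (M0 + M1) ^ 2 / (A + B) =
      (M0 * B - M1 * A) ^ 2 / (A * B * (A + B)) := by
    field_simp
    ring
  have e2 : 4 * (M0 * B - M1 * A) ^ 2 / (A + B) ^ 3 ≤
      (M0 * B - M1 * A) ^ 2 / (A * B * (A + B)) := by
    rw [div_le_div_iff₀ (by positivity) (by positivity)]
    have h1 : 4 * (A * B) ≤ (A + B) ^ 2 := by nlinarith [sq_nonneg (A - B)]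
    have h2 : 4 * (A * B) * ((M0 * B - M1 * A) ^ 2 * (A + B)) ≤
        (A + B) ^ 2 * ((M0 * B - M1 * A) ^ 2 * (A + B)) :=
      mul_le_mul_of_nonneg_right h1 (by positivity)
    nlinarith
  obtain ⟨c, hc⟩ : ∃ c : ℝ, c = (M0 + M1) * (A - B) / (A + B) := ⟨_, rfl⟩
  have e3 : 4 * (M0 * B - M1 * A) ^ 2 / (A + B) ^ 3 = ((M0 - M1) - c) ^ 2 / (A + B) := by
    rw [hc]
    field_simp
    ring
  have e4 : c ^ 2 / (A + B) ≤ K ^ 2 * (A - B) ^ 2 / (A + B) := by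
    apply div_le_div_of_nonneg_right _ hAB.le
    rw [hc, div_pow, mul_pow, div_le_iff₀ (by positivity)]
    nlinarith [mul_le_mul_of_nonneg_right hY (sq_nonneg (A - B))]
  have e5 : (M0 - M1) ^ 2 / (2 * (A + B)) ≤ ((M0 - M1) - c) ^ 2 / (A + B) + c ^ 2 / (A + B) := by
    rw [← add_div, div_le_div_iff₀ (by positivity) hAB]
    have h1 : (M0 - M1) ^ 2 ≤ 2 * (((M0 - M1) - c) ^ 2 + c ^ 2) := by
      nlinarith [sq_nonneg ((M0 - M1) - 2 * c)]
    nlinarith [mul_le_mul_of_nonneg_right h1 hAB.le]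
  linarith

noncomputable def d7_g (e x : ℝ) : ℝ := (x + e) * Real.log (x + e)

noncomputable def d7_Ps (K e p M : ℝ) : ℝ :=
  2 * (K ^ 2 * p - M ^ 2 / (p + e)) +
    8 * K ^ 2 * (p * d7_g e 1 + (1 - p) * d7_g e 0 - d7_g e p)

theorem d7_nonneg {K e p M : ℝ} (he : 0 < e) (hp0 : 0 ≤ p) (hp1 : p ≤ 1)
    (hM : M ^ 2 ≤ K ^ 2 * p ^ 2) : 0 ≤ d7_Ps K e p M := by
  unfold d7_Ps
  have h1 : M ^ 2 / (p + e) ≤ K ^ 2 * p := by
    rw [div_le_iff₀ (by positivity)]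
    have : 0 ≤ K ^ 2 * p * e := by positivity
    nlinarith
  have h2 : d7_g e p ≤ p * d7_g e 1 + (1 - p) * d7_g e 0 := by
    have hconv := Real.convexOn_mul_log.2 (show (0 + e : ℝ) ∈ Set.Ici 0 by simp; exact he.le)
      (show (1 + e : ℝ) ∈ Set.Ici 0 by simp; linarith) (show 0 ≤ 1 - p by linarith) hp0
      (by ring)
    simp only [smul_eq_mul] at hconv
    have h3 : (1 - p) * (0 + e) + p * (1 + e) = p + e := by ring
    rw [h3] at hconv
    unfold d7_g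
    linarith
  have h4 : 0 ≤ 8 * K ^ 2 * (p * d7_g e 1 + (1 - p) * d7_g e 0 - d7_g e p) :=
    mul_nonneg (by positivity) (by linarith)
  linarith

theorem d7_step {K e p p0 p1 M M0 M1 : ℝ} (he : 0 < e) (hp0 : 0 ≤ p0) (hp1 : 0 ≤ p1)
    (hp : p = (p0 + p1) / 2) (hM : M = (M0 + M1) / 2) (hb : M ^ 2 ≤ K ^ 2 * p ^ 2) :
    ((M0 - M1) / 2) ^ 2 / (p + e) ≤
      d7_Ps K e p M - (d7_Ps K e p0 M0 + d7_Ps K e p1 M1) / 2 := by
  have hA : 0 < p0 + e := by positivity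
  have hB : 0 < p1 + e := by positivity
  have hY : (M0 + M1) ^ 2 ≤ K ^ 2 * ((p0 + e) + (p1 + e)) ^ 2 := by
    have h1 : (M0 + M1) ^ 2 ≤ K ^ 2 * (p0 + p1) ^ 2 := by
      rw [hM, hp] at hb
      nlinarith
    have h2 : (p0 + p1) ^ 2 ≤ ((p0 + e) + (p1 + e)) ^ 2 :=
      pow_le_pow_left₀ (by positivity) (by linarith) 2
    exact h1.trans (mul_le_mul_of_nonneg_left h2 (sq_nonneg K))
  have k1 := d7_M hA hB hY
  have k2 := d7_key hA hB
  have hQ : ((p0 + e) + (p1 + e)) / 2 = p + e := by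
    rw [hp]
    ring
  have hQ' : (p0 + e) + (p1 + e) = 2 * (p + e) := by
    rw [hp]
    ring
  rw [hQ, hQ'] at k2
  rw [hQ'] at k1
  have hpe : 0 < p + e := by
    rw [hp]
    positivity
  have f1 : ((M0 - M1) / 2) ^ 2 / (p + e) = (M0 - M1) ^ 2 / (2 * (2 * (p + e))) := by
    rw [div_pow, div_div]
    congr 1
    ring
  have f2 : (M0 + M1) ^ 2 / (2 * (p + e)) = 2 * (M ^ 2 / (p + e)) := by
    rw [hM, div_pow, div_div]
    field_simp
    try ring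
  have f3 : K ^ 2 * ((p0 + e) - (p1 + e)) ^ 2 / (2 * (p + e)) =
      4 * K ^ 2 * (((p0 + e) - (p1 + e)) ^ 2 / (4 * (2 * (p + e)))) := by
    field_simp
  have k3 : 4 * K ^ 2 * (((p0 + e) - (p1 + e)) ^ 2 / (4 * (2 * (p + e)))) ≤
      4 * K ^ 2 * ((p0 + e) * Real.log (p0 + e) + (p1 + e) * Real.log (p1 + e) -
        2 * (p + e) * Real.log (p + e)) :=
    mul_le_mul_of_nonneg_left k2 (by positivity)
  rw [f2, f3] at k1
  rw [f1]
  have hgoal : d7_Ps K e p M - (d7_Ps K e p0 M0 + d7_Ps K e p1 M1) / 2 =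
      (M0 ^ 2 / (p0 + e) + M1 ^ 2 / (p1 + e) - 2 * (M ^ 2 / (p + e))) +
      4 * K ^ 2 * ((p0 + e) * Real.log (p0 + e) + (p1 + e) * Real.log (p1 + e) -
        2 * (p + e) * Real.log (p + e)) := by
    unfold d7_Ps d7_g
    generalize M ^ 2 / (p + e) = x1
    generalize M0 ^ 2 / (p0 + e) = x2
    generalize M1 ^ 2 / (p1 + e) = x3
    generalize Real.log (p + e) = y1
    generalize Real.log (p0 + e) = y2
    generalize Real.log (p1 + e) = y3
    generalize (1 + e) * Real.log (1 + e) = g1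
    generalize (0 + e) * Real.log (0 + e) = g0
    rw [hp]
    ring
  rw [hgoal]
  linarith

theorem d7_init {K e p M : ℝ} (he : 0 < e) (he1 : e ≤ 1) (hp0 : 0 ≤ p) :
    d7_Ps K e p M ≤ 20 * K ^ 2 * (1 + Real.log (1 / e)) * p := by
  have hpe : 0 < p + e := by positivity
  have h1 : p ≤ (p + e) * (Real.log (p + e) - Real.log e) := by
    have h := Real.log_le_sub_one_of_pos (div_pos he hpe)
    rw [Real.log_div he.ne' hpe.ne'] at h
    have h2 : 1 - e / (p + e) ≤ Real.log (p + e) - Real.log e := by linarith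
    have h3 : (p + e) * (1 - e / (p + e)) ≤ (p + e) * (Real.log (p + e) - Real.log e) :=
      mul_le_mul_of_nonneg_left h2 hpe.le
    have h4 : (p + e) * (1 - e / (p + e)) = p := by
      field_simp
      ring
    linarith
  have hlog : Real.log (1 / e) = -Real.log e := by
    rw [one_div, Real.log_inv]
  have hle : Real.log e ≤ 0 := Real.log_nonpos he.le he1
  have h5 : (1 + e) * (Real.log (1 + e) - Real.log e) ≤ 2 * (Real.log 2 - Real.log e) := by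
    have h6 : Real.log (1 + e) ≤ Real.log 2 := Real.log_le_log (by linarith) (by linarith)
    have h7 : Real.log e ≤ Real.log (1 + e) := Real.log_le_log he (by linarith)
    have h8 : Real.log 2 - Real.log e ≥ 0 := by linarith
    calc (1 + e) * (Real.log (1 + e) - Real.log e)
        ≤ (1 + e) * (Real.log 2 - Real.log e) :=
          mul_le_mul_of_nonneg_left (by linarith) (by linarith)
      _ ≤ 2 * (Real.log 2 - Real.log e) := mul_le_mul_of_nonneg_right (by linarith) h8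
  have hl2 := Real.log_two_lt_d9
  have h9 : p * d7_g e 1 + (1 - p) * d7_g e 0 - d7_g e p ≤
      p * (2 * (Real.log 2 - Real.log e) - 1) := by
    unfold d7_g
    have h10 : p * ((1 + e) * (Real.log (1 + e) - Real.log e)) ≤
        p * (2 * (Real.log 2 - Real.log e)) := mul_le_mul_of_nonneg_left h5 hp0
    rw [zero_add]
    nlinarith
  have h11 : 0 ≤ M ^ 2 / (p + e) := by positivity
  unfold d7_Ps
  rw [hlog]
  have h12 : 8 * K ^ 2 * (p * d7_g e 1 + (1 - p) * d7_g e 0 - d7_g e p) ≤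
      8 * K ^ 2 * (p * (2 * (Real.log 2 - Real.log e) - 1)) :=
    mul_le_mul_of_nonneg_left h9 (by positivity)
  have h13 : 0 ≤ K ^ 2 * p * (26 - 16 * Real.log 2 - 4 * Real.log e) := by
    apply mul_nonneg (by positivity)
    linarith
  nlinarith

theorem d7_split (n : ℕ) (f : ℕ → ℝ) :
    ∑ q ∈ range (2 * n), f q = ∑ q ∈ range n, (f (2 * q) + f (2 * q + 1)) := by
  induction n with
  | zero => simp
  | succ n ih =>
    rw [show 2 * (n + 1) = 2 * n + 1 + 1 by ring, sum_range_succ, sum_range_succ, ih,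
      sum_range_succ]
    ring

open Classical in
noncomputable def d7_Pp (K e p M : ℝ) : ℝ := if p < 1 then d7_Ps K e p M else 0

theorem d7_Pp_le {K e p M : ℝ} (he : 0 < e) (hp0 : 0 ≤ p) (hp1 : p ≤ 1)
    (hM : M ^ 2 ≤ K ^ 2 * p ^ 2) : d7_Pp K e p M ≤ d7_Ps K e p M := by
  unfold d7_Pp
  split_ifs
  · exact le_rfl
  · exact d7_nonneg he hp0 hp1 hM

theorem d7_Pp_nonneg {K e p M : ℝ} (he : 0 < e) (hp0 : 0 ≤ p) (hp1 : p ≤ 1)
    (hM : M ^ 2 ≤ K ^ 2 * p ^ 2) : 0 ≤ d7_Pp K e p M := by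
  unfold d7_Pp
  split_ifs
  · exact d7_nonneg he hp0 hp1 hM
  · exact le_rfl

open Classical in
theorem d7 (T : ℕ) (Kc ε : ℝ) (hK : 0 ≤ Kc) (hε : 0 < ε) (hε1 : ε ≤ 1) (M p : ℕ → ℕ → ℝ)
    (hp0 : ∀ t ≤ T, ∀ q < 2^t, 0 ≤ p t q) (hp1 : ∀ t ≤ T, ∀ q < 2^t, p t q ≤ 1)
    (hp : ∀ t < T, ∀ q < 2^t, p t q = (p (t+1) (2*q) + p (t+1) (2*q+1)) / 2)
    (hM : ∀ t < T, ∀ q < 2^t, p t q < 1 → M t q = (M (t+1) (2*q) + M (t+1) (2*q+1)) / 2)
    (hb : ∀ t ≤ T, ∀ q < 2^t, |M t q| ≤ Kc * p t q) :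
    ∑ t ∈ range T, ∑ q ∈ range (2^t), (if p t q < 1 then
        (1/2:ℝ)^t * ((M (t+1) (2*q) - M (t+1) (2*q+1)) / 2)^2 / (p t q + ε) else 0)
      ≤ 20 * Kc^2 * (1 + Real.log (1/ε)) * p 0 0 := by
  have hsq : ∀ t ≤ T, ∀ q < 2^t, M t q ^ 2 ≤ Kc ^ 2 * p t q ^ 2 := by
    intro t ht q hq
    have h1 := hb t ht q hq
    rw [← mul_pow, ← sq_abs (M t q)]
    exact pow_le_pow_left₀ (abs_nonneg _) h1 2
  have hlev : ∀ t < T, ∑ q ∈ range (2^t), (if p t q < 1 then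
        (1/2:ℝ)^t * ((M (t+1) (2*q) - M (t+1) (2*q+1)) / 2)^2 / (p t q + ε) else 0) ≤
      ∑ q ∈ range (2^t), (1/2:ℝ)^t * d7_Pp Kc ε (p t q) (M t q) -
        ∑ q ∈ range (2^(t+1)), (1/2:ℝ)^(t+1) * d7_Pp Kc ε (p (t+1) q) (M (t+1) q) := by
    intro t ht
    rw [pow_succ' 2 t, d7_split, ← sum_sub_distrib]
    apply sum_le_sum
    intro q hq
    rw [mem_range] at hq
    have hq0 : 2 * q < 2 ^ (t + 1) := by
      rw [pow_succ]
      omega
    have hq1 : 2 * q + 1 < 2 ^ (t + 1) := by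
      rw [pow_succ]
      omega
    have a0 := hp0 (t+1) ht (2*q) hq0
    have a1 := hp0 (t+1) ht (2*q+1) hq1
    have b0 := hp1 (t+1) ht (2*q) hq0
    have b1 := hp1 (t+1) ht (2*q+1) hq1
    have c0 := hsq (t+1) ht (2*q) hq0
    have c1 := hsq (t+1) ht (2*q+1) hq1
    have hpq := hp t ht q hq
    by_cases h1 : p t q < 1
    · rw [if_pos h1]
      have hPp : d7_Pp Kc ε (p t q) (M t q) = d7_Ps Kc ε (p t q) (M t q) := by
        unfold d7_Pp
        rw [if_pos h1]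
      rw [hPp]
      have s1 := d7_step (K := Kc) hε a0 a1 hpq (hM t ht q hq h1) (hsq t ht.le q hq)
      have s2 := d7_Pp_le (K := Kc) hε a0 b0 c0
      have s3 := d7_Pp_le (K := Kc) hε a1 b1 c1
      have hw : (0:ℝ) < (1/2)^t := by positivity
      have hpw : (1/2:ℝ)^(t+1) = (1/2)^t * (1/2) := pow_succ _ _
      rw [mul_div_assoc, hpw]
      have s4 : (1/2:ℝ)^t * (((M (t+1) (2*q) - M (t+1) (2*q+1)) / 2)^2 / (p t q + ε)) ≤
          (1/2:ℝ)^t * (d7_Ps Kc ε (p t q) (M t q) -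
            (d7_Pp Kc ε (p (t+1) (2*q)) (M (t+1) (2*q)) +
              d7_Pp Kc ε (p (t+1) (2*q+1)) (M (t+1) (2*q+1))) / 2) :=
        mul_le_mul_of_nonneg_left (by linarith) hw.le
      linarith
    · rw [if_neg h1]
      push Not at h1
      have e0 : ¬ p (t+1) (2*q) < 1 := by
        intro h
        linarith
      have e1 : ¬ p (t+1) (2*q+1) < 1 := by
        intro h
        linarith
      unfold d7_Pp
      rw [if_neg (not_lt.2 h1), if_neg e0, if_neg e1]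
      norm_num
  have hsum : ∑ t ∈ range T, ∑ q ∈ range (2^t), (if p t q < 1 then
        (1/2:ℝ)^t * ((M (t+1) (2*q) - M (t+1) (2*q+1)) / 2)^2 / (p t q + ε) else 0) ≤
      ∑ t ∈ range T, (∑ q ∈ range (2^t), (1/2:ℝ)^t * d7_Pp Kc ε (p t q) (M t q) -
        ∑ q ∈ range (2^(t+1)), (1/2:ℝ)^(t+1) * d7_Pp Kc ε (p (t+1) q) (M (t+1) q)) :=
    sum_le_sum fun t ht => hlev t (mem_range.1 ht)
  rw [sum_range_sub' (fun t => ∑ q ∈ range (2^t), (1/2:ℝ)^t * d7_Pp Kc ε (p t q) (M t q))] at hsum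
  have hT : 0 ≤ ∑ q ∈ range (2^T), (1/2:ℝ)^T * d7_Pp Kc ε (p T q) (M T q) := by
    apply sum_nonneg
    intro q hq
    rw [mem_range] at hq
    exact mul_nonneg (by positivity) (d7_Pp_nonneg hε (hp0 T le_rfl q hq) (hp1 T le_rfl q hq)
      (hsq T le_rfl q hq))
  have h0 : ∑ q ∈ range (2^0), (1/2:ℝ)^0 * d7_Pp Kc ε (p 0 q) (M 0 q) ≤
      20 * Kc^2 * (1 + Real.log (1/ε)) * p 0 0 := by
    have hp00 : 0 ≤ p 0 0 := hp0 0 (Nat.zero_le T) 0 (by norm_num)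
    rw [pow_zero, sum_range_one, pow_zero, one_mul]
    unfold d7_Pp
    split_ifs
    · exact d7_init hε hε1 hp00
    · have hl : 0 ≤ Real.log (1/ε) := Real.log_nonneg (by
        rw [le_div_iff₀ hε]
        linarith)
      positivity
  linarith

end BernD.SD7
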