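import Mathlib

namespace BernD.SD8


open Finset

/-- recursive sum over the tree below a node -/
noncomputable def d8R (f : ℕ → ℕ → ℝ) : ℕ → ℕ → ℕ → ℝ
  | 0, _, _ => 0
  | k + 1, t, p => f t p + (d8R f k (t + 1) (2 * p) + d8R f k (t + 1) (2 * p + 1)) / 2

open Classical in
/-- proportion of leaves below a marked node -/
noncomputable def d8H (mark : ℕ → ℕ → Prop) : ℕ → ℕ → ℕ → ℝ
  | 0, _, _ => 0
  | k + 1, t, p => if mark t p then 1 else
      (d8H mark k (t + 1) (2 * p) + d8H mark k (t + 1) (2 * p + 1)) / 2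

theorem d8R_eq (f : ℕ → ℕ → ℝ) : ∀ k t p, d8R f k t p =
    ∑ j ∈ range k, ∑ q ∈ range (2 ^ j), (1 / 2 : ℝ) ^ j * f (t + j) (p * 2 ^ j + q) := by
  intro k
  induction k with
  | zero => intro t p; simp [d8R]
  | succ k ih =>
    intro t p
    rw [d8R, ih, ih, Finset.sum_range_succ'
      (fun j => ∑ q ∈ range (2 ^ j), (1 / 2 : ℝ) ^ j * f (t + j) (p * 2 ^ j + q))]
    have h1 : ∀ j, ∑ q ∈ range (2 ^ (j + 1)), (1 / 2 : ℝ) ^ (j + 1) *
        f (t + (j + 1)) (p * 2 ^ (j + 1) + q) =
        ((∑ q ∈ range (2 ^ j), (1 / 2 : ℝ) ^ j * f (t + 1 + j) (2 * p * 2 ^ j + q)) +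
          ∑ q ∈ range (2 ^ j), (1 / 2 : ℝ) ^ j * f (t + 1 + j) ((2 * p + 1) * 2 ^ j + q)) / 2 := by
      intro j
      have h2 : (2 : ℕ) ^ (j + 1) = 2 ^ j + 2 ^ j := by ring
      rw [h2, Finset.sum_range_add, add_div, Finset.sum_div, Finset.sum_div]
      congr 1
      · refine Finset.sum_congr rfl fun q _ => ?_
        have h3 : t + (j + 1) = t + 1 + j := by ring
        have h4 : p * (2 ^ j + 2 ^ j) + q = 2 * p * 2 ^ j + q := by ring
        rw [h3, h4, pow_succ]
        ring
      · refine Finset.sum_congr rfl fun q _ => ?_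
        have h3 : t + (j + 1) = t + 1 + j := by ring
        have h4 : p * (2 ^ j + 2 ^ j) + (2 ^ j + q) = (2 * p + 1) * 2 ^ j + q := by ring
        rw [h3, h4, pow_succ]
        ring
    rw [Finset.sum_congr rfl fun j _ => h1 j, ← Finset.sum_div, Finset.sum_add_distrib]
    simp only [pow_zero, Finset.range_one, Finset.sum_singleton, one_mul, add_zero, mul_one]
    ring

open Classical in
theorem d8H_eq (mark : ℕ → ℕ → Prop) : ∀ k t p, d8H mark k t p * 2 ^ k =
    ∑ x ∈ range (2 ^ k), (if ∃ s < k, mark (t + s) ((p * 2 ^ k + x) / 2 ^ (k - s)) then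
      (1 : ℝ) else 0) := by
  intro k
  induction k with
  | zero => intro t p; simp [d8H]
  | succ k ih =>
    intro t p
    rw [d8H]
    by_cases hm : mark t p
    · rw [if_pos hm, one_mul]
      have h1 : ∀ x ∈ range (2 ^ (k + 1)),
          (if ∃ s < k + 1, mark (t + s) ((p * 2 ^ (k + 1) + x) / 2 ^ (k + 1 - s)) then
            (1 : ℝ) else 0) = 1 := by
        intro x hx
        rw [if_pos]
        refine ⟨0, Nat.succ_pos k, ?_⟩
        have h2 : (p * 2 ^ (k + 1) + x) / 2 ^ (k + 1 - 0) = p := by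
          rw [Nat.sub_zero, Nat.mul_comm p, Nat.mul_add_div (by positivity),
            Nat.div_eq_of_lt (Finset.mem_range.1 hx), Nat.add_zero]
        rw [h2]
        exact hm
      rw [Finset.sum_congr rfl h1]
      simp
    · rw [if_neg hm]
      have h2 : (2 : ℕ) ^ (k + 1) = 2 ^ k + 2 ^ k := by ring
      have h3 : ∀ y : ℕ, y < 2 ^ (k + 1) →
          ((∃ s < k + 1, mark (t + s) ((p * 2 ^ (k + 1) + y) / 2 ^ (k + 1 - s))) ↔
          ∃ s < k, mark (t + 1 + s) ((p * 2 ^ (k + 1) + y) / 2 ^ (k - s))) := by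
        intro y hy
        constructor
        · rintro ⟨s, hs, hms⟩
          rcases Nat.eq_zero_or_pos s with h | h
          · subst h
            have h4 : (p * 2 ^ (k + 1) + y) / 2 ^ (k + 1 - 0) = p := by
              rw [Nat.sub_zero, Nat.mul_comm p, Nat.mul_add_div (by positivity),
                Nat.div_eq_of_lt hy, Nat.add_zero]
            rw [h4] at hms
            exact absurd hms hm
          · obtain ⟨s', rfl⟩ : ∃ s', s = s' + 1 := ⟨s - 1, by omega⟩
            refine ⟨s', by omega, ?_⟩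
            have h4 : k + 1 - (s' + 1) = k - s' := by omega
            have h5 : t + (s' + 1) = t + 1 + s' := by omega
            rw [h4, h5] at hms
            exact hms
        · rintro ⟨s, hs, hms⟩
          refine ⟨s + 1, by omega, ?_⟩
          have h4 : k + 1 - (s + 1) = k - s := by omega
          have h5 : t + (s + 1) = t + 1 + s := by omega
          rw [h4, h5]
          exact hms
      have h6 : ∑ x ∈ range (2 ^ (k + 1)),
          (if ∃ s < k + 1, mark (t + s) ((p * 2 ^ (k + 1) + x) / 2 ^ (k + 1 - s)) then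
            (1 : ℝ) else 0) = ∑ x ∈ range (2 ^ (k + 1)),
          (if ∃ s < k, mark (t + 1 + s) ((p * 2 ^ (k + 1) + x) / 2 ^ (k - s)) then
            (1 : ℝ) else 0) := by
        refine Finset.sum_congr rfl fun x hx => ?_
        simp only [h3 x (Finset.mem_range.1 hx)]
      rw [h6, h2, Finset.sum_range_add]
      have h7 := ih (t + 1) (2 * p)
      have h8 := ih (t + 1) (2 * p + 1)
      have h9 : ∀ x, p * (2 ^ k + 2 ^ k) + x = 2 * p * 2 ^ k + x := fun x => by ring
      have h10 : ∀ x, 2 * p * 2 ^ k + (2 ^ k + x) = (2 * p + 1) * 2 ^ k + x := fun x => by ring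
      simp only [h9, h10]
      rw [← h7, ← h8, pow_succ]
      ring

open Classical in
theorem d8 (K : ℕ) (X U : ℕ → ℕ → ℝ) (V : ℕ → ℕ → ℝ → ℝ) (bad act mark : ℕ → ℕ → Prop)
    (B : ℝ) (hB : 0 ≤ B)
    (hVK : ∀ p < 2^K, ∀ c, V K p c = (X K p - c)^2)
    (hV : ∀ t < K, ∀ p < 2^t, ∀ c, V t p c = if bad t p then (X t p - c)^2
      else (V (t+1) (2*p) c + V (t+1) (2*p+1) c) / 2)
    (hUK : ∀ p < 2^K, U K p = X K p)
    (hU : ∀ t < K, ∀ p < 2^t, U t p = if bad t p then X t p
      else (U (t+1) (2*p) + U (t+1) (2*p+1)) / 2)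
    (hVB : ∀ t < K, ∀ p < 2^t, V t p (X t p) ≤ B)
    (hact : ∀ t < K, ∀ p < 2^t, act t p → ¬ bad t p)
    (hcl : ∀ t, t + 1 < K → ∀ p < 2^t, ¬ act t p → ¬ act (t+1) (2*p) ∧ ¬ act (t+1) (2*p+1)) :
    ∑ t ∈ range K, ∑ p ∈ range (2^t), (if act t p ∧ mark t p then
        (1/2:ℝ)^t * ((U (t+1) (2*p) - U (t+1) (2*p+1)) / 2)^2 else 0)
      ≤ B * (((range (2^K)).filter (fun x => ∃ t < K, mark t (x / 2^(K-t)))).card : ℝ) / 2^K := by
  have hch1 : ∀ t p : ℕ, p < 2 ^ t → 2 * p < 2 ^ (t + 1) := by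
    intro t p hp; rw [pow_succ]; omega
  have hch2 : ∀ t p : ℕ, p < 2 ^ t → 2 * p + 1 < 2 ^ (t + 1) := by
    intro t p hp; rw [pow_succ]; omega
  -- structure of V
  have hA : ∀ k t, t + k = K → ∀ p < 2 ^ t, (∀ c, V t p c = V t p 0 - 2 * c * U t p + c ^ 2) ∧
      ∀ c, 0 ≤ V t p c := by
    intro k
    induction k with
    | zero =>
      intro t ht p hp
      have : t = K := by omega
      subst this
      refine ⟨fun c => ?_, fun c => ?_⟩
      · rw [hVK p hp, hVK p hp, hUK p hp]; ring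
      · rw [hVK p hp]; exact sq_nonneg _
    | succ k ih =>
      intro t ht p hp
      have htK : t < K := by omega
      by_cases hb : bad t p
      · refine ⟨fun c => ?_, fun c => ?_⟩
        · rw [hV t htK p hp, hV t htK p hp, hU t htK p hp, if_pos hb, if_pos hb, if_pos hb]; ring
        · rw [hV t htK p hp, if_pos hb]; exact sq_nonneg _
      · obtain ⟨h1, h1'⟩ := ih (t + 1) (by omega) (2 * p) (hch1 t p hp)
        obtain ⟨h2, h2'⟩ := ih (t + 1) (by omega) (2 * p + 1) (hch2 t p hp)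
        refine ⟨fun c => ?_, fun c => ?_⟩
        · rw [hV t htK p hp, hV t htK p hp, hU t htK p hp, if_neg hb, if_neg hb, if_neg hb,
            h1 c, h2 c]
          ring
        · rw [hV t htK p hp, if_neg hb]
          have := h1' c
          have := h2' c
          linarith
  have hA' : ∀ t ≤ K, ∀ p < 2 ^ t, (∀ c, V t p c = V t p 0 - 2 * c * U t p + c ^ 2) ∧
      ∀ c, 0 ≤ V t p c := fun t ht p hp => hA (K - t) t (by omega) p hp
  let D : ℕ → ℕ → ℝ := fun t p => V t p 0 - U t p ^ 2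
  have hD0 : ∀ t ≤ K, ∀ p < 2 ^ t, 0 ≤ D t p := by
    intro t ht p hp
    obtain ⟨h1, h2⟩ := hA' t ht p hp
    have h3 := h2 (U t p)
    rw [h1] at h3
    show 0 ≤ V t p 0 - U t p ^ 2
    linarith
  have hDB : ∀ t < K, ∀ p < 2 ^ t, D t p ≤ B := by
    intro t ht p hp
    obtain ⟨h1, h2⟩ := hA' t ht.le p hp
    have h3 := hVB t ht p hp
    rw [h1] at h3
    have h4 := sq_nonneg (U t p - X t p)
    show V t p 0 - U t p ^ 2 ≤ B
    linarith
  have hDact : ∀ t < K, ∀ p < 2 ^ t, ¬ bad t p → D t p = (D (t + 1) (2 * p) +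
      D (t + 1) (2 * p + 1)) / 2 + ((U (t + 1) (2 * p) - U (t + 1) (2 * p + 1)) / 2) ^ 2 := by
    intro t ht p hp hb
    show V t p 0 - U t p ^ 2 = (V (t + 1) (2 * p) 0 - U (t + 1) (2 * p) ^ 2 +
      (V (t + 1) (2 * p + 1) 0 - U (t + 1) (2 * p + 1) ^ 2)) / 2 + _
    rw [hV t ht p hp, hU t ht p hp, if_neg hb, if_neg hb]
    ring
  let g : ℕ → ℕ → ℝ := fun t p => if act t p then
    ((U (t + 1) (2 * p) - U (t + 1) (2 * p + 1)) / 2) ^ 2 else 0
  let gm : ℕ → ℕ → ℝ := fun t p => if act t p ∧ mark t p then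
    ((U (t + 1) (2 * p) - U (t + 1) (2 * p + 1)) / 2) ^ 2 else 0
  have hgm : ∀ t p, gm t p ≤ g t p := by
    intro t p
    show (if act t p ∧ mark t p then
      ((U (t + 1) (2 * p) - U (t + 1) (2 * p + 1)) / 2) ^ 2 else 0) ≤ (if act t p then
      ((U (t + 1) (2 * p) - U (t + 1) (2 * p + 1)) / 2) ^ 2 else 0)
    by_cases h1 : act t p
    · rw [if_pos h1]
      split_ifs
      · exact le_rfl
      · exact sq_nonneg _
    · rw [if_neg h1, if_neg (fun h => h1 h.1)]
  have hEn : ∀ k t, t + k = K → ∀ p < 2 ^ t, (act t p → d8R g k t p ≤ D t p) ∧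
      (¬ act t p → d8R g k t p = 0) := by
    intro k
    induction k with
    | zero =>
      intro t ht p hp
      exact ⟨fun _ => hD0 t (by omega) p hp, fun _ => rfl⟩
    | succ k ih =>
      intro t ht p hp
      have htK : t < K := by omega
      obtain ⟨h1, h1'⟩ := ih (t + 1) (by omega) (2 * p) (hch1 t p hp)
      obtain ⟨h2, h2'⟩ := ih (t + 1) (by omega) (2 * p + 1) (hch2 t p hp)
      refine ⟨fun ha => ?_, fun ha => ?_⟩
      · have h3 : d8R g k (t + 1) (2 * p) ≤ D (t + 1) (2 * p) := by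
          by_cases h : act (t + 1) (2 * p)
          · exact h1 h
          · rw [h1' h]; exact hD0 _ (by omega) _ (hch1 t p hp)
        have h4 : d8R g k (t + 1) (2 * p + 1) ≤ D (t + 1) (2 * p + 1) := by
          by_cases h : act (t + 1) (2 * p + 1)
          · exact h2 h
          · rw [h2' h]; exact hD0 _ (by omega) _ (hch2 t p hp)
        have h5 : g t p = ((U (t + 1) (2 * p) - U (t + 1) (2 * p + 1)) / 2) ^ 2 := if_pos ha
        rw [d8R, h5, hDact t htK p hp (hact t htK p hp ha)]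
        linarith
      · have h5 : g t p = 0 := if_neg ha
        rw [d8R, h5]
        rcases Nat.eq_zero_or_pos k with hk | hk
        · subst hk
          simp [d8R]
        · obtain ⟨h6, h7⟩ := hcl t (by omega) p hp ha
          rw [h1' h6, h2' h7]
          norm_num
  have hEmn : ∀ k t p, d8R gm k t p ≤ d8R g k t p := by
    intro k
    induction k with
    | zero => intro t p; exact le_rfl
    | succ k ih =>
      intro t p
      rw [d8R, d8R]
      have := hgm t p
      have := ih (t + 1) (2 * p)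
      have := ih (t + 1) (2 * p + 1)
      linarith
  have hEB : ∀ k t, t + (k + 1) = K → ∀ p < 2 ^ t, d8R gm (k + 1) t p ≤ B := by
    intro k t ht p hp
    refine (hEmn (k + 1) t p).trans ?_
    obtain ⟨h1, h2⟩ := hEn (k + 1) t ht p hp
    by_cases h : act t p
    · exact (h1 h).trans (hDB t (by omega) p hp)
    · rw [h2 h]; exact hB
  have hEH : ∀ k t, t + k = K → ∀ p < 2 ^ t, d8R gm k t p ≤ B * d8H mark k t p := by
    intro k
    induction k with
    | zero =>
      intro t ht p hp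
      simp [d8R, d8H]
    | succ k ih =>
      intro t ht p hp
      by_cases hm : mark t p
      · rw [d8H, if_pos hm, mul_one]
        exact hEB k t ht p hp
      · have h5 : gm t p = 0 := if_neg (fun h => hm h.2)
        rw [d8R, d8H, if_neg hm, h5]
        have h1 := ih (t + 1) (by omega) (2 * p) (hch1 t p hp)
        have h2 := ih (t + 1) (by omega) (2 * p + 1) (hch2 t p hp)
        linarith
  have hfin := hEH K 0 (by omega) 0 (by simp)
  have hL : d8R gm K 0 0 = ∑ t ∈ range K, ∑ p ∈ range (2^t), (if act t p ∧ mark t p then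
        (1/2:ℝ)^t * ((U (t+1) (2*p) - U (t+1) (2*p+1)) / 2)^2 else 0) := by
    rw [d8R_eq]
    refine Finset.sum_congr rfl fun t _ => Finset.sum_congr rfl fun p _ => ?_
    rw [Nat.zero_add, Nat.zero_mul, Nat.zero_add]
    show (1 / 2 : ℝ) ^ t * (if act t p ∧ mark t p then _ else 0) = _
    rw [mul_ite, mul_zero]
  have hR : d8H mark K 0 0 * 2 ^ K =
      (((range (2^K)).filter (fun x => ∃ t < K, mark t (x / 2^(K-t)))).card : ℝ) := by
    rw [d8H_eq, Finset.card_filter]
    push_cast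
    refine Finset.sum_congr rfl fun x _ => ?_
    simp only [Nat.zero_add, Nat.zero_mul]
  rw [hL] at hfin
  rw [← hR]
  refine hfin.trans (le_of_eq ?_)
  have h2K : (2 : ℝ) ^ K ≠ 0 := by positivity
  field_simp

end BernD.SD8
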