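import Pool.Agent.Helper643.BernD

open Finset



namespace BernD.SD9a
theorem d9a_block (K t q : ℕ) (ht : t ≤ K) (hq : q < 2^t) :
    ((range (2^K)).filter (fun x => x / 2^(K-t) = q)).card = 2^(K-t) := by
  have hb : 0 < 2^(K-t) := by positivity
  have h1 : (range (2^K)).filter (fun x => x / 2^(K-t) = q) =
      Ico (q * 2^(K-t)) ((q+1) * 2^(K-t)) := by
    ext x
    simp only [mem_filter, mem_range, mem_Ico]
    have h2 : x / 2^(K-t) = q ↔ q * 2^(K-t) ≤ x ∧ x < (q+1) * 2^(K-t) := by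
      rw [← Nat.le_div_iff_mul_le hb, ← Nat.div_lt_iff_lt_mul hb]; omega
    rw [h2]
    constructor
    · exact fun h => h.2
    · intro h
      refine ⟨?_, h⟩
      calc x < (q+1) * 2^(K-t) := h.2
        _ ≤ 2^t * 2^(K-t) := Nat.mul_le_mul_right _ hq
        _ = 2^K := by rw [← pow_add]; congr 1; omega
  rw [h1, Nat.card_Ico, add_mul, one_mul]
  omega

open Classical in
theorem d9a_prx_nonneg (K : ℕ) (P : ℕ → ℕ → Prop) (t p y : ℕ) : 0 ≤ prx K P t p y := by
  unfold prx; positivity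

open Classical in
theorem d9a_prx_le (K : ℕ) (P : ℕ → ℕ → Prop) (t p y : ℕ) (ht : t ≤ K) (hp : p < 2^t) :
    prx K P t p y ≤ 1 := by
  unfold prx
  rw [div_le_one (by positivity)]
  have h1 := d9a_block K t p ht hp
  have h2 : ((range (2^K)).filter (fun x => x / 2^(K-t) = p ∧ P x y)).card ≤ 2^(K-t) := by
    refine le_trans ?_ h1.le
    apply card_le_card
    intro x hx
    rw [mem_filter] at hx ⊢
    exact ⟨hx.1, hx.2.1⟩
  exact_mod_cast h2

open Classical in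
theorem d9a_prx_one (K : ℕ) (P : ℕ → ℕ → Prop) (t p y : ℕ) (ht : t ≤ K) (hp : p < 2^t)
    (h : ∀ x, x / 2^(K-t) = p → P x y) : prx K P t p y = 1 := by
  unfold prx
  rw [div_eq_one_iff_eq (by positivity)]
  have h1 := d9a_block K t p ht hp
  have h2 : ((range (2^K)).filter (fun x => x / 2^(K-t) = p ∧ P x y)) =
      (range (2^K)).filter (fun x => x / 2^(K-t) = p) := by
    apply filter_congr
    intro x _
    constructor
    · exact fun h => h.1
    · exact fun h' => ⟨h', h x h'⟩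
  rw [h2, h1]
  push_cast
  rfl

open Classical in
theorem d9a_prx_avg (K : ℕ) (P : ℕ → ℕ → Prop) (t p y : ℕ) (ht : t < K) :
    prx K P t p y = (prx K P (t+1) (2*p) y + prx K P (t+1) (2*p+1) y) / 2 := by
  unfold prx
  have hpow : 2^(K-t) = 2^(K-(t+1)) * 2 := by
    rw [← pow_succ]; congr 1; omega
  have h1 : (range (2^K)).filter (fun x => x / 2^(K-t) = p ∧ P x y) =
      (range (2^K)).filter (fun x => x / 2^(K-(t+1)) = 2*p ∧ P x y) ∪
      (range (2^K)).filter (fun x => x / 2^(K-(t+1)) = 2*p+1 ∧ P x y) := by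
    ext x
    simp only [mem_union, mem_filter]
    have h2 : x / 2^(K-t) = x / 2^(K-(t+1)) / 2 := by
      rw [hpow, Nat.div_div_eq_div_mul]
    rw [h2]
    constructor
    · rintro ⟨h3, h4, h5⟩
      rcases Nat.mod_two_eq_zero_or_one (x / 2^(K-(t+1))) with h6 | h6
      · left; exact ⟨h3, by omega, h5⟩
      · right; exact ⟨h3, by omega, h5⟩
    · rintro (⟨h3, h4, h5⟩ | ⟨h3, h4, h5⟩)
      · exact ⟨h3, by omega, h5⟩
      · exact ⟨h3, by omega, h5⟩
  have h3 : Disjoint ((range (2^K)).filter (fun x => x / 2^(K-(t+1)) = 2*p ∧ P x y))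
      ((range (2^K)).filter (fun x => x / 2^(K-(t+1)) = 2*p+1 ∧ P x y)) := by
    rw [disjoint_left]
    intro x hx hx'
    rw [mem_filter] at hx hx'
    omega
  rw [h1, card_union_of_disjoint h3]
  have h4 : (2:ℝ)^(K-t) = 2^(K-(t+1)) * 2 := by exact_mod_cast hpow
  rw [h4]
  push_cast
  have h5 : (2:ℝ)^(K-(t+1)) ≠ 0 := by positivity
  field_simp

open Classical in
theorem d9a_bad_mono (K : ℕ) (g : ℕ → ℕ → ℝ) (lam : ℝ) (hlam : 0 < lam) (t p y : ℕ)
    (h : Bad K g (2*lam) t p y) : Bad K g lam t p y := by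
  unfold Bad at h ⊢
  refine h.trans_le ?_
  unfold rct
  apply div_le_div_of_nonneg_right _ (by positivity)
  have : ((range (2^K) ×ˢ range (2^K)).filter
      (fun z => z.1 / 2^(K-t) = p ∧ z.2 / 2^(t+1) = y / 2^(t+1) ∧ 2*lam < |g z.1 z.2|)).card ≤
    ((range (2^K) ×ˢ range (2^K)).filter
      (fun z => z.1 / 2^(K-t) = p ∧ z.2 / 2^(t+1) = y / 2^(t+1) ∧ lam < |g z.1 z.2|)).card := by
    apply card_le_card
    intro z hz
    rw [mem_filter] at hz ⊢
    refine ⟨hz.1, hz.2.1, hz.2.2.1, ?_⟩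
    linarith [hz.2.2.2]
  exact_mod_cast this

theorem d9a_U_top (K : ℕ) (g : ℕ → ℕ → ℝ) (X : ℕ → ℕ → ℕ → ℝ) (lam : ℝ) (p y : ℕ) :
    U K g X lam K p y = X K p y := by
  unfold U
  rw [Nat.sub_self]
  rfl

theorem d9a_U_bad (K : ℕ) (g : ℕ → ℕ → ℝ) (X : ℕ → ℕ → ℕ → ℝ) (lam : ℝ) (t p y : ℕ) (ht : t < K)
    (h : Bad K g lam t p y) : U K g X lam t p y = X t p y := by
  unfold U
  obtain ⟨n, hn⟩ : ∃ n, K - t = n + 1 := ⟨K - t - 1, by omega⟩
  rw [hn]
  simp only [Uaux]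
  rw [if_pos h]

theorem d9a_U_good (K : ℕ) (g : ℕ → ℕ → ℝ) (X : ℕ → ℕ → ℕ → ℝ) (lam : ℝ) (t p y : ℕ) (ht : t < K)
    (h : ¬ Bad K g lam t p y) : U K g X lam t p y =
      (U K g X lam (t+1) (2*p) y + U K g X lam (t+1) (2*p+1) y) / 2 := by
  unfold U
  obtain ⟨n, hn⟩ : ∃ n, K - t = n + 1 := ⟨K - t - 1, by omega⟩
  have hn' : K - (t + 1) = n := by omega
  rw [hn, hn']
  simp only [Uaux]
  rw [if_neg h]

open Classical in
theorem d9a
    (d7 : ∀ (T : ℕ) (Kc ε : ℝ), 0 ≤ Kc → 0 < ε → ε ≤ 1 → ∀ (M p : ℕ → ℕ → ℝ),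
      (∀ t ≤ T, ∀ q < 2^t, 0 ≤ p t q) → (∀ t ≤ T, ∀ q < 2^t, p t q ≤ 1) →
      (∀ t < T, ∀ q < 2^t, p t q = (p (t+1) (2*q) + p (t+1) (2*q+1)) / 2) →
      (∀ t < T, ∀ q < 2^t, p t q < 1 → M t q = (M (t+1) (2*q) + M (t+1) (2*q+1)) / 2) →
      (∀ t ≤ T, ∀ q < 2^t, |M t q| ≤ Kc * p t q) →
      ∑ t ∈ range T, ∑ q ∈ range (2^t), (if p t q < 1 then
          (1/2:ℝ)^t * ((M (t+1) (2*q) - M (t+1) (2*q+1)) / 2)^2 / (p t q + ε) else 0)
        ≤ 20 * Kc^2 * (1 + Real.log (1/ε)) * p 0 0)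
    (K : ℕ) (g : ℕ → ℕ → ℝ) (X : ℕ → ℕ → ℕ → ℝ) (lam : ℝ) (hlam : 0 < lam)
    (ε : ℝ) (hε : 0 < ε) (hε1 : ε ≤ 1) (y : ℕ) (hy : y < 2^K)
    (hU1 : ∀ t ≤ K, ∀ p < 2^t, |U K g X lam t p y - X t p y| ≤ 5 * lam)
    (hU2 : ∀ t ≤ K, ∀ p < 2^t, |U K g X (2*lam) t p y - X t p y| ≤ 5 * (2*lam)) :
    ∑ t ∈ range K, ∑ p ∈ range (2^t), (if prx K (Om K g lam) t p y < 1 then
        (1/2:ℝ)^t * (kk K g X (2*lam) t p y - kk K g X lam t p y)^2 /
          (prx K (Om K g lam) t p y + ε) else 0)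
      ≤ 2000 * lam^2 * (1 + Real.log (1/ε)) * prx K (Om K g lam) 0 0 y := by
  have hbad1 : ∀ t < K, ∀ q < 2^t, Bad K g lam t q y → prx K (Om K g lam) t q y = 1 := by
    intro t ht q hq hb
    apply d9a_prx_one K (Om K g lam) t q y ht.le hq
    intro x hx
    exact ⟨t, ht, by rw [hx]; exact hb⟩
  have hgood : ∀ t < K, ∀ q < 2^t, ¬ Bad K g lam t q y →
      U K g X (2*lam) t q y - U K g X lam t q y =
        ((U K g X (2*lam) (t+1) (2*q) y - U K g X lam (t+1) (2*q) y) +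
          (U K g X (2*lam) (t+1) (2*q+1) y - U K g X lam (t+1) (2*q+1) y)) / 2 := by
    intro t ht q hq hb
    rw [d9a_U_good K g X lam t q y ht hb,
      d9a_U_good K g X (2*lam) t q y ht fun h => hb (d9a_bad_mono K g lam hlam t q y h)]
    ring
  have hM : ∀ n t, t + n = K → ∀ q < 2^t,
      |U K g X (2*lam) t q y - U K g X lam t q y| ≤ 10 * lam * prx K (Om K g lam) t q y := by
    intro n
    induction n with
    | zero =>
      intro t ht q hq
      obtain rfl : t = K := by omega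
      rw [d9a_U_top, d9a_U_top, sub_self, abs_zero]
      exact mul_nonneg (by linarith) (d9a_prx_nonneg _ _ _ _ _)
    | succ n ih =>
      intro t ht q hq
      by_cases hb : Bad K g lam t q y
      · rw [d9a_U_bad K g X lam t q y (by omega) hb, hbad1 t (by omega) q hq hb]
        have := hU2 t (by omega) q hq
        linarith
      · rw [hgood t (by omega) q hq hb, d9a_prx_avg K (Om K g lam) t q y (by omega)]
        have hq1 : 2 * q < 2^(t+1) := by rw [pow_succ]; omega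
        have hq2 : 2 * q + 1 < 2^(t+1) := by rw [pow_succ]; omega
        have h1 := ih (t+1) (by omega) (2*q) hq1
        have h2 := ih (t+1) (by omega) (2*q+1) hq2
        rw [abs_div, abs_two]
        have h3 := abs_add_le (U K g X (2*lam) (t+1) (2*q) y - U K g X lam (t+1) (2*q) y)
          (U K g X (2*lam) (t+1) (2*q+1) y - U K g X lam (t+1) (2*q+1) y)
        linarith
  have key := d7 K (10 * lam) ε (by linarith) hε hε1
    (fun t q => U K g X (2*lam) t q y - U K g X lam t q y)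
    (fun t q => prx K (Om K g lam) t q y)
    (fun t ht q hq => d9a_prx_nonneg _ _ _ _ _)
    (fun t ht q hq => d9a_prx_le _ _ _ _ _ ht hq)
    (fun t ht q hq => d9a_prx_avg _ _ _ _ _ ht)
    (fun t ht q hq hlt => hgood t ht q hq fun hb => by
      have := hbad1 t ht q hq hb
      linarith)
    (fun t ht q hq => hM (K - t) t (by omega) q hq)
  have e1 : (20:ℝ) * (10 * lam)^2 = 2000 * lam^2 := by ring
  rw [e1] at key
  refine le_trans (le_of_eq ?_) key
  refine sum_congr rfl fun t _ => sum_congr rfl fun q _ => ?_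
  have e2 : kk K g X (2*lam) t q y - kk K g X lam t q y =
      ((U K g X (2*lam) (t+1) (2*q) y - U K g X lam (t+1) (2*q) y) -
        (U K g X (2*lam) (t+1) (2*q+1) y - U K g X lam (t+1) (2*q+1) y)) / 2 := by
    unfold kk
    ring
  rw [e2]

end BernD.SD9a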