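import Pool.Agent.Helper643.BernD

open Finset



namespace BernD.SD9b
lemma d9b_block (K t p : ℕ) (ht : t ≤ K) (hp : p < 2^t) :
    ((range (2^K)).filter (fun x => x / 2^(K-t) = p)).card = 2^(K-t) := by
  have hpos : 0 < 2^(K-t) := by positivity
  have hK : 2^K = 2^t * 2^(K-t) := by
    rw [← pow_add]
    congr 1
    omega
  have h : (range (2^K)).filter (fun x => x / 2^(K-t) = p) =
      Finset.Ico (p * 2^(K-t)) ((p+1) * 2^(K-t)) := by
    ext x
    simp only [mem_filter, mem_range, Finset.mem_Ico]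
    constructor
    · rintro ⟨-, h⟩
      rw [Nat.div_eq_iff hpos] at h
      constructor
      · exact h.1
      · have := h.2
        rw [add_mul, one_mul]
        omega
    · rintro ⟨h1, h2⟩
      refine ⟨?_, ?_⟩
      · rw [hK]
        refine lt_of_lt_of_le h2 ?_
        exact Nat.mul_le_mul_right _ hp
      · rw [Nat.div_eq_iff hpos]
        refine ⟨h1, ?_⟩
        rw [add_mul, one_mul] at h2
        omega
  rw [h, Nat.card_Ico, add_mul, one_mul, Nat.add_sub_cancel_left]

lemma d9b_prx (K : ℕ) (P : ℕ → ℕ → Prop) (t p y : ℕ) (ht : t ≤ K) (hp : p < 2^t) :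
    1 ≤ prx K P t p y ↔ ∀ x, x < 2^K → x / 2^(K-t) = p → P x y := by
  classical
  have hsub : (range (2^K)).filter (fun x => x / 2^(K-t) = p ∧ P x y) ⊆
      (range (2^K)).filter (fun x => x / 2^(K-t) = p) := by
    intro x hx
    simp only [mem_filter, mem_range] at hx ⊢
    exact ⟨hx.1, hx.2.1⟩
  have hblock := d9b_block K t p ht hp
  have hpos : (0 : ℝ) < 2^(K-t) := by positivity
  have hprx : prx K P t p y =
      (((range (2^K)).filter (fun x => x / 2^(K-t) = p ∧ P x y)).card : ℝ) / 2^(K-t) := by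
    unfold prx
    congr!
  rw [hprx, one_le_div hpos]
  constructor
  · intro h x hx hxp
    have h1 : 2^(K-t) ≤ ((range (2^K)).filter (fun x => x / 2^(K-t) = p ∧ P x y)).card := by
      exact_mod_cast h
    have h2 := Finset.eq_of_subset_of_card_le hsub (by rw [hblock]; exact h1)
    have h3 : x ∈ (range (2^K)).filter (fun x => x / 2^(K-t) = p) := by
      simp only [mem_filter, mem_range]
      exact ⟨hx, hxp⟩
    rw [← h2] at h3
    simp only [mem_filter, mem_range] at h3
    exact h3.2.2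
  · intro h
    have h1 : (range (2^K)).filter (fun x => x / 2^(K-t) = p ∧ P x y) =
      (range (2^K)).filter (fun x => x / 2^(K-t) = p) := by
      refine Finset.Subset.antisymm hsub ?_
      intro x hx
      simp only [mem_filter, mem_range] at hx ⊢
      exact ⟨hx.1, hx.2, h x hx.1 hx.2⟩
    rw [h1, hblock]
    push_cast
    exact le_rfl

open Classical in
/-- the recursively defined variances -/
noncomputable def d9bV (bad : ℕ → ℕ → Prop) (X : ℕ → ℕ → ℝ) : ℕ → ℕ → ℕ → ℝ → ℝ
  | 0, t, p, c => (X t p - c)^2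
  | n+1, t, p, c => if bad t p then (X t p - c)^2
      else (d9bV bad X n (t+1) (2*p) c + d9bV bad X n (t+1) (2*p+1) c) / 2


open Classical in
theorem d9b
    (d8 : ∀ (K : ℕ) (X U : ℕ → ℕ → ℝ) (V : ℕ → ℕ → ℝ → ℝ) (bad act mark : ℕ → ℕ → Prop)
      (B : ℝ), 0 ≤ B →
      (∀ p < 2^K, ∀ c, V K p c = (X K p - c)^2) →
      (∀ t < K, ∀ p < 2^t, ∀ c, V t p c = if bad t p then (X t p - c)^2
        else (V (t+1) (2*p) c + V (t+1) (2*p+1) c) / 2) →
      (∀ p < 2^K, U K p = X K p) →
      (∀ t < K, ∀ p < 2^t, U t p = if bad t p then X t p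
        else (U (t+1) (2*p) + U (t+1) (2*p+1)) / 2) →
      (∀ t < K, ∀ p < 2^t, V t p (X t p) ≤ B) →
      (∀ t < K, ∀ p < 2^t, act t p → ¬ bad t p) →
      (∀ t, t + 1 < K → ∀ p < 2^t, ¬ act t p → ¬ act (t+1) (2*p) ∧ ¬ act (t+1) (2*p+1)) →
      ∑ t ∈ range K, ∑ p ∈ range (2^t), (if act t p ∧ mark t p then
          (1/2:ℝ)^t * ((U (t+1) (2*p) - U (t+1) (2*p+1)) / 2)^2 else 0)
        ≤ B * (((range (2^K)).filter (fun x => ∃ t < K, mark t (x / 2^(K-t)))).card : ℝ) / 2^K)
    (K : ℕ) (g : ℕ → ℕ → ℝ) (X : ℕ → ℕ → ℕ → ℝ) (mu lam : ℝ) (y : ℕ) (hy : y < 2^K)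
    (hVB : ∀ V : ℕ → ℕ → ℝ → ℝ,
      (∀ p < 2^K, ∀ c, V K p c = (X K p y - c)^2) →
      (∀ t < K, ∀ p < 2^t, ∀ c, V t p c = if Bad K g mu t p y then (X t p y - c)^2
        else (V (t+1) (2*p) c + V (t+1) (2*p+1) c) / 2) →
      ∀ t ≤ K, ∀ p < 2^t, V t p (X t p y) ≤ 24 * mu^2) :
    ∑ t ∈ range K, ∑ p ∈ range (2^t),
        (if prx K (Om K g mu) t p y < 1 ∧ 1/8 < pw K g lam t p y then
          (1/2:ℝ)^t * (kk K g X mu t p y)^2 else 0)
      ≤ 24 * mu^2 * (((range (2^K)).filter
          (fun x => ∃ t < K, 1/8 < pw K g lam t (x / 2^(K-t)) y)).card : ℝ) / 2^K := by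
  have hV1 : ∀ p < 2^K, ∀ c,
      d9bV (fun t p => Bad K g mu t p y) (fun t p => X t p y) (K - K) K p c =
        (X K p y - c)^2 := by
    intro p _ c
    rw [Nat.sub_self]
    rfl
  have hV2 : ∀ t < K, ∀ p < 2^t, ∀ c,
      d9bV (fun t p => Bad K g mu t p y) (fun t p => X t p y) (K - t) t p c =
      if Bad K g mu t p y then (X t p y - c)^2
        else (d9bV (fun t p => Bad K g mu t p y) (fun t p => X t p y) (K - (t+1)) (t+1) (2*p) c +
          d9bV (fun t p => Bad K g mu t p y) (fun t p => X t p y) (K - (t+1)) (t+1) (2*p+1) c)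
            / 2 := by
    intro t ht p _ c
    obtain ⟨n, hn⟩ : ∃ n, K - t = n + 1 := ⟨K - t - 1, by omega⟩
    have hn' : K - (t+1) = n := by omega
    rw [hn, hn']
    rfl
  have h := d8 K (fun t p => X t p y) (fun t p => U K g X mu t p y)
    (fun t p c => d9bV (fun t p => Bad K g mu t p y) (fun t p => X t p y) (K - t) t p c)
    (fun t p => Bad K g mu t p y) (fun t p => prx K (Om K g mu) t p y < 1)
    (fun t p => 1/8 < pw K g lam t p y) (24 * mu^2) (by positivity) hV1 hV2 (by
      intro p _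
      simp only [U, Nat.sub_self]
      rfl) (by
      intro t ht p _
      obtain ⟨n, hn⟩ : ∃ n, K - t = n + 1 := ⟨K - t - 1, by omega⟩
      have hn' : K - (t+1) = n := by omega
      simp only [U, hn, hn']
      rfl) (by
      intro t ht p hp
      exact hVB (fun t p c => d9bV (fun t p => Bad K g mu t p y) (fun t p => X t p y)
        (K - t) t p c) hV1 hV2 t ht.le p hp) (by
      intro t ht p hp hact hbad
      have h1 : 1 ≤ prx K (Om K g mu) t p y := by
        rw [d9b_prx K _ t p y ht.le hp]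
        intro x _ hx
        refine ⟨t, ht, ?_⟩
        rw [hx]
        exact hbad
      exact absurd hact (not_lt.2 h1)) (by
      intro t ht p hp hact
      have h1 := (d9b_prx K (Om K g mu) t p y (by omega) hp).1 (not_lt.1 hact)
      have h2 : 2^(K-t) = 2^(K-(t+1)) * 2 := by
        rw [← pow_succ]
        congr 1
        omega
      constructor
      · rw [not_lt, d9b_prx K (Om K g mu) (t+1) (2*p) y ht.le (by rw [pow_succ]; omega)]
        intro x hx hxp
        refine h1 x hx ?_
        rw [h2, ← Nat.div_div_eq_div_mul, hxp]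
        omega
      · rw [not_lt, d9b_prx K (Om K g mu) (t+1) (2*p+1) y ht.le (by rw [pow_succ]; omega)]
        intro x hx hxp
        refine h1 x hx ?_
        rw [h2, ← Nat.div_div_eq_div_mul, hxp]
        omega)
  exact h

end BernD.SD9b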