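import Pool.Agent.Helper643.BernD

open Finset



namespace BernD.SD9c
open Classical in
lemma d9_prx_nonneg (K : ℕ) (P : ℕ → ℕ → Prop) (t p y : ℕ) : 0 ≤ prx K P t p y := by
  unfold prx; positivity

open Classical in
lemma d9_rct_nonneg (K : ℕ) (P : ℕ → ℕ → Prop) (t p s q : ℕ) : 0 ≤ rct K P t p s q := by
  unfold rct; positivity

open Classical in
lemma d9_rct_mono (K : ℕ) (P Q : ℕ → ℕ → Prop) (hPQ : ∀ x y, P x y → Q x y) (t p s q : ℕ) :
    rct K P t p s q ≤ rct K Q t p s q := by
  unfold rct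
  refine div_le_div_of_nonneg_right ?_ (by positivity)
  refine Nat.cast_le.mpr (Finset.card_le_card ?_)
  intro z hz
  rw [Finset.mem_filter] at hz ⊢
  exact ⟨hz.1, hz.2.1, hz.2.2.1, hPQ _ _ hz.2.2.2⟩

open Classical in
lemma d9_Om_mono (K : ℕ) (g : ℕ → ℕ → ℝ) (lam : ℝ) (hlam : 0 < lam) (x y : ℕ)
    (h : Om K g (2*lam) x y) : Om K g lam x y := by
  obtain ⟨t, ht, hb⟩ := h
  refine ⟨t, ht, ?_⟩
  unfold Bad at hb ⊢
  refine lt_of_lt_of_le hb (d9_rct_mono K _ _ (fun a b hab => ?_) _ _ _ _)
  linarith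

open Classical in
lemma d9_card_block (K t b : ℕ) (ht : t ≤ K) (hb : b < 2^(K-t)) :
    ((range (2^K)).filter (fun y => y / 2^t = b)).card = 2^t := by
  have hpos : 0 < 2^t := by positivity
  have hK : 2^K = 2^(K-t) * 2^t := by rw [← pow_add]; congr 1; omega
  have e : (range (2^K)).filter (fun y => y / 2^t = b) = Finset.Ico (b * 2^t) ((b+1) * 2^t) := by
    ext y
    rw [Finset.mem_filter, Finset.mem_range, Finset.mem_Ico]
    constructor
    · rintro ⟨-, h⟩
      rw [← h]
      refine ⟨Nat.div_mul_le_self y _, ?_⟩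
      exact (Nat.div_lt_iff_lt_mul hpos).mp (Nat.lt_succ_self _)
    · rintro ⟨h1, h2⟩
      refine ⟨?_, ?_⟩
      · have : (b+1) * 2^t ≤ 2^(K-t) * 2^t := Nat.mul_le_mul_right _ hb
        omega
      · exact Nat.div_eq_of_lt_le h1 h2
  rw [e, Nat.card_Ico, add_mul, one_mul]
  omega

open Classical in
lemma d9_prx_sum (K t p b : ℕ) (P : ℕ → ℕ → Prop) :
    ∑ y ∈ (range (2^K)).filter (fun y => y / 2^t = b), prx K P t p y = 2^t * rct K P t p t b := by
  have h2 : (0:ℝ) < 2^(K-t) := by positivity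
  have h3 : (0:ℝ) < 2^t := by positivity
  unfold prx rct
  rw [← Finset.sum_div]
  have key : ∑ y ∈ (range (2^K)).filter (fun y => y / 2^t = b),
      (((range (2^K)).filter (fun x => x / 2^(K-t) = p ∧ P x y)).card : ℝ) =
      (((range (2^K) ×ˢ range (2^K)).filter
        (fun z => z.1 / 2^(K-t) = p ∧ z.2 / 2^t = b ∧ P z.1 z.2)).card : ℝ) := by
    rw [Finset.card_filter, Finset.sum_product_right, Finset.sum_filter]
    push_cast
    refine Finset.sum_congr rfl fun y _ => ?_
    by_cases hy : y / 2^t = b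
    · rw [if_pos hy, Finset.card_filter]
      push_cast
      refine Finset.sum_congr rfl fun x _ => ?_
      by_cases hx : x / 2^(K-t) = p ∧ P x y
      · rw [if_pos hx, if_pos ⟨hx.1, hy, hx.2⟩]
      · rw [if_neg hx, if_neg fun h => hx ⟨h.1, h.2.2⟩]
    · rw [if_neg hy]
      symm
      apply Finset.sum_eq_zero
      intro x _
      rw [if_neg fun h => hy h.2.1]
  rw [key]
  field_simp

open Classical in
/-- Markov: at least half of a block has at most twice the average -/
lemma d9_markov (K t p b : ℕ) (P : ℕ → ℕ → Prop) (ht : t ≤ K) (hb : b < 2^(K-t)) (c : ℝ)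
    (hc : 0 ≤ c) :
    ∑ y ∈ (range (2^K)).filter (fun y => y / 2^t = b), c ≤
      2 * ∑ y ∈ ((range (2^K)).filter (fun y => y / 2^t = b)).filter
        (fun y => prx K P t p y ≤ 2 * rct K P t p t b), c := by
  set Y := (range (2^K)).filter (fun y => y / 2^t = b) with hY
  set w := rct K P t p t b with hw
  have hw0 : 0 ≤ w := d9_rct_nonneg _ _ _ _ _ _
  have hcard : Y.card = 2^t := d9_card_block K t b ht hb
  have hsum : ∑ y ∈ Y, prx K P t p y = 2^t * w := d9_prx_sum K t p b P
  have hsplit := Finset.card_filter_add_card_filter_not (s := Y)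
    (fun y => prx K P t p y ≤ 2 * w)
  have hH : 2 * ((Y.filter (fun y => ¬ prx K P t p y ≤ 2 * w)).card : ℝ) ≤ 2^t := by
    rcases hw0.eq_or_lt with h0 | h0
    · have hempty : Y.filter (fun y => ¬ prx K P t p y ≤ 2 * w) = ∅ := by
        rw [Finset.filter_eq_empty_iff]
        intro y hy
        rw [not_not, ← h0, mul_zero]
        rw [← h0, mul_zero] at hsum
        have := (Finset.sum_eq_zero_iff_of_nonneg fun y _ => d9_prx_nonneg K P t p y).mp hsum y hy
        exact this.le
      rw [hempty]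
      simp
    · have h1 : ((Y.filter (fun y => ¬ prx K P t p y ≤ 2 * w)).card : ℝ) * (2 * w) ≤
          2^t * w := by
        rw [← hsum]
        calc ((Y.filter (fun y => ¬ prx K P t p y ≤ 2 * w)).card : ℝ) * (2 * w) =
            ∑ y ∈ Y.filter (fun y => ¬ prx K P t p y ≤ 2 * w), (2 * w) := by
              rw [Finset.sum_const, nsmul_eq_mul]
          _ ≤ ∑ y ∈ Y.filter (fun y => ¬ prx K P t p y ≤ 2 * w), prx K P t p y := by
              refine Finset.sum_le_sum fun y hy => ?_
              exact (not_le.mp (Finset.mem_filter.mp hy).2).le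
          _ ≤ ∑ y ∈ Y, prx K P t p y := by
              refine Finset.sum_le_sum_of_subset_of_nonneg (Finset.filter_subset _ _) ?_
              intro y _ _
              exact d9_prx_nonneg K P t p y
      have h2 : (2 * ((Y.filter (fun y => ¬ prx K P t p y ≤ 2 * w)).card : ℝ)) * w ≤
          2^t * w := by linarith
      exact le_of_mul_le_mul_right h2 h0
  rw [Finset.sum_const, Finset.sum_const, nsmul_eq_mul, nsmul_eq_mul, ← mul_assoc]
  refine mul_le_mul_of_nonneg_right ?_ hc
  have hs' : ((Y.filter (fun y => prx K P t p y ≤ 2 * w)).card : ℝ) +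
      ((Y.filter (fun y => ¬ prx K P t p y ≤ 2 * w)).card : ℝ) = Y.card := by
    exact_mod_cast hsplit
  have hc' : (Y.card : ℝ) = 2^t := by rw [hcard]; push_cast; rfl
  rw [hc'] at hs' ⊢
  linarith

open Classical in
theorem d9c (K : ℕ) (g : ℕ → ℕ → ℝ) (X : ℕ → ℕ → ℕ → ℝ) (lam : ℝ) (hlam : 0 < lam)
    (ε : ℝ) (hε : 0 < ε) (hε1 : ε ≤ 1)
    (hblk : ∀ mu : ℝ, ∀ t < K, ∀ p < 2^t, ∀ y < 2^K, ∀ y' < 2^K, y / 2^t = y' / 2^t →
      kk K g X mu t p y = kk K g X mu t p y')
    (hα : ∀ y < 2^K, ∑ t ∈ range K, ∑ p ∈ range (2^t), (if prx K (Om K g lam) t p y < 1 then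
        (1/2:ℝ)^t * (kk K g X (2*lam) t p y - kk K g X lam t p y)^2 /
          (prx K (Om K g lam) t p y + ε) else 0)
      ≤ 2000 * lam^2 * (1 + Real.log (1/ε)) * prx K (Om K g lam) 0 0 y)
    (hβ : ∀ y < 2^K, ∑ t ∈ range K, ∑ p ∈ range (2^t),
        (if prx K (Om K g (2*lam)) t p y < 1 ∧ 1/8 < pw K g lam t p y then
          (1/2:ℝ)^t * (kk K g X (2*lam) t p y)^2 else 0)
      ≤ 24 * (2*lam)^2 * (((range (2^K)).filter
          (fun x => ∃ t < K, 1/8 < pw K g lam t (x / 2^(K-t)) y)).card : ℝ) / 2^K)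
    (hmax : num K (fun x y => ∃ t < K, 1/8 < pw K g lam t (x / 2^(K-t)) y)
      ≤ 7680 * num K (Om K g lam)) :
    ∑ y ∈ range (2^K), ∑ t ∈ range K, ∑ p ∈ range (2^t),
        (1/2:ℝ)^t * (ee K g X lam t p y)^2 / (pw K g lam t p y + ε)
      ≤ 10^8 * lam^2 * (1 + Real.log (1/ε)) * num K (Om K g lam) / 2^K := by
  obtain ⟨A, hA⟩ : ∃ A : ℕ → ℕ → ℕ → ℝ, ∀ t p y, A t p y =
      if prx K (Om K g lam) t p y < 1 then
        (1/2:ℝ)^t * (kk K g X (2*lam) t p y - kk K g X lam t p y)^2 /
          (prx K (Om K g lam) t p y + ε) else 0 := ⟨_, fun _ _ _ => rfl⟩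
  obtain ⟨B, hB⟩ : ∃ B : ℕ → ℕ → ℕ → ℝ, ∀ t p y, B t p y =
      if prx K (Om K g (2*lam)) t p y < 1 ∧ 1/8 < pw K g lam t p y then
          (1/2:ℝ)^t * (kk K g X (2*lam) t p y)^2 else 0 := ⟨_, fun _ _ _ => rfl⟩
  simp only [← hA] at hα
  simp only [← hB] at hβ
  have hA0 : ∀ t p y, 0 ≤ A t p y := by
    intro t p y
    rw [hA]
    split_ifs
    · have := d9_prx_nonneg K (Om K g lam) t p y
      positivity
    · exact le_rfl
  have hB0 : ∀ t p y, 0 ≤ B t p y := by
    intro t p y
    rw [hB]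
    split_ifs
    · positivity
    · exact le_rfl
  -- block inequality
  have hblock : ∀ t < K, ∀ p < 2^t, ∀ b < 2^(K-t),
      ∑ y ∈ (range (2^K)).filter (fun y => y / 2^t = b),
        (1/2:ℝ)^t * (ee K g X lam t p y)^2 / (pw K g lam t p y + ε) ≤
      ∑ y ∈ (range (2^K)).filter (fun y => y / 2^t = b), (4 * A t p y + 16 * B t p y) := by
    intro t ht p hp b hb
    have hcard := d9_card_block K t b ht.le hb
    obtain ⟨y0, hy0⟩ : ((range (2^K)).filter (fun y => y / 2^t = b)).Nonempty := by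
      rw [← Finset.card_pos, hcard]; positivity
    have hy0' := Finset.mem_filter.mp hy0
    have hy0K := Finset.mem_range.mp hy0'.1
    set Y := (range (2^K)).filter (fun y => y / 2^t = b) with hY
    set w1 := rct K (Om K g lam) t p t b with hw1
    set w2 := rct K (Om K g (2*lam)) t p t b with hw2
    have hw12 : w2 ≤ w1 := d9_rct_mono K _ _ (fun x y => d9_Om_mono K g lam hlam x y) _ _ _ _
    have hw10 : 0 ≤ w1 := d9_rct_nonneg _ _ _ _ _ _
    have hw20 : 0 ≤ w2 := d9_rct_nonneg _ _ _ _ _ _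
    have hpw1 : ∀ y ∈ Y, pw K g lam t p y = w1 := by
      intro y hy
      unfold pw
      rw [(Finset.mem_filter.mp hy).2]
    have hpw2 : ∀ y ∈ Y, pw K g (2*lam) t p y = w2 := by
      intro y hy
      unfold pw
      rw [(Finset.mem_filter.mp hy).2]
    set k1 := kk K g X lam t p y0 with hk1
    set k2 := kk K g X (2*lam) t p y0 with hk2
    have hkk : ∀ mu : ℝ, ∀ y ∈ Y, kk K g X mu t p y = kk K g X mu t p y0 := by
      intro mu y hy
      have h1 := Finset.mem_filter.mp hy
      exact hblk mu t ht p hp y (Finset.mem_range.mp h1.1) y0 hy0K (by rw [h1.2, hy0'.2])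
    have hee : ∀ y ∈ Y, ee K g X lam t p y =
        (if w2 ≤ 1/8 then k2 else 0) - (if w1 ≤ 1/8 then k1 else 0) := by
      intro y hy
      unfold ee
      rw [hpw1 y hy, hpw2 y hy, hkk _ y hy, hkk _ y hy]
    have hrhs0 : ∀ y ∈ Y, 0 ≤ 4 * A t p y + 16 * B t p y := by
      intro y _
      have := hA0 t p y
      have := hB0 t p y
      positivity
    by_cases c2 : w2 ≤ 1/8
    · by_cases c1 : w1 ≤ 1/8
      · -- both good
        have e1 : ∑ y ∈ Y, (1/2:ℝ)^t * (ee K g X lam t p y)^2 / (pw K g lam t p y + ε) =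
            ∑ y ∈ Y, (1/2:ℝ)^t * (k2 - k1)^2 / (w1 + ε) := by
          refine Finset.sum_congr rfl fun y hy => ?_
          rw [hee y hy, if_pos c2, if_pos c1, hpw1 y hy]
        rw [e1]
        refine (d9_markov K t p b (Om K g lam) ht.le hb _ (by positivity)).trans ?_
        rw [← hw1, ← hY, Finset.mul_sum]
        calc ∑ y ∈ Y.filter (fun y => prx K (Om K g lam) t p y ≤ 2 * w1),
              2 * ((1/2:ℝ)^t * (k2 - k1)^2 / (w1 + ε)) ≤
            ∑ y ∈ Y.filter (fun y => prx K (Om K g lam) t p y ≤ 2 * w1),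
              (4 * A t p y + 16 * B t p y) := by
              refine Finset.sum_le_sum fun y hy => ?_
              have hyY := (Finset.mem_filter.mp hy).1
              have hyp := (Finset.mem_filter.mp hy).2
              have hpr := d9_prx_nonneg K (Om K g lam) t p y
              have hlt : prx K (Om K g lam) t p y < 1 := by linarith
              have hAy : A t p y = (1/2:ℝ)^t * (k2 - k1)^2 /
                  (prx K (Om K g lam) t p y + ε) := by
                rw [hA, if_pos hlt, hkk _ y hyY, hkk _ y hyY]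
              have h5 : (1/2:ℝ)^t * (k2 - k1)^2 / (w1 + ε) ≤
                  2 * ((1/2:ℝ)^t * (k2 - k1)^2 / (prx K (Om K g lam) t p y + ε)) := by
                rw [← mul_div_assoc, div_le_div_iff₀ (by positivity) (by positivity)]
                have h6 : 0 ≤ (1/2:ℝ)^t * (k2 - k1)^2 := by positivity
                nlinarith
              have := hB0 t p y
              rw [hAy]
              linarith
          _ ≤ _ := Finset.sum_le_sum_of_subset_of_nonneg (Finset.filter_subset _ _)
              fun y hy _ => hrhs0 y hy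
      · push Not at c1
        have e1 : ∑ y ∈ Y, (1/2:ℝ)^t * (ee K g X lam t p y)^2 / (pw K g lam t p y + ε) =
            ∑ y ∈ Y, (1/2:ℝ)^t * k2^2 / (w1 + ε) := by
          refine Finset.sum_congr rfl fun y hy => ?_
          rw [hee y hy, if_pos c2, if_neg (not_le.mpr c1), hpw1 y hy, sub_zero]
        rw [e1]
        refine (d9_markov K t p b (Om K g (2*lam)) ht.le hb _ (by positivity)).trans ?_
        rw [← hw2, ← hY, Finset.mul_sum]
        calc ∑ y ∈ Y.filter (fun y => prx K (Om K g (2*lam)) t p y ≤ 2 * w2),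
              2 * ((1/2:ℝ)^t * k2^2 / (w1 + ε)) ≤
            ∑ y ∈ Y.filter (fun y => prx K (Om K g (2*lam)) t p y ≤ 2 * w2),
              (4 * A t p y + 16 * B t p y) := by
              refine Finset.sum_le_sum fun y hy => ?_
              have hyY := (Finset.mem_filter.mp hy).1
              have hyp := (Finset.mem_filter.mp hy).2
              have hlt : prx K (Om K g (2*lam)) t p y < 1 := by linarith
              have hBy : B t p y = (1/2:ℝ)^t * k2^2 := by
                rw [hB, if_pos ⟨hlt, by rw [hpw1 y hyY]; exact c1⟩, hkk _ y hyY]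
              have h5 : (1/2:ℝ)^t * k2^2 / (w1 + ε) ≤ 8 * ((1/2:ℝ)^t * k2^2) := by
                rw [div_le_iff₀ (by positivity)]
                have h6 : 0 ≤ (1/2:ℝ)^t * k2^2 := by positivity
                nlinarith
              have := hA0 t p y
              rw [hBy]
              linarith
          _ ≤ _ := Finset.sum_le_sum_of_subset_of_nonneg (Finset.filter_subset _ _)
              fun y hy _ => hrhs0 y hy
    · have c1 : ¬ w1 ≤ 1/8 := fun h => c2 (hw12.trans h)
      have e1 : ∑ y ∈ Y, (1/2:ℝ)^t * (ee K g X lam t p y)^2 / (pw K g lam t p y + ε) = 0 := by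
        refine Finset.sum_eq_zero fun y hy => ?_
        rw [hee y hy, if_neg c2, if_neg c1]
        simp
      rw [e1]
      exact Finset.sum_nonneg hrhs0
  -- sum over blocks
  have htp : ∀ t ∈ range K, ∀ p ∈ range (2^t),
      ∑ y ∈ range (2^K), (1/2:ℝ)^t * (ee K g X lam t p y)^2 / (pw K g lam t p y + ε) ≤
      ∑ y ∈ range (2^K), (4 * A t p y + 16 * B t p y) := by
    intro t ht p hp
    rw [Finset.mem_range] at ht hp
    have hmaps : ∀ y ∈ range (2^K), y / 2^t ∈ range (2^(K-t)) := by
      intro y hy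
      rw [Finset.mem_range] at hy ⊢
      rw [Nat.div_lt_iff_lt_mul (by positivity), ← pow_add]
      have : K - t + t = K := by omega
      rw [this]; exact hy
    rw [← Finset.sum_fiberwise_of_maps_to hmaps, ← Finset.sum_fiberwise_of_maps_to hmaps]
    refine Finset.sum_le_sum fun b hb => ?_
    exact hblock t ht p hp b (Finset.mem_range.mp hb)
  have hswap : ∀ F : ℕ → ℕ → ℕ → ℝ, ∑ y ∈ range (2^K), ∑ t ∈ range K, ∑ p ∈ range (2^t), F t p y =
      ∑ t ∈ range K, ∑ p ∈ range (2^t), ∑ y ∈ range (2^K), F t p y := by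
    intro F
    rw [Finset.sum_comm]
    refine Finset.sum_congr rfl fun t _ => ?_
    rw [Finset.sum_comm]
  have hmain : ∑ y ∈ range (2^K), ∑ t ∈ range K, ∑ p ∈ range (2^t),
        (1/2:ℝ)^t * (ee K g X lam t p y)^2 / (pw K g lam t p y + ε) ≤
      4 * ∑ y ∈ range (2^K), ∑ t ∈ range K, ∑ p ∈ range (2^t), A t p y +
      16 * ∑ y ∈ range (2^K), ∑ t ∈ range K, ∑ p ∈ range (2^t), B t p y := by
    rw [hswap (fun t p y => (1/2:ℝ)^t * (ee K g X lam t p y)^2 / (pw K g lam t p y + ε)),
      hswap A, hswap B, Finset.mul_sum, Finset.mul_sum, ← Finset.sum_add_distrib]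
    refine Finset.sum_le_sum fun t ht => ?_
    rw [Finset.mul_sum, Finset.mul_sum, ← Finset.sum_add_distrib]
    refine Finset.sum_le_sum fun p hp => ?_
    refine (htp t ht p hp).trans (le_of_eq ?_)
    rw [Finset.mul_sum, Finset.mul_sum, ← Finset.sum_add_distrib]
  have hnum1 : ∑ y ∈ range (2^K), prx K (Om K g lam) 0 0 y = num K (Om K g lam) / 2^K := by
    unfold prx num
    rw [← Finset.sum_div, Nat.sub_zero]
    congr 1
    rw [Finset.card_filter, Finset.sum_product_right]
    push_cast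
    refine Finset.sum_congr rfl fun y _ => ?_
    rw [Finset.card_filter]
    push_cast
    refine Finset.sum_congr rfl fun x hx => ?_
    have hx0 : x / 2^K = 0 := Nat.div_eq_of_lt (Finset.mem_range.mp hx)
    by_cases h : Om K g lam x y
    · rw [if_pos ⟨hx0, h⟩, if_pos h]
    · rw [if_neg fun h' => h h'.2, if_neg h]
  have hnum2 : ∑ y ∈ range (2^K), (((range (2^K)).filter
          (fun x => ∃ t < K, 1/8 < pw K g lam t (x / 2^(K-t)) y)).card : ℝ) =
      num K (fun x y => ∃ t < K, 1/8 < pw K g lam t (x / 2^(K-t)) y) := by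
    unfold num
    rw [Finset.card_filter, Finset.sum_product_right]
    push_cast
    refine Finset.sum_congr rfl fun y _ => ?_
    rw [Finset.card_filter]
    push_cast
    rfl
  have hSA : ∑ y ∈ range (2^K), ∑ t ∈ range K, ∑ p ∈ range (2^t), A t p y ≤
      2000 * lam^2 * (1 + Real.log (1/ε)) * (num K (Om K g lam) / 2^K) := by
    rw [← hnum1, Finset.mul_sum]
    exact Finset.sum_le_sum fun y hy => hα y (Finset.mem_range.mp hy)
  have hSB : ∑ y ∈ range (2^K), ∑ t ∈ range K, ∑ p ∈ range (2^t), B t p y ≤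
      24 * (2*lam)^2 * (7680 * num K (Om K g lam)) / 2^K := by
    calc ∑ y ∈ range (2^K), ∑ t ∈ range K, ∑ p ∈ range (2^t), B t p y ≤
        ∑ y ∈ range (2^K), 24 * (2*lam)^2 * (((range (2^K)).filter
          (fun x => ∃ t < K, 1/8 < pw K g lam t (x / 2^(K-t)) y)).card : ℝ) / 2^K :=
          Finset.sum_le_sum fun y hy => hβ y (Finset.mem_range.mp hy)
      _ = 24 * (2*lam)^2 * (num K (fun x y => ∃ t < K, 1/8 < pw K g lam t (x / 2^(K-t)) y)) /
          2^K := by
          rw [← hnum2, ← Finset.sum_div, ← Finset.mul_sum]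
      _ ≤ _ := by
          refine div_le_div_of_nonneg_right ?_ (by positivity)
          exact mul_le_mul_of_nonneg_left hmax (by positivity)
  have hlog : 0 ≤ Real.log (1/ε) := Real.log_nonneg (by rw [le_div_iff₀ hε]; linarith)
  have hn0 : 0 ≤ num K (Om K g lam) / 2^K := by unfold num; positivity
  refine hmain.trans ?_
  have e1 : 24 * (2*lam)^2 * (7680 * num K (Om K g lam)) / 2^K =
      737280 * (lam^2 * (num K (Om K g lam) / 2^K)) := by ring
  have e2 : 10^8 * lam^2 * (1 + Real.log (1/ε)) * num K (Om K g lam) / 2^K =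
      10^8 * ((1 + Real.log (1/ε)) * (lam^2 * (num K (Om K g lam) / 2^K))) := by ring
  have e3 : 2000 * lam^2 * (1 + Real.log (1/ε)) * (num K (Om K g lam) / 2^K) =
      2000 * ((1 + Real.log (1/ε)) * (lam^2 * (num K (Om K g lam) / 2^K))) := by ring
  rw [e1] at hSB
  rw [e3] at hSA
  rw [e2]
  set q := lam^2 * (num K (Om K g lam) / 2^K) with hq
  have hq0 : 0 ≤ q := by positivity
  have h7 : q ≤ (1 + Real.log (1/ε)) * q := by nlinarith
  nlinarith

end BernD.SD9c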