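import Pool.Agent.Helper643.BernD

open Finset



namespace BernD.SD9d
theorem gamma_block (K : ℕ) (g : ℕ → ℕ → ℝ) (X : ℕ → ℕ → ℕ → ℝ) (hX : Pot K g X) (mu : ℝ) :
    (∀ t ≤ K, ∀ p < 2^t, ∀ y < 2^K, ∀ y' < 2^K, y / 2^t = y' / 2^t →
      U K g X mu t p y - X t p y = U K g X mu t p y' - X t p y') ∧
    (∀ t < K, ∀ p < 2^t, ∀ y < 2^K, ∀ y' < 2^K, y / 2^t = y' / 2^t →
      kk K g X mu t p y = kk K g X mu t p y') := by
  classical
  have hdiv : ∀ t y y' : ℕ, y / 2^t = y' / 2^t → y / 2^(t+1) = y' / 2^(t+1) := by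
    intro t y y' h
    rw [pow_succ, ← Nat.div_div_eq_div_mul, ← Nat.div_div_eq_div_mul, h]
  have hBad : ∀ t p y y' : ℕ, y / 2^t = y' / 2^t → (Bad K g mu t p y ↔ Bad K g mu t p y') := by
    intro t p y y' h
    unfold Bad
    rw [hdiv t y y' h]
  have hU : ∀ t, t < K → ∀ p y, U K g X mu t p y = if Bad K g mu t p y then X t p y
      else (U K g X mu (t+1) (2*p) y + U K g X mu (t+1) (2*p+1) y) / 2 := by
    intro t ht p y
    unfold U
    rw [show K - t = (K - (t+1)) + 1 by omega]
    rfl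
  have hUK : ∀ p y, U K g X mu K p y = X K p y := by
    intro p y
    unfold U
    rw [Nat.sub_self]
    rfl
  have key : ∀ n t, K - t = n → t ≤ K → ∀ p < 2^t, ∀ y < 2^K, ∀ y' < 2^K, y / 2^t = y' / 2^t →
      U K g X mu t p y - X t p y = U K g X mu t p y' - X t p y' := by
    intro n
    induction n with
    | zero =>
      intro t ht htK p _ y _ y' _ _
      have : t = K := by omega
      subst this
      rw [hUK, hUK]; ring
    | succ n ih =>
      intro t ht htK p hp y hy y' hy' h
      have htK' : t < K := by omega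
      rw [hU t htK' p y, hU t htK' p y']
      by_cases hb : Bad K g mu t p y
      · rw [if_pos hb, if_pos ((hBad t p y y' h).1 hb)]; ring
      · rw [if_neg hb, if_neg (fun h' => hb ((hBad t p y y' h).2 h'))]
        have hp2 : 2 * p < 2^(t+1) := by rw [pow_succ]; omega
        have hp3 : 2 * p + 1 < 2^(t+1) := by rw [pow_succ]; omega
        have e1 := ih (t+1) (by omega) (by omega) (2*p) hp2 y hy y' hy' (hdiv t y y' h)
        have e2 := ih (t+1) (by omega) (by omega) (2*p+1) hp3 y hy y' hy' (hdiv t y y' h)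
        have i1 := hX.inc t htK' (2*p) hp2 y hy y' hy' h
        have i2 := hX.inc t htK' (2*p+1) hp3 y hy y' hy' h
        rw [show 2 * p / 2 = p by omega] at i1
        rw [show (2 * p + 1) / 2 = p by omega] at i2
        linarith
  refine ⟨fun t ht p hp y hy y' hy' h => key (K - t) t rfl ht p hp y hy y' hy' h, ?_⟩
  intro t htK p hp y hy y' hy' h
  unfold kk
  have hp2 : 2 * p < 2^(t+1) := by rw [pow_succ]; omega
  have hp3 : 2 * p + 1 < 2^(t+1) := by rw [pow_succ]; omega
  have e1 := key _ (t+1) rfl (by omega) (2*p) hp2 y hy y' hy' (hdiv t y y' h)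
  have e2 := key _ (t+1) rfl (by omega) (2*p+1) hp3 y hy y' hy' (hdiv t y y' h)
  have i1 := hX.inc t htK (2*p) hp2 y hy y' hy' h
  have i2 := hX.inc t htK (2*p+1) hp3 y hy y' hy' h
  rw [show 2 * p / 2 = p by omega] at i1
  rw [show (2 * p + 1) / 2 = p by omega] at i2
  linarith

end BernD.SD9d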