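import Pool.Agent.Helper643.Bern.D1
import Pool.Agent.Helper643.Bern.D2
import Pool.Agent.Helper643.Bern.D3
import Pool.Agent.Helper643.Bern.D4
import Pool.Agent.Helper643.Bern.D5
import Pool.Agent.Helper643.Bern.D6
import Pool.Agent.Helper643.Bern.D7
import Pool.Agent.Helper643.Bern.D8
import Pool.Agent.Helper643.Bern.D9a
import Pool.Agent.Helper643.Bern.D9b
import Pool.Agent.Helper643.Bern.D9c
import Pool.Agent.Helper643.Bern.D9d
import Pool.Agent.Helper643.Bern.D10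
import Pool.Agent.Helper643.Bern.D11a
import Pool.Agent.Helper643.Bern.D11b
import Pool.Agent.Helper643.Bern.D11c

open Finset

namespace BernD

theorem maxBound (K : ℕ) (P Q : ℕ → ℕ → Prop)
    (h : ∀ x < 2^K, ∀ y < 2^K, Q x y → ∃ a ≤ K, ∃ s ≤ K,
      1/16 ≤ rct K P a (x / 2^(K-a)) s (y / 2^s)) :
    num K Q ≤ 7680 * num K P := by
  classical
  have hex : ∀ x y, ∃ as : ℕ × ℕ, as.1 ≤ K ∧ as.2 ≤ K ∧
      (x < 2^K → y < 2^K → Q x y → 1/16 ≤ rct K P as.1 (x / 2^(K-as.1)) as.2 (y / 2^as.2)) := by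
    intro x y
    by_cases hx : x < 2^K
    · by_cases hy : y < 2^K
      · by_cases hq : Q x y
        · obtain ⟨a, ha, s, hs, h1⟩ := h x hx y hy hq
          exact ⟨(a, s), ha, hs, fun _ _ _ => h1⟩
        · exact ⟨(0, 0), Nat.zero_le _, Nat.zero_le _, fun _ _ hq' => absurd hq' hq⟩
      · exact ⟨(0, 0), Nat.zero_le _, Nat.zero_le _, fun _ hy' => absurd hy' hy⟩
    · exact ⟨(0, 0), Nat.zero_le _, Nat.zero_le _, fun hx' => absurd hx' hx⟩
  choose f hf1 hf2 hf3 using hex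
  have hs := SD2.strong (fun K L h h0 h1 Mh hM => SD1.max1 K L h h0 h1 Mh hM) K 4 P
    (fun x y => rct K P (f x y).1 (x / 2^(K-(f x y).1)) (f x y).2 (y / 2^(f x y).2))
    (fun x _ y _ => ⟨(f x y).1, hf1 x y, (f x y).2, hf2 x y, rfl⟩)
  have hsub : num K Q ≤ ∑ z ∈ (range (2^K) ×ˢ range (2^K)).filter (fun z => (1/2:ℝ)^4 ≤
      rct K P (f z.1 z.2).1 (z.1 / 2^(K-(f z.1 z.2).1)) (f z.1 z.2).2 (z.2 / 2^(f z.1 z.2).2)),
      16 * rct K P (f z.1 z.2).1 (z.1 / 2^(K-(f z.1 z.2).1)) (f z.1 z.2).2 (z.2 / 2^(f z.1 z.2).2) := by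
    unfold num
    have : (((range (2^K) ×ˢ range (2^K)).filter (fun z => Q z.1 z.2)).card : ℝ) =
        ∑ z ∈ (range (2^K) ×ˢ range (2^K)).filter (fun z => Q z.1 z.2), (1:ℝ) := by simp
    rw [this]
    refine le_trans ?_ (Finset.sum_le_sum_of_subset_of_nonneg (s := (range (2^K) ×ˢ range (2^K)).filter (fun z => Q z.1 z.2)) ?_ ?_)
    · apply Finset.sum_le_sum
      intro z hz
      simp only [mem_filter, mem_product, mem_range] at hz
      have := hf3 z.1 z.2 hz.1.1 hz.1.2 hz.2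
      linarith
    · intro z hz
      simp only [mem_filter, mem_product, mem_range] at hz ⊢
      refine ⟨hz.1, ?_⟩
      have := hf3 z.1 z.2 hz.1.1 hz.1.2 hz.2
      norm_num at this ⊢
      linarith
    · intro z _ _
      have : 0 ≤ rct K P (f z.1 z.2).1 (z.1 / 2^(K-(f z.1 z.2).1)) (f z.1 z.2).2 (z.2 / 2^(f z.1 z.2).2) := by
        unfold rct; positivity
      linarith
  rw [← Finset.mul_sum] at hsub
  norm_num at hs hsub ⊢
  nlinarith [hs, hsub]

theorem U_K (K : ℕ) (g : ℕ → ℕ → ℝ) (X : ℕ → ℕ → ℕ → ℝ) (lam : ℝ) (p y : ℕ) :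
    U K g X lam K p y = X K p y := by
  unfold U; rw [Nat.sub_self]; rfl

open Classical in
theorem U_step (K : ℕ) (g : ℕ → ℕ → ℝ) (X : ℕ → ℕ → ℕ → ℝ) (lam : ℝ) (t : ℕ) (ht : t < K)
    (p y : ℕ) : U K g X lam t p y = if Bad K g lam t p y then X t p y
      else (U K g X lam (t+1) (2*p) y + U K g X lam (t+1) (2*p+1) y) / 2 := by
  unfold U
  have : K - t = (K - (t+1)) + 1 := by omega
  rw [this]
  rfl

open Classical in
theorem allBounds (K : ℕ) (g : ℕ → ℕ → ℝ) (X : ℕ → ℕ → ℕ → ℝ) (hX : Pot K g X) (lam : ℝ)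
    (hlam : 0 < lam) (y : ℕ) (hy : y < 2^K) :
    (∀ V : ℕ → ℕ → ℝ → ℝ,
      (∀ p < 2^K, ∀ c, V K p c = (X K p y - c)^2) →
      (∀ t < K, ∀ p < 2^t, ∀ c, V t p c = if Bad K g lam t p y then (X t p y - c)^2
        else (V (t+1) (2*p) c + V (t+1) (2*p+1) c) / 2) →
      ∀ t ≤ K, ∀ p < 2^t, V t p (X t p y) ≤ 24 * lam^2) ∧
    (∀ t ≤ K, ∀ p < 2^t, |U K g X lam t p y - X t p y| ≤ 5 * lam) ∧
    (∀ t < K, ∀ p < 2^t, ¬ Bad K g lam t p y → |X (t+1) (2*p) y - X t p y| ≤ 2*lam ∧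
      |X (t+1) (2*p+1) y - X t p y| ≤ 2*lam) := by
  have h4 : ∀ t < K, ∀ p < 2^t, ¬ Bad K g lam t p y → ∀ O : ℕ → ℕ → ℝ,
      (∀ q < 2^K, O K q = if 2*lam < |X K q y - X t p y| then 1 else 0) →
      (∀ s < K, ∀ q < 2^s, O s q = if 2*lam < |X s q y - X t p y| then 1
        else (O (s+1) (2*q) + O (s+1) (2*q+1)) / 2) → O t p ≤ 1/4 := by
    intro t ht p hp hb O hOK hO
    exact SD5.good_inc (fun K g X lam h1 h2 O h3 h4 => SD4.ott K g X lam h1 h2 O h3 h4)
      K g X hX lam hlam.le t ht p hp y hy hb O hOK hO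
  have key : ∀ V : ℕ → ℕ → ℝ → ℝ,
      (∀ p < 2^K, ∀ c, V K p c = (X K p y - c)^2) →
      (∀ t < K, ∀ p < 2^t, ∀ c, V t p c = if Bad K g lam t p y then (X t p y - c)^2
        else (V (t+1) (2*p) c + V (t+1) (2*p+1) c) / 2) → _ := fun V hVK hV =>
    SD6.vbound K (fun t p => X t p y) (fun t p => Bad K g lam t p y) lam hlam.le h4 V hVK hV
      (fun t p => U K g X lam t p y) (fun p _ => U_K K g X lam p y)
      (fun t ht p _ => U_step K g X lam t ht p y)
  refine ⟨fun V hVK hV => (key V hVK hV).1, ?_, ?_⟩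
  all_goals
    have hex : ∃ V : ℕ → ℕ → ℝ → ℝ,
      (∀ p < 2^K, ∀ c, V K p c = (X K p y - c)^2) ∧
      (∀ t < K, ∀ p < 2^t, ∀ c, V t p c = if Bad K g lam t p y then (X t p y - c)^2
        else (V (t+1) (2*p) c + V (t+1) (2*p+1) c) / 2) := by
      refine ⟨fun t p c => Nat.rec (motive := fun _ => ℕ → ℕ → ℝ) (fun t p => (X t p y - c)^2)
        (fun _ ih t p => if Bad K g lam t p y then (X t p y - c)^2
          else (ih (t+1) (2*p) + ih (t+1) (2*p+1)) / 2) (K - t) t p, ?_, ?_⟩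
      · intro p _ c
        simp only [Nat.sub_self]
        rfl
      · intro t ht p _ c
        have : K - t = (K - (t+1)) + 1 := by omega
        simp only [this]
    obtain ⟨V, hVK, hV⟩ := hex
  · exact (key V hVK hV).2.1
  · exact (key V hVK hV).2.2

theorem Bad_mono (K : ℕ) (g : ℕ → ℕ → ℝ) (lam mu : ℝ) (h : lam ≤ mu) (t p y : ℕ)
    (hb : Bad K g mu t p y) : Bad K g lam t p y := by
  classical
  unfold Bad at *
  refine lt_of_lt_of_le hb ?_
  unfold rct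
  apply div_le_div_of_nonneg_right _ (by positivity)
  have : ((range (2^K) ×ˢ range (2^K)).filter (fun z : ℕ × ℕ =>
      z.1 / 2^(K-t) = p ∧ z.2 / 2^(t+1) = y / 2^(t+1) ∧ mu < |g z.1 z.2|)).card ≤
      ((range (2^K) ×ˢ range (2^K)).filter (fun z : ℕ × ℕ =>
      z.1 / 2^(K-t) = p ∧ z.2 / 2^(t+1) = y / 2^(t+1) ∧ lam < |g z.1 z.2|)).card := by
    apply Finset.card_le_card
    intro z hz
    simp only [mem_filter] at hz ⊢
    exact ⟨hz.1, hz.2.1, hz.2.2.1, lt_of_le_of_lt h hz.2.2.2⟩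
  exact_mod_cast this

theorem div_iff (a w p : ℕ) (hw : 0 < w) : a / w = p ↔ p * w ≤ a ∧ a < (p+1) * w := by
  rw [Nat.div_eq_iff hw, add_mul, one_mul]
  constructor
  · rintro ⟨h1, h2⟩; constructor <;> omega
  · rintro ⟨h1, h2⟩; constructor <;> omega

/-- if `pw ≤ 1/8` then the rectangle `R_t` is good. -/
theorem not_bad_of_pw (K : ℕ) (g : ℕ → ℕ → ℝ) (lam : ℝ) (t : ℕ) (ht : t < K) (p : ℕ)
    (hp : p < 2^t) (y : ℕ) (hy : y < 2^K) (h : pw K g lam t p y ≤ 1/8) :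
    ¬ Bad K g lam t p y := by
  classical
  intro hb
  have h1 : pw K g lam t p y = 1 := by
    unfold pw rct
    rw [div_eq_one_iff_eq (by positivity)]
    have : (range (2^K) ×ˢ range (2^K)).filter
        (fun z : ℕ × ℕ => z.1 / 2^(K-t) = p ∧ z.2 / 2^t = y / 2^t ∧ Om K g lam z.1 z.2) =
        (Finset.Ico (p * 2^(K-t)) ((p+1) * 2^(K-t))) ×ˢ
        (Finset.Ico ((y / 2^t) * 2^t) ((y / 2^t + 1) * 2^t)) := by
      ext ⟨a, b⟩
      simp only [mem_filter, mem_product, mem_range, mem_Ico]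
      have hpow : 2^K = 2^t * 2^(K-t) := by rw [← pow_add]; congr 1; omega
      have hpow2 : 2^K = 2^(K-t) * 2^t := by rw [← pow_add]; congr 1; omega
      have hyq : y / 2^t < 2^(K-t) := by
        rw [Nat.div_lt_iff_lt_mul (by positivity)]; rw [← hpow2]; exact hy
      constructor
      · rintro ⟨-, h2, h3, -⟩
        rw [div_iff _ _ _ (by positivity)] at h2 h3
        exact ⟨h2, h3⟩
      · rintro ⟨⟨h1, h2⟩, h3, h4⟩
        have e1 : a / 2^(K-t) = p := by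
          rw [div_iff _ _ _ (by positivity)]
          exact ⟨h1, h2⟩
        have e2 : b / 2^t = y / 2^t := by
          rw [div_iff _ _ _ (by positivity)]
          exact ⟨h3, h4⟩
        refine ⟨⟨?_, ?_⟩, e1, e2, ?_⟩
        · calc a < (p+1) * 2^(K-t) := h2
            _ ≤ 2^t * 2^(K-t) := Nat.mul_le_mul_right _ hp
            _ = 2^K := hpow.symm
        · calc b < (y/2^t+1) * 2^t := h4
            _ ≤ 2^(K-t) * 2^t := Nat.mul_le_mul_right _ hyq
            _ = 2^K := hpow2.symm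
        · refine ⟨t, ht, ?_⟩
          unfold Bad at hb ⊢
          have e3 : b / 2^(t+1) = y / 2^(t+1) := by
            rw [pow_succ, ← Nat.div_div_eq_div_mul, ← Nat.div_div_eq_div_mul, e2]
          rw [e1, e3]; exact hb
    rw [this, card_product, Nat.card_Ico, Nat.card_Ico]
    have e1 : (p+1) * 2^(K-t) - p * 2^(K-t) = 2^(K-t) := by
      rw [← Nat.sub_mul]; simp
    have e2 : (y/2^t+1) * 2^t - (y/2^t) * 2^t = 2^t := by
      rw [← Nat.sub_mul]; simp
    rw [e1, e2]; push_cast; rfl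
  rw [h1] at h; norm_num at h

theorem dyadic (K : ℕ) (g : ℕ → ℕ → ℝ) (hadd : Additive K g) (l : ℕ) (hl : l < K) :
    SS K l (cf K l (kinf K g)) ≤ 2 * 10^10 * ((l:ℝ)+1)^2 *
      ∑ x ∈ range (2^K), ∑ y ∈ range (2^K), |g x y| := by
  classical
  obtain ⟨X, hX⟩ := SD3.exists_pot K g hadd
  have hΓ := fun mu => (SD9d.gamma_block K g X hX mu).1
  have hblk := fun mu => (SD9d.gamma_block K g X hX mu).2
  refine SD11c.d11c K g X hX l hl ?_ ?_ ?_
  · intro lam hlam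
    have h9 : ∀ ε : ℝ, 0 < ε → ε ≤ 1 →
        ∑ y ∈ range (2^K), ∑ t ∈ range K, ∑ p ∈ range (2^t),
          (1/2:ℝ)^t * (ee K g X lam t p y)^2 / (pw K g lam t p y + ε)
        ≤ 10^8 * lam^2 * (1 + Real.log (1/ε)) * num K (Om K g lam) / 2^K := by
      intro ε hε hε1
      refine SD9c.d9c K g X lam hlam ε hε hε1 hblk ?_ ?_ ?_
      · intro y hy
        exact SD9a.d9a (fun T Kc ε h1 h2 h3 M p h4 h5 h6 h7 h8 =>
          SD7.d7 T Kc ε h1 h2 h3 M p h4 h5 h6 h7 h8) K g X lam hlam ε hε hε1 y hy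
          (allBounds K g X hX lam hlam y hy).2.1
          (allBounds K g X hX (2*lam) (by linarith) y hy).2.1
      · intro y hy
        exact SD9b.d9b (fun K X U V bad act mark B h1 h2 h3 h4 h5 h6 h7 h8 =>
          SD8.d8 K X U V bad act mark B h1 h2 h3 h4 h5 h6 h7 h8) K g X (2*lam) lam y hy
          (allBounds K g X hX (2*lam) (by linarith) y hy).1
      · apply maxBound
        rintro x hx y hy ⟨t, ht, h⟩
        exact ⟨t, ht.le, t, ht.le, by unfold pw at h; linarith⟩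
    refine SD11b.d11b K g X lam hlam l hl ?_ ?_ ?_
    · intro a hal p hp q hq
      exact SD11a.d11a K g X lam a l hal (fun p hp q hq hθ y hy y' hy' h1 h2 =>
        SD10.d10 K g X hX hΓ lam hlam a l hal p hp q hq hθ y hy y' hy' h1 h2) p hp q hq
    · exact h9 _ (by positivity) (pow_le_one₀ (by norm_num) (by norm_num))
    · intro Θ hΘ
      exact SD2.strong (fun K L h h0 h1 Mh hM => SD1.max1 K L h h0 h1 Mh hM) K (l+4) _ Θ hΘ
  · intro lam hlam
    apply maxBound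
    rintro x hx y hy ⟨t, ht, h⟩
    exact ⟨t, ht.le, t+1, ht, by unfold Bad at h; linarith⟩
  · intro lam hlam t ht p hp y hy hpw
    have hnb := not_bad_of_pw K g lam t ht p hp y hy hpw
    obtain ⟨-, hU, hinc⟩ := allBounds K g X hX lam hlam y hy
    have hp2 : 2 * p < 2^(t+1) := by rw [pow_succ]; omega
    have hp3 : 2 * p + 1 < 2^(t+1) := by rw [pow_succ]; omega
    have a1 := hU (t+1) ht (2*p) hp2
    have a2 := hU (t+1) ht (2*p+1) hp3
    obtain ⟨a3, a4⟩ := hinc t ht p hp hnb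
    unfold kk
    rw [abs_le] at *
    constructor <;> linarith [a1.1, a1.2, a2.1, a2.2, a3.1, a3.2, a4.1, a4.2]

end BernD
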