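import Pool.Agent.Helper643.BernP

open Finset



open Finset
namespace BernP.SF1
open MeasureTheory in
theorem f1_swap (F : ℝ → ℝ → ℝ) (hF : Continuous (Function.uncurry F)) :
    ∫ x in (0:ℝ)..(2*Real.pi), ∫ y in (0:ℝ)..(2*Real.pi), F x y =
      ∫ y in (0:ℝ)..(2*Real.pi), ∫ x in (0:ℝ)..(2*Real.pi), F x y := by
  have hpi : (0:ℝ) ≤ 2 * Real.pi := by positivity
  simp only [intervalIntegral.integral_of_le hpi]
  apply integral_integral_swap
  rw [Measure.prod_restrict]
  have h1 : IntegrableOn (Function.uncurry F)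
      (Set.Icc (0:ℝ) (2*Real.pi) ×ˢ Set.Icc (0:ℝ) (2*Real.pi))
      ((volume : Measure ℝ).prod volume) :=
    hF.continuousOn.integrableOn_compact (isCompact_Icc.prod isCompact_Icc)
  exact h1.mono_set (Set.prod_mono Set.Ioc_subset_Icc_self Set.Ioc_subset_Icc_self)

theorem f1_exp (k : ℤ) : ∫ x in (0:ℝ)..(2*Real.pi), Complex.exp (Complex.I * (k * x)) =
    if k = 0 then ((2 * Real.pi : ℝ) : ℂ) else 0 := by
  split_ifs with h
  · subst h
    simp
  · have hc : Complex.I * (k : ℂ) ≠ 0 :=
      mul_ne_zero Complex.I_ne_zero (by exact_mod_cast h)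
    have h1 := integral_exp_mul_complex (a := 0) (b := 2 * Real.pi) hc
    have h2 : ∀ x : ℝ, Complex.exp (Complex.I * (k * x)) = Complex.exp (Complex.I * (k : ℂ) * x) := by
      intro x
      rw [mul_assoc]
    simp only [h2]
    rw [h1]
    have h3 : Complex.exp (Complex.I * (k : ℂ) * ((2 * Real.pi : ℝ) : ℂ)) = 1 := by
      rw [Complex.exp_eq_one_iff]
      exact ⟨k, by push_cast; ring⟩
    rw [h3]
    simp

theorem f1_P (S : Finset (ℤ × ℤ)) (c : ℤ × ℤ → ℂ) (x y : ℝ) :
    P S c x y = ∑ k ∈ S, c k * Complex.exp (Complex.I * (k.1 * x)) *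
      Complex.exp (Complex.I * (k.2 * y)) := by
  unfold P
  apply Finset.sum_congr rfl
  intro k _
  rw [mul_assoc, ← Complex.exp_add]
  congr 2
  ring

theorem f1_cont (S : Finset (ℤ × ℤ)) (c : ℤ × ℤ → ℂ) :
    Continuous (Function.uncurry (P S c)) := by
  unfold P Function.uncurry
  fun_prop

theorem f1_contx (S : Finset (ℤ × ℤ)) (c : ℤ × ℤ → ℂ) (y : ℝ) :
    Continuous (fun x => P S c x y) := by
  unfold P
  fun_prop

theorem f1_conty (S : Finset (ℤ × ℤ)) (c : ℤ × ℤ → ℂ) (x : ℝ) :
    Continuous (fun y => P S c x y) := by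
  unfold P
  fun_prop

theorem f1_intx (S : Finset (ℤ × ℤ)) (c : ℤ × ℤ → ℂ) (x y : ℝ) :
    ∫ x' in (0:ℝ)..(2*Real.pi), P S c x' y =
      ((2 * Real.pi : ℝ) : ℂ) * P (S.filter (fun k => k.1 = 0)) c x y := by
  simp only [f1_P]
  rw [intervalIntegral.integral_finsetSum]
  · rw [Finset.mul_sum, Finset.sum_filter]
    apply Finset.sum_congr rfl
    intro k _
    rw [intervalIntegral.integral_mul_const, intervalIntegral.integral_const_mul, f1_exp]
    split_ifs with h
    · rw [h]
      simp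
      ring
    · simp
  · intro k _
    apply Continuous.intervalIntegrable
    fun_prop

theorem f1_inty (S : Finset (ℤ × ℤ)) (c : ℤ × ℤ → ℂ) (x y : ℝ) :
    ∫ y' in (0:ℝ)..(2*Real.pi), P S c x y' =
      ((2 * Real.pi : ℝ) : ℂ) * P (S.filter (fun k => k.2 = 0)) c x y := by
  simp only [f1_P]
  rw [intervalIntegral.integral_finsetSum]
  · rw [Finset.mul_sum, Finset.sum_filter]
    apply Finset.sum_congr rfl
    intro k _
    rw [intervalIntegral.integral_const_mul, f1_exp]
    split_ifs with h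
    · rw [h]
      simp
      ring
    · simp
  · intro k _
    apply Continuous.intervalIntegrable
    fun_prop

theorem f1_mono {f g : ℝ → ℝ} (hf : Continuous f) (hg : Continuous g) (h : ∀ x, f x ≤ g x) :
    ∫ x in (0:ℝ)..(2*Real.pi), f x ≤ ∫ x in (0:ℝ)..(2*Real.pi), g x :=
  intervalIntegral.integral_mono (by positivity) (hf.intervalIntegrable _ _)
    (hg.intervalIntegrable _ _) h

theorem f1_contn {F : ℝ → ℝ → ℂ} (hF : Continuous (Function.uncurry F)) :
    Continuous (Function.uncurry fun x y => ‖F x y‖) := hF.norm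

theorem f1_contint {F : ℝ → ℝ → ℝ} (hF : Continuous (Function.uncurry F)) :
    Continuous fun x => ∫ y in (0:ℝ)..(2*Real.pi), F x y :=
  intervalIntegral.continuous_parametric_intervalIntegral_of_continuous' hF _ _

theorem f1_norm_int {f : ℝ → ℂ} :
    ‖∫ x in (0:ℝ)..(2*Real.pi), f x‖ ≤ ∫ x in (0:ℝ)..(2*Real.pi), ‖f x‖ :=
  intervalIntegral.norm_integral_le_integral_norm (by positivity)

theorem f1_second (S : Finset (ℤ × ℤ)) (c : ℤ × ℤ → ℂ) :
    nrm1 (P (S.filter (fun k => k.2 = 0)) c) ≤ nrm1 (P S c) := by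
  unfold nrm1
  apply mul_le_mul_of_nonneg_left _ (by positivity)
  apply f1_mono (f1_contint (f1_contn (f1_cont _ c))) (f1_contint (f1_contn (f1_cont S c)))
  intro x
  have hpi : (0:ℝ) < 2 * Real.pi := by positivity
  have h1 : ∀ y, 2 * Real.pi * ‖P (S.filter (fun k => k.2 = 0)) c x y‖ ≤
      ∫ y' in (0:ℝ)..(2*Real.pi), ‖P S c x y'‖ := by
    intro y
    have h2 := f1_norm_int (f := fun y' => P S c x y')
    rw [f1_inty S c x y, norm_mul, Complex.norm_real, Real.norm_of_nonneg hpi.le] at h2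
    exact h2
  have h3 : ∫ y in (0:ℝ)..(2*Real.pi), 2 * Real.pi * ‖P (S.filter (fun k => k.2 = 0)) c x y‖ ≤
      ∫ y in (0:ℝ)..(2*Real.pi), (∫ y' in (0:ℝ)..(2*Real.pi), ‖P S c x y'‖) := by
    apply f1_mono _ continuous_const h1
    exact continuous_const.mul (f1_conty _ c x).norm
  rw [intervalIntegral.integral_const_mul, intervalIntegral.integral_const, sub_zero,
    smul_eq_mul] at h3
  exact le_of_mul_le_mul_left h3 hpi

theorem f1_first (S : Finset (ℤ × ℤ)) (c : ℤ × ℤ → ℂ) :
    nrm1 (P (S.filter (fun k => k.1 = 0)) c) ≤ nrm1 (P S c) := by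
  unfold nrm1
  apply mul_le_mul_of_nonneg_left _ (by positivity)
  obtain ⟨S0, hS0⟩ : ∃ S0, S0 = S.filter (fun k => k.1 = 0) := ⟨_, rfl⟩
  rw [← hS0]
  rw [f1_swap (fun x y => ‖P S0 c x y‖) (f1_contn (f1_cont S0 c)),
    f1_swap (fun x y => ‖P S c x y‖) (f1_contn (f1_cont S c))]
  have hcs : ∀ S : Finset (ℤ × ℤ), Continuous (Function.uncurry fun y x => ‖P S c x y‖) := by
    intro S
    have h := (f1_contn (f1_cont S c)).comp continuous_swap
    exact h
  have hc0 := f1_contint (F := fun y x => ‖P S0 c x y‖) (hcs S0)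
  have hc1 := f1_contint (F := fun y x => ‖P S c x y‖) (hcs S)
  refine f1_mono hc0 hc1 ?_
  intro y
  rw [hS0]
  have hpi : (0:ℝ) < 2 * Real.pi := by positivity
  have h1 : ∀ x, 2 * Real.pi * ‖P (S.filter (fun k => k.1 = 0)) c x y‖ ≤
      ∫ x' in (0:ℝ)..(2*Real.pi), ‖P S c x' y‖ := by
    intro x
    have h2 := f1_norm_int (f := fun x' => P S c x' y)
    rw [f1_intx S c x y, norm_mul, Complex.norm_real, Real.norm_of_nonneg hpi.le] at h2
    exact h2
  have h3 : ∫ x in (0:ℝ)..(2*Real.pi), 2 * Real.pi * ‖P (S.filter (fun k => k.1 = 0)) c x y‖ ≤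
      ∫ x in (0:ℝ)..(2*Real.pi), (∫ x' in (0:ℝ)..(2*Real.pi), ‖P S c x' y‖) := by
    apply f1_mono _ continuous_const h1
    exact continuous_const.mul (f1_contx _ c y).norm
  rw [intervalIntegral.integral_const_mul, intervalIntegral.integral_const, sub_zero,
    smul_eq_mul] at h3
  exact le_of_mul_le_mul_left h3 hpi

/-- dropping all frequencies with `k₁ ≠ 0` (resp. `k₂ ≠ 0`) does not increase the norm;
basic facts on the norm. -/
theorem restrict (S : Finset (ℤ × ℤ)) (c : ℤ × ℤ → ℂ) :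
    nrm1 (P (S.filter (fun k => k.1 = 0)) c) ≤ nrm1 (P S c) ∧
    nrm1 (P (S.filter (fun k => k.2 = 0)) c) ≤ nrm1 (P S c) :=
  ⟨f1_first S c, f1_second S c⟩

theorem nrm1_add (S S' : Finset (ℤ × ℤ)) (c c' : ℤ × ℤ → ℂ) :
    nrm1 (fun x y => P S c x y + P S' c' x y) ≤ nrm1 (P S c) + nrm1 (P S' c') := by
  unfold nrm1
  rw [← mul_add]
  apply mul_le_mul_of_nonneg_left _ (by positivity)
  have hc1 := f1_contint (f1_contn (f1_cont S c))
  have hc2 := f1_contint (f1_contn (f1_cont S' c'))
  rw [← intervalIntegral.integral_add (hc1.intervalIntegrable _ _) (hc2.intervalIntegrable _ _)]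
  apply f1_mono
  · exact f1_contint (f1_contn (F := fun x y => P S c x y + P S' c' x y)
      ((f1_cont S c).add (f1_cont S' c')))
  · exact hc1.add hc2
  · intro x
    rw [← intervalIntegral.integral_add ((f1_conty S c x).norm.intervalIntegrable _ _)
      ((f1_conty S' c' x).norm.intervalIntegrable _ _)]
    apply f1_mono
    · exact ((f1_conty S c x).add (f1_conty S' c' x)).norm
    · exact (f1_conty S c x).norm.add (f1_conty S' c' x).norm
    · intro y
      exact norm_add_le _ _

theorem nrm1_smul (S : Finset (ℤ × ℤ)) (c : ℤ × ℤ → ℂ) (a : ℂ) :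
    nrm1 (fun x y => a * P S c x y) = ‖a‖ * nrm1 (P S c) := by
  unfold nrm1
  simp only [norm_mul, intervalIntegral.integral_const_mul]
  ring

theorem nrm1_pos (S : Finset (ℤ × ℤ)) (c : ℤ × ℤ → ℂ) (h : ∃ k ∈ S, c k ≠ 0) :
    0 < nrm1 (P S c) := by
  obtain ⟨k0, hk0, hc0⟩ := h
  have hpi : (0:ℝ) < 2 * Real.pi := by positivity
  have hcoef : ∫ x in (0:ℝ)..(2*Real.pi), ∫ y in (0:ℝ)..(2*Real.pi),
      P S c x y * (Complex.exp (Complex.I * ((-k0.1 : ℤ) * x)) *
        Complex.exp (Complex.I * ((-k0.2 : ℤ) * y))) =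
      ((2 * Real.pi : ℝ) : ℂ) ^ 2 * c k0 := by
    have h1 : ∀ x y : ℝ, P S c x y * (Complex.exp (Complex.I * ((-k0.1 : ℤ) * x)) *
        Complex.exp (Complex.I * ((-k0.2 : ℤ) * y))) =
        ∑ k ∈ S, c k * Complex.exp (Complex.I * ((k.1 - k0.1 : ℤ) * x)) *
          Complex.exp (Complex.I * ((k.2 - k0.2 : ℤ) * y)) := by
      intro x y
      rw [f1_P, Finset.sum_mul]
      apply Finset.sum_congr rfl
      intro k _
      have e1 : Complex.exp (Complex.I * ((k.1 - k0.1 : ℤ) * x)) =
          Complex.exp (Complex.I * (k.1 * x)) * Complex.exp (Complex.I * ((-k0.1 : ℤ) * x)) := by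
        rw [← Complex.exp_add]
        congr 1
        push_cast
        ring
      have e2 : Complex.exp (Complex.I * ((k.2 - k0.2 : ℤ) * y)) =
          Complex.exp (Complex.I * (k.2 * y)) * Complex.exp (Complex.I * ((-k0.2 : ℤ) * y)) := by
        rw [← Complex.exp_add]
        congr 1
        push_cast
        ring
      rw [e1, e2]
      ring
    simp only [h1]
    have h2 : ∀ x : ℝ, ∫ y in (0:ℝ)..(2*Real.pi), ∑ k ∈ S, c k *
        Complex.exp (Complex.I * ((k.1 - k0.1 : ℤ) * x)) *
          Complex.exp (Complex.I * ((k.2 - k0.2 : ℤ) * y)) =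
        ∑ k ∈ S, c k * Complex.exp (Complex.I * ((k.1 - k0.1 : ℤ) * x)) *
          (if k.2 - k0.2 = 0 then ((2 * Real.pi : ℝ) : ℂ) else 0) := by
      intro x
      rw [intervalIntegral.integral_finsetSum]
      · apply Finset.sum_congr rfl
        intro k _
        rw [intervalIntegral.integral_const_mul, f1_exp]
      · intro k _
        apply Continuous.intervalIntegrable
        fun_prop
    simp only [h2]
    rw [intervalIntegral.integral_finsetSum]
    · rw [Finset.sum_eq_single k0]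
      · rw [intervalIntegral.integral_mul_const, intervalIntegral.integral_const_mul, f1_exp,
          sub_self, sub_self, if_pos rfl]
        ring
      · intro k _ hk
        rw [intervalIntegral.integral_mul_const, intervalIntegral.integral_const_mul, f1_exp]
        by_cases h3 : k.1 - k0.1 = 0
        · have h4 : k.2 - k0.2 ≠ 0 := by
            intro h4
            apply hk
            exact Prod.ext (by omega) (by omega)
          rw [if_neg h4, mul_zero]
        · rw [if_neg h3, mul_zero, zero_mul]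
      · intro hcon
        exact absurd hk0 hcon
    · intro k _
      apply Continuous.intervalIntegrable
      fun_prop
  have hexp : ∀ (l : ℤ) (x : ℝ), ‖Complex.exp (Complex.I * (l * x))‖ = 1 := by
    intro l x
    rw [Complex.norm_exp]
    simp
  have hle : (2 * Real.pi) ^ 2 * ‖c k0‖ ≤
      ∫ x in (0:ℝ)..(2*Real.pi), ∫ y in (0:ℝ)..(2*Real.pi), ‖P S c x y‖ := by
    have h1 : ‖((2 * Real.pi : ℝ) : ℂ) ^ 2 * c k0‖ = (2 * Real.pi) ^ 2 * ‖c k0‖ := by
      rw [norm_mul, norm_pow, Complex.norm_real, Real.norm_of_nonneg hpi.le]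
    rw [← h1, ← hcoef]
    refine f1_norm_int.trans ?_
    have hGc : Continuous (Function.uncurry fun x y : ℝ => P S c x y *
        (Complex.exp (Complex.I * ((-k0.1 : ℤ) * x)) *
        Complex.exp (Complex.I * ((-k0.2 : ℤ) * y)))) := by
      unfold P Function.uncurry
      fun_prop
    apply f1_mono
    · exact (intervalIntegral.continuous_parametric_intervalIntegral_of_continuous' hGc _ _).norm
    · exact f1_contint (f1_contn (f1_cont S c))
    · intro x
      refine f1_norm_int.trans (le_of_eq ?_)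
      congr 1
      funext y
      rw [norm_mul, norm_mul, hexp, hexp, mul_one, mul_one]
  have hpos : 0 < (2 * Real.pi) ^ 2 * ‖c k0‖ := by
    have := norm_pos_iff.2 hc0
    positivity
  unfold nrm1
  have := lt_of_lt_of_le hpos hle
  positivity

end BernP.SF1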