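import Pool.Agent.Helper643.BernP

open Finset



open Finset
namespace BernP.SF2
theorem P_congr (S : Finset (ℤ × ℤ)) (c c' : ℤ × ℤ → ℂ) (h : ∀ k ∈ S, c k = c' k) :
    P S c = P S c' := by
  funext x y
  unfold P
  exact Finset.sum_congr rfl fun k hk => by rw [h k hk]

theorem P_split (S : Finset (ℤ × ℤ)) (c : ℤ × ℤ → ℂ) (p : ℤ × ℤ → Prop) [DecidablePred p] :
    P S c = fun x y => P (S.filter p) c x y + P (S.filter (fun k => ¬ p k)) c x y := by
  funext x y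
  unfold P
  rw [Finset.sum_filter_add_sum_filter_not]

theorem nrm1_neg (S : Finset (ℤ × ℤ)) (c : ℤ × ℤ → ℂ) :
    nrm1 (P S (fun k => - c k)) = nrm1 (P S c) := by
  have h : P S (fun k => - c k) = fun x y => - P S c x y := by
    funext x y
    unfold P
    rw [← Finset.sum_neg_distrib]
    exact Finset.sum_congr rfl fun k _ => by ring
  rw [h]
  unfold nrm1
  simp only [norm_neg]

theorem nrm1_nonneg (F : ℝ → ℝ → ℂ) : 0 ≤ nrm1 F := by
  unfold nrm1
  apply mul_nonneg (by positivity)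
  apply intervalIntegral.integral_nonneg (by positivity)
  intro x _
  apply intervalIntegral.integral_nonneg (by positivity)
  intro y _
  exact norm_nonneg _

theorem nrm1_congr_norm (F G : ℝ → ℝ → ℂ) (h : ∀ x y, ‖F x y‖ = ‖G x y‖) : nrm1 F = nrm1 G := by
  unfold nrm1
  simp only [h]

theorem mu_ne (r α : ℝ) (k : ℤ) (hk : k ≠ 0) :
    mu r α k = (((|(k:ℝ)|)^r : ℝ) : ℂ) * (if 0 < k then Complex.exp (Complex.I * ((α * Real.pi / 2 : ℝ)))
      else Complex.exp (Complex.I * ((-(α * Real.pi / 2) : ℝ)))) := by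
  unfold mu
  rw [if_neg hk]
  congr 1
  rcases lt_or_gt_of_ne hk with h | h
  · rw [if_neg (by omega), Int.sign_eq_neg_one_of_neg h]
    congr 1
    push_cast
    ring
  · rw [if_pos h, Int.sign_eq_one_of_pos h]
    congr 1
    push_cast
    ring

theorem mu_zero (r α : ℝ) : mu r α 0 = 1 := by
  unfold mu; simp

theorem norm_exp_le (t : ℝ) : ‖Complex.exp (Complex.I * ((t : ℝ) : ℂ))‖ ≤ 1 := by
  rw [mul_comm, Complex.norm_exp_ofReal_mul_I]

/-- the two variable part -/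
theorem part_pp
    (r : ℝ) (C : ℝ)
    (main : ∀ (n : ℕ) (S : Finset (ℤ × ℤ)) (c : ℤ × ℤ → ℂ) (u v u' v' : ℂ),
      ‖u‖ ≤ 1 → ‖v‖ ≤ 1 → ‖u'‖ ≤ 1 → ‖v'‖ ≤ 1 →
      (∀ k ∈ S, k.1 ≠ 0 ∧ k.2 ≠ 0 ∧ |k.1| * |k.2| ≤ 2^n) →
      nrm1 (P S (fun k => ((((|(k.1:ℝ)|)^r : ℝ) : ℂ) * (if 0 < k.1 then u else v)) *
        ((((|(k.2:ℝ)|)^r : ℝ) : ℂ) * (if 0 < k.2 then u' else v')) * c k)) ≤
        C * (2:ℝ)^(r*n) * nrm1 (P S c))
    (n : ℕ) (S : Finset (ℤ × ℤ)) (c : ℤ × ℤ → ℂ) (α β : ℝ)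
    (hS : ∀ k ∈ S, k.1 ≠ 0 ∧ k.2 ≠ 0 ∧ |k.1| * |k.2| ≤ 2^n) :
    nrm1 (P S (fun k => mu r α k.1 * mu r β k.2 * c k)) ≤ C * (2:ℝ)^(r*n) * nrm1 (P S c) := by
  have h := main n S c (Complex.exp (Complex.I * ((α * Real.pi / 2 : ℝ))))
    (Complex.exp (Complex.I * ((-(α * Real.pi / 2) : ℝ))))
    (Complex.exp (Complex.I * ((β * Real.pi / 2 : ℝ))))
    (Complex.exp (Complex.I * ((-(β * Real.pi / 2) : ℝ)))) (norm_exp_le _) (norm_exp_le _)
    (norm_exp_le _) (norm_exp_le _) hS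
  rw [P_congr S (fun k => mu r α k.1 * mu r β k.2 * c k) _ ?_]
  · exact h
  · intro k hk
    obtain ⟨h1, h2, -⟩ := hS k hk
    rw [mu_ne r α k.1 h1, mu_ne r β k.2 h2]

/-- the part on the axis `k.1 = 0` -/
theorem part_0p
    (r : ℝ) (C : ℝ)
    (main : ∀ (n : ℕ) (S : Finset (ℤ × ℤ)) (c : ℤ × ℤ → ℂ) (u v u' v' : ℂ),
      ‖u‖ ≤ 1 → ‖v‖ ≤ 1 → ‖u'‖ ≤ 1 → ‖v'‖ ≤ 1 →
      (∀ k ∈ S, k.1 ≠ 0 ∧ k.2 ≠ 0 ∧ |k.1| * |k.2| ≤ 2^n) →
      nrm1 (P S (fun k => ((((|(k.1:ℝ)|)^r : ℝ) : ℂ) * (if 0 < k.1 then u else v)) *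
        ((((|(k.2:ℝ)|)^r : ℝ) : ℂ) * (if 0 < k.2 then u' else v')) * c k)) ≤
        C * (2:ℝ)^(r*n) * nrm1 (P S c))
    (n : ℕ) (S : Finset (ℤ × ℤ)) (c : ℤ × ℤ → ℂ) (α β : ℝ)
    (hS : ∀ k ∈ S, k.1 = 0 ∧ k.2 ≠ 0 ∧ |k.2| ≤ 2^n) :
    nrm1 (P S (fun k => mu r α k.1 * mu r β k.2 * c k)) ≤ C * (2:ℝ)^(r*n) * nrm1 (P S c) := by
  have hinj : ∀ k ∈ S, ∀ l ∈ S, ((1 : ℤ), k.2) = ((1 : ℤ), l.2) → k = l := by
    intro k hk l hl hkl
    have h1 := (hS k hk).1
    have h2 := (hS l hl).1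
    have h3 := (Prod.mk.inj hkl).2
    exact Prod.ext (h1.trans h2.symm) h3
  have hP : ∀ d : ℤ × ℤ → ℂ, nrm1 (P (S.image (fun k => ((1 : ℤ), k.2))) (fun k => d (0, k.2))) =
      nrm1 (P S d) := by
    intro d
    apply nrm1_congr_norm
    intro x y
    have e1 : P (S.image (fun k => ((1 : ℤ), k.2))) (fun k => d (0, k.2)) x y =
        Complex.exp (Complex.I * ((x : ℝ) : ℂ)) * P S d x y := by
      unfold P
      rw [Finset.sum_image (by
        intro k hk l hl hkl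
        exact hinj k (by exact_mod_cast hk) l (by exact_mod_cast hl) hkl), Finset.mul_sum]
      refine Finset.sum_congr rfl fun k hk => ?_
      have h1 := (hS k hk).1
      have h2 : ((0 : ℤ), k.2) = k := Prod.ext h1.symm rfl
      simp only
      rw [h2, h1]
      have h3 : Complex.exp (Complex.I * (((1 : ℤ) : ℂ) * (x : ℂ) + (k.2 : ℂ) * (y : ℂ))) =
          Complex.exp (Complex.I * (x : ℂ)) *
          Complex.exp (Complex.I * (((0 : ℤ) : ℂ) * (x : ℂ) + (k.2 : ℂ) * (y : ℂ))) := by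
        rw [← Complex.exp_add]
        congr 1
        push_cast
        ring
      rw [h3]
      ring
    rw [e1, norm_mul, mul_comm Complex.I, Complex.norm_exp_ofReal_mul_I, one_mul]
  have h := main n (S.image (fun k => ((1 : ℤ), k.2))) (fun k => c (0, k.2)) 1 1
    (Complex.exp (Complex.I * ((β * Real.pi / 2 : ℝ))))
    (Complex.exp (Complex.I * ((-(β * Real.pi / 2) : ℝ)))) (by simp) (by simp)
    (norm_exp_le _) (norm_exp_le _) (by
      intro k hk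
      obtain ⟨l, hl, rfl⟩ := Finset.mem_image.1 hk
      obtain ⟨h1, h2, h3⟩ := hS l hl
      refine ⟨by simp, h2, ?_⟩
      simpa using h3)
  rw [hP c] at h
  rw [← hP (fun k => mu r α k.1 * mu r β k.2 * c k)]
  rw [P_congr (S.image (fun k => ((1 : ℤ), k.2)))
    (fun k => (fun k => mu r α k.1 * mu r β k.2 * c k) (0, k.2)) _ ?_]
  · exact h
  · intro k hk
    obtain ⟨l, hl, rfl⟩ := Finset.mem_image.1 hk
    obtain ⟨h1, h2, h3⟩ := hS l hl
    simp only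
    rw [mu_zero, mu_ne r β l.2 h2]
    simp

/-- the part on the axis `k.2 = 0` -/
theorem part_p0
    (r : ℝ) (C : ℝ)
    (main : ∀ (n : ℕ) (S : Finset (ℤ × ℤ)) (c : ℤ × ℤ → ℂ) (u v u' v' : ℂ),
      ‖u‖ ≤ 1 → ‖v‖ ≤ 1 → ‖u'‖ ≤ 1 → ‖v'‖ ≤ 1 →
      (∀ k ∈ S, k.1 ≠ 0 ∧ k.2 ≠ 0 ∧ |k.1| * |k.2| ≤ 2^n) →
      nrm1 (P S (fun k => ((((|(k.1:ℝ)|)^r : ℝ) : ℂ) * (if 0 < k.1 then u else v)) *
        ((((|(k.2:ℝ)|)^r : ℝ) : ℂ) * (if 0 < k.2 then u' else v')) * c k)) ≤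
        C * (2:ℝ)^(r*n) * nrm1 (P S c))
    (n : ℕ) (S : Finset (ℤ × ℤ)) (c : ℤ × ℤ → ℂ) (α β : ℝ)
    (hS : ∀ k ∈ S, k.2 = 0 ∧ k.1 ≠ 0 ∧ |k.1| ≤ 2^n) :
    nrm1 (P S (fun k => mu r α k.1 * mu r β k.2 * c k)) ≤ C * (2:ℝ)^(r*n) * nrm1 (P S c) := by
  have hinj : ∀ k ∈ S, ∀ l ∈ S, (k.1, (1 : ℤ)) = (l.1, (1 : ℤ)) → k = l := by
    intro k hk l hl hkl
    have h1 := (hS k hk).1
    have h2 := (hS l hl).1
    have h3 := (Prod.mk.inj hkl).1
    exact Prod.ext h3 (h1.trans h2.symm)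
  have hP : ∀ d : ℤ × ℤ → ℂ, nrm1 (P (S.image (fun k => (k.1, (1 : ℤ)))) (fun k => d (k.1, 0))) =
      nrm1 (P S d) := by
    intro d
    apply nrm1_congr_norm
    intro x y
    have e1 : P (S.image (fun k => (k.1, (1 : ℤ)))) (fun k => d (k.1, 0)) x y =
        Complex.exp (Complex.I * ((y : ℝ) : ℂ)) * P S d x y := by
      unfold P
      rw [Finset.sum_image (by
        intro k hk l hl hkl
        exact hinj k (by exact_mod_cast hk) l (by exact_mod_cast hl) hkl), Finset.mul_sum]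
      refine Finset.sum_congr rfl fun k hk => ?_
      have h1 := (hS k hk).1
      have h2 : (k.1, (0 : ℤ)) = k := Prod.ext rfl h1.symm
      simp only
      rw [h2, h1]
      have h3 : Complex.exp (Complex.I * ((k.1 : ℂ) * (x : ℂ) + ((1 : ℤ) : ℂ) * (y : ℂ))) =
          Complex.exp (Complex.I * (y : ℂ)) *
          Complex.exp (Complex.I * ((k.1 : ℂ) * (x : ℂ) + ((0 : ℤ) : ℂ) * (y : ℂ))) := by
        rw [← Complex.exp_add]
        congr 1
        push_cast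
        ring
      rw [h3]
      ring
    rw [e1, norm_mul, mul_comm Complex.I, Complex.norm_exp_ofReal_mul_I, one_mul]
  have h := main n (S.image (fun k => (k.1, (1 : ℤ)))) (fun k => c (k.1, 0))
    (Complex.exp (Complex.I * ((α * Real.pi / 2 : ℝ))))
    (Complex.exp (Complex.I * ((-(α * Real.pi / 2) : ℝ)))) 1 1
    (norm_exp_le _) (norm_exp_le _) (by simp) (by simp) (by
      intro k hk
      obtain ⟨l, hl, rfl⟩ := Finset.mem_image.1 hk
      obtain ⟨h1, h2, h3⟩ := hS l hl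
      refine ⟨h2, by simp, ?_⟩
      simpa using h3)
  rw [hP c] at h
  rw [← hP (fun k => mu r α k.1 * mu r β k.2 * c k)]
  rw [P_congr (S.image (fun k => (k.1, (1 : ℤ))))
    (fun k => (fun k => mu r α k.1 * mu r β k.2 * c k) (k.1, 0)) _ ?_]
  · exact h
  · intro k hk
    obtain ⟨l, hl, rfl⟩ := Finset.mem_image.1 hk
    obtain ⟨h1, h2, h3⟩ := hS l hl
    simp only
    rw [mu_zero, mu_ne r α l.1 h2]
    simp

theorem upper2
    (restrict : ∀ (S : Finset (ℤ × ℤ)) (c : ℤ × ℤ → ℂ),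
      nrm1 (P (S.filter (fun k => k.1 = 0)) c) ≤ nrm1 (P S c) ∧
      nrm1 (P (S.filter (fun k => k.2 = 0)) c) ≤ nrm1 (P S c))
    (nrm1_add : ∀ (S S' : Finset (ℤ × ℤ)) (c c' : ℤ × ℤ → ℂ),
      nrm1 (fun x y => P S c x y + P S' c' x y) ≤ nrm1 (P S c) + nrm1 (P S' c'))
    (nrm1_smul : ∀ (S : Finset (ℤ × ℤ)) (c : ℤ × ℤ → ℂ) (a : ℂ),
      nrm1 (fun x y => a * P S c x y) = ‖a‖ * nrm1 (P S c))
    (r : ℝ) (hr : 0 < r)
    (main : ∃ C : ℝ, 0 < C ∧ ∀ (n : ℕ) (S : Finset (ℤ × ℤ)) (c : ℤ × ℤ → ℂ) (u v u' v' : ℂ),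
      ‖u‖ ≤ 1 → ‖v‖ ≤ 1 → ‖u'‖ ≤ 1 → ‖v'‖ ≤ 1 →
      (∀ k ∈ S, k.1 ≠ 0 ∧ k.2 ≠ 0 ∧ |k.1| * |k.2| ≤ 2^n) →
      nrm1 (P S (fun k => ((((|(k.1:ℝ)|)^r : ℝ) : ℂ) * (if 0 < k.1 then u else v)) *
        ((((|(k.2:ℝ)|)^r : ℝ) : ℂ) * (if 0 < k.2 then u' else v')) * c k)) ≤
        C * (2:ℝ)^(r*n) * nrm1 (P S c)) :
    (∃ C : ℝ, 0 < C ∧ ∀ (N : ℕ), 1 ≤ N → ∀ (α β : ℝ) (c : ℤ × ℤ → ℂ),
      nrm1 (P (Gam N) (fun k => mu r α k.1 * mu r β k.2 * c k)) ≤
        C * (N:ℝ)^r * nrm1 (P (Gam N) c)) ∧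
    (∃ C : ℝ, 0 < C ∧ ∀ (n : ℕ) (S : Finset (ℤ × ℤ)) (c : ℤ × ℤ → ℂ) (α β : ℝ),
      (∀ k ∈ S, |k.1| * |k.2| ≤ 2^n) →
      nrm1 (P S (fun k => if k.1 = 0 ∨ k.2 = 0 then 0 else mu r α k.1 * mu r β k.2 * c k)) ≤
        C * (2:ℝ)^(r*n) * nrm1 (P S c)) := by
  obtain ⟨C, hC, hmain⟩ := main
  have hnot : ∀ (S S' : Finset (ℤ × ℤ)) (c : ℤ × ℤ → ℂ),
      (∃ p : ℤ × ℤ → Prop, ∃ _ : DecidablePred p, S' = S.filter (fun k => ¬ p k) ∧
        nrm1 (P (S.filter p) c) ≤ nrm1 (P S c)) → nrm1 (P S' c) ≤ 2 * nrm1 (P S c) := by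
    rintro S S' c ⟨p, hp, rfl, hle⟩
    have e1 : P (S.filter (fun k => ¬ p k)) c =
        fun x y => P S c x y + P (S.filter p) (fun k => - c k) x y := by
      funext x y
      rw [P_split S c p]
      unfold P
      simp only [neg_mul, Finset.sum_neg_distrib]
      ring
    rw [e1]
    refine (nrm1_add _ _ _ _).trans ?_
    rw [nrm1_neg]
    linarith
  have hn1 : ∀ (S : Finset (ℤ × ℤ)) (c : ℤ × ℤ → ℂ),
      nrm1 (P (S.filter (fun k => ¬ k.1 = 0)) c) ≤ 2 * nrm1 (P S c) := fun S c =>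
    hnot S _ c ⟨fun k => k.1 = 0, inferInstance, rfl, (restrict S c).1⟩
  have hn2 : ∀ (S : Finset (ℤ × ℤ)) (c : ℤ × ℤ → ℂ),
      nrm1 (P (S.filter (fun k => ¬ k.2 = 0)) c) ≤ 2 * nrm1 (P S c) := fun S c =>
    hnot S _ c ⟨fun k => k.2 = 0, inferInstance, rfl, (restrict S c).2⟩
  have hsplit : ∀ (S : Finset (ℤ × ℤ)) (c : ℤ × ℤ → ℂ) (p : ℤ × ℤ → Prop) [DecidablePred p],
      nrm1 (P S c) ≤ nrm1 (P (S.filter p) c) + nrm1 (P (S.filter (fun k => ¬ p k)) c) := by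
    intro S c p _
    conv_lhs => rw [P_split S c p]
    exact nrm1_add _ _ _ _
  constructor
  · refine ⟨8 * (C * 2 ^ r) + 1, by positivity, ?_⟩
    intro N hN α β c
    set n := Nat.clog 2 N with hn
    have hN1 : N ≤ 2 ^ n := Nat.le_pow_clog (by norm_num) N
    have hN2 : 2 ^ n ≤ 2 * N := by
      rcases Nat.eq_or_lt_of_le hN with h | h
      · have : n = 0 := by rw [hn, ← h]; simp
        rw [this]; omega
      · have h1 := Nat.pow_pred_clog_lt_self (b := 2) (by norm_num) h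
        have h2 : 0 < n := Nat.clog_pos (by norm_num) h
        rw [← hn] at h1
        have h3 : 2 ^ n = 2 * 2 ^ (n.pred) := by
          conv_lhs => rw [← Nat.succ_pred_eq_of_pos h2, pow_succ, mul_comm]
        omega
    have hNr : (1:ℝ) ≤ (N:ℝ) ^ r := Real.one_le_rpow (by exact_mod_cast hN) hr.le
    have hpow : (2:ℝ) ^ (r * n) ≤ 2 ^ r * (N:ℝ) ^ r := by
      rw [← Real.mul_rpow (by norm_num) (by positivity), mul_comm r, Real.rpow_mul (by norm_num),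
        Real.rpow_natCast]
      apply Real.rpow_le_rpow (by positivity) _ hr.le
      exact_mod_cast hN2
    set G := Gam N with hG
    set d : ℤ × ℤ → ℂ := fun k => mu r α k.1 * mu r β k.2 * c k with hd
    set A := nrm1 (P G c) with hA
    have hA0 : 0 ≤ A := nrm1_nonneg _
    have hGmem : ∀ k ∈ G, max |k.1| 1 * max |k.2| 1 ≤ (N:ℤ) := fun k hk =>
      (Finset.mem_filter.1 hk).2
    have hN1' : (N : ℤ) ≤ 2 ^ n := by exact_mod_cast hN1
    -- splitting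
    have s1 := hsplit G d (fun k => k.1 = 0)
    have s2 := hsplit (G.filter (fun k => k.1 = 0)) d (fun k => k.2 = 0)
    have s3 := hsplit (G.filter (fun k => ¬ k.1 = 0)) d (fun k => k.2 = 0)
    -- bounds of the pieces of c
    have b1 := (restrict G c).1
    have b2 := (restrict (G.filter (fun k => k.1 = 0)) c).2
    have b3 := hn2 (G.filter (fun k => k.1 = 0)) c
    have b4 := hn1 G c
    have b5 := (restrict (G.filter (fun k => ¬ k.1 = 0)) c).2
    have b6 := hn2 (G.filter (fun k => ¬ k.1 = 0)) c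
    -- the multiplier on the pieces
    have m00 : nrm1 (P ((G.filter (fun k => k.1 = 0)).filter (fun k => k.2 = 0)) d) =
        nrm1 (P ((G.filter (fun k => k.1 = 0)).filter (fun k => k.2 = 0)) c) := by
      rw [P_congr _ d c]
      intro k hk
      have h1 := (Finset.mem_filter.1 hk).2
      have h2 := (Finset.mem_filter.1 (Finset.mem_filter.1 hk).1).2
      simp only [hd]
      rw [h1, h2, mu_zero, mu_zero]
      ring
    have m0p := part_0p r C hmain n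
      ((G.filter (fun k => k.1 = 0)).filter (fun k => ¬ k.2 = 0)) c α β (by
        intro k hk
        have h1 := (Finset.mem_filter.1 hk).2
        have h2 := (Finset.mem_filter.1 (Finset.mem_filter.1 hk).1).2
        have h3 := hGmem k (Finset.mem_filter.1 (Finset.mem_filter.1 hk).1).1
        refine ⟨h2, h1, ?_⟩
        rw [h2] at h3
        have h4 : |k.2| ≤ max |k.2| 1 := le_max_left _ _
        simp only [abs_zero] at h3
        have h5 : max (0 : ℤ) 1 = 1 := by norm_num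
        rw [h5, one_mul] at h3
        omega)
    have mp0 := part_p0 r C hmain n
      ((G.filter (fun k => ¬ k.1 = 0)).filter (fun k => k.2 = 0)) c α β (by
        intro k hk
        have h1 := (Finset.mem_filter.1 hk).2
        have h2 := (Finset.mem_filter.1 (Finset.mem_filter.1 hk).1).2
        have h3 := hGmem k (Finset.mem_filter.1 (Finset.mem_filter.1 hk).1).1
        refine ⟨h1, h2, ?_⟩
        rw [h1] at h3
        have h4 : |k.1| ≤ max |k.1| 1 := le_max_left _ _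
        simp only [abs_zero] at h3
        have h5 : max (0 : ℤ) 1 = 1 := by norm_num
        rw [h5, mul_one] at h3
        omega)
    have mpp := part_pp r C hmain n
      ((G.filter (fun k => ¬ k.1 = 0)).filter (fun k => ¬ k.2 = 0)) c α β (by
        intro k hk
        have h1 := (Finset.mem_filter.1 hk).2
        have h2 := (Finset.mem_filter.1 (Finset.mem_filter.1 hk).1).2
        have h3 := hGmem k (Finset.mem_filter.1 (Finset.mem_filter.1 hk).1).1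
        refine ⟨h2, h1, ?_⟩
        have h4 : |k.1| * |k.2| ≤ max |k.1| 1 * max |k.2| 1 :=
          mul_le_mul (le_max_left _ _) (le_max_left _ _) (abs_nonneg _)
            (le_trans (abs_nonneg _) (le_max_left _ _))
        exact h4.trans (h3.trans hN1'))
    have hC2 : 0 ≤ C * (2:ℝ) ^ (r * n) := by positivity
    have hCN : C * (2:ℝ) ^ (r * n) ≤ C * 2 ^ r * (N:ℝ) ^ r := by
      rw [mul_assoc]
      exact mul_le_mul_of_nonneg_left hpow hC.le
    have f0p : nrm1 (P ((G.filter (fun k => k.1 = 0)).filter (fun k => ¬ k.2 = 0)) d) ≤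
        C * 2 ^ r * (N:ℝ) ^ r * (2 * A) := by
      refine m0p.trans ?_
      exact mul_le_mul hCN (by linarith) (nrm1_nonneg _) (by positivity)
    have fp0 : nrm1 (P ((G.filter (fun k => ¬ k.1 = 0)).filter (fun k => k.2 = 0)) d) ≤
        C * 2 ^ r * (N:ℝ) ^ r * (2 * A) := by
      refine mp0.trans ?_
      exact mul_le_mul hCN (by linarith) (nrm1_nonneg _) (by positivity)
    have fpp : nrm1 (P ((G.filter (fun k => ¬ k.1 = 0)).filter (fun k => ¬ k.2 = 0)) d) ≤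
        C * 2 ^ r * (N:ℝ) ^ r * (4 * A) := by
      refine mpp.trans ?_
      exact mul_le_mul hCN (by linarith) (nrm1_nonneg _) (by positivity)
    have f00 : nrm1 (P ((G.filter (fun k => k.1 = 0)).filter (fun k => k.2 = 0)) d) ≤
        (N:ℝ) ^ r * A := by
      rw [m00]
      have h1 : nrm1 (P ((G.filter (fun k => k.1 = 0)).filter (fun k => k.2 = 0)) c) ≤ A :=
        b2.trans b1
      have h2 : 1 * A ≤ (N:ℝ) ^ r * A := mul_le_mul_of_nonneg_right hNr hA0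
      linarith
    calc nrm1 (P G d) ≤ _ := s1
      _ ≤ (C * 2 ^ r * (N:ℝ) ^ r * (2 * A) + (N:ℝ) ^ r * A) +
          (C * 2 ^ r * (N:ℝ) ^ r * (2 * A) + C * 2 ^ r * (N:ℝ) ^ r * (4 * A)) := by
        linarith
      _ = (8 * (C * 2 ^ r) + 1) * (N:ℝ) ^ r * A := by ring
  · refine ⟨4 * C, by positivity, ?_⟩
    intro n S c α β hS
    have e1 : P S (fun k => if k.1 = 0 ∨ k.2 = 0 then 0 else mu r α k.1 * mu r β k.2 * c k) =
        P ((S.filter (fun k => ¬ k.1 = 0)).filter (fun k => ¬ k.2 = 0))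
          (fun k => mu r α k.1 * mu r β k.2 * c k) := by
      funext x y
      unfold P
      rw [Finset.filter_filter, Finset.sum_filter]
      refine Finset.sum_congr rfl fun k _ => ?_
      simp only
      by_cases h : k.1 = 0 ∨ k.2 = 0
      · rw [if_pos h, if_neg (by tauto), zero_mul]
      · rw [if_neg h, if_pos (by tauto)]
    rw [e1]
    have mpp := part_pp r C hmain n
      ((S.filter (fun k => ¬ k.1 = 0)).filter (fun k => ¬ k.2 = 0)) c α β (by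
        intro k hk
        have h1 := (Finset.mem_filter.1 hk).2
        have h2 := (Finset.mem_filter.1 (Finset.mem_filter.1 hk).1).2
        have h3 := hS k (Finset.mem_filter.1 (Finset.mem_filter.1 hk).1).1
        exact ⟨h2, h1, h3⟩)
    have b4 := hn1 S c
    have b6 := hn2 (S.filter (fun k => ¬ k.1 = 0)) c
    refine mpp.trans ?_
    have h5 : nrm1 (P ((S.filter (fun k => ¬ k.1 = 0)).filter (fun k => ¬ k.2 = 0)) c) ≤
        4 * nrm1 (P S c) := by linarith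
    calc _ ≤ C * (2:ℝ) ^ (r * n) * (4 * nrm1 (P S c)) :=
          mul_le_mul_of_nonneg_left h5 (by positivity)
      _ = _ := by ring

end BernP.SF2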