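import Pool.Agent.Helper643.Bern.Main
import Pool.Agent.Helper643.Bern.F1
import Pool.Agent.Helper643.Bern.F2

open Finset

namespace BernP

theorem nrm1_pos' (S : Finset (ℤ × ℤ)) (c : ℤ × ℤ → ℂ) (h : ∃ k ∈ S, c k ≠ 0) :
    0 < nrm1 (P S c) := SF1.nrm1_pos S c h

theorem both (r : ℝ) (hr : 0 < r) :
    (∃ C : ℝ, 0 < C ∧ ∀ (N : ℕ), 1 ≤ N → ∀ (α β : ℝ) (c : ℤ × ℤ → ℂ),
      nrm1 (P (Gam N) (fun k => mu r α k.1 * mu r β k.2 * c k)) ≤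
        C * (N:ℝ)^r * nrm1 (P (Gam N) c)) ∧
    (∃ C : ℝ, 0 < C ∧ ∀ (n : ℕ) (S : Finset (ℤ × ℤ)) (c : ℤ × ℤ → ℂ) (α β : ℝ),
      (∀ k ∈ S, |k.1| * |k.2| ≤ 2^n) →
      nrm1 (P S (fun k => if k.1 = 0 ∨ k.2 = 0 then 0 else mu r α k.1 * mu r β k.2 * c k)) ≤
        C * (2:ℝ)^(r*n) * nrm1 (P S c)) :=
  SF2.upper2 (fun S c => SF1.restrict S c) (fun S S' c c' => SF1.nrm1_add S S' c c')
    (fun S c a => SF1.nrm1_smul S c a) r hr (BernT.torus r hr)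

theorem upperGam (r : ℝ) (hr : 0 < r) :
    ∃ C : ℝ, 0 < C ∧ ∀ (N : ℕ), 1 ≤ N → ∀ (α β : ℝ) (c : ℤ × ℤ → ℂ),
      nrm1 (P (Gam N) (fun k => mu r α k.1 * mu r β k.2 * c k)) ≤
        C * (N:ℝ)^r * nrm1 (P (Gam N) c) := (both r hr).1

theorem P_single (S : Finset (ℤ × ℤ)) (k0 : ℤ × ℤ) (m : ℤ × ℤ → ℂ) (x y : ℝ) :
    P S (fun k => m k * (if k = k0 then 1 else 0)) x y =
      m k0 * P S (fun k => if k = k0 then 1 else 0) x y := by
  unfold P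
  rw [mul_sum]
  apply sum_congr rfl
  intro k _
  by_cases h : k = k0
  · subst h; simp
  · simp [h]

/-- the ratio for a single exponential is the modulus of the multiplier. -/
theorem ratio_single (S : Finset (ℤ × ℤ)) (k0 : ℤ × ℤ) (hk : k0 ∈ S) (m : ℤ × ℤ → ℂ) :
    ‖m k0‖ = nrm1 (P S (fun k => m k * (if k = k0 then 1 else 0))) /
      nrm1 (P S (fun k => if k = k0 then 1 else 0)) := by
  have h1 : P S (fun k => m k * (if k = k0 then 1 else 0)) =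
      fun x y => m k0 * P S (fun k => if k = k0 then 1 else 0) x y := by
    funext x y; exact P_single S k0 m x y
  rw [h1, SF1.nrm1_smul, mul_div_assoc, div_self, mul_one]
  exact (nrm1_pos' S _ ⟨k0, hk, by simp⟩).ne'

theorem norm_mu (r α : ℝ) (k : ℤ) (hk : k ≠ 0) : ‖mu r α k‖ = |(k:ℝ)|^r := by
  unfold mu
  rw [if_neg hk, norm_mul, Complex.norm_real, Real.norm_of_nonneg (by positivity)]
  have : Complex.I * (((k.sign : ℤ) : ℝ) * α * Real.pi / 2) =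
      (((k.sign : ℝ) * α * Real.pi / 2 : ℝ) : ℂ) * Complex.I := by push_cast; ring
  rw [this, Complex.norm_exp_ofReal_mul_I, mul_one]

theorem single_ratio (N : ℕ) (hN : 1 ≤ N) (r : ℝ) (hr : 0 < r) (α β : ℝ) :
    ∃ c : ℤ × ℤ → ℂ, (∃ k ∈ Gam N, c k ≠ 0) ∧
    (N:ℝ)^r = nrm1 (P (Gam N) (fun k => mu r α k.1 * mu r β k.2 * c k)) / nrm1 (P (Gam N) c) := by
  have hk : ((N:ℤ), (0:ℤ)) ∈ Gam N := by
    unfold Gam
    simp only [mem_filter, mem_product, mem_Icc]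
    refine ⟨⟨⟨by omega, le_refl _⟩, ⟨by omega, by omega⟩⟩, ?_⟩
    have h1 : max |(N:ℤ)| 1 = N := by
      rw [abs_of_nonneg (by positivity)]; apply max_eq_left; exact_mod_cast hN
    rw [h1]; simp
  refine ⟨fun k => if k = ((N:ℤ), (0:ℤ)) then 1 else 0, ⟨_, hk, by simp⟩, ?_⟩
  rw [← ratio_single (Gam N) ((N:ℤ), (0:ℤ)) hk (fun k => mu r α k.1 * mu r β k.2)]
  simp only [norm_mul]
  rw [norm_mu r α N (by omega)]
  simp [mu]

end BernP
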