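import Mathlib

namespace BernT.SN1


open Finset

theorem nX_summ (r : ℝ) (hr : 0 < r) :
    Summable (fun k : ℕ => (2:ℝ)^(-(r*k)) * ((k:ℝ)+1)^2) := by
  have h1 : ∀ k : ℕ, (2:ℝ)^(-(r*k)) = ((2:ℝ)^(-r))^k := by
    intro k
    rw [← Real.rpow_natCast, ← Real.rpow_mul (by norm_num : (0:ℝ) ≤ 2)]
    congr 1; ring
  have h2 : ‖(2:ℝ)^(-r)‖ < 1 := by
    rw [Real.norm_of_nonneg (by positivity)]
    exact Real.rpow_lt_one_of_one_lt_of_neg (by norm_num) (by linarith)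
  have s2 := summable_pow_mul_geometric_of_norm_lt_one 2 h2
  have s1 := summable_pow_mul_geometric_of_norm_lt_one 1 h2
  have s0 := summable_pow_mul_geometric_of_norm_lt_one 0 h2
  have s3 := (s2.add (s1.mul_left 2)).add s0
  refine s3.congr fun k => ?_
  rw [h1 k]
  ring

theorem nX_le {g : ℕ → ℝ} (hg : Summable g) (h0 : ∀ k, 0 ≤ g k) (A : Finset ℕ) (e : ℕ → ℕ)
    (he : Set.InjOn e A) : ∑ s ∈ A, g (e s) ≤ ∑' k, g k := by
  rw [← Finset.sum_image he]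
  exact hg.sum_le_tsum _ (fun _ _ => h0 _)

theorem numA : ∃ C : ℝ, 0 < C ∧ ∀ (J m n : ℕ),
    ∑ s ∈ range J, (2:ℝ)^(-(|(s:ℝ)-m|/4)) * (|(s:ℝ)-n|+1)^2 ≤ C * (|(m:ℝ)-n|+1)^2 := by
  have hs := nX_summ (1/4) (by norm_num)
  have h0 : ∀ k : ℕ, 0 ≤ (2:ℝ)^(-((1/4)*(k:ℝ))) * ((k:ℝ)+1)^2 := fun k => by positivity
  set g : ℕ → ℝ := fun k => (2:ℝ)^(-((1/4)*(k:ℝ))) * ((k:ℝ)+1)^2 with hg
  have hT : 0 < ∑' k, g k := by
    have h1 : g 0 ≤ ∑' k, g k := hs.le_tsum 0 (fun k _ => h0 k)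
    have h2 : g 0 = 1 := by simp [hg]
    linarith
  refine ⟨2 * ∑' k, g k, by linarith, fun J m n => ?_⟩
  have h1 : ∀ s ∈ range J, (2:ℝ)^(-(|(s:ℝ)-m|/4)) * (|(s:ℝ)-n|+1)^2 ≤
      ((2:ℝ)^(-(|(s:ℝ)-m|/4)) * (|(s:ℝ)-m|+1)^2) * (|(m:ℝ)-n|+1)^2 := by
    intro s _
    rw [mul_assoc]
    apply mul_le_mul_of_nonneg_left _ (by positivity)
    rw [← mul_pow]
    apply pow_le_pow_left₀ (by positivity)
    have h2 : |(s:ℝ)-n| ≤ |(s:ℝ)-m| + |(m:ℝ)-n| := abs_sub_le _ _ _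
    have h3 : 0 ≤ |(s:ℝ)-m| * |(m:ℝ)-n| := by positivity
    nlinarith
  refine (Finset.sum_le_sum h1).trans ?_
  rw [← Finset.sum_mul]
  apply mul_le_mul_of_nonneg_right _ (by positivity)
  rw [← Finset.sum_filter_add_sum_filter_not (range J) (fun s => s ≤ m)]
  have h4 : ∑ s ∈ (range J).filter (fun s => s ≤ m),
      (2:ℝ)^(-(|(s:ℝ)-m|/4)) * (|(s:ℝ)-m|+1)^2 ≤ ∑' k, g k := by
    refine le_trans (le_of_eq ?_) (nX_le hs h0 ((range J).filter (fun s => s ≤ m))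
      (fun s => m - s) ?_)
    · apply Finset.sum_congr rfl
      intro s hs'
      have hsm : s ≤ m := (Finset.mem_filter.1 hs').2
      have e1 : |(s:ℝ)-m| = ((m - s : ℕ) : ℝ) := by
        rw [Nat.cast_sub hsm, abs_sub_comm, abs_of_nonneg]
        have : (s:ℝ) ≤ m := by exact_mod_cast hsm
        linarith
      rw [e1, show (((m - s : ℕ) : ℝ) / 4) = (1/4) * ((m - s : ℕ) : ℝ) by ring]
    · intro a ha b hb hab
      have ha' : a ≤ m := (Finset.mem_filter.1 (Finset.mem_coe.1 ha)).2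
      have hb' : b ≤ m := (Finset.mem_filter.1 (Finset.mem_coe.1 hb)).2
      have hab' : m - a = m - b := hab
      omega
  have h5 : ∑ s ∈ (range J).filter (fun s => ¬ s ≤ m),
      (2:ℝ)^(-(|(s:ℝ)-m|/4)) * (|(s:ℝ)-m|+1)^2 ≤ ∑' k, g k := by
    refine le_trans (le_of_eq ?_) (nX_le hs h0 ((range J).filter (fun s => ¬ s ≤ m))
      (fun s => s - m) ?_)
    · apply Finset.sum_congr rfl
      intro s hs'
      have hsm : m ≤ s := (not_le.1 (Finset.mem_filter.1 hs').2).le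
      have e1 : |(s:ℝ)-m| = ((s - m : ℕ) : ℝ) := by
        rw [Nat.cast_sub hsm, abs_of_nonneg]
        have : (m:ℝ) ≤ s := by exact_mod_cast hsm
        linarith
      rw [e1, show (((s - m : ℕ) : ℝ) / 4) = (1/4) * ((s - m : ℕ) : ℝ) by ring]
    · intro a ha b hb hab
      have ha' : ¬ a ≤ m := (Finset.mem_filter.1 (Finset.mem_coe.1 ha)).2
      have hb' : ¬ b ≤ m := (Finset.mem_filter.1 (Finset.mem_coe.1 hb)).2
      have hab' : a - m = b - m := hab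
      omega
  linarith

theorem numB (r : ℝ) (hr : 0 < r) : ∃ C : ℝ, 0 < C ∧ ∀ n : ℕ,
    ∑ m ∈ range (n+2), (2:ℝ)^(r*m) * (|(m:ℝ)-n|+1)^2 ≤ C * (2:ℝ)^(r*n) := by
  have hs := nX_summ r hr
  have h0 : ∀ k : ℕ, 0 ≤ (2:ℝ)^(-(r*(k:ℝ))) * ((k:ℝ)+1)^2 := fun k => by positivity
  set g : ℕ → ℝ := fun k => (2:ℝ)^(-(r*(k:ℝ))) * ((k:ℝ)+1)^2 with hg
  have hT : 0 ≤ ∑' k, g k := tsum_nonneg h0
  refine ⟨(∑' k, g k) + 4 * (2:ℝ)^r, by positivity, fun n => ?_⟩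
  rw [Finset.sum_range_succ, add_mul]
  apply add_le_add
  · have h1 : ∑ m ∈ range (n+1), (2:ℝ)^(r*m) * (|(m:ℝ)-n|+1)^2 =
        (∑ m ∈ range (n+1), g (n - m)) * (2:ℝ)^(r*n) := by
      rw [Finset.sum_mul]
      apply Finset.sum_congr rfl
      intro m hm
      have hmn : m ≤ n := by
        have := Finset.mem_range.1 hm
        omega
      have e1 : |(m:ℝ)-n| = ((n - m : ℕ) : ℝ) := by
        rw [Nat.cast_sub hmn, abs_sub_comm, abs_of_nonneg]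
        have : (m:ℝ) ≤ n := by exact_mod_cast hmn
        linarith
      have e2 : (2:ℝ)^(r*m) = (2:ℝ)^(-(r*((n - m : ℕ) : ℝ))) * (2:ℝ)^(r*n) := by
        rw [← Real.rpow_add (by norm_num)]
        congr 1
        rw [Nat.cast_sub hmn]
        ring
      rw [e1, e2]
      show _ = (2:ℝ)^(-(r*((n - m : ℕ):ℝ))) * (((n - m : ℕ):ℝ)+1)^2 * (2:ℝ)^(r*n)
      ring
    rw [h1]
    apply mul_le_mul_of_nonneg_right _ (by positivity)
    apply nX_le hs h0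
    intro a ha b hb hab
    have ha' := Finset.mem_range.1 (Finset.mem_coe.1 ha)
    have hb' := Finset.mem_range.1 (Finset.mem_coe.1 hb)
    have hab' : n - a = n - b := hab
    omega
  · have e1 : |((n+1 : ℕ):ℝ)-n| = 1 := by
      push_cast
      rw [show (n:ℝ) + 1 - n = 1 by ring, abs_one]
    rw [e1]
    have e2 : (2:ℝ)^(r*((n+1 : ℕ):ℝ)) = (2:ℝ)^r * (2:ℝ)^(r*n) := by
      rw [← Real.rpow_add (by norm_num)]
      congr 1
      push_cast; ring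
    rw [e2]
    apply le_of_eq
    ring

end BernT.SN1
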