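import Pool.Agent.Helper643.BernT

open Finset Matrix



open Finset Matrix
namespace BernT.SS1
/-- `u^r (u-c)_+` -/
noncomputable def symR_g (r c u : ℝ) : ℝ := u ^ r * max 0 (u - c)

theorem symR_g_convex (r c : ℝ) (hr : 0 ≤ r) (hc : 0 ≤ c) :
    ConvexOn ℝ (Set.Ici 0) (symR_g r c) := by
  rcases le_total r 1 with h | h
  · have h1 : ConvexOn ℝ (Set.Ici 0) (fun u : ℝ => u ^ (r + 1)) := convexOn_rpow (by linarith)
    have h2 : ConcaveOn ℝ (Set.Ici 0) (fun u : ℝ => u ^ r) := Real.concaveOn_rpow hr h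
    have h3 := h1.sub (h2.smul hc)
    have h4 := (convexOn_const (0:ℝ) (convex_Ici (0:ℝ))).sup h3
    refine h4.congr ?_
    intro u hu
    have hu0 : 0 ≤ u := hu
    simp only [Pi.sup_apply, Pi.sub_apply, smul_eq_mul]
    unfold symR_g
    rw [mul_max_of_nonneg _ _ (Real.rpow_nonneg hu0 r), mul_zero,
      Real.rpow_add_one' hu0 (by linarith)]
    congr 1
    ring
  · have h1 : ConvexOn ℝ (Set.Ici 0) (fun u : ℝ => u ^ r) := convexOn_rpow h
    have h2 : ConvexOn ℝ (Set.Ici 0) (fun u : ℝ => max 0 (u - c)) := by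
      have h3 : ConvexOn ℝ (Set.Ici 0) (fun u : ℝ => u - c) :=
        (convexOn_id (convex_Ici (0:ℝ))).sub (concaveOn_const c (convex_Ici (0:ℝ)))
      exact (convexOn_const (0:ℝ) (convex_Ici (0:ℝ))).sup h3
    have h3 : MonotoneOn (fun u : ℝ => u ^ r) (Set.Ici 0) := fun x hx y _ hxy =>
      Real.rpow_le_rpow hx hxy hr
    have h4 : MonotoneOn (fun u : ℝ => max 0 (u - c)) (Set.Ici 0) := fun x _ y _ hxy =>
      max_le_max le_rfl (by linarith)
    have h5 := h1.mul h2 (fun x hx => Real.rpow_nonneg hx r) (fun x _ => le_max_left _ _)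
      (h3.monovaryOn h4)
    exact h5

theorem symR_g_mono (r c : ℝ) (hr : 0 ≤ r) : MonotoneOn (symR_g r c) (Set.Ici 0) := by
  intro x hx y hy hxy
  unfold symR_g
  exact mul_le_mul (Real.rpow_le_rpow hx hxy hr) (max_le_max le_rfl (by linarith))
    (le_max_left _ _) (Real.rpow_nonneg hy r)

theorem symR_g_nonneg (r c : ℝ) {u : ℝ} (hu : 0 ≤ u) : 0 ≤ symR_g r c u :=
  mul_nonneg (Real.rpow_nonneg hu r) (le_max_left _ _)

theorem symR_g_lip (r c : ℝ) (hr : 0 ≤ r) (hc : 0 ≤ c) {x y : ℝ} (hx : 0 ≤ x) (hxy : x ≤ y)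
    (hy : y ≤ 5) : symR_g r c y - symR_g r c x ≤ 6 ^ (r + 1) * (y - x) := by
  rcases hxy.eq_or_lt with h | h
  · subst h
    simp
  have hy0 : 0 ≤ y := hx.trans hxy
  have h1 := (symR_g_convex r c hr hc).slope_mono_adjacent (x := x) (y := y) (z := y + 1)
    hx (show (0:ℝ) ≤ y + 1 by linarith) h (by linarith)
  have h2 : symR_g r c (y + 1) ≤ 6 ^ (r + 1) := by
    have h3 : symR_g r c (y + 1) ≤ symR_g r c 6 := symR_g_mono r c hr
      (show (0:ℝ) ≤ y + 1 by linarith) (show (0:ℝ) ≤ 6 by norm_num) (by linarith)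
    refine h3.trans ?_
    unfold symR_g
    rw [Real.rpow_add_one (by norm_num)]
    apply mul_le_mul_of_nonneg_left _ (by positivity)
    apply max_le (by norm_num)
    linarith
  have h3 := symR_g_nonneg r c hy0
  have h4 : (symR_g r c (y + 1) - symR_g r c y) / (y + 1 - y) ≤ 6 ^ (r + 1) := by
    rw [show y + 1 - y = 1 by ring, div_one]
    linarith
  have h5 := h1.trans h4
  rwa [div_le_iff₀ (by linarith)] at h5

theorem symR_tent (u : ℝ) : max 0 (min (2 * u - 1) (2 - u)) =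
    2 * max 0 (u - 1 / 2) - 3 * max 0 (u - 1) + max 0 (u - 2) := by
  rcases le_total u (1 / 2) with h1 | h1
  · rw [max_eq_left (show u - 1 / 2 ≤ 0 by linarith), max_eq_left (show u - 1 ≤ 0 by linarith),
      max_eq_left (show u - 2 ≤ 0 by linarith), max_eq_left]
    · ring
    · exact (min_le_left _ _).trans (by linarith)
  rcases le_total u 1 with h2 | h2
  · rw [max_eq_right (show 0 ≤ u - 1 / 2 by linarith), max_eq_left (show u - 1 ≤ 0 by linarith),
      max_eq_left (show u - 2 ≤ 0 by linarith), min_eq_left (show 2 * u - 1 ≤ 2 - u by linarith),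
      max_eq_right (by linarith)]
    ring
  rcases le_total u 2 with h3 | h3
  · rw [max_eq_right (show 0 ≤ u - 1 / 2 by linarith), max_eq_right (show 0 ≤ u - 1 by linarith),
      max_eq_left (show u - 2 ≤ 0 by linarith), min_eq_right (show 2 - u ≤ 2 * u - 1 by linarith),
      max_eq_right (by linarith)]
    ring
  · rw [max_eq_right (show 0 ≤ u - 1 / 2 by linarith), max_eq_right (show 0 ≤ u - 1 by linarith),
      max_eq_right (show 0 ≤ u - 2 by linarith), max_eq_left]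
    · ring
    · exact (min_le_right _ _).trans (by linarith)

/-- the even extension on the grid -/
noncomputable def symR_G (r c : ℝ) (t : ℕ) (k : ℤ) : ℝ := symR_g r c (|(k:ℝ)| / 2 ^ t)

theorem symR_eq (r : ℝ) (t : ℕ) (k : ℤ) : (|(k:ℝ)| / 2^t)^r * bt t k =
    2 * symR_G r (1 / 2) t k - 3 * symR_G r 1 t k + symR_G r 2 t k := by
  unfold bt symR_G symR_g
  rw [symR_tent]
  ring

theorem symR_G_convex (r c : ℝ) (hr : 0 ≤ r) (hc : 0 ≤ c) (t : ℕ) (k : ℤ) :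
    0 ≤ symR_G r c t (k + 1) - 2 * symR_G r c t k + symR_G r c t (k - 1) := by
  unfold symR_G
  have h2 : (0:ℝ) < 2 ^ t := by positivity
  have ha : 0 ≤ |((k + 1 : ℤ) : ℝ)| / 2 ^ t := by positivity
  have hb : 0 ≤ |((k - 1 : ℤ) : ℝ)| / 2 ^ t := by positivity
  have h1 := (symR_g_convex r c hr hc).2 (x := |((k + 1 : ℤ) : ℝ)| / 2 ^ t)
    (y := |((k - 1 : ℤ) : ℝ)| / 2 ^ t) ha hb (show (0:ℝ) ≤ 1 / 2 by norm_num)
    (show (0:ℝ) ≤ 1 / 2 by norm_num) (by norm_num)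
  simp only [smul_eq_mul] at h1
  have h3 : symR_g r c (|(k:ℝ)| / 2 ^ t) ≤
      symR_g r c (1 / 2 * (|((k + 1 : ℤ) : ℝ)| / 2 ^ t) + 1 / 2 * (|((k - 1 : ℤ) : ℝ)| / 2 ^ t)) := by
    apply symR_g_mono r c hr (show (0:ℝ) ≤ |(k:ℝ)| / 2 ^ t by positivity)
      (show (0:ℝ) ≤ _ by positivity)
    have h4 : |(k:ℝ)| ≤ 1 / 2 * |((k + 1 : ℤ) : ℝ)| + 1 / 2 * |((k - 1 : ℤ) : ℝ)| := by
      have h5 := abs_add_le ((k + 1 : ℤ) : ℝ) ((k - 1 : ℤ) : ℝ)
      have h6 : |((k + 1 : ℤ) : ℝ) + ((k - 1 : ℤ) : ℝ)| = 2 * |(k:ℝ)| := by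
        have : ((k + 1 : ℤ) : ℝ) + ((k - 1 : ℤ) : ℝ) = 2 * k := by push_cast; ring
        rw [this, abs_mul, abs_of_pos (by norm_num : (0:ℝ) < 2)]
      rw [h6] at h5
      linarith
    calc |(k:ℝ)| / 2 ^ t ≤ (1 / 2 * |((k + 1 : ℤ) : ℝ)| + 1 / 2 * |((k - 1 : ℤ) : ℝ)|) / 2 ^ t :=
          div_le_div_of_nonneg_right h4 h2.le
      _ = _ := by ring
  linarith

theorem symR_G_lip (r c : ℝ) (hr : 0 ≤ r) (hc : 0 ≤ c) (t : ℕ) (k : ℤ)
    (hk : |(k:ℝ)| ≤ 5 * 2 ^ t) (hk1 : |((k + 1 : ℤ) : ℝ)| ≤ 5 * 2 ^ t) :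
    |symR_G r c t (k + 1) - symR_G r c t k| ≤ 6 ^ (r + 1) / 2 ^ t := by
  unfold symR_G
  have h2 : (0:ℝ) < 2 ^ t := by positivity
  have ha : 0 ≤ |((k + 1 : ℤ) : ℝ)| / 2 ^ t := by positivity
  have hb : 0 ≤ |(k : ℝ)| / 2 ^ t := by positivity
  have ha5 : |((k + 1 : ℤ) : ℝ)| / 2 ^ t ≤ 5 := (div_le_iff₀ h2).2 hk1
  have hb5 : |(k : ℝ)| / 2 ^ t ≤ 5 := (div_le_iff₀ h2).2 hk
  have hd : |(|((k + 1 : ℤ) : ℝ)| / 2 ^ t - |(k : ℝ)| / 2 ^ t)| ≤ 1 / 2 ^ t := by
    rw [← sub_div, abs_div, abs_of_pos h2]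
    apply div_le_div_of_nonneg_right _ h2.le
    refine (abs_abs_sub_abs_le _ _).trans ?_
    push_cast
    simp
  have hL : (0:ℝ) ≤ 6 ^ (r + 1) := by positivity
  rcases le_total (|((k + 1 : ℤ) : ℝ)| / 2 ^ t) (|(k : ℝ)| / 2 ^ t) with h | h
  · have h3 := symR_g_lip r c hr hc ha h hb5
    have h4 := symR_g_mono r c hr ha hb h
    rw [abs_of_nonpos (by linarith)]
    rw [abs_of_nonpos (by linarith)] at hd
    have h5 := mul_le_mul_of_nonneg_left hd hL
    have h6 : (6:ℝ) ^ (r + 1) * (1 / 2 ^ t) = 6 ^ (r + 1) / 2 ^ t := by ring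
    have h7 : -(|((k + 1 : ℤ) : ℝ)| / 2 ^ t - |(k : ℝ)| / 2 ^ t) =
      |(k : ℝ)| / 2 ^ t - |((k + 1 : ℤ) : ℝ)| / 2 ^ t := by ring
    rw [h6, h7] at h5
    linarith
  · have h3 := symR_g_lip r c hr hc hb h ha5
    have h4 := symR_g_mono r c hr hb ha h
    rw [abs_of_nonneg (by linarith)]
    rw [abs_of_nonneg (by linarith)] at hd
    have h5 := mul_le_mul_of_nonneg_left hd hL
    have h6 : (6:ℝ) ^ (r + 1) * (1 / 2 ^ t) = 6 ^ (r + 1) / 2 ^ t := by ring
    rw [h6] at h5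
    linarith

theorem symR_tele (F : ℤ → ℝ) (a b : ℤ) (hab : a ≤ b + 1) :
    ∑ k ∈ Icc a b, (F (k + 1) - F k) = F (b + 1) - F a := by
  have h1 : Finset.Icc a b = (Finset.range (b + 1 - a).toNat).map
      (Nat.castEmbedding.trans <| addLeftEmbedding a) := rfl
  rw [h1, Finset.sum_map]
  have h2 : ∀ n : ℕ, ∑ x ∈ Finset.range n,
      (F ((Nat.castEmbedding.trans <| addLeftEmbedding a) x + 1) -
        F ((Nat.castEmbedding.trans <| addLeftEmbedding a) x)) = F (a + n) - F a := by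
    intro n
    induction n with
    | zero => simp
    | succ n ih =>
      rw [Finset.sum_range_succ, ih]
      have e1 : (Nat.castEmbedding.trans <| addLeftEmbedding a) n = a + (n : ℤ) := rfl
      rw [e1]
      push_cast
      rw [add_assoc]
      ring
  rw [h2]
  congr 2
  omega

theorem symR_G_sum (r c : ℝ) (hr : 0 ≤ r) (hc : 0 ≤ c) (t : ℕ) :
    ∑ k ∈ Icc (-(2:ℤ)^(t+1)-1) ((2:ℤ)^(t+1)+1),
      (symR_G r c t (k + 1) - 2 * symR_G r c t k + symR_G r c t (k - 1)) ≤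
        2 * (6 ^ (r + 1) / 2 ^ t) := by
  have h1 : ∀ k : ℤ, symR_G r c t (k + 1) - 2 * symR_G r c t k + symR_G r c t (k - 1) =
      (fun k => symR_G r c t k - symR_G r c t (k - 1)) (k + 1) -
        (fun k => symR_G r c t k - symR_G r c t (k - 1)) k := by
    intro k
    simp only [add_sub_cancel_right]
    ring
  have hab : (-(2:ℤ)^(t+1)-1) ≤ ((2:ℤ)^(t+1)+1) + 1 := by
    have : (0:ℤ) < 2 ^ (t + 1) := by positivity
    linarith
  have h0 := symR_tele (fun k => symR_G r c t k - symR_G r c t (k - 1)) _ _ hab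
  rw [Finset.sum_congr rfl fun k _ => h1 k, h0]
  · have hp : (1:ℝ) ≤ 2 ^ t := one_le_pow₀ (by norm_num)
    have hb : ∀ m : ℤ, |(m:ℝ)| ≤ 2 * 2 ^ t + 2 → |(m:ℝ)| ≤ 5 * 2 ^ t := fun m hm => by linarith
    have h2 := symR_G_lip r c hr hc t ((2:ℤ)^(t+1)+1) (by
      apply hb
      push_cast
      rw [abs_of_nonneg (by positivity), pow_succ]
      linarith) (by
      apply hb
      push_cast
      rw [abs_of_nonneg (by positivity), pow_succ]
      linarith)
    have h3 := symR_G_lip r c hr hc t (-(2:ℤ)^(t+1)-1-1) (by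
      apply hb
      push_cast
      rw [abs_of_nonpos (by
        have : (0:ℝ) < 2 ^ (t + 1) := by positivity
        linarith), pow_succ]
      linarith) (by
      apply hb
      push_cast
      rw [abs_of_nonpos (by
        have : (0:ℝ) < 2 ^ (t + 1) := by positivity
        linarith), pow_succ]
      linarith)
    simp only [add_sub_cancel_right]
    rw [sub_add_cancel] at h3
    have h4 := le_abs_self (symR_G r c t ((2:ℤ)^(t+1)+1+1) - symR_G r c t ((2:ℤ)^(t+1)+1))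
    have h5 := neg_abs_le (symR_G r c t (-(2:ℤ)^(t+1)-1) - symR_G r c t (-(2:ℤ)^(t+1)-1-1))
    linarith

/-- discrete smoothness of the symbol `(|k|/2^t)^r * tent_t(k)` -/
theorem symR (r : ℝ) (hr : 0 ≤ r) : ∃ A : ℝ, 0 < A ∧ ∀ t : ℕ,
    (∀ k : ℤ, |(|(k:ℝ)| / 2^t)^r * bt t k| ≤ A) ∧
    (∀ k : ℤ, |(|((k+1:ℤ):ℝ)| / 2^t)^r * bt t (k+1) - (|(k:ℝ)| / 2^t)^r * bt t k| ≤ A / 2^t) ∧
    (∑ k ∈ Icc (-(2:ℤ)^(t+1)-1) ((2:ℤ)^(t+1)+1),
      |(|((k+1:ℤ):ℝ)| / 2^t)^r * bt t (k+1) - 2 * ((|(k:ℝ)| / 2^t)^r * bt t k)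
        + (|((k-1:ℤ):ℝ)| / 2^t)^r * bt t (k-1)| ≤ A / 2^t) := by
  refine ⟨12 * 6 ^ (r + 1), by positivity, fun t => ⟨fun k => ?_, fun k => ?_, ?_⟩⟩
  · have h2 : (0:ℝ) < 2 ^ t := by positivity
    have hu : 0 ≤ |(k:ℝ)| / 2 ^ t := by positivity
    have hb0 : 0 ≤ bt t k := le_max_left _ _
    rw [abs_of_nonneg (mul_nonneg (Real.rpow_nonneg hu r) hb0)]
    rcases le_total (|(k:ℝ)| / 2 ^ t) 2 with h | h
    · have h3 : (|(k:ℝ)| / 2 ^ t) ^ r ≤ 2 ^ r := Real.rpow_le_rpow hu h hr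
      have h4 : bt t k ≤ 1 := by
        unfold bt
        apply max_le zero_le_one
        rcases le_total (|(k:ℝ)| / 2 ^ t) 1 with h5 | h5
        · exact (min_le_left _ _).trans (by linarith)
        · exact (min_le_right _ _).trans (by linarith)
      have h5 : (2:ℝ) ^ r ≤ 6 ^ r := Real.rpow_le_rpow (by norm_num) (by norm_num) hr
      have h6 : (6:ℝ) ^ (r + 1) = 6 ^ r * 6 := Real.rpow_add_one (by norm_num) r
      have h7 : (0:ℝ) < 6 ^ r := by positivity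
      calc (|(k:ℝ)| / 2 ^ t) ^ r * bt t k ≤ 2 ^ r * 1 :=
            mul_le_mul h3 h4 hb0 (by positivity)
        _ ≤ _ := by rw [h6]; linarith
    · have h4 : bt t k = 0 := by
        unfold bt
        apply max_eq_left
        exact (min_le_right _ _).trans (by linarith)
      rw [h4, mul_zero]
      positivity
  · have h2 : (0:ℝ) < 2 ^ t := by positivity
    have hp : (1:ℝ) ≤ 2 ^ t := one_le_pow₀ (by norm_num)
    by_cases hk : |(k:ℝ)| ≤ 5 * 2 ^ t ∧ |((k + 1 : ℤ) : ℝ)| ≤ 5 * 2 ^ t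
    · rw [symR_eq, symR_eq]
      have h3 := symR_G_lip r (1 / 2) hr (by norm_num) t k hk.1 hk.2
      have h4 := symR_G_lip r 1 hr (by norm_num) t k hk.1 hk.2
      have h5 := symR_G_lip r 2 hr (by norm_num) t k hk.1 hk.2
      rw [abs_le] at h3 h4 h5 ⊢
      have h6 : 12 * (6:ℝ) ^ (r + 1) / 2 ^ t = 12 * (6 ^ (r + 1) / 2 ^ t) := by ring
      rw [h6]
      constructor <;> linarith [h3.1, h3.2, h4.1, h4.2, h5.1, h5.2]
    · have hd : |((|((k + 1 : ℤ) : ℝ)|) - |(k:ℝ)|)| ≤ 1 := by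
        refine (abs_abs_sub_abs_le _ _).trans ?_
        push_cast
        simp
      rw [abs_le] at hd
      have hbig : 2 * 2 ^ t ≤ |(k:ℝ)| ∧ 2 * 2 ^ t ≤ |((k + 1 : ℤ) : ℝ)| := by
        by_contra hcon
        apply hk
        rw [not_and_or] at hcon
        rcases hcon with h | h
        · push Not at h
          constructor <;> linarith [hd.1, hd.2]
        · push Not at h
          constructor <;> linarith [hd.1, hd.2]
      have hz : ∀ m : ℤ, 2 * 2 ^ t ≤ |(m:ℝ)| → bt t m = 0 := by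
        intro m hm
        unfold bt
        apply max_eq_left
        have : 2 ≤ |(m:ℝ)| / 2 ^ t := (le_div_iff₀ h2).2 hm
        exact (min_le_right _ _).trans (by linarith)
      rw [hz k hbig.1, hz (k + 1) hbig.2, mul_zero, mul_zero, sub_zero, abs_zero]
      positivity
  · have h1 : ∀ k : ℤ, |(|((k+1:ℤ):ℝ)| / 2^t)^r * bt t (k+1) - 2 * ((|(k:ℝ)| / 2^t)^r * bt t k)
        + (|((k-1:ℤ):ℝ)| / 2^t)^r * bt t (k-1)| ≤
        2 * (symR_G r (1 / 2) t (k + 1) - 2 * symR_G r (1 / 2) t k + symR_G r (1 / 2) t (k - 1)) +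
        3 * (symR_G r 1 t (k + 1) - 2 * symR_G r 1 t k + symR_G r 1 t (k - 1)) +
        (symR_G r 2 t (k + 1) - 2 * symR_G r 2 t k + symR_G r 2 t (k - 1)) := by
      intro k
      rw [symR_eq, symR_eq, symR_eq]
      have h3 := symR_G_convex r (1 / 2) hr (by norm_num) t k
      have h4 := symR_G_convex r 1 hr (by norm_num) t k
      have h5 := symR_G_convex r 2 hr (by norm_num) t k
      rw [abs_le]
      constructor <;> linarith
    refine (Finset.sum_le_sum fun k _ => h1 k).trans ?_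
    rw [Finset.sum_add_distrib, Finset.sum_add_distrib, ← Finset.mul_sum, ← Finset.mul_sum]
    have h3 := symR_G_sum r (1 / 2) hr (by norm_num) t
    have h4 := symR_G_sum r 1 hr (by norm_num) t
    have h5 := symR_G_sum r 2 hr (by norm_num) t
    have h6 : 12 * (6:ℝ) ^ (r + 1) / 2 ^ t = 12 * (6 ^ (r + 1) / 2 ^ t) := by ring
    rw [h6]
    linarith

end BernT.SS1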