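import Pool.Agent.Helper643.BernT

open Finset Matrix



open Finset Matrix
namespace BernT.SS2
theorem symE_ex_eq (M : ℕ) (j : ℤ) :
    ex M j = Complex.exp (Complex.I * ((2 * Real.pi * j / 2 ^ M : ℝ) : ℂ)) := by
  unfold ex
  congr 1
  push_cast
  ring

theorem symE_add (M : ℕ) (j l : ℤ) : ex M (j + l) = ex M j * ex M l := by
  unfold ex
  rw [← Complex.exp_add]
  congr 1
  push_cast
  ring

theorem symE_zero (M : ℕ) : ex M 0 = 1 := by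
  unfold ex
  simp

theorem symE_norm (M : ℕ) (j : ℤ) : ‖ex M j‖ = 1 := by
  rw [symE_ex_eq, mul_comm, Complex.norm_exp_ofReal_mul_I]

theorem symE_up (M : ℕ) (j : ℤ) : ‖1 - ex M j‖ ≤ 2 * Real.pi * |(j : ℝ)| / 2 ^ M := by
  rw [symE_ex_eq, norm_sub_rev]
  refine (Real.norm_exp_I_mul_ofReal_sub_one_le).trans (le_of_eq ?_)
  rw [Real.norm_eq_abs, abs_div, abs_mul, abs_of_pos (by positivity : (0:ℝ) < 2 * Real.pi),
    abs_of_pos (by positivity : (0:ℝ) < 2 ^ M)]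

theorem symE_low (M : ℕ) (j : ℤ) (hj : |(j : ℝ)| ≤ 2 ^ M / 2) :
    4 * |(j : ℝ)| / 2 ^ M ≤ ‖1 - ex M j‖ := by
  have hH : (0:ℝ) < 2 ^ M := by positivity
  have hpi := Real.pi_pos
  rw [symE_ex_eq, norm_sub_rev, Complex.norm_exp_I_mul_ofReal_sub_one, Real.norm_eq_abs, abs_mul]
  have h1 : |2 * Real.pi * (j:ℝ) / 2 ^ M / 2| ≤ Real.pi / 2 := by
    rw [abs_div, abs_div, abs_mul, abs_of_pos (by positivity : (0:ℝ) < 2 * Real.pi),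
      abs_of_pos hH, abs_two, div_div, div_le_iff₀ (by positivity)]
    nlinarith
  have h2 := Real.mul_abs_le_abs_sin h1
  rw [abs_two]
  have h3 : |2 * Real.pi * (j:ℝ) / 2 ^ M / 2| = Real.pi * |(j:ℝ)| / 2 ^ M := by
    rw [abs_div, abs_div, abs_mul, abs_of_pos (by positivity : (0:ℝ) < 2 * Real.pi),
      abs_of_pos hH, abs_two]
    ring
  rw [h3] at h2
  calc 4 * |(j:ℝ)| / 2 ^ M = 2 * (2 / Real.pi * (Real.pi * |(j:ℝ)| / 2 ^ M)) := by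
        field_simp
        ring
    _ ≤ _ := by linarith

/-- discrete smoothness of `1/(1-ex M (-k))` for `2^(t-1) ≤ |k| ≤ 2^(t+1)`, `t+2 ≤ M`, and of `1 - ex M (-k)`. -/
theorem symE : ∃ A : ℝ, 0 < A ∧ ∀ M t : ℕ, t + 2 ≤ M →
    (∀ k : ℤ, (2:ℝ)^t / 2 ≤ |(k:ℝ)| → |(k:ℝ)| ≤ 2^(t+1) → 
      1 - ex M (-k) ≠ 0 ∧ ‖(1 - ex M (-k))⁻¹‖ ≤ A * 2^M / 2^t) ∧
    (∀ k : ℤ, (2:ℝ)^t / 2 ≤ |(k:ℝ)| → |(k:ℝ)| ≤ 2^(t+1) →
      (2:ℝ)^t / 2 ≤ |((k+1:ℤ):ℝ)| → |((k+1:ℤ):ℝ)| ≤ 2^(t+1) →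
      ‖(1 - ex M (-(k+1)))⁻¹ - (1 - ex M (-k))⁻¹‖ ≤ A * 2^M / 4^t) ∧
    (∀ k : ℤ, (2:ℝ)^t / 2 ≤ |(k:ℝ)| → |(k:ℝ)| ≤ 2^(t+1) →
      (2:ℝ)^t / 2 ≤ |((k+1:ℤ):ℝ)| → |((k+1:ℤ):ℝ)| ≤ 2^(t+1) →
      (2:ℝ)^t / 2 ≤ |((k-1:ℤ):ℝ)| → |((k-1:ℤ):ℝ)| ≤ 2^(t+1) →
      ‖(1 - ex M (-(k+1)))⁻¹ - 2 * (1 - ex M (-k))⁻¹ + (1 - ex M (-(k-1)))⁻¹‖ ≤ A * 2^M / 8^t) ∧
    (∀ k : ℤ, |(k:ℝ)| ≤ 2^(t+1) + 1 → ‖1 - ex M (-k)‖ ≤ A * 2^t / 2^M) ∧
    (∀ k : ℤ, ‖(1 - ex M (-(k+1))) - (1 - ex M (-k))‖ ≤ A / 2^M) ∧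
    (∀ k : ℤ, ‖(1 - ex M (-(k+1))) - 2 * (1 - ex M (-k)) + (1 - ex M (-(k-1)))‖ ≤ A / 4^M) := by
  have hpi := Real.pi_pos
  have hpi2 : Real.pi ≤ 3.15 := by linarith [Real.pi_lt_d2]
  refine ⟨40, by norm_num, fun M t hMt => ?_⟩
  have hH : (0:ℝ) < 2 ^ M := by positivity
  have hh : (0:ℝ) < 2 ^ t := by positivity
  have hh1 : (1:ℝ) ≤ 2 ^ t := one_le_pow₀ (by norm_num)
  have hHh : (4:ℝ) * 2 ^ t ≤ 2 ^ M := by
    have : (2:ℝ) ^ (t + 2) ≤ 2 ^ M := pow_le_pow_right₀ (by norm_num) hMt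
    rw [pow_add] at this
    linarith
  have e4 : (4:ℝ) ^ t = 2 ^ t * 2 ^ t := by
    rw [← mul_pow]; norm_num
  have e8 : (8:ℝ) ^ t = 2 ^ t * 2 ^ t * 2 ^ t := by
    rw [← mul_pow, ← mul_pow]; norm_num
  have e4M : (4:ℝ) ^ M = 2 ^ M * 2 ^ M := by
    rw [← mul_pow]; norm_num
  have et : (2:ℝ) ^ (t + 1) = 2 * 2 ^ t := by rw [pow_succ]; ring
  -- lower bound
  have hlow : ∀ k : ℤ, (2:ℝ)^t / 2 ≤ |(k:ℝ)| → |(k:ℝ)| ≤ 2^(t+1) →
      2 * 2 ^ t / 2 ^ M ≤ ‖1 - ex M (-k)‖ := by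
    intro k h1 h2
    have h3 := symE_low M (-k) (by push_cast; rw [abs_neg]; linarith)
    push_cast at h3
    rw [abs_neg] at h3
    refine le_trans ?_ h3
    apply div_le_div_of_nonneg_right _ hH.le
    linarith
  have hinv : ∀ k : ℤ, (2:ℝ)^t / 2 ≤ |(k:ℝ)| → |(k:ℝ)| ≤ 2^(t+1) →
      ‖(1 - ex M (-k))⁻¹‖ ≤ 2 ^ M / (2 * 2 ^ t) := by
    intro k h1 h2
    rw [norm_inv]
    have h3 := hlow k h1 h2
    have h4 : (2:ℝ) ^ M / (2 * 2 ^ t) = (2 * 2 ^ t / 2 ^ M)⁻¹ := by rw [inv_div]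
    rw [h4]
    exact inv_anti₀ (by positivity) h3
  have hne : ∀ k : ℤ, (2:ℝ)^t / 2 ≤ |(k:ℝ)| → |(k:ℝ)| ≤ 2^(t+1) → 1 - ex M (-k) ≠ 0 := by
    intro k h1 h2 h3
    have h4 := hlow k h1 h2
    rw [h3, norm_zero] at h4
    have : (0:ℝ) < 2 * 2 ^ t / 2 ^ M := by positivity
    linarith
  have hs : ‖1 - ex M (-1)‖ ≤ 2 * Real.pi / 2 ^ M := by
    have := symE_up M (-1)
    simpa using this
  have hs' : ‖1 - ex M 1‖ ≤ 2 * Real.pi / 2 ^ M := by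
    have := symE_up M 1
    simpa using this
  have hss : ex M 1 * ex M (-1) = 1 := by
    rw [← symE_add, ← symE_zero M]; norm_num
  have hk1 : ∀ k : ℤ, ex M (-(k+1)) = ex M (-k) * ex M (-1) := by
    intro k
    rw [← symE_add]
    congr 1
    ring
  have hk2 : ∀ k : ℤ, ex M (-(k-1)) = ex M (-k) * ex M 1 := by
    intro k
    rw [← symE_add]
    congr 1
    ring
  have h5 : ∀ k : ℤ, ‖(1 - ex M (-(k+1))) - (1 - ex M (-k))‖ ≤ 2 * Real.pi / 2 ^ M := by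
    intro k
    have : (1 - ex M (-(k+1))) - (1 - ex M (-k)) = ex M (-k) * (1 - ex M (-1)) := by
      rw [hk1]; ring
    rw [this, norm_mul, symE_norm, one_mul]
    exact hs
  have hD : ‖(1 - ex M (-1)) * (1 - ex M 1)‖ ≤ (2 * Real.pi / 2 ^ M) * (2 * Real.pi / 2 ^ M) := by
    rw [norm_mul]
    exact mul_le_mul hs hs' (norm_nonneg _) (by positivity)
  refine ⟨fun k h1 h2 => ⟨hne k h1 h2, ?_⟩, ?_, ?_, ?_, ?_, ?_⟩
  · refine (hinv k h1 h2).trans ?_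
    rw [div_le_div_iff₀ (by positivity) (by positivity)]
    have := mul_pos hH hh
    nlinarith
  · intro k h1 h2 h3 h4
    have hb := hne k h1 h2
    have hc := hne (k+1) h3 h4
    have e1 : (1 - ex M (-(k+1)))⁻¹ - (1 - ex M (-k))⁻¹ =
        -((1 - ex M (-(k+1))) - (1 - ex M (-k))) * ((1 - ex M (-(k+1)))⁻¹ * (1 - ex M (-k))⁻¹) := by
      field_simp
      ring
    rw [e1, norm_mul, norm_neg, norm_mul]
    have i1 := hinv k h1 h2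
    have i2 := hinv (k+1) h3 h4
    calc _ ≤ (2 * Real.pi / 2 ^ M) * (2 ^ M / (2 * 2 ^ t) * (2 ^ M / (2 * 2 ^ t))) := by
          refine mul_le_mul (h5 k) (mul_le_mul i2 i1 (norm_nonneg _) (by positivity))
            (by positivity) (by positivity)
      _ = (Real.pi / 2) * 2 ^ M / 4 ^ t := by
          rw [e4]; field_simp
      _ ≤ 40 * 2 ^ M / 4 ^ t := by
          apply div_le_div_of_nonneg_right _ (by positivity)
          nlinarith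
  · intro k h1 h2 h3 h4 h6 h7
    have hb := hne k h1 h2
    have hc := hne (k+1) h3 h4
    have ha := hne (k-1) h6 h7
    have e1 : (1 - ex M (-(k+1)))⁻¹ - 2 * (1 - ex M (-k))⁻¹ + (1 - ex M (-(k-1)))⁻¹ =
        (ex M (-k) * ((1 - ex M (-1)) * (1 - ex M 1)) * ((1 - ex M (-k)) - 2)) *
        ((1 - ex M (-(k+1)))⁻¹ * (1 - ex M (-k))⁻¹ * (1 - ex M (-(k-1)))⁻¹) := by
      rw [eq_comm]
      have e2 : ex M (-k) * ((1 - ex M (-1)) * (1 - ex M 1)) * ((1 - ex M (-k)) - 2) =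
          (1 - ex M (-(k-1))) * (1 - ex M (-k)) - 2 * (1 - ex M (-(k-1))) * (1 - ex M (-(k+1)))
            + (1 - ex M (-k)) * (1 - ex M (-(k+1))) := by
        rw [hk1, hk2]
        linear_combination (- ex M (-k) - ex M (-k) ^ 2 + 2 * ex M (-k) ^ 2) * hss
      rw [e2]
      field_simp
    rw [e1, norm_mul, norm_mul, norm_mul (ex M (-k)), symE_norm, one_mul,
      norm_mul _ (1 - ex M (-(k-1)))⁻¹, norm_mul (1 - ex M (-(k+1)))⁻¹]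
    have i1 := hinv k h1 h2
    have i2 := hinv (k+1) h3 h4
    have i3 := hinv (k-1) h6 h7
    have i4 : ‖(1 - ex M (-k)) - 2‖ ≤ 4 := by
      calc ‖(1 - ex M (-k)) - 2‖ ≤ ‖(1:ℂ)‖ + ‖ex M (-k)‖ + ‖(2:ℂ)‖ :=
            (norm_sub_le _ _).trans (add_le_add_left (norm_sub_le _ _) _)
        _ = 4 := by rw [symE_norm]; norm_num
    calc _ ≤ ((2 * Real.pi / 2 ^ M) * (2 * Real.pi / 2 ^ M) * 4) *
          (2 ^ M / (2 * 2 ^ t) * (2 ^ M / (2 * 2 ^ t)) * (2 ^ M / (2 * 2 ^ t))) := by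
          gcongr
      _ = (2 * Real.pi ^ 2) * 2 ^ M / 8 ^ t := by
          rw [e8]; field_simp; ring
      _ ≤ 40 * 2 ^ M / 8 ^ t := by
          apply div_le_div_of_nonneg_right _ (by positivity)
          apply mul_le_mul_of_nonneg_right _ hH.le
          nlinarith
  · intro k hk
    have h1 := symE_up M (-k)
    push_cast at h1
    rw [abs_neg] at h1
    refine h1.trans ?_
    apply div_le_div_of_nonneg_right _ hH.le
    have h2 : |(k:ℝ)| ≤ 3 * 2 ^ t := by linarith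
    have h3 := abs_nonneg (k:ℝ)
    nlinarith
  · intro k
    refine (h5 k).trans ?_
    apply div_le_div_of_nonneg_right _ hH.le
    linarith
  · intro k
    have e1 : (1 - ex M (-(k+1))) - 2 * (1 - ex M (-k)) + (1 - ex M (-(k-1))) =
        ex M (-k) * ((1 - ex M (-1)) * (1 - ex M 1)) := by
      rw [hk1, hk2]
      linear_combination (- ex M (-k)) * hss
    rw [e1, norm_mul, symE_norm, one_mul]
    refine hD.trans ?_
    rw [e4M, div_mul_div_comm]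
    apply div_le_div_of_nonneg_right _ (by positivity)
    nlinarith

end BernT.SS2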