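import Pool.Agent.Helper643.BernT

open Finset Matrix



open Finset Matrix
namespace BernT.ST1
theorem glc_blk_mono {M q a x z : ℕ} (hq : q ≤ a) (ha : a ≤ M)
    (h : x / 2^(M-a) = z / 2^(M-a)) : x / 2^(M-q) = z / 2^(M-q) := by
  have e : M - q = (M - a) + (a - q) := by omega
  rw [e, pow_add, ← Nat.div_div_eq_div_mul, ← Nat.div_div_eq_div_mul, h]

theorem glc_haar_zero {M a : ℕ} (ha : M ≤ a) {v : Fin (2^M) → ℂ} (hv : Haar M a v) : v = 0 := by
  unfold Haar Dm at hv
  have e1 : M - (a+1) = 0 := by omega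
  have e2 : M - a = 0 := by omega
  have e3 : Em M (a+1) = Em M a := by
    unfold Em
    rw [e1, e2]
  rw [e3, sub_self, Matrix.zero_mulVec] at hv
  exact hv.symm

theorem glc_haar_mul {M a : ℕ} {v : Fin (2^M) → ℂ} (hv : Haar M a v) (χ : Fin (2^M) → ℂ)
    (hχ : ∀ x z : Fin (2^M), (x:ℕ)/2^(M-a) = (z:ℕ)/2^(M-a) → χ x = χ z) :
    Haar M a (fun x => χ x * v x) := by
  unfold Haar at hv ⊢
  funext x
  have hx : ∑ z, Dm M a x z * v z = v x := congrFun hv x
  show ∑ z, Dm M a x z * (χ z * v z) = χ x * v x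
  rw [← hx, Finset.mul_sum]
  apply Finset.sum_congr rfl
  intro z _
  by_cases h : (x:ℕ)/2^(M-a) = (z:ℕ)/2^(M-a)
  · rw [hχ x z h]
    ring
  · have h1 : ¬ (x:ℕ)/2^(M-(a+1)) = (z:ℕ)/2^(M-(a+1)) := by
      intro h2
      apply h
      rcases Nat.lt_or_ge a M with h3 | h3
      · exact glc_blk_mono (Nat.le_succ a) h3 h2
      · have e1 : M - (a+1) = 0 := by omega
        have e2 : M - a = 0 := by omega
        rw [e1] at h2
        rw [e2]
        exact h2
    have h2 : Dm M a x z = 0 := by
      show Em M (a+1) x z - Em M a x z = 0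
      simp only [Em, if_neg h, if_neg h1, sub_zero]
    rw [h2]
    ring

theorem glc_haar_norm {M a : ℕ} {v : Fin (2^M) → ℂ} (hv : Haar M a v) {x z : Fin (2^M)}
    (hxz : (x:ℕ)/2^(M-a) = (z:ℕ)/2^(M-a)) : ‖v x‖ = ‖v z‖ := by
  rcases Nat.lt_or_ge a M with ha | ha
  swap
  · rw [glc_haar_zero ha hv]
    simp
  have hM : M - a = (M - (a+1)) + 1 := by omega
  have hdiv : ∀ y : ℕ, y / 2^(M-a) = (y / 2^(M-(a+1))) / 2 := by
    intro y
    rw [hM, pow_succ, Nat.div_div_eq_div_mul]
  have hc : ((2:ℂ)^(M-(a+1)))⁻¹ = 2 * ((2:ℂ)^(M-a))⁻¹ := by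
    rw [hM, pow_succ, mul_inv]
    field_simp
  have hval : ∀ y : Fin (2^M), v y = ∑ w : Fin (2^M), (2 * ((2:ℂ)^(M-a))⁻¹ *
      (if (y:ℕ) / 2^(M-(a+1)) = (w:ℕ) / 2^(M-(a+1)) then 1 else 0) - ((2:ℂ)^(M-a))⁻¹ *
      (if (y:ℕ) / 2^(M-(a+1)) / 2 = (w:ℕ) / 2^(M-(a+1)) / 2 then 1 else 0)) * v w := by
    intro y
    have hy : ∑ w, Dm M a y w * v w = v y := congrFun hv y
    conv_lhs => rw [← hy]
    apply Finset.sum_congr rfl
    intro w _
    have e1 : Dm M a y w = Em M (a+1) y w - Em M a y w := rfl
    have e2 : Em M (a+1) y w = 2 * ((2:ℂ)^(M-a))⁻¹ *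
        (if (y:ℕ) / 2^(M-(a+1)) = (w:ℕ) / 2^(M-(a+1)) then 1 else 0) := by
      simp only [Em, hc]
      split_ifs <;> ring
    have e3 : Em M a y w = ((2:ℂ)^(M-a))⁻¹ *
        (if (y:ℕ) / 2^(M-(a+1)) / 2 = (w:ℕ) / 2^(M-(a+1)) / 2 then 1 else 0) := by
      simp only [Em, hdiv]
      split_ifs <;> ring
    rw [e1, e2, e3]
  rw [hdiv, hdiv] at hxz
  by_cases hk : (x:ℕ) / 2^(M-(a+1)) = (z:ℕ) / 2^(M-(a+1))
  · rw [hval x, hval z, hk]
  · have hsum : v x + v z = 0 := by
      rw [hval x, hval z, ← Finset.sum_add_distrib]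
      apply Finset.sum_eq_zero
      intro w _
      rw [← hxz]
      by_cases h1 : (x:ℕ) / 2^(M-(a+1)) = (w:ℕ) / 2^(M-(a+1))
      · have h2 : ¬ (z:ℕ) / 2^(M-(a+1)) = (w:ℕ) / 2^(M-(a+1)) := by
          rw [← h1]
          exact fun h => hk h.symm
        rw [if_pos h1, if_neg h2, h1, if_pos rfl]
        ring
      · by_cases h2 : (z:ℕ) / 2^(M-(a+1)) = (w:ℕ) / 2^(M-(a+1))
        · rw [if_neg h1, if_pos h2, hxz, h2, if_pos rfl]
          ring
        · have h3 : ¬ (x:ℕ) / 2^(M-(a+1)) / 2 = (w:ℕ) / 2^(M-(a+1)) / 2 := by omega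
          rw [if_neg h1, if_neg h2, if_neg h3]
          ring
    rw [eq_neg_of_add_eq_zero_left hsum, norm_neg]

theorem glc_eps {ι : Type*} (s : Finset ι) (f : ι → ℝ) :
    ∃ ε : ℝ, 0 < ε ∧ ∀ p ∈ s, 0 < f p → ε < f p := by
  classical
  induction s using Finset.induction_on with
  | empty => exact ⟨1, one_pos, by simp⟩
  | insert p s hp ih =>
    obtain ⟨ε, hε, h⟩ := ih
    by_cases hf : 0 < f p
    · refine ⟨min ε (f p / 2), lt_min hε (half_pos hf), ?_⟩
      intro q hq hq0
      rcases Finset.mem_insert.1 hq with rfl | hq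
      · exact lt_of_le_of_lt (min_le_right _ _) (half_lt_self hf)
      · exact lt_of_le_of_lt (min_le_left _ _) (h q hq hq0)
    · refine ⟨ε, hε, ?_⟩
      intro q hq hq0
      rcases Finset.mem_insert.1 hq with rfl | hq
      · exact absurd hq0 hf
      · exact h q hq hq0

theorem glc_sum {A : Type*} [AddCommMonoid A] (Nrm : A → ℝ) (h0 : Nrm 0 ≤ 0)
    (hadd : ∀ F G, Nrm (F + G) ≤ Nrm F + Nrm G) {ι : Type*} (s : Finset ι) (g : ι → A) :
    Nrm (∑ j ∈ s, g j) ≤ ∑ j ∈ s, Nrm (g j) := by
  classical
  induction s using Finset.induction_on with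
  | empty => simpa using h0
  | insert p s hp ih =>
    rw [Finset.sum_insert hp, Finset.sum_insert hp]
    exact (hadd _ _).trans (by linarith)

theorem glc_geom (t0 S : ℝ) (ht : 0 < t0) (hS : 0 ≤ S) (N : ℕ) :
    ∑ i ∈ range N, (t0 * 2^i) * (if t0 * 2^i < S then (1:ℝ) else 0) ≤ 2 * S := by
  have h1 : ∀ N, ∑ i ∈ range N, (t0 * 2^i) * (if t0 * 2^i < S then (1:ℝ) else 0) ≤ t0 * 2^N := by
    intro N
    induction N with
    | zero => simp; exact ht.le
    | succ N ih =>
      rw [Finset.sum_range_succ]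
      have h2 : (t0 * 2^N) * (if t0 * 2^N < S then (1:ℝ) else 0) ≤ t0 * 2^N := by
        have : 0 < t0 * 2^N := by positivity
        split_ifs
        · rw [mul_one]
        · rw [mul_zero]
          exact this.le
      rw [pow_succ]
      linarith
  induction N with
  | zero => simp; exact hS
  | succ N ih =>
    rw [Finset.sum_range_succ]
    by_cases h : t0 * 2^N < S
    · rw [if_pos h]
      have := h1 N
      linarith
    · rw [if_neg h]
      linarith

theorem glc_trunc (f : ℕ → ℝ) (hf : ∀ a, 0 ≤ f a) (T : ℝ) (hT : 0 ≤ T) (m : ℕ) :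
    ∑ a ∈ range m, (if ∑ b ∈ range (a+1), f b ≤ T then f a else 0) ≤ T := by
  have h1 : ∀ m, ∑ a ∈ range m, (if ∑ b ∈ range (a+1), f b ≤ T then f a else 0) ≤
      ∑ a ∈ range m, f a := by
    intro m
    apply Finset.sum_le_sum
    intro a _
    split_ifs
    · exact le_rfl
    · exact hf a
  induction m with
  | zero => simpa using hT
  | succ m ih =>
    rw [Finset.sum_range_succ]
    by_cases h : ∑ b ∈ range (m+1), f b ≤ T
    · rw [if_pos h]
      rw [Finset.sum_range_succ] at h
      have := h1 m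
      linarith
    · rw [if_neg h]
      linarith

theorem glc_card {M q c : ℕ} (hq : q ≤ M) (hc : c < 2^q) :
    2^(M-q) ≤ (univ.filter (fun x : Fin (2^M) => (x:ℕ) / 2^(M-q) = c)).card := by
  have hM : 2^M = 2^q * 2^(M-q) := by
    rw [← pow_add]
    congr 1
    omega
  have hlt : ∀ j < 2^(M-q), c * 2^(M-q) + j < 2^M := by
    intro j hj
    rw [hM]
    calc c * 2^(M-q) + j < c * 2^(M-q) + 2^(M-q) := by omega
      _ = (c+1) * 2^(M-q) := by ring
      _ ≤ 2^q * 2^(M-q) := Nat.mul_le_mul_right _ hc
  have h1 : (univ : Finset (Fin (2^(M-q)))).card = 2^(M-q) := by simp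
  refine le_trans h1.symm.le ?_
  apply Finset.card_le_card_of_injOn
    (fun j : Fin (2^(M-q)) => (⟨c * 2^(M-q) + j, hlt j j.2⟩ : Fin (2^M)))
  · intro j _
    rw [Finset.mem_coe, Finset.mem_filter]
    refine ⟨Finset.mem_univ _, ?_⟩
    show (c * 2^(M-q) + (j:ℕ)) / 2^(M-q) = c
    rw [Nat.add_comm, Nat.add_mul_div_right _ _ (by positivity), Nat.div_eq_of_lt j.2, zero_add]
  · intro j _ k _ h
    simp only [Fin.mk.injEq] at h
    exact Fin.ext (by omega)

theorem glc (M : ℕ) (Nrm : (ℕ → Fin (2^M) → ℂ) → ℝ) (h0 : Nrm 0 ≤ 0)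
    (hadd : ∀ F G, Nrm (F + G) ≤ Nrm F + Nrm G) (δ : ℝ) (hδ : 0 ≤ δ)
    (hH : ∀ q < M, ∀ c < 2^q, ∀ F : ℕ → Fin (2^M) → ℂ, (∀ a, Haar M a (F a)) →
      (∀ a < q, F a = 0) → (∀ a (x : Fin (2^M)), (x:ℕ) / 2^(M-q) ≠ c → F a x = 0) →
      Nrm F ≤ δ * Real.sqrt (2^(M-q)) * Real.sqrt (∑ a ∈ range M, ∑ x, ‖F a x‖^2)) :
    ∀ F : ℕ → Fin (2^M) → ℂ, (∀ a, Haar M a (F a)) →
      Nrm F ≤ 4 * δ * ∑ x, Real.sqrt (∑ a ∈ range M, ‖F a x‖^2) := by
  classical
  intro F hF
  set sg : ℕ → Fin (2^M) → ℝ := fun a x => ∑ b ∈ range a, ‖F b x‖^2 with hsg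
  have hsg0 : ∀ x, sg 0 x = 0 := fun x => by simp [hsg]
  have hsgs : ∀ a x, sg (a+1) x = sg a x + ‖F a x‖^2 := fun a x => by
    simp only [hsg, Finset.sum_range_succ]
  have hmono : ∀ x, Monotone (fun a => sg a x) := by
    intro x
    apply monotone_nat_of_le_succ
    intro a
    show sg a x ≤ sg (a+1) x
    rw [hsgs]
    have := sq_nonneg ‖F a x‖
    linarith
  have hnn : ∀ a x, 0 ≤ sg a x := by
    intro a x
    rw [← hsg0 x]
    exact hmono x (Nat.zero_le a)
  have hcst : ∀ a ≤ M, ∀ x z : Fin (2^M), (x:ℕ)/2^(M-a) = (z:ℕ)/2^(M-a) →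
      ∀ b ≤ a + 1, sg b x = sg b z := by
    intro a ha x z hxz b hb
    simp only [hsg]
    apply Finset.sum_congr rfl
    intro b' hb'
    rw [Finset.mem_range] at hb'
    rw [glc_haar_norm (hF b') (glc_blk_mono (by omega : b' ≤ a) ha hxz)]
  -- thresholds
  obtain ⟨t0, ht0, hmin⟩ := glc_eps (range (M+1) ×ˢ (univ : Finset (Fin (2^M))))
    (fun p => Real.sqrt (sg p.1 p.2))
  obtain ⟨N, hN⟩ := pow_unbounded_of_one_lt ((∑ x, Real.sqrt (sg M x)) / t0)
    (by norm_num : (1:ℝ) < 2)
  have hNt : ∀ x, sg M x ≤ (t0 * 2^N)^2 := by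
    intro x
    have h1 : Real.sqrt (sg M x) ≤ ∑ x, Real.sqrt (sg M x) :=
      Finset.single_le_sum (f := fun x => Real.sqrt (sg M x)) (fun _ _ => Real.sqrt_nonneg _)
        (Finset.mem_univ x)
    rw [div_lt_iff₀ ht0] at hN
    have h2 : Real.sqrt (sg M x) ≤ t0 * 2^N := by linarith
    exact (Real.sqrt_le_left (by positivity)).1 h2
  set T : ℕ → ℝ := fun i => (t0 * 2^i)^2 with hT
  have hTmono : Monotone T := by
    apply monotone_nat_of_le_succ
    intro i
    simp only [hT]
    have h1 : 0 ≤ t0 * 2^i := by positivity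
    apply pow_le_pow_left₀ h1
    rw [pow_succ]
    nlinarith
  have hTpos : ∀ i, 0 < T i := fun i => by simp only [hT]; positivity
  set G : ℕ → ℕ → ℕ → ℕ → Fin (2^M) → ℂ := fun i q c a x =>
    if ((x:ℕ) / 2^(M-q) = c ∧ sg q x ≤ T i ∧ T i < sg (q+1) x ∧ q ≤ a ∧ sg (a+1) x ≤ T (i+1))
    then F a x else 0 with hG
  -- decomposition
  have hdec : F = ∑ i ∈ range N, ∑ q ∈ range M, ∑ c ∈ range (2^q), G i q c := by
    funext a x
    simp only [Finset.sum_apply]
    by_cases hz : F a x = 0
    · rw [hz]
      symm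
      apply Finset.sum_eq_zero
      intro i _
      apply Finset.sum_eq_zero
      intro q _
      apply Finset.sum_eq_zero
      intro c _
      simp only [hG, hz, ite_self]
    · have ha : a < M := by
        by_contra h
        rw [glc_haar_zero (not_lt.1 h) (hF a)] at hz
        exact hz rfl
      have hpos : 0 < sg (a+1) x := by
        rw [hsgs]
        have h1 : 0 < ‖F a x‖ := norm_pos_iff.2 hz
        have h2 := hnn a x
        positivity
      have hT0 : T 0 < sg (a+1) x := by
        have h1 := hmin (a+1, x) (Finset.mem_product.2 ⟨Finset.mem_range.2 (by omega),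
          Finset.mem_univ x⟩) (Real.sqrt_pos.2 hpos)
        have h2 : T 0 = t0^2 := by simp [hT]
        rw [h2]
        exact (Real.lt_sqrt ht0.le).1 h1
      have hTN : sg (a+1) x ≤ T N := (hmono x (by omega : a + 1 ≤ M)).trans (hNt x)
      have hN1 : 1 ≤ N := by
        by_contra h
        have : N = 0 := by omega
        rw [this] at hTN
        linarith
      have hexi : ∃ i, sg (a+1) x ≤ T (i+1) := ⟨N - 1, by
        rw [Nat.sub_add_cancel hN1]; exact hTN⟩
      set i0 := Nat.find hexi with hi0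
      have hi0s : sg (a+1) x ≤ T (i0+1) := Nat.find_spec hexi
      have hi0N : i0 < N := by
        have : i0 ≤ N - 1 := Nat.find_min' hexi (by rw [Nat.sub_add_cancel hN1]; exact hTN)
        omega
      have hi0T : T i0 < sg (a+1) x := by
        rcases Nat.eq_zero_or_pos i0 with h | h
        · rw [h]; exact hT0
        · have := Nat.find_min hexi (m := i0 - 1) (by omega)
          rw [Nat.sub_add_cancel h, not_le] at this
          exact this
      have hexq : ∃ q, T i0 < sg (q+1) x := ⟨a, hi0T⟩
      set q0 := Nat.find hexq with hq0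
      have hq0s : T i0 < sg (q0+1) x := Nat.find_spec hexq
      have hq0a : q0 ≤ a := Nat.find_min' hexq hi0T
      have hq0T : sg q0 x ≤ T i0 := by
        rcases Nat.eq_zero_or_pos q0 with h | h
        · rw [h, hsg0]; exact (hTpos i0).le
        · have := Nat.find_min hexq (m := q0 - 1) (by omega)
          rw [Nat.sub_add_cancel h, not_lt] at this
          exact this
      have hblk : (x:ℕ) / 2^(M-q0) < 2^q0 := by
        rw [Nat.div_lt_iff_lt_mul (by positivity), ← pow_add]
        have e : q0 + (M - q0) = M := by omega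
        rw [e]
        exact x.2
      symm
      rw [Finset.sum_eq_single_of_mem i0 (Finset.mem_range.2 hi0N),
        Finset.sum_eq_single_of_mem q0 (Finset.mem_range.2 (by omega)),
        Finset.sum_eq_single_of_mem ((x:ℕ) / 2^(M-q0)) (Finset.mem_range.2 hblk)]
      · exact if_pos ⟨rfl, hq0T, hq0s, hq0a, hi0s⟩
      · intro c _ hc
        simp only [hG]
        rw [if_neg]
        rintro ⟨h1, -⟩
        exact hc h1.symm
      · intro q _ hq
        apply Finset.sum_eq_zero
        intro c _
        simp only [hG]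
        rw [if_neg]
        rintro ⟨-, h1, h2, -⟩
        rcases lt_or_gt_of_ne hq with h | h
        · have := hmono x (show q + 1 ≤ q0 from h)
          simp only at this
          linarith
        · have := hmono x (show q0 + 1 ≤ q from h)
          simp only at this
          linarith
      · intro i _ hi
        apply Finset.sum_eq_zero
        intro q _
        apply Finset.sum_eq_zero
        intro c _
        simp only [hG]
        rw [if_neg]
        rintro ⟨-, -, h2, h3, h4⟩
        rcases lt_or_gt_of_ne hi with h | h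
        · have := hTmono (show i + 1 ≤ i0 from h)
          linarith
        · have h5 := hTmono (show i0 + 1 ≤ i from h)
          have h6 := hmono x (show q + 1 ≤ a + 1 by omega)
          simp only at h6
          linarith
  -- bound for one atom
  have hatom : ∀ i, ∀ q < M, ∀ c < 2^q, Nrm (G i q c) ≤ 2 * δ * (t0 * 2^i) *
      ∑ x : Fin (2^M), (if (x:ℕ) / 2^(M-q) = c then (1:ℝ) else 0) *
        (if sg q x ≤ T i ∧ T i < sg (q+1) x then (1:ℝ) else 0) := by
    intro i q hq c hc
    have hrhs : 0 ≤ 2 * δ * (t0 * 2^i) *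
      ∑ x : Fin (2^M), (if (x:ℕ) / 2^(M-q) = c then (1:ℝ) else 0) *
        (if sg q x ≤ T i ∧ T i < sg (q+1) x then (1:ℝ) else 0) := by
      apply mul_nonneg (by positivity)
      apply Finset.sum_nonneg
      intro x _
      split_ifs <;> simp
    by_cases hex : ∃ x0 : Fin (2^M), (x0:ℕ) / 2^(M-q) = c ∧ (sg q x0 ≤ T i ∧ T i < sg (q+1) x0)
    · obtain ⟨x0, hx0, hx1, hx2⟩ := hex
      have hstop : ∀ x : Fin (2^M), (x:ℕ) / 2^(M-q) = c →
          (sg q x ≤ T i ∧ T i < sg (q+1) x) := by
        intro x hx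
        have h1 := hcst q hq.le x x0 (hx.trans hx0.symm)
        rw [h1 q (by omega), h1 (q+1) le_rfl]
        exact ⟨hx1, hx2⟩
      have hsumx : ∑ x : Fin (2^M), (if (x:ℕ) / 2^(M-q) = c then (1:ℝ) else 0) *
          (if sg q x ≤ T i ∧ T i < sg (q+1) x then (1:ℝ) else 0) =
          ((univ.filter (fun x : Fin (2^M) => (x:ℕ) / 2^(M-q) = c)).card : ℝ) := by
        rw [Finset.card_filter]
        push_cast
        apply Finset.sum_congr rfl
        intro x _
        by_cases hx : (x:ℕ) / 2^(M-q) = c
        · rw [if_pos hx, if_pos (hstop x hx), mul_one]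
        · rw [if_neg hx, zero_mul]
      rw [hsumx]
      have hcard := glc_card hq.le hc
      set B := (univ.filter (fun x : Fin (2^M) => (x:ℕ) / 2^(M-q) = c)).card with hB
      have hcardR : (2:ℝ)^(M-q) ≤ (B:ℝ) := by exact_mod_cast hcard
      have hBnn : (0:ℝ) ≤ (B:ℝ) := Nat.cast_nonneg B
      have hHaar : ∀ a, Haar M a (G i q c a) := by
        intro a
        by_cases haM : a < M
        · by_cases hqa : q ≤ a
          · have h1 := glc_haar_mul (hF a) (fun x => if ((x:ℕ) / 2^(M-q) = c ∧ sg q x ≤ T i ∧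
              T i < sg (q+1) x ∧ q ≤ a ∧ sg (a+1) x ≤ T (i+1)) then (1:ℂ) else 0) (by
                intro x z hxz
                have h2 := glc_blk_mono hqa haM.le hxz
                have h3 := hcst a haM.le x z hxz
                rw [h2, h3 q (by omega), h3 (q+1) (by omega), h3 (a+1) le_rfl])
            have h2 : G i q c a = fun x : Fin (2^M) => (if ((x:ℕ) / 2^(M-q) = c ∧ sg q x ≤ T i ∧
              T i < sg (q+1) x ∧ q ≤ a ∧ sg (a+1) x ≤ T (i+1)) then (1:ℂ) else 0) * F a x := by
              funext x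
              simp only [hG]
              split_ifs <;> simp
            rw [h2]
            exact h1
          · have h2 : G i q c a = 0 := by
              funext x
              simp only [hG]
              rw [if_neg]
              · rfl
              · rintro ⟨-, -, -, h, -⟩
                exact hqa h
            rw [h2]
            unfold Haar
            rw [Matrix.mulVec_zero]
        · have h2 : G i q c a = 0 := by
            funext x
            simp only [hG]
            rw [glc_haar_zero (not_lt.1 haM) (hF a)]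
            simp
          rw [h2]
          unfold Haar
          rw [Matrix.mulVec_zero]
      have hmain := hH q hq c hc (G i q c) hHaar
        (by
          intro a ha
          funext x
          simp only [hG]
          rw [if_neg]
          · rfl
          · rintro ⟨-, -, -, h, -⟩
            omega)
        (by
          intro a x hx
          simp only [hG]
          rw [if_neg]
          rintro ⟨h, -⟩
          exact hx h)
      refine hmain.trans ?_
      have hsq : ∑ a ∈ range M, ∑ x, ‖G i q c a x‖^2 ≤ T (i+1) * B := by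
        rw [Finset.sum_comm]
        calc ∑ x : Fin (2^M), ∑ a ∈ range M, ‖G i q c a x‖^2
            ≤ ∑ x : Fin (2^M), (if (x:ℕ) / 2^(M-q) = c then T (i+1) else 0) := by
              apply Finset.sum_le_sum
              intro x _
              by_cases hx : (x:ℕ) / 2^(M-q) = c
              · rw [if_pos hx]
                refine le_trans ?_ (glc_trunc (fun a => ‖F a x‖^2) (fun a => sq_nonneg _)
                  (T (i+1)) (hTpos _).le M)
                apply Finset.sum_le_sum
                intro a _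
                simp only [hG]
                by_cases h : sg (a+1) x ≤ T (i+1)
                · rw [if_pos (show ∑ b ∈ range (a+1), ‖F b x‖^2 ≤ T (i+1) from h)]
                  split_ifs
                  · exact le_rfl
                  · simp
                · rw [if_neg (show ¬ ∑ b ∈ range (a+1), ‖F b x‖^2 ≤ T (i+1) from h), if_neg]
                  · simp
                  · rintro ⟨-, -, -, -, h'⟩
                    exact h h'
              · rw [if_neg hx]
                apply le_of_eq
                apply Finset.sum_eq_zero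
                intro a _
                simp only [hG]
                rw [if_neg]
                · simp
                · rintro ⟨h, -⟩
                  exact hx h
          _ = T (i+1) * B := by
              rw [hB, Finset.card_filter]
              push_cast
              rw [Finset.mul_sum]
              apply Finset.sum_congr rfl
              intro x _
              split_ifs <;> simp
      have ht1 : 0 ≤ t0 * 2^(i+1) := by positivity
      calc δ * Real.sqrt (2^(M-q)) * Real.sqrt (∑ a ∈ range M, ∑ x, ‖G i q c a x‖^2)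
          ≤ δ * Real.sqrt B * Real.sqrt (T (i+1) * B) :=
            mul_le_mul (mul_le_mul_of_nonneg_left (Real.sqrt_le_sqrt hcardR) hδ)
              (Real.sqrt_le_sqrt hsq) (Real.sqrt_nonneg _)
              (mul_nonneg hδ (Real.sqrt_nonneg _))
        _ = δ * Real.sqrt B * ((t0 * 2^(i+1)) * Real.sqrt B) := by
            rw [Real.sqrt_mul (hTpos _).le]
            simp only [hT]
            rw [Real.sqrt_sq ht1]
        _ = δ * (t0 * 2^(i+1)) * (Real.sqrt B * Real.sqrt B) := by ring
        _ = 2 * δ * (t0 * 2^i) * B := by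
            rw [Real.mul_self_sqrt hBnn, pow_succ]
            ring
    · have h2 : G i q c = 0 := by
        funext a x
        simp only [hG]
        rw [if_neg]
        · rfl
        · rintro ⟨h, h', h'', -⟩
          exact hex ⟨x, h, h', h''⟩
      rw [h2]
      exact h0.trans hrhs
  -- sum up
  have hw : ∀ i x, ∑ q ∈ range M, (if sg q x ≤ T i ∧ T i < sg (q+1) x then (1:ℝ) else 0) ≤
      (if T i < sg M x then (1:ℝ) else 0) := by
    intro i x
    have h1 : ∀ q, (if sg q x ≤ T i ∧ T i < sg (q+1) x then (1:ℝ) else 0) =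
        (if T i < sg (q+1) x then (1:ℝ) else 0) - (if T i < sg q x then (1:ℝ) else 0) := by
      intro q
      have h2 := hmono x (Nat.le_succ q)
      simp only at h2
      by_cases h3 : T i < sg q x
      · have h4 : T i < sg (q+1) x := lt_of_lt_of_le h3 h2
        rw [if_pos h3, if_pos h4, if_neg (fun h => absurd h.1 (not_le.2 h3))]
        ring
      · by_cases h4 : T i < sg (q+1) x
        · rw [if_neg h3, if_pos h4, if_pos ⟨not_lt.1 h3, h4⟩]
          ring
        · rw [if_neg h3, if_neg h4, if_neg (fun h => h4 h.2)]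
          ring
    rw [Finset.sum_congr rfl (fun q _ => h1 q),
      Finset.sum_range_sub (fun q => if T i < sg q x then (1:ℝ) else 0)]
    have h3 : (0:ℝ) ≤ (if T i < sg 0 x then (1:ℝ) else 0) := by split_ifs <;> simp
    linarith
  have hblk1 : ∀ q, q < M → ∀ x : Fin (2^M),
      ∑ c ∈ range (2^q), (if (x:ℕ) / 2^(M-q) = c then (1:ℝ) else 0) = 1 := by
    intro q hq x
    rw [Finset.sum_ite_eq, if_pos]
    rw [Finset.mem_range, Nat.div_lt_iff_lt_mul (by positivity), ← pow_add]
    have e : q + (M - q) = M := by omega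
    rw [e]
    exact x.2
  calc Nrm F = Nrm (∑ i ∈ range N, ∑ q ∈ range M, ∑ c ∈ range (2^q), G i q c) := by rw [← hdec]
    _ ≤ ∑ i ∈ range N, Nrm (∑ q ∈ range M, ∑ c ∈ range (2^q), G i q c) := glc_sum Nrm h0 hadd _ _
    _ ≤ ∑ i ∈ range N, ∑ q ∈ range M, ∑ c ∈ range (2^q), Nrm (G i q c) := by
        apply Finset.sum_le_sum
        intro i _
        refine (glc_sum Nrm h0 hadd _ _).trans ?_
        apply Finset.sum_le_sum
        intro q _
        exact glc_sum Nrm h0 hadd _ _
    _ ≤ ∑ i ∈ range N, ∑ q ∈ range M, ∑ c ∈ range (2^q), (2 * δ * (t0 * 2^i) *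
      ∑ x : Fin (2^M), (if (x:ℕ) / 2^(M-q) = c then (1:ℝ) else 0) *
        (if sg q x ≤ T i ∧ T i < sg (q+1) x then (1:ℝ) else 0)) := by
        apply Finset.sum_le_sum
        intro i _
        apply Finset.sum_le_sum
        intro q hq
        apply Finset.sum_le_sum
        intro c hc
        exact hatom i q (Finset.mem_range.1 hq) c (Finset.mem_range.1 hc)
    _ = ∑ i ∈ range N, ∑ q ∈ range M, 2 * δ * (t0 * 2^i) *
      ∑ x : Fin (2^M), (if sg q x ≤ T i ∧ T i < sg (q+1) x then (1:ℝ) else 0) := by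
        apply Finset.sum_congr rfl
        intro i _
        apply Finset.sum_congr rfl
        intro q hq
        rw [← Finset.mul_sum, Finset.sum_comm]
        congr 1
        apply Finset.sum_congr rfl
        intro x _
        rw [← Finset.sum_mul, hblk1 q (Finset.mem_range.1 hq) x, one_mul]
    _ = ∑ i ∈ range N, 2 * δ * (t0 * 2^i) *
      ∑ x : Fin (2^M), ∑ q ∈ range M,
        (if sg q x ≤ T i ∧ T i < sg (q+1) x then (1:ℝ) else 0) := by
        apply Finset.sum_congr rfl
        intro i _
        rw [← Finset.mul_sum, Finset.sum_comm]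
    _ ≤ ∑ i ∈ range N, 2 * δ * (t0 * 2^i) *
      ∑ x : Fin (2^M), (if T i < sg M x then (1:ℝ) else 0) := by
        apply Finset.sum_le_sum
        intro i _
        apply mul_le_mul_of_nonneg_left _ (by positivity)
        apply Finset.sum_le_sum
        intro x _
        exact hw i x
    _ = 2 * δ * ∑ x : Fin (2^M), ∑ i ∈ range N, (t0 * 2^i) *
        (if t0 * 2^i < Real.sqrt (sg M x) then (1:ℝ) else 0) := by
        rw [Finset.sum_comm, Finset.mul_sum]
        apply Finset.sum_congr rfl
        intro i _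
        rw [mul_assoc (2 * δ), Finset.mul_sum]
        congr 1
        apply Finset.sum_congr rfl
        intro x _
        have h1 : T i < sg M x ↔ t0 * 2^i < Real.sqrt (sg M x) := by
          simp only [hT]
          exact (Real.lt_sqrt (by positivity)).symm
        simp only [h1]
    _ ≤ 2 * δ * ∑ x : Fin (2^M), 2 * Real.sqrt (sg M x) := by
        apply mul_le_mul_of_nonneg_left _ (by positivity)
        apply Finset.sum_le_sum
        intro x _
        exact glc_geom t0 _ ht0 (Real.sqrt_nonneg _) N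
    _ = 4 * δ * ∑ x, Real.sqrt (∑ a ∈ range M, ‖F a x‖^2) := by
        rw [← Finset.mul_sum]
        ring

end BernT.ST1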