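import Pool.Agent.Helper643.BernT

open Finset Matrix



open Finset Matrix
namespace BernT.ST10
theorem vker_pl (P x : ℝ) (hP : 0 < P) :
    max 0 (min 1 (2 - |x| / P)) =
      (max 0 (x + 2*P) - max 0 (x + P) - max 0 (x - P) + max 0 (x - 2*P)) / P := by
  rw [eq_div_iff hP.ne', max_mul_of_nonneg _ _ hP.le, min_mul_of_nonneg _ _ hP.le, zero_mul,
    one_mul, sub_mul, div_mul_cancel₀ _ hP.ne']
  rcases abs_cases x with ⟨h, h'⟩ | ⟨h, h'⟩ <;> rw [h] <;> simp only [max_def, min_def] <;>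
    split_ifs <;> linarith

theorem vker_delta (k m : ℤ) :
    max 0 (((k + 1 : ℤ) : ℝ) - m) - 2 * max 0 ((k : ℝ) - m) + max 0 (((k - 1 : ℤ) : ℝ) - m) =
      if k = m then 1 else 0 := by
  rcases lt_trichotomy k m with h | h | h
  · have h1 : (k:ℝ) + 1 ≤ m := by exact_mod_cast h
    rw [if_neg h.ne]; push_cast
    rw [max_eq_left (by linarith), max_eq_left (by linarith), max_eq_left (by linarith)]; ring
  · subst h; rw [if_pos rfl]; push_cast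
    rw [max_eq_right (by linarith), max_eq_left (by linarith), max_eq_left (by linarith)]; ring
  · have h1 : (m:ℝ) + 1 ≤ k := by exact_mod_cast h
    rw [if_neg h.ne']; push_cast
    rw [max_eq_right (by linarith), max_eq_right (by linarith), max_eq_right (by linarith)]; ring

theorem vker_dd (p : ℕ) (k : ℤ) : |Vs p (k+1) - 2 * Vs p k + Vs p (k-1)| ≤
    ((if k = -2^(p+1) then 1 else 0) + (if k = -2^p then 1 else 0) +
      (if k = 2^p then 1 else 0) + (if k = 2^(p+1) then 1 else 0)) / 2^p := by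
  have hP : (0:ℝ) < 2^p := by positivity
  have hV : ∀ k : ℤ, Vs p k = (max 0 ((k:ℝ) - ((-2^(p+1) : ℤ):ℝ)) - max 0 ((k:ℝ) - ((-2^p : ℤ):ℝ))
      - max 0 ((k:ℝ) - ((2^p:ℤ):ℝ)) + max 0 ((k:ℝ) - ((2^(p+1):ℤ):ℝ)))/2^p := by
    intro k
    unfold Vs
    rw [vker_pl (2^p) k hP]
    have e1 : ((-2^(p+1) : ℤ):ℝ) = -(2*2^p) := by push_cast; ring
    have e2 : ((-2^p : ℤ):ℝ) = -(2^p) := by push_cast; ring
    have e3 : ((2^p : ℤ):ℝ) = 2^p := by push_cast; ring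
    have e4 : ((2^(p+1) : ℤ):ℝ) = 2*2^p := by push_cast; ring
    rw [e1, e2, e3, e4, sub_neg_eq_add, sub_neg_eq_add]
  have d1 := vker_delta k (-2^(p+1))
  have d2 := vker_delta k (-2^p)
  have d3 := vker_delta k (2^p)
  have d4 := vker_delta k (2^(p+1))
  have e : Vs p (k+1) - 2 * Vs p k + Vs p (k-1) =
      ((if k = -2^(p+1) then 1 else 0) - (if k = -2^p then 1 else 0) -
      (if k = 2^p then 1 else 0) + (if k = 2^(p+1) then 1 else 0)) / 2^p := by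
    rw [← d1, ← d2, ← d3, ← d4, hV, hV, hV]
    ring
  rw [e, abs_div, abs_of_pos hP]
  apply div_le_div_of_nonneg_right _ hP.le
  have a1 : (0:ℝ) ≤ (if k = -2^(p+1) then 1 else 0) := by split_ifs <;> norm_num
  have a2 : (0:ℝ) ≤ (if k = -2^p then 1 else 0) := by split_ifs <;> norm_num
  have a3 : (0:ℝ) ≤ (if k = 2^p then 1 else 0) := by split_ifs <;> norm_num
  have a4 : (0:ℝ) ≤ (if k = 2^(p+1) then 1 else 0) := by split_ifs <;> norm_num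
  rw [abs_le]
  constructor <;> linarith

theorem vker_sumdd (p : ℕ) (S : Finset ℤ) :
    ∑ k ∈ S, |Vs p (k+1) - 2 * Vs p k + Vs p (k-1)| ≤ 4 / 2^p := by
  refine (sum_le_sum fun k _ => vker_dd p k).trans ?_
  rw [← sum_div]
  apply div_le_div_of_nonneg_right _ (by positivity)
  rw [sum_add_distrib, sum_add_distrib, sum_add_distrib]
  have h : ∀ m : ℤ, ∑ k ∈ S, (if k = m then (1:ℝ) else 0) ≤ 1 := by
    intro m
    rw [sum_ite_eq']
    split_ifs <;> norm_num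
  have h1 := h (-2^(p+1))
  have h2 := h (-2^p)
  have h3 := h (2^p)
  have h4 := h (2^(p+1))
  linarith

theorem vker_nonneg (p : ℕ) (k : ℤ) : 0 ≤ Vs p k := le_max_left _ _

theorem vker_le (p : ℕ) (k : ℤ) : Vs p k ≤ 1 :=
  max_le zero_le_one (min_le_left _ _)

theorem vker_supp (p : ℕ) (k : ℤ) (h : ((2^(p+1) : ℕ) : ℤ) < |k|) : Vs p k = 0 := by
  unfold Vs
  apply max_eq_left
  refine (min_le_right _ _).trans ?_
  have h1 : (2:ℝ)^(p+1) < |(k:ℝ)| := by exact_mod_cast h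
  have h2 : 2 ≤ |(k:ℝ)| / 2^p := by
    rw [le_div_iff₀ (by positivity)]
    rw [pow_succ] at h1
    linarith
  linarith

theorem vker_lip (p : ℕ) (k l : ℤ) (h : |k - l| ≤ 1) : |Vs p k - Vs p l| ≤ 1 / 2^p := by
  unfold Vs
  rw [max_comm, max_comm 0 (min 1 (2 - |(l:ℝ)| / 2^p))]
  refine (abs_max_sub_max_le_abs _ _ _).trans ?_
  refine (abs_min_sub_min_le_max _ _ _ _).trans ?_
  rw [sub_self, abs_zero]
  apply max_le (by positivity)
  have h1 : 2 - |(k:ℝ)| / 2^p - (2 - |(l:ℝ)| / 2^p) = (|(l:ℝ)| - |(k:ℝ)|) / 2^p := by ring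
  rw [h1, abs_div, abs_of_pos (by positivity : (0:ℝ) < 2^p)]
  apply div_le_div_of_nonneg_right _ (by positivity)
  refine (abs_abs_sub_abs_le_abs_sub _ _).trans ?_
  rw [abs_sub_comm]
  exact_mod_cast h

theorem vker_ex (M : ℕ) (j : ℤ) :
    ex M j = Complex.exp (Complex.I * ((2 * Real.pi / 2^M * j : ℝ) : ℂ)) := by
  unfold ex
  congr 1
  push_cast
  ring

theorem vker_ex_norm (M : ℕ) (j : ℤ) : ‖ex M j‖ = 1 := by
  rw [vker_ex, mul_comm]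
  exact Complex.norm_exp_ofReal_mul_I _

theorem vker_ex_add (M : ℕ) (i j : ℤ) : ex M (i + j) = ex M i * ex M j := by
  unfold ex
  rw [← Complex.exp_add]
  congr 1
  push_cast
  ring

theorem vker_ex_sub (M : ℕ) (j : ℤ) : ‖1 - ex M j‖ ≤ 2 * Real.pi / 2^M * |(j:ℝ)| := by
  rw [norm_sub_rev, vker_ex]
  refine Real.norm_exp_I_mul_ofReal_sub_one_le.trans ?_
  rw [Real.norm_eq_abs, abs_mul, abs_of_nonneg (by positivity)]

theorem vker_ex_two (M : ℕ) (j : ℤ) : ‖1 - ex M j‖ ≤ 2 := by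
  refine (norm_sub_le _ _).trans ?_
  rw [vker_ex_norm, norm_one]; norm_num

theorem vker_ex_diff (M : ℕ) (j : ℤ) :
    ‖(1 - ex M (j + 1)) - (1 - ex M j)‖ ≤ 2 * Real.pi / 2^M := by
  have h : (1 - ex M (j + 1)) - (1 - ex M j) = ex M j * (1 - ex M 1) := by
    rw [vker_ex_add]; ring
  rw [h, norm_mul, vker_ex_norm, one_mul]
  refine (vker_ex_sub M 1).trans ?_
  simp

theorem vker_ex_dd (M : ℕ) (j : ℤ) :
    ‖(1 - ex M (j + 1)) - 2 * (1 - ex M j) + (1 - ex M (j - 1))‖ ≤ (2 * Real.pi / 2^M)^2 := by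
  have h0 : ex M j = ex M (j - 1) * ex M 1 := by
    rw [← vker_ex_add]; congr 1; ring
  have h : (1 - ex M (j + 1)) - 2 * (1 - ex M j) + (1 - ex M (j - 1)) =
      - (ex M (j - 1) * (1 - ex M 1)^2) := by
    rw [vker_ex_add, h0]; ring
  rw [h, norm_neg, norm_mul, vker_ex_norm, one_mul, norm_pow]
  have h1 := vker_ex_sub M 1
  rw [Int.cast_one, abs_one, mul_one] at h1
  exact pow_le_pow_left₀ (norm_nonneg _) h1 2

theorem vker_alg (a b c x y z : ℂ) (P t : ℝ) (hP : 1 ≤ P) (ht : 0 ≤ t) (hb : ‖b‖ ≤ 1)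
    (hab : ‖a - b‖ ≤ 1 / P) (hcb : ‖c - b‖ ≤ 1 / P) (hxy : ‖x - y‖ ≤ t) (hzy : ‖z - y‖ ≤ t)
    (hd : ‖x - 2 * y + z‖ ≤ t^2) (hy2 : ‖y‖ ≤ 2) (hy : ‖y‖ ≤ t * (2 * P + 1))
    (hx : ‖x‖ ≤ t * (2 * P + 2)) (hz : ‖z‖ ≤ t * (2 * P + 2)) :
    ‖a * x * x - 2 * (b * y * y) + c * z * z‖ ≤ 20 * t^2 + 9 * P^2 * t^2 * ‖a - 2 * b + c‖ := by
  have hP0 : 0 < P := by linarith
  have e : a * x * x - 2 * (b * y * y) + c * z * z =
      b * (2 * y * (x - 2*y + z) + (x-y)^2 + (z-y)^2) + (a-b) * ((x-y)*(x+y)) +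
        (c-b)*((z-y)*(z+y)) + (a - 2*b + c)*(y*y) := by ring
  have t1 : ‖b * (2 * y * (x - 2*y + z) + (x-y)^2 + (z-y)^2)‖ ≤ 6 * t^2 := by
    rw [norm_mul]
    have s1 : ‖2 * y * (x - 2*y + z)‖ ≤ 4 * t^2 := by
      rw [norm_mul, norm_mul, Complex.norm_ofNat]
      have := mul_le_mul hy2 hd (norm_nonneg _) (by norm_num)
      linarith
    have s2 : ‖(x-y)^2‖ ≤ t^2 := by
      rw [norm_pow]; exact pow_le_pow_left₀ (norm_nonneg _) hxy 2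
    have s3 : ‖(z-y)^2‖ ≤ t^2 := by
      rw [norm_pow]; exact pow_le_pow_left₀ (norm_nonneg _) hzy 2
    have s4 := norm_add_le (2 * y * (x - 2*y + z) + (x-y)^2) ((z-y)^2)
    have s5 := norm_add_le (2 * y * (x - 2*y + z)) ((x-y)^2)
    have s6 : ‖2 * y * (x - 2*y + z) + (x-y)^2 + (z-y)^2‖ ≤ 6 * t^2 := by linarith
    calc ‖b‖ * ‖2 * y * (x - 2*y + z) + (x-y)^2 + (z-y)^2‖ ≤ 1 * (6 * t^2) :=
          mul_le_mul hb s6 (norm_nonneg _) zero_le_one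
      _ = 6 * t^2 := one_mul _
  have t23 : ∀ (α ξ : ℂ), ‖α‖ ≤ 1 / P → ‖ξ - y‖ ≤ t → ‖ξ‖ ≤ t * (2 * P + 2) →
      ‖α * ((ξ - y) * (ξ + y))‖ ≤ 7 * t^2 := by
    intro α ξ h1 h2 h3
    rw [norm_mul, norm_mul]
    have s1 : ‖ξ + y‖ ≤ t * (7 * P) := by
      refine (norm_add_le _ _).trans ?_
      have : t * (2 * P + 2) + t * (2 * P + 1) ≤ t * (7 * P) := by
        rw [← mul_add]; exact mul_le_mul_of_nonneg_left (by linarith) ht
      linarith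
    have s2 : ‖ξ - y‖ * ‖ξ + y‖ ≤ t * (t * (7 * P)) := mul_le_mul h2 s1 (norm_nonneg _) ht
    calc ‖α‖ * (‖ξ - y‖ * ‖ξ + y‖) ≤ 1 / P * (t * (t * (7 * P))) :=
          mul_le_mul h1 s2 (by positivity) (by positivity)
      _ = 7 * t^2 := by field_simp
  have t4 : ‖(a - 2*b + c)*(y*y)‖ ≤ 9 * P^2 * t^2 * ‖a - 2 * b + c‖ := by
    rw [norm_mul, norm_mul]
    have s1 : ‖y‖ ≤ t * (3 * P) := hy.trans (mul_le_mul_of_nonneg_left (by linarith) ht)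
    have s2 : ‖y‖ * ‖y‖ ≤ (t * (3 * P)) * (t * (3 * P)) :=
      mul_le_mul s1 s1 (norm_nonneg _) (by positivity)
    calc ‖a - 2*b + c‖ * (‖y‖ * ‖y‖) ≤ ‖a - 2*b + c‖ * ((t * (3 * P)) * (t * (3 * P))) :=
          mul_le_mul_of_nonneg_left s2 (norm_nonneg _)
      _ = _ := by ring
  rw [e]
  have u1 := norm_add_le (b * (2 * y * (x - 2*y + z) + (x-y)^2 + (z-y)^2) +
    (a-b) * ((x-y)*(x+y)) + (c-b)*((z-y)*(z+y))) ((a - 2*b + c)*(y*y))
  have u2 := norm_add_le (b * (2 * y * (x - 2*y + z) + (x-y)^2 + (z-y)^2) +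
    (a-b) * ((x-y)*(x+y))) ((c-b)*((z-y)*(z+y)))
  have u3 := norm_add_le (b * (2 * y * (x - 2*y + z) + (x-y)^2 + (z-y)^2))
    ((a-b) * ((x-y)*(x+y)))
  have u4 := t23 (a - b) x hab hxy hx
  have u5 := t23 (c - b) z hcb hzy hz
  linarith

/-- the bound on `(2π/2^M)^2` -/
theorem vker_c (M : ℕ) : (2 * Real.pi / 2^M)^2 ≤ 40 / (2^M)^2 := by
  rw [div_pow]
  apply div_le_div_of_nonneg_right _ (by positivity)
  have h1 := Real.pi_lt_d2
  have h2 := Real.pi_pos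
  nlinarith

theorem vker_S1 (M p : ℕ) :
    ∑ k ∈ Icc (-((2^(p+1) : ℕ):ℤ)) ((2^(p+1) : ℕ):ℤ),
      ‖(Vs p k : ℂ) * (1 - ex M (-k)) * (1 - ex M (-k))‖ ≤ 10000 * (2^p/2^M)^2 * 2^p := by
  have hP : (1:ℝ) ≤ 2^p := one_le_pow₀ (by norm_num)
  have hpt : ∀ k ∈ Icc (-((2^(p+1) : ℕ):ℤ)) ((2^(p+1) : ℕ):ℤ),
      ‖(Vs p k : ℂ) * (1 - ex M (-k)) * (1 - ex M (-k))‖ ≤
        4 * (2^p)^2 * (2 * Real.pi / 2^M)^2 := by
    intro k hk
    rw [mem_Icc] at hk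
    have hk1 : |(k:ℝ)| ≤ 2 * 2^p := by
      have : |k| ≤ ((2^(p+1) : ℕ):ℤ) := abs_le.2 hk
      have h2 : |(k:ℝ)| ≤ 2^(p+1) := by exact_mod_cast this
      rw [pow_succ] at h2; linarith
    have h1 : ‖1 - ex M (-k)‖ ≤ 2 * Real.pi / 2^M * (2 * 2^p) := by
      refine (vker_ex_sub M (-k)).trans ?_
      apply mul_le_mul_of_nonneg_left _ (by positivity)
      push_cast; rw [abs_neg]; exact hk1
    rw [mul_assoc, norm_mul, norm_mul]
    have h3 : ‖(Vs p k : ℂ)‖ ≤ 1 := by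
      rw [Complex.norm_real, Real.norm_eq_abs, abs_of_nonneg (vker_nonneg p k)]
      exact vker_le p k
    have h4 := mul_le_mul h1 h1 (norm_nonneg _) (by positivity)
    calc ‖(Vs p k : ℂ)‖ * (‖1 - ex M (-k)‖ * ‖1 - ex M (-k)‖)
        ≤ 1 * ((2 * Real.pi / 2^M * (2 * 2^p)) * (2 * Real.pi / 2^M * (2 * 2^p))) :=
          mul_le_mul h3 h4 (by positivity) zero_le_one
      _ = _ := by ring
  refine (sum_le_sum hpt).trans ?_
  rw [sum_const, Int.card_Icc, nsmul_eq_mul]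
  have hcard : (((((2^(p+1) : ℕ):ℤ) + 1 - -((2^(p+1) : ℕ):ℤ)).toNat : ℕ) : ℝ) ≤ 5 * 2^p := by
    have h5 : (((2^(p+1) : ℕ):ℤ) + 1 - -((2^(p+1) : ℕ):ℤ)).toNat = 2 * 2^(p+1) + 1 := by omega
    rw [h5]; push_cast; rw [pow_succ]; linarith
  have hc := vker_c M
  calc _ ≤ 5 * 2^p * (4 * (2^p)^2 * (40 / (2^M)^2)) :=
        mul_le_mul hcard (mul_le_mul_of_nonneg_left hc (by positivity)) (by positivity)
          (by positivity)
    _ = 800 * (2^p/2^M)^2 * 2^p := by ring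
    _ ≤ _ := by
        apply mul_le_mul_of_nonneg_right _ (by positivity)
        apply mul_le_mul_of_nonneg_right _ (by positivity)
        norm_num

theorem vker_S2 (M p : ℕ) :
    ∑ k ∈ Icc (-((2^(p+1) : ℕ):ℤ) - 1) (((2^(p+1) : ℕ):ℤ) + 1),
      ‖(Vs p (k+1) : ℂ) * (1 - ex M (-(k+1))) * (1 - ex M (-(k+1)))
        - 2 * ((Vs p k : ℂ) * (1 - ex M (-k)) * (1 - ex M (-k)))
        + (Vs p (k-1) : ℂ) * (1 - ex M (-(k-1))) * (1 - ex M (-(k-1)))‖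
      ≤ 10000 * (2^p/2^M)^2 / 2^p := by
  have hP : (1:ℝ) ≤ 2^p := one_le_pow₀ (by norm_num)
  obtain ⟨t, ht⟩ : ∃ t : ℝ, t = 2 * Real.pi / 2^M := ⟨_, rfl⟩
  have ht0 : 0 ≤ t := by rw [ht]; positivity
  have hpt : ∀ k ∈ Icc (-((2^(p+1) : ℕ):ℤ) - 1) (((2^(p+1) : ℕ):ℤ) + 1),
      ‖(Vs p (k+1) : ℂ) * (1 - ex M (-(k+1))) * (1 - ex M (-(k+1)))
        - 2 * ((Vs p k : ℂ) * (1 - ex M (-k)) * (1 - ex M (-k)))
        + (Vs p (k-1) : ℂ) * (1 - ex M (-(k-1))) * (1 - ex M (-(k-1)))‖ ≤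
        20 * t^2 + 9 * (2^p)^2 * t^2 * |Vs p (k+1) - 2 * Vs p k + Vs p (k-1)| := by
    intro k hk
    rw [mem_Icc] at hk
    have hk1 : |(k:ℝ)| ≤ 2 * 2^p + 1 := by
      have : |k| ≤ ((2^(p+1) : ℕ):ℤ) + 1 := abs_le.2 ⟨by linarith [hk.1], hk.2⟩
      have h2 : |(k:ℝ)| ≤ 2^(p+1) + 1 := by exact_mod_cast this
      rw [pow_succ] at h2; linarith
    have hex : ∀ l : ℤ, ‖1 - ex M (-l)‖ ≤ t * |(l:ℝ)| := by
      intro l
      have := vker_ex_sub M (-l)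
      push_cast at this
      rw [abs_neg] at this
      rw [ht]; exact this
    have hnr : ‖(Vs p (k+1) : ℂ) - 2 * (Vs p k : ℂ) + (Vs p (k-1) : ℂ)‖ =
        |Vs p (k+1) - 2 * Vs p k + Vs p (k-1)| := by
      rw [← Real.norm_eq_abs, ← Complex.norm_real]
      push_cast; rfl
    rw [← hnr]
    refine vker_alg _ _ _ _ _ _ (2^p) t hP ht0 ?_ ?_ ?_ ?_ ?_ ?_ ?_ ?_ ?_ ?_
    · rw [Complex.norm_real, Real.norm_eq_abs, abs_of_nonneg (vker_nonneg p k)]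
      exact vker_le p k
    · rw [← Complex.ofReal_sub, Complex.norm_real, Real.norm_eq_abs]
      exact vker_lip p _ _ (by simp)
    · rw [← Complex.ofReal_sub, Complex.norm_real, Real.norm_eq_abs]
      exact vker_lip p _ _ (by simp)
    · have := vker_ex_diff M (-(k+1))
      rw [show -(k+1) + 1 = -k by ring, norm_sub_rev] at this
      rw [ht]; exact this
    · have := vker_ex_diff M (-k)
      rw [show -k + 1 = -(k-1) by ring] at this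
      rw [ht]; exact this
    · have := vker_ex_dd M (-k)
      rw [show -k + 1 = -(k-1) by ring, show -k - 1 = -(k+1) by ring] at this
      rw [ht]
      refine le_trans (le_of_eq ?_) this
      congr 1; ring
    · exact vker_ex_two M _
    · exact (hex k).trans (mul_le_mul_of_nonneg_left hk1 ht0)
    · refine (hex (k+1)).trans (mul_le_mul_of_nonneg_left ?_ ht0)
      push_cast
      have := abs_add_le (k:ℝ) 1
      rw [abs_one] at this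
      linarith
    · refine (hex (k-1)).trans (mul_le_mul_of_nonneg_left ?_ ht0)
      push_cast
      have := abs_sub (k:ℝ) 1
      rw [abs_one] at this
      linarith
  refine (sum_le_sum hpt).trans ?_
  rw [sum_add_distrib, sum_const, Int.card_Icc, nsmul_eq_mul, ← mul_sum]
  have hcard : (((((2^(p+1) : ℕ):ℤ) + 1 + 1 - (-((2^(p+1) : ℕ):ℤ) - 1)).toNat : ℕ) : ℝ)
      ≤ 7 * 2^p := by
    have h5 : (((2^(p+1) : ℕ):ℤ) + 1 + 1 - (-((2^(p+1) : ℕ):ℤ) - 1)).toNat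
        = 2 * 2^(p+1) + 3 := by omega
    rw [h5]; push_cast; rw [pow_succ]; linarith
  have hc := vker_c M
  rw [← ht] at hc
  have hs := vker_sumdd p (Icc (-((2^(p+1) : ℕ):ℤ) - 1) (((2^(p+1) : ℕ):ℤ) + 1))
  have hs1 : 9 * (2^p)^2 * t^2 * ∑ k ∈ Icc (-((2^(p+1) : ℕ):ℤ) - 1) (((2^(p+1) : ℕ):ℤ) + 1),
      |Vs p (k+1) - 2 * Vs p k + Vs p (k-1)| ≤ 36 * 2^p * t^2 := by
    calc _ ≤ 9 * (2^p)^2 * t^2 * (4 / 2^p) := mul_le_mul_of_nonneg_left hs (by positivity)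
      _ = 36 * 2^p * t^2 := by field_simp; ring
  have hs2 : (((((2^(p+1) : ℕ):ℤ) + 1 + 1 - (-((2^(p+1) : ℕ):ℤ) - 1)).toNat : ℕ) : ℝ)
      * (20 * t^2) ≤ 140 * 2^p * t^2 := by
    calc _ ≤ (7 * 2^p) * (20 * t^2) := mul_le_mul_of_nonneg_right hcard (by positivity)
      _ = 140 * 2^p * t^2 := by ring
  have hs3 : 176 * 2^p * t^2 ≤ 10000 * (2^p/2^M)^2 / 2^p := by
    calc 176 * 2^p * t^2 ≤ 176 * 2^p * (40 / (2^M)^2) :=
          mul_le_mul_of_nonneg_left hc (by positivity)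
      _ = 7040 * (2^p/2^M)^2 / 2^p := by field_simp; ring
      _ ≤ _ := by
        apply div_le_div_of_nonneg_right _ (by positivity)
        apply mul_le_mul_of_nonneg_right _ (by positivity)
        norm_num
  linarith

theorem vker_wt (M p : ℕ) (j : ℤ) : 0 ≤ wt M p j := by
  unfold wt; positivity

theorem vker
    (kerBound : ∀ (M B p : ℕ) (μ : ℤ → ℂ) (A : ℝ), 0 ≤ A →
      (∀ k : ℤ, (B:ℤ) < |k| → μ k = 0) →
      (∑ k ∈ Icc (-(B:ℤ)) (B:ℤ), ‖μ k‖ ≤ A * 2^p) →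
      (∑ k ∈ Icc (-(B:ℤ)-1) ((B:ℤ)+1), ‖μ (k+1) - 2 * μ k + μ (k-1)‖ ≤ A / 2^p) →
      (∀ j, ‖ker M B μ j‖ ≤ 3 * A / 2^M * wt M p j) ∧
      (∀ j, ker M B μ (j + 2^M) = ker M B μ j) ∧
      (∀ j, ker M B μ j - ker M B μ (j-1) = ker M B (fun k => μ k * (1 - ex M (-k))) j)) :
    ∃ A : ℝ, 0 < A ∧ ∀ M p : ℕ,
      (∀ j, ‖ker M (2^(p+1)) (fun k => (Vs p k : ℂ)) j‖ ≤ A / 2^M * wt M p j) ∧
      (∀ j, ‖ker M (2^(p+1)) (fun k => (Vs p k : ℂ)) j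
          - 2 * ker M (2^(p+1)) (fun k => (Vs p k : ℂ)) (j-1)
          + ker M (2^(p+1)) (fun k => (Vs p k : ℂ)) (j-2)‖ ≤
            A * (2^p/2^M)^2 / 2^M * wt M p j) := by
  refine ⟨30000, by norm_num, fun M p => ?_⟩
  have hP : (1:ℝ) ≤ 2^p := one_le_pow₀ (by norm_num)
  have hsupp : ∀ k : ℤ, (((2^(p+1) : ℕ)) : ℤ) < |k| → (Vs p k : ℂ) = 0 := by
    intro k hk
    rw [vker_supp p k hk, Complex.ofReal_zero]
  have h1 := kerBound M (2^(p+1)) p (fun k => (Vs p k : ℂ)) 8 (by norm_num) hsupp (by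
    have hpt : ∀ k ∈ Icc (-((2^(p+1) : ℕ):ℤ)) ((2^(p+1) : ℕ):ℤ), ‖(Vs p k : ℂ)‖ ≤ 1 := by
      intro k _
      rw [Complex.norm_real, Real.norm_eq_abs, abs_of_nonneg (vker_nonneg p k)]
      exact vker_le p k
    refine (sum_le_sum hpt).trans ?_
    rw [sum_const, Int.card_Icc, nsmul_eq_mul]
    have h5 : (((2^(p+1) : ℕ):ℤ) + 1 - -((2^(p+1) : ℕ):ℤ)).toNat = 2 * 2^(p+1) + 1 := by omega
    rw [h5]; push_cast; rw [pow_succ]; linarith) (by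
    have hpt : ∀ k ∈ Icc (-((2^(p+1) : ℕ):ℤ) - 1) (((2^(p+1) : ℕ):ℤ) + 1),
        ‖(Vs p (k+1) : ℂ) - 2 * (Vs p k : ℂ) + (Vs p (k-1) : ℂ)‖ =
        |Vs p (k+1) - 2 * Vs p k + Vs p (k-1)| := by
      intro k _
      rw [← Real.norm_eq_abs, ← Complex.norm_real]
      push_cast; rfl
    rw [sum_congr rfl hpt]
    refine (vker_sumdd p _).trans ?_
    apply div_le_div_of_nonneg_right _ (by positivity)
    norm_num)
  obtain ⟨h1a, h1b, h1c⟩ := h1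
  have hw := vker_wt M p
  refine ⟨fun j => (h1a j).trans ?_, fun j => ?_⟩
  · apply mul_le_mul_of_nonneg_right _ (hw j)
    apply div_le_div_of_nonneg_right _ (by positivity)
    norm_num
  -- third item for `μ1`
  obtain ⟨Q1, hQ1⟩ : ∃ Q1 : ℝ, Q1 = ∑ k ∈ Icc (-((2^(p+1) : ℕ):ℤ)) ((2^(p+1) : ℕ):ℤ),
      ‖(Vs p k : ℂ) * (1 - ex M (-k))‖ := ⟨_, rfl⟩
  obtain ⟨Q2, hQ2⟩ : ∃ Q2 : ℝ, Q2 = ∑ k ∈ Icc (-((2^(p+1) : ℕ):ℤ) - 1) (((2^(p+1) : ℕ):ℤ) + 1),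
      ‖(Vs p (k+1) : ℂ) * (1 - ex M (-(k+1))) - 2 * ((Vs p k : ℂ) * (1 - ex M (-k)))
        + (Vs p (k-1) : ℂ) * (1 - ex M (-(k-1)))‖ := ⟨_, rfl⟩
  have hQ10 : 0 ≤ Q1 := by rw [hQ1]; exact sum_nonneg fun _ _ => norm_nonneg _
  have hQ20 : 0 ≤ Q2 := by rw [hQ2]; exact sum_nonneg fun _ _ => norm_nonneg _
  have h2 := kerBound M (2^(p+1)) p (fun k => (Vs p k : ℂ) * (1 - ex M (-k))) (Q1 + 2^p * Q2)
    (by positivity) (fun k hk => by rw [hsupp k hk, zero_mul]) (by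
      rw [← hQ1]
      have : 0 ≤ 2^p * Q2 * 2^p := by positivity
      nlinarith) (by
      rw [← hQ2, le_div_iff₀ (by positivity)]
      linarith)
  have h3 := kerBound M (2^(p+1)) p
    (fun k => (Vs p k : ℂ) * (1 - ex M (-k)) * (1 - ex M (-k))) (10000 * (2^p/2^M)^2)
    (by positivity) (fun k hk => by rw [hsupp k hk, zero_mul, zero_mul])
    (vker_S1 M p) (vker_S2 M p)
  have e1 := h1c j
  have e2 := h1c (j - 1)
  have e3 := h2.2.2 j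
  rw [show j - 1 - 1 = j - 2 by ring] at e2
  have e4 : ker M (2^(p+1)) (fun k => (Vs p k : ℂ)) j
      - 2 * ker M (2^(p+1)) (fun k => (Vs p k : ℂ)) (j-1)
      + ker M (2^(p+1)) (fun k => (Vs p k : ℂ)) (j-2) =
      ker M (2^(p+1)) (fun k => (Vs p k : ℂ) * (1 - ex M (-k)) * (1 - ex M (-k))) j := by
    rw [← e3, ← e1, ← e2]; ring
  rw [e4]
  refine (h3.1 j).trans (le_of_eq ?_)
  ring

end BernT.ST10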