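import Pool.Agent.Helper643.BernT

open Finset Matrix



open Finset Matrix
namespace BernT.ST12
theorem nearOrth_pyth {X : Type*} [Fintype X] (S : Finset ℕ) (g : ℕ → X → ℂ)
    (h : ∀ t ∈ S, ∀ s ∈ S, t ≠ s → ∑ x, g t x * (starRingEnd ℂ) (g s x) = 0) :
    ∑ x, ‖∑ t ∈ S, g t x‖^2 = ∑ t ∈ S, ∑ x, ‖g t x‖^2 := by
  have key : ((∑ x, ‖∑ t ∈ S, g t x‖^2 : ℝ) : ℂ) = ((∑ t ∈ S, ∑ x, ‖g t x‖^2 : ℝ) : ℂ) := by
    push_cast
    simp_rw [← Complex.mul_conj']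
    calc ∑ x, (∑ t ∈ S, g t x) * (starRingEnd ℂ) (∑ t ∈ S, g t x) =
          ∑ x, ∑ t ∈ S, ∑ s ∈ S, g t x * (starRingEnd ℂ) (g s x) := by
          apply Finset.sum_congr rfl
          intro x _
          rw [map_sum, Finset.sum_mul_sum]
      _ = ∑ t ∈ S, ∑ s ∈ S, ∑ x, g t x * (starRingEnd ℂ) (g s x) := by
          rw [Finset.sum_comm]
          apply Finset.sum_congr rfl
          intro t _
          rw [Finset.sum_comm]
      _ = ∑ t ∈ S, ∑ x, g t x * (starRingEnd ℂ) (g t x) := by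
          apply Finset.sum_congr rfl
          intro t ht
          rw [Finset.sum_eq_single t]
          · intro s hs hst
            exact h t ht s hs (Ne.symm hst)
          · intro h'
            exact absurd ht h'
  exact_mod_cast key

theorem nearOrth_ex_add (M : ℕ) (a b : ℤ) : ex M (a + b) = ex M a * ex M b := by
  unfold ex
  rw [← Complex.exp_add]
  congr 1
  push_cast
  ring

theorem nearOrth_ex_conj (M : ℕ) (a : ℤ) : (starRingEnd ℂ) (ex M a) = ex M (-a) := by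
  unfold ex
  rw [← Complex.exp_conj]
  congr 1
  rw [map_div₀, map_mul, map_mul, map_mul, Complex.conj_I, Complex.conj_ofReal, map_pow]
  have h2 : (starRingEnd ℂ) (2 : ℂ) = 2 := Complex.conj_ofNat 2
  rw [h2]
  have h3 : (starRingEnd ℂ) (a : ℂ) = a := by
    have := Complex.conj_ofReal (a : ℝ)
    simpa using this
  rw [h3]
  push_cast
  ring

theorem nearOrth_ex_pow (M : ℕ) (j : ℤ) (x : ℕ) : ex M (j * x) = ex M j ^ x := by
  unfold ex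
  rw [← Complex.exp_nat_mul]
  congr 1
  push_cast
  ring

theorem nearOrth_ex_N (M : ℕ) (j : ℤ) : ex M j ^ (2 ^ M) = 1 := by
  rw [← nearOrth_ex_pow]
  unfold ex
  rw [Complex.exp_eq_one_iff]
  refine ⟨j, ?_⟩
  have h : (2 : ℂ) ^ M ≠ 0 := pow_ne_zero _ two_ne_zero
  push_cast
  field_simp

theorem nearOrth_ex_ne (M : ℕ) (j : ℤ) (hj : ¬ ((2 : ℤ) ^ M ∣ j)) : ex M j ≠ 1 := by
  intro h
  unfold ex at h
  rw [Complex.exp_eq_one_iff] at h
  obtain ⟨n, hn⟩ := h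
  apply hj
  refine ⟨n, ?_⟩
  have h2 : (2 : ℂ) ^ M ≠ 0 := pow_ne_zero _ two_ne_zero
  have hpi : (2 * Real.pi * Complex.I : ℂ) ≠ 0 := Complex.two_pi_I_ne_zero
  have h3 : (2 * Real.pi * Complex.I : ℂ) * (j : ℂ) =
      (2 * Real.pi * Complex.I : ℂ) * ((2 : ℂ) ^ M * n) := by
    rw [div_eq_iff h2] at hn
    rw [hn]
    ring
  have h4 := mul_left_cancel₀ hpi h3
  exact_mod_cast h4

theorem nearOrth_sum (M : ℕ) (j : ℤ) (hj : ¬ ((2 : ℤ) ^ M ∣ j)) :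
    ∑ x : Fin (2 ^ M), ex M (j * ((x : ℕ) : ℤ)) = 0 := by
  have h1 : ∑ x : Fin (2 ^ M), ex M (j * ((x : ℕ) : ℤ)) =
      ∑ x ∈ Finset.range (2 ^ M), ex M j ^ x := by
    rw [Finset.sum_range]
    apply Finset.sum_congr rfl
    intro x _
    rw [nearOrth_ex_pow]
  rw [h1]
  have h2 := mul_neg_geom_sum (ex M j) (2 ^ M)
  rw [nearOrth_ex_N, sub_self] at h2
  rcases mul_eq_zero.1 h2 with h3 | h3
  · exact absurd (sub_eq_zero.1 h3).symm (nearOrth_ex_ne M j hj)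
  · exact h3

theorem nearOrth_expand (M B : ℕ) (μ : ℤ → ℂ) (v : Fin (2 ^ M) → ℂ) (x : Fin (2 ^ M)) :
    (Cm M (ker M B μ) *ᵥ v) x = ∑ k ∈ Icc (-(B : ℤ)) (B : ℤ),
      (μ k * (((2 : ℂ) ^ M)⁻¹ * ∑ z : Fin (2 ^ M), ex M (-(k * ((z : ℕ) : ℤ))) * v z)) *
        ex M (k * ((x : ℕ) : ℤ)) := by
  unfold Matrix.mulVec dotProduct Cm ker
  have h1 : ∀ z : Fin (2 ^ M), (((2 : ℂ) ^ M)⁻¹ * ∑ k ∈ Icc (-(B : ℤ)) (B : ℤ),
      μ k * ex M (k * (((x : ℕ) : ℤ) - ((z : ℕ) : ℤ)))) * v z =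
      ∑ k ∈ Icc (-(B : ℤ)) (B : ℤ), (μ k * (((2 : ℂ) ^ M)⁻¹ * (ex M (-(k * ((z : ℕ) : ℤ))) * v z))) *
        ex M (k * ((x : ℕ) : ℤ)) := by
    intro z
    rw [Finset.mul_sum, Finset.sum_mul]
    apply Finset.sum_congr rfl
    intro k _
    rw [show k * (((x : ℕ) : ℤ) - ((z : ℕ) : ℤ)) = k * ((x : ℕ) : ℤ) + -(k * ((z : ℕ) : ℤ)) by ring,
      nearOrth_ex_add]
    ring
  rw [Finset.sum_congr rfl (fun z _ => h1 z), Finset.sum_comm]
  apply Finset.sum_congr rfl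
  intro k _
  rw [Finset.mul_sum, Finset.mul_sum, Finset.sum_mul]

theorem nearOrth_orth (M B B' : ℕ) (hB : 2 * B < 2 ^ M) (hB' : 2 * B' < 2 ^ M) (μ μ' : ℤ → ℂ)
    (hμ : ∀ k, μ k = 0 ∨ μ' k = 0) (v v' : Fin (2 ^ M) → ℂ) :
    ∑ x, (Cm M (ker M B μ) *ᵥ v) x * (starRingEnd ℂ) ((Cm M (ker M B' μ') *ᵥ v') x) = 0 := by
  obtain ⟨c, hc⟩ : ∃ c : ℤ → ℂ, c = fun k =>
    (μ k * (((2 : ℂ) ^ M)⁻¹ * ∑ z : Fin (2 ^ M), ex M (-(k * ((z : ℕ) : ℤ))) * v z)) := ⟨_, rfl⟩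
  obtain ⟨c', hc'⟩ : ∃ c' : ℤ → ℂ, c' = fun k =>
    (μ' k * (((2 : ℂ) ^ M)⁻¹ * ∑ z : Fin (2 ^ M), ex M (-(k * ((z : ℕ) : ℤ))) * v' z)) := ⟨_, rfl⟩
  have h1 : ∀ x, (Cm M (ker M B μ) *ᵥ v) x = ∑ k ∈ Icc (-(B : ℤ)) (B : ℤ),
      c k * ex M (k * ((x : ℕ) : ℤ)) := by
    intro x
    rw [nearOrth_expand, hc]
  have h2 : ∀ x, (Cm M (ker M B' μ') *ᵥ v') x = ∑ k ∈ Icc (-(B' : ℤ)) (B' : ℤ),
      c' k * ex M (k * ((x : ℕ) : ℤ)) := by
    intro x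
    rw [nearOrth_expand, hc']
  have hcc : ∀ k, c k * (starRingEnd ℂ) (c' k) = 0 := by
    intro k
    rcases hμ k with h | h
    · rw [hc]
      simp only [h, zero_mul]
    · rw [hc']
      simp only [h, zero_mul, map_zero, mul_zero]
  have h3 : ∀ x : Fin (2 ^ M), (Cm M (ker M B μ) *ᵥ v) x *
      (starRingEnd ℂ) ((Cm M (ker M B' μ') *ᵥ v') x) =
      ∑ k ∈ Icc (-(B : ℤ)) (B : ℤ), ∑ k' ∈ Icc (-(B' : ℤ)) (B' : ℤ),
        (c k * (starRingEnd ℂ) (c' k')) * ex M ((k - k') * ((x : ℕ) : ℤ)) := by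
    intro x
    rw [h1, h2, map_sum, Finset.sum_mul_sum]
    apply Finset.sum_congr rfl
    intro k _
    apply Finset.sum_congr rfl
    intro k' _
    rw [map_mul, nearOrth_ex_conj, show (k - k') * ((x : ℕ) : ℤ) =
      k * ((x : ℕ) : ℤ) + -(k' * ((x : ℕ) : ℤ)) by ring, nearOrth_ex_add]
    ring
  rw [Finset.sum_congr rfl (fun x _ => h3 x), Finset.sum_comm]
  apply Finset.sum_eq_zero
  intro k hk
  rw [Finset.sum_comm]
  apply Finset.sum_eq_zero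
  intro k' hk'
  rw [← Finset.mul_sum]
  by_cases hkk : k = k'
  · subst hkk
    rw [hcc, zero_mul]
  · rw [nearOrth_sum, mul_zero]
    intro hdvd
    rw [Finset.mem_Icc] at hk hk'
    have h4 : (2 : ℤ) * B < 2 ^ M := by exact_mod_cast hB
    have h5 : (2 : ℤ) * B' < 2 ^ M := by exact_mod_cast hB'
    have h6 : |k - k'| < 2 ^ M := by
      rw [abs_lt]
      constructor <;> linarith [hk.1, hk.2, hk'.1, hk'.2]
    exact hkk (sub_eq_zero.1 (Int.eq_zero_of_abs_lt_dvd hdvd h6))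

/-- convolutions with kernels of almost disjoint frequency supports are almost orthogonal. -/
theorem nearOrth (M n : ℕ) (B : ℕ → ℕ) (hB : ∀ t < n, 2 * B t < 2^M) (μ : ℕ → ℤ → ℂ)
    (hμ : ∀ t s : ℕ, t + 2 ≤ s → ∀ k, μ t k = 0 ∨ μ s k = 0)
    (v : ℕ → Fin (2^M) → ℂ) :
    ∑ x, ‖∑ t ∈ range n, (Cm M (ker M (B t) (μ t)) *ᵥ v t) x‖^2 ≤
      2 * ∑ t ∈ range n, ∑ x, ‖(Cm M (ker M (B t) (μ t)) *ᵥ v t) x‖^2 := by
  classical
  obtain ⟨g, hg⟩ : ∃ g : ℕ → Fin (2 ^ M) → ℂ, g = fun t => (Cm M (ker M (B t) (μ t)) *ᵥ v t) :=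
    ⟨_, rfl⟩
  have hgx : ∀ t x, (Cm M (ker M (B t) (μ t)) *ᵥ v t) x = g t x := by
    intro t x
    rw [hg]
  simp_rw [hgx]
  have horth : ∀ t < n, ∀ s < n, t ≠ s → t % 2 = s % 2 →
      ∑ x, g t x * (starRingEnd ℂ) (g s x) = 0 := by
    intro t ht s hs hts hpar
    rw [hg]
    apply nearOrth_orth M _ _ (hB t ht) (hB s hs)
    intro k
    rcases Nat.lt_or_gt_of_ne hts with h | h
    · exact hμ t s (by omega) k
    · exact (hμ s t (by omega) k).symm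
  have hsplit : ∀ F : ℕ → ℂ, ∑ t ∈ range n, F t =
      ∑ t ∈ (range n).filter (fun t => t % 2 = 0), F t +
      ∑ t ∈ (range n).filter (fun t => ¬ t % 2 = 0), F t := fun F =>
    (Finset.sum_filter_add_sum_filter_not _ _ _).symm
  have hsplit' : ∀ F : ℕ → ℝ, ∑ t ∈ range n, F t =
      ∑ t ∈ (range n).filter (fun t => t % 2 = 0), F t +
      ∑ t ∈ (range n).filter (fun t => ¬ t % 2 = 0), F t := fun F =>
    (Finset.sum_filter_add_sum_filter_not _ _ _).symm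
  have hE := nearOrth_pyth ((range n).filter (fun t => t % 2 = 0)) g (by
    intro t ht s hs hts
    rw [Finset.mem_filter, Finset.mem_range] at ht hs
    exact horth t ht.1 s hs.1 hts (by omega))
  have hO := nearOrth_pyth ((range n).filter (fun t => ¬ t % 2 = 0)) g (by
    intro t ht s hs hts
    rw [Finset.mem_filter, Finset.mem_range] at ht hs
    exact horth t ht.1 s hs.1 hts (by omega))
  rw [hsplit' (fun t => ∑ x, ‖g t x‖^2), ← hE, ← hO, ← Finset.sum_add_distrib, Finset.mul_sum]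
  apply Finset.sum_le_sum
  intro x _
  rw [hsplit (fun t => g t x)]
  have h1 := norm_add_le (∑ t ∈ (range n).filter (fun t => t % 2 = 0), g t x)
    (∑ t ∈ (range n).filter (fun t => ¬ t % 2 = 0), g t x)
  have h2 := norm_nonneg (∑ t ∈ (range n).filter (fun t => t % 2 = 0), g t x +
    ∑ t ∈ (range n).filter (fun t => ¬ t % 2 = 0), g t x)
  nlinarith [sq_nonneg (‖∑ t ∈ (range n).filter (fun t => t % 2 = 0), g t x‖ -
    ‖∑ t ∈ (range n).filter (fun t => ¬ t % 2 = 0), g t x‖)]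

end BernT.ST12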