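import Pool.Agent.Helper643.BernT

open Finset Matrix



open Finset Matrix
namespace BernT.ST13a
theorem vfam_L2mono {M a : ℕ} {T : Matrix (Fin (2^M)) (Fin (2^M)) ℂ} {δ₁ δ₂ : ℝ} (h1 : 0 ≤ δ₁)
    (h2 : δ₁ ≤ δ₂) (h : L2b M a T δ₁) : L2b M a T δ₂ := by
  intro v hv
  refine (h v hv).trans ?_
  apply mul_le_mul_of_nonneg_right (pow_le_pow_left₀ h1 h2 2)
  exact Finset.sum_nonneg (fun x _ => by positivity)

theorem vfam_Farmono {M a : ℕ} {T : Matrix (Fin (2^M)) (Fin (2^M)) ℂ} {δ₁ δ₂ : ℝ}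
    (h2 : δ₁ ≤ δ₂) (h : Far M a T δ₁) : Far M a T δ₂ := by
  intro q hq c hc v hv hs
  refine (h q hq c hc v hv hs).trans ?_
  apply mul_le_mul_of_nonneg_right
  · exact mul_le_mul_of_nonneg_right h2 (by positivity)
  · exact Finset.sum_nonneg (fun x _ => norm_nonneg _)

theorem vfam_zero (M a : ℕ) (δ : ℝ) (hδ : 0 ≤ δ) :
    L2b M a (0 : Matrix (Fin (2^M)) (Fin (2^M)) ℂ) δ ∧
    Far M a (0 : Matrix (Fin (2^M)) (Fin (2^M)) ℂ) δ := by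
  constructor
  · intro v hv
    have h1 : ∑ x, ‖((0 : Matrix (Fin (2^M)) (Fin (2^M)) ℂ) *ᵥ v) x‖^2 = 0 := by
      apply Finset.sum_eq_zero
      intro x _
      rw [Matrix.zero_mulVec, Pi.zero_apply, norm_zero]
      norm_num
    rw [h1]
    exact mul_nonneg (sq_nonneg _) (Finset.sum_nonneg (fun x _ => by positivity))
  · intro q hq c hc v hv hs
    refine le_trans (le_of_eq ?_) (mul_nonneg (mul_nonneg hδ (by positivity))
      (Finset.sum_nonneg (fun x _ => norm_nonneg _)))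
    apply Finset.sum_eq_zero
    intro x _
    rw [Matrix.zero_mulVec, Pi.zero_apply, norm_zero]

theorem vfam_per (M B : ℕ) (μ : ℤ → ℂ) (j : ℤ) : ker M B μ (j + 2^M) = ker M B μ j := by
  unfold ker
  congr 1
  apply Finset.sum_congr rfl
  intro k _
  congr 1
  unfold ex
  have h2 : ((2:ℂ)^M) ≠ 0 := pow_ne_zero _ (by norm_num)
  have h1 : 2 * (Real.pi : ℂ) * Complex.I * ((k * (j + 2^M) : ℤ) : ℂ) / (2:ℂ)^M
      = 2 * (Real.pi : ℂ) * Complex.I * ((k * j : ℤ) : ℂ) / (2:ℂ)^M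
        + (k : ℂ) * (2 * (Real.pi : ℂ) * Complex.I) := by
    push_cast
    field_simp
  rw [h1, Complex.exp_add, Complex.exp_int_mul_two_pi_mul_I, mul_one]

theorem vfam_Dm (M a : ℕ) (h : M ≤ a) : Dm M a = 0 := by
  have h1 : M - (a + 1) = 0 := by omega
  have h2 : M - a = 0 := by omega
  have h3 : Em M (a + 1) = Em M a := by
    funext x z
    unfold Em
    rw [h1, h2]
  unfold Dm
  rw [h3, sub_self]

theorem vfam
    (formA : ∃ C : ℝ, 0 < C ∧ ∀ (M a p : ℕ) (ε : ℝ), p ≤ a → a < M → 0 ≤ ε →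
      ∀ T : Matrix (Fin (2^M)) (Fin (2^M)) ℂ,
      (∀ v, Haar M a v → ∀ x, ‖(T *ᵥ v) x‖ ≤ ε * (1/2)^(a-p) / 2^M *
        ∑ z : Fin (2^M), wt M p ((x:ℤ) - (z:ℤ)) * ‖v z‖) →
      L2b M a T (C * ε * (2:ℝ)^(-(((a:ℝ) - p)/2))) ∧
      Far M a T (C * ε * (2:ℝ)^(-(((a:ℝ) - p)/2))))
    (formB : ∃ C : ℝ, 0 < C ∧ ∀ (M a p : ℕ) (ε : ℝ), a < p → p ≤ M → 0 ≤ ε →
      ∀ T : Matrix (Fin (2^M)) (Fin (2^M)) ℂ,
      (∀ v, Haar M a v → ∀ x : Fin (2^M), ‖(T *ᵥ v) x‖ ≤ ε *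
        ∑ z : Fin (2^M), ‖v z - (Sh M *ᵥ v) z‖ /
          (1 + 2^p * |Real.sin (Real.pi * (((x:ℤ) - (z:ℤ) : ℤ) : ℝ) / 2^M)|)^2) →
      L2b M a T (C * ε * (2:ℝ)^(-(((p:ℝ) - a)/2))) ∧
      Far M a T (C * ε * (2:ℝ)^(-(((p:ℝ) - a)/2))))
    (kVA : ∀ (M a p a' : ℕ), p ≤ a' → p ≤ a → a < M → ∀ (A : ℝ), 0 ≤ A →
      ∀ (κ : ℤ → ℂ), (∀ j, κ (j + 2^M) = κ j) →
      (∀ j, ‖κ j - 2 * κ (j-1) + κ (j-2)‖ ≤ A * (2^p/2^M)^2 / 2^M * wt M p j) →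
      ∀ v, Haar M a v → ∀ x, ‖((Dm M a' * Cm M κ) *ᵥ v) x‖ ≤
        (40 * A * (1/2)^(a'-p)) * (1/2)^(a-p) / 2^M *
        ∑ z : Fin (2^M), wt M p ((x:ℤ) - (z:ℤ)) * ‖v z‖)
    (kVB : ∀ (M p a' : ℕ), p ≤ a' → ∀ (A : ℝ), 0 ≤ A →
      ∀ (κ : ℤ → ℂ), (∀ j, κ (j + 2^M) = κ j) →
      (∀ j, ‖κ j‖ ≤ A / 2^M * wt M p j) →
      ∀ v, ∀ x : Fin (2^M), ‖((Dm M a' * Cm M κ) *ᵥ v) x‖ ≤
        (40 * A * (1/2)^(a'-p)) *
        ∑ z : Fin (2^M), ‖v z - (Sh M *ᵥ v) z‖ /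
          (1 + 2^p * |Real.sin (Real.pi * (((x:ℤ) - (z:ℤ) : ℤ) : ℝ) / 2^M)|)^2)
    (vker : ∃ A : ℝ, 0 < A ∧ ∀ M p : ℕ,
      (∀ j, ‖ker M (2^(p+1)) (fun k => (Vs p k : ℂ)) j‖ ≤ A / 2^M * wt M p j) ∧
      (∀ j, ‖ker M (2^(p+1)) (fun k => (Vs p k : ℂ)) j
          - 2 * ker M (2^(p+1)) (fun k => (Vs p k : ℂ)) (j-1)
          + ker M (2^(p+1)) (fun k => (Vs p k : ℂ)) (j-2)‖ ≤
            A * (2^p/2^M)^2 / 2^M * wt M p j))
    (famOp : ∀ (M : ℕ) (T : ℕ → Matrix (Fin (2^M)) (Fin (2^M)) ℂ) (δ : ℝ), 0 ≤ δ →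
      (∀ a < M, Far M a (T a) δ) → (∀ a < M, L2b M a (T a) δ) →
      ∀ F : ℕ → Fin (2^M) → ℂ, (∀ a, Haar M a (F a)) →
        ∑ x, Real.sqrt (∑ a ∈ range M, ‖(T a *ᵥ F a) x‖^2) ≤
          16 * δ * ∑ x, Real.sqrt (∑ a ∈ range M, ‖F a x‖^2)) :
    ∃ C : ℝ, 0 < C ∧ ∀ (M j : ℕ) (w : ℤ) (F : ℕ → Fin (2^M) → ℂ), (∀ a, Haar M a (F a)) →
      ∑ x, Real.sqrt (∑ a ∈ range M, ‖(TV M j w a *ᵥ F a) x‖^2) ≤
        C * (1/2)^j * (2:ℝ)^(-(|(w:ℝ)|/2)) * ∑ x, Real.sqrt (∑ a ∈ range M, ‖F a x‖^2) := by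
  obtain ⟨CA, hCA, hfA⟩ := formA
  obtain ⟨CB, hCB, hfB⟩ := formB
  obtain ⟨A, hA, hv⟩ := vker
  refine ⟨16 * (40 * A * (CA + CB)), by positivity, ?_⟩
  intro M j w F hF
  obtain ⟨δ, hδ⟩ : ∃ δ : ℝ, δ = 40 * A * (CA + CB) * (1/2)^j * (2:ℝ)^(-(|(w:ℝ)|/2)) := ⟨_, rfl⟩
  have hδ0 : 0 ≤ δ := by
    rw [hδ]
    positivity
  have hmain : ∀ a < M, L2b M a (TV M j w a) δ ∧ Far M a (TV M j w a) δ := by
    intro a haM
    by_cases h0 : 0 ≤ (a:ℤ) - w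
    · obtain ⟨p, hp⟩ : ∃ p : ℕ, p = ((a:ℤ) - w).toNat := ⟨_, rfl⟩
      have hpz : (p:ℤ) = (a:ℤ) - w := by
        rw [hp]
        exact Int.toNat_of_nonneg h0
      have hpr : (p:ℝ) = (a:ℝ) - w := by exact_mod_cast hpz
      have hTV : TV M j w a = Dm M (p + j) *
          Cm M (ker M (2^(p+1)) (fun k => (Vs p k : ℂ))) := by
        unfold TV
        rw [if_pos h0, ← hp]
        rfl
      have hper : ∀ i, ker M (2^(p+1)) (fun k => (Vs p k : ℂ)) (i + 2^M)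
          = ker M (2^(p+1)) (fun k => (Vs p k : ℂ)) i := fun i => vfam_per M _ _ i
      have hε : (0:ℝ) ≤ 40 * A * (1/2)^j := by positivity
      rcases Nat.lt_or_ge a p with hap | hpa
      · rcases Nat.lt_or_ge M p with hMp | hpM
        · have hz : TV M j w a = 0 := by
            rw [hTV, vfam_Dm M (p + j) (by omega), Matrix.zero_mul]
          rw [hz]
          exact vfam_zero M a δ hδ0
        · have h1 := kVB M p (p + j) (Nat.le_add_right p j) A hA.le _ hper (hv M p).1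
          rw [Nat.add_sub_cancel_left, ← hTV] at h1
          have h2 := hfB M a p (40 * A * (1/2)^j) hap hpM hε (TV M j w a)
            (fun v _ x => h1 v x)
          have hapr : (a:ℝ) < p := by exact_mod_cast hap
          have hw : |(w:ℝ)| = (p:ℝ) - a := by
            rw [abs_of_neg (by linarith)]
            linarith
          have h3 : CB * (40 * A * (1/2)^j) * (2:ℝ)^(-(((p:ℝ) - a)/2)) ≤ δ := by
            rw [hδ, hw]
            apply mul_le_mul_of_nonneg_right _ (by positivity)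
            have h4 : 0 ≤ CA * (40 * A * (1/2)^j) := by positivity
            linarith
          exact ⟨vfam_L2mono (by positivity) h3 h2.1, vfam_Farmono h3 h2.2⟩
      · have h1 := kVA M a p (p + j) (Nat.le_add_right p j) hpa haM A hA.le _ hper (hv M p).2
        rw [Nat.add_sub_cancel_left, ← hTV] at h1
        have h2 := hfA M a p (40 * A * (1/2)^j) hpa haM hε (TV M j w a) h1
        have hpar : (p:ℝ) ≤ a := by exact_mod_cast hpa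
        have hw : |(w:ℝ)| = (a:ℝ) - p := by
          rw [abs_of_nonneg (by linarith)]
          linarith
        have h3 : CA * (40 * A * (1/2)^j) * (2:ℝ)^(-(((a:ℝ) - p)/2)) ≤ δ := by
          rw [hδ, hw]
          apply mul_le_mul_of_nonneg_right _ (by positivity)
          have h4 : 0 ≤ CB * (40 * A * (1/2)^j) := by positivity
          linarith
        exact ⟨vfam_L2mono (by positivity) h3 h2.1, vfam_Farmono h3 h2.2⟩
    · have hz : TV M j w a = 0 := by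
        unfold TV
        rw [if_neg h0]
      rw [hz]
      exact vfam_zero M a δ hδ0
  refine (famOp M (TV M j w) δ hδ0 (fun a ha => (hmain a ha).2)
    (fun a ha => (hmain a ha).1) F hF).trans (le_of_eq ?_)
  rw [hδ]
  ring

end BernT.ST13a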