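import Pool.Agent.Helper643.BernT

open Finset Matrix



open Finset Matrix
namespace BernT.ST13b
theorem mfam_l2mono {M a : ℕ} {T : Matrix (Fin (2^M)) (Fin (2^M)) ℂ} {δ δ' : ℝ}
    (h : L2b M a T δ) (h0 : 0 ≤ δ) (hle : δ ≤ δ') : L2b M a T δ' := by
  intro v hv
  refine (h v hv).trans ?_
  apply mul_le_mul_of_nonneg_right (pow_le_pow_left₀ h0 hle 2)
  exact Finset.sum_nonneg (fun _ _ => by positivity)

theorem mfam_farmono {M a : ℕ} {T : Matrix (Fin (2^M)) (Fin (2^M)) ℂ} {δ δ' : ℝ}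
    (h : Far M a T δ) (hle : δ ≤ δ') : Far M a T δ' := by
  intro q hq c hc v hv hs
  refine (h q hq c hc v hv hs).trans ?_
  apply mul_le_mul_of_nonneg_right
  · exact mul_le_mul_of_nonneg_right hle (Real.rpow_nonneg (by norm_num) _)
  · exact Finset.sum_nonneg (fun _ _ => norm_nonneg _)

theorem mfam_l2zero (M a : ℕ) (δ : ℝ) : L2b M a 0 δ := by
  intro v _
  simp only [Matrix.zero_mulVec, Pi.zero_apply, norm_zero]
  have : 0 ≤ δ^2 * ∑ x, ‖v x‖^2 :=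
    mul_nonneg (sq_nonneg _) (Finset.sum_nonneg (fun _ _ => by positivity))
  simpa using this

theorem mfam_farzero (M a : ℕ) (δ : ℝ) (hδ : 0 ≤ δ) : Far M a 0 δ := by
  intro q _ c _ v _ _
  simp only [Matrix.zero_mulVec, Pi.zero_apply, norm_zero, Finset.sum_const_zero]
  exact mul_nonneg (mul_nonneg hδ (Real.rpow_nonneg (by norm_num) _))
    (Finset.sum_nonneg (fun _ _ => norm_nonneg _))

theorem mfam_mszero_low (r : ℝ) (u v : ℂ) (t : ℕ) (k : ℤ) (h : |(k:ℝ)| ≤ 2^t / 2) :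
    ms r u v t k = 0 := by
  have h2 : (0:ℝ) < 2^t := by positivity
  have hb : bt t k = 0 := by
    unfold bt
    apply max_eq_left
    apply (min_le_left _ _).trans
    have : |(k:ℝ)| / 2^t ≤ 1/2 := by
      rw [div_le_iff₀ h2]; linarith
    linarith
  unfold ms
  rw [hb]
  simp

theorem mfam_mszero_high (r : ℝ) (u v : ℂ) (t : ℕ) (k : ℤ) (h : 2^(t+1) ≤ |(k:ℝ)|) :
    ms r u v t k = 0 := by
  have h2 : (0:ℝ) < 2^t := by positivity
  have hb : bt t k = 0 := by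
    unfold bt
    apply max_eq_left
    apply (min_le_right _ _).trans
    have : 2 ≤ |(k:ℝ)| / 2^t := by
      rw [le_div_iff₀ h2, ← pow_succ']; exact h
    linarith
  unfold ms
  rw [hb]
  simp

theorem mfam_ker (M t : ℕ) (r : ℝ) (u v : ℂ) (j : ℤ) :
    ker M (2^(t+1) - 1) (ms r u v t) j = ker M (2^(t+1)) (ms r u v t) j := by
  unfold ker
  congr 1
  have hpos : 0 < 2^(t+1) := by positivity
  apply Finset.sum_subset
  · intro k hk
    rw [Finset.mem_Icc] at hk ⊢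
    omega
  · intro k hk hk'
    rw [Finset.mem_Icc] at hk hk'
    have h1 : ((2^(t+1) : ℕ) : ℤ) ≤ |k| := by
      by_contra hcon
      push Not at hcon
      apply hk'
      rw [abs_lt] at hcon
      omega
    have h2 : (2:ℝ)^(t+1) ≤ |(k:ℝ)| := by
      have : (((2^(t+1) : ℕ) : ℤ) : ℝ) ≤ ((|k| : ℤ) : ℝ) := by exact_mod_cast h1
      push_cast at this
      exact this
    rw [mfam_mszero_high r u v t k h2, zero_mul]

theorem mfam
    (formA : ∃ C : ℝ, 0 < C ∧ ∀ (M a p : ℕ) (ε : ℝ), p ≤ a → a < M → 0 ≤ ε →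
      ∀ T : Matrix (Fin (2^M)) (Fin (2^M)) ℂ,
      (∀ v, Haar M a v → ∀ x, ‖(T *ᵥ v) x‖ ≤ ε * (1/2)^(a-p) / 2^M *
        ∑ z : Fin (2^M), wt M p ((x:ℤ) - (z:ℤ)) * ‖v z‖) →
      L2b M a T (C * ε * (2:ℝ)^(-(((a:ℝ) - p)/2))) ∧
      Far M a T (C * ε * (2:ℝ)^(-(((a:ℝ) - p)/2))))
    (formB : ∃ C : ℝ, 0 < C ∧ ∀ (M a p : ℕ) (ε : ℝ), a < p → p ≤ M → 0 ≤ ε →
      ∀ T : Matrix (Fin (2^M)) (Fin (2^M)) ℂ,
      (∀ v, Haar M a v → ∀ x : Fin (2^M), ‖(T *ᵥ v) x‖ ≤ ε *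
        ∑ z : Fin (2^M), ‖v z - (Sh M *ᵥ v) z‖ /
          (1 + 2^p * |Real.sin (Real.pi * (((x:ℤ) - (z:ℤ) : ℤ) : ℝ) / 2^M)|)^2) →
      L2b M a T (C * ε * (2:ℝ)^(-(((p:ℝ) - a)/2))) ∧
      Far M a T (C * ε * (2:ℝ)^(-(((p:ℝ) - a)/2))))
    (kAm : ∀ (M a p : ℕ), p ≤ a → a < M → ∀ (A : ℝ), 0 ≤ A → ∀ (κ : ℤ → ℂ),
      (∀ j, κ (j + 2^M) = κ j) →
      (∀ j, ‖κ j - κ (j-1)‖ ≤ A * 2^p / 4^M * wt M p j) →
      ∀ v, Haar M a v → ∀ x, ‖(Cm M κ *ᵥ v) x‖ ≤ A * (1/2)^(a-p) / 2^M *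
        ∑ z : Fin (2^M), wt M p ((x:ℤ) - (z:ℤ)) * ‖v z‖)
    (kBm : ∀ (M p : ℕ) (A : ℝ), 0 ≤ A → ∀ (κ κ' : ℤ → ℂ),
      (∀ j, κ' (j + 2^M) = κ' j) → (∀ j, κ j = κ' j - κ' (j-1)) →
      (∀ j, ‖κ' j‖ ≤ A / (1 + 2^p * |Real.sin (Real.pi * (j:ℝ) / 2^M)|)^2) →
      ∀ v, ∀ x : Fin (2^M), ‖(Cm M κ *ᵥ v) x‖ ≤ A *
        ∑ z : Fin (2^M), ‖v z - (Sh M *ᵥ v) z‖ /
          (1 + 2^p * |Real.sin (Real.pi * (((x:ℤ) - (z:ℤ) : ℤ) : ℝ) / 2^M)|)^2)
    (r : ℝ)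
    (mker : ∃ A : ℝ, 0 < A ∧ ∀ M t : ℕ, t + 2 ≤ M → ∀ u v : ℂ, ‖u‖ ≤ 1 → ‖v‖ ≤ 1 →
      (∀ j, ker M (2^(t+1)) (ms r u v t) (j + 2^M) = ker M (2^(t+1)) (ms r u v t) j) ∧
      (∀ j, ‖ker M (2^(t+1)) (ms r u v t) j - ker M (2^(t+1)) (ms r u v t) (j-1)‖ ≤
        A * 2^t / 4^M * wt M t j) ∧
      (∃ κ' : ℤ → ℂ, (∀ j, κ' (j + 2^M) = κ' j) ∧
        (∀ j, ker M (2^(t+1)) (ms r u v t) j = κ' j - κ' (j-1)) ∧
        ∀ j, ‖κ' j‖ ≤ A / (1 + 2^t * |Real.sin (Real.pi * (j:ℝ) / 2^M)|)^2))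
    (nearOrth : ∀ (M n : ℕ) (B : ℕ → ℕ), (∀ t < n, 2 * B t < 2^M) → ∀ (μ : ℕ → ℤ → ℂ),
      (∀ t s : ℕ, t + 2 ≤ s → ∀ k, μ t k = 0 ∨ μ s k = 0) →
      ∀ (v : ℕ → Fin (2^M) → ℂ),
      ∑ x, ‖∑ t ∈ range n, (Cm M (ker M (B t) (μ t)) *ᵥ v t) x‖^2 ≤
        2 * ∑ t ∈ range n, ∑ x, ‖(Cm M (ker M (B t) (μ t)) *ᵥ v t) x‖^2)
    (famOp : ∀ (M : ℕ) (T : ℕ → Matrix (Fin (2^M)) (Fin (2^M)) ℂ) (δ : ℝ), 0 ≤ δ →
      (∀ a < M, Far M a (T a) δ) →
      ((∀ a < M, L2b M a (T a) δ) → ∀ F : ℕ → Fin (2^M) → ℂ, (∀ a, Haar M a (F a)) →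
        ∑ x, Real.sqrt (∑ a ∈ range M, ‖(T a *ᵥ F a) x‖^2) ≤
          16 * δ * ∑ x, Real.sqrt (∑ a ∈ range M, ‖F a x‖^2)) ∧
      ((∀ F : ℕ → Fin (2^M) → ℂ, (∀ a, Haar M a (F a)) →
          ∑ x, ‖∑ a ∈ range M, (T a *ᵥ F a) x‖^2 ≤ δ^2 * ∑ a ∈ range M, ∑ x, ‖F a x‖^2) →
        ∀ F : ℕ → Fin (2^M) → ℂ, (∀ a, Haar M a (F a)) →
        ∑ x, ‖∑ a ∈ range M, (T a *ᵥ F a) x‖ ≤
          16 * δ * ∑ x, Real.sqrt (∑ a ∈ range M, ‖F a x‖^2))) :
    ∃ C : ℝ, 0 < C ∧ ∀ (M : ℕ) (u v : ℂ), ‖u‖ ≤ 1 → ‖v‖ ≤ 1 → ∀ (w : ℤ)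
      (F : ℕ → Fin (2^M) → ℂ), (∀ a, Haar M a (F a)) →
      (∑ x, Real.sqrt (∑ a ∈ range M, ‖(TM r u v M w a *ᵥ F a) x‖^2) ≤
        C * (2:ℝ)^(-(|(w:ℝ)|/2)) * ∑ x, Real.sqrt (∑ a ∈ range M, ‖F a x‖^2)) ∧
      (∑ x, ‖∑ a ∈ range M, (TM r u v M w a *ᵥ F a) x‖ ≤
        C * (2:ℝ)^(-(|(w:ℝ)|/2)) * ∑ x, Real.sqrt (∑ a ∈ range M, ‖F a x‖^2)) := by
  obtain ⟨CA, hCA, fA⟩ := formA
  obtain ⟨CB, hCB, fB⟩ := formB
  obtain ⟨A, hA, hk⟩ := mker
  refine ⟨32 * ((CA + CB) * A), by positivity, ?_⟩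
  intro M u v hu hv w F hF
  set δ : ℝ := (CA + CB) * A * (2:ℝ)^(-(|(w:ℝ)|/2)) with hδdef
  have h2pos : 0 < (2:ℝ)^(-(|(w:ℝ)|/2)) := Real.rpow_pos_of_pos (by norm_num) _
  have hδ : 0 ≤ δ := by positivity
  have key : ∀ a < M, L2b M a (TM r u v M w a) δ ∧ Far M a (TM r u v M w a) δ := by
    intro a ha
    unfold TM
    split_ifs with hc
    · obtain ⟨hc1, hc2⟩ := hc
      set t : ℕ := ((a:ℤ) - w).toNat with htdef
      have htz : (t:ℤ) = (a:ℤ) - w := Int.toNat_of_nonneg hc1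
      have htr : (t:ℝ) = (a:ℝ) - (w:ℝ) := by exact_mod_cast htz
      obtain ⟨hper, hb, κ', hper', hdiff, hb'⟩ := hk M t hc2 u v hu hv
      unfold Mm
      by_cases hta : t ≤ a
      · have hw : 0 ≤ w := by omega
        have hw' : |(w:ℝ)| = (a:ℝ) - t := by
          rw [abs_of_nonneg (by exact_mod_cast hw), htr]; ring
        have h1 := kAm M a t hta ha A hA.le _ hper hb
        obtain ⟨h2, h3⟩ := fA M a t A hta ha hA.le _ h1
        have hle : CA * A * (2:ℝ)^(-(((a:ℝ) - t)/2)) ≤ δ := by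
          rw [hδdef, hw']
          have hp : 0 < (2:ℝ)^(-(((a:ℝ) - t)/2)) := Real.rpow_pos_of_pos (by norm_num) _
          have : CA * A ≤ (CA + CB) * A := by nlinarith
          exact mul_le_mul_of_nonneg_right this hp.le
        exact ⟨mfam_l2mono h2 (by positivity) hle, mfam_farmono h3 hle⟩
      · push Not at hta
        have hw : w < 0 := by omega
        have hw' : |(w:ℝ)| = (t:ℝ) - a := by
          rw [abs_of_neg (by exact_mod_cast hw), htr]; ring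
        have h1 := kBm M t A hA.le (ker M (2^(t+1)) (ms r u v t)) κ' hper' hdiff hb'
        obtain ⟨h2, h3⟩ := fB M a t A hta (by omega) hA.le _ (fun v _ x => h1 v x)
        have hle : CB * A * (2:ℝ)^(-(((t:ℝ) - a)/2)) ≤ δ := by
          rw [hδdef, hw']
          have hp : 0 < (2:ℝ)^(-(((t:ℝ) - a)/2)) := Real.rpow_pos_of_pos (by norm_num) _
          have : CB * A ≤ (CA + CB) * A := by nlinarith
          exact mul_le_mul_of_nonneg_right this hp.le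
        exact ⟨mfam_l2mono h2 (by positivity) hle, mfam_farmono h3 hle⟩
    · exact ⟨mfam_l2zero M a δ, mfam_farzero M a δ hδ⟩
  have hS : 0 ≤ ∑ x, Real.sqrt (∑ a ∈ range M, ‖F a x‖^2) :=
    Finset.sum_nonneg (fun _ _ => Real.sqrt_nonneg _)
  refine ⟨?_, ?_⟩
  · have h1 := (famOp M (TM r u v M w) δ hδ (fun a ha => (key a ha).2)).1
      (fun a ha => (key a ha).1) F hF
    refine h1.trans ?_
    apply mul_le_mul_of_nonneg_right _ hS
    rw [hδdef]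
    nlinarith [mul_pos (mul_pos (add_pos hCA hCB) hA) h2pos]
  · have h1 := (famOp M (TM r u v M w) (2 * δ) (by positivity)
      (fun a ha => mfam_farmono (key a ha).2 (by linarith))).2 ?_ F hF
    · refine h1.trans ?_
      apply mul_le_mul_of_nonneg_right _ hS
      rw [hδdef]
      nlinarith [mul_pos (mul_pos (add_pos hCA hCB) hA) h2pos]
    · intro G hG
      let B : ℕ → ℕ := fun a =>
        if 0 ≤ (a:ℤ) - w ∧ ((a:ℤ) - w).toNat + 2 ≤ M then 2^(((a:ℤ) - w).toNat + 1) - 1 else 0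
      let μ : ℕ → ℤ → ℂ := fun a =>
        if 0 ≤ (a:ℤ) - w ∧ ((a:ℤ) - w).toNat + 2 ≤ M then ms r u v ((a:ℤ) - w).toNat else 0
      have hB : ∀ t < M, 2 * B t < 2^M := by
        intro a _
        simp only [B]
        split_ifs with hc
        · have h2 : 2 ^ (((a:ℤ) - w).toNat + 2) ≤ 2 ^ M := Nat.pow_le_pow_right (by norm_num) hc.2
          have h3 : 2 ^ (((a:ℤ) - w).toNat + 2) = 2 * 2 ^ (((a:ℤ) - w).toNat + 1) := by ring
          have h4 : 0 < 2 ^ (((a:ℤ) - w).toNat + 1) := by positivity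
          omega
        · simp
      have hμ : ∀ t s : ℕ, t + 2 ≤ s → ∀ k, μ t k = 0 ∨ μ s k = 0 := by
        intro a b hab k
        simp only [μ]
        split_ifs with h1 h2 h2
        · set t := ((a:ℤ) - w).toNat with ht
          set s' := ((b:ℤ) - w).toNat with hs
          have hts : t + 2 ≤ s' := by omega
          by_cases hk' : |(k:ℝ)| < 2^(t+1)
          · right
            apply mfam_mszero_low
            refine hk'.le.trans ?_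
            have : (2:ℝ)^(t+1) ≤ 2^(s'-1) := pow_le_pow_right₀ (by norm_num) (by omega)
            have h5 : (2:ℝ)^s' = 2 * 2^(s'-1) := by
              rw [← pow_succ']; congr 1; omega
            rw [h5]; linarith
          · left
            push Not at hk'
            exact mfam_mszero_high r u v t k hk'
        · right; rfl
        · left; rfl
        · left; rfl
      have hT : ∀ a, Cm M (ker M (B a) (μ a)) = TM r u v M w a := by
        intro a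
        simp only [B, μ]
        unfold TM
        split_ifs with hc
        · unfold Mm
          congr 1
          funext j
          exact mfam_ker M _ r u v j
        · funext x z
          simp [Cm, ker]
      have h2 := nearOrth M M B hB μ hμ G
      simp only [hT] at h2
      refine h2.trans ?_
      have h3 : ∑ t ∈ range M, ∑ x, ‖(TM r u v M w t *ᵥ G t) x‖^2 ≤
          ∑ t ∈ range M, δ^2 * ∑ x, ‖G t x‖^2 := by
        apply Finset.sum_le_sum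
        intro a ha
        exact (key a (Finset.mem_range.mp ha)).1 (G a) (hG a)
      rw [← Finset.mul_sum] at h3
      have h4 : 0 ≤ ∑ t ∈ range M, ∑ x, ‖G t x‖^2 :=
        Finset.sum_nonneg (fun _ _ => Finset.sum_nonneg (fun _ _ => by positivity))
      nlinarith [mul_nonneg (sq_nonneg δ) h4]

end BernT.ST13b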