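import Pool.Agent.Helper643.BernT

open Finset Matrix



open Finset Matrix
namespace BernT.ST14a
theorem xd_card (M B c : ℕ) (hB : B ≤ M) (hc : c < 2 ^ (M - B)) :
    ∑ y : Fin (2^M), (if (y:ℕ) / 2^B = c then (1:ℂ) else 0) = 2 ^ B := by
  have h0 : 0 < 2 ^ B := by positivity
  rw [Fin.sum_univ_eq_sum_range (fun y => if y / 2^B = c then (1:ℂ) else 0) (2^M),
    Finset.sum_boole]
  have h1 : (range (2^M)).filter (fun y => y / 2^B = c) = Finset.Ico (c * 2^B) ((c+1) * 2^B) := by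
    ext y
    rw [Finset.mem_filter, Finset.mem_range, Finset.mem_Ico]
    have h2 := Nat.le_div_iff_mul_le (x := c) (y := y) h0
    have h3 := Nat.div_lt_iff_lt_mul (x := y) (y := c + 1) h0
    have h4 : (c + 1) * 2 ^ B ≤ 2 ^ M := by
      calc (c + 1) * 2 ^ B ≤ 2 ^ (M - B) * 2 ^ B := Nat.mul_le_mul_right _ hc
        _ = 2 ^ M := by rw [← pow_add]; congr 1; omega
    constructor
    · rintro ⟨_, h⟩
      exact ⟨h2.1 h.ge, h3.1 (by omega)⟩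
    · rintro ⟨h5, h6⟩
      have h7 := h2.2 h5
      have h8 := h3.2 h6
      exact ⟨by omega, by omega⟩
  rw [h1, Nat.card_Ico]
  have h5 : (c + 1) * 2 ^ B - c * 2 ^ B = 2 ^ B := by
    rw [← Nat.sub_mul]; simp
  rw [h5]
  push_cast
  rfl

theorem xd_Em_symm (M a : ℕ) : (Em M a)ᵀ = Em M a := by
  ext x z
  simp only [transpose_apply, Em, eq_comm]

theorem xd_Em_mul_le (M a b : ℕ) (hab : a ≤ b) : Em M a * Em M b = Em M a := by
  ext x z
  rw [Matrix.mul_apply]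
  have hBA : M - b ≤ M - a := by omega
  have hB : M - b ≤ M := by omega
  have h1 : ∀ y : Fin (2^M), Em M a x y * Em M b y z =
      (Em M a x z * ((2:ℂ)^(M-b))⁻¹) * (if (y:ℕ) / 2^(M-b) = (z:ℕ) / 2^(M-b) then (1:ℂ) else 0) := by
    intro y
    unfold Em
    by_cases h : (y:ℕ) / 2^(M-b) = (z:ℕ) / 2^(M-b)
    · have h2 : (y:ℕ) / 2^(M-a) = (z:ℕ) / 2^(M-a) := by
        have h3 : 2 ^ (M-a) = 2 ^ (M-b) * 2 ^ ((M-a)-(M-b)) := by
          rw [← pow_add]; congr 1; omega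
        rw [h3, ← Nat.div_div_eq_div_mul, ← Nat.div_div_eq_div_mul, h]
      rw [if_pos h, if_pos h, h2, mul_one]
    · rw [if_neg h, if_neg h, mul_zero, mul_zero]
  rw [Finset.sum_congr rfl fun y _ => h1 y, ← Finset.mul_sum, xd_card M (M-b) _ hB, mul_assoc,
    inv_mul_cancel₀ (pow_ne_zero _ two_ne_zero), mul_one]
  rw [Nat.div_lt_iff_lt_mul (by positivity), ← pow_add]
  have h4 : M - (M - b) + (M - b) = M := by omega
  rw [h4]
  exact z.2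

theorem xd_Em_mul_ge (M a b : ℕ) (hab : a ≤ b) : Em M b * Em M a = Em M a := by
  have h := congrArg Matrix.transpose (xd_Em_mul_le M a b hab)
  rwa [Matrix.transpose_mul, xd_Em_symm, xd_Em_symm] at h

theorem xd_Dm_mul (M a : ℕ) : Dm M a * Dm M a = Dm M a := by
  unfold Dm
  rw [Matrix.sub_mul, Matrix.mul_sub, Matrix.mul_sub, xd_Em_mul_le M (a+1) (a+1) le_rfl,
    xd_Em_mul_le M a a le_rfl, xd_Em_mul_le M a (a+1) (by omega),
    xd_Em_mul_ge M a (a+1) (by omega)]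
  simp

theorem xd_Dm_symm (M a : ℕ) : (Dm M a)ᵀ = Dm M a := by
  unfold Dm
  rw [Matrix.transpose_sub, xd_Em_symm, xd_Em_symm]

theorem xd_Dm_zero (M a : ℕ) (ha : M ≤ a) : Dm M a = 0 := by
  have h1 : M - (a + 1) = 0 := by omega
  have h2 : M - a = 0 := by omega
  have h3 : Em M (a + 1) = Em M a := by
    ext x z
    simp only [Em, h1, h2]
  unfold Dm
  rw [h3, sub_self]

/-- the column family -/
noncomputable def xdG (M : ℕ) (w : ℤ) (s : ℕ) (f : Matrix (Fin (2^M)) (Fin (2^M)) ℂ)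
    (y : Fin (2^M)) (a : ℕ) : Fin (2^M) → ℂ :=
  if 0 ≤ (a:ℤ) - w ∧ (a:ℤ) - w ≤ s then
    fun x => (Dm M a * f * Dm M (s - ((a:ℤ) - w).toNat)) x y else 0

theorem xdG_Haar (M : ℕ) (w : ℤ) (s : ℕ) (f : Matrix (Fin (2^M)) (Fin (2^M)) ℂ)
    (y : Fin (2^M)) (a : ℕ) : Haar M a (xdG M w s f y a) := by
  unfold Haar xdG
  split_ifs with h
  · have h1 : ∀ (A B : Matrix (Fin (2^M)) (Fin (2^M)) ℂ), (A *ᵥ fun x => B x y) =
        fun x => (A * B) x y := by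
      intro A B
      rfl
    rw [h1]
    ext x
    rw [← Matrix.mul_assoc, ← Matrix.mul_assoc, xd_Dm_mul]
  · rw [Matrix.mulVec_zero]

theorem xdG_bound (M : ℕ) (w : ℤ) (s : ℕ) (f : Matrix (Fin (2^M)) (Fin (2^M)) ℂ)
    (x y : Fin (2^M)) :
    ∑ a ∈ range M, ‖xdG M w s f y a x‖^2 ≤
      if 0 ≤ (s:ℤ) + w then ∑ a ∈ range (((s:ℤ)+w).toNat+1),
        ‖(Dm M a * f * Dm M (((s:ℤ)+w).toNat-a)) x y‖^2 else 0 := by
  split_ifs with h
  · have h1 : ∀ a ∈ range M, ‖xdG M w s f y a x‖^2 ≤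
        if a ∈ range (((s:ℤ)+w).toNat+1) then
          ‖(Dm M a * f * Dm M (((s:ℤ)+w).toNat-a)) x y‖^2 else 0 := by
      intro a _
      unfold xdG
      split_ifs with h2 h3 h3
      · have h4 : s - ((a:ℤ) - w).toNat = ((s:ℤ)+w).toNat - a := by omega
        rw [h4]
      · exfalso
        rw [Finset.mem_range] at h3
        omega
      · simp
      · simp
    refine (Finset.sum_le_sum h1).trans ?_
    rw [← Finset.sum_filter]
    refine Finset.sum_le_sum_of_subset_of_nonneg ?_ fun _ _ _ => by positivity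
    intro a ha
    exact (Finset.mem_filter.1 ha).2
  · refine le_of_eq (Finset.sum_eq_zero fun a _ => ?_)
    unfold xdG
    rw [if_neg (by omega)]
    simp

theorem xd_point (M j : ℕ) (w : ℤ) (s : ℕ) (f : Matrix (Fin (2^M)) (Fin (2^M)) ℂ)
    (x y : Fin (2^M)) :
    ∑ p ∈ range (s+1), ‖(if 0 ≤ (p:ℤ) + w then
          (Dm M (p+j) * Vm M p * (Dm M ((p:ℤ)+w).toNat * f * Dm M (s-p))) x y else 0)‖^2 ≤
      ∑ a ∈ range M, ‖(TV M j w a *ᵥ xdG M w s f y a) x‖^2 := by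
  classical
  have h1 : ∀ p ∈ range (s+1), ‖(if 0 ≤ (p:ℤ) + w then
          (Dm M (p+j) * Vm M p * (Dm M ((p:ℤ)+w).toNat * f * Dm M (s-p))) x y else 0)‖^2 =
      if (0 ≤ (p:ℤ) + w ∧ ((p:ℤ)+w).toNat < M) then
        ‖(TV M j w ((p:ℤ)+w).toNat *ᵥ xdG M w s f y ((p:ℤ)+w).toNat) x‖^2 else 0 := by
    intro p hp
    rw [Finset.mem_range] at hp
    by_cases h : 0 ≤ (p:ℤ) + w
    · rw [if_pos h]
      by_cases h2 : ((p:ℤ)+w).toNat < M
      · rw [if_pos ⟨h, h2⟩]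
        have h3 : ((((p:ℤ)+w).toNat : ℕ) : ℤ) - w = p := by
          rw [Int.toNat_of_nonneg h]; ring
        have h4 : TV M j w ((p:ℤ)+w).toNat = Dm M (p + j) * Vm M p := by
          unfold TV
          rw [h3, if_pos (by omega), Int.toNat_natCast]
        have h5 : xdG M w s f y ((p:ℤ)+w).toNat =
            fun x => (Dm M ((p:ℤ)+w).toNat * f * Dm M (s-p)) x y := by
          unfold xdG
          rw [h3, if_pos (by omega), Int.toNat_natCast]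
        rw [h4, h5]
        rfl
      · rw [if_neg (by tauto), xd_Dm_zero M ((p:ℤ)+w).toNat (by omega)]
        simp
    · rw [if_neg h, if_neg (by tauto)]
      simp
  rw [Finset.sum_congr rfl h1, ← Finset.sum_filter]
  have hinj : Set.InjOn (fun p : ℕ => ((p:ℤ)+w).toNat)
      ((range (s+1)).filter (fun p : ℕ => 0 ≤ (p:ℤ) + w ∧ ((p:ℤ)+w).toNat < M) : Set ℕ) := by
    intro p hp q hq hpq
    rw [Finset.coe_filter] at hp hq
    have h2 := hp.2.1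
    have h3 := hq.2.1
    simp only at hpq
    omega
  rw [← Finset.sum_image (f := fun a => ‖(TV M j w a *ᵥ xdG M w s f y a) x‖^2) hinj]
  refine Finset.sum_le_sum_of_subset_of_nonneg ?_ fun _ _ _ => by positivity
  intro a ha
  obtain ⟨p, hp, rfl⟩ := Finset.mem_image.1 ha
  exact Finset.mem_range.2 (Finset.mem_filter.1 hp).2.2

theorem xd_first (C : ℝ) (hC : 0 < C) (vfam : ∀ (M j : ℕ) (w : ℤ) (F : ℕ → Fin (2^M) → ℂ),
      (∀ a, Haar M a (F a)) →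
      ∑ x, Real.sqrt (∑ a ∈ range M, ‖(TV M j w a *ᵥ F a) x‖^2) ≤
        C * (1/2)^j * (2:ℝ)^(-(|(w:ℝ)|/2)) * ∑ x, Real.sqrt (∑ a ∈ range M, ‖F a x‖^2))
    (M j : ℕ) (w : ℤ) (s : ℕ) (f : Matrix (Fin (2^M)) (Fin (2^M)) ℂ) :
      ∑ x, ∑ y, Real.sqrt (∑ p ∈ range (s+1), ‖(if 0 ≤ (p:ℤ) + w then
          (Dm M (p+j) * Vm M p * (Dm M ((p:ℤ)+w).toNat * f * Dm M (s-p))) x y else 0)‖^2) ≤
        C * (1/2)^j * (2:ℝ)^(-(|(w:ℝ)|/2)) *
          (if 0 ≤ (s:ℤ) + w then NN M ((s:ℤ)+w).toNat f else 0) := by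
  rw [Finset.sum_comm]
  have h1 : ∀ y : Fin (2^M), ∑ x, Real.sqrt (∑ p ∈ range (s+1), ‖(if 0 ≤ (p:ℤ) + w then
          (Dm M (p+j) * Vm M p * (Dm M ((p:ℤ)+w).toNat * f * Dm M (s-p))) x y else 0)‖^2) ≤
      C * (1/2)^j * (2:ℝ)^(-(|(w:ℝ)|/2)) * ∑ x, Real.sqrt (if 0 ≤ (s:ℤ) + w then
        ∑ a ∈ range (((s:ℤ)+w).toNat+1),
          ‖(Dm M a * f * Dm M (((s:ℤ)+w).toNat-a)) x y‖^2 else 0) := by
    intro y
    have h2 := vfam M j w (xdG M w s f y) (xdG_Haar M w s f y)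
    refine (Finset.sum_le_sum fun x _ => Real.sqrt_le_sqrt (xd_point M j w s f x y)).trans
      (h2.trans ?_)
    refine mul_le_mul_of_nonneg_left ?_ (by positivity)
    exact Finset.sum_le_sum fun x _ => Real.sqrt_le_sqrt (xdG_bound M w s f x y)
  refine (Finset.sum_le_sum fun y _ => h1 y).trans (le_of_eq ?_)
  rw [← Finset.mul_sum, Finset.sum_comm]
  congr 1
  split_ifs with h
  · rfl
  · simp

theorem xd_NN (M m : ℕ) (f : Matrix (Fin (2^M)) (Fin (2^M)) ℂ) : NN M m fᵀ = NN M m f := by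
  unfold NN
  rw [Finset.sum_comm]
  refine Finset.sum_congr rfl fun x _ => Finset.sum_congr rfl fun y _ => ?_
  congr 1
  rw [← Finset.sum_range_reflect]
  refine Finset.sum_congr rfl fun a ha => ?_
  rw [Finset.mem_range] at ha
  have h1 : m + 1 - 1 - a = m - a := by omega
  have h2 : m - (m - a) = a := by omega
  rw [h1, h2]
  have h3 : Dm M (m-a) * fᵀ * Dm M a = (Dm M a * f * Dm M (m-a))ᵀ := by
    rw [Matrix.transpose_mul, Matrix.transpose_mul, xd_Dm_symm, xd_Dm_symm, Matrix.mul_assoc]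
  rw [h3, Matrix.transpose_apply]

theorem xdir
    (vfam : ∃ C : ℝ, 0 < C ∧ ∀ (M j : ℕ) (w : ℤ) (F : ℕ → Fin (2^M) → ℂ),
      (∀ a, Haar M a (F a)) →
      ∑ x, Real.sqrt (∑ a ∈ range M, ‖(TV M j w a *ᵥ F a) x‖^2) ≤
        C * (1/2)^j * (2:ℝ)^(-(|(w:ℝ)|/2)) * ∑ x, Real.sqrt (∑ a ∈ range M, ‖F a x‖^2)) :
    ∃ C : ℝ, 0 < C ∧ ∀ (M j : ℕ) (w : ℤ) (s : ℕ) (f : Matrix (Fin (2^M)) (Fin (2^M)) ℂ),
      (∑ x, ∑ y, Real.sqrt (∑ p ∈ range (s+1), ‖(if 0 ≤ (p:ℤ) + w then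
          (Dm M (p+j) * Vm M p * (Dm M ((p:ℤ)+w).toNat * f * Dm M (s-p))) x y else 0)‖^2) ≤
        C * (1/2)^j * (2:ℝ)^(-(|(w:ℝ)|/2)) *
          (if 0 ≤ (s:ℤ) + w then NN M ((s:ℤ)+w).toNat f else 0)) ∧
      (∑ x, ∑ y, Real.sqrt (∑ q ∈ range (s+1), ‖(if 0 ≤ (q:ℤ) + w then
          ((Dm M (s-q) * f * Dm M ((q:ℤ)+w).toNat) * (Vm M q)ᵀ * Dm M (q+j)) x y else 0)‖^2) ≤
        C * (1/2)^j * (2:ℝ)^(-(|(w:ℝ)|/2)) *
          (if 0 ≤ (s:ℤ) + w then NN M ((s:ℤ)+w).toNat f else 0)) := by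
  obtain ⟨C, hC, hv⟩ := vfam
  refine ⟨C, hC, fun M j w s f => ⟨xd_first C hC hv M j w s f, ?_⟩⟩
  have h1 := xd_first C hC hv M j w s fᵀ
  rw [xd_NN, Finset.sum_comm] at h1
  refine le_trans (le_of_eq ?_) h1
  refine Finset.sum_congr rfl fun x _ => Finset.sum_congr rfl fun y _ => ?_
  congr 1
  refine Finset.sum_congr rfl fun q _ => ?_
  have h3 : Dm M (q+j) * Vm M q * (Dm M ((q:ℤ)+w).toNat * fᵀ * Dm M (s-q)) =
      ((Dm M (s-q) * f * Dm M ((q:ℤ)+w).toNat) * (Vm M q)ᵀ * Dm M (q+j))ᵀ := by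
    simp only [Matrix.transpose_mul, xd_Dm_symm, Matrix.transpose_transpose, Matrix.mul_assoc]
  rw [h3, Matrix.transpose_apply]

end BernT.ST14a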