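import Pool.Agent.Helper643.BernT

open Finset Matrix



open Finset Matrix
namespace BernT.ST14b
theorem xyd_card (M k : ℕ) (hk : k ≤ M) (z : Fin (2^M)) :
    ∑ y : Fin (2^M), (if (y:ℕ) / 2^k = (z:ℕ) / 2^k then (1:ℂ) else 0) = (2:ℂ)^k := by
  rw [Fin.sum_univ_eq_sum_range (fun y => if y / 2^k = (z:ℕ) / 2^k then (1:ℂ) else 0) (2^M),
    Finset.sum_boole]
  have hpos : 0 < 2^k := by positivity
  have hz : (z:ℕ) / 2^k < 2^(M-k) := by
    rw [Nat.div_lt_iff_lt_mul hpos, ← pow_add, Nat.sub_add_cancel hk]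
    exact z.2
  have : (range (2^M)).filter (fun y => y / 2^k = (z:ℕ) / 2^k) =
      Ico ((z:ℕ) / 2^k * 2^k) ((z:ℕ) / 2^k * 2^k + 2^k) := by
    ext y
    simp only [mem_filter, mem_range, mem_Ico]
    constructor
    · rintro ⟨_, h⟩
      rw [← h]
      exact ⟨Nat.div_mul_le_self y _, Nat.lt_div_mul_add hpos⟩
    · rintro ⟨h1, h2⟩
      constructor
      · have h3 : ((z:ℕ) / 2^k + 1) * 2^k ≤ 2^(M-k) * 2^k := Nat.mul_le_mul_right _ hz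
        rw [← pow_add, Nat.sub_add_cancel hk] at h3
        have h4 : ((z:ℕ) / 2^k + 1) * 2^k = (z:ℕ) / 2^k * 2^k + 2^k := by ring
        omega
      · apply le_antisymm
        · rw [← Nat.lt_succ_iff, Nat.div_lt_iff_lt_mul hpos]
          have h4 : ((z:ℕ) / 2^k).succ * 2^k = (z:ℕ) / 2^k * 2^k + 2^k := by
            rw [Nat.succ_mul]
          omega
        · rw [Nat.le_div_iff_mul_le hpos]
          exact h1
  rw [this, Nat.card_Ico]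
  simp

theorem xyd_Em_symm (M a : ℕ) : (Em M a)ᵀ = Em M a := by
  ext x z
  simp only [Em, transpose_apply, eq_comm]

theorem xyd_Em_mul (M a b : ℕ) (hab : a ≤ b) : Em M a * Em M b = Em M a := by
  ext x z
  rw [mul_apply]
  have hAB : 2^(M-a) = 2^(M-b) * 2^((M-a)-(M-b)) := by
    rw [← pow_add]
    congr 1
    omega
  have h : ∀ y : Fin (2^M), Em M a x y * Em M b y z =
      (Em M a x z * ((2:ℂ)^(M-b))⁻¹) *
        (if (y:ℕ) / 2^(M-b) = (z:ℕ) / 2^(M-b) then (1:ℂ) else 0) := by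
    intro y
    unfold Em
    by_cases hy : (y:ℕ) / 2^(M-b) = (z:ℕ) / 2^(M-b)
    · have hy' : (y:ℕ) / 2^(M-a) = (z:ℕ) / 2^(M-a) := by
        rw [hAB, ← Nat.div_div_eq_div_mul, ← Nat.div_div_eq_div_mul, hy]
      rw [if_pos hy, if_pos hy, hy', mul_one]
    · rw [if_neg hy, if_neg hy, mul_zero, mul_zero]
  rw [Finset.sum_congr rfl (fun y _ => h y), ← Finset.mul_sum, xyd_card M (M-b) (by omega) z,
    mul_assoc, inv_mul_cancel₀ (pow_ne_zero _ two_ne_zero), mul_one]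

theorem xyd_Em_mul' (M a b : ℕ) (hab : a ≤ b) : Em M b * Em M a = Em M a := by
  have h := congrArg Matrix.transpose (xyd_Em_mul M a b hab)
  rwa [transpose_mul, xyd_Em_symm, xyd_Em_symm] at h

theorem xyd_Dm_symm (M a : ℕ) : (Dm M a)ᵀ = Dm M a := by
  unfold Dm
  rw [transpose_sub, xyd_Em_symm, xyd_Em_symm]

theorem xyd_Dm_idem (M a : ℕ) : Dm M a * Dm M a = Dm M a := by
  unfold Dm
  rw [sub_mul, mul_sub, mul_sub, xyd_Em_mul M (a+1) (a+1) le_rfl,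
    xyd_Em_mul' M a (a+1) (Nat.le_succ a), xyd_Em_mul M a (a+1) (Nat.le_succ a),
    xyd_Em_mul M a a le_rfl]
  abel

theorem xyd_Dm_zero (M a : ℕ) (h : M ≤ a) : Dm M a = 0 := by
  unfold Dm
  have h1 : M - (a+1) = 0 := by omega
  have h2 : M - a = 0 := by omega
  have : Em M (a+1) = Em M a := by
    unfold Em
    rw [h1, h2]
  rw [this, sub_self]

theorem xyd_sum (s t : Finset ℕ) (u g : ℕ → ℝ) (e : ℕ → ℕ) (hg : ∀ a, 0 ≤ g a)
    (h : ∀ p ∈ s, u p ≠ 0 → e p ∈ t ∧ u p = g (e p))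
    (hinj : ∀ p ∈ s, ∀ p' ∈ s, u p ≠ 0 → u p' ≠ 0 → e p = e p' → p = p') :
    ∑ p ∈ s, u p ≤ ∑ a ∈ t, g a := by
  classical
  rw [← Finset.sum_filter_ne_zero]
  have h1 : ∑ p ∈ s.filter (fun p => u p ≠ 0), u p =
      ∑ p ∈ s.filter (fun p => u p ≠ 0), g (e p) :=
    Finset.sum_congr rfl (fun p hp => (h p (mem_filter.1 hp).1 (mem_filter.1 hp).2).2)
  rw [h1, ← Finset.sum_image (f := g) (g := e) (s := s.filter (fun p => u p ≠ 0))]
  · apply Finset.sum_le_sum_of_subset_of_nonneg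
    · intro a ha
      obtain ⟨p, hp, rfl⟩ := Finset.mem_image.1 ha
      exact (h p (mem_filter.1 hp).1 (mem_filter.1 hp).2).1
    · intro a _ _
      exact hg a
  · intro p hp p' hp' he
    have hp := mem_filter.1 hp
    have hp' := mem_filter.1 hp'
    exact hinj p hp.1 p' hp'.1 hp.2 hp'.2 he

theorem xyd_col (M : ℕ) (T N : Matrix (Fin (2^M)) (Fin (2^M)) ℂ) (x y : Fin (2^M)) :
    (T *ᵥ (fun z => N z y)) x = (T * N) x y := by
  rw [mul_apply]; rfl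

theorem xyd_row (M : ℕ) (T N : Matrix (Fin (2^M)) (Fin (2^M)) ℂ) (x y : Fin (2^M)) :
    (T *ᵥ (fun z => N x z)) y = (N * Tᵀ) x y := by
  rw [mul_apply]
  simp only [mulVec, dotProduct, transpose_apply]
  exact Finset.sum_congr rfl (fun z _ => mul_comm _ _)

/-- columns -/
noncomputable def xydF (M j n : ℕ) (w w' : ℤ) (f : Matrix (Fin (2^M)) (Fin (2^M)) ℂ)
    (y : Fin (2^M)) (a : ℕ) (x : Fin (2^M)) : ℂ :=
  if 0 ≤ (a:ℤ) - w ∧ (a:ℤ) - w ≤ n ∧ 0 ≤ (n:ℤ) - ((a:ℤ) - w) + w' then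
    (Dm M a * f * Dm M ((n:ℤ) - ((a:ℤ) - w) + w').toNat * (Vm M ((n:ℤ) - ((a:ℤ) - w)).toNat)ᵀ
      * Dm M (((n:ℤ) - ((a:ℤ) - w)).toNat + j)) x y else 0

/-- rows -/
noncomputable def xydG (M n : ℕ) (w w' : ℤ) (f : Matrix (Fin (2^M)) (Fin (2^M)) ℂ)
    (x : Fin (2^M)) (b : ℕ) (y : Fin (2^M)) : ℂ :=
  if 0 ≤ (b:ℤ) - w' ∧ (b:ℤ) - w' ≤ n ∧ 0 ≤ (n:ℤ) + w + w' - b then
    (Dm M ((n:ℤ) + w + w' - b).toNat * f * Dm M b) x y else 0

theorem xyd_F_haar (M j n : ℕ) (w w' : ℤ) (f : Matrix (Fin (2^M)) (Fin (2^M)) ℂ)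
    (y : Fin (2^M)) (a : ℕ) : Haar M a (xydF M j n w w' f y a) := by
  unfold Haar
  by_cases h : 0 ≤ (a:ℤ) - w ∧ (a:ℤ) - w ≤ n ∧ 0 ≤ (n:ℤ) - ((a:ℤ) - w) + w'
  · have e : xydF M j n w w' f y a = fun x => (Dm M a * f *
        Dm M ((n:ℤ) - ((a:ℤ) - w) + w').toNat * (Vm M ((n:ℤ) - ((a:ℤ) - w)).toNat)ᵀ
        * Dm M (((n:ℤ) - ((a:ℤ) - w)).toNat + j)) x y := by
      funext x
      unfold xydF
      rw [if_pos h]
    rw [e]
    funext x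
    rw [xyd_col]
    simp only [← Matrix.mul_assoc, xyd_Dm_idem]
  · have e : xydF M j n w w' f y a = 0 := by
      funext x
      unfold xydF
      rw [if_neg h]; rfl
    rw [e, mulVec_zero]

theorem xyd_G_haar (M n : ℕ) (w w' : ℤ) (f : Matrix (Fin (2^M)) (Fin (2^M)) ℂ)
    (x : Fin (2^M)) (b : ℕ) : Haar M b (xydG M n w w' f x b) := by
  unfold Haar
  by_cases h : 0 ≤ (b:ℤ) - w' ∧ (b:ℤ) - w' ≤ n ∧ 0 ≤ (n:ℤ) + w + w' - b
  · have e : xydG M n w w' f x b = fun y =>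
        (Dm M ((n:ℤ) + w + w' - b).toNat * f * Dm M b) x y := by
      funext y
      unfold xydG
      rw [if_pos h]
    rw [e]
    funext y
    rw [xyd_row, xyd_Dm_symm, Matrix.mul_assoc, xyd_Dm_idem]
  · have e : xydG M n w w' f x b = 0 := by
      funext y
      unfold xydG
      rw [if_neg h]; rfl
    rw [e, mulVec_zero]

theorem xyd_step1 (M i j n : ℕ) (w w' : ℤ) (f : Matrix (Fin (2^M)) (Fin (2^M)) ℂ)
    (x y : Fin (2^M)) :
    ∑ p ∈ range (n+1), ‖(if 0 ≤ (p:ℤ) + w ∧ 0 ≤ ((n-p:ℕ):ℤ) + w' then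
          (Dm M (p+i) * Vm M p * (Dm M ((p:ℤ)+w).toNat * f * Dm M (((n-p:ℕ):ℤ)+w').toNat)
            * (Vm M (n-p))ᵀ * Dm M (n-p+j)) x y else 0)‖^2 ≤
    ∑ a ∈ range M, ‖(TV M i w a *ᵥ xydF M j n w w' f y a) x‖^2 := by
  apply xyd_sum _ _ _ _ (fun p => ((p:ℤ) + w).toNat)
  · intro a; positivity
  · intro p hp hu
    rw [mem_range] at hp
    by_cases hv : 0 ≤ (p:ℤ) + w ∧ 0 ≤ ((n-p:ℕ):ℤ) + w'
    · rw [if_pos hv] at hu ⊢
      have ha : ((((p:ℤ) + w).toNat : ℕ) : ℤ) = (p:ℤ) + w := Int.toNat_of_nonneg hv.1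
      by_cases hM : ((p:ℤ) + w).toNat < M
      · refine ⟨mem_range.2 hM, ?_⟩
        have hc : 0 ≤ ((((p:ℤ) + w).toNat : ℕ) : ℤ) - w ∧ ((((p:ℤ) + w).toNat : ℕ) : ℤ) - w ≤ n ∧
            0 ≤ (n:ℤ) - (((((p:ℤ) + w).toNat : ℕ) : ℤ) - w) + w' := by
          rw [ha]
          refine ⟨by omega, by omega, by omega⟩
        have e1 : (((((p:ℤ) + w).toNat : ℕ) : ℤ) - w).toNat = p := by omega
        have e2 : ((n:ℤ) - (((((p:ℤ) + w).toNat : ℕ) : ℤ) - w)).toNat = n - p := by omega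
        have e3 : (n:ℤ) - (((((p:ℤ) + w).toNat : ℕ) : ℤ) - w) + w' = ((n-p:ℕ):ℤ) + w' := by
          omega
        have eF : xydF M j n w w' f y ((p:ℤ) + w).toNat = fun x =>
            (Dm M ((p:ℤ) + w).toNat * f * Dm M (((n-p:ℕ):ℤ) + w').toNat * (Vm M (n-p))ᵀ
              * Dm M (n-p+j)) x y := by
          funext x
          unfold xydF
          rw [if_pos hc, e2, e3]
        have eT : TV M i w ((p:ℤ) + w).toNat = Dm M (p+i) * Vm M p := by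
          unfold TV
          rw [if_pos hc.1, e1]
        rw [eF, eT, xyd_col]
        simp only [Matrix.mul_assoc]
      · exfalso
        apply hu
        rw [xyd_Dm_zero M _ (not_lt.1 hM)]
        simp
    · exfalso
      apply hu
      rw [if_neg hv]
      simp
  · intro p hp p' hp' hu hu' he
    have hv : 0 ≤ (p:ℤ) + w := by
      by_contra hv
      apply hu
      rw [if_neg (fun h => hv h.1)]
      simp
    have hv' : 0 ≤ (p':ℤ) + w := by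
      by_contra hv
      apply hu'
      rw [if_neg (fun h => hv h.1)]
      simp
    have he : ((p:ℤ) + w).toNat = ((p':ℤ) + w).toNat := he
    omega

theorem xyd_step2 (M j n : ℕ) (w w' : ℤ) (f : Matrix (Fin (2^M)) (Fin (2^M)) ℂ)
    (x y : Fin (2^M)) :
    ∑ a ∈ range M, ‖xydF M j n w w' f y a x‖^2 ≤
    ∑ b ∈ range M, ‖(TV M j w' b *ᵥ xydG M n w w' f x b) y‖^2 := by
  apply xyd_sum _ _ _ _ (fun a => ((n:ℤ) + w + w' - a).toNat)
  · intro a; positivity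
  · intro a hp hu
    rw [mem_range] at hp
    by_cases hv : 0 ≤ (a:ℤ) - w ∧ (a:ℤ) - w ≤ n ∧ 0 ≤ (n:ℤ) - ((a:ℤ) - w) + w'
    · have eF : xydF M j n w w' f y a x = (Dm M a * f * Dm M ((n:ℤ) - ((a:ℤ) - w) + w').toNat
          * (Vm M ((n:ℤ) - ((a:ℤ) - w)).toNat)ᵀ
          * Dm M (((n:ℤ) - ((a:ℤ) - w)).toNat + j)) x y := by
        unfold xydF
        rw [if_pos hv]
      rw [eF] at hu ⊢
      obtain ⟨b, hb⟩ : ∃ b : ℕ, (b:ℤ) = (n:ℤ) - ((a:ℤ) - w) + w' :=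
        ⟨((n:ℤ) - ((a:ℤ) - w) + w').toNat, Int.toNat_of_nonneg hv.2.2⟩
      have hb' : ((n:ℤ) + w + w' - a).toNat = b := by omega
      have hb2 : ((n:ℤ) - ((a:ℤ) - w) + w').toNat = b := by omega
      rw [hb2] at hu ⊢
      simp only [hb']
      by_cases hM : b < M
      · refine ⟨mem_range.2 hM, ?_⟩
        have hc : 0 ≤ (b:ℤ) - w' ∧ (b:ℤ) - w' ≤ n ∧ 0 ≤ (n:ℤ) + w + w' - b := by
          refine ⟨by omega, by omega, by omega⟩
        have e1 : ((b:ℤ) - w').toNat = ((n:ℤ) - ((a:ℤ) - w)).toNat := by omega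
        have e2 : ((n:ℤ) + w + w' - b).toNat = a := by omega
        have eG : xydG M n w w' f x b = fun y => (Dm M a * f * Dm M b) x y := by
          funext y
          unfold xydG
          rw [if_pos hc, e2]
        have eT : TV M j w' b = Dm M (((n:ℤ) - ((a:ℤ) - w)).toNat + j) *
            Vm M ((n:ℤ) - ((a:ℤ) - w)).toNat := by
          unfold TV
          rw [if_pos hc.1, e1]
        rw [eG, eT, xyd_row, transpose_mul, xyd_Dm_symm]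
        simp only [Matrix.mul_assoc]
      · exfalso
        apply hu
        rw [xyd_Dm_zero M _ (not_lt.1 hM)]
        simp
    · exfalso
      apply hu
      unfold xydF
      rw [if_neg hv]
      simp
  · intro p hp p' hp' hu hu' he
    have hv : 0 ≤ (p:ℤ) - w ∧ (p:ℤ) - w ≤ n ∧ 0 ≤ (n:ℤ) - ((p:ℤ) - w) + w' := by
      by_contra hv
      apply hu
      unfold xydF
      rw [if_neg hv]
      simp
    have hv' : 0 ≤ (p':ℤ) - w ∧ (p':ℤ) - w ≤ n ∧ 0 ≤ (n:ℤ) - ((p':ℤ) - w) + w' := by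
      by_contra hv
      apply hu'
      unfold xydF
      rw [if_neg hv]
      simp
    have he : ((n:ℤ) + w + w' - p).toNat = ((n:ℤ) + w + w' - p').toNat := he
    omega

theorem xyd_step3 (M n : ℕ) (w w' : ℤ) (f : Matrix (Fin (2^M)) (Fin (2^M)) ℂ)
    (h0 : 0 ≤ (n:ℤ) + w + w') (x y : Fin (2^M)) :
    ∑ b ∈ range M, ‖xydG M n w w' f x b y‖^2 ≤
    ∑ a ∈ range (((n:ℤ) + w + w').toNat + 1),
      ‖(Dm M a * f * Dm M (((n:ℤ) + w + w').toNat - a)) x y‖^2 := by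
  apply xyd_sum _ _ _ _ (fun b => ((n:ℤ) + w + w' - b).toNat)
  · intro a; positivity
  · intro b hp hu
    by_cases hv : 0 ≤ (b:ℤ) - w' ∧ (b:ℤ) - w' ≤ n ∧ 0 ≤ (n:ℤ) + w + w' - b
    · refine ⟨mem_range.2 (by omega), ?_⟩
      have e1 : ((n:ℤ) + w + w').toNat - ((n:ℤ) + w + w' - b).toNat = b := by omega
      unfold xydG
      simp only [e1]
      rw [if_pos hv]
    · exfalso
      apply hu
      unfold xydG
      rw [if_neg hv]
      simp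
  · intro p hp p' hp' hu hu' he
    have hv : 0 ≤ (p:ℤ) - w' ∧ (p:ℤ) - w' ≤ n ∧ 0 ≤ (n:ℤ) + w + w' - p := by
      by_contra hv
      apply hu
      unfold xydG
      rw [if_neg hv]
      simp
    have hv' : 0 ≤ (p':ℤ) - w' ∧ (p':ℤ) - w' ≤ n ∧ 0 ≤ (n:ℤ) + w + w' - p' := by
      by_contra hv
      apply hu'
      unfold xydG
      rw [if_neg hv]
      simp
    have he : ((n:ℤ) + w + w' - p).toNat = ((n:ℤ) + w + w' - p').toNat := he
    omega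

theorem xyd_step4 (M n : ℕ) (w w' : ℤ) (f : Matrix (Fin (2^M)) (Fin (2^M)) ℂ)
    (h0 : ¬ 0 ≤ (n:ℤ) + w + w') (x y : Fin (2^M)) :
    ∑ b ∈ range M, ‖xydG M n w w' f x b y‖^2 = 0 := by
  apply Finset.sum_eq_zero
  intro b _
  unfold xydG
  rw [if_neg (fun h => h0 (by omega))]
  simp

theorem xydir
    (vfam : ∃ C : ℝ, 0 < C ∧ ∀ (M j : ℕ) (w : ℤ) (F : ℕ → Fin (2^M) → ℂ),
      (∀ a, Haar M a (F a)) →
      ∑ x, Real.sqrt (∑ a ∈ range M, ‖(TV M j w a *ᵥ F a) x‖^2) ≤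
        C * (1/2)^j * (2:ℝ)^(-(|(w:ℝ)|/2)) * ∑ x, Real.sqrt (∑ a ∈ range M, ‖F a x‖^2)) :
    ∃ C : ℝ, 0 < C ∧ ∀ (M i j : ℕ) (w w' : ℤ) (n : ℕ) (f : Matrix (Fin (2^M)) (Fin (2^M)) ℂ),
      ∑ x, ∑ y, Real.sqrt (∑ p ∈ range (n+1), ‖(if 0 ≤ (p:ℤ) + w ∧ 0 ≤ ((n-p:ℕ):ℤ) + w' then
          (Dm M (p+i) * Vm M p * (Dm M ((p:ℤ)+w).toNat * f * Dm M (((n-p:ℕ):ℤ)+w').toNat)
            * (Vm M (n-p))ᵀ * Dm M (n-p+j)) x y else 0)‖^2) ≤
        C * (1/2)^(i+j) * (2:ℝ)^(-((|(w:ℝ)| + |(w':ℝ)|)/2)) *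
          (if 0 ≤ (n:ℤ) + w + w' then NN M ((n:ℤ)+w+w').toNat f else 0) := by
  obtain ⟨C, hC, hv⟩ := vfam
  refine ⟨C * C, by positivity, ?_⟩
  intro M i j w w' n f
  have s1 : ∑ x, ∑ y, Real.sqrt (∑ p ∈ range (n+1), ‖(if 0 ≤ (p:ℤ) + w ∧ 0 ≤ ((n-p:ℕ):ℤ) + w' then
          (Dm M (p+i) * Vm M p * (Dm M ((p:ℤ)+w).toNat * f * Dm M (((n-p:ℕ):ℤ)+w').toNat)
            * (Vm M (n-p))ᵀ * Dm M (n-p+j)) x y else 0)‖^2) ≤
      ∑ y, ∑ x, Real.sqrt (∑ a ∈ range M, ‖(TV M i w a *ᵥ xydF M j n w w' f y a) x‖^2) := by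
    rw [Finset.sum_comm]
    refine Finset.sum_le_sum (fun y _ => Finset.sum_le_sum (fun x _ => ?_))
    exact Real.sqrt_le_sqrt (xyd_step1 M i j n w w' f x y)
  have s2 : ∑ y, ∑ x, Real.sqrt (∑ a ∈ range M, ‖(TV M i w a *ᵥ xydF M j n w w' f y a) x‖^2) ≤
      C * (1/2)^i * (2:ℝ)^(-(|(w:ℝ)|/2)) *
        ∑ y, ∑ x, Real.sqrt (∑ a ∈ range M, ‖xydF M j n w w' f y a x‖^2) := by
    rw [Finset.mul_sum]
    exact Finset.sum_le_sum (fun y _ => hv M i w (fun a => xydF M j n w w' f y a)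
      (fun a => xyd_F_haar M j n w w' f y a))
  have s3 : ∑ y, ∑ x, Real.sqrt (∑ a ∈ range M, ‖xydF M j n w w' f y a x‖^2) ≤
      ∑ x, ∑ y, Real.sqrt (∑ b ∈ range M, ‖(TV M j w' b *ᵥ xydG M n w w' f x b) y‖^2) := by
    rw [Finset.sum_comm]
    refine Finset.sum_le_sum (fun x _ => Finset.sum_le_sum (fun y _ => ?_))
    exact Real.sqrt_le_sqrt (xyd_step2 M j n w w' f x y)
  have s4 : ∑ x, ∑ y, Real.sqrt (∑ b ∈ range M, ‖(TV M j w' b *ᵥ xydG M n w w' f x b) y‖^2) ≤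
      C * (1/2)^j * (2:ℝ)^(-(|(w':ℝ)|/2)) *
        ∑ x, ∑ y, Real.sqrt (∑ b ∈ range M, ‖xydG M n w w' f x b y‖^2) := by
    rw [Finset.mul_sum]
    exact Finset.sum_le_sum (fun x _ => hv M j w' (fun b => xydG M n w w' f x b)
      (fun b => xyd_G_haar M n w w' f x b))
  have s5 : ∑ x, ∑ y, Real.sqrt (∑ b ∈ range M, ‖xydG M n w w' f x b y‖^2) ≤
      (if 0 ≤ (n:ℤ) + w + w' then NN M ((n:ℤ)+w+w').toNat f else 0) := by
    by_cases h0 : 0 ≤ (n:ℤ) + w + w'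
    · rw [if_pos h0]
      unfold NN
      refine Finset.sum_le_sum (fun x _ => Finset.sum_le_sum (fun y _ => ?_))
      exact Real.sqrt_le_sqrt (xyd_step3 M n w w' f h0 x y)
    · rw [if_neg h0]
      apply le_of_eq
      refine Finset.sum_eq_zero (fun x _ => Finset.sum_eq_zero (fun y _ => ?_))
      rw [xyd_step4 M n w w' f h0 x y, Real.sqrt_zero]
  have k1 : 0 ≤ C * (1/2)^i * (2:ℝ)^(-(|(w:ℝ)|/2)) := by positivity
  have k2 : 0 ≤ C * (1/2)^j * (2:ℝ)^(-(|(w':ℝ)|/2)) := by positivity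
  have hpow : (2:ℝ)^(-(|(w:ℝ)|/2)) * (2:ℝ)^(-(|(w':ℝ)|/2)) =
      (2:ℝ)^(-((|(w:ℝ)| + |(w':ℝ)|)/2)) := by
    rw [← Real.rpow_add (by norm_num)]
    congr 1
    ring
  calc _ ≤ _ := s1
    _ ≤ _ := s2
    _ ≤ C * (1/2)^i * (2:ℝ)^(-(|(w:ℝ)|/2)) * (C * (1/2)^j * (2:ℝ)^(-(|(w':ℝ)|/2)) *
        (if 0 ≤ (n:ℤ) + w + w' then NN M ((n:ℤ)+w+w').toNat f else 0)) :=
        mul_le_mul_of_nonneg_left (s3.trans (s4.trans (mul_le_mul_of_nonneg_left s5 k2))) k1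
    _ = C * C * (1/2)^(i+j) * (2:ℝ)^(-((|(w:ℝ)| + |(w':ℝ)|)/2)) *
          (if 0 ≤ (n:ℤ) + w + w' then NN M ((n:ℤ)+w+w').toNat f else 0) := by
        rw [← hpow, pow_add]
        ring

end BernT.ST14b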