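import Pool.Agent.Helper643.BernT

open Finset Matrix



open Finset Matrix
namespace BernT.ST14c
theorem decay_Em (M a : ℕ) (ha : M ≤ a) : Em M a = 1 := by
  ext x z
  unfold Em
  have h : M - a = 0 := Nat.sub_eq_zero_of_le ha
  rw [h, pow_zero, Nat.div_one, Nat.div_one, pow_zero, inv_one, Matrix.one_apply]
  by_cases hxz : x = z
  · subst hxz
    simp
  · rw [if_neg, if_neg hxz]
    intro h
    exact hxz (Fin.ext h)

theorem decay_Dm (M a : ℕ) (ha : M ≤ a) : Dm M a = 0 := by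
  unfold Dm
  rw [decay_Em M (a + 1) (by omega), decay_Em M a ha, sub_self]

theorem decay_sum_Dm (M : ℕ) : ∑ a ∈ range M, Dm M a = 1 - Em M 0 := by
  unfold Dm
  rw [Finset.sum_range_sub, decay_Em M M le_rfl]

theorem decay_insL {M : ℕ} (f : Matrix (Fin (2^M)) (Fin (2^M)) ℂ) (h : Em M 0 * f = 0) :
    ∑ a ∈ range M, Dm M a * f = f := by
  rw [← Finset.sum_mul, decay_sum_Dm, sub_mul, one_mul, h, sub_zero]

theorem decay_insR {M : ℕ} (f : Matrix (Fin (2^M)) (Fin (2^M)) ℂ) (h : f * Em M 0 = 0) :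
    ∑ a ∈ range M, f * Dm M a = f := by
  rw [← Finset.mul_sum, decay_sum_Dm, mul_sub, mul_one, h, sub_zero]

theorem decay_NN_zero (M m : ℕ) (f : Matrix (Fin (2^M)) (Fin (2^M)) ℂ) (hm : 2 * M ≤ m) :
    NN M m f = 0 := by
  unfold NN
  refine Finset.sum_eq_zero fun x _ => Finset.sum_eq_zero fun y _ => ?_
  have : ∑ a ∈ range (m+1), ‖(Dm M a * f * Dm M (m-a)) x y‖^2 = 0 := by
    refine Finset.sum_eq_zero fun a ha => ?_
    rcases le_or_gt M a with h | h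
    · rw [decay_Dm M a h]
      simp
    · rw [decay_Dm M (m - a) (by omega)]
      simp
  rw [this, Real.sqrt_zero]

theorem decay_NN_nonneg (M m : ℕ) (f : Matrix (Fin (2^M)) (Fin (2^M)) ℂ) : 0 ≤ NN M m f :=
  Finset.sum_nonneg fun _ _ => Finset.sum_nonneg fun _ _ => Real.sqrt_nonneg _

theorem decay_mink {ι κ : Type} (s : Finset ι) (t : Finset κ) (g : κ → ι → ℂ) :
    Real.sqrt (∑ p ∈ s, ‖∑ w ∈ t, g w p‖^2) ≤ ∑ w ∈ t, Real.sqrt (∑ p ∈ s, ‖g w p‖^2) := by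
  classical
  have h := norm_sum_le t (fun w => (WithLp.toLp 2 (fun p : s => g w p) : EuclideanSpace ℂ s))
  have e1 : ∀ w, ‖(WithLp.toLp 2 (fun p : s => g w p) : EuclideanSpace ℂ s)‖ =
      Real.sqrt (∑ p ∈ s, ‖g w p‖^2) := by
    intro w
    rw [EuclideanSpace.norm_eq, ← Finset.sum_coe_sort s]
  have e2 : ‖∑ w ∈ t, (WithLp.toLp 2 (fun p : s => g w p) : EuclideanSpace ℂ s)‖ =
      Real.sqrt (∑ p ∈ s, ‖∑ w ∈ t, g w p‖^2) := by
    rw [EuclideanSpace.norm_eq, ← Finset.sum_coe_sort s]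
    congr 1
    refine Finset.sum_congr rfl fun p _ => ?_
    congr 2
    simp
  rw [e2] at h
  simpa only [e1] using h

theorem decay_SQ {N : ℕ} {κ : Type} (t : Finset κ) (s : Finset ℕ) (F : ℕ → Fin N → Fin N → ℂ)
    (g : κ → ℕ → Fin N → Fin N → ℂ) (h : ∀ p ∈ s, ∀ x y, F p x y = ∑ w ∈ t, g w p x y) :
    ∑ x, ∑ y, Real.sqrt (∑ p ∈ s, ‖F p x y‖^2) ≤
      ∑ w ∈ t, ∑ x, ∑ y, Real.sqrt (∑ p ∈ s, ‖g w p x y‖^2) := by
  have h1 : ∀ x y, Real.sqrt (∑ p ∈ s, ‖F p x y‖^2) ≤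
      ∑ w ∈ t, Real.sqrt (∑ p ∈ s, ‖g w p x y‖^2) := by
    intro x y
    have h2 : ∑ p ∈ s, ‖F p x y‖^2 = ∑ p ∈ s, ‖∑ w ∈ t, g w p x y‖^2 :=
      Finset.sum_congr rfl fun p hp => by rw [h p hp x y]
    rw [h2]
    exact decay_mink s t (fun w p => g w p x y)
  calc ∑ x, ∑ y, Real.sqrt (∑ p ∈ s, ‖F p x y‖^2)
      ≤ ∑ x, ∑ y, ∑ w ∈ t, Real.sqrt (∑ p ∈ s, ‖g w p x y‖^2) :=
        Finset.sum_le_sum fun x _ => Finset.sum_le_sum fun y _ => h1 x y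
    _ = ∑ x, ∑ w ∈ t, ∑ y, Real.sqrt (∑ p ∈ s, ‖g w p x y‖^2) :=
        Finset.sum_congr rfl fun x _ => Finset.sum_comm
    _ = _ := Finset.sum_comm

theorem decay_reindex (M : ℕ) (Ψ : ℕ → ℂ) (hΨ : ∀ a, M ≤ a → Ψ a = 0) (p s : ℕ) (hp : p ≤ s) :
    ∑ w ∈ Finset.Icc (-(s:ℤ)) (M:ℤ), (if 0 ≤ (p:ℤ) + w then Ψ ((p:ℤ)+w).toNat else 0) =
      ∑ a ∈ range M, Ψ a := by
  classical
  rw [← Finset.sum_filter]
  symm
  have h1 : ∑ a ∈ range M, Ψ a = ∑ a ∈ (range M).image (fun a : ℕ => (a:ℤ) - p),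
      Ψ ((p:ℤ) + a).toNat := by
    rw [Finset.sum_image]
    · refine Finset.sum_congr rfl fun a _ => ?_
      congr 1
      omega
    · intro a _ b _ hab
      simp only at hab
      omega
  rw [h1]
  apply Finset.sum_subset
  · intro w hw
    rw [Finset.mem_image] at hw
    obtain ⟨a, ha, rfl⟩ := hw
    rw [Finset.mem_range] at ha
    rw [Finset.mem_filter, Finset.mem_Icc]
    omega
  · intro w hw hw2
    apply hΨ
    by_contra hcon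
    apply hw2
    rw [Finset.mem_filter] at hw
    rw [Finset.mem_image]
    refine ⟨((p:ℤ) + w).toNat, ?_, ?_⟩
    · rw [Finset.mem_range]
      omega
    · omega

theorem decay_shift (M : ℕ) (G : ℕ → ℝ) (hG : ∀ m, 0 ≤ G m) (hG2 : ∀ m, 2 * M ≤ m → G m = 0)
    (W : Finset ℤ) (s : ℤ) :
    ∑ w ∈ W, (if 0 ≤ s + w then G (s + w).toNat else 0) ≤ ∑ m ∈ range (2*M), G m := by
  classical
  have h1 : ∑ w ∈ W, (if 0 ≤ s + w then G (s + w).toNat else 0) =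
      ∑ w ∈ W.filter (fun w => 0 ≤ s + w ∧ (s + w).toNat < 2 * M), G (s + w).toNat := by
    rw [Finset.sum_filter]
    refine Finset.sum_congr rfl fun w _ => ?_
    by_cases h : 0 ≤ s + w
    · by_cases h2 : (s + w).toNat < 2 * M
      · rw [if_pos h, if_pos ⟨h, h2⟩]
      · rw [if_pos h, if_neg (fun h3 => h2 h3.2), hG2 _ (not_lt.1 h2)]
    · rw [if_neg h, if_neg (fun h3 => h h3.1)]
  rw [h1]
  have h2 : ∑ w ∈ W.filter (fun w => 0 ≤ s + w ∧ (s + w).toNat < 2 * M), G (s + w).toNat =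
      ∑ m ∈ (W.filter (fun w => 0 ≤ s + w ∧ (s + w).toNat < 2 * M)).image
        (fun w => (s + w).toNat), G m := by
    rw [Finset.sum_image]
    intro a ha b hb hab
    rw [Finset.mem_coe, Finset.mem_filter] at ha hb
    simp only at hab
    omega
  rw [h2]
  apply Finset.sum_le_sum_of_subset_of_nonneg
  · intro m hm
    rw [Finset.mem_image] at hm
    obtain ⟨w, hw, rfl⟩ := hm
    rw [Finset.mem_filter] at hw
    rw [Finset.mem_range]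
    exact hw.2.2
  · intro m _ _
    exact hG m

theorem decay_R1 (h : ℕ → ℝ) (k N : ℕ) :
    ∑ a ∈ range (N + k), (if k ≤ a then h (a - k) else 0) = ∑ p ∈ range N, h p := by
  induction N with
  | zero =>
    rw [Nat.zero_add, Finset.range_zero, Finset.sum_empty]
    refine Finset.sum_eq_zero fun a ha => ?_
    rw [Finset.mem_range] at ha
    rw [if_neg (by omega)]
  | succ N ih =>
    rw [Nat.add_right_comm, Finset.sum_range_succ, Finset.sum_range_succ, ih,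
      if_pos (Nat.le_add_left k N), Nat.add_sub_cancel]

/-- the weights are summable -/
theorem decay_D : ∃ D : ℝ, 0 < D ∧ ∀ W : Finset ℤ, ∑ w ∈ W, (2:ℝ)^(-(|(w:ℝ)|/4)) ≤ D := by
  have hr : (2:ℝ)^(-(1/4:ℝ)) < 1 :=
    Real.rpow_lt_one_of_one_lt_of_neg (by norm_num) (by norm_num)
  have hr0 : 0 ≤ (2:ℝ)^(-(1/4:ℝ)) := by positivity
  have hg := summable_geometric_of_lt_one hr0 hr
  have hs : Summable (fun w : ℤ => (2:ℝ)^(-(|(w:ℝ)|/4))) := by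
    apply Summable.of_nat_of_neg
    · refine hg.congr fun n => ?_
      rw [← Real.rpow_natCast, ← Real.rpow_mul (by norm_num)]
      congr 1
      have : |(((n : ℕ) : ℤ) : ℝ)| = n := by simp
      rw [this]
      ring
    · refine hg.congr fun n => ?_
      rw [← Real.rpow_natCast, ← Real.rpow_mul (by norm_num)]
      congr 1
      have : |((-((n : ℕ) : ℤ) : ℤ) : ℝ)| = n := by simp
      rw [this]
      ring
  refine ⟨∑' w : ℤ, (2:ℝ)^(-(|(w:ℝ)|/4)) + 1, ?_, fun W => ?_⟩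
  · have : 0 ≤ ∑' w : ℤ, (2:ℝ)^(-(|(w:ℝ)|/4)) := tsum_nonneg fun w => by positivity
    linarith
  · have := hs.sum_le_tsum W (fun w _ => by positivity)
    linarith

theorem decay_half (j : ℕ) : ((1/2:ℝ))^j = (2:ℝ)^(-(j:ℝ)) := by
  rw [Real.rpow_neg (by norm_num), Real.rpow_natCast, one_div, inv_pow]

/-- the three term decomposition -/
theorem decay_decomp (M n j1 j2 : ℕ) (h1 : 1 ≤ j1) (h2 : 1 ≤ j2)
    (f : Matrix (Fin (2^M)) (Fin (2^M)) ℂ) (hf : Spec M n f) (a b : ℕ)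
    (hab : a + b = n + (j1 + j2)) :
    Dm M a * f * Dm M b =
      (if j1 ≤ a then Dm M a * Vm M (a - j1) * f * Dm M b else 0) +
      (if j2 ≤ b then Dm M a * f * (Vm M (b - j2))ᵀ * Dm M b else 0) +
      (if j1 ≤ a ∧ j2 ≤ b then
        -(Dm M a * Vm M (a - j1) * f * (Vm M (b - j2))ᵀ * Dm M b) else 0) := by
  obtain ⟨-, -, hs3, hs4⟩ := hf
  by_cases ha : j1 ≤ a
  · by_cases hb : j2 ≤ b
    · rw [if_pos ha, if_pos hb, if_pos ⟨ha, hb⟩]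
      have h3 := hs3 (a - j1) (by omega)
      have e : n - (a - j1) = b - j2 := by omega
      rw [e] at h3
      conv_lhs => rw [h3]
      simp only [mul_add, add_mul, mul_sub, sub_mul, Matrix.mul_assoc]
      abel
    · rw [if_pos ha, if_neg hb, if_neg (fun h => hb h.2), add_zero, add_zero]
      by_cases hM : a - j1 + 2 ≤ M
      · have h4 := (hs4 (a - j1) (by omega) hM).2
        rw [Matrix.mul_assoc (Dm M a) (Vm M (a - j1)) f, h4]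
      · rw [decay_Dm M a (by omega)]
        simp
  · have hb : j2 ≤ b := by omega
    rw [if_neg ha, if_pos hb, if_neg (fun h => ha h.1), add_zero, zero_add]
    by_cases hM : b - j2 + 2 ≤ M
    · have h4 := (hs4 (b - j2) (by omega) hM).1
      rw [Matrix.mul_assoc (Dm M a) f (Vm M (b - j2))ᵀ, h4]
    · rw [decay_Dm M b (by omega)]
      simp

theorem decay_w (n l k : ℕ) (e : ℝ) (he : -(k:ℝ) + l/4 ≤ e) (w : ℤ)
    (h0 : 0 ≤ ((n+l:ℕ):ℤ) + w) :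
    (1/2:ℝ)^k * (2:ℝ)^(-(|(w:ℝ)|/2)) ≤
      (2:ℝ)^e * (2:ℝ)^(-(|((((n+l:ℕ):ℤ) + w).toNat : ℝ) - n|/4)) := by
  rw [decay_half, ← Real.rpow_add (by norm_num), ← Real.rpow_add (by norm_num)]
  apply Real.rpow_le_rpow_of_exponent_le (by norm_num)
  have h1 : ((((n+l:ℕ):ℤ) + w).toNat : ℝ) = n + l + w := by
    have h2 : (((((n+l:ℕ):ℤ) + w).toNat : ℤ) : ℝ) = ((((n+l:ℕ):ℤ) + w : ℤ) : ℝ) := by
      rw [Int.toNat_of_nonneg h0]
    push_cast at h2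
    exact_mod_cast h2
  rw [h1]
  have h3 : |(n:ℝ) + l + w - n| ≤ l + |(w:ℝ)| := by
    have h4 : (n:ℝ) + l + w - n = l + w := by ring
    rw [h4]
    have h5 : |(l:ℝ)| = l := abs_of_nonneg (Nat.cast_nonneg l)
    calc |(l:ℝ) + w| ≤ |(l:ℝ)| + |(w:ℝ)| := abs_add_le _ _
      _ = _ := by rw [h5]
  have h6 := abs_nonneg (w:ℝ)
  linarith

theorem decay_sumI (M n l k : ℕ) (e C : ℝ) (hC : 0 ≤ C) (he : -(k:ℝ) + l/4 ≤ e)
    (f : Matrix (Fin (2^M)) (Fin (2^M)) ℂ) (W : Finset ℤ) (T : ℤ → ℝ)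
    (hT : ∀ w, T w ≤ C * (1/2)^k * (2:ℝ)^(-(|(w:ℝ)|/2)) *
      (if 0 ≤ ((n+l:ℕ):ℤ) + w then NN M (((n+l:ℕ):ℤ)+w).toNat f else 0)) :
    ∑ w ∈ W, T w ≤ C * (2:ℝ)^e *
      ∑ m ∈ range (2*M), (2:ℝ)^(-(|(m:ℝ)-n|/4)) * NN M m f := by
  set G : ℕ → ℝ := fun m => (2:ℝ)^(-(|(m:ℝ)-n|/4)) * NN M m f with hG
  have hG0 : ∀ m, 0 ≤ G m := fun m => mul_nonneg (by positivity) (decay_NN_nonneg M m f)
  have hG1 : ∀ m, 2 * M ≤ m → G m = 0 := fun m hm => by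
    simp only [hG]
    rw [decay_NN_zero M m f hm, mul_zero]
  have h1 : ∀ w ∈ W, T w ≤ C * (2:ℝ)^e *
      (if 0 ≤ ((n+l:ℕ):ℤ) + w then G (((n+l:ℕ):ℤ)+w).toNat else 0) := by
    intro w _
    refine (hT w).trans ?_
    by_cases h0 : 0 ≤ ((n+l:ℕ):ℤ) + w
    · rw [if_pos h0, if_pos h0]
      have h2 := decay_w n l k e he w h0
      have h3 := decay_NN_nonneg M (((n+l:ℕ):ℤ)+w).toNat f
      calc C * (1/2)^k * (2:ℝ)^(-(|(w:ℝ)|/2)) * NN M (((n+l:ℕ):ℤ)+w).toNat f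
          = C * ((1/2)^k * (2:ℝ)^(-(|(w:ℝ)|/2))) * NN M (((n+l:ℕ):ℤ)+w).toNat f := by ring
        _ ≤ C * ((2:ℝ)^e * (2:ℝ)^(-(|((((n+l:ℕ):ℤ) + w).toNat : ℝ) - n|/4))) *
            NN M (((n+l:ℕ):ℤ)+w).toNat f :=
          mul_le_mul_of_nonneg_right (mul_le_mul_of_nonneg_left h2 hC) h3
        _ = _ := by simp only [hG]; ring
    · rw [if_neg h0, if_neg h0, mul_zero, mul_zero]
  refine (Finset.sum_le_sum h1).trans ?_
  rw [← Finset.mul_sum]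
  exact mul_le_mul_of_nonneg_left (decay_shift M G hG0 hG1 W _) (by positivity)

theorem decay_I (M j1 s : ℕ) (f : Matrix (Fin (2^M)) (Fin (2^M)) ℂ) (hE : Em M 0 * f = 0) :
    ∑ x, ∑ y, Real.sqrt (∑ p ∈ range (s+1),
      ‖(Dm M (p+j1) * Vm M p * f * Dm M (s-p)) x y‖^2) ≤
    ∑ w ∈ Finset.Icc (-(s:ℤ)) (M:ℤ), ∑ x, ∑ y, Real.sqrt (∑ p ∈ range (s+1),
      ‖(if 0 ≤ (p:ℤ) + w then
          (Dm M (p+j1) * Vm M p * (Dm M ((p:ℤ)+w).toNat * f * Dm M (s-p))) x y else 0)‖^2) := by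
  refine decay_SQ (Finset.Icc (-(s:ℤ)) (M:ℤ)) (range (s+1))
    (fun p x y => (Dm M (p+j1) * Vm M p * f * Dm M (s-p)) x y)
    (fun w p x y => if 0 ≤ (p:ℤ) + w then
          (Dm M (p+j1) * Vm M p * (Dm M ((p:ℤ)+w).toNat * f * Dm M (s-p))) x y else 0) ?_
  intro p hp x y
  rw [Finset.mem_range] at hp
  have e1 : Dm M (p+j1) * Vm M p * f * Dm M (s-p) =
      ∑ a ∈ range M, Dm M (p+j1) * Vm M p * (Dm M a * f * Dm M (s-p)) := by
    rw [← Finset.mul_sum, ← Finset.sum_mul, decay_insL f hE, Matrix.mul_assoc _ f]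
  have h2 := decay_reindex M
    (fun a => (Dm M (p+j1) * Vm M p * (Dm M a * f * Dm M (s-p))) x y)
    (fun a ha => by simp only [decay_Dm M a ha, zero_mul, mul_zero, Matrix.zero_apply]) p s
    (by omega)
  rw [e1, Matrix.sum_apply]
  exact h2.symm

theorem decay_II (M j2 s : ℕ) (f : Matrix (Fin (2^M)) (Fin (2^M)) ℂ) (hE : f * Em M 0 = 0) :
    ∑ x, ∑ y, Real.sqrt (∑ q ∈ range (s+1),
      ‖(Dm M (s-q) * f * (Vm M q)ᵀ * Dm M (q+j2)) x y‖^2) ≤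
    ∑ w ∈ Finset.Icc (-(s:ℤ)) (M:ℤ), ∑ x, ∑ y, Real.sqrt (∑ q ∈ range (s+1),
      ‖(if 0 ≤ (q:ℤ) + w then
          ((Dm M (s-q) * f * Dm M ((q:ℤ)+w).toNat) * (Vm M q)ᵀ * Dm M (q+j2)) x y
            else 0)‖^2) := by
  refine decay_SQ (Finset.Icc (-(s:ℤ)) (M:ℤ)) (range (s+1))
    (fun q x y => (Dm M (s-q) * f * (Vm M q)ᵀ * Dm M (q+j2)) x y)
    (fun w q x y => if 0 ≤ (q:ℤ) + w then
          ((Dm M (s-q) * f * Dm M ((q:ℤ)+w).toNat) * (Vm M q)ᵀ * Dm M (q+j2)) x y else 0) ?_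
  intro q hq x y
  rw [Finset.mem_range] at hq
  have e1 : Dm M (s-q) * f * (Vm M q)ᵀ * Dm M (q+j2) =
      ∑ a ∈ range M, (Dm M (s-q) * f * Dm M a) * (Vm M q)ᵀ * Dm M (q+j2) := by
    rw [← Finset.sum_mul, ← Finset.sum_mul]
    simp_rw [Matrix.mul_assoc (Dm M (s-q)) f]
    rw [← Finset.mul_sum, decay_insR f hE, Matrix.mul_assoc (Dm M (s-q)) f]
  have h2 := decay_reindex M
    (fun a => ((Dm M (s-q) * f * Dm M a) * (Vm M q)ᵀ * Dm M (q+j2)) x y)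
    (fun a ha => by simp only [decay_Dm M a ha, zero_mul, mul_zero, Matrix.zero_apply]) q s
    (by omega)
  rw [e1, Matrix.sum_apply]
  exact h2.symm

theorem decay_III (M i j n : ℕ) (f : Matrix (Fin (2^M)) (Fin (2^M)) ℂ) (hE : Em M 0 * f = 0)
    (hE2 : f * Em M 0 = 0) :
    ∑ x, ∑ y, Real.sqrt (∑ p ∈ range (n+1),
      ‖(Dm M (p+i) * Vm M p * f * (Vm M (n-p))ᵀ * Dm M (n-p+j)) x y‖^2) ≤
    ∑ w ∈ Finset.Icc (-(n:ℤ)) (M:ℤ) ×ˢ Finset.Icc (-(n:ℤ)) (M:ℤ), ∑ x, ∑ y,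
      Real.sqrt (∑ p ∈ range (n+1), ‖(if 0 ≤ (p:ℤ) + w.1 ∧ 0 ≤ ((n-p:ℕ):ℤ) + w.2 then
          (Dm M (p+i) * Vm M p * (Dm M ((p:ℤ)+w.1).toNat * f * Dm M (((n-p:ℕ):ℤ)+w.2).toNat)
            * (Vm M (n-p))ᵀ * Dm M (n-p+j)) x y else 0)‖^2) := by
  refine decay_SQ (Finset.Icc (-(n:ℤ)) (M:ℤ) ×ˢ Finset.Icc (-(n:ℤ)) (M:ℤ)) (range (n+1))
    (fun p x y => (Dm M (p+i) * Vm M p * f * (Vm M (n-p))ᵀ * Dm M (n-p+j)) x y)
    (fun w p x y => if 0 ≤ (p:ℤ) + w.1 ∧ 0 ≤ ((n-p:ℕ):ℤ) + w.2 then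
          (Dm M (p+i) * Vm M p * (Dm M ((p:ℤ)+w.1).toNat * f * Dm M (((n-p:ℕ):ℤ)+w.2).toNat)
            * (Vm M (n-p))ᵀ * Dm M (n-p+j)) x y else 0) ?_
  intro p hp x y
  rw [Finset.mem_range] at hp
  set Ψ : ℕ → ℕ → ℂ := fun a b => (Dm M (p+i) * Vm M p * (Dm M a * f * Dm M b)
            * (Vm M (n-p))ᵀ * Dm M (n-p+j)) x y with hΨ
  have e1 : Dm M (p+i) * Vm M p * f * (Vm M (n-p))ᵀ * Dm M (n-p+j) =
      ∑ a ∈ range M, ∑ b ∈ range M, Dm M (p+i) * Vm M p * (Dm M a * f * Dm M b)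
            * (Vm M (n-p))ᵀ * Dm M (n-p+j) := by
    have h1 : ∀ a, ∑ b ∈ range M, Dm M (p+i) * Vm M p * (Dm M a * f * Dm M b)
            * (Vm M (n-p))ᵀ * Dm M (n-p+j) =
        Dm M (p+i) * Vm M p * (Dm M a * f) * (Vm M (n-p))ᵀ * Dm M (n-p+j) := by
      intro a
      rw [← Finset.sum_mul, ← Finset.sum_mul, ← Finset.mul_sum]
      simp_rw [Matrix.mul_assoc (Dm M a) f]
      rw [← Finset.mul_sum, decay_insR f hE2]
    simp_rw [h1]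
    rw [← Finset.sum_mul, ← Finset.sum_mul, ← Finset.mul_sum, decay_insL f hE]
  rw [e1, Matrix.sum_apply]
  have h2 : ∀ a, (∑ b ∈ range M, Dm M (p+i) * Vm M p * (Dm M a * f * Dm M b)
            * (Vm M (n-p))ᵀ * Dm M (n-p+j)) x y = ∑ b ∈ range M, Ψ a b := by
    intro a
    rw [Matrix.sum_apply]
  simp_rw [h2]
  rw [Finset.sum_product]
  have hz1 : ∀ a b, M ≤ a → Ψ a b = 0 := by
    intro a b ha
    simp only [hΨ, decay_Dm M a ha, zero_mul, mul_zero, Matrix.zero_apply]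
  have hz2 : ∀ a b, M ≤ b → Ψ a b = 0 := by
    intro a b ha
    simp only [hΨ, decay_Dm M b ha, zero_mul, mul_zero, Matrix.zero_apply]
  rw [← decay_reindex M (fun a => ∑ b ∈ range M, Ψ a b)
    (fun a ha => Finset.sum_eq_zero fun b _ => hz1 a b ha) p n (by omega)]
  refine Finset.sum_congr rfl fun w _ => ?_
  by_cases h0 : 0 ≤ (p:ℤ) + w
  · rw [if_pos h0, ← decay_reindex M (fun b => Ψ ((p:ℤ)+w).toNat b)
      (fun b hb => hz2 _ b hb) (n-p) n (by omega)]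
    refine Finset.sum_congr rfl fun w' _ => ?_
    by_cases h3 : 0 ≤ ((n-p:ℕ):ℤ) + w'
    · rw [if_pos h3, if_pos ⟨h0, h3⟩]
    · rw [if_neg h3, if_neg (fun h => h3 h.2)]
  · rw [if_neg h0]
    symm
    refine Finset.sum_eq_zero fun w' _ => ?_
    rw [if_neg (fun h => h0 h.1)]

theorem decay_sumIII (M n j : ℕ) (C D : ℝ) (hC : 0 ≤ C)
    (hD : ∀ W : Finset ℤ, ∑ w ∈ W, (2:ℝ)^(-(|(w:ℝ)|/4)) ≤ D)
    (f : Matrix (Fin (2^M)) (Fin (2^M)) ℂ) (W W' : Finset ℤ) (T : ℤ × ℤ → ℝ)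
    (hT : ∀ w : ℤ × ℤ, T w ≤ C * (1/2)^j * (2:ℝ)^(-((|(w.1:ℝ)| + |(w.2:ℝ)|)/2)) *
          (if 0 ≤ (n:ℤ) + w.1 + w.2 then NN M ((n:ℤ)+w.1+w.2).toNat f else 0)) :
    ∑ w ∈ W ×ˢ W', T w ≤ C * D * (2:ℝ)^(-(3*(j:ℝ)/8)) *
      ∑ m ∈ range (2*M), (2:ℝ)^(-(|(m:ℝ)-n|/4)) * NN M m f := by
  set G : ℕ → ℝ := fun m => (2:ℝ)^(-(|(m:ℝ)-n|/4)) * NN M m f with hG
  have hG0 : ∀ m, 0 ≤ G m := fun m => mul_nonneg (by positivity) (decay_NN_nonneg M m f)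
  have hG1 : ∀ m, 2 * M ≤ m → G m = 0 := fun m hm => by
    simp only [hG]
    rw [decay_NN_zero M m f hm, mul_zero]
  set S : ℝ := ∑ m ∈ range (2*M), G m with hS
  have hS0 : 0 ≤ S := Finset.sum_nonneg fun m _ => hG0 m
  have h1 : ∀ w w' : ℤ, T (w, w') ≤ C * (2:ℝ)^(-(3*(j:ℝ)/8)) * (2:ℝ)^(-(|(w:ℝ)|/4)) *
      (if 0 ≤ ((n:ℤ) + w) + w' then G (((n:ℤ)+w)+w').toNat else 0) := by
    intro w w'
    refine (hT (w, w')).trans ?_
    simp only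
    by_cases h0 : 0 ≤ (n:ℤ) + w + w'
    · rw [if_pos h0, if_pos h0]
      have h3 := decay_NN_nonneg M ((n:ℤ)+w+w').toNat f
      have h2 : (1/2:ℝ)^j * (2:ℝ)^(-((|(w:ℝ)| + |(w':ℝ)|)/2)) ≤
          (2:ℝ)^(-(3*(j:ℝ)/8)) * (2:ℝ)^(-(|(w:ℝ)|/4)) *
            (2:ℝ)^(-(|((((n:ℤ)+w)+w').toNat : ℝ) - n|/4)) := by
        rw [decay_half, ← Real.rpow_add (by norm_num), ← Real.rpow_add (by norm_num),
          ← Real.rpow_add (by norm_num)]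
        apply Real.rpow_le_rpow_of_exponent_le (by norm_num)
        have h4 : ((((n:ℤ)+w)+w').toNat : ℝ) = n + w + w' := by
          have h5 : (((((n:ℤ)+w)+w').toNat : ℤ) : ℝ) = ((((n:ℤ)+w)+w' : ℤ) : ℝ) := by
            rw [Int.toNat_of_nonneg h0]
          push_cast at h5
          exact_mod_cast h5
        rw [h4]
        have h6 : |(n:ℝ) + w + w' - n| ≤ |(w:ℝ)| + |(w':ℝ)| := by
          have h7 : (n:ℝ) + w + w' - n = w + w' := by ring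
          rw [h7]
          exact abs_add_le _ _
        have h8 := abs_nonneg (w:ℝ)
        have h9 := abs_nonneg (w':ℝ)
        have h10 : (0:ℝ) ≤ j := Nat.cast_nonneg j
        linarith
      calc C * (1/2)^j * (2:ℝ)^(-((|(w:ℝ)| + |(w':ℝ)|)/2)) * NN M ((n:ℤ)+w+w').toNat f
          = C * ((1/2)^j * (2:ℝ)^(-((|(w:ℝ)| + |(w':ℝ)|)/2))) *
              NN M ((n:ℤ)+w+w').toNat f := by ring
        _ ≤ C * ((2:ℝ)^(-(3*(j:ℝ)/8)) * (2:ℝ)^(-(|(w:ℝ)|/4)) *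
            (2:ℝ)^(-(|((((n:ℤ)+w)+w').toNat : ℝ) - n|/4))) * NN M ((n:ℤ)+w+w').toNat f :=
          mul_le_mul_of_nonneg_right (mul_le_mul_of_nonneg_left h2 hC) h3
        _ = _ := by simp only [hG]; ring
    · rw [if_neg h0, if_neg h0, mul_zero, mul_zero]
  rw [Finset.sum_product]
  calc ∑ w ∈ W, ∑ w' ∈ W', T (w, w')
      ≤ ∑ w ∈ W, ∑ w' ∈ W', C * (2:ℝ)^(-(3*(j:ℝ)/8)) * (2:ℝ)^(-(|(w:ℝ)|/4)) *
          (if 0 ≤ ((n:ℤ) + w) + w' then G (((n:ℤ)+w)+w').toNat else 0) :=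
        Finset.sum_le_sum fun w _ => Finset.sum_le_sum fun w' _ => h1 w w'
    _ ≤ ∑ w ∈ W, C * (2:ℝ)^(-(3*(j:ℝ)/8)) * (2:ℝ)^(-(|(w:ℝ)|/4)) * S := by
        refine Finset.sum_le_sum fun w _ => ?_
        rw [← Finset.mul_sum]
        exact mul_le_mul_of_nonneg_left (decay_shift M G hG0 hG1 W' _) (by positivity)
    _ = C * (2:ℝ)^(-(3*(j:ℝ)/8)) * S * ∑ w ∈ W, (2:ℝ)^(-(|(w:ℝ)|/4)) := by
        rw [Finset.mul_sum]
        refine Finset.sum_congr rfl fun w _ => ?_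
        ring
    _ ≤ C * (2:ℝ)^(-(3*(j:ℝ)/8)) * S * D := mul_le_mul_of_nonneg_left (hD W) (by positivity)
    _ = _ := by ring

theorem decay_split (M n j1 j2 : ℕ) (h1 : 1 ≤ j1) (h2 : 1 ≤ j2)
    (f : Matrix (Fin (2^M)) (Fin (2^M)) ℂ) (hf : Spec M n f) :
    NN M (n+(j1+j2)) f ≤
      (∑ x, ∑ y, Real.sqrt (∑ p ∈ range (n+j2+1),
        ‖(Dm M (p+j1) * Vm M p * f * Dm M (n+j2-p)) x y‖^2)) +
      (∑ x, ∑ y, Real.sqrt (∑ q ∈ range (n+j1+1),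
        ‖(Dm M (n+j1-q) * f * (Vm M q)ᵀ * Dm M (q+j2)) x y‖^2)) +
      (∑ x, ∑ y, Real.sqrt (∑ p ∈ range (n+1),
        ‖(Dm M (p+j1) * Vm M p * f * (Vm M (n-p))ᵀ * Dm M (n-p+j2)) x y‖^2)) := by
  have h0 := decay_SQ (N := 2^M) (Finset.univ : Finset (Fin 3)) (range (n+(j1+j2)+1))
    (fun a x y => (Dm M a * f * Dm M (n+(j1+j2)-a)) x y)
    (![fun a x y => (if j1 ≤ a then
          (Dm M a * Vm M (a - j1) * f * Dm M (n+(j1+j2)-a)) x y else 0),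
       fun a x y => (if j2 ≤ n+(j1+j2)-a then
          (Dm M a * f * (Vm M (n+(j1+j2)-a - j2))ᵀ * Dm M (n+(j1+j2)-a)) x y else 0),
       fun a x y => (if j1 ≤ a ∧ j2 ≤ n+(j1+j2)-a then
          -(Dm M a * Vm M (a - j1) * f * (Vm M (n+(j1+j2)-a - j2))ᵀ *
            Dm M (n+(j1+j2)-a)) x y else 0)]) (by
      intro a ha x y
      rw [Finset.mem_range] at ha
      have hd := decay_decomp M n j1 j2 h1 h2 f hf a (n+(j1+j2)-a) (by omega)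
      have hd2 := congrFun (congrFun hd x) y
      rw [hd2, Fin.sum_univ_three]
      simp only [Matrix.add_apply, Matrix.cons_val_zero, Matrix.cons_val_one,
        Matrix.cons_val]
      congr 1
      · congr 1
        · split_ifs <;> rfl
        · split_ifs <;> rfl
      · split_ifs <;> rfl)
  rw [Fin.sum_univ_three] at h0
  simp only [Matrix.cons_val_zero, Matrix.cons_val_one, Matrix.cons_val] at h0
  refine h0.trans (le_of_eq ?_)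
  congr 1
  · congr 1
    · refine Finset.sum_congr rfl fun x _ => Finset.sum_congr rfl fun y _ => ?_
      congr 1
      rw [← decay_R1 (fun p => ‖(Dm M (p+j1) * Vm M p * f * Dm M (n+j2-p)) x y‖^2) j1 (n+j2+1)]
      have e : n + (j1 + j2) + 1 = n + j2 + 1 + j1 := by omega
      rw [e]
      refine Finset.sum_congr rfl fun a _ => ?_
      by_cases ha : j1 ≤ a
      · rw [if_pos ha, if_pos ha]
        obtain ⟨p, rfl⟩ := Nat.exists_eq_add_of_le' ha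
        rw [Nat.add_sub_cancel]
        have e2 : n + (j1 + j2) - (p + j1) = n + j2 - p := by omega
        rw [e2]
      · rw [if_neg ha, if_neg ha]
        simp
    · refine Finset.sum_congr rfl fun x _ => Finset.sum_congr rfl fun y _ => ?_
      congr 1
      rw [← decay_R1 (fun q => ‖(Dm M (n+j1-q) * f * (Vm M q)ᵀ * Dm M (q+j2)) x y‖^2)
        j2 (n+j1+1), ← Finset.sum_range_reflect]
      have e : n + (j1 + j2) + 1 = n + j1 + 1 + j2 := by omega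
      rw [← e]
      refine Finset.sum_congr rfl fun b hb => ?_
      rw [Finset.mem_range] at hb
      have e3 : n + (j1 + j2) - (n + (j1 + j2) + 1 - 1 - b) = b := by omega
      rw [e3]
      by_cases hb2 : j2 ≤ b
      · rw [if_pos hb2, if_pos hb2]
        obtain ⟨q, rfl⟩ := Nat.exists_eq_add_of_le' hb2
        have e7 : q + j2 - j2 = q := by omega
        have e2 : n + (j1 + j2) + 1 - 1 - (q + j2) = n + j1 - q := by omega
        rw [e2, e7]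
      · rw [if_neg hb2, if_neg hb2]
        simp
  · refine Finset.sum_congr rfl fun x _ => Finset.sum_congr rfl fun y _ => ?_
    congr 1
    have e4 : ∑ p ∈ range (n+1),
        ‖(Dm M (p+j1) * Vm M p * f * (Vm M (n-p))ᵀ * Dm M (n-p+j2)) x y‖^2 =
        ∑ p ∈ range (n+j2+1), (if p ≤ n then
        ‖(Dm M (p+j1) * Vm M p * f * (Vm M (n-p))ᵀ * Dm M (n-p+j2)) x y‖^2 else 0) := by
      rw [← Finset.sum_filter]
      refine Finset.sum_congr ?_ fun _ _ => rfl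
      ext p
      simp only [Finset.mem_range, Finset.mem_filter]
      omega
    rw [e4, ← decay_R1 (fun p => (if p ≤ n then
        ‖(Dm M (p+j1) * Vm M p * f * (Vm M (n-p))ᵀ * Dm M (n-p+j2)) x y‖^2 else 0))
        j1 (n+j2+1)]
    have e : n + (j1 + j2) + 1 = n + j2 + 1 + j1 := by omega
    rw [e]
    refine Finset.sum_congr rfl fun a ha0 => ?_
    rw [Finset.mem_range] at ha0
    by_cases ha : j1 ≤ a
    · rw [if_pos ha]
      obtain ⟨p, rfl⟩ := Nat.exists_eq_add_of_le' ha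
      rw [Nat.add_sub_cancel]
      have e2 : n + (j1 + j2) - (p + j1) = n + j2 - p := by omega
      rw [e2]
      by_cases hp : p ≤ n
      · rw [if_pos ⟨ha, by omega⟩, if_pos hp]
        have e5 : n + j2 - p - j2 = n - p := by omega
        have e6 : n + j2 - p = n - p + j2 := by omega
        rw [e5, e6, norm_neg]
      · rw [if_neg (fun h => hp (by omega)), if_neg hp]
        simp
    · rw [if_neg ha, if_neg (fun h => ha h.1)]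
      simp

theorem decay
    (xdir : ∃ C : ℝ, 0 < C ∧ ∀ (M j : ℕ) (w : ℤ) (s : ℕ) (f : Matrix (Fin (2^M)) (Fin (2^M)) ℂ),
      (∑ x, ∑ y, Real.sqrt (∑ p ∈ range (s+1), ‖(if 0 ≤ (p:ℤ) + w then
          (Dm M (p+j) * Vm M p * (Dm M ((p:ℤ)+w).toNat * f * Dm M (s-p))) x y else 0)‖^2) ≤
        C * (1/2)^j * (2:ℝ)^(-(|(w:ℝ)|/2)) *
          (if 0 ≤ (s:ℤ) + w then NN M ((s:ℤ)+w).toNat f else 0)) ∧
      (∑ x, ∑ y, Real.sqrt (∑ q ∈ range (s+1), ‖(if 0 ≤ (q:ℤ) + w then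
          ((Dm M (s-q) * f * Dm M ((q:ℤ)+w).toNat) * (Vm M q)ᵀ * Dm M (q+j)) x y else 0)‖^2) ≤
        C * (1/2)^j * (2:ℝ)^(-(|(w:ℝ)|/2)) *
          (if 0 ≤ (s:ℤ) + w then NN M ((s:ℤ)+w).toNat f else 0)))
    (xydir : ∃ C : ℝ, 0 < C ∧ ∀ (M i j : ℕ) (w w' : ℤ) (n : ℕ)
      (f : Matrix (Fin (2^M)) (Fin (2^M)) ℂ),
      ∑ x, ∑ y, Real.sqrt (∑ p ∈ range (n+1), ‖(if 0 ≤ (p:ℤ) + w ∧ 0 ≤ ((n-p:ℕ):ℤ) + w' then
          (Dm M (p+i) * Vm M p * (Dm M ((p:ℤ)+w).toNat * f * Dm M (((n-p:ℕ):ℤ)+w').toNat)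
            * (Vm M (n-p))ᵀ * Dm M (n-p+j)) x y else 0)‖^2) ≤
        C * (1/2)^(i+j) * (2:ℝ)^(-((|(w:ℝ)| + |(w':ℝ)|)/2)) *
          (if 0 ≤ (n:ℤ) + w + w' then NN M ((n:ℤ)+w+w').toNat f else 0)) :
    ∃ C : ℝ, 0 < C ∧ ∀ (M n j : ℕ) (f : Matrix (Fin (2^M)) (Fin (2^M)) ℂ), 2 ≤ j →
      Spec M n f →
      NN M (n+j) f ≤ C * (2:ℝ)^(-(3*(j:ℝ)/8)) *
        ∑ m ∈ range (2*M), (2:ℝ)^(-(|(m:ℝ)-n|/4)) * NN M m f := by
  obtain ⟨Cx, hCx, hx⟩ := xdir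
  obtain ⟨Cy, hCy, hy⟩ := xydir
  obtain ⟨D, hD, hDs⟩ := decay_D
  refine ⟨2 * Cx * (2:ℝ)^(5/8:ℝ) + Cy * D, by positivity, ?_⟩
  intro M n j f hj hf
  obtain ⟨j1, j2, hj12, h1, h2, h3, h4⟩ : ∃ j1 j2 : ℕ, j = j1 + j2 ∧ 1 ≤ j1 ∧ 1 ≤ j2 ∧
      j1 ≤ j2 ∧ j2 ≤ j1 + 1 := ⟨j / 2, j - j / 2, by omega, by omega, by omega, by omega, by omega⟩
  subst hj12
  have h3' : (j1:ℝ) ≤ j2 := by exact_mod_cast h3
  have h4' : (j2:ℝ) ≤ j1 + 1 := by exact_mod_cast h4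
  have hsplit := decay_split M n j1 j2 h1 h2 f hf
  have hE1 := hf.1
  have hE2 := hf.2.1
  set S : ℝ := ∑ m ∈ range (2*M), (2:ℝ)^(-(|(m:ℝ)-n|/4)) * NN M m f with hS
  have hI := (decay_I M j1 (n+j2) f hE1).trans
    (decay_sumI M n j2 j1 (5/8 - 3*((j1+j2:ℕ):ℝ)/8) Cx hCx.le (by push_cast; linarith) f _ _
      (fun w => (hx M j1 w (n+j2) f).1))
  have hII := (decay_II M j2 (n+j1) f hE2).trans
    (decay_sumI M n j1 j2 (5/8 - 3*((j1+j2:ℕ):ℝ)/8) Cx hCx.le (by push_cast; linarith) f _ _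
      (fun w => (hx M j2 w (n+j1) f).2))
  have hIII := (decay_III M j1 j2 n f hE1 hE2).trans
    (decay_sumIII M n (j1+j2) Cy D hCy.le hDs f _ _ _ (fun w => hy M j1 j2 w.1 w.2 n f))
  rw [← hS] at hI hII hIII
  have he : (2:ℝ)^(5/8 - 3*((j1+j2:ℕ):ℝ)/8) = (2:ℝ)^(5/8:ℝ) * (2:ℝ)^(-(3*((j1+j2:ℕ):ℝ)/8)) := by
    rw [← Real.rpow_add (by norm_num)]
    congr 1
  rw [he] at hI hII
  calc NN M (n+(j1+j2)) f ≤ _ := hsplit
    _ ≤ Cx * ((2:ℝ)^(5/8:ℝ) * (2:ℝ)^(-(3*((j1+j2:ℕ):ℝ)/8))) * S +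
        Cx * ((2:ℝ)^(5/8:ℝ) * (2:ℝ)^(-(3*((j1+j2:ℕ):ℝ)/8))) * S +
        Cy * D * (2:ℝ)^(-(3*((j1+j2:ℕ):ℝ)/8)) * S := add_le_add (add_le_add hI hII) hIII
    _ = _ := by ring

end BernT.ST14c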