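import Pool.Agent.Helper643.BernT

open Finset Matrix



open Finset Matrix
namespace BernT.ST15a
theorem ab_Em_one (M a : ℕ) (h : M ≤ a) : Em M a = 1 := by
  ext x z
  unfold Em
  have h0 : M - a = 0 := by omega
  rw [h0]
  by_cases hxz : x = z
  · subst hxz; simp
  · rw [if_neg (fun h => hxz (Fin.ext (by simpa using h))), Matrix.one_apply_ne hxz]

theorem ab_Dm_zero (M a : ℕ) (h : M ≤ a) : Dm M a = 0 := by
  unfold Dm; rw [ab_Em_one M a h, ab_Em_one M (a+1) (by omega), sub_self]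

theorem ab_sum_Dm (M B : ℕ) (h : M ≤ B) : ∑ b ∈ range B, Dm M b = 1 - Em M 0 := by
  unfold Dm
  rw [Finset.sum_range_sub, ab_Em_one M B h]

theorem ab_decomp {M : ℕ} {f : Matrix (Fin (2^M)) (Fin (2^M)) ℂ} (h1 : Em M 0 * f = 0)
    (h2 : f * Em M 0 = 0) : ∑ m ∈ range (2*M), Dg M m f = f := by
  unfold Dg
  have h0 := Finset.sum_range_diag_flip (2*M) (fun a b => Dm M a * f * Dm M b)
  beta_reduce at h0
  rw [h0]
  have h3 : ∀ a ∈ range (2*M), ∑ b ∈ range (2*M - a), Dm M a * f * Dm M b = Dm M a * f := by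
    intro a ha
    rcases le_or_gt M a with h | h
    · rw [ab_Dm_zero M a h]; simp
    · rw [← Finset.mul_sum, ab_sum_Dm M _ (by omega), mul_sub, mul_one, mul_assoc _ f, h2,
        mul_zero, sub_zero]
  rw [Finset.sum_congr rfl h3, ← Finset.sum_mul, ab_sum_Dm M _ (by omega), sub_mul, one_mul, h1,
    sub_zero]

theorem ab_L1_add (M : ℕ) (f g : Matrix (Fin (2^M)) (Fin (2^M)) ℂ) :
    L1 M (f+g) ≤ L1 M f + L1 M g := by
  unfold L1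
  rw [← Finset.sum_add_distrib]
  apply Finset.sum_le_sum
  intro x _
  rw [← Finset.sum_add_distrib]
  apply Finset.sum_le_sum
  intro y _
  exact norm_add_le _ _

theorem ab_L1_neg (M : ℕ) (f : Matrix (Fin (2^M)) (Fin (2^M)) ℂ) : L1 M (-f) = L1 M f := by
  unfold L1; simp

theorem ab_L1_nonneg (M : ℕ) (f : Matrix (Fin (2^M)) (Fin (2^M)) ℂ) : 0 ≤ L1 M f := by
  unfold L1
  exact Finset.sum_nonneg fun x _ => Finset.sum_nonneg fun y _ => norm_nonneg _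

theorem ab_NN_nonneg (M m : ℕ) (f : Matrix (Fin (2^M)) (Fin (2^M)) ℂ) : 0 ≤ NN M m f := by
  unfold NN
  exact Finset.sum_nonneg fun x _ => Finset.sum_nonneg fun y _ => Real.sqrt_nonneg _

theorem ab_L1_sum (M : ℕ) (s : Finset ℕ) (g : ℕ → Matrix (Fin (2^M)) (Fin (2^M)) ℂ) :
    L1 M (∑ i ∈ s, g i) ≤ ∑ i ∈ s, L1 M (g i) := by
  classical
  induction s using Finset.induction_on with
  | empty => simp [L1]
  | insert a s ha ih =>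
    rw [Finset.sum_insert ha, Finset.sum_insert ha]
    exact (ab_L1_add M _ _).trans (add_le_add le_rfl ih)

theorem ab_PK {M K : ℕ} {f : Matrix (Fin (2^M)) (Fin (2^M)) ℂ} (hK : K ≤ 2*M)
    (h1 : Em M 0 * f = 0) (h2 : f * Em M 0 = 0) :
    L1 M (PK M K f) ≤ L1 M f + ∑ m ∈ Ico K (2*M), L1 M (Dg M m f) := by
  have hd := ab_decomp h1 h2
  rw [← Finset.sum_range_add_sum_Ico _ hK] at hd
  have h3 : PK M K f = f + -(∑ m ∈ Ico K (2*M), Dg M m f) := by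
    unfold PK
    rw [eq_comm, ← sub_eq_add_neg, sub_eq_iff_eq_add]
    exact hd.symm
  rw [h3]
  refine (ab_L1_add M _ _).trans ?_
  rw [ab_L1_neg]
  exact add_le_add le_rfl (ab_L1_sum M _ _)

/-- uniform bound of the weighted sums -/
theorem ab_weight : ∃ C : ℝ, 0 < C ∧ ∀ n K : ℕ,
    ∑ m ∈ range K, (2:ℝ)^(-(|(m:ℝ)-n|/4)) * (|(m:ℝ)-n| + 1)^2 ≤ C := by
  obtain ⟨ρ, hρ⟩ : ∃ ρ : ℝ, ρ = (2:ℝ)^(-(1/4:ℝ)) := ⟨_, rfl⟩
  have hρ0 : 0 < ρ := by rw [hρ]; positivity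
  have hρ1 : ρ < 1 := by rw [hρ]; exact Real.rpow_lt_one_of_one_lt_of_neg (by norm_num) (by norm_num)
  have hpow : ∀ j : ℕ, (2:ℝ)^(-((j:ℝ)/4)) = ρ^j := by
    intro j
    rw [hρ, ← Real.rpow_natCast, ← Real.rpow_mul (by norm_num)]
    congr 1; ring
  have hn : ‖ρ‖ < 1 := by rw [Real.norm_of_nonneg hρ0.le]; exact hρ1
  have hs : Summable fun j : ℕ => (2:ℝ)^(-((j:ℝ)/4)) * ((j:ℝ) + 1)^2 := by
    have h0 := summable_pow_mul_geometric_of_norm_lt_one 0 hn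
    have h1 := summable_pow_mul_geometric_of_norm_lt_one 1 hn
    have h2 := summable_pow_mul_geometric_of_norm_lt_one 2 hn
    refine ((h2.add (h1.mul_left 2)).add h0).congr ?_
    intro j
    rw [hpow j]; ring
  have hz : Summable fun z : ℤ => (2:ℝ)^(-(|(z:ℝ)|/4)) * (|(z:ℝ)| + 1)^2 := by
    rw [summable_int_iff_summable_nat_and_neg]
    constructor
    · refine hs.congr ?_
      intro j
      rw [Int.cast_natCast, abs_of_nonneg (Nat.cast_nonneg j)]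
    · refine hs.congr ?_
      intro j
      rw [Int.cast_neg, Int.cast_natCast, abs_neg, abs_of_nonneg (Nat.cast_nonneg j)]
  refine ⟨(∑' z : ℤ, (2:ℝ)^(-(|(z:ℝ)|/4)) * (|(z:ℝ)| + 1)^2) + 1, ?_, ?_⟩
  · have : 0 ≤ ∑' z : ℤ, (2:ℝ)^(-(|(z:ℝ)|/4)) * (|(z:ℝ)| + 1)^2 := tsum_nonneg fun z => by positivity
    linarith
  · intro n K
    have hinj : Function.Injective (fun m : ℕ => (m:ℤ) - (n:ℤ)) := by
      intro a b hab
      beta_reduce at hab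
      omega
    have h1 := hz.sum_le_tsum ((range K).map ⟨fun m : ℕ => (m:ℤ) - (n:ℤ), hinj⟩)
      (fun z _ => by positivity)
    rw [Finset.sum_map] at h1
    simp only [Function.Embedding.coeFn_mk, Int.cast_sub, Int.cast_natCast] at h1
    linarith

theorem absorb
    (decay : ∃ C : ℝ, 0 < C ∧ ∀ (M n j : ℕ) (f : Matrix (Fin (2^M)) (Fin (2^M)) ℂ), 2 ≤ j →
      Spec M n f →
      NN M (n+j) f ≤ C * (2:ℝ)^(-(3*(j:ℝ)/8)) *
        ∑ m ∈ range (2*M), (2:ℝ)^(-(|(m:ℝ)-n|/4)) * NN M m f)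
    (hD : ∃ C : ℝ, 0 < C ∧ ∀ (M K : ℕ), K ≤ M → ∀ (f : Matrix (Fin (2^M)) (Fin (2^M)) ℂ),
      ∀ m < K, NN M m f ≤ C * ((K:ℝ) - m)^2 * L1 M (PK M K f))
    (hmart : ∃ C : ℝ, 0 < C ∧ ∀ (M m : ℕ) (f : Matrix (Fin (2^M)) (Fin (2^M)) ℂ),
      L1 M (Dg M m f) ≤ C * NN M m f) :
    ∃ C : ℝ, 0 < C ∧ ∃ L : ℕ, ∀ (M n : ℕ) (f : Matrix (Fin (2^M)) (Fin (2^M)) ℂ),
      Spec M n f → n + L ≤ M → ∀ m, NN M m f ≤ C * (|(m:ℝ) - n| + 1)^2 * L1 M f := by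
  obtain ⟨C1, hC1, decay⟩ := decay
  obtain ⟨C2, hC2, hD⟩ := hD
  obtain ⟨C3, hC3, hmart⟩ := hmart
  obtain ⟨C4, hC4, hW⟩ := ab_weight
  obtain ⟨σ, hσ⟩ : ∃ σ : ℝ, σ = (2:ℝ)^(-(3/8:ℝ)) := ⟨_, rfl⟩
  have hσ0 : 0 < σ := by rw [hσ]; positivity
  have hσ1 : σ < 1 := by rw [hσ]; exact Real.rpow_lt_one_of_one_lt_of_neg (by norm_num) (by norm_num)
  have hpow : ∀ j : ℕ, (2:ℝ)^(-(3*(j:ℝ)/8)) = σ^j := by
    intro j
    rw [hσ, ← Real.rpow_natCast, ← Real.rpow_mul (by norm_num)]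
    congr 1; ring
  obtain ⟨c, hc⟩ : ∃ c : ℝ, c = (1 - σ)⁻¹ := ⟨_, rfl⟩
  have hc0 : 0 < c := by rw [hc]; exact inv_pos.mpr (by linarith)
  -- choice of l
  obtain ⟨l, hl2, hl⟩ : ∃ l : ℕ, 2 ≤ l ∧ C1 * c * (C2 * C4 * C3 + 1) * ((l:ℝ)^2 * σ^l) ≤ 1/2 := by
    have ht := tendsto_pow_const_mul_const_pow_of_lt_one 2 hσ0.le hσ1
    have h1 := (ht.const_mul (C1 * c * (C2 * C4 * C3 + 1)))
    rw [mul_zero] at h1
    have h2 := h1.eventually (gt_mem_nhds (show (0:ℝ) < 1/2 by norm_num))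
    obtain ⟨l, h3, h4⟩ := (h2.and (Filter.eventually_ge_atTop 2)).exists
    exact ⟨l, h4, le_of_lt h3⟩
  have hl1 : (1:ℝ) ≤ l := by
    have : (2:ℝ) ≤ l := by exact_mod_cast hl2
    linarith
  refine ⟨2 * C2 * (l:ℝ)^2 * (1 + C1 * C4), by positivity, l, ?_⟩
  intro M n f hS hM m
  obtain ⟨Q, hQ⟩ : ∃ Q, Q = ∑ m ∈ range (2*M), (2:ℝ)^(-(|(m:ℝ)-n|/4)) * NN M m f := ⟨_, rfl⟩
  obtain ⟨P, hP⟩ : ∃ P, P = L1 M (PK M (n+l) f) := ⟨_, rfl⟩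
  obtain ⟨F, hF⟩ : ∃ F, F = L1 M f := ⟨_, rfl⟩
  have hQ0 : 0 ≤ Q := by
    rw [hQ]
    exact Finset.sum_nonneg fun m _ => mul_nonneg (by positivity) (ab_NN_nonneg M m f)
  have hP0 : 0 ≤ P := by rw [hP]; exact ab_L1_nonneg _ _
  have hF0 : 0 ≤ F := by rw [hF]; exact ab_L1_nonneg _ _
  have hdec : ∀ m', n + l ≤ m' → NN M m' f ≤ C1 * σ^(m'-n) * Q := by
    intro m' hm'
    have h1 := decay M n (m'-n) f (by omega) hS
    rw [hpow, ← hQ] at h1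
    have e : n + (m'-n) = m' := by omega
    rwa [e] at h1
  have hK2 : n + l ≤ 2*M := by omega
  have hT : ∑ m' ∈ Ico (n+l) (2*M), NN M m' f ≤ C1 * Q * (σ^l * c) := by
    have h1 : ∑ m' ∈ Ico (n+l) (2*M), NN M m' f ≤ ∑ m' ∈ Ico (n+l) (2*M), C1 * σ^(m'-n) * Q := by
      apply Finset.sum_le_sum
      intro m' hm'
      exact hdec m' (Finset.mem_Ico.mp hm').1
    refine h1.trans ?_
    rw [Finset.sum_Ico_eq_sum_range]
    have h2 : ∀ i ∈ range (2*M - (n+l)), C1 * σ^(n + l + i - n) * Q = (C1 * Q * σ^l) * σ^i := by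
      intro i _
      have e : n + l + i - n = l + i := by omega
      rw [e, pow_add]; ring
    rw [Finset.sum_congr rfl h2, ← Finset.mul_sum]
    have h3 : ∑ i ∈ range (2*M - (n+l)), σ^i ≤ c := by
      rw [hc, ← tsum_geometric_of_lt_one hσ0.le hσ1]
      exact (summable_geometric_of_lt_one hσ0.le hσ1).sum_le_tsum _ (fun i _ => by positivity)
    calc C1 * Q * σ^l * ∑ i ∈ range (2*M - (n+l)), σ^i ≤ C1 * Q * σ^l * c :=
          mul_le_mul_of_nonneg_left h3 (by positivity)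
      _ = C1 * Q * (σ^l * c) := by ring
  have hPb : P ≤ F + C3 * (C1 * Q * (σ^l * c)) := by
    rw [hP, hF]
    refine (ab_PK hK2 hS.1 hS.2.1).trans (add_le_add le_rfl ?_)
    calc ∑ m ∈ Ico (n+l) (2*M), L1 M (Dg M m f) ≤ ∑ m ∈ Ico (n+l) (2*M), C3 * NN M m f :=
          Finset.sum_le_sum fun m _ => hmart M m f
      _ = C3 * ∑ m ∈ Ico (n+l) (2*M), NN M m f := by rw [Finset.mul_sum]
      _ ≤ _ := mul_le_mul_of_nonneg_left hT hC3.le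
  have hnl : ∀ m' < n + l, NN M m' f ≤ (|(m':ℝ)-n| + 1)^2 * (C2 * (l:ℝ)^2 * P) := by
    intro m' hm'
    have h1 := hD M (n+l) hM f m' hm'
    rw [← hP] at h1
    refine h1.trans ?_
    have h2 : (((n+l : ℕ) : ℝ) - m')^2 ≤ ((|(m':ℝ)-n| + 1) * l)^2 := by
      apply pow_le_pow_left₀
      · have : (m':ℝ) ≤ ((n+l : ℕ) : ℝ) := by exact_mod_cast hm'.le
        linarith
      · push_cast
        have h3 := neg_abs_le ((m':ℝ)-n)
        have h4 := abs_nonneg ((m':ℝ)-n)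
        nlinarith
    calc C2 * (((n+l : ℕ) : ℝ) - m')^2 * P ≤ C2 * ((|(m':ℝ)-n| + 1) * l)^2 * P :=
          mul_le_mul_of_nonneg_right (mul_le_mul_of_nonneg_left h2 hC2.le) hP0
      _ = _ := by ring
  have hQ1 : ∑ m' ∈ range (n+l), (2:ℝ)^(-(|(m':ℝ)-n|/4)) * NN M m' f ≤ C4 * (C2 * (l:ℝ)^2 * P) := by
    calc ∑ m' ∈ range (n+l), (2:ℝ)^(-(|(m':ℝ)-n|/4)) * NN M m' f
        ≤ ∑ m' ∈ range (n+l), ((2:ℝ)^(-(|(m':ℝ)-n|/4)) * (|(m':ℝ)-n| + 1)^2) * (C2 * (l:ℝ)^2 * P) := by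
          apply Finset.sum_le_sum
          intro m' hm'
          rw [mul_assoc]
          exact mul_le_mul_of_nonneg_left (hnl m' (Finset.mem_range.mp hm')) (by positivity)
      _ = (∑ m' ∈ range (n+l), (2:ℝ)^(-(|(m':ℝ)-n|/4)) * (|(m':ℝ)-n| + 1)^2) * (C2 * (l:ℝ)^2 * P) := by
          rw [Finset.sum_mul]
      _ ≤ C4 * (C2 * (l:ℝ)^2 * P) := mul_le_mul_of_nonneg_right (hW n (n+l)) (by positivity)
  have hQ2 : ∑ m' ∈ Ico (n+l) (2*M), (2:ℝ)^(-(|(m':ℝ)-n|/4)) * NN M m' f ≤ C1 * Q * (σ^l * c) := by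
    refine le_trans (Finset.sum_le_sum ?_) hT
    intro m' _
    have h1 : (2:ℝ)^(-(|(m':ℝ)-n|/4)) ≤ 1 := by
      apply Real.rpow_le_one_of_one_le_of_nonpos (by norm_num)
      have := abs_nonneg ((m':ℝ)-n)
      linarith
    calc (2:ℝ)^(-(|(m':ℝ)-n|/4)) * NN M m' f ≤ 1 * NN M m' f :=
          mul_le_mul_of_nonneg_right h1 (ab_NN_nonneg M m' f)
      _ = NN M m' f := one_mul _
  have hQs : Q ≤ C4 * (C2 * (l:ℝ)^2 * P) + C1 * Q * (σ^l * c) := by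
    have h1 : Q = ∑ m' ∈ range (n+l), (2:ℝ)^(-(|(m':ℝ)-n|/4)) * NN M m' f +
        ∑ m' ∈ Ico (n+l) (2*M), (2:ℝ)^(-(|(m':ℝ)-n|/4)) * NN M m' f := by
      rw [Finset.sum_range_add_sum_Ico _ hK2, hQ]
    rw [h1]
    rw [← h1]
    exact le_of_eq_of_le h1 (add_le_add hQ1 hQ2)
  -- absorption
  have hll : (1:ℝ) ≤ (l:ℝ)^2 := one_le_pow₀ hl1
  have hsl : 0 < σ^l := pow_pos hσ0 l
  have hA : C1 * c * σ^l * (C2 * C4 * C3 * (l:ℝ)^2 + 1) ≤ 1/2 := by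
    refine le_trans ?_ hl
    have h1 : C2 * C4 * C3 * (l:ℝ)^2 + 1 ≤ (C2 * C4 * C3 + 1) * (l:ℝ)^2 := by linarith
    calc C1 * c * σ^l * (C2 * C4 * C3 * (l:ℝ)^2 + 1)
        ≤ C1 * c * σ^l * ((C2 * C4 * C3 + 1) * (l:ℝ)^2) :=
          mul_le_mul_of_nonneg_left h1 (by positivity)
      _ = _ := by ring
  have hB : C1 * c * σ^l * (C2 * C4 * C3 * (l:ℝ)^2) ≤ 1/2 := by
    refine le_trans ?_ hA
    apply mul_le_mul_of_nonneg_left _ (by positivity)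
    linarith
  have hQf : Q ≤ 2 * (C4 * C2 * (l:ℝ)^2) * F := by
    have h1 : C4 * (C2 * (l:ℝ)^2 * P) ≤ C4 * (C2 * (l:ℝ)^2 * (F + C3 * (C1 * Q * (σ^l * c)))) :=
      mul_le_mul_of_nonneg_left (mul_le_mul_of_nonneg_left hPb (by positivity)) hC4.le
    have h2 : C4 * (C2 * (l:ℝ)^2 * (F + C3 * (C1 * Q * (σ^l * c)))) + C1 * Q * (σ^l * c) =
        C4 * C2 * (l:ℝ)^2 * F + (C1 * c * σ^l * (C2 * C4 * C3 * (l:ℝ)^2 + 1)) * Q := by ring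
    have h3 : (C1 * c * σ^l * (C2 * C4 * C3 * (l:ℝ)^2 + 1)) * Q ≤ 1/2 * Q :=
      mul_le_mul_of_nonneg_right hA hQ0
    linarith
  have hPf : P ≤ 2 * F := by
    have h1 : C3 * (C1 * Q * (σ^l * c)) ≤ C3 * (C1 * (2 * (C4 * C2 * (l:ℝ)^2) * F) * (σ^l * c)) := by
      apply mul_le_mul_of_nonneg_left _ hC3.le
      apply mul_le_mul_of_nonneg_right _ (by positivity)
      exact mul_le_mul_of_nonneg_left hQf hC1.le
    have h2 : C3 * (C1 * (2 * (C4 * C2 * (l:ℝ)^2) * F) * (σ^l * c)) =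
        2 * ((C1 * c * σ^l * (C2 * C4 * C3 * (l:ℝ)^2)) * F) := by ring
    have h3 : (C1 * c * σ^l * (C2 * C4 * C3 * (l:ℝ)^2)) * F ≤ 1/2 * F :=
      mul_le_mul_of_nonneg_right hB hF0
    linarith
  rw [← hF]
  have hd1 : (1:ℝ) ≤ (|(m:ℝ) - n| + 1)^2 := by
    apply one_le_pow₀
    have := abs_nonneg ((m:ℝ)-n)
    linarith
  obtain ⟨w, hw⟩ : ∃ w, w = (|(m:ℝ) - n| + 1)^2 := ⟨_, rfl⟩
  have hnlm := hnl m
  have hdm := hdec m
  rw [← hw] at hd1 hnlm ⊢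
  have hwF : F ≤ w * F := by nlinarith
  rcases lt_or_ge m (n+l) with h | h
  · refine (hnlm h).trans ?_
    have h1 : w * (C2 * (l:ℝ)^2 * P) ≤ w * (C2 * (l:ℝ)^2 * (2 * F)) :=
      mul_le_mul_of_nonneg_left (mul_le_mul_of_nonneg_left hPf (by positivity)) (by linarith)
    have h2 : 2 * C2 * (l:ℝ)^2 * (1 + C1 * C4) * w * F =
        w * (C2 * (l:ℝ)^2 * (2 * F)) + 2 * C2 * (l:ℝ)^2 * (C1 * C4) * (w * F) := by ring
    have h3 : 0 ≤ 2 * C2 * (l:ℝ)^2 * (C1 * C4) * (w * F) := by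
      have : 0 ≤ w * F := mul_nonneg (by linarith) hF0
      positivity
    linarith
  · refine (hdm h).trans ?_
    have h1 : σ^(m-n) ≤ 1 := pow_le_one₀ hσ0.le hσ1.le
    have h2 : C1 * σ^(m-n) * Q ≤ C1 * 1 * (2 * (C4 * C2 * (l:ℝ)^2) * F) := by
      apply mul_le_mul _ hQf hQ0 (by positivity)
      exact mul_le_mul_of_nonneg_left h1 hC1.le
    refine h2.trans ?_
    have h4 : C1 * 1 * (2 * (C4 * C2 * (l:ℝ)^2) * F) = 2 * C2 * (l:ℝ)^2 * (C1 * C4) * F := by ring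
    have h5 : 2 * C2 * (l:ℝ)^2 * (C1 * C4) * F ≤ 2 * C2 * (l:ℝ)^2 * (C1 * C4) * (w * F) :=
      mul_le_mul_of_nonneg_left hwF (by positivity)
    have h6 : 0 ≤ 2 * C2 * (l:ℝ)^2 * (w * F) := by
      have : 0 ≤ w * F := mul_nonneg (by linarith) hF0
      positivity
    have h7 : 2 * C2 * (l:ℝ)^2 * (1 + C1 * C4) * w * F =
        2 * C2 * (l:ℝ)^2 * (w * F) + 2 * C2 * (l:ℝ)^2 * (C1 * C4) * (w * F) := by ring
    linarith

end BernT.ST15a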