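import Pool.Agent.Helper643.BernT

open Finset Matrix



open Finset Matrix
namespace BernT.ST15b1
/-- half difference of the averages over the two halves of the `t`-block `p` (grid `[0,2^K)²`). -/
noncomputable def kinf (K : ℕ) (g : ℕ → ℕ → ℝ) (t p y : ℕ) : ℝ :=
  ((∑ x ∈ (range (2^K)).filter (fun x => x / 2^(K-(t+1)) = 2*p), g x y) / 2^(K-(t+1)) -
   (∑ x ∈ (range (2^K)).filter (fun x => x / 2^(K-(t+1)) = 2*p+1), g x y) / 2^(K-(t+1))) / 2

/-- Haar type coefficient attached to `(a,p,q)` -/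
noncomputable def cf (K l : ℕ) (k : ℕ → ℕ → ℕ → ℝ) (a p q : ℕ) : ℝ :=
  (∑ y ∈ (range (2^K)).filter (fun y => y / 2^(a+l+1) = q),
    (-1:ℝ)^(y / 2^(a+l)) * k a p y) / 2^(a+l+1)

/-- block sum -/
noncomputable def auxS (m c : ℕ) (φ : ℕ → ℝ) : ℝ := ∑ i ∈ range (2^m), φ (c * 2^m + i)

theorem auxS_split (m c : ℕ) (φ : ℕ → ℝ) :
    auxS (m+1) c φ = auxS m (2*c) φ + auxS m (2*c+1) φ := by
  unfold auxS
  rw [pow_succ, mul_two, Finset.sum_range_add]
  congr 1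
  · apply Finset.sum_congr rfl
    intro i _
    congr 1
    ring
  · apply Finset.sum_congr rfl
    intro i _
    congr 1
    ring

theorem auxS_fiber (M' m c : ℕ) (hm : m ≤ M') (hc : c < 2^(M'-m)) (φ : ℕ → ℝ) :
    ∑ z ∈ (range (2^M')).filter (fun z => z / 2^m = c), φ z = auxS m c φ := by
  unfold auxS
  have hpos : 0 < 2^m := by positivity
  apply Finset.sum_nbij' (fun z => z % 2^m) (fun i => c * 2^m + i)
  · intro z _
    rw [mem_range]
    exact Nat.mod_lt _ hpos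
  · intro i hi
    rw [mem_range] at hi
    rw [mem_filter, mem_range]
    constructor
    · have h1 : c * 2^m + i < (c+1) * 2^m := by rw [add_mul, one_mul]; omega
      have h2 : (c+1) * 2^m ≤ 2^(M'-m) * 2^m := Nat.mul_le_mul_right _ hc
      have h3 : 2^(M'-m) * 2^m = 2^M' := by rw [← pow_add, Nat.sub_add_cancel hm]
      omega
    · rw [mul_comm, Nat.mul_add_div hpos, Nat.div_eq_of_lt hi, add_zero]
  · intro z hz
    rw [mem_filter] at hz
    have := Nat.div_add_mod' z (2^m)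
    rw [hz.2] at this
    exact this
  · intro i hi
    rw [mem_range] at hi
    rw [mul_comm, Nat.mul_add_mod, Nat.mod_eq_of_lt hi]
  · intro z hz
    rw [mem_filter] at hz
    have := Nat.div_add_mod' z (2^m)
    rw [hz.2] at this
    rw [this]

theorem auxS_coarse (k e : ℕ) (ψ : ℕ → ℝ) : ∀ c : ℕ,
    auxS (k+e) c (fun z => ψ (z / 2^e)) = 2^e * auxS k c ψ := by
  induction k with
  | zero =>
    intro c
    unfold auxS
    rw [zero_add]
    have h : ∀ i ∈ range (2^e), ψ ((c * 2^e + i) / 2^e) = ψ c := by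
      intro i hi
      rw [mem_range] at hi
      have hpos : 0 < 2^e := by positivity
      rw [mul_comm, Nat.mul_add_div hpos, Nat.div_eq_of_lt hi, add_zero]
    rw [Finset.sum_congr rfl h]
    simp
  | succ k ih =>
    intro c
    have h : k + 1 + e = (k + e) + 1 := by ring
    rw [h, auxS_split, ih, ih, auxS_split]
    ring

noncomputable def auxEr (M a : ℕ) (x z : ℕ) : ℝ :=
  if x / 2^(M-a) = z / 2^(M-a) then ((2:ℝ)^(M-a))⁻¹ else 0

noncomputable def auxDr (M a : ℕ) (x z : ℕ) : ℝ := auxEr M (a+1) x z - auxEr M a x z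

theorem auxEm_eq (M a : ℕ) (x z : Fin (2^M)) : Em M a x z = ((auxEr M a x z : ℝ) : ℂ) := by
  unfold Em auxEr
  split_ifs
  · push_cast; rfl
  · simp

theorem auxDm_eq (M a : ℕ) (x z : Fin (2^M)) : Dm M a x z = ((auxDr M a x z : ℝ) : ℂ) := by
  unfold Dm auxDr
  rw [Matrix.sub_apply, auxEm_eq, auxEm_eq]
  push_cast
  rfl

theorem auxDr_comm (M a x z : ℕ) : auxDr M a x z = auxDr M a z x := by
  unfold auxDr auxEr
  simp only [eq_comm]

theorem auxsum_Er (M a : ℕ) (ha : a ≤ M) (x : ℕ) (hx : x < 2^M) (φ : ℕ → ℝ) :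
    ∑ z : Fin (2^M), auxEr M a x z * φ z = ((2:ℝ)^(M-a))⁻¹ * auxS (M-a) (x/2^(M-a)) φ := by
  rw [Fin.sum_univ_eq_sum_range (fun z => auxEr M a x z * φ z) (2^M)]
  have hc : x / 2^(M-a) < 2^(M-(M-a)) := by
    rw [Nat.div_lt_iff_lt_mul (by positivity), ← pow_add]
    have : M - (M - a) + (M - a) = M := by omega
    rw [this]
    exact hx
  rw [← auxS_fiber M (M-a) (x/2^(M-a)) (Nat.sub_le _ _) hc φ, Finset.mul_sum, Finset.sum_filter]
  apply Finset.sum_congr rfl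
  intro z _
  unfold auxEr
  by_cases h : x / 2^(M-a) = z / 2^(M-a)
  · rw [if_pos h, if_pos h.symm]
  · rw [if_neg h, if_neg (fun h' => h h'.symm), zero_mul]

theorem aux1D (M K a : ℕ) (hK : K ≤ M) (ha : a < K) (x : ℕ) (hx : x < 2^M) (ψ : ℕ → ℝ) :
    ∑ z : Fin (2^M), auxDr M a x z * ψ ((z:ℕ) / 2^(M-K)) =
      (-1:ℝ)^(x/2^(M-(a+1))) * ((auxS (K-(a+1)) (2*(x/2^(M-a))) ψ / 2^(K-(a+1)) -
        auxS (K-(a+1)) (2*(x/2^(M-a))+1) ψ / 2^(K-(a+1)))/2) := by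
  have h1 := auxsum_Er M (a+1) (by omega) x hx (fun z => ψ (z / 2^(M-K)))
  have h2 := auxsum_Er M a (by omega) x hx (fun z => ψ (z / 2^(M-K)))
  have h3 : ∑ z : Fin (2^M), auxDr M a x z * ψ ((z:ℕ) / 2^(M-K)) =
      ∑ z : Fin (2^M), auxEr M (a+1) x z * ψ ((z:ℕ) / 2^(M-K)) -
      ∑ z : Fin (2^M), auxEr M a x z * ψ ((z:ℕ) / 2^(M-K)) := by
    rw [← Finset.sum_sub_distrib]
    apply Finset.sum_congr rfl
    intro z _
    unfold auxDr
    ring
  rw [h3, h1, h2]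
  obtain ⟨k, hk⟩ : ∃ k, k = K - (a+1) := ⟨_, rfl⟩
  obtain ⟨e, he⟩ : ∃ e, e = M - K := ⟨_, rfl⟩
  have hm : M - (a+1) = k + e := by omega
  have hm' : M - a = (k + e) + 1 := by omega
  rw [← hk, ← he, hm, hm']
  have hpc : x / 2^(k+e+1) = x / 2^(k+e) / 2 := by
    rw [Nat.div_div_eq_div_mul, pow_succ]
  rw [auxS_split, auxS_coarse, auxS_coarse, auxS_coarse]
  rw [hpc]
  have hk0 : ((2:ℝ)^k) ≠ 0 := by positivity
  have he0 : ((2:ℝ)^e) ≠ 0 := by positivity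
  rcases Nat.even_or_odd (x / 2^(k+e)) with hev | hod
  · have h4 : 2 * (x / 2^(k+e) / 2) = x / 2^(k+e) := Nat.two_mul_div_two_of_even hev
    rw [h4, hev.neg_one_pow, pow_succ, pow_add]
    field_simp
    ring
  · have h4 : 2 * (x / 2^(k+e) / 2) + 1 = x / 2^(k+e) := Nat.two_mul_div_two_add_one_of_odd hod
    rw [h4, hod.neg_one_pow, pow_succ, pow_add]
    field_simp
    ring

theorem auxre (M a b : ℕ) (h : Matrix (Fin (2^M)) (Fin (2^M)) ℂ) (x y : Fin (2^M)) :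
    ((Dm M a * h * Dm M b) x y).re =
      ∑ w : Fin (2^M), auxDr M b y w * ∑ z : Fin (2^M), auxDr M a x z * (h z w).re := by
  rw [Matrix.mul_apply, Complex.re_sum]
  apply Finset.sum_congr rfl
  intro w _
  rw [auxDm_eq, Complex.re_mul_ofReal, Matrix.mul_apply, Complex.re_sum, auxDr_comm M b w y, mul_comm]
  congr 1
  apply Finset.sum_congr rfl
  intro z _
  rw [auxDm_eq, Complex.re_ofReal_mul]

theorem haarFormula (M K : ℕ) (hK : K ≤ M) (h : Matrix (Fin (2^M)) (Fin (2^M)) ℂ)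
    (g : ℕ → ℕ → ℝ)
    (hg : ∀ x y : Fin (2^M), (h x y).re = g ((x:ℕ) / 2^(M-K)) ((y:ℕ) / 2^(M-K)))
    (a l : ℕ) (hal : a + l < K) (x y : Fin (2^M)) :
    |((Dm M a * h * Dm M (K-1-l-a)) x y).re| =
      |cf K l (kinf K g) a ((x:ℕ) / 2^(M-a)) ((y:ℕ) / 2^(M-(K-1-l-a)))| := by
  have hxl : (x:ℕ) < 2^M := x.2
  have hyl : (y:ℕ) < 2^M := y.2
  obtain ⟨b, hb⟩ : ∃ b, b = K-1-l-a := ⟨_, rfl⟩
  rw [← hb, auxre]
  have hp : (x:ℕ) / 2^(M-a) < 2^a := by
    rw [Nat.div_lt_iff_lt_mul (by positivity), ← pow_add]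
    have : a + (M - a) = M := by omega
    rw [this]
    exact hxl
  have hq : (y:ℕ) / 2^(M-b) < 2^b := by
    rw [Nat.div_lt_iff_lt_mul (by positivity), ← pow_add]
    have : b + (M - b) = M := by omega
    rw [this]
    exact hyl
  have hin : ∀ w : Fin (2^M), ∑ z : Fin (2^M), auxDr M a x z * (h z w).re =
      (-1:ℝ)^((x:ℕ)/2^(M-(a+1))) * kinf K g a ((x:ℕ) / 2^(M-a)) ((w:ℕ) / 2^(M-K)) := by
    intro w
    have h1 := aux1D M K a hK (by omega) x hxl (fun x' => g x' ((w:ℕ) / 2^(M-K)))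
    have h2 : ∑ z : Fin (2^M), auxDr M a x z * (h z w).re =
        ∑ z : Fin (2^M), auxDr M a x z * g ((z:ℕ) / 2^(M-K)) ((w:ℕ) / 2^(M-K)) := by
      apply Finset.sum_congr rfl
      intro z _
      rw [hg]
    rw [h2, h1]
    unfold kinf
    have hd : 2^(K-(K-(a+1))) = 2^(a+1) := by
      congr 1
      omega
    rw [auxS_fiber K (K-(a+1)) (2*((x:ℕ)/2^(M-a))) (Nat.sub_le _ _)
        (by rw [hd, pow_succ]; omega) (fun x' => g x' ((w:ℕ) / 2^(M-K))),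
      auxS_fiber K (K-(a+1)) (2*((x:ℕ)/2^(M-a))+1) (Nat.sub_le _ _)
        (by rw [hd, pow_succ]; omega) (fun x' => g x' ((w:ℕ) / 2^(M-K)))]
  have h3 : ∑ w : Fin (2^M), auxDr M b y w * ∑ z : Fin (2^M), auxDr M a x z * (h z w).re =
      (-1:ℝ)^((x:ℕ)/2^(M-(a+1))) * ∑ w : Fin (2^M), auxDr M b y w *
        kinf K g a ((x:ℕ) / 2^(M-a)) ((w:ℕ) / 2^(M-K)) := by
    rw [Finset.mul_sum]
    apply Finset.sum_congr rfl
    intro w _
    rw [hin w]
    ring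
  rw [h3, aux1D M K b hK (by omega) y hyl (fun y' => kinf K g a ((x:ℕ) / 2^(M-a)) y')]
  have hkb : K - (b+1) = a + l := by omega
  rw [hkb]
  have hcf : cf K l (kinf K g) a ((x:ℕ) / 2^(M-a)) ((y:ℕ) / 2^(M-b)) =
      (auxS (a+l) (2*((y:ℕ)/2^(M-b))) (fun y' => kinf K g a ((x:ℕ) / 2^(M-a)) y') / 2^(a+l) -
        auxS (a+l) (2*((y:ℕ)/2^(M-b))+1) (fun y' => kinf K g a ((x:ℕ) / 2^(M-a)) y')
          / 2^(a+l)) / 2 := by
    unfold cf
    have hd : K - (a+l+1) = b := by omega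
    rw [auxS_fiber K (a+l+1) ((y:ℕ) / 2^(M-b)) (by omega) (by rw [hd]; exact hq)
      (fun y' => (-1:ℝ)^(y' / 2^(a+l)) * kinf K g a ((x:ℕ) / 2^(M-a)) y'), auxS_split]
    have e1 : auxS (a+l) (2*((y:ℕ)/2^(M-b)))
        (fun y' => (-1:ℝ)^(y' / 2^(a+l)) * kinf K g a ((x:ℕ) / 2^(M-a)) y') =
        auxS (a+l) (2*((y:ℕ)/2^(M-b))) (fun y' => kinf K g a ((x:ℕ) / 2^(M-a)) y') := by
      unfold auxS
      apply Finset.sum_congr rfl
      intro i hi
      rw [mem_range] at hi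
      have : (2 * ((y:ℕ) / 2^(M-b)) * 2^(a+l) + i) / 2^(a+l) = 2 * ((y:ℕ) / 2^(M-b)) := by
        rw [mul_comm _ (2^(a+l)), Nat.mul_add_div (by positivity), Nat.div_eq_of_lt hi, add_zero]
      beta_reduce
      rw [this, pow_mul]
      norm_num
    have e2 : auxS (a+l) (2*((y:ℕ)/2^(M-b))+1)
        (fun y' => (-1:ℝ)^(y' / 2^(a+l)) * kinf K g a ((x:ℕ) / 2^(M-a)) y') =
        - auxS (a+l) (2*((y:ℕ)/2^(M-b))+1) (fun y' => kinf K g a ((x:ℕ) / 2^(M-a)) y') := by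
      unfold auxS
      rw [← Finset.sum_neg_distrib]
      apply Finset.sum_congr rfl
      intro i hi
      rw [mem_range] at hi
      have : ((2 * ((y:ℕ) / 2^(M-b)) + 1) * 2^(a+l) + i) / 2^(a+l) = 2 * ((y:ℕ) / 2^(M-b)) + 1 := by
        rw [mul_comm _ (2^(a+l)), Nat.mul_add_div (by positivity), Nat.div_eq_of_lt hi, add_zero]
      beta_reduce
      rw [this, pow_succ, pow_mul]
      norm_num
    rw [e1, e2, pow_succ]
    have h20 : ((2:ℝ)^(a+l)) ≠ 0 := by positivity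
    field_simp
    ring
  rw [hcf, abs_mul, abs_mul, abs_pow, abs_neg, abs_one, one_pow, one_mul, abs_pow, abs_neg, abs_one,
    one_pow, one_mul]
end BernT.ST15b1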