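import Pool.Agent.Helper643.BernT

open Finset Matrix



open Finset Matrix
namespace BernT.ST15b2
/-- half difference of the averages over the two halves of the `t`-block `p` (grid `[0,2^K)²`). -/
noncomputable def kinf (K : ℕ) (g : ℕ → ℕ → ℝ) (t p y : ℕ) : ℝ :=
  ((∑ x ∈ (range (2^K)).filter (fun x => x / 2^(K-(t+1)) = 2*p), g x y) / 2^(K-(t+1)) -
   (∑ x ∈ (range (2^K)).filter (fun x => x / 2^(K-(t+1)) = 2*p+1), g x y) / 2^(K-(t+1))) / 2

/-- Haar type coefficient attached to `(a,p,q)` -/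
noncomputable def cf (K l : ℕ) (k : ℕ → ℕ → ℕ → ℝ) (a p q : ℕ) : ℝ :=
  (∑ y ∈ (range (2^K)).filter (fun y => y / 2^(a+l+1) = q),
    (-1:ℝ)^(y / 2^(a+l)) * k a p y) / 2^(a+l+1)

/-- unnormalised `L¹` norm of the square function of one diagonal -/
noncomputable def SS (K l : ℕ) (c : ℕ → ℕ → ℕ → ℝ) : ℝ :=
  ∑ x ∈ range (2^K), ∑ y ∈ range (2^K),
    Real.sqrt (∑ a ∈ range (K - l), (c a (x / 2^(K-a)) (y / 2^(a+l+1)))^2)

/-- `g` is additive on every rectangle `W_t`. -/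
def Additive (K : ℕ) (g : ℕ → ℕ → ℝ) : Prop :=
  ∀ t ≤ K, ∀ x < 2^K, ∀ x' < 2^K, ∀ y < 2^K, ∀ y' < 2^K,
    x / 2^(K-t) = x' / 2^(K-t) → y / 2^t = y' / 2^t → g x y + g x' y' = g x y' + g x' y

theorem hD_sum_blocks {R : Type*} [CommSemiring R] (P B : ℕ) (hB : 0 < B) (G : ℕ → R) :
    ∑ x ∈ range (P * B), G (x / B) = (B : R) * ∑ p ∈ range P, G p := by
  induction P with
  | zero => simp
  | succ P ih =>
    rw [Nat.succ_mul, Finset.sum_range_add, ih, Finset.sum_range_succ, mul_add]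
    congr 1
    have h1 : ∀ j ∈ range B, G ((P * B + j) / B) = G P := by
      intro j hj
      have hj' := mem_range.1 hj
      congr 1
      rw [mul_comm P B, Nat.mul_add_div hB, Nat.div_eq_of_lt hj', add_zero]
    rw [Finset.sum_congr rfl h1, Finset.sum_const, card_range, nsmul_eq_mul]

theorem hD_sum_fin {R : Type*} [CommSemiring R] (M B : ℕ) (hB : B ≤ M) (G : ℕ → R) :
    ∑ x : Fin (2^M), G ((x : ℕ) / 2^B) = (2:R)^B * ∑ p ∈ range (2^(M-B)), G p := by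
  have h1 : ∑ x : Fin (2^M), G ((x : ℕ) / 2^B) = ∑ x ∈ range (2^M), G (x / 2^B) :=
    Fin.sum_univ_eq_sum_range (fun x => G (x / 2^B)) (2^M)
  have h2 : 2^M = 2^(M-B) * 2^B := by
    rw [← pow_add]
    congr 1
    omega
  rw [h1, h2, hD_sum_blocks _ _ (by positivity)]
  push_cast
  rfl

theorem hD_div_mono (e e' x x' : ℕ) (he : e ≤ e') (h : x / 2^e = x' / 2^e) :
    x / 2^e' = x' / 2^e' := by
  obtain ⟨k, rfl⟩ := Nat.exists_eq_add_of_le he
  rw [pow_add, ← Nat.div_div_eq_div_mul, ← Nat.div_div_eq_div_mul, h]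

theorem hD_card (M B : ℕ) (hB : B ≤ M) (z : Fin (2^M)) :
    ∑ w : Fin (2^M), (if (w : ℕ) / 2^B = (z : ℕ) / 2^B then (1:ℂ) else 0) = 2^B := by
  rw [hD_sum_fin M B hB (fun p => if p = (z : ℕ) / 2^B then (1:ℂ) else 0),
    Finset.sum_ite_eq', if_pos, mul_one]
  rw [mem_range, Nat.div_lt_iff_lt_mul (by positivity), ← pow_add]
  have : M - B + B = M := by omega
  rw [this]
  exact z.2

theorem hD_E_symm (M a : ℕ) (x z : Fin (2^M)) : Em M a x z = Em M a z x := by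
  unfold Em
  by_cases h : (x:ℕ) / 2^(M-a) = (z:ℕ) / 2^(M-a)
  · rw [if_pos h, if_pos h.symm]
  · rw [if_neg h, if_neg (fun h' => h h'.symm)]

theorem hD_EE (M a b : ℕ) (hab : a ≤ b) : Em M a * Em M b = Em M a := by
  ext x z
  rw [Matrix.mul_apply]
  have h1 : ∀ w : Fin (2^M), Em M a x w * Em M b w z =
      (Em M a x z * ((2:ℂ)^(M-b))⁻¹) *
        (if (w : ℕ) / 2^(M-b) = (z : ℕ) / 2^(M-b) then (1:ℂ) else 0) := by
    intro w
    by_cases h : (w : ℕ) / 2^(M-b) = (z : ℕ) / 2^(M-b)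
    · have h2 : Em M b w z = ((2:ℂ)^(M-b))⁻¹ := by unfold Em; rw [if_pos h]
      have h3 : (w : ℕ) / 2^(M-a) = (z : ℕ) / 2^(M-a) := hD_div_mono _ _ _ _ (by omega) h
      have h4 : Em M a x w = Em M a x z := by unfold Em; rw [h3]
      rw [h2, h4, if_pos h, mul_one]
    · have h2 : Em M b w z = 0 := by unfold Em; rw [if_neg h]
      rw [h2, if_neg h, mul_zero, mul_zero]
  rw [Finset.sum_congr rfl fun w _ => h1 w, ← Finset.mul_sum, hD_card M (M-b) (Nat.sub_le _ _) z,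
    mul_assoc, inv_mul_cancel₀ (pow_ne_zero _ two_ne_zero), mul_one]

theorem hD_E_transpose (M a : ℕ) : (Em M a)ᵀ = Em M a := by
  ext x z
  exact hD_E_symm M a z x

theorem hD_EE' (M a b : ℕ) (hab : a ≤ b) : Em M b * Em M a = Em M a := by
  have h := congrArg Matrix.transpose (hD_EE M a b hab)
  rwa [Matrix.transpose_mul, hD_E_transpose, hD_E_transpose] at h

theorem hD_DD_self (M a : ℕ) : Dm M a * Dm M a = Dm M a := by
  unfold Dm
  rw [sub_mul, mul_sub, mul_sub, hD_EE M (a+1) (a+1) le_rfl, hD_EE' M a (a+1) (by omega),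
    hD_EE M a (a+1) (by omega), hD_EE M a a le_rfl]
  abel

theorem hD_DD_ne (M a b : ℕ) (hab : a ≠ b) : Dm M a * Dm M b = 0 := by
  rcases lt_or_gt_of_ne hab with h | h
  · unfold Dm
    rw [sub_mul, mul_sub, mul_sub, hD_EE M (a+1) (b+1) (by omega), hD_EE M (a+1) b (by omega),
      hD_EE M a (b+1) (by omega), hD_EE M a b (by omega)]
    abel
  · unfold Dm
    rw [sub_mul, mul_sub, mul_sub, hD_EE' M (b+1) (a+1) (by omega), hD_EE' M b (a+1) (by omega),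
      hD_EE' M (b+1) a (by omega), hD_EE' M b a (by omega)]
    abel

theorem hD_PK (M K : ℕ) (f : Matrix (Fin (2^M)) (Fin (2^M)) ℂ) (a b : ℕ) (hab : a + b < K) :
    Dm M a * PK M K f * Dm M b = Dm M a * f * Dm M b := by
  unfold PK Dg
  rw [Matrix.mul_sum, Matrix.sum_mul, Finset.sum_eq_single (a + b)]
  · rw [Matrix.mul_sum, Matrix.sum_mul, Finset.sum_eq_single a]
    · have h1 : a + b - a = b := by omega
      rw [h1]
      calc Dm M a * (Dm M a * f * Dm M b) * Dm M b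
          = (Dm M a * Dm M a) * f * (Dm M b * Dm M b) := by simp only [Matrix.mul_assoc]
        _ = Dm M a * f * Dm M b := by rw [hD_DD_self, hD_DD_self]
    · intro a' _ ha'
      have : Dm M a * (Dm M a' * f * Dm M (a + b - a')) * Dm M b =
          (Dm M a * Dm M a') * f * (Dm M (a + b - a') * Dm M b) := by
        simp only [Matrix.mul_assoc]
      rw [this, hD_DD_ne M a a' ha'.symm, Matrix.zero_mul, Matrix.zero_mul]
    · intro h
      exact absurd (mem_range.2 (by omega)) h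
  · intro m _ hm
    rw [Matrix.mul_sum, Matrix.sum_mul]
    refine Finset.sum_eq_zero fun a' ha' => ?_
    have ha'' := mem_range.1 ha'
    have : Dm M a * (Dm M a' * f * Dm M (m - a')) * Dm M b =
        (Dm M a * Dm M a') * f * (Dm M (m - a') * Dm M b) := by
      simp only [Matrix.mul_assoc]
    rw [this]
    by_cases haa : a = a'
    · have hb : m - a' ≠ b := by omega
      rw [hD_DD_ne M (m - a') b hb, Matrix.mul_zero]
    · rw [hD_DD_ne M a a' haa, Matrix.zero_mul, Matrix.zero_mul]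
  · intro h
    exact absurd (mem_range.2 hab) h

/-- rows of `D_a` depend only on the `(a+1)`-block -/
theorem hD_D_row (M a : ℕ) (x x' z : Fin (2^M))
    (h : (x : ℕ) / 2^(M-(a+1)) = (x' : ℕ) / 2^(M-(a+1))) : Dm M a x z = Dm M a x' z := by
  have h' : (x : ℕ) / 2^(M-a) = (x' : ℕ) / 2^(M-a) := hD_div_mono _ _ _ _ (by omega) h
  unfold Dm
  rw [Matrix.sub_apply, Matrix.sub_apply]
  unfold Em
  rw [h, h']

theorem hD_D_symm (M a : ℕ) (x z : Fin (2^M)) : Dm M a x z = Dm M a z x := by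
  unfold Dm
  rw [Matrix.sub_apply, Matrix.sub_apply, hD_E_symm M (a+1), hD_E_symm M a]

theorem hD_term_row (M a b : ℕ) (f : Matrix (Fin (2^M)) (Fin (2^M)) ℂ) (x x' y : Fin (2^M))
    (h : (x : ℕ) / 2^(M-(a+1)) = (x' : ℕ) / 2^(M-(a+1))) :
    (Dm M a * f * Dm M b) x y = (Dm M a * f * Dm M b) x' y := by
  rw [Matrix.mul_assoc, Matrix.mul_apply, Matrix.mul_apply]
  exact Finset.sum_congr rfl fun z _ => by rw [hD_D_row M a x x' z h]

theorem hD_term_col (M a b : ℕ) (f : Matrix (Fin (2^M)) (Fin (2^M)) ℂ) (x y y' : Fin (2^M))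
    (h : (y : ℕ) / 2^(M-(b+1)) = (y' : ℕ) / 2^(M-(b+1))) :
    (Dm M a * f * Dm M b) x y = (Dm M a * f * Dm M b) x y' := by
  rw [Matrix.mul_apply, Matrix.mul_apply]
  exact Finset.sum_congr rfl fun z _ => by
    rw [hD_D_symm M b z y, hD_D_symm M b z y', hD_D_row M b y y' z h]

theorem hD_PK_apply (M K : ℕ) (f : Matrix (Fin (2^M)) (Fin (2^M)) ℂ) (x y : Fin (2^M)) :
    PK M K f x y = ∑ m ∈ range K, ∑ a ∈ range (m+1), (Dm M a * f * Dm M (m-a)) x y := by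
  unfold PK Dg
  rw [Matrix.sum_apply]
  exact Finset.sum_congr rfl fun m _ => by rw [Matrix.sum_apply]

/-- `h` is constant on products of `K`-blocks -/
theorem hD_PK_block (M K : ℕ) (f : Matrix (Fin (2^M)) (Fin (2^M)) ℂ) (x x' y y' : Fin (2^M))
    (hx : (x : ℕ) / 2^(M-K) = (x' : ℕ) / 2^(M-K)) (hy : (y : ℕ) / 2^(M-K) = (y' : ℕ) / 2^(M-K)) :
    PK M K f x y = PK M K f x' y' := by
  rw [hD_PK_apply, hD_PK_apply]
  refine Finset.sum_congr rfl fun m hm => Finset.sum_congr rfl fun a ha => ?_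
  have hm' := mem_range.1 hm
  have ha' := mem_range.1 ha
  rw [hD_term_row M a (m-a) f x x' y (hD_div_mono _ _ _ _ (by omega) hx),
    hD_term_col M a (m-a) f x' y y' (hD_div_mono _ _ _ _ (by omega) hy)]

/-- mixed differences -/
theorem hD_PK_mixed (M K : ℕ) (f : Matrix (Fin (2^M)) (Fin (2^M)) ℂ) (t : ℕ)
    (x x' y y' : Fin (2^M))
    (hx : (x : ℕ) / 2^(M-t) = (x' : ℕ) / 2^(M-t))
    (hy : (y : ℕ) / 2^(M-(K-t)) = (y' : ℕ) / 2^(M-(K-t))) :
    PK M K f x y + PK M K f x' y' = PK M K f x y' + PK M K f x' y := by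
  rw [hD_PK_apply, hD_PK_apply, hD_PK_apply, hD_PK_apply, ← Finset.sum_add_distrib,
    ← Finset.sum_add_distrib]
  refine Finset.sum_congr rfl fun m hm => ?_
  rw [← Finset.sum_add_distrib, ← Finset.sum_add_distrib]
  refine Finset.sum_congr rfl fun a ha => ?_
  have hm' := mem_range.1 hm
  have ha' := mem_range.1 ha
  by_cases hat : a + 1 ≤ t
  · rw [hD_term_row M a (m-a) f x x' y (hD_div_mono _ _ _ _ (by omega) hx),
      hD_term_row M a (m-a) f x x' y' (hD_div_mono _ _ _ _ (by omega) hx)]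
    ring
  · rw [hD_term_col M a (m-a) f x y y' (hD_div_mono _ _ _ _ (by omega) hy),
      hD_term_col M a (m-a) f x' y y' (hD_div_mono _ _ _ _ (by omega) hy)]

/-- representative of a `K`-block -/
def hD_rep (M K : ℕ) (p : ℕ) : Fin (2^M) :=
  ⟨(p * 2^(M-K)) % 2^M, Nat.mod_lt _ (by positivity)⟩

theorem hD_rep_val (M K : ℕ) (hK : K ≤ M) (p : ℕ) (hp : p < 2^K) :
    (hD_rep M K p : ℕ) = p * 2^(M-K) := by
  unfold hD_rep
  refine Nat.mod_eq_of_lt ?_
  have h2 : 2^M = 2^K * 2^(M-K) := by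
    rw [← pow_add]
    congr 1
    omega
  rw [h2]
  exact Nat.mul_lt_mul_of_pos_right hp (by positivity)

theorem hD_rep_div (M K : ℕ) (hK : K ≤ M) (p : ℕ) (hp : p < 2^K) (s : ℕ) (hs : s ≤ K) :
    (hD_rep M K p : ℕ) / 2^(M-s) = p / 2^(K-s) := by
  rw [hD_rep_val M K hK p hp]
  have h2 : 2^(M-s) = 2^(K-s) * 2^(M-K) := by
    rw [← pow_add]
    congr 1
    omega
  rw [h2, Nat.mul_div_mul_right _ _ (by positivity)]

theorem hD_block_lt (M K : ℕ) (hK : K ≤ M) (x : Fin (2^M)) : (x : ℕ) / 2^(M-K) < 2^K := by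
  rw [Nat.div_lt_iff_lt_mul (by positivity), ← pow_add]
  have : K + (M - K) = M := by omega
  rw [this]
  exact x.2

/-- the real part -/
theorem hD_real
    (haarFormula : ∀ (M K : ℕ), K ≤ M → ∀ (h : Matrix (Fin (2^M)) (Fin (2^M)) ℂ)
      (g : ℕ → ℕ → ℝ),
      (∀ x y : Fin (2^M), (h x y).re = g ((x:ℕ) / 2^(M-K)) ((y:ℕ) / 2^(M-K))) →
      ∀ (a l : ℕ), a + l < K → ∀ (x y : Fin (2^M)),
      |((Dm M a * h * Dm M (K-1-l-a)) x y).re| =
        |cf K l (kinf K g) a ((x:ℕ) / 2^(M-a)) ((y:ℕ) / 2^(M-(K-1-l-a)))|)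
    (dyadic : ∀ (K : ℕ) (g : ℕ → ℕ → ℝ), Additive K g → ∀ l < K,
      SS K l (cf K l (kinf K g)) ≤ 2 * 10^10 * ((l:ℝ)+1)^2 *
        ∑ x ∈ range (2^K), ∑ y ∈ range (2^K), |g x y|)
    (M K : ℕ) (hK : K ≤ M) (f : Matrix (Fin (2^M)) (Fin (2^M)) ℂ) (m : ℕ) (hm : m < K) :
    ∑ x, ∑ y, Real.sqrt (∑ a ∈ range (m+1), ((Dm M a * f * Dm M (m-a)) x y).re^2) ≤
      2 * 10^10 * ((K:ℝ) - m)^2 * ∑ x, ∑ y, |(PK M K f x y).re| := by
  set g : ℕ → ℕ → ℝ := fun p q => (PK M K f (hD_rep M K p) (hD_rep M K q)).re with hg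
  have hgh : ∀ x y : Fin (2^M), (PK M K f x y).re = g ((x:ℕ) / 2^(M-K)) ((y:ℕ) / 2^(M-K)) := by
    intro x y
    rw [hg]
    show (PK M K f x y).re = (PK M K f (hD_rep M K ((x:ℕ) / 2^(M-K)))
      (hD_rep M K ((y:ℕ) / 2^(M-K)))).re
    congr 1
    refine hD_PK_block M K f _ _ _ _ ?_ ?_
    · rw [hD_rep_div M K hK _ (hD_block_lt M K hK x) K le_rfl, Nat.sub_self, pow_zero, Nat.div_one]
    · rw [hD_rep_div M K hK _ (hD_block_lt M K hK y) K le_rfl, Nat.sub_self, pow_zero, Nat.div_one]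
  have hadd : Additive K g := by
    intro t ht x hx x' hx' y hy y' hy' hxx hyy
    have h1 := hD_PK_mixed M K f t (hD_rep M K x) (hD_rep M K x') (hD_rep M K y) (hD_rep M K y')
      (by rw [hD_rep_div M K hK x hx t ht, hD_rep_div M K hK x' hx' t ht, hxx])
      (by
        rw [hD_rep_div M K hK y hy (K-t) (Nat.sub_le _ _),
          hD_rep_div M K hK y' hy' (K-t) (Nat.sub_le _ _)]
        have : K - (K - t) = t := by omega
        rw [this, hyy])
    have h2 := congrArg Complex.re h1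
    rw [Complex.add_re, Complex.add_re] at h2
    exact h2
  obtain ⟨l, hl⟩ : ∃ l, l = K - 1 - m := ⟨_, rfl⟩
  have hlK : l < K := by omega
  have hdy := dyadic K g hadd l hlK
  have hl1 : (l : ℝ) + 1 = (K : ℝ) - m := by
    have : l + 1 + m = K := by omega
    have h2 : ((l + 1 + m : ℕ) : ℝ) = (K : ℝ) := by rw [this]
    push_cast at h2
    linarith
  rw [hl1] at hdy
  set G : ℕ → ℕ → ℝ := fun p q => Real.sqrt (∑ a ∈ range (m+1),
    (cf K l (kinf K g) a (p / 2^(K-a)) (q / 2^(a+l+1)))^2) with hG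
  have hterm : ∀ x y : Fin (2^M), Real.sqrt (∑ a ∈ range (m+1),
      ((Dm M a * f * Dm M (m-a)) x y).re^2) = G ((x:ℕ) / 2^(M-K)) ((y:ℕ) / 2^(M-K)) := by
    intro x y
    rw [hG]
    show _ = Real.sqrt _
    congr 1
    refine Finset.sum_congr rfl fun a ha => ?_
    have ha' := mem_range.1 ha
    have h1 := haarFormula M K hK (PK M K f) g hgh a l (by omega) x y
    have h2 : K - 1 - l - a = m - a := by omega
    rw [h2, hD_PK M K f a (m-a) (by omega)] at h1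
    have h3 : (x : ℕ) / 2^(M-K) / 2^(K-a) = (x:ℕ) / 2^(M-a) := by
      rw [Nat.div_div_eq_div_mul, ← pow_add]
      congr 2
      omega
    have h4 : (y : ℕ) / 2^(M-K) / 2^(a+l+1) = (y:ℕ) / 2^(M-(m-a)) := by
      rw [Nat.div_div_eq_div_mul, ← pow_add]
      congr 2
      omega
    rw [h3, h4, ← sq_abs, h1, sq_abs]
  have hsumG : ∀ F : ℕ → ℕ → ℝ, ∑ x : Fin (2^M), ∑ y : Fin (2^M),
      F ((x:ℕ) / 2^(M-K)) ((y:ℕ) / 2^(M-K)) =
      (2:ℝ)^(M-K) * ((2:ℝ)^(M-K) * ∑ p ∈ range (2^K), ∑ q ∈ range (2^K), F p q) := by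
    intro F
    have hMK : M - (M - K) = K := by omega
    have h1 : ∀ x : Fin (2^M), ∑ y : Fin (2^M), F ((x:ℕ) / 2^(M-K)) ((y:ℕ) / 2^(M-K)) =
        (2:ℝ)^(M-K) * ∑ q ∈ range (2^K), F ((x:ℕ) / 2^(M-K)) q := by
      intro x
      have := hD_sum_fin M (M-K) (Nat.sub_le _ _) (fun q => F ((x:ℕ) / 2^(M-K)) q)
      rw [hMK] at this
      exact this
    rw [Finset.sum_congr rfl fun x _ => h1 x]
    have h2 := hD_sum_fin M (M-K) (Nat.sub_le _ _)
      (fun p => (2:ℝ)^(M-K) * ∑ q ∈ range (2^K), F p q)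
    rw [hMK] at h2
    rw [h2, ← Finset.mul_sum]
  have hL : ∑ x : Fin (2^M), ∑ y : Fin (2^M), Real.sqrt (∑ a ∈ range (m+1),
      ((Dm M a * f * Dm M (m-a)) x y).re^2) =
      (2:ℝ)^(M-K) * ((2:ℝ)^(M-K) * SS K l (cf K l (kinf K g))) := by
    rw [Finset.sum_congr rfl fun x _ => Finset.sum_congr rfl fun y _ => hterm x y, hsumG G]
    congr 2
    unfold SS
    have h5 : K - l = m + 1 := by omega
    rw [h5]
  have hRr : ∑ x : Fin (2^M), ∑ y : Fin (2^M), |(PK M K f x y).re| =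
      (2:ℝ)^(M-K) * ((2:ℝ)^(M-K) * ∑ p ∈ range (2^K), ∑ q ∈ range (2^K), |g p q|) := by
    rw [← hsumG (fun p q => |g p q|)]
    exact Finset.sum_congr rfl fun x _ => Finset.sum_congr rfl fun y _ => by rw [hgh x y]
  rw [hL, hRr]
  have hpos : (0:ℝ) ≤ (2:ℝ)^(M-K) := by positivity
  calc (2:ℝ)^(M-K) * ((2:ℝ)^(M-K) * SS K l (cf K l (kinf K g)))
      ≤ (2:ℝ)^(M-K) * ((2:ℝ)^(M-K) * (2 * 10^10 * ((K:ℝ) - m)^2 *
        ∑ x ∈ range (2^K), ∑ y ∈ range (2^K), |g x y|)) :=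
        mul_le_mul_of_nonneg_left (mul_le_mul_of_nonneg_left hdy hpos) hpos
    _ = _ := by ring

theorem hD_sqrt_add (A B : ℝ) (hA : 0 ≤ A) (hB : 0 ≤ B) :
    Real.sqrt (A + B) ≤ Real.sqrt A + Real.sqrt B := by
  rw [Real.sqrt_le_left (by positivity)]
  have h1 := Real.sq_sqrt hA
  have h2 := Real.sq_sqrt hB
  have h3 := Real.sqrt_nonneg A
  have h4 := Real.sqrt_nonneg B
  nlinarith [mul_nonneg h3 h4]

theorem hD_PK_smul (M K : ℕ) (f : Matrix (Fin (2^M)) (Fin (2^M)) ℂ) (c : ℂ) :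
    PK M K (c • f) = c • PK M K f := by
  unfold PK Dg
  rw [Finset.smul_sum]
  refine Finset.sum_congr rfl fun m _ => ?_
  rw [Finset.smul_sum]
  refine Finset.sum_congr rfl fun a _ => ?_
  rw [Matrix.mul_smul, Matrix.smul_mul]

theorem hD
    (haarFormula : ∀ (M K : ℕ), K ≤ M → ∀ (h : Matrix (Fin (2^M)) (Fin (2^M)) ℂ)
      (g : ℕ → ℕ → ℝ),
      (∀ x y : Fin (2^M), (h x y).re = g ((x:ℕ) / 2^(M-K)) ((y:ℕ) / 2^(M-K))) →
      ∀ (a l : ℕ), a + l < K → ∀ (x y : Fin (2^M)),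
      |((Dm M a * h * Dm M (K-1-l-a)) x y).re| =
        |cf K l (kinf K g) a ((x:ℕ) / 2^(M-a)) ((y:ℕ) / 2^(M-(K-1-l-a)))|)
    (dyadic : ∀ (K : ℕ) (g : ℕ → ℕ → ℝ), Additive K g → ∀ l < K,
      SS K l (cf K l (kinf K g)) ≤ 2 * 10^10 * ((l:ℝ)+1)^2 *
        ∑ x ∈ range (2^K), ∑ y ∈ range (2^K), |g x y|) :
    ∃ C : ℝ, 0 < C ∧ ∀ (M K : ℕ), K ≤ M → ∀ (f : Matrix (Fin (2^M)) (Fin (2^M)) ℂ),
      ∀ m < K, NN M m f ≤ C * ((K:ℝ) - m)^2 * L1 M (PK M K f) := by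
  refine ⟨4 * 10^10, by norm_num, fun M K hK f m hm => ?_⟩
  have hre := hD_real haarFormula dyadic M K hK f m hm
  have him := hD_real haarFormula dyadic M K hK ((-Complex.I) • f) m hm
  have h1 : ∀ (a b : ℕ) (x y : Fin (2^M)), ((Dm M a * ((-Complex.I) • f) * Dm M b) x y).re =
      ((Dm M a * f * Dm M b) x y).im := by
    intro a b x y
    rw [Matrix.mul_smul, Matrix.smul_mul, Matrix.smul_apply, smul_eq_mul]
    simp
  have h2 : ∀ x y : Fin (2^M), (PK M K ((-Complex.I) • f) x y).re = (PK M K f x y).im := by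
    intro x y
    rw [hD_PK_smul, Matrix.smul_apply, smul_eq_mul]
    simp
  simp only [h1, h2] at him
  have hC : 0 ≤ (2 * 10^10 * ((K:ℝ) - m)^2) := by positivity
  have hreL : ∑ x, ∑ y, |(PK M K f x y).re| ≤ L1 M (PK M K f) :=
    Finset.sum_le_sum fun x _ => Finset.sum_le_sum fun y _ => Complex.abs_re_le_norm _
  have himL : ∑ x, ∑ y, |(PK M K f x y).im| ≤ L1 M (PK M K f) :=
    Finset.sum_le_sum fun x _ => Finset.sum_le_sum fun y _ => Complex.abs_im_le_norm _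
  have hNN : NN M m f ≤
      ∑ x, ∑ y, Real.sqrt (∑ a ∈ range (m+1), ((Dm M a * f * Dm M (m-a)) x y).re^2) +
      ∑ x, ∑ y, Real.sqrt (∑ a ∈ range (m+1), ((Dm M a * f * Dm M (m-a)) x y).im^2) := by
    unfold NN
    rw [← Finset.sum_add_distrib]
    refine Finset.sum_le_sum fun x _ => ?_
    rw [← Finset.sum_add_distrib]
    refine Finset.sum_le_sum fun y _ => ?_
    refine le_trans (le_of_eq ?_) (hD_sqrt_add _ _ (Finset.sum_nonneg fun a _ => sq_nonneg _)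
      (Finset.sum_nonneg fun a _ => sq_nonneg _))
    congr 1
    rw [← Finset.sum_add_distrib]
    refine Finset.sum_congr rfl fun a _ => ?_
    rw [← Complex.normSq_eq_norm_sq, Complex.normSq_apply]
    ring
  have h3 := mul_le_mul_of_nonneg_left hreL hC
  have h4 := mul_le_mul_of_nonneg_left himL hC
  calc NN M m f ≤ _ := hNN
    _ ≤ 2 * 10^10 * ((K:ℝ) - m)^2 * L1 M (PK M K f) +
        2 * 10^10 * ((K:ℝ) - m)^2 * L1 M (PK M K f) := add_le_add (hre.trans h3) (him.trans h4)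
    _ = _ := by ring

end BernT.ST15b2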