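import Pool.Agent.Helper643.BernT

open Finset Matrix



open Finset Matrix
namespace BernT.ST15c
theorem card_block (M b c : ℕ) (hc : c < 2^b) (hb : b ≤ M) :
    (univ.filter (fun w : Fin (2^M) => (w:ℕ)/2^(M-b) = c)).card = 2^(M-b) := by
  have hs : 0 < 2^(M-b) := by positivity
  have hM : 2^M = 2^b * 2^(M-b) := by rw [← pow_add]; congr 1; omega
  have key : ((univ.filter (fun w : Fin (2^M) => (w:ℕ)/2^(M-b) = c)).map Fin.valEmbedding)
      = Ico (c*2^(M-b)) ((c+1)*2^(M-b)) := by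
    ext k
    simp only [mem_map, mem_filter, mem_univ, true_and, Fin.valEmbedding_apply, mem_Ico]
    constructor
    · rintro ⟨w, hw, rfl⟩
      constructor
      · rw [← hw]; exact Nat.div_mul_le_self _ _
      · rw [← hw]; rw [Nat.add_mul, one_mul]; exact Nat.lt_div_mul_add hs
    · rintro ⟨h1, h2⟩
      have h3 : k < 2^M := by
        calc k < (c+1)*2^(M-b) := h2
          _ ≤ 2^b * 2^(M-b) := Nat.mul_le_mul_right _ hc
          _ = 2^M := hM.symm
      refine ⟨⟨k, h3⟩, ?_, rfl⟩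
      show k / 2^(M-b) = c
      apply le_antisymm
      · exact Nat.lt_succ_iff.mp ((Nat.div_lt_iff_lt_mul hs).mpr h2)
      · exact (Nat.le_div_iff_mul_le hs).mpr h1
  rw [← card_map Fin.valEmbedding, key, Nat.card_Ico, Nat.add_mul]; omega

theorem card_block' (M b : ℕ) (z : Fin (2^M)) :
    (univ.filter (fun w : Fin (2^M) => (w:ℕ)/2^(M-b) = (z:ℕ)/2^(M-b))).card = 2^(M-b) := by
  by_cases hb : b ≤ M
  · apply card_block _ _ _ _ hb
    rw [Nat.div_lt_iff_lt_mul (by positivity), ← pow_add]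
    have : b + (M-b) = M := by omega
    rw [this]; exact z.2
  · have h0 : M - b = 0 := by omega
    rw [h0]
    simp only [pow_zero, Nat.div_one]
    have : (univ.filter (fun w : Fin (2^M) => (w:ℕ) = (z:ℕ))) = {z} := by
      ext w; simp [Fin.ext_iff]
    rw [this, card_singleton]

theorem Em_symm (M a : ℕ) (x z : Fin (2^M)) : Em M a x z = Em M a z x := by
  unfold Em; simp only [eq_comm]

theorem Em_mul_le (M a b : ℕ) (h : a ≤ b) : Em M a * Em M b = Em M a := by
  ext x z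
  rw [Matrix.mul_apply]
  have hd : ∀ w : Fin (2^M), (w:ℕ)/2^(M-b) = (z:ℕ)/2^(M-b) → (w:ℕ)/2^(M-a) = (z:ℕ)/2^(M-a) := by
    intro w hw
    have e : 2^(M-a) = 2^(M-b) * 2^((M-a)-(M-b)) := by rw [← pow_add]; congr 1; omega
    rw [e, ← Nat.div_div_eq_div_mul, ← Nat.div_div_eq_div_mul, hw]
  have : ∀ w : Fin (2^M), Em M a x w * Em M b w z =
      if (w:ℕ)/2^(M-b) = (z:ℕ)/2^(M-b) then Em M a x z * ((2:ℂ)^(M-b))⁻¹ else 0 := by
    intro w
    by_cases hw : (w:ℕ)/2^(M-b) = (z:ℕ)/2^(M-b)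
    · unfold Em; rw [if_pos hw, if_pos hw, hd w hw]
    · unfold Em; rw [if_neg hw, if_neg hw, mul_zero]
  rw [Finset.sum_congr rfl (fun w _ => this w), ← Finset.sum_filter, Finset.sum_const,
    card_block', nsmul_eq_mul]
  push_cast
  field_simp

theorem Em_transpose (M a : ℕ) : (Em M a)ᵀ = Em M a := by
  ext x z; exact Em_symm M a z x

theorem Em_mul_ge (M a b : ℕ) (h : b ≤ a) : Em M a * Em M b = Em M b := by
  have := congrArg Matrix.transpose (Em_mul_le M b a h)
  rwa [Matrix.transpose_mul, Em_transpose, Em_transpose] at this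

theorem Dm_mul_self (M a : ℕ) : Dm M a * Dm M a = Dm M a := by
  unfold Dm
  rw [Matrix.sub_mul, Matrix.mul_sub, Matrix.mul_sub, Em_mul_le M (a+1) (a+1) le_rfl,
    Em_mul_ge M (a+1) a (by omega), Em_mul_le M a (a+1) (by omega), Em_mul_le M a a le_rfl]
  simp

theorem Dm_mul_lt (M a b : ℕ) (h : a < b) : Dm M a * Dm M b = 0 := by
  unfold Dm
  rw [Matrix.sub_mul, Matrix.mul_sub, Matrix.mul_sub, Em_mul_le M (a+1) (b+1) (by omega),
    Em_mul_le M (a+1) b (by omega), Em_mul_le M a (b+1) (by omega), Em_mul_le M a b (by omega)]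
  simp

theorem Dm_transpose (M a : ℕ) : (Dm M a)ᵀ = Dm M a := by
  unfold Dm; rw [Matrix.transpose_sub, Em_transpose, Em_transpose]

theorem Dm_mul_ne (M a b : ℕ) (h : a ≠ b) : Dm M a * Dm M b = 0 := by
  rcases lt_or_gt_of_ne h with h | h
  · exact Dm_mul_lt M a b h
  · have := congrArg Matrix.transpose (Dm_mul_lt M b a h)
    rwa [Matrix.transpose_mul, Dm_transpose, Dm_transpose, Matrix.transpose_zero] at this

theorem Dm_ge (M a : ℕ) (h : M ≤ a) : Dm M a = 0 := by
  unfold Dm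
  have h1 : M - (a+1) = 0 := by omega
  have h2 : M - a = 0 := by omega
  have : Em M (a+1) = Em M a := by
    unfold Em; rw [h1, h2]
  rw [this, sub_self]

theorem Dm_conjT (M a : ℕ) : (Dm M a)ᴴ = Dm M a := by
  ext x z
  rw [Matrix.conjTranspose_apply]
  unfold Dm Em
  simp only [Matrix.sub_apply, star_sub]
  congr 1
  · by_cases h : (z:ℕ) / 2^(M-(a+1)) = (x:ℕ) / 2^(M-(a+1))
    · rw [if_pos h, if_pos h.symm]; simp
    · rw [if_neg h, if_neg (fun h' => h h'.symm)]; simp
  · by_cases h : (z:ℕ) / 2^(M-a) = (x:ℕ) / 2^(M-a)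
    · rw [if_pos h, if_pos h.symm]; simp
    · rw [if_neg h, if_neg (fun h' => h h'.symm)]; simp

theorem Haar_orth (M a b : ℕ) (hab : a ≠ b) (v w : Fin (2^M) → ℂ) (hv : Haar M a v)
    (hw : Haar M b w) : star v ⬝ᵥ w = 0 := by
  unfold Haar at hv hw
  rw [← hv, ← hw, Matrix.star_mulVec, Dm_conjT, ← Matrix.dotProduct_mulVec,
    Matrix.mulVec_mulVec, Dm_mul_ne M a b hab]
  simp

theorem nsq (z : ℂ) : ((‖z‖^2 : ℝ) : ℂ) = star z * z := by
  rw [Complex.star_def, mul_comm, Complex.mul_conj, Complex.normSq_eq_norm_sq]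

theorem orth_sum (M : ℕ) (F : ℕ → Fin (2^M) → ℂ) (hF : ∀ a, Haar M a (F a)) :
    ∑ x, ‖∑ a ∈ range M, F a x‖^2 = ∑ a ∈ range M, ∑ x, ‖F a x‖^2 := by
  have h : ((∑ x, ‖∑ a ∈ range M, F a x‖^2 : ℝ) : ℂ) = ((∑ a ∈ range M, ∑ x, ‖F a x‖^2 : ℝ) : ℂ) := by
    rw [Complex.ofReal_sum, Complex.ofReal_sum]
    have h1 : ∀ x, ((‖∑ a ∈ range M, F a x‖^2 : ℝ) : ℂ) =
        ∑ a ∈ range M, ∑ b ∈ range M, star (F a x) * F b x := by
      intro x
      rw [nsq, star_sum, Finset.sum_mul_sum]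
    rw [Finset.sum_congr rfl (fun x _ => h1 x), Finset.sum_comm]
    refine Finset.sum_congr rfl (fun a ha => ?_)
    rw [Finset.sum_comm]
    rw [Finset.sum_eq_single a]
    · rw [Complex.ofReal_sum]
      exact Finset.sum_congr rfl (fun x _ => (nsq _).symm)
    · intro b _ hb
      have := Haar_orth M a b (fun h => hb h.symm) (F a) (F b) (hF a) (hF b)
      simpa [dotProduct] using this
    · intro hn; exact absurd ha hn
  exact_mod_cast h

theorem hmart
    (glc : ∀ (M : ℕ) (Nrm : (ℕ → Fin (2^M) → ℂ) → ℝ), Nrm 0 ≤ 0 →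
      (∀ F G, Nrm (F + G) ≤ Nrm F + Nrm G) → ∀ (δ : ℝ), 0 ≤ δ →
      (∀ q < M, ∀ c < 2^q, ∀ F : ℕ → Fin (2^M) → ℂ, (∀ a, Haar M a (F a)) →
        (∀ a < q, F a = 0) → (∀ a (x : Fin (2^M)), (x:ℕ) / 2^(M-q) ≠ c → F a x = 0) →
        Nrm F ≤ δ * Real.sqrt (2^(M-q)) * Real.sqrt (∑ a ∈ range M, ∑ x, ‖F a x‖^2)) →
      ∀ F : ℕ → Fin (2^M) → ℂ, (∀ a, Haar M a (F a)) →
        Nrm F ≤ 4 * δ * ∑ x, Real.sqrt (∑ a ∈ range M, ‖F a x‖^2)) :
    ∃ C : ℝ, 0 < C ∧ ∀ (M m : ℕ) (f : Matrix (Fin (2^M)) (Fin (2^M)) ℂ),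
      L1 M (Dg M m f) ≤ C * NN M m f := by
  refine ⟨4, by norm_num, fun M m f => ?_⟩
  have hcol : ∀ y : Fin (2^M), ∑ x, ‖Dg M m f x y‖ ≤
      4 * ∑ x, Real.sqrt (∑ a ∈ range (m+1), ‖(Dm M a * f * Dm M (m-a)) x y‖^2) := by
    intro y
    let F : ℕ → Fin (2^M) → ℂ := fun a x => if a ≤ m then (Dm M a * f * Dm M (m-a)) x y else 0
    have hFH : ∀ a, Haar M a (F a) := by
      intro a
      unfold Haar
      by_cases ha : a ≤ m
      · have e : F a = (Dm M a * f * Dm M (m-a)) *ᵥ (Pi.single y 1) := by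
          funext x
          simp [F, ha]
        rw [e, Matrix.mulVec_mulVec, ← Matrix.mul_assoc, ← Matrix.mul_assoc, Dm_mul_self]
      · have e : F a = 0 := by funext x; simp [F, ha]
        rw [e, Matrix.mulVec_zero]
    have main := glc M (fun G => ∑ x, ‖∑ a ∈ range M, G a x‖) (by simp)
      (by
        intro G H
        rw [← Finset.sum_add_distrib]
        refine Finset.sum_le_sum (fun x _ => ?_)
        have : ∑ a ∈ range M, (G + H) a x = ∑ a ∈ range M, G a x + ∑ a ∈ range M, H a x := by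
          rw [← Finset.sum_add_distrib]; rfl
        rw [this]; exact norm_add_le _ _) 1 zero_le_one
      (by
        intro q hq c hc G hG _ hsupp
        have hz : ∀ x : Fin (2^M), (x:ℕ)/2^(M-q) ≠ c → ‖∑ a ∈ range M, G a x‖ = 0 := by
          intro x hx
          rw [Finset.sum_eq_zero (fun a _ => hsupp a x hx), norm_zero]
        have e1 : ∑ x, ‖∑ a ∈ range M, G a x‖ =
            ∑ x ∈ univ.filter (fun w : Fin (2^M) => (w:ℕ)/2^(M-q) = c), ‖∑ a ∈ range M, G a x‖ := by
          rw [Finset.sum_filter]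
          refine Finset.sum_congr rfl (fun x _ => ?_)
          by_cases hx : (x:ℕ)/2^(M-q) = c
          · rw [if_pos hx]
          · rw [if_neg hx, hz x hx]
        have e2 : (∑ x ∈ univ.filter (fun w : Fin (2^M) => (w:ℕ)/2^(M-q) = c), (1:ℝ)^2) = 2^(M-q) := by
          rw [one_pow, Finset.sum_const, card_block M q c hc hq.le]; simp
        have e3 : ∑ x ∈ univ.filter (fun w : Fin (2^M) => (w:ℕ)/2^(M-q) = c), ‖∑ a ∈ range M, G a x‖^2
            ≤ ∑ a ∈ range M, ∑ x, ‖G a x‖^2 := by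
          rw [← orth_sum M G hG]
          exact Finset.sum_le_sum_of_subset_of_nonneg (Finset.filter_subset _ _) (fun _ _ _ => by positivity)
        rw [e1, one_mul]
        have hcs : (∑ x ∈ univ.filter (fun w : Fin (2^M) => (w:ℕ)/2^(M-q) = c), ‖∑ a ∈ range M, G a x‖)^2
            ≤ 2^(M-q) * ∑ a ∈ range M, ∑ x, ‖G a x‖^2 := by
          have := Finset.sum_mul_sq_le_sq_mul_sq (univ.filter (fun w : Fin (2^M) => (w:ℕ)/2^(M-q) = c))
            (fun _ => (1:ℝ)) (fun x => ‖∑ a ∈ range M, G a x‖)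
          simp only [one_mul] at this
          rw [e2] at this
          exact this.trans (mul_le_mul_of_nonneg_left e3 (by positivity))
        rw [← Real.sqrt_mul (by positivity)]
        exact Real.le_sqrt_of_sq_le hcs) F hFH
    have hD : ∀ x, Dg M m f x y = ∑ a ∈ range M, F a x := by
      intro x
      unfold Dg
      rw [Matrix.sum_apply]
      have h1 : ∑ a ∈ range (m+1), (Dm M a * f * Dm M (m-a)) x y = ∑ a ∈ range (m+1), F a x := by
        refine Finset.sum_congr rfl (fun a ha => ?_)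
        have : a ≤ m := Nat.lt_succ_iff.mp (Finset.mem_range.mp ha)
        simp [F, this]
      rw [h1]
      rcases le_total (m+1) M with h | h
      · refine Finset.sum_subset (Finset.range_mono h) (fun a _ ha => ?_)
        have : ¬ a ≤ m := fun h' => ha (Finset.mem_range.mpr (Nat.lt_succ_of_le h'))
        simp [F, this]
      · symm
        refine Finset.sum_subset (Finset.range_mono h) (fun a _ ha => ?_)
        have hMa : M ≤ a := by
          by_contra h'
          exact ha (Finset.mem_range.mpr (by omega))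
        simp [F, Dm_ge M a hMa]
    have hN : ∀ x, ∑ a ∈ range M, ‖F a x‖^2 ≤ ∑ a ∈ range (m+1), ‖(Dm M a * f * Dm M (m-a)) x y‖^2 := by
      intro x
      have h1 : ∑ a ∈ range (m+1), ‖(Dm M a * f * Dm M (m-a)) x y‖^2 = ∑ a ∈ range (m+1), ‖F a x‖^2 := by
        refine Finset.sum_congr rfl (fun a ha => ?_)
        have : a ≤ m := Nat.lt_succ_iff.mp (Finset.mem_range.mp ha)
        simp [F, this]
      rw [h1]
      rcases le_total (m+1) M with h | h
      · apply le_of_eq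
        symm
        refine Finset.sum_subset (Finset.range_mono h) (fun a _ ha => ?_)
        have : ¬ a ≤ m := fun h' => ha (Finset.mem_range.mpr (Nat.lt_succ_of_le h'))
        simp [F, this]
      · exact Finset.sum_le_sum_of_subset_of_nonneg (Finset.range_mono h) (fun _ _ _ => by positivity)
    calc ∑ x, ‖Dg M m f x y‖ = ∑ x, ‖∑ a ∈ range M, F a x‖ :=
          Finset.sum_congr rfl (fun x _ => by rw [hD x])
      _ ≤ 4 * 1 * ∑ x, Real.sqrt (∑ a ∈ range M, ‖F a x‖^2) := main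
      _ ≤ _ := by
          rw [mul_one]
          refine mul_le_mul_of_nonneg_left (Finset.sum_le_sum (fun x _ => Real.sqrt_le_sqrt (hN x))) (by norm_num)
  unfold L1 NN
  rw [Finset.sum_comm, Finset.mul_sum, ← Finset.mul_sum, Finset.sum_comm (s := univ) (t := univ) (f := fun x y => Real.sqrt (∑ a ∈ range (m+1), ‖(Dm M a * f * Dm M (m-a)) x y‖^2)), Finset.mul_sum]
  exact Finset.sum_le_sum (fun y _ => hcol y)

end BernT.ST15c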