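import Pool.Agent.Helper643.BernT

open Finset Matrix



open Finset Matrix
namespace BernT.ST16a
theorem bs_Em_of_ge {M a : ℕ} (h : M ≤ a) : Em M a = 1 := by
  ext x z
  unfold Em
  rw [Nat.sub_eq_zero_of_le h]
  simp only [pow_zero, Nat.div_one, inv_one, Matrix.one_apply, Fin.ext_iff]

theorem bs_card_block (M c : ℕ) (hc : c ≤ M) (z : Fin (2^M)) :
    (univ.filter (fun y : Fin (2^M) => (y:ℕ) / 2^c = (z:ℕ) / 2^c)).card = 2^c := by
  have hpos : 0 < 2^c := by positivity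
  set q := (z:ℕ) / 2^c with hq
  have hle : (q + 1) * 2^c ≤ 2^M := by
    have h1 : q < 2^(M-c) := by
      rw [hq]
      apply Nat.div_lt_of_lt_mul
      rw [← pow_add, Nat.add_sub_cancel' hc]
      exact z.2
    calc (q+1) * 2^c ≤ 2^(M-c) * 2^c := Nat.mul_le_mul_right _ h1
      _ = 2^M := by rw [← pow_add, Nat.sub_add_cancel hc]
  have h2 : (univ.filter (fun y : Fin (2^M) => (y:ℕ) / 2^c = q)).map Fin.valEmbedding =
      Finset.Ico (q * 2^c) ((q+1) * 2^c) := by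
    ext n
    simp only [Finset.mem_map, Finset.mem_filter, Finset.mem_univ, true_and,
      Fin.valEmbedding_apply, Finset.mem_Ico]
    constructor
    · rintro ⟨y, hy, rfl⟩
      rw [← hy]
      refine ⟨Nat.div_mul_le_self _ _, ?_⟩
      have := Nat.lt_mul_div_succ (y:ℕ) hpos
      rw [mul_comm]
      exact this
    · rintro ⟨h1, h2⟩
      refine ⟨⟨n, lt_of_lt_of_le h2 hle⟩, ?_, rfl⟩
      exact Nat.div_eq_of_lt_le h1 h2
  rw [← Finset.card_map Fin.valEmbedding, h2, Nat.card_Ico, add_mul, one_mul]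
  omega

theorem bs_Em_mul_Em {M a b : ℕ} (h : a ≤ b) : Em M a * Em M b = Em M a := by
  ext x z
  rw [Matrix.mul_apply]
  have h1 : ∀ y : Fin (2^M), Em M a x y * Em M b y z =
      if (y:ℕ) / 2^(M-b) = (z:ℕ) / 2^(M-b) then Em M a x z * ((2:ℂ)^(M-b))⁻¹ else 0 := by
    intro y
    by_cases hy : (y:ℕ) / 2^(M-b) = (z:ℕ) / 2^(M-b)
    · rw [if_pos hy]
      have hyz : (y:ℕ) / 2^(M-a) = (z:ℕ) / 2^(M-a) := by
        have e : 2^(M-a) = 2^(M-b) * 2^((M-a)-(M-b)) := by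
          rw [← pow_add]; congr 1; omega
        rw [e, ← Nat.div_div_eq_div_mul, ← Nat.div_div_eq_div_mul, hy]
      unfold Em
      rw [if_pos hy, hyz]
    · rw [if_neg hy]
      unfold Em
      rw [if_neg hy, mul_zero]
  simp only [h1]
  rw [← Finset.sum_filter, Finset.sum_const, bs_card_block M (M-b) (Nat.sub_le _ _) z,
    nsmul_eq_mul]
  push_cast
  field_simp

theorem bs_Em_transpose (M a : ℕ) : (Em M a)ᵀ = Em M a := by
  ext x z
  rw [Matrix.transpose_apply]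
  unfold Em
  exact if_congr eq_comm rfl rfl

theorem bs_Em_mul_Em' {M a b : ℕ} (h : a ≤ b) : Em M b * Em M a = Em M a := by
  have h1 := congrArg Matrix.transpose (bs_Em_mul_Em (M := M) h)
  rw [Matrix.transpose_mul, bs_Em_transpose, bs_Em_transpose] at h1
  exact h1

theorem bs_Dm_transpose (M a : ℕ) : (Dm M a)ᵀ = Dm M a := by
  unfold Dm
  rw [Matrix.transpose_sub, bs_Em_transpose, bs_Em_transpose]

theorem bs_Dm_idem (M a : ℕ) : Dm M a * Dm M a = Dm M a := by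
  unfold Dm
  rw [Matrix.sub_mul, Matrix.mul_sub, Matrix.mul_sub, bs_Em_mul_Em le_rfl, bs_Em_mul_Em le_rfl,
    bs_Em_mul_Em (Nat.le_succ a), bs_Em_mul_Em' (Nat.le_succ a)]
  abel

theorem bs_Dm_zero {M a : ℕ} (h : M ≤ a) : Dm M a = 0 := by
  unfold Dm
  rw [bs_Em_of_ge h, bs_Em_of_ge (h.trans (Nat.le_succ a)), sub_self]

theorem bs_Dm_sum (M : ℕ) : ∑ a ∈ range M, Dm M a = 1 - Em M 0 := by
  unfold Dm
  rw [Finset.sum_range_sub, bs_Em_of_ge le_rfl]

theorem bs_L1_sum_le {M : ℕ} {ι : Type*} (S : Finset ι)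
    (g : ι → Matrix (Fin (2^M)) (Fin (2^M)) ℂ) :
    L1 M (∑ i ∈ S, g i) ≤ ∑ i ∈ S, L1 M (g i) := by
  unfold L1
  calc ∑ x, ∑ y, ‖(∑ i ∈ S, g i) x y‖ ≤ ∑ x, ∑ y, ∑ i ∈ S, ‖g i x y‖ := by
        refine Finset.sum_le_sum fun x _ => Finset.sum_le_sum fun y _ => ?_
        rw [Matrix.sum_apply]
        exact norm_sum_le _ _
    _ = ∑ x, ∑ i ∈ S, ∑ y, ‖g i x y‖ := by
        refine Finset.sum_congr rfl fun x _ => ?_
        rw [Finset.sum_comm]
    _ = ∑ i ∈ S, ∑ x, ∑ y, ‖g i x y‖ := by rw [Finset.sum_comm]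

/-- `f` is the sum of its diagonals -/
theorem bs_decomp {M : ℕ} {f : Matrix (Fin (2^M)) (Fin (2^M)) ℂ} (h1 : Em M 0 * f = 0)
    (h2 : f * Em M 0 = 0) : f = ∑ s ∈ range (2*M), Dg M s f := by
  unfold Dg
  rw [Finset.sum_range_diag_flip (2*M) (fun a b => Dm M a * f * Dm M b)]
  have e1 : ∀ a ∈ range M, ∑ b ∈ range (2*M - a), Dm M a * f * Dm M b =
      ∑ b ∈ range M, Dm M a * f * Dm M b := by
    intro a ha
    rw [Finset.mem_range] at ha
    refine (Finset.sum_subset ?_ ?_).symm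
    · intro b hb
      rw [Finset.mem_range] at hb ⊢
      omega
    · intro b _ hb
      rw [Finset.mem_range, not_lt] at hb
      rw [bs_Dm_zero hb, Matrix.mul_zero]
  have e2 : ∑ a ∈ range (2*M), ∑ b ∈ range (2*M - a), Dm M a * f * Dm M b =
      ∑ a ∈ range M, ∑ b ∈ range (2*M - a), Dm M a * f * Dm M b := by
    refine (Finset.sum_subset ?_ ?_).symm
    · intro b hb
      rw [Finset.mem_range] at hb ⊢
      omega
    · intro b _ hb
      rw [Finset.mem_range, not_lt] at hb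
      refine Finset.sum_eq_zero fun c _ => ?_
      rw [bs_Dm_zero hb, Matrix.zero_mul, Matrix.zero_mul]
  rw [e2, Finset.sum_congr rfl e1]
  have e3 : ∀ a ∈ range M, ∑ b ∈ range M, Dm M a * f * Dm M b = Dm M a * f * (1 - Em M 0) := by
    intro a _
    rw [← Finset.mul_sum, bs_Dm_sum]
  rw [Finset.sum_congr rfl e3, ← Finset.sum_mul, ← Finset.sum_mul, bs_Dm_sum, Matrix.sub_mul,
    Matrix.one_mul, h1, sub_zero, Matrix.mul_sub, Matrix.mul_one, h2, sub_zero]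

theorem bs_mul_transpose_apply {M : ℕ} (X T : Matrix (Fin (2^M)) (Fin (2^M)) ℂ)
    (x y : Fin (2^M)) : (X * Tᵀ) x y = (T *ᵥ (X x)) y := by
  rw [Matrix.mul_apply]
  unfold Matrix.mulVec dotProduct
  refine Finset.sum_congr rfl fun j _ => ?_
  rw [Matrix.transpose_apply, mul_comm]

/-- pieces -/
noncomputable def bsP (r : ℝ) (u v : ℂ) (M m s : ℕ) (w : ℤ)
    (f : Matrix (Fin (2^M)) (Fin (2^M)) ℂ) (a : ℕ) : Matrix (Fin (2^M)) (Fin (2^M)) ℂ :=
  if a ≤ s ∧ 0 ≤ (a:ℤ) - w ∧ (a:ℤ) - w ≤ m then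
    Dm M a * f * Dm M (s-a) * (Mm r u v M (m - ((a:ℤ) - w).toNat))ᵀ else 0

/-- pieces -/
noncomputable def bsR (M m s : ℕ) (w : ℤ)
    (f : Matrix (Fin (2^M)) (Fin (2^M)) ℂ) (b : ℕ) : Matrix (Fin (2^M)) (Fin (2^M)) ℂ :=
  if b ≤ s ∧ 0 ≤ (s:ℤ) - b - w ∧ (s:ℤ) - b - w ≤ m then
    Dm M (s-b) * f * Dm M b else 0

theorem bs_step1 {r C : ℝ} {M : ℕ} {u v : ℂ} {w : ℤ}
    (mfam : ∀ (F : ℕ → Fin (2^M) → ℂ), (∀ a, Haar M a (F a)) →
      (∑ x, ‖∑ a ∈ range M, (TM r u v M w a *ᵥ F a) x‖ ≤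
        C * (2:ℝ)^(-(|(w:ℝ)|/2)) * ∑ x, Real.sqrt (∑ a ∈ range M, ‖F a x‖^2)))
    (P : ℕ → Matrix (Fin (2^M)) (Fin (2^M)) ℂ) (hP : ∀ a, Dm M a * P a = P a) :
    L1 M (∑ a ∈ range M, TM r u v M w a * P a) ≤ C * (2:ℝ)^(-(|(w:ℝ)|/2)) *
      ∑ x, ∑ y, Real.sqrt (∑ a ∈ range M, ‖P a x y‖^2) := by
  unfold L1
  rw [Finset.sum_comm, Finset.sum_comm (f := fun x y => Real.sqrt (∑ a ∈ range M, ‖P a x y‖^2)),
    Finset.mul_sum]
  refine Finset.sum_le_sum fun y _ => ?_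
  have h := mfam (fun a x => P a x y) (by
    intro a
    unfold Haar
    have h1 : (Dm M a *ᵥ fun x => P a x y) = fun x => (Dm M a * P a) x y := rfl
    rw [h1, hP a])
  refine le_trans (le_of_eq ?_) h
  refine Finset.sum_congr rfl fun x _ => ?_
  rw [Matrix.sum_apply]
  rfl

theorem bs_step2 {r C : ℝ} {M m s : ℕ} {u v : ℂ} {w : ℤ} (hmM : m + 2 ≤ M)
    (mfam : ∀ (F : ℕ → Fin (2^M) → ℂ), (∀ a, Haar M a (F a)) →
      (∑ x, Real.sqrt (∑ a ∈ range M, ‖(TM r u v M ((s:ℤ) - m - w) a *ᵥ F a) x‖^2) ≤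
        C * (2:ℝ)^(-(|(((s:ℤ) - m - w : ℤ):ℝ)|/2)) * ∑ x, Real.sqrt (∑ a ∈ range M, ‖F a x‖^2)))
    (hC : 0 < C)
    (f : Matrix (Fin (2^M)) (Fin (2^M)) ℂ) :
    ∑ x, ∑ y, Real.sqrt (∑ a ∈ range M, ‖bsP r u v M m s w f a x y‖^2) ≤
      C * (2:ℝ)^(-(|(((s:ℤ) - m - w : ℤ):ℝ)|/2)) * NN M s f := by
  unfold NN
  rw [Finset.mul_sum]
  refine Finset.sum_le_sum fun x _ => ?_
  have hR : ∀ b, bsR M m s w f b * Dm M b = bsR M m s w f b := by
    intro b
    unfold bsR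
    split_ifs
    · rw [Matrix.mul_assoc, bs_Dm_idem]
    · rw [Matrix.zero_mul]
  have h := mfam (fun b => bsR M m s w f b x) (by
    intro b
    unfold Haar
    funext y
    rw [← bs_mul_transpose_apply, bs_Dm_transpose, hR])
  refine le_trans ?_ (h.trans ?_)
  · refine Finset.sum_le_sum fun y _ => Real.sqrt_le_sqrt ?_
    -- reindex a = s - b
    have e1 : ∀ a ∈ (range M).filter (fun a => bsP r u v M m s w f a x y ≠ 0),
        ‖bsP r u v M m s w f a x y‖^2 =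
        ‖(TM r u v M ((s:ℤ) - m - w) (s - a) *ᵥ bsR M m s w f (s - a) x) y‖^2 := by
      intro a ha
      rw [Finset.mem_filter] at ha
      have hc : a ≤ s ∧ 0 ≤ (a:ℤ) - w ∧ (a:ℤ) - w ≤ m := by
        by_contra hcon
        apply ha.2
        unfold bsP
        rw [if_neg hcon]
        rfl
      obtain ⟨hc1, hc2, hc3⟩ := hc
      have hb : ((s - a : ℕ) : ℤ) = (s:ℤ) - a := by omega
      unfold bsP bsR TM
      rw [if_pos ⟨hc1, hc2, hc3⟩, if_pos (by omega), if_pos (by omega)]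
      have e2 : (((s - a : ℕ) : ℤ) - ((s:ℤ) - m - w)).toNat = m - ((a:ℤ) - w).toNat := by omega
      have e3 : s - (s - a) = a := by omega
      rw [e2, e3, bs_mul_transpose_apply]
    have e4 : ∑ a ∈ range M, ‖bsP r u v M m s w f a x y‖^2 =
        ∑ a ∈ (range M).filter (fun a => bsP r u v M m s w f a x y ≠ 0),
          ‖bsP r u v M m s w f a x y‖^2 := by
      refine (Finset.sum_filter_of_ne ?_).symm
      intro a _ ha hz
      apply ha
      rw [hz]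
      simp
    rw [e4, Finset.sum_congr rfl e1]
    have hle : ∀ a ∈ (range M).filter (fun a => bsP r u v M m s w f a x y ≠ 0), a ≤ s ∧ s - a < M := by
      intro a ha
      rw [Finset.mem_filter] at ha
      constructor
      · by_contra hcon
        apply ha.2
        unfold bsP
        rw [if_neg (by tauto)]
        rfl
      · by_contra hcon
        rw [not_lt] at hcon
        apply ha.2
        unfold bsP
        rw [bs_Dm_zero hcon, Matrix.mul_zero, Matrix.zero_mul, ite_self]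
        rfl
    have hinj : Set.InjOn (fun a => s - a)
        ((range M).filter (fun a => bsP r u v M m s w f a x y ≠ 0) : Finset ℕ) := by
      intro a ha b hb hab
      have h1 := (hle a ha).1
      have h2 := (hle b hb).1
      simp only at hab
      omega
    rw [← Finset.sum_image (f := fun b =>
      ‖(TM r u v M ((s:ℤ) - m - w) b *ᵥ bsR M m s w f b x) y‖^2) hinj]
    refine Finset.sum_le_sum_of_subset_of_nonneg ?_ (fun _ _ _ => by positivity)
    intro b hb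
    rw [Finset.mem_image] at hb
    obtain ⟨a, ha, rfl⟩ := hb
    rw [Finset.mem_range]
    exact (hle a ha).2
  · refine mul_le_mul_of_nonneg_left ?_ (by positivity)
    refine Finset.sum_le_sum fun y _ => Real.sqrt_le_sqrt ?_
    rw [← Finset.sum_range_reflect (fun a => ‖(Dm M a * f * Dm M (s - a)) x y‖^2) (s+1)]
    have e5 : ∑ b ∈ range M, ‖bsR M m s w f b x y‖^2 =
        ∑ b ∈ (range M).filter (fun b => b ≤ s), ‖bsR M m s w f b x y‖^2 := by
      refine (Finset.sum_filter_of_ne ?_).symm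
      intro b _ hb
      by_contra hcon
      apply hb
      unfold bsR
      rw [if_neg (by tauto)]
      simp
    rw [e5]
    calc ∑ b ∈ (range M).filter (fun b => b ≤ s), ‖bsR M m s w f b x y‖^2
        ≤ ∑ b ∈ (range M).filter (fun b => b ≤ s), ‖(Dm M (s + 1 - 1 - b) * f *
            Dm M (s - (s + 1 - 1 - b))) x y‖^2 := by
          refine Finset.sum_le_sum fun b hb => ?_
          rw [Finset.mem_filter] at hb
          have e6 : s - (s + 1 - 1 - b) = b := by omega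
          have e7 : s + 1 - 1 - b = s - b := by omega
          rw [e6, e7]
          unfold bsR
          split_ifs
          · exact le_rfl
          · simp only [Matrix.zero_apply, norm_zero]
            rw [zero_pow two_ne_zero]
            exact sq_nonneg _
      _ ≤ _ := by
          refine Finset.sum_le_sum_of_subset_of_nonneg ?_ (fun _ _ _ => by positivity)
          intro b hb
          rw [Finset.mem_filter] at hb
          rw [Finset.mem_range]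
          omega

theorem bs_reindex {E : Type*} [AddCommMonoid E] {m s a : ℕ} (ha : a ≤ s) (φ : ℕ → E) :
    ∑ w ∈ Finset.Icc (-(m:ℤ)) (s:ℤ), (if 0 ≤ (a:ℤ) - w ∧ (a:ℤ) - w ≤ m then
      φ ((a:ℤ) - w).toNat else 0) = ∑ t ∈ range (m+1), φ t := by
  rw [← Finset.sum_filter]
  refine Finset.sum_nbij' (fun w => ((a:ℤ) - w).toNat) (fun t => (a:ℤ) - t) ?_ ?_ ?_ ?_ ?_
  · intro w hw
    rw [Finset.mem_filter, Finset.mem_Icc] at hw
    rw [Finset.mem_range]
    omega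
  · intro t ht
    rw [Finset.mem_range] at ht
    rw [Finset.mem_filter, Finset.mem_Icc]
    omega
  · intro w hw
    rw [Finset.mem_filter, Finset.mem_Icc] at hw
    omega
  · intro t ht
    omega
  · intro w hw
    rfl

theorem bs_split (r : ℝ) (u v u' v' : ℂ) {M m s : ℕ} (hmM : m + 2 ≤ M)
    (f : Matrix (Fin (2^M)) (Fin (2^M)) ℂ) :
    ∑ t ∈ range (m+1), Mm r u v M t * Dg M s f * (Mm r u' v' M (m-t))ᵀ =
      ∑ w ∈ Finset.Icc (-(m:ℤ)) (s:ℤ), ∑ a ∈ range M,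
        TM r u v M w a * bsP r u' v' M m s w f a := by
  rw [Finset.sum_comm]
  have e1 : ∀ a ∈ range M, ∑ w ∈ Finset.Icc (-(m:ℤ)) (s:ℤ),
      TM r u v M w a * bsP r u' v' M m s w f a =
      if a ≤ s then ∑ t ∈ range (m+1), Mm r u v M t * (Dm M a * f * Dm M (s-a)) *
        (Mm r u' v' M (m-t))ᵀ else 0 := by
    intro a _
    split_ifs with has
    · rw [← bs_reindex (m := m) has (fun t => Mm r u v M t * (Dm M a * f * Dm M (s-a)) *
        (Mm r u' v' M (m-t))ᵀ)]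
      refine Finset.sum_congr rfl fun w _ => ?_
      unfold bsP
      by_cases hc : 0 ≤ (a:ℤ) - w ∧ (a:ℤ) - w ≤ m
      · rw [if_pos hc, if_pos ⟨has, hc⟩]
        unfold TM
        rw [if_pos (by omega)]
        simp only [Matrix.mul_assoc]
      · rw [if_neg hc, if_neg (by tauto), Matrix.mul_zero]
    · refine Finset.sum_eq_zero fun w _ => ?_
      unfold bsP
      rw [if_neg (by tauto), Matrix.mul_zero]
  rw [Finset.sum_congr rfl e1, ← Finset.sum_filter]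
  have e2 : ∀ t ∈ range (m+1), Mm r u v M t * Dg M s f * (Mm r u' v' M (m-t))ᵀ =
      ∑ a ∈ range (s+1), Mm r u v M t * (Dm M a * f * Dm M (s-a)) *
        (Mm r u' v' M (m-t))ᵀ := by
    intro t _
    unfold Dg
    rw [Finset.mul_sum, Finset.sum_mul]
  rw [Finset.sum_congr rfl e2, Finset.sum_comm]
  refine (Finset.sum_subset ?_ ?_).symm
  · intro a ha
    rw [Finset.mem_filter] at ha
    rw [Finset.mem_range]
    omega
  · intro a ha hna
    rw [Finset.mem_range] at ha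
    rw [Finset.mem_filter, Finset.mem_range] at hna
    have hMa : M ≤ a := by omega
    refine Finset.sum_eq_zero fun t _ => ?_
    rw [bs_Dm_zero hMa, Matrix.zero_mul, Matrix.zero_mul, Matrix.mul_zero, Matrix.zero_mul]

theorem bs_summable : Summable (fun w : ℤ => (2:ℝ)^(-(|(w:ℝ)|/4))) := by
  have hq : Summable (fun n : ℕ => ((2:ℝ)^(-(1/4 : ℝ)))^n) := by
    refine summable_geometric_of_lt_one (by positivity) ?_
    exact Real.rpow_lt_one_of_one_lt_of_neg (by norm_num) (by norm_num)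
  have e : ∀ n : ℕ, (2:ℝ)^(-((n:ℝ)/4)) = ((2:ℝ)^(-(1/4 : ℝ)))^n := by
    intro n
    rw [← Real.rpow_natCast, ← Real.rpow_mul (by norm_num)]
    congr 1
    ring
  refine Summable.of_nat_of_neg ?_ ?_
  · refine hq.congr fun n => ?_
    rw [← e]
    congr 3
    simp
  · refine hq.congr fun n => ?_
    rw [← e]
    congr 3
    simp

theorem bs_numeric (m s : ℕ) : ∑ w ∈ Finset.Icc (-(m:ℤ)) (s:ℤ),
    ((2:ℝ)^(-(|(w:ℝ)|/2)) * (2:ℝ)^(-(|(((s:ℤ) - m - w : ℤ):ℝ)|/2))) ≤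
    (∑' w : ℤ, (2:ℝ)^(-(|(w:ℝ)|/4))) * (2:ℝ)^(-(|(s:ℝ)-m|/4)) := by
  calc ∑ w ∈ Finset.Icc (-(m:ℤ)) (s:ℤ),
      ((2:ℝ)^(-(|(w:ℝ)|/2)) * (2:ℝ)^(-(|(((s:ℤ) - m - w : ℤ):ℝ)|/2)))
      ≤ ∑ w ∈ Finset.Icc (-(m:ℤ)) (s:ℤ), (2:ℝ)^(-(|(w:ℝ)|/4)) * (2:ℝ)^(-(|(s:ℝ)-m|/4)) := by
        refine Finset.sum_le_sum fun w _ => ?_
        rw [← Real.rpow_add (by norm_num), ← Real.rpow_add (by norm_num)]
        refine Real.rpow_le_rpow_of_exponent_le (by norm_num) ?_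
        have h1 : |(s:ℝ) - m| ≤ |(w:ℝ)| + |(((s:ℤ) - m - w : ℤ):ℝ)| := by
          have := abs_add_le (w:ℝ) (((s:ℤ) - m - w : ℤ):ℝ)
          have e : (w:ℝ) + (((s:ℤ) - m - w : ℤ):ℝ) = (s:ℝ) - m := by push_cast; ring
          rw [e] at this
          exact this
        have h2 : 0 ≤ |(((s:ℤ) - m - w : ℤ):ℝ)| := abs_nonneg _
        linarith
    _ = (∑ w ∈ Finset.Icc (-(m:ℤ)) (s:ℤ), (2:ℝ)^(-(|(w:ℝ)|/4))) * (2:ℝ)^(-(|(s:ℝ)-m|/4)) := by
        rw [Finset.sum_mul]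
    _ ≤ _ := by
        refine mul_le_mul_of_nonneg_right ?_ (by positivity)
        exact bs_summable.sum_le_tsum _ (fun _ _ => by positivity)

theorem bs_NN_nonneg (M s : ℕ) (f : Matrix (Fin (2^M)) (Fin (2^M)) ℂ) : 0 ≤ NN M s f := by
  unfold NN
  exact Finset.sum_nonneg fun _ _ => Finset.sum_nonneg fun _ _ => Real.sqrt_nonneg _

theorem blockSum (r : ℝ)
    (mfam : ∃ C : ℝ, 0 < C ∧ ∀ (M : ℕ) (u v : ℂ), ‖u‖ ≤ 1 → ‖v‖ ≤ 1 → ∀ (w : ℤ)
      (F : ℕ → Fin (2^M) → ℂ), (∀ a, Haar M a (F a)) →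
      (∑ x, Real.sqrt (∑ a ∈ range M, ‖(TM r u v M w a *ᵥ F a) x‖^2) ≤
        C * (2:ℝ)^(-(|(w:ℝ)|/2)) * ∑ x, Real.sqrt (∑ a ∈ range M, ‖F a x‖^2)) ∧
      (∑ x, ‖∑ a ∈ range M, (TM r u v M w a *ᵥ F a) x‖ ≤
        C * (2:ℝ)^(-(|(w:ℝ)|/2)) * ∑ x, Real.sqrt (∑ a ∈ range M, ‖F a x‖^2))) :
    ∃ C : ℝ, 0 < C ∧ ∀ (M m : ℕ) (u v u' v' : ℂ), ‖u‖ ≤ 1 → ‖v‖ ≤ 1 → ‖u'‖ ≤ 1 → ‖v'‖ ≤ 1 →
      m + 2 ≤ M → ∀ (f : Matrix (Fin (2^M)) (Fin (2^M)) ℂ), Em M 0 * f = 0 → f * Em M 0 = 0 →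
      L1 M (∑ t ∈ range (m+1), Mm r u v M t * f * (Mm r u' v' M (m-t))ᵀ) ≤
        C * ∑ s ∈ range (2*M), (2:ℝ)^(-(|(s:ℝ)-m|/4)) * NN M s f := by
  obtain ⟨C, hC, hfam⟩ := mfam
  set K : ℝ := ∑' w : ℤ, (2:ℝ)^(-(|(w:ℝ)|/4)) with hK
  have hKpos : 0 < K := by
    have h := bs_summable.sum_le_tsum {(0:ℤ)} (fun _ _ => by positivity)
    rw [Finset.sum_singleton] at h
    refine lt_of_lt_of_le ?_ h
    positivity
  refine ⟨C * C * K, by positivity, ?_⟩
  intro M m u v u' v' hu hv hu' hv' hmM f hf1 hf2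
  have hdec := bs_decomp hf1 hf2
  have e1 : ∑ t ∈ range (m+1), Mm r u v M t * f * (Mm r u' v' M (m-t))ᵀ =
      ∑ s ∈ range (2*M), ∑ t ∈ range (m+1),
        Mm r u v M t * Dg M s f * (Mm r u' v' M (m-t))ᵀ := by
    rw [Finset.sum_comm]
    refine Finset.sum_congr rfl fun t _ => ?_
    rw [← Finset.sum_mul, ← Finset.mul_sum, ← hdec]
  rw [e1]
  refine (bs_L1_sum_le _ _).trans ?_
  rw [Finset.mul_sum]
  refine Finset.sum_le_sum fun s _ => ?_
  rw [bs_split r u v u' v' hmM f]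
  refine (bs_L1_sum_le _ _).trans ?_
  have hNN := bs_NN_nonneg M s f
  calc ∑ w ∈ Finset.Icc (-(m:ℤ)) (s:ℤ), L1 M (∑ a ∈ range M,
        TM r u v M w a * bsP r u' v' M m s w f a)
      ≤ ∑ w ∈ Finset.Icc (-(m:ℤ)) (s:ℤ), (C * C * NN M s f) * ((2:ℝ)^(-(|(w:ℝ)|/2)) *
        (2:ℝ)^(-(|(((s:ℤ) - m - w : ℤ):ℝ)|/2))) := by
        refine Finset.sum_le_sum fun w _ => ?_
        have h1 := bs_step1 (r := r) (C := C) (u := u) (v := v) (w := w)
          (fun F hF => (hfam M u v hu hv w F hF).2) (bsP r u' v' M m s w f) (by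
            intro a
            unfold bsP
            split_ifs
            · rw [← Matrix.mul_assoc, ← Matrix.mul_assoc, ← Matrix.mul_assoc, bs_Dm_idem]
            · rw [Matrix.mul_zero])
        have h2 := bs_step2 (r := r) (C := C) (s := s) (u := u') (v := v') (w := w) hmM
          (fun F hF => (hfam M u' v' hu' hv' ((s:ℤ) - m - w) F hF).1) hC f
        refine h1.trans ?_
        refine (mul_le_mul_of_nonneg_left h2 (by positivity)).trans (le_of_eq ?_)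
        ring
    _ = (C * C * NN M s f) * ∑ w ∈ Finset.Icc (-(m:ℤ)) (s:ℤ), ((2:ℝ)^(-(|(w:ℝ)|/2)) *
        (2:ℝ)^(-(|(((s:ℤ) - m - w : ℤ):ℝ)|/2))) := by rw [Finset.mul_sum]
    _ ≤ (C * C * NN M s f) * (K * (2:ℝ)^(-(|(s:ℝ)-m|/4))) :=
        mul_le_mul_of_nonneg_left (bs_numeric m s) (by positivity)
    _ = C * C * K * ((2:ℝ)^(-(|(s:ℝ)-m|/4)) * NN M s f) := by ring

end BernT.ST16a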