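import Pool.Agent.Helper643.BernT

open Finset Matrix



open Finset Matrix
namespace BernT.ST17b
theorem aux_ex_add (M : ℕ) (i j : ℤ) : ex M (i + j) = ex M i * ex M j := by
  unfold ex
  rw [← Complex.exp_add]
  congr 1
  push_cast
  ring

theorem aux_ex_nat (M : ℕ) (j : ℤ) (z : ℕ) : ex M (j * z) = (ex M j)^z := by
  unfold ex
  rw [← Complex.exp_nat_mul]
  congr 1
  push_cast
  ring

theorem aux_ex_ne (M : ℕ) (j : ℤ) (h0 : j ≠ 0) (h1 : |j| < 2^M) : ex M j ≠ 1 := by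
  unfold ex
  intro h
  rw [Complex.exp_eq_one_iff] at h
  obtain ⟨n, hn⟩ := h
  have hpi : (2 * (Real.pi:ℂ) * Complex.I) ≠ 0 := by
    simp [Real.pi_ne_zero]
  have h2 : (2:ℂ)^M ≠ 0 := pow_ne_zero _ two_ne_zero
  have h3 : (j:ℂ) = (n:ℂ) * (2:ℂ)^M := by
    have : 2 * (Real.pi:ℂ) * Complex.I * (j:ℂ) = (2 * (Real.pi:ℂ) * Complex.I) * ((n:ℂ) * (2:ℂ)^M) := by
      rw [div_eq_iff h2] at hn
      rw [hn]; ring
    exact mul_left_cancel₀ hpi this
  have h4 : j = n * 2^M := by exact_mod_cast h3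
  have h5 : n ≠ 0 := by
    rintro rfl
    simp at h4
    exact h0 h4
  have h6 : (1:ℤ) ≤ |n| := Int.one_le_abs h5
  have h7 : |j| = |n| * 2^M := by
    rw [h4, abs_mul]
    congr 1
    exact abs_of_pos (by positivity)
  have h8 : (0:ℤ) < 2^M := by positivity
  nlinarith

theorem aux_ex_pow (M : ℕ) (j : ℤ) : (ex M j)^(2^M) = 1 := by
  rw [← aux_ex_nat]
  unfold ex
  rw [Complex.exp_eq_one_iff]
  refine ⟨j, ?_⟩
  have h2 : (2:ℂ)^M ≠ 0 := pow_ne_zero _ two_ne_zero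
  rw [div_eq_iff h2]
  push_cast
  ring

theorem aux_sum (M : ℕ) (j : ℤ) (h0 : j ≠ 0) (h1 : |j| < 2^M) :
    ∑ z : Fin (2^M), ex M (j * (z:ℤ)) = 0 := by
  have h : ∑ z : Fin (2^M), ex M (j * (z:ℤ)) = ∑ z ∈ range (2^M), (ex M j)^z := by
    rw [← Fin.sum_univ_eq_sum_range (fun z => (ex M j)^z) (2^M)]
    apply Finset.sum_congr rfl
    intro z _
    exact aux_ex_nat M j z
  rw [h, geom_sum_eq (aux_ex_ne M j h0 h1), aux_ex_pow]
  simp

theorem aux_act (M B : ℕ) (μ : ℤ → ℂ) (k : ℤ) (hB : |k| + B < 2^M)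
    (hμ : ∀ k, (B:ℤ) < |k| → μ k = 0) (x : Fin (2^M)) :
    ∑ z : Fin (2^M), Cm M (ker M B μ) x z * ex M (k * (z:ℤ)) = μ k * ex M (k * (x:ℤ)) := by
  have h2 : (2:ℂ)^M ≠ 0 := pow_ne_zero _ two_ne_zero
  have e1 : ∀ z : Fin (2^M), Cm M (ker M B μ) x z * ex M (k * (z:ℤ)) =
      ∑ k' ∈ Icc (-(B:ℤ)) (B:ℤ), (((2:ℂ)^M)⁻¹ * μ k' * ex M (k' * (x:ℤ))) * ex M ((k - k') * (z:ℤ)) := by
    intro z
    unfold Cm ker
    rw [mul_assoc, Finset.sum_mul, Finset.mul_sum]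
    apply Finset.sum_congr rfl
    intro k' _
    have : k' * ((x:ℤ) - (z:ℤ)) + k * (z:ℤ) = k' * (x:ℤ) + (k - k') * (z:ℤ) := by ring
    have e : ex M (k' * ((x:ℤ) - (z:ℤ))) * ex M (k * (z:ℤ)) = ex M (k' * (x:ℤ)) * ex M ((k - k') * (z:ℤ)) := by
      rw [← aux_ex_add, ← aux_ex_add, this]
    calc _ = ((2:ℂ)^M)⁻¹ * μ k' * (ex M (k' * ((x:ℤ) - (z:ℤ))) * ex M (k * (z:ℤ))) := by ring
      _ = _ := by rw [e]; ring
  simp_rw [e1]
  rw [Finset.sum_comm]
  have e2 : ∀ k' ∈ Icc (-(B:ℤ)) (B:ℤ), k' ≠ k →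
      ∑ z : Fin (2^M), (((2:ℂ)^M)⁻¹ * μ k' * ex M (k' * (x:ℤ))) * ex M ((k - k') * (z:ℤ)) = 0 := by
    intro k' hk' hne
    rw [← Finset.mul_sum, aux_sum M (k - k') (sub_ne_zero.mpr (Ne.symm hne)), mul_zero]
    rw [Finset.mem_Icc] at hk'
    have : |k'| ≤ (B:ℤ) := abs_le.mpr hk'
    have := abs_sub k k'
    linarith
  by_cases hk : k ∈ Icc (-(B:ℤ)) (B:ℤ)
  · rw [Finset.sum_eq_single k (fun b hb hn => e2 b hb hn) (fun h => absurd hk h)]
    rw [← Finset.mul_sum]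
    have : ∑ z : Fin (2^M), ex M ((k - k) * (z:ℤ)) = (2:ℂ)^M := by
      have : ∀ z : Fin (2^M), ex M ((k - k) * (z:ℤ)) = 1 := by
        intro z
        simp [ex]
      simp_rw [this]
      simp
    rw [this]
    field_simp
  · rw [Finset.sum_eq_zero]
    · rw [hμ k, zero_mul]
      rw [Finset.mem_Icc, ← abs_le] at hk
      linarith
    · intro k' hk'
      apply e2 k' hk'
      rintro rfl
      exact hk hk'

theorem aux_bt_zero (t : ℕ) (k : ℤ) (h : (2:ℝ)^(t+1) ≤ |(k:ℝ)|) : bt t k = 0 := by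
  unfold bt
  have h2 : (0:ℝ) < 2^t := by positivity
  have : 2 ≤ |(k:ℝ)| / 2^t := by
    rw [le_div_iff₀ h2]
    rw [pow_succ] at h
    linarith
  apply max_eq_left
  exact (min_le_right _ _).trans (by linarith)

theorem aux_bt_zero' (t : ℕ) (k : ℤ) (h : |(k:ℝ)| * 2 ≤ 2^t) : bt t k = 0 := by
  unfold bt
  have h2 : (0:ℝ) < 2^t := by positivity
  have : |(k:ℝ)| / 2^t ≤ 1/2 := by
    rw [div_le_iff₀ h2]
    linarith
  apply max_eq_left
  exact (min_le_left _ _).trans (by linarith)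

theorem aux_bt_sum (n : ℕ) (k : ℤ) (h0 : k ≠ 0) (h1 : |k| ≤ 2^n) :
    ∑ t ∈ range (n+2), bt t k = 1 := by
  obtain ⟨a, ha⟩ : ∃ a : ℕ, a = k.natAbs := ⟨_, rfl⟩
  have hak : |(k:ℝ)| = (a:ℝ) := by
    rw [ha, Nat.cast_natAbs]
    push_cast
    rfl
  have ha0 : a ≠ 0 := by
    rw [ha]
    exact Int.natAbs_ne_zero.mpr h0
  have ha1 : a ≤ 2^n := by
    have : (a:ℤ) ≤ 2^n := by
      rw [ha, Int.natCast_natAbs]
      exact h1
    exact_mod_cast this
  set s := Nat.log 2 a with hs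
  have hs1 : 2^s ≤ a := Nat.pow_log_le_self 2 ha0
  have hs2 : a < 2^(s+1) := Nat.lt_pow_succ_log_self (by norm_num) a
  have hsn : s ≤ n := by
    have : 2^s ≤ 2^n := hs1.trans ha1
    exact (Nat.pow_le_pow_iff_right (by norm_num)).mp this
  have r1 : (2:ℝ)^s ≤ (a:ℝ) := by exact_mod_cast hs1
  have r2 : (a:ℝ) < (2:ℝ)^(s+1) := by exact_mod_cast hs2
  have hp : (0:ℝ) < 2^s := by positivity
  rw [Finset.sum_eq_add s (s+1) (by omega)]
  · have e1 : bt s k = 2 - (a:ℝ) / 2^s := by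
      unfold bt
      rw [hak]
      have q1 : 1 ≤ (a:ℝ) / 2^s := by rw [le_div_iff₀ hp]; linarith
      have q2 : (a:ℝ) / 2^s < 2 := by rw [div_lt_iff₀ hp]; rw [pow_succ] at r2; linarith
      rw [min_eq_right (by linarith), max_eq_right (by linarith)]
    have e2 : bt (s+1) k = (a:ℝ) / 2^s - 1 := by
      unfold bt
      rw [hak]
      have q0 : (a:ℝ) / 2^(s+1) = (a:ℝ) / 2^s / 2 := by
        rw [pow_succ, div_div]
      have q1 : 1 ≤ (a:ℝ) / 2^s := by rw [le_div_iff₀ hp]; linarith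
      have q2 : (a:ℝ) / 2^s < 2 := by rw [div_lt_iff₀ hp]; rw [pow_succ] at r2; linarith
      rw [q0, min_eq_left (by linarith), max_eq_right (by linarith)]
      ring
    rw [e1, e2]
    ring
  · intro t _ ht
    rcases lt_trichotomy t s with h | h | h
    · apply aux_bt_zero
      rw [hak]
      have : (2:ℝ)^(t+1) ≤ 2^s := pow_le_pow_right₀ (by norm_num) (by omega)
      linarith
    · exact absurd h ht.1
    · apply aux_bt_zero'
      rw [hak]
      have : (2:ℝ)^(s+2) ≤ 2^t := pow_le_pow_right₀ (by norm_num) (by have := ht.2; omega)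
      have e : (2:ℝ)^(s+2) = 2^(s+1) * 2 := by ring
      nlinarith
  · intro h
    exact absurd (Finset.mem_range.mpr (by omega)) h
  · intro h
    exact absurd (Finset.mem_range.mpr (by omega)) h

theorem aux_double (n : ℕ) (f g : ℕ → ℂ) (h : ∀ s t, s < n → t < n → n ≤ s + t → f s * g t = 0) :
    ∑ m ∈ range n, ∑ t ∈ range (m+1), f t * g (m - t) = (∑ t ∈ range n, f t) * ∑ t ∈ range n, g t := by
  rw [Finset.sum_mul_sum]
  have e1 : ∑ m ∈ range n, ∑ t ∈ range (m+1), f t * g (m - t) =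
      ∑ s ∈ range n, ∑ t ∈ range n, if s + t < n then f s * g t else 0 := by
    have : ∀ m ∈ range n, ∑ t ∈ range (m+1), f t * g (m - t) =
        ∑ s ∈ range n, if s ≤ m then f s * g (m - s) else 0 := by
      intro m hm
      rw [Finset.mem_range] at hm
      rw [← Finset.sum_filter]
      apply Finset.sum_congr
      · ext a
        simp only [Finset.mem_range, Finset.mem_filter]
        omega
      · intros; rfl
    rw [Finset.sum_congr rfl this, Finset.sum_comm]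
    apply Finset.sum_congr rfl
    intro s hs
    rw [Finset.mem_range] at hs
    rw [← Finset.sum_filter, ← Finset.sum_filter]
    refine Finset.sum_nbij' (fun m => m - s) (fun t => s + t) ?_ ?_ ?_ ?_ ?_
    · intro a ha
      simp only [Finset.mem_range, Finset.mem_filter] at ha ⊢
      omega
    · intro a ha
      simp only [Finset.mem_range, Finset.mem_filter] at ha ⊢
      omega
    · intro a ha
      simp only [Finset.mem_range, Finset.mem_filter] at ha ⊢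
      omega
    · intro a ha
      simp only [Finset.mem_range, Finset.mem_filter] at ha ⊢
      omega
    · intro a ha
      rfl
  rw [e1]
  apply Finset.sum_congr rfl
  intro s hs
  apply Finset.sum_congr rfl
  intro t ht
  rw [Finset.mem_range] at hs ht
  split_ifs with hst
  · rfl
  · exact (h s t hs ht (by omega)).symm

theorem aux_scalar (n : ℕ) (r : ℝ) (u v u' v' : ℂ) (k l : ℤ) (hk : k ≠ 0) (hl : l ≠ 0)
    (hkl : |k| * |l| ≤ 2^n) :
    ∑ m ∈ range (n+2), (((2:ℝ)^(r*m) : ℝ) : ℂ) *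
      (∑ t ∈ range (m+1), ms r u v t k * ms r u' v' (m-t) l) =
    ((((|(k:ℝ)|)^r : ℝ) : ℂ) * (if 0 < k then u else v)) *
      ((((|(l:ℝ)|)^r : ℝ) : ℂ) * (if 0 < l then u' else v')) := by
  have hk1 : (1:ℤ) ≤ |k| := Int.one_le_abs hk
  have hl1 : (1:ℤ) ≤ |l| := Int.one_le_abs hl
  have hkn : |k| ≤ 2^n := by nlinarith
  have hln : |l| ≤ 2^n := by nlinarith
  have key : ∀ (u v : ℂ) (k : ℤ) (t : ℕ), (((2:ℝ)^(r*t) : ℝ) : ℂ) * ms r u v t k =
      ((((|(k:ℝ)|)^r : ℝ) : ℂ) * (if 0 < k then u else v)) * (bt t k : ℂ) := by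
    intro u v k t
    unfold ms
    have : (2:ℝ)^(r*t) * (|(k:ℝ)| / 2^t)^r = |(k:ℝ)|^r := by
      rw [Real.div_rpow (abs_nonneg _) (by positivity)]
      rw [← Real.rpow_natCast 2 t, ← Real.rpow_mul (by norm_num), mul_comm (t:ℝ) r]
      have : (0:ℝ) < 2^(r*t) := by positivity
      field_simp
    rw [← this]
    push_cast
    ring
  have step : ∀ m ∈ range (n+2), (((2:ℝ)^(r*m) : ℝ) : ℂ) *
      (∑ t ∈ range (m+1), ms r u v t k * ms r u' v' (m-t) l) =
      (((((|(k:ℝ)|)^r : ℝ) : ℂ) * (if 0 < k then u else v)) *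
      ((((|(l:ℝ)|)^r : ℝ) : ℂ) * (if 0 < l then u' else v'))) *
       ∑ t ∈ range (m+1), (bt t k : ℂ) * (bt (m-t) l : ℂ) := by
    intro m hm
    rw [Finset.mul_sum, Finset.mul_sum]
    apply Finset.sum_congr rfl
    intro t ht
    rw [Finset.mem_range] at ht
    have e : (2:ℝ)^(r*m) = (2:ℝ)^(r*t) * (2:ℝ)^(r*((m-t : ℕ):ℝ)) := by
      rw [← Real.rpow_add (by norm_num)]
      congr 1
      rw [Nat.cast_sub (by omega)]
      ring
    have k1 := key u v k t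
    have k2 := key u' v' l (m-t)
    rw [e]
    push_cast
    push_cast at k1 k2
    calc _ = ((((2:ℝ)^(r*t) : ℝ) : ℂ) * ms r u v t k) * ((((2:ℝ)^(r*((m-t : ℕ):ℝ)) : ℝ) : ℂ) * ms r u' v' (m-t) l) := by
          push_cast; ring
      _ = _ := by
          rw [key, key]
          push_cast
          ring
  rw [Finset.sum_congr rfl step, ← Finset.mul_sum]
  rw [aux_double (n+2) (fun t => (bt t k : ℂ)) (fun t => (bt t l : ℂ))]
  · have s1 := aux_bt_sum n k hk hkn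
    have s2 := aux_bt_sum n l hl hln
    have c1 : ∑ t ∈ range (n+2), (bt t k : ℂ) = 1 := by exact_mod_cast congrArg (fun x : ℝ => (x:ℂ)) s1
    have c2 : ∑ t ∈ range (n+2), (bt t l : ℂ) = 1 := by exact_mod_cast congrArg (fun x : ℝ => (x:ℂ)) s2
    simp only [c1, c2]
    ring
  · intro s t hs ht hst
    by_cases h1 : |(k:ℝ)| * 2 ≤ 2^s
    · simp [aux_bt_zero' s k h1]
    by_cases h2 : |(l:ℝ)| * 2 ≤ 2^t
    · simp [aux_bt_zero' t l h2]
    exfalso
    push Not at h1 h2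
    have hr : |(k:ℝ)| * |(l:ℝ)| ≤ 2^n := by
      have := hkl
      have h' : ((|k| * |l| : ℤ) : ℝ) ≤ ((2^n : ℤ) : ℝ) := by exact_mod_cast this
      push_cast at h'
      exact h'
    have hp : (2:ℝ)^(n+2) ≤ 2^(s+t) := pow_le_pow_right₀ (by norm_num) hst
    have hp1 : (0:ℝ) < 2^s := by positivity
    have hp2 : (0:ℝ) < 2^t := by positivity
    have hm : (2:ℝ)^s * 2^t < (|(k:ℝ)| * 2) * (|(l:ℝ)| * 2) := by
      apply mul_lt_mul'' h1 h2 hp1.le hp2.le
    rw [pow_add, pow_add] at hp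
    nlinarith

theorem aux_ms_act (M n : ℕ) (hM : n + 4 ≤ M) (r : ℝ) (u v : ℂ) (t : ℕ) (ht : t ≤ n+1) (k : ℤ)
    (hk : |k| ≤ 2^n) (x : Fin (2^M)) :
    ∑ z : Fin (2^M), Mm r u v M t x z * ex M (k * (z:ℤ)) = ms r u v t k * ex M (k * (x:ℤ)) := by
  unfold Mm
  apply aux_act
  · have h1 : (2:ℤ)^(t+1) ≤ 2^(n+2) := pow_le_pow_right₀ (by norm_num) (by omega)
    have h2 : (2:ℤ)^(n+4) ≤ 2^M := pow_le_pow_right₀ (by norm_num) hM
    have h3 : (2:ℤ)^(n+2) = 2^n * 4 := by ring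
    have h4 : (2:ℤ)^(n+4) = 2^n * 16 := by ring
    have h5 : (0:ℤ) < 2^n := by positivity
    push_cast
    linarith
  · intro k hk
    unfold ms
    rw [aux_bt_zero]
    · simp
    · have : ((2:ℤ)^(t+1)) ≤ |k| := by
        have := hk.le
        push_cast at this
        exact this
      have h' : (((2:ℤ)^(t+1) : ℤ) : ℝ) ≤ ((|k| : ℤ) : ℝ) := by exact_mod_cast this
      push_cast at h'
      exact h'

theorem derivTrig (M n : ℕ) (hM : n + 4 ≤ M) (r : ℝ) (hr : 0 < r) (u v u' v' : ℂ)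
    (S : Finset (ℤ × ℤ)) (c : ℤ × ℤ → ℂ)
    (hS : ∀ k ∈ S, k.1 ≠ 0 ∧ k.2 ≠ 0 ∧ |k.1| * |k.2| ≤ 2^n) :
    ∑ m ∈ range (n+2), (((2:ℝ)^(r*m) : ℝ) : ℂ) •
      (∑ t ∈ range (m+1), Mm r u v M t * tp M S c * (Mm r u' v' M (m-t))ᵀ) =
    tp M S (fun k => ((((|(k.1:ℝ)|)^r : ℝ) : ℂ) * (if 0 < k.1 then u else v)) *
      ((((|(k.2:ℝ)|)^r : ℝ) : ℂ) * (if 0 < k.2 then u' else v')) * c k) := by
  have hS1 : ∀ k ∈ S, |k.1| ≤ 2^n ∧ |k.2| ≤ 2^n := by
    intro k hk
    obtain ⟨h1, h2, h3⟩ := hS k hk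
    have g1 : (1:ℤ) ≤ |k.1| := Int.one_le_abs h1
    have g2 : (1:ℤ) ≤ |k.2| := Int.one_le_abs h2
    constructor <;> nlinarith
  have hprod : ∀ t s, t ≤ n+1 → s ≤ n+1 → ∀ x y,
      (Mm r u v M t * tp M S c * (Mm r u' v' M s)ᵀ) x y =
      ∑ k ∈ S, (ms r u v t k.1 * ms r u' v' s k.2) * (c k * ex M (k.1 * (x:ℤ)) * ex M (k.2 * (y:ℤ))) := by
    intro t s ht hs x y
    rw [Matrix.mul_apply]
    simp_rw [Matrix.mul_apply, Matrix.transpose_apply]
    have e1 : ∀ w : Fin (2^M), ∑ z, Mm r u v M t x z * tp M S c z w =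
        ∑ k ∈ S, ms r u v t k.1 * (c k * ex M (k.1 * (x:ℤ)) * ex M (k.2 * (w:ℤ))) := by
      intro w
      unfold tp
      simp_rw [Finset.mul_sum]
      rw [Finset.sum_comm]
      apply Finset.sum_congr rfl
      intro k hk
      have := aux_ms_act M n hM r u v t ht k.1 (hS1 k hk).1 x
      calc _ = (∑ z : Fin (2^M), Mm r u v M t x z * ex M (k.1 * (z:ℤ))) * (c k * ex M (k.2 * (w:ℤ))) := by
            rw [Finset.sum_mul]
            apply Finset.sum_congr rfl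
            intro z _
            ring
        _ = _ := by rw [this]; ring
    simp_rw [e1]
    simp_rw [Finset.sum_mul]
    rw [Finset.sum_comm]
    apply Finset.sum_congr rfl
    intro k hk
    have := aux_ms_act M n hM r u' v' s hs k.2 (hS1 k hk).2 y
    calc _ = (∑ z : Fin (2^M), Mm r u' v' M s y z * ex M (k.2 * (z:ℤ))) * (ms r u v t k.1 * (c k * ex M (k.1 * (x:ℤ)))) := by
          rw [Finset.sum_mul]
          apply Finset.sum_congr rfl
          intro z _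
          ring
      _ = _ := by rw [this]; ring
  ext x y
  rw [Matrix.sum_apply]
  have e2 : ∀ m ∈ range (n+2), ((((2:ℝ)^(r*m) : ℝ) : ℂ) •
      (∑ t ∈ range (m+1), Mm r u v M t * tp M S c * (Mm r u' v' M (m-t))ᵀ)) x y =
      ∑ k ∈ S, ((((2:ℝ)^(r*m) : ℝ) : ℂ) * ∑ t ∈ range (m+1), ms r u v t k.1 * ms r u' v' (m-t) k.2) *
        (c k * ex M (k.1 * (x:ℤ)) * ex M (k.2 * (y:ℤ))) := by
    intro m hm
    rw [Finset.mem_range] at hm
    rw [Matrix.smul_apply, Matrix.sum_apply]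
    have : ∀ t ∈ range (m+1), (Mm r u v M t * tp M S c * (Mm r u' v' M (m-t))ᵀ) x y =
      ∑ k ∈ S, (ms r u v t k.1 * ms r u' v' (m-t) k.2) * (c k * ex M (k.1 * (x:ℤ)) * ex M (k.2 * (y:ℤ))) := by
      intro t ht
      rw [Finset.mem_range] at ht
      exact hprod t (m-t) (by omega) (by omega) x y
    rw [Finset.sum_congr rfl this, Finset.sum_comm, smul_eq_mul, Finset.mul_sum]
    apply Finset.sum_congr rfl
    intro k _
    rw [← Finset.sum_mul]
    ring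
  rw [Finset.sum_congr rfl e2, Finset.sum_comm]
  unfold tp
  apply Finset.sum_congr rfl
  intro k hk
  rw [← Finset.sum_mul, aux_scalar n r u v u' v' k.1 k.2 (hS k hk).1 (hS k hk).2.1 (hS k hk).2.2]
  ring

end BernT.ST17b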