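import Mathlib

namespace BernT.ST18


open Finset

lemma riemann_1d (G : ℝ → ℝ) (L : ℝ) (hG : ∀ x x', |G x - G x'| ≤ L * |x - x'|) (hL : 0 ≤ L)
    (N : ℕ) (hN : 0 < N) (T : ℝ) (hT : 0 ≤ T) :
    |(∫ x in (0:ℝ)..T, G x) - (T / N) * ∑ i ∈ range N, G (T * i / N)| ≤ T * L * (T / N) := by
  have hNr : (0:ℝ) < N := by exact_mod_cast hN
  have hcont : Continuous G := by
    have : LipschitzWith (Real.toNNReal L) G := LipschitzWith.of_dist_le_mul fun x y => by
      rw [Real.coe_toNNReal _ hL, Real.dist_eq, Real.dist_eq]; exact hG x y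
    exact this.continuous
  obtain ⟨a, ha⟩ : ∃ a : ℕ → ℝ, a = fun (i : ℕ) => T * (i : ℝ) / N := ⟨_, rfl⟩
  have ha' : ∀ i, a i = T * i / N := fun i => by rw [ha]
  have h0 : a 0 = 0 := by rw [ha']; simp
  have hNa : a N = T := by rw [ha']; field_simp
  have hstep : ∀ i, a (i + 1) - a i = T / N := by
    intro i; rw [ha', ha']; push_cast; field_simp; ring
  have h1 : ∫ x in (0:ℝ)..T, G x = ∑ i ∈ range N, ∫ x in (a i)..(a (i + 1)), G x := by
    rw [intervalIntegral.sum_integral_adjacent_intervals (fun k _ => hcont.intervalIntegrable _ _),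
      h0, hNa]
  rw [h1, mul_sum, ← sum_sub_distrib]
  refine (abs_sum_le_sum_abs _ _).trans ?_
  have h2 : ∀ i ∈ range N, |(∫ x in (a i)..(a (i + 1)), G x) - T / N * G (T * i / N)| ≤
      L * (T / N) * (T / N) := by
    intro i _
    have e1 : T / N * G (T * i / N) = ∫ _x in (a i)..(a (i + 1)), G (a i) := by
      rw [intervalIntegral.integral_const, hstep, smul_eq_mul, ha']
    rw [e1, ← intervalIntegral.integral_sub (hcont.intervalIntegrable _ _)
      (continuous_const.intervalIntegrable _ _)]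
    have hTN : 0 ≤ T / N := by positivity
    have hle : a i ≤ a (i + 1) := by linarith [hstep i]
    have := intervalIntegral.norm_integral_le_of_norm_le_const (a := a i) (b := a (i + 1))
      (C := L * (T / N)) (f := fun x => G x - G (a i)) (fun x hx => by
        rw [Set.uIoc_of_le hle] at hx
        refine (hG x (a i)).trans (mul_le_mul_of_nonneg_left ?_ hL)
        rw [abs_of_nonneg (by linarith [hx.1]), ← hstep i]
        linarith [hx.2])
    rw [hstep i, abs_of_nonneg hTN] at this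
    exact this
  refine (sum_le_sum h2).trans ?_
  rw [sum_const, card_range, nsmul_eq_mul]
  apply le_of_eq
  field_simp

lemma riemann_2d (F : ℝ → ℝ → ℝ) (L : ℝ)
    (hF : ∀ x y x' y', |F x y - F x' y'| ≤ L * (|x - x'| + |y - y'|)) (hL : 0 ≤ L)
    (N : ℕ) (hN : 0 < N) (T : ℝ) (hT : 0 ≤ T) :
    |(∫ x in (0:ℝ)..T, ∫ y in (0:ℝ)..T, F x y) -
      (T / N) * ∑ i ∈ range N, (T / N) * ∑ j ∈ range N, F (T * i / N) (T * j / N)| ≤
      2 * T ^ 2 * L * (T / N) := by
  have hNr : (0:ℝ) < N := by exact_mod_cast hN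
  have hcy : ∀ x, Continuous (F x) := fun x => by
    have : LipschitzWith (Real.toNNReal L) (F x) := LipschitzWith.of_dist_le_mul fun y y' => by
      rw [Real.coe_toNNReal _ hL, Real.dist_eq, Real.dist_eq]
      simpa using hF x y x y'
    exact this.continuous
  have h1 : ∀ x x', |(∫ y in (0:ℝ)..T, F x y) - ∫ y in (0:ℝ)..T, F x' y| ≤
      (L * T) * |x - x'| := by
    intro x x'
    rw [← intervalIntegral.integral_sub ((hcy x).intervalIntegrable _ _)
      ((hcy x').intervalIntegrable _ _)]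
    have := intervalIntegral.norm_integral_le_of_norm_le_const (a := (0:ℝ)) (b := T)
      (C := L * |x - x'|) (f := fun y => F x y - F x' y) (fun y _ => by
        simpa using hF x y x' y)
    rw [sub_zero, abs_of_nonneg hT] at this
    refine this.trans (le_of_eq ?_)
    ring
  have h2 := riemann_1d (fun x => ∫ y in (0:ℝ)..T, F x y) (L * T) h1 (by positivity) N hN T hT
  have h3 : ∀ i ∈ range N, |(∫ y in (0:ℝ)..T, F (T * i / N) y) -
      (T / N) * ∑ j ∈ range N, F (T * i / N) (T * j / N)| ≤ T * L * (T / N) := fun i _ =>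
    riemann_1d (F (T * i / N)) L (fun y y' => by simpa using hF (T * i / N) y (T * i / N) y')
      hL N hN T hT
  have h4 : |(T / N) * ∑ i ∈ range N, (∫ y in (0:ℝ)..T, F (T * i / N) y) -
      (T / N) * ∑ i ∈ range N, (T / N) * ∑ j ∈ range N, F (T * i / N) (T * j / N)| ≤
      T * (T * L * (T / N)) := by
    rw [← mul_sub, ← sum_sub_distrib, abs_mul, abs_of_nonneg (by positivity : 0 ≤ T / (N:ℝ))]
    have h5 := (abs_sum_le_sum_abs (fun i : ℕ => (∫ y in (0:ℝ)..T, F (T * i / N) y) -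
      (T / N) * ∑ j ∈ range N, F (T * i / N) (T * j / N)) (range N)).trans (sum_le_sum h3)
    rw [sum_const, card_range, nsmul_eq_mul] at h5
    refine (mul_le_mul_of_nonneg_left h5 (by positivity)).trans (le_of_eq ?_)
    field_simp
  have h6 := abs_sub_le (∫ x in (0:ℝ)..T, ∫ y in (0:ℝ)..T, F x y)
    ((T / N) * ∑ i ∈ range N, (∫ y in (0:ℝ)..T, F (T * i / N) y))
    ((T / N) * ∑ i ∈ range N, (T / N) * ∑ j ∈ range N, F (T * i / N) (T * j / N))
  refine h6.trans ((add_le_add h2 h4).trans (le_of_eq ?_))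
  ring

lemma exp_lip (a b : ℝ) :
    ‖Complex.exp (Complex.I * a) - Complex.exp (Complex.I * b)‖ ≤ |a - b| := by
  have h1 : Complex.exp (Complex.I * a) - Complex.exp (Complex.I * b) =
      Complex.exp (Complex.I * b) * (Complex.exp (Complex.I * ((a - b : ℝ) : ℂ)) - 1) := by
    rw [mul_sub, mul_one, ← Complex.exp_add]
    congr 2
    push_cast; ring
  rw [h1, norm_mul]
  have h2 : ‖Complex.exp (Complex.I * b)‖ = 1 := by
    rw [mul_comm]; exact Complex.norm_exp_ofReal_mul_I b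
  rw [h2, one_mul]
  exact Real.norm_exp_I_mul_ofReal_sub_one_le

/-- Riemann sums of the `L¹` norm of a trigonometric polynomial. -/
theorem riemann (S : Finset (ℤ × ℤ)) (c : ℤ × ℤ → ℂ) :
    Filter.Tendsto (fun M : ℕ => (1/(4:ℝ)^M) * ∑ x : Fin (2^M), ∑ y : Fin (2^M),
        ‖∑ k ∈ S, c k * Complex.exp (Complex.I * (k.1 * (2 * Real.pi * (x:ℕ) / 2^M)
          + k.2 * (2 * Real.pi * (y:ℕ) / 2^M)))‖) Filter.atTop
      (nhds ((1/(2*Real.pi)^2) * ∫ x in (0:ℝ)..(2*Real.pi), ∫ y in (0:ℝ)..(2*Real.pi),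
        ‖∑ k ∈ S, c k * Complex.exp (Complex.I * (k.1 * x + k.2 * y))‖)) := by
  obtain ⟨F, hFd⟩ : ∃ F : ℝ → ℝ → ℝ, F = fun (x y : ℝ) =>
    ‖∑ k ∈ S, c k * Complex.exp (Complex.I * (k.1 * x + k.2 * y))‖ := ⟨_, rfl⟩
  obtain ⟨L, hLd⟩ : ∃ L : ℝ, L = ∑ k ∈ S, ‖c k‖ * (|(k.1 : ℝ)| + |(k.2 : ℝ)|) := ⟨_, rfl⟩
  have hL : 0 ≤ L := by rw [hLd]; positivity
  have hF : ∀ x y x' y', |F x y - F x' y'| ≤ L * (|x - x'| + |y - y'|) := by
    intro x y x' y'
    rw [hFd]
    refine (abs_norm_sub_norm_le _ _).trans ?_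
    rw [← sum_sub_distrib, hLd, sum_mul]
    refine (norm_sum_le _ _).trans (sum_le_sum fun k _ => ?_)
    rw [← mul_sub, norm_mul, mul_assoc]
    refine mul_le_mul_of_nonneg_left ?_ (norm_nonneg _)
    have h1 := exp_lip (k.1 * x + k.2 * y) (k.1 * x' + k.2 * y')
    push_cast at h1
    refine h1.trans ?_
    have h2 : (k.1 : ℝ) * x + k.2 * y - (k.1 * x' + k.2 * y') =
        k.1 * (x - x') + k.2 * (y - y') := by ring
    rw [h2]
    refine (abs_add_le _ _).trans ?_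
    rw [abs_mul, abs_mul]
    have a1 := abs_nonneg (k.1 : ℝ)
    have a2 := abs_nonneg (k.2 : ℝ)
    have a3 := abs_nonneg (x - x')
    have a4 := abs_nonneg (y - y')
    nlinarith [mul_nonneg a1 a4, mul_nonneg a2 a3]
  have hpi := Real.pi_pos
  have h2pi : (0:ℝ) < 2 * Real.pi := by positivity
  have hmain := fun M : ℕ => riemann_2d F L hF hL (2 ^ M) (by positivity) (2 * Real.pi) h2pi.le
  have hsum : ∀ M : ℕ, (1/(4:ℝ)^M) * ∑ x : Fin (2^M), ∑ y : Fin (2^M),
        ‖∑ k ∈ S, c k * Complex.exp (Complex.I * (k.1 * (2 * Real.pi * (x:ℕ) / 2^M)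
          + k.2 * (2 * Real.pi * (y:ℕ) / 2^M)))‖ =
      (1 / (2 * Real.pi) ^ 2) * ((2 * Real.pi / (2 ^ M : ℕ)) * ∑ i ∈ range (2 ^ M),
        (2 * Real.pi / (2 ^ M : ℕ)) * ∑ j ∈ range (2 ^ M),
          F (2 * Real.pi * i / (2 ^ M : ℕ)) (2 * Real.pi * j / (2 ^ M : ℕ))) := by
    intro M
    have e1 : ∀ i : ℕ, ∀ j : ℕ, ‖∑ k ∈ S, c k * Complex.exp (Complex.I *
        (k.1 * (2 * Real.pi * (i:ℕ) / 2^M) + k.2 * (2 * Real.pi * (j:ℕ) / 2^M)))‖ =
        F (2 * Real.pi * i / (2 ^ M : ℕ)) (2 * Real.pi * j / (2 ^ M : ℕ)) := by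
      intro i j
      rw [hFd]
      simp only
      push_cast
      rfl
    simp only [e1]
    rw [← mul_sum]
    rw [Fin.sum_univ_eq_sum_range (fun i => ∑ y : Fin (2^M),
      F (2 * Real.pi * i / (2 ^ M : ℕ)) (2 * Real.pi * (y:ℕ) / (2 ^ M : ℕ)))]
    have e2 : ∀ i : ℕ, ∑ y : Fin (2^M),
      F (2 * Real.pi * i / (2 ^ M : ℕ)) (2 * Real.pi * (y:ℕ) / (2 ^ M : ℕ)) =
      ∑ j ∈ range (2 ^ M), F (2 * Real.pi * i / (2 ^ M : ℕ)) (2 * Real.pi * j / (2 ^ M : ℕ)) :=
      fun i => Fin.sum_univ_eq_sum_range (fun j =>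
        F (2 * Real.pi * i / (2 ^ M : ℕ)) (2 * Real.pi * (j:ℕ) / (2 ^ M : ℕ))) (2 ^ M)
    simp only [e2]
    rw [← mul_assoc, ← mul_assoc]
    congr 1
    have e3 : (4:ℝ) ^ M = (2 ^ M) * (2 ^ M) := by rw [← mul_pow]; norm_num
    push_cast
    rw [e3]
    field_simp
  simp only [hsum]
  have hI : (∫ x in (0:ℝ)..(2*Real.pi), ∫ y in (0:ℝ)..(2*Real.pi),
      ‖∑ k ∈ S, c k * Complex.exp (Complex.I * (k.1 * x + k.2 * y))‖) =
      ∫ x in (0:ℝ)..(2*Real.pi), ∫ y in (0:ℝ)..(2*Real.pi), F x y := by rw [hFd]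
  rw [hI]
  refine Filter.Tendsto.const_mul _ ?_
  rw [tendsto_iff_norm_sub_tendsto_zero]
  have hlim : Filter.Tendsto (fun M : ℕ => 2 * (2 * Real.pi) ^ 2 * L *
      (2 * Real.pi / ((2 ^ M : ℕ) : ℝ))) Filter.atTop (nhds 0) := by
    have h1 : Filter.Tendsto (fun M : ℕ => ((2:ℝ) ^ M)) Filter.atTop Filter.atTop :=
      tendsto_pow_atTop_atTop_of_one_lt (by norm_num)
    have h2 := (h1.const_div_atTop (2 * Real.pi)).const_mul (2 * (2 * Real.pi) ^ 2 * L)
    rw [mul_zero] at h2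
    push_cast
    exact h2
  refine squeeze_zero (fun _ => norm_nonneg _) (fun M => ?_) hlim
  rw [Real.norm_eq_abs, abs_sub_comm]
  exact hmain M

end BernT.ST18
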