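import Pool.Agent.Helper643.BernT

open Finset Matrix



open Finset Matrix
namespace BernT.ST19
theorem tp_eq (M : ℕ) (S : Finset (ℤ × ℤ)) (c : ℤ × ℤ → ℂ) :
    L1 M (tp M S c) = ∑ x : Fin (2^M), ∑ y : Fin (2^M),
        ‖∑ k ∈ S, c k * Complex.exp (Complex.I * (k.1 * (2 * Real.pi * (x:ℕ) / 2^M)
          + k.2 * (2 * Real.pi * (y:ℕ) / 2^M)))‖ := by
  unfold L1 tp
  refine Finset.sum_congr rfl fun x _ => Finset.sum_congr rfl fun y _ => ?_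
  congr 1
  refine Finset.sum_congr rfl fun k _ => ?_
  unfold ex
  rw [mul_assoc, ← Complex.exp_add]
  congr 2
  push_cast
  ring

/-- passing from the grids to the torus -/
theorem toTorus (n L : ℕ) (C : ℝ) (S : Finset (ℤ × ℤ)) (c c' : ℤ × ℤ → ℂ)
    (riemann : ∀ (S : Finset (ℤ × ℤ)) (c : ℤ × ℤ → ℂ),
      Filter.Tendsto (fun M : ℕ => (1/(4:ℝ)^M) * ∑ x : Fin (2^M), ∑ y : Fin (2^M),
        ‖∑ k ∈ S, c k * Complex.exp (Complex.I * (k.1 * (2 * Real.pi * (x:ℕ) / 2^M)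
          + k.2 * (2 * Real.pi * (y:ℕ) / 2^M)))‖) Filter.atTop
      (nhds ((1/(2*Real.pi)^2) * ∫ x in (0:ℝ)..(2*Real.pi), ∫ y in (0:ℝ)..(2*Real.pi),
        ‖∑ k ∈ S, c k * Complex.exp (Complex.I * (k.1 * x + k.2 * y))‖)))
    (h : ∀ M, n + L ≤ M → L1 M (tp M S c') ≤ C * L1 M (tp M S c)) :
    (1/(2*Real.pi)^2) * ∫ x in (0:ℝ)..(2*Real.pi), ∫ y in (0:ℝ)..(2*Real.pi),
        ‖∑ k ∈ S, c' k * Complex.exp (Complex.I * (k.1 * x + k.2 * y))‖ ≤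
    C * ((1/(2*Real.pi)^2) * ∫ x in (0:ℝ)..(2*Real.pi), ∫ y in (0:ℝ)..(2*Real.pi),
        ‖∑ k ∈ S, c k * Complex.exp (Complex.I * (k.1 * x + k.2 * y))‖) := by
  have h1 := riemann S c'
  have h2 := (riemann S c).const_mul C
  refine le_of_tendsto_of_tendsto h1 h2 ?_
  filter_upwards [Filter.eventually_ge_atTop (n + L)] with M hM
  have h3 := h M hM
  rw [tp_eq, tp_eq] at h3
  have h4 : (0:ℝ) ≤ 1 / (4:ℝ)^M := by positivity
  calc _ ≤ (1 / (4:ℝ)^M) * (C * _) := mul_le_mul_of_nonneg_left h3 h4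
    _ = _ := by ring
end BernT.ST19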