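import Pool.Agent.Helper643.BernT

open Finset Matrix



open Finset Matrix
namespace BernT.ST2
theorem card_block (M k d : ℕ) :
    ((univ.filter (fun x : Fin (2^M) => (x:ℕ) / 2^k = d)).card : ℝ) ≤ 2^k := by
  have h : (univ.filter (fun x : Fin (2^M) => (x:ℕ) / 2^k = d)).card ≤
      (Finset.Ico (d*2^k) ((d+1)*2^k)).card := by
    apply Finset.card_le_card_of_injOn (fun x : Fin (2^M) => (x:ℕ))
    · intro x hx
      have hx' : (x:ℕ) / 2^k = d := by simpa using hx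
      have hpos : 0 < 2^k := by positivity
      rw [Finset.mem_coe, Finset.mem_Ico]
      constructor
      · rw [← hx']; exact Nat.div_mul_le_self _ _
      · rw [← hx']
        have := Nat.lt_succ_self ((x:ℕ) / 2^k)
        exact (Nat.div_lt_iff_lt_mul hpos).1 this
    · intro x _ y _ h; exact Fin.ext h
  have h2 : (Finset.Ico (d*2^k) ((d+1)*2^k)).card = 2^k := by
    rw [Nat.card_Ico, Nat.add_mul, one_mul, Nat.add_sub_cancel_left]
  rw [h2] at h
  exact_mod_cast h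

open Classical in
theorem card_near (M q c : ℕ) (hq : q < M) (hc : c < 2^q) :
    ((univ.filter (fun x : Fin (2^M) => near M q c x)).card : ℝ) ≤ 3 * 2^(M-q) := by
  have hsub : (univ.filter (fun x : Fin (2^M) => near M q c x)) ⊆
      (univ.filter (fun x : Fin (2^M) => (x:ℕ) / 2^(M-q) = c)) ∪
      (univ.filter (fun x : Fin (2^M) => (x:ℕ) / 2^(M-q) = (c + 2^q - 1) % 2^q)) ∪
      (univ.filter (fun x : Fin (2^M) => (x:ℕ) / 2^(M-q) = (c+1) % 2^q)) := by
    intro x hx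
    simp only [mem_filter, mem_univ, true_and, mem_union] at hx ⊢
    have hlt : (x:ℕ) / 2^(M-q) < 2^q := by
      rw [Nat.div_lt_iff_lt_mul (by positivity), ← pow_add]
      have : q + (M - q) = M := by omega
      rw [this]; exact x.2
    rcases hx with h | h | h
    · exact Or.inl (Or.inl h)
    · left; right
      set b := (x:ℕ) / 2^(M-q) with hb
      rcases Nat.lt_or_ge (b+1) (2^q) with h1 | h1
      · rw [Nat.mod_eq_of_lt h1] at h
        have : c + 2^q - 1 = b + 2^q := by omega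
        rw [this, Nat.add_mod_right, Nat.mod_eq_of_lt hlt]
      · have h2 : b + 1 = 2^q := by omega
        rw [h2, Nat.mod_self] at h
        have h3 : c + 2^q - 1 = b := by omega
        rw [h3, Nat.mod_eq_of_lt hlt]
    · right; exact h
  have h1 := Finset.card_le_card hsub
  have h2 := Finset.card_union_le
    ((univ.filter (fun x : Fin (2^M) => (x:ℕ) / 2^(M-q) = c)) ∪
      (univ.filter (fun x : Fin (2^M) => (x:ℕ) / 2^(M-q) = (c + 2^q - 1) % 2^q)))
      (univ.filter (fun x : Fin (2^M) => (x:ℕ) / 2^(M-q) = (c+1) % 2^q))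
  have h3 := Finset.card_union_le
    (univ.filter (fun x : Fin (2^M) => (x:ℕ) / 2^(M-q) = c))
      (univ.filter (fun x : Fin (2^M) => (x:ℕ) / 2^(M-q) = (c + 2^q - 1) % 2^q))
  have a1 := card_block M (M-q) c
  have a2 := card_block M (M-q) ((c + 2^q - 1) % 2^q)
  have a3 := card_block M (M-q) ((c+1) % 2^q)
  have h4 : ((univ.filter (fun x : Fin (2^M) => near M q c x)).card : ℝ) ≤
    ((univ.filter (fun x : Fin (2^M) => (x:ℕ) / 2^(M-q) = c)).card : ℝ) +
      ((univ.filter (fun x : Fin (2^M) => (x:ℕ) / 2^(M-q) = (c + 2^q - 1) % 2^q)).card : ℝ) +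
      ((univ.filter (fun x : Fin (2^M) => (x:ℕ) / 2^(M-q) = (c+1) % 2^q)).card : ℝ) := by
    exact_mod_cast h1.trans (h2.trans (Nat.add_le_add_right h3 _))
  linarith

theorem cs_sum {ι : Type*} (s : Finset ι) (g : ι → ℝ) (n E : ℝ) (hn : (s.card:ℝ) ≤ n)
    (hE : ∑ x ∈ s, g x ^ 2 ≤ E) : ∑ x ∈ s, g x ≤ Real.sqrt n * Real.sqrt E := by
  have h0 : (0:ℝ) ≤ s.card := by positivity
  have h1 : 0 ≤ ∑ x ∈ s, g x ^ 2 := Finset.sum_nonneg fun _ _ => sq_nonneg _
  have hn0 : 0 ≤ n := h0.trans hn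
  rw [← Real.sqrt_mul hn0]
  apply Real.le_sqrt_of_sq_le
  calc (∑ x ∈ s, g x)^2 ≤ s.card * ∑ x ∈ s, g x ^ 2 := sq_sum_le_card_mul_sum_sq
    _ ≤ n * E := mul_le_mul hn hE h1 hn0

theorem cs_prod {ι : Type*} (s : Finset ι) (f g : ι → ℝ) :
    ∑ x ∈ s, f x * g x ≤ Real.sqrt (∑ x ∈ s, f x ^ 2) * Real.sqrt (∑ x ∈ s, g x ^ 2) := by
  rw [← Real.sqrt_mul (Finset.sum_nonneg fun _ _ => sq_nonneg _)]
  apply Real.le_sqrt_of_sq_le
  exact Finset.sum_mul_sq_le_sq_mul_sq s f g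

theorem minkowski2 {ι : Type*} (s : Finset ι) (u v : ι → ℂ) :
    Real.sqrt (∑ a ∈ s, ‖u a + v a‖^2) ≤
      Real.sqrt (∑ a ∈ s, ‖u a‖^2) + Real.sqrt (∑ a ∈ s, ‖v a‖^2) := by
  have hu : 0 ≤ ∑ a ∈ s, ‖u a‖^2 := Finset.sum_nonneg fun _ _ => sq_nonneg _
  have hv : 0 ≤ ∑ a ∈ s, ‖v a‖^2 := Finset.sum_nonneg fun _ _ => sq_nonneg _
  rw [Real.sqrt_le_left (by positivity)]
  have h1 : ∑ a ∈ s, ‖u a + v a‖^2 ≤ ∑ a ∈ s, (‖u a‖^2 + 2 * (‖u a‖ * ‖v a‖) + ‖v a‖^2) := by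
    apply Finset.sum_le_sum
    intro a _
    have := norm_add_le (u a) (v a)
    have h0 := norm_nonneg (u a + v a)
    nlinarith
  have h2 := cs_prod s (fun a => ‖u a‖) (fun a => ‖v a‖)
  rw [Finset.sum_add_distrib, Finset.sum_add_distrib, ← Finset.mul_sum] at h1
  have e1 := Real.sq_sqrt hu
  have e2 := Real.sq_sqrt hv
  nlinarith

theorem geo_bound (q M : ℕ) :
    ∑ a ∈ range M, (if q ≤ a then (2:ℝ)^(-(((a:ℝ) - q)/4)) else 0)^2 ≤ 7/2 := by
  set r : ℝ := (2:ℝ)^(-(1/2) : ℝ) with hr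
  have hr0 : 0 < r := by positivity
  have hr2 : r^2 = 1/2 := by
    rw [hr, ← Real.rpow_natCast, ← Real.rpow_mul (by norm_num)]
    norm_num
  have hr57 : r ≤ 5/7 := by nlinarith
  have hterm : ∀ a, (if q ≤ a then (2:ℝ)^(-(((a:ℝ) - q)/4)) else 0)^2 =
      if q ≤ a then r^(a-q) else 0 := by
    intro a
    split_ifs with h
    · rw [hr, ← Real.rpow_natCast, ← Real.rpow_natCast, ← Real.rpow_mul (by norm_num),
        ← Real.rpow_mul (by norm_num)]
      congr 1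
      push_cast [h]
      ring
    · simp
  have h1 : ∀ n : ℕ, (1 - r) * ∑ k ∈ range n, r^k ≤ 1 := by
    intro n
    have := geom_sum_mul r n
    have hp : 0 ≤ r^n := by positivity
    nlinarith
  have h2 : ∑ a ∈ range M, (if q ≤ a then (2:ℝ)^(-(((a:ℝ) - q)/4)) else 0)^2 ≤
      ∑ k ∈ range M, r^k := by
    simp_rw [hterm]
    rw [← Finset.sum_filter]
    have hinj : ∀ a ∈ (range M).filter (fun a => q ≤ a), ∀ b ∈ (range M).filter (fun a => q ≤ a),
        a - q = b - q → a = b := by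
      intro a ha b hb h
      simp only [mem_filter] at ha hb
      omega
    have : ∑ a ∈ (range M).filter (fun a => q ≤ a), r^(a-q) =
        ∑ k ∈ ((range M).filter (fun a => q ≤ a)).image (fun a => a - q), r^k := by
      rw [Finset.sum_image hinj]
    rw [this]
    apply Finset.sum_le_sum_of_subset_of_nonneg
    · intro k hk
      simp only [mem_image, mem_filter, mem_range] at hk ⊢
      omega
    · intro k _ _
      positivity
  have h3 := h1 M
  have h4 : 0 ≤ ∑ k ∈ range M, r^k := Finset.sum_nonneg fun _ _ => by positivity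
  nlinarith

open Classical in
theorem local_key (M : ℕ) (T : ℕ → Matrix (Fin (2^M)) (Fin (2^M)) ℂ) (δ : ℝ) (hδ : 0 ≤ δ)
    (hfar : ∀ a < M, Far M a (T a) δ) (q : ℕ) (hq : q < M) (c : ℕ) (hc : c < 2^q)
    (F : ℕ → Fin (2^M) → ℂ) (hF : ∀ a, Haar M a (F a)) (h0 : ∀ a < q, F a = 0)
    (hs : ∀ a (x : Fin (2^M)), (x:ℕ) / 2^(M-q) ≠ c → F a x = 0)
    (g : Fin (2^M) → ℝ) (hg : ∀ x, g x ≤ ∑ a ∈ range M, ‖(T a *ᵥ F a) x‖)
    (hg2 : ∑ x, g x ^ 2 ≤ δ^2 * ∑ a ∈ range M, ∑ x, ‖F a x‖^2) :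
    ∑ x, g x ≤ (4 * δ) * Real.sqrt (2^(M-q)) * Real.sqrt (∑ a ∈ range M, ∑ x, ‖F a x‖^2) := by
  set S2 := ∑ a ∈ range M, ∑ x, ‖F a x‖^2 with hS2
  have hS20 : 0 ≤ S2 := Finset.sum_nonneg fun _ _ => Finset.sum_nonneg fun _ _ => sq_nonneg _
  rw [← Finset.sum_filter_add_sum_filter_not univ (fun x => near M q c x)]
  -- near part
  have hnear : ∑ x ∈ univ.filter (fun x => near M q c x), g x ≤
      Real.sqrt 3 * δ * Real.sqrt (2^(M-q)) * Real.sqrt S2 := by
    have h1 := cs_sum (univ.filter (fun x => near M q c x)) g (3 * 2^(M-q)) (δ^2 * S2)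
      (card_near M q c hq hc)
      ((Finset.sum_le_sum_of_subset_of_nonneg (Finset.filter_subset _ _)
        (fun _ _ _ => sq_nonneg _)).trans hg2)
    rw [Real.sqrt_mul (by norm_num), Real.sqrt_mul (by positivity), Real.sqrt_sq hδ] at h1
    calc _ ≤ _ := h1
      _ = _ := by ring
  -- far part
  have hfar' : ∑ x ∈ univ.filter (fun x => ¬ near M q c x), g x ≤
      Real.sqrt (7/2) * δ * Real.sqrt (2^(M-q)) * Real.sqrt S2 := by
    have h1 : ∑ x ∈ univ.filter (fun x => ¬ near M q c x), g x ≤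
        ∑ a ∈ range M, ∑ x ∈ univ.filter (fun x => ¬ near M q c x), ‖(T a *ᵥ F a) x‖ := by
      rw [Finset.sum_comm]
      exact Finset.sum_le_sum fun x _ => hg x
    have h2 : ∀ a ∈ range M, ∑ x ∈ univ.filter (fun x => ¬ near M q c x), ‖(T a *ᵥ F a) x‖ ≤
        (δ * Real.sqrt (2^(M-q))) * ((if q ≤ a then (2:ℝ)^(-(((a:ℝ) - q)/4)) else 0) *
          Real.sqrt (∑ x, ‖F a x‖^2)) := by
      intro a ha
      have haM : a < M := Finset.mem_range.1 ha
      by_cases hqa : q ≤ a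
      · rw [if_pos hqa]
        have h3 := hfar a haM q hqa c hc (F a) (hF a) (hs a)
        have h4 : ∑ x, ‖F a x‖ ≤ Real.sqrt (2^(M-q)) * Real.sqrt (∑ x, ‖F a x‖^2) := by
          have h5 : ∑ x, ‖F a x‖ = ∑ x ∈ univ.filter (fun x : Fin (2^M) => (x:ℕ) / 2^(M-q) = c),
              ‖F a x‖ := by
            rw [Finset.sum_filter]
            apply Finset.sum_congr rfl
            intro x _
            split_ifs with h
            · rfl
            · rw [hs a x h, norm_zero]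
          rw [h5]
          exact cs_sum _ _ _ _ (card_block M (M-q) c)
            (Finset.sum_le_sum_of_subset_of_nonneg (Finset.filter_subset _ _)
              (fun _ _ _ => sq_nonneg _))
        calc _ ≤ _ := h3
          _ ≤ δ * (2:ℝ)^(-(((a:ℝ) - q)/4)) *
              (Real.sqrt (2^(M-q)) * Real.sqrt (∑ x, ‖F a x‖^2)) := by
            apply mul_le_mul_of_nonneg_left h4
            positivity
          _ = _ := by ring
      · rw [if_neg hqa, h0 a (by omega)]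
        simp
    have h3 := h1.trans (Finset.sum_le_sum h2)
    rw [← Finset.mul_sum] at h3
    have h4 := cs_prod (range M) (fun a => (if q ≤ a then (2:ℝ)^(-(((a:ℝ) - q)/4)) else 0))
      (fun a => Real.sqrt (∑ x, ‖F a x‖^2))
    have h5 : ∑ a ∈ range M, Real.sqrt (∑ x, ‖F a x‖^2) ^ 2 = S2 := by
      rw [hS2]
      apply Finset.sum_congr rfl
      intro a _
      exact Real.sq_sqrt (Finset.sum_nonneg fun _ _ => sq_nonneg _)
    rw [h5] at h4
    have h6 := Real.sqrt_le_sqrt (geo_bound q M)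
    calc _ ≤ _ := h3
      _ ≤ (δ * Real.sqrt (2^(M-q))) * (Real.sqrt (7/2) * Real.sqrt S2) := by
        apply mul_le_mul_of_nonneg_left _ (by positivity)
        exact h4.trans (mul_le_mul_of_nonneg_right h6 (Real.sqrt_nonneg _))
      _ = _ := by ring
  have hc1 : Real.sqrt 3 ≤ 18/10 := by
    rw [Real.sqrt_le_left (by norm_num)]; norm_num
  have hc2 : Real.sqrt (7/2) ≤ 19/10 := by
    rw [Real.sqrt_le_left (by norm_num)]; norm_num
  have hpos : 0 ≤ δ * Real.sqrt (2^(M-q)) * Real.sqrt S2 := by positivity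
  calc _ ≤ Real.sqrt 3 * δ * Real.sqrt (2^(M-q)) * Real.sqrt S2 +
        Real.sqrt (7/2) * δ * Real.sqrt (2^(M-q)) * Real.sqrt S2 := add_le_add hnear hfar'
    _ = (Real.sqrt 3 + Real.sqrt (7/2)) * (δ * Real.sqrt (2^(M-q)) * Real.sqrt S2) := by ring
    _ ≤ 4 * (δ * Real.sqrt (2^(M-q)) * Real.sqrt S2) := by
      apply mul_le_mul_of_nonneg_right _ hpos
      linarith
    _ = _ := by ring

theorem sqrt_sum_sq_le {ι : Type*} (s : Finset ι) (u : ι → ℝ) (hu : ∀ a ∈ s, 0 ≤ u a) :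
    Real.sqrt (∑ a ∈ s, u a ^ 2) ≤ ∑ a ∈ s, u a := by
  rw [Real.sqrt_le_left (Finset.sum_nonneg hu)]
  exact Finset.sum_sq_le_sq_sum_of_nonneg hu

theorem famOp
    (glc : ∀ (M : ℕ) (Nrm : (ℕ → Fin (2^M) → ℂ) → ℝ), Nrm 0 ≤ 0 →
      (∀ F G, Nrm (F + G) ≤ Nrm F + Nrm G) → ∀ (δ : ℝ), 0 ≤ δ →
      (∀ q < M, ∀ c < 2^q, ∀ F : ℕ → Fin (2^M) → ℂ, (∀ a, Haar M a (F a)) →
        (∀ a < q, F a = 0) → (∀ a (x : Fin (2^M)), (x:ℕ) / 2^(M-q) ≠ c → F a x = 0) →
        Nrm F ≤ δ * Real.sqrt (2^(M-q)) * Real.sqrt (∑ a ∈ range M, ∑ x, ‖F a x‖^2)) →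
      ∀ F : ℕ → Fin (2^M) → ℂ, (∀ a, Haar M a (F a)) →
        Nrm F ≤ 4 * δ * ∑ x, Real.sqrt (∑ a ∈ range M, ‖F a x‖^2))
    (M : ℕ) (T : ℕ → Matrix (Fin (2^M)) (Fin (2^M)) ℂ) (δ : ℝ) (hδ : 0 ≤ δ)
    (hfar : ∀ a < M, Far M a (T a) δ) :
    ((∀ a < M, L2b M a (T a) δ) → ∀ F : ℕ → Fin (2^M) → ℂ, (∀ a, Haar M a (F a)) →
      ∑ x, Real.sqrt (∑ a ∈ range M, ‖(T a *ᵥ F a) x‖^2) ≤
        16 * δ * ∑ x, Real.sqrt (∑ a ∈ range M, ‖F a x‖^2)) ∧
    ((∀ F : ℕ → Fin (2^M) → ℂ, (∀ a, Haar M a (F a)) →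
        ∑ x, ‖∑ a ∈ range M, (T a *ᵥ F a) x‖^2 ≤ δ^2 * ∑ a ∈ range M, ∑ x, ‖F a x‖^2) →
      ∀ F : ℕ → Fin (2^M) → ℂ, (∀ a, Haar M a (F a)) →
      ∑ x, ‖∑ a ∈ range M, (T a *ᵥ F a) x‖ ≤
        16 * δ * ∑ x, Real.sqrt (∑ a ∈ range M, ‖F a x‖^2)) := by
  constructor
  · intro hL2 F hF
    have h := glc M (fun F => ∑ x, Real.sqrt (∑ a ∈ range M, ‖(T a *ᵥ F a) x‖^2)) (by simp)
      (by
        intro F G
        show ∑ x, Real.sqrt (∑ a ∈ range M, ‖(T a *ᵥ (F + G) a) x‖^2) ≤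
          ∑ x, Real.sqrt (∑ a ∈ range M, ‖(T a *ᵥ F a) x‖^2) +
          ∑ x, Real.sqrt (∑ a ∈ range M, ‖(T a *ᵥ G a) x‖^2)
        rw [← Finset.sum_add_distrib]
        apply Finset.sum_le_sum
        intro x _
        have := minkowski2 (range M) (fun a => (T a *ᵥ F a) x) (fun a => (T a *ᵥ G a) x)
        simpa [Matrix.mulVec_add] using this)
      (4 * δ) (by positivity)
      (by
        intro q hq c hc F hF h0 hs
        apply local_key M T δ hδ hfar q hq c hc F hF h0 hs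
        · intro x
          exact sqrt_sum_sq_le (range M) (fun a => ‖(T a *ᵥ F a) x‖) (fun _ _ => norm_nonneg _)
        · have h1 : ∀ x : Fin (2^M), Real.sqrt (∑ a ∈ range M, ‖(T a *ᵥ F a) x‖^2)^2 =
              ∑ a ∈ range M, ‖(T a *ᵥ F a) x‖^2 := fun x =>
            Real.sq_sqrt (Finset.sum_nonneg fun _ _ => sq_nonneg _)
          simp_rw [h1]
          rw [Finset.sum_comm, Finset.mul_sum]
          exact Finset.sum_le_sum fun a ha => hL2 a (Finset.mem_range.1 ha) (F a) (hF a))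
      F hF
    calc _ ≤ _ := h
      _ = _ := by ring
  · intro hL2 F hF
    have h := glc M (fun F => ∑ x, ‖∑ a ∈ range M, (T a *ᵥ F a) x‖) (by simp)
      (by
        intro F G
        show ∑ x, ‖∑ a ∈ range M, (T a *ᵥ (F + G) a) x‖ ≤
          ∑ x, ‖∑ a ∈ range M, (T a *ᵥ F a) x‖ + ∑ x, ‖∑ a ∈ range M, (T a *ᵥ G a) x‖
        rw [← Finset.sum_add_distrib]
        apply Finset.sum_le_sum
        intro x _
        have : ∑ a ∈ range M, (T a *ᵥ (F + G) a) x =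
            ∑ a ∈ range M, (T a *ᵥ F a) x + ∑ a ∈ range M, (T a *ᵥ G a) x := by
          rw [← Finset.sum_add_distrib]
          apply Finset.sum_congr rfl
          intro a _
          simp [Matrix.mulVec_add]
        rw [this]
        exact norm_add_le _ _)
      (4 * δ) (by positivity)
      (by
        intro q hq c hc F hF h0 hs
        apply local_key M T δ hδ hfar q hq c hc F hF h0 hs
        · intro x
          exact norm_sum_le _ _
        · exact hL2 F hF)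
      F hF
    calc _ ≤ _ := h
      _ = _ := by ring

end BernT.ST2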