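import Pool.Agent.Helper643.BernT

open Finset Matrix



open Finset Matrix
namespace BernT.ST3
noncomputable def GG (M p : ℕ) (t : ℕ) : ℝ := 2^p / (1 + 2^p * ((t:ℝ) / 2^M))^2

theorem GG_nonneg (M p t : ℕ) : 0 ≤ GG M p t := by
  unfold GG; positivity

theorem wt_nonneg (M p : ℕ) (j : ℤ) : 0 ≤ wt M p j := by
  unfold wt; positivity

theorem wt_le_of (M p : ℕ) (j : ℤ) (t : ℕ)
    (h : (t:ℝ) / 2^M ≤ |Real.sin (Real.pi * j / 2^M)|) : wt M p j ≤ GG M p t := by
  unfold wt GG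
  gcongr

theorem wt_le (M p : ℕ) (x z : Fin (2^M)) :
    wt M p ((x:ℤ) - (z:ℤ)) ≤ GG M p ((x:ℤ) - (z:ℤ)).natAbs +
      GG M p (2^M - ((x:ℤ) - (z:ℤ)).natAbs) := by
  have hx := x.2
  have hz := z.2
  generalize hj : ((x:ℤ) - (z:ℤ)) = j
  have hu : j.natAbs ≤ 2^M := by
    zify at hx hz ⊢
    push_cast at hx hz ⊢
    have hx0 : (0:ℤ) ≤ (x:ℤ) := by positivity
    have hz0 : (0:ℤ) ≤ (z:ℤ) := by positivity
    rw [abs_le]
    constructor <;> omega
  have hN : (0:ℝ) < 2^M := by positivity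
  have hsin : |Real.sin (Real.pi * j / 2^M)| = |Real.sin (Real.pi * (j.natAbs:ℝ) / 2^M)| := by
    rcases Int.natAbs_eq j with h | h
    · have h' : (j:ℝ) = (j.natAbs:ℝ) := by
        conv_lhs => rw [h]
        rw [Int.cast_natCast]
      rw [h']
    · have h' : (j:ℝ) = -(j.natAbs:ℝ) := by
        conv_lhs => rw [h]
        rw [Int.cast_neg, Int.cast_natCast]
      rw [h', mul_neg, neg_div, Real.sin_neg, abs_neg]
  by_cases hc : (j.natAbs:ℝ) ≤ 2^M / 2
  · refine (wt_le_of M p j j.natAbs ?_).trans (le_add_of_nonneg_right (GG_nonneg _ _ _))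
    rw [hsin]
    have h0 : 0 ≤ Real.pi * (j.natAbs:ℝ) / 2^M := by positivity
    have h1 : Real.pi * (j.natAbs:ℝ) / 2^M ≤ Real.pi / 2 := by
      rw [div_le_div_iff₀ hN two_pos]
      nlinarith [Real.pi_pos]
    have h2 := Real.mul_le_sin h0 h1
    refine le_trans ?_ (le_abs_self _)
    refine le_trans ?_ h2
    have : 2 / Real.pi * (Real.pi * (j.natAbs:ℝ) / 2^M) = 2 * ((j.natAbs:ℝ) / 2^M) := by
      field_simp
    rw [this]
    have : 0 ≤ (j.natAbs:ℝ) / 2^M := by positivity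
    linarith
  · refine (wt_le_of M p j (2^M - j.natAbs) ?_).trans (le_add_of_nonneg_left (GG_nonneg _ _ _))
    rw [hsin]
    have hcast : ((2^M - j.natAbs : ℕ):ℝ) = 2^M - (j.natAbs:ℝ) := by
      rw [Nat.cast_sub hu]; push_cast; rfl
    have huR : (j.natAbs:ℝ) ≤ 2^M := by exact_mod_cast hu
    rw [hcast]
    push Not at hc
    have h0 : 0 ≤ Real.pi * (2^M - (j.natAbs:ℝ)) / 2^M := by
      have := Real.pi_pos
      have h3 : 0 ≤ 2^M - (j.natAbs:ℝ) := by linarith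
      positivity
    have h1 : Real.pi * (2^M - (j.natAbs:ℝ)) / 2^M ≤ Real.pi / 2 := by
      rw [div_le_div_iff₀ hN two_pos]
      nlinarith [Real.pi_pos]
    have h2 := Real.mul_le_sin h0 h1
    have h3 : Real.sin (Real.pi * (2^M - (j.natAbs:ℝ)) / 2^M) =
        Real.sin (Real.pi * (j.natAbs:ℝ) / 2^M) := by
      rw [← Real.sin_pi_sub]
      congr 1
      field_simp
      ring
    rw [h3] at h2
    refine le_trans ?_ (le_abs_self _)
    refine le_trans ?_ h2
    have : 2 / Real.pi * (Real.pi * (2^M - (j.natAbs:ℝ)) / 2^M) =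
        2 * ((2^M - (j.natAbs:ℝ)) / 2^M) := by
      field_simp
    rw [this]
    have h4 : 0 ≤ 2^M - (j.natAbs:ℝ) := by linarith
    have : 0 ≤ (2^M - (j.natAbs:ℝ)) / 2^M := by positivity
    linarith

theorem sum_tail (s : ℝ) (hs : 0 < s) (R : ℕ) (hR : 1 ≤ R) (T : ℕ) :
    ∑ t ∈ Ico R T, 1 / (1 + s * (t:ℝ))^2 ≤ 1 / s * (1 / (1 + s * ((R:ℝ) - 1))) := by
  have hR' : (0:ℝ) ≤ (R:ℝ) - 1 := by
    have : (1:ℝ) ≤ R := by exact_mod_cast hR
    linarith
  by_cases hT : R ≤ T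
  · have : ∑ t ∈ Ico R T, 1 / (1 + s * (t:ℝ))^2 ≤
        1 / s * (1 / (1 + s * ((R:ℝ) - 1)) - 1 / (1 + s * ((T:ℝ) - 1))) := by
      induction T, hT using Nat.le_induction with
      | base => simp
      | succ T hT ih =>
        rw [Finset.sum_Ico_succ_top hT]
        refine (add_le_add_left ih _).trans ?_
        have hT' : (0:ℝ) ≤ (T:ℝ) - 1 := by
          have : (1:ℝ) ≤ T := by exact_mod_cast hR.trans hT
          linarith
        have key : 1 / (1 + s * (T:ℝ))^2 ≤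
            1 / s * (1 / (1 + s * ((T:ℝ) - 1)) - 1 / (1 + s * (T:ℝ))) := by
          have h1 : 0 < 1 + s * ((T:ℝ) - 1) := by positivity
          have h2 : 0 < 1 + s * (T:ℝ) := by positivity
          have : 1 / s * (1 / (1 + s * ((T:ℝ) - 1)) - 1 / (1 + s * (T:ℝ))) =
              1 / ((1 + s * ((T:ℝ) - 1)) * (1 + s * (T:ℝ))) := by
            field_simp
            ring
          rw [this]
          apply one_div_le_one_div_of_le (by positivity)
          rw [sq]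
          apply mul_le_mul_of_nonneg_right _ h2.le
          nlinarith
        push_cast
        have e : (T:ℝ) + 1 - 1 = T := by ring
        rw [e]
        nlinarith [key]
    refine this.trans ?_
    apply mul_le_mul_of_nonneg_left _ (by positivity)
    have hT' : (0:ℝ) ≤ (T:ℝ) - 1 := by
      have : (1:ℝ) ≤ T := by exact_mod_cast hR.trans hT
      linarith
    have : 0 ≤ 1 / (1 + s * ((T:ℝ) - 1)) := by positivity
    linarith
  · rw [Finset.Ico_eq_empty (by omega)]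
    simp only [Finset.sum_empty]
    positivity

theorem sum_abs_le (N : ℕ) (f : ℕ → ℝ) (hf : ∀ t, 0 ≤ f t) (z : Fin N) :
    ∑ x : Fin N, f ((x:ℤ) - (z:ℤ)).natAbs ≤ 2 * ∑ t ∈ range (N+1), f t := by
  rw [← Finset.sum_filter_add_sum_filter_not univ (fun x : Fin N => z ≤ x)]
  have h1 : ∑ x ∈ univ.filter (fun x : Fin N => z ≤ x), f ((x:ℤ) - (z:ℤ)).natAbs ≤
      ∑ t ∈ range (N+1), f t := by
    rw [← Finset.sum_image (s := univ.filter (fun x : Fin N => z ≤ x))
      (g := fun x : Fin N => ((x:ℤ) - (z:ℤ)).natAbs) (f := f)]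
    · apply Finset.sum_le_sum_of_subset_of_nonneg
      · intro t ht
        simp only [Finset.mem_image, Finset.mem_filter, Finset.mem_univ, true_and] at ht
        obtain ⟨x, hx, rfl⟩ := ht
        have := x.2
        have := z.2
        rw [Finset.mem_range]
        omega
      · intros; exact hf _
    · intro x hx y hy hxy
      simp only [Finset.coe_filter, Finset.mem_univ, true_and, Set.mem_setOf_eq] at hx hy
      have hx' : (z:ℕ) ≤ x := hx
      have hy' : (z:ℕ) ≤ y := hy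
      simp only at hxy
      apply Fin.ext
      omega
  have h2 : ∑ x ∈ univ.filter (fun x : Fin N => ¬ z ≤ x), f ((x:ℤ) - (z:ℤ)).natAbs ≤
      ∑ t ∈ range (N+1), f t := by
    rw [← Finset.sum_image (s := univ.filter (fun x : Fin N => ¬ z ≤ x))
      (g := fun x : Fin N => ((x:ℤ) - (z:ℤ)).natAbs) (f := f)]
    · apply Finset.sum_le_sum_of_subset_of_nonneg
      · intro t ht
        simp only [Finset.mem_image, Finset.mem_filter, Finset.mem_univ, true_and] at ht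
        obtain ⟨x, hx, rfl⟩ := ht
        have := x.2
        have := z.2
        rw [Finset.mem_range]
        omega
      · intros; exact hf _
    · intro x hx y hy hxy
      simp only [Finset.coe_filter, Finset.mem_univ, true_and, Set.mem_setOf_eq, not_le] at hx hy
      have hx' : (x:ℕ) < z := hx
      have hy' : (y:ℕ) < z := hy
      simp only at hxy
      apply Fin.ext
      omega
  linarith

theorem sum_wt_le (M p : ℕ) (R : ℕ) (z : Fin (2^M)) (P : Fin (2^M) → Prop) [DecidablePred P]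
    (hP : ∀ x, P x → R ≤ ((x:ℤ) - (z:ℤ)).natAbs ∧ R ≤ 2^M - ((x:ℤ) - (z:ℤ)).natAbs) :
    ∑ x ∈ univ.filter P, wt M p ((x:ℤ) - (z:ℤ)) ≤ 4 * ∑ t ∈ Ico R (2^M+1), GG M p t := by
  let f : ℕ → ℝ := fun t => if R ≤ t ∧ t < 2^M + 1 then GG M p t else 0
  have hf : ∀ t, 0 ≤ f t := by
    intro t
    simp only [f]
    split_ifs
    · exact GG_nonneg _ _ _
    · exact le_refl _
  have hsum : ∑ t ∈ range (2^M+1), f t = ∑ t ∈ Ico R (2^M+1), GG M p t := by
    simp only [f]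
    rw [← Finset.sum_filter]
    congr 1
    ext t
    simp only [Finset.mem_filter, Finset.mem_range, Finset.mem_Ico]
    omega
  have h1 := sum_abs_le (2^M) f hf z
  have h2 : ∑ x : Fin (2^M), f (2^M - ((x:ℤ) - (z:ℤ)).natAbs) ≤ 2 * ∑ t ∈ range (2^M+1), f t := by
    have := sum_abs_le (2^M) (fun t => f (2^M - t)) (fun t => hf _) z
    have h4 := Finset.sum_range_reflect (fun t => f t) (2^M + 1)
    simp only [Nat.add_sub_cancel] at h4
    rw [h4] at this
    exact this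
  have h3 : ∑ x ∈ univ.filter P, wt M p ((x:ℤ) - (z:ℤ)) ≤
      ∑ x : Fin (2^M), (f ((x:ℤ) - (z:ℤ)).natAbs + f (2^M - ((x:ℤ) - (z:ℤ)).natAbs)) := by
    refine le_trans ?_ (Finset.sum_le_sum_of_subset_of_nonneg (Finset.subset_univ (univ.filter P))
      (fun _ _ _ => add_nonneg (hf _) (hf _)))
    apply Finset.sum_le_sum
    intro x hx
    have hPx := hP x (Finset.mem_filter.1 hx).2
    have hx1 := x.2
    have hz1 := z.2
    have hb1 : ((x:ℤ) - (z:ℤ)).natAbs < 2^M + 1 := by omega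
    have hb2 : 2^M - ((x:ℤ) - (z:ℤ)).natAbs < 2^M + 1 := by omega
    simp only [f, if_pos (And.intro hPx.1 hb1), if_pos (And.intro hPx.2 hb2)]
    exact wt_le M p x z
  rw [Finset.sum_add_distrib] at h3
  rw [hsum] at h1 h2
  linarith


theorem GG_eq (M p t : ℕ) : GG M p t = 2^p * (1 / (1 + (2^p / 2^M : ℝ) * (t:ℝ))^2) := by
  unfold GG
  rw [mul_one_div]
  congr 2
  ring

theorem tail_zero (M p : ℕ) (hp : p ≤ M) : ∑ t ∈ Ico 0 (2^M+1), GG M p t ≤ 2 * 2^M := by
  have hs : (0:ℝ) < 2^p / 2^M := by positivity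
  rw [Finset.sum_eq_sum_Ico_succ_bot (by positivity)]
  have h0 : GG M p 0 ≤ 2^M := by
    unfold GG
    simp only [Nat.cast_zero, zero_div, mul_zero, add_zero, one_pow, div_one]
    exact pow_le_pow_right₀ (by norm_num) hp
  have h1 : ∑ t ∈ Ico (0+1) (2^M+1), GG M p t ≤ 2^M := by
    simp only [GG_eq]
    rw [← Finset.mul_sum]
    have := sum_tail (2^p / 2^M : ℝ) hs 1 le_rfl (2^M+1)
    refine (mul_le_mul_of_nonneg_left this (by positivity)).trans ?_
    rw [Nat.cast_one, sub_self, mul_zero, add_zero, div_one, mul_one]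
    apply le_of_eq
    field_simp
  linarith

theorem tail_R (M p q : ℕ) (hq : q < M) :
    ∑ t ∈ Ico (2^(M-q)) (2^M+1), GG M p t ≤ 2 * 2^M * (2:ℝ)^(((q:ℝ) - p)/4) := by
  have hs : (0:ℝ) < 2^p / 2^M := by positivity
  simp only [GG_eq]
  rw [← Finset.mul_sum]
  have := sum_tail (2^p / 2^M : ℝ) hs (2^(M-q)) Nat.one_le_two_pow (2^M+1)
  refine (mul_le_mul_of_nonneg_left this (by positivity)).trans ?_
  have hE : ((2:ℝ)^(((p:ℝ) - q)/4))^4 = 2^p / 2^q := by
    rw [← Real.rpow_natCast, ← Real.rpow_mul (by norm_num)]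
    have : ((p:ℝ) - q)/4 * ((4:ℕ):ℝ) = (p:ℝ) - q := by push_cast; ring
    rw [this, Real.rpow_sub (by norm_num), Real.rpow_natCast, Real.rpow_natCast]
  have hE2 : (2:ℝ)^(((q:ℝ) - p)/4) = ((2:ℝ)^(((p:ℝ) - q)/4))⁻¹ := by
    rw [← Real.rpow_neg (by norm_num)]
    congr 1
    ring
  rw [hE2]
  set E := (2:ℝ)^(((p:ℝ) - q)/4) with hEdef
  have hEpos : 0 < E := Real.rpow_pos_of_pos (by norm_num) _
  have hR2 : (2:ℝ) ≤ 2^(M-q) := by
    calc (2:ℝ) = 2^1 := by norm_num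
      _ ≤ 2^(M-q) := pow_le_pow_right₀ (by norm_num) (by omega)
  have hsR : (2^p / 2^M : ℝ) * 2^(M-q) = E^4 := by
    rw [hE]
    have : (2:ℝ)^M = 2^(M-q) * 2^q := by rw [← pow_add]; congr 1; omega
    rw [this]
    field_simp
  have h1 : 1 + E^4 / 2 ≤ 1 + (2^p / 2^M : ℝ) * (((2^(M-q) : ℕ):ℝ) - 1) := by
    rw [← hsR]
    push_cast
    nlinarith
  have h2 : 0 < 1 + E^4/2 := by positivity
  have h3 : 1 / (1 + (2^p / 2^M : ℝ) * (((2^(M-q) : ℕ):ℝ) - 1)) ≤ 2 * E⁻¹ := by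
    refine (one_div_le_one_div_of_le h2 h1).trans ?_
    rw [div_le_iff₀ h2]
    have h4 : E ≤ 2 + E^4 := by
      by_cases hE1 : E ≤ 1
      · nlinarith [pow_pos hEpos 4]
      · push Not at hE1
        have : E^1 ≤ E^4 := pow_le_pow_right₀ hE1.le (by norm_num)
        rw [pow_one] at this
        linarith
    have : 2 * E⁻¹ * (1 + E^4/2) = (2 + E^4) / E := by
      field_simp
    rw [this, le_div_iff₀ hEpos]
    linarith
  have h5 : (2:ℝ)^p * (1 / (2^p / 2^M) * (1 / (1 + (2^p / 2^M : ℝ) * (((2^(M-q) : ℕ):ℝ) - 1)))) =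
      2^M * (1 / (1 + (2^p / 2^M : ℝ) * (((2^(M-q) : ℕ):ℝ) - 1))) := by
    rw [← mul_assoc]
    congr 1
    field_simp
  rw [h5]
  refine (mul_le_mul_of_nonneg_left h3 (by positivity)).trans ?_
  apply le_of_eq
  ring

theorem wt_symm (M p : ℕ) (x z : ℤ) : wt M p (x - z) = wt M p (z - x) := by
  unfold wt
  have : Real.pi * ((x - z : ℤ):ℝ) / 2^M = -(Real.pi * ((z - x : ℤ):ℝ) / 2^M) := by
    push_cast
    ring
  rw [this, Real.sin_neg, abs_neg]

theorem sum_wt_all (M p : ℕ) (hp : p ≤ M) (z : Fin (2^M)) :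
    ∑ x : Fin (2^M), wt M p ((x:ℤ) - (z:ℤ)) ≤ 8 * 2^M := by
  have h := sum_wt_le M p 0 z (fun _ => True) (fun x _ => ⟨Nat.zero_le _, Nat.zero_le _⟩)
  rw [Finset.filter_true_of_mem (fun _ _ => trivial)] at h
  have := tail_zero M p hp
  linarith

theorem near_dist (M q c : ℕ) (hq : q < M) (hc : c < 2^q) (x z : Fin (2^M))
    (hz : (z:ℕ) / 2^(M-q) = c) (hx : ¬ near M q c x) :
    2^(M-q) ≤ ((x:ℤ) - (z:ℤ)).natAbs ∧ 2^(M-q) ≤ 2^M - ((x:ℤ) - (z:ℤ)).natAbs := by
  unfold near at hx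
  push Not at hx
  obtain ⟨h1, h2, h3⟩ := hx
  have hN : 2^M = 2^q * 2^(M-q) := by rw [← pow_add]; congr 1; omega
  have hRpos : 0 < 2^(M-q) := by positivity
  have hx1 := x.2
  have hz1 := z.2
  have hXlt : (x:ℕ) / 2^(M-q) < 2^q := by
    rw [Nat.div_lt_iff_lt_mul hRpos, ← hN]
    exact hx1
  have hxm := Nat.div_add_mod (x:ℕ) (2^(M-q))
  have hzm := Nat.div_add_mod (z:ℕ) (2^(M-q))
  have hxr := Nat.mod_lt (x:ℕ) hRpos
  have hzr := Nat.mod_lt (z:ℕ) hRpos
  rw [hz] at hzm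
  generalize (x:ℕ) / 2^(M-q) = X at *
  generalize (x:ℕ) % 2^(M-q) = r at *
  generalize (z:ℕ) % 2^(M-q) = r' at *
  generalize hRR : 2^(M-q) = R at *
  generalize hQQ : 2^q = Q at *
  have hX2 : X + 2 ≤ c ∨ c + 2 ≤ X := by
    rcases lt_trichotomy X c with h | h | h
    · left
      by_contra hcon
      have hc' : X + 1 = c := by omega
      apply h2
      rw [hc']
      exact Nat.mod_eq_of_lt hc
    · exact absurd h h1
    · right
      by_contra hcon
      have hc' : c + 1 = X := by omega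
      apply h3
      rw [hc']
      exact (Nat.mod_eq_of_lt hXlt).symm
  have hX3 : ¬ (X + 1 = Q ∧ c = 0) := by
    rintro ⟨ha, hb⟩
    apply h2
    rw [ha, hb]
    exact Nat.mod_self Q
  have hX4 : ¬ (c + 1 = Q ∧ X = 0) := by
    rintro ⟨ha, hb⟩
    apply h3
    rw [ha, hb]
    exact (Nat.mod_self Q).symm
  rcases hX2 with h | h
  · have h5 : c ≤ X + (Q - 2) := by omega
    have e1 : R * X + R * 2 ≤ R * c := by rw [← Nat.mul_add]; exact Nat.mul_le_mul_left R h
    have e2 : R * c + R * 2 ≤ R * X + R * Q := by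
      rw [← Nat.mul_add, ← Nat.mul_add]
      apply Nat.mul_le_mul_left
      omega
    have e3 : Q * R = R * Q := Nat.mul_comm _ _
    constructor <;> omega
  · have h5 : X ≤ c + (Q - 2) := by omega
    have e1 : R * c + R * 2 ≤ R * X := by rw [← Nat.mul_add]; exact Nat.mul_le_mul_left R h
    have e2 : R * X + R * 2 ≤ R * c + R * Q := by
      rw [← Nat.mul_add, ← Nat.mul_add]
      apply Nat.mul_le_mul_left
      omega
    have e3 : Q * R = R * Q := Nat.mul_comm _ _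
    constructor <;> omega

theorem half_pow (a p : ℕ) (h : p ≤ a) : ((1:ℝ)/2)^(a-p) = (2:ℝ)^(-((a:ℝ) - p)) := by
  rw [Real.rpow_neg (by norm_num), ← Nat.cast_sub h, Real.rpow_natCast, one_div, inv_pow]

theorem formA : ∃ C : ℝ, 0 < C ∧ ∀ (M a p : ℕ) (ε : ℝ), p ≤ a → a < M → 0 ≤ ε →
    ∀ T : Matrix (Fin (2^M)) (Fin (2^M)) ℂ,
    (∀ v, Haar M a v → ∀ x, ‖(T *ᵥ v) x‖ ≤ ε * (1/2)^(a-p) / 2^M *
      ∑ z : Fin (2^M), wt M p ((x:ℤ) - (z:ℤ)) * ‖v z‖) →
    L2b M a T (C * ε * (2:ℝ)^(-(((a:ℝ) - p)/2))) ∧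
    Far M a T (C * ε * (2:ℝ)^(-(((a:ℝ) - p)/2))) := by
  classical
  refine ⟨8, by norm_num, ?_⟩
  intro M a p ε hpa haM hε T hT
  have hpR : (p:ℝ) ≤ a := by exact_mod_cast hpa
  have hK : 0 ≤ ε * (1/2)^(a-p) / 2^M := by positivity
  constructor
  · intro v hv
    have h := hT v hv
    have step : ∀ x, ‖(T *ᵥ v) x‖^2 ≤ (ε * (1/2)^(a-p) / 2^M)^2 * (8 * 2^M) *
        ∑ z : Fin (2^M), wt M p ((x:ℤ) - (z:ℤ)) * ‖v z‖^2 := by
      intro x
      have h1 : ‖(T *ᵥ v) x‖^2 ≤ (ε * (1/2)^(a-p) / 2^M *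
          ∑ z : Fin (2^M), wt M p ((x:ℤ) - (z:ℤ)) * ‖v z‖)^2 :=
        pow_le_pow_left₀ (norm_nonneg _) (h x) 2
      have h2 : (∑ z : Fin (2^M), wt M p ((x:ℤ) - (z:ℤ)) * ‖v z‖)^2 ≤
          (∑ z : Fin (2^M), wt M p ((x:ℤ) - (z:ℤ))) *
          ∑ z : Fin (2^M), wt M p ((x:ℤ) - (z:ℤ)) * ‖v z‖^2 := by
        apply Finset.sum_sq_le_sum_mul_sum_of_sq_eq_mul
        · intro z _; exact wt_nonneg _ _ _
        · intro z _; exact mul_nonneg (wt_nonneg _ _ _) (by positivity)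
        · intro z _; ring
      have h3 : ∑ z : Fin (2^M), wt M p ((x:ℤ) - (z:ℤ)) ≤ 8 * 2^M := by
        have := sum_wt_all M p (by omega) x
        simp only [wt_symm M p (x:ℤ)]
        exact this
      have h4 : 0 ≤ ∑ z : Fin (2^M), wt M p ((x:ℤ) - (z:ℤ)) * ‖v z‖^2 :=
        Finset.sum_nonneg fun z _ => mul_nonneg (wt_nonneg _ _ _) (by positivity)
      calc ‖(T *ᵥ v) x‖^2 ≤ _ := h1
        _ = (ε * (1/2)^(a-p) / 2^M)^2 *
          (∑ z : Fin (2^M), wt M p ((x:ℤ) - (z:ℤ)) * ‖v z‖)^2 := by rw [mul_pow]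
        _ ≤ (ε * (1/2)^(a-p) / 2^M)^2 * ((8 * 2^M) *
          ∑ z : Fin (2^M), wt M p ((x:ℤ) - (z:ℤ)) * ‖v z‖^2) := by
            apply mul_le_mul_of_nonneg_left _ (by positivity)
            exact h2.trans (mul_le_mul_of_nonneg_right h3 h4)
        _ = _ := by ring
    refine (Finset.sum_le_sum fun x _ => step x).trans ?_
    rw [← Finset.mul_sum, Finset.sum_comm]
    have h5 : ∑ z : Fin (2^M), ∑ x : Fin (2^M), wt M p ((x:ℤ) - (z:ℤ)) * ‖v z‖^2 ≤
        (8 * 2^M) * ∑ z, ‖v z‖^2 := by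
      rw [Finset.mul_sum]
      apply Finset.sum_le_sum
      intro z _
      rw [← Finset.sum_mul]
      exact mul_le_mul_of_nonneg_right (sum_wt_all M p (by omega) z) (by positivity)
    refine (mul_le_mul_of_nonneg_left h5 (by positivity)).trans ?_
    rw [← mul_assoc]
    apply mul_le_mul_of_nonneg_right _ (by positivity)
    have h6 : (ε * (1/2)^(a-p) / 2^M)^2 * (8 * 2^M) * (8 * 2^M) = (8 * ε * (1/2)^(a-p))^2 := by
      field_simp
    rw [h6]
    apply pow_le_pow_left₀ (by positivity)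
    apply mul_le_mul_of_nonneg_left _ (by positivity)
    rw [half_pow a p hpa]
    apply Real.rpow_le_rpow_of_exponent_le (by norm_num)
    linarith
  · intro q hq c hc v hv hsupp
    have h := hT v hv
    refine (Finset.sum_le_sum fun x _ => h x).trans ?_
    rw [← Finset.mul_sum, Finset.sum_comm]
    have h5 : ∑ z : Fin (2^M), ∑ x ∈ univ.filter (fun x => ¬ near M q c x),
        wt M p ((x:ℤ) - (z:ℤ)) * ‖v z‖ ≤
        (4 * (2 * 2^M * (2:ℝ)^(((q:ℝ) - p)/4))) * ∑ z, ‖v z‖ := by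
      rw [Finset.mul_sum]
      apply Finset.sum_le_sum
      intro z _
      rw [← Finset.sum_mul]
      by_cases hz : (z:ℕ) / 2^(M-q) = c
      · apply mul_le_mul_of_nonneg_right _ (norm_nonneg _)
        have := sum_wt_le M p (2^(M-q)) z (fun x => ¬ near M q c x)
          (fun x hx => near_dist M q c (by omega) hc x z hz hx)
        have h7 := tail_R M p q (by omega)
        linarith
      · rw [hsupp z hz, norm_zero, mul_zero, mul_zero]
    refine (mul_le_mul_of_nonneg_left h5 hK).trans ?_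
    rw [← mul_assoc]
    apply mul_le_mul_of_nonneg_right _ (Finset.sum_nonneg fun _ _ => norm_nonneg _)
    have h6 : ε * (1/2)^(a-p) / 2^M * (4 * (2 * 2^M * (2:ℝ)^(((q:ℝ) - p)/4))) =
        8 * ε * ((1/2)^(a-p) * (2:ℝ)^(((q:ℝ) - p)/4)) := by
      field_simp
      ring
    rw [h6, mul_assoc (8 * ε)]
    apply mul_le_mul_of_nonneg_left _ (by positivity)
    rw [half_pow a p hpa, ← Real.rpow_add (by norm_num), ← Real.rpow_add (by norm_num)]
    apply Real.rpow_le_rpow_of_exponent_le (by norm_num)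
    linarith

end BernT.ST3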