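import Pool.Agent.Helper643.BernT

open Finset Matrix



open Finset Matrix
namespace BernT.ST4
theorem formB_inj_sum {ι : Type*} (s : Finset ι) (f : ι → ℕ) (hf : Set.InjOn f s) (G : ℕ → ℝ)
    (hG : ∀ k, 0 ≤ G k) (B : ℝ) (hB : ∀ n, ∑ k ∈ range n, G k ≤ B) :
    ∑ i ∈ s, G (f i) ≤ B := by
  rw [← Finset.sum_image (f := G) hf]
  obtain ⟨n, hn⟩ := Finset.exists_nat_subset_range (s.image f)
  exact (Finset.sum_le_sum_of_subset_of_nonneg hn (fun k _ _ => hG k)).trans (hB n)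

theorem formB_tel (A : ℝ) (hA : 1 ≤ A) (n : ℕ) : ∑ k ∈ range n, 1 / (A + k)^2 ≤ 2 / A := by
  have h : ∑ k ∈ range n, 1 / (A + k)^2 ≤ 2 / A - 2 / (A + n) := by
    induction n with
    | zero => simp
    | succ n ih =>
      rw [Finset.sum_range_succ]
      have hn : (0:ℝ) ≤ n := Nat.cast_nonneg n
      have h1 : 1 / (A + n)^2 ≤ 2 / (A + n) - 2 / (A + (n + 1)) := by
        have h2 : 0 < A + n := by linarith
        have h3 : 0 < A + (n + 1) := by linarith
        have h4 : 2 / (A + n) - 2 / (A + (n + 1)) = 2 / ((A + n) * (A + (n + 1))) := by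
          field_simp
          ring
        rw [h4, div_le_div_iff₀ (by positivity) (by positivity)]
        nlinarith
      push_cast
      linarith
  have hn : (0:ℝ) ≤ n := Nat.cast_nonneg n
  have h2 : 0 ≤ 2 / (A + n) := div_nonneg (by norm_num) (by linarith)
  linarith

/-- cyclic difference -/
def formB_rr (N x z : ℕ) : ℕ := (x + N - z) % N

theorem formB_rr_eq (N x z : ℕ) (hx : x < N) (hz : z < N) :
    formB_rr N x z = if z ≤ x then x - z else x + N - z := by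
  unfold formB_rr
  split_ifs with h
  · rw [show x + N - z = (x - z) + N by omega, Nat.add_mod_right, Nat.mod_eq_of_lt (by omega)]
  · rw [Nat.mod_eq_of_lt (by omega)]

theorem formB_rr_inj1 (N z x x' : ℕ) (hz : z < N) (hx : x < N) (hx' : x' < N)
    (h : formB_rr N x z = formB_rr N x' z) : x = x' := by
  rw [formB_rr_eq N x z hx hz, formB_rr_eq N x' z hx' hz] at h
  split_ifs at h <;> omega

theorem formB_rr_inj2 (N z x x' : ℕ) (hz : z < N) (hx : x < N) (hx' : x' < N)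
    (h : formB_rr N z x = formB_rr N z x') : x = x' := by
  rw [formB_rr_eq N z x hz hx, formB_rr_eq N z x' hz hx'] at h
  split_ifs at h <;> omega

theorem formB_rr_mod1 (N x z h : ℕ) (hz : z < N) (hN : h ∣ N) (hhz : h ∣ z) :
    formB_rr N x z % h = x % h := by
  unfold formB_rr
  rw [Nat.mod_mod_of_dvd _ hN]
  obtain ⟨m, hm⟩ := Nat.dvd_sub hN hhz
  rw [show x + N - z = x + (N - z) by omega, hm, Nat.add_mul_mod_self_left]

theorem formB_rr_mod2 (N x z h : ℕ) (hx : x < N) (hN : h ∣ N) (hhz : h ∣ z) :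
    formB_rr N z x % h = (N - x) % h := by
  unfold formB_rr
  rw [Nat.mod_mod_of_dvd _ hN]
  obtain ⟨m, hm⟩ := hhz
  rw [show z + N - x = (N - x) + z by omega, hm, Nat.add_mul_mod_self_left]

theorem formB_sin_low (N d : ℕ) (hN : 0 < N) (hd : d ≤ N) :
    min (d:ℝ) ((N:ℝ) - d) / N ≤ |Real.sin (Real.pi * d / N)| := by
  have hN' : (0:ℝ) < N := by exact_mod_cast hN
  have hd' : (d:ℝ) ≤ N := by exact_mod_cast hd
  have hd0 : (0:ℝ) ≤ d := Nat.cast_nonneg d
  have hpi := Real.pi_pos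
  rcases le_total (d:ℝ) ((N:ℝ) - d) with h | h
  · rw [min_eq_left h]
    have h1 := Real.mul_le_sin (x := Real.pi * d / N) (by positivity)
      (by rw [div_le_div_iff₀ hN' two_pos]; nlinarith)
    have h2 : 2 / Real.pi * (Real.pi * d / N) = 2 * (d / N) := by field_simp
    rw [h2] at h1
    have h3 : 0 ≤ (d:ℝ) / N := by positivity
    exact le_trans (by linarith) (h1.trans (le_abs_self _))
  · rw [min_eq_right h]
    have e : Real.sin (Real.pi * d / N) = Real.sin (Real.pi * ((N:ℝ) - d) / N) := by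
      rw [← Real.sin_pi_sub]
      congr 1
      field_simp
    rw [e]
    have h0 : 0 ≤ (N:ℝ) - d := by linarith
    have h1 := Real.mul_le_sin (x := Real.pi * ((N:ℝ) - d) / N) (by positivity)
      (by rw [div_le_div_iff₀ hN' two_pos]; nlinarith)
    have h2 : 2 / Real.pi * (Real.pi * ((N:ℝ) - d) / N) = 2 * (((N:ℝ) - d) / N) := by field_simp
    rw [h2] at h1
    have h3 : 0 ≤ ((N:ℝ) - d) / N := by positivity
    exact le_trans (by linarith) (h1.trans (le_abs_self _))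

theorem formB_key (N x z : ℕ) (hx : x < N) (hz : z < N) (hzx : z ≤ x) :
    ∃ t : ℕ, (t = formB_rr N x z ∨ t = formB_rr N z x) ∧
      (t:ℝ) / N ≤ |Real.sin (Real.pi * ((x:ℝ) - z) / N)| := by
  have hN : 0 < N := by omega
  have h1 := formB_sin_low N (x - z) hN (by omega)
  rw [Nat.cast_sub hzx] at h1
  have e1 : formB_rr N x z = x - z := by rw [formB_rr_eq N x z hx hz, if_pos hzx]
  rcases Nat.eq_or_lt_of_le hzx with he | hlt
  · refine ⟨0, Or.inl (by rw [e1]; omega), ?_⟩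
    simp
  · have e2 : formB_rr N z x = z + N - x := by
      rw [formB_rr_eq N z x hz hx, if_neg (by omega)]
    rcases le_total ((x:ℝ) - z) ((N:ℝ) - (x - z)) with h | h
    · rw [min_eq_left h] at h1
      refine ⟨x - z, Or.inl e1.symm, ?_⟩
      rw [Nat.cast_sub hzx]
      exact h1
    · rw [min_eq_right h] at h1
      refine ⟨z + N - x, Or.inr e2.symm, ?_⟩
      rw [Nat.cast_sub (by omega), Nat.cast_add]
      have : (z:ℝ) + N - x = (N:ℝ) - (x - z) := by ring
      rw [this]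
      exact h1

theorem formB_key2 (N x z : ℕ) (hx : x < N) (hz : z < N) :
    ∃ t : ℕ, (t = formB_rr N x z ∨ t = formB_rr N z x) ∧
      (t:ℝ) / N ≤ |Real.sin (Real.pi * ((x:ℝ) - z) / N)| := by
  rcases le_total z x with h | h
  · exact formB_key N x z hx hz h
  · obtain ⟨t, ht, h1⟩ := formB_key N z x hz hx h
    refine ⟨t, ht.symm, ?_⟩
    have e : Real.pi * ((x:ℝ) - z) / N = -(Real.pi * ((z:ℝ) - x) / N) := by ring
    rw [e, Real.sin_neg, abs_neg]
    exact h1

theorem formB_ker (N x z : ℕ) (hx : x < N) (hz : z < N) (P : ℝ) (hP : 0 ≤ P) :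
    1 / (1 + P * |Real.sin (Real.pi * ((x:ℝ) - z) / N)|)^2 ≤
      1 / (1 + P * (formB_rr N x z : ℝ) / N)^2 + 1 / (1 + P * (formB_rr N z x : ℝ) / N)^2 := by
  obtain ⟨t, ht, h1⟩ := formB_key2 N x z hx hz
  have h2 : 1 / (1 + P * |Real.sin (Real.pi * ((x:ℝ) - z) / N)|)^2 ≤
      1 / (1 + P * (t:ℝ) / N)^2 := by
    have h3 : P * (t:ℝ) / N ≤ P * |Real.sin (Real.pi * ((x:ℝ) - z) / N)| := by
      rw [mul_div_assoc]
      exact mul_le_mul_of_nonneg_left h1 hP
    have h4 : 0 ≤ P * (t:ℝ) / N := by positivity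
    apply one_div_le_one_div_of_le (by positivity)
    gcongr
  have h5 : 0 ≤ 1 / (1 + P * (formB_rr N x z : ℝ) / N)^2 := by positivity
  have h6 : 0 ≤ 1 / (1 + P * (formB_rr N z x : ℝ) / N)^2 := by positivity
  rcases ht with rfl | rfl
  · linarith
  · linarith

theorem formB_const (M a : ℕ) (haM : a < M) (v : Fin (2^M) → ℂ) (hv : Haar M a v)
    (x x' : Fin (2^M)) (h : (x:ℕ) / 2^(M-(a+1)) = (x':ℕ) / 2^(M-(a+1))) : v x = v x' := by
  have h2 : (x:ℕ) / 2^(M-a) = (x':ℕ) / 2^(M-a) := by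
    rw [show M - a = (M-(a+1))+1 by omega, pow_succ, ← Nat.div_div_eq_div_mul,
      ← Nat.div_div_eq_div_mul, h]
  have h3 : ∀ z, Dm M a x z = Dm M a x' z := by
    intro z
    simp only [Dm, Matrix.sub_apply, Em, h, h2]
  have h4 : (Dm M a *ᵥ v) x = (Dm M a *ᵥ v) x' := by
    simp only [Matrix.mulVec, dotProduct, h3]
  unfold Haar at hv
  rw [hv] at h4
  exact h4

/-- cyclic predecessor -/
def formB_pr (M : ℕ) (x : Fin (2^M)) : Fin (2^M) :=
  ⟨((x:ℕ) + 2^M - 1) % 2^M, Nat.mod_lt _ (by positivity)⟩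

theorem formB_pr_val (M : ℕ) (x : Fin (2^M)) :
    ((formB_pr M x : Fin (2^M)) : ℕ) = if (x:ℕ) = 0 then 2^M - 1 else (x:ℕ) - 1 := by
  have hx := x.2
  show ((x:ℕ) + 2^M - 1) % 2^M = _
  split_ifs with h
  · rw [h, zero_add, Nat.mod_eq_of_lt (by omega)]
  · rw [show (x:ℕ) + 2^M - 1 = ((x:ℕ) - 1) + 2^M by omega, Nat.add_mod_right,
      Nat.mod_eq_of_lt (by omega)]

theorem formB_pr_bij (M : ℕ) : Function.Bijective (formB_pr M) := by
  rw [← Finite.injective_iff_bijective]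
  intro x x' h
  have h1 := congrArg (fun y : Fin (2^M) => (y:ℕ)) h
  simp only [formB_pr_val] at h1
  have hx := x.2
  have hx' := x'.2
  ext
  split_ifs at h1 <;> omega

theorem formB_Sh (M : ℕ) (v : Fin (2^M) → ℂ) (x : Fin (2^M)) :
    (Sh M *ᵥ v) x = v (formB_pr M x) := by
  have hx := x.2
  unfold Matrix.mulVec dotProduct Sh
  rw [Finset.sum_eq_single (formB_pr M x)]
  · beta_reduce
    rw [if_pos, one_mul]
    rw [formB_pr_val]
    split_ifs with h
    · rw [show 2^M - 1 + 1 = 2^M by omega, Nat.mod_self, h]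
    · rw [show (x:ℕ) - 1 + 1 = x by omega, Nat.mod_eq_of_lt hx]
  · intro z _ hz
    beta_reduce
    rw [if_neg, zero_mul]
    intro h
    apply hz
    ext
    rw [formB_pr_val]
    have hz2 := z.2
    rcases Nat.lt_or_ge ((z:ℕ)+1) (2^M) with h1 | h1
    · rw [Nat.mod_eq_of_lt h1] at h
      rw [if_neg (by omega)]
      omega
    · have h2 : (z:ℕ) + 1 = 2^M := by omega
      rw [h2, Nat.mod_self] at h
      rw [if_pos h.symm]
      omega
  · intro h
    exact absurd (Finset.mem_univ _) h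

theorem formB_blk (h K c : ℕ) (hc : c < h) (f : ℕ → ℝ)
    (hf : ∀ k, ∀ i < h, f (h*k+i) = f (h*k)) :
    (h:ℝ) * ∑ n ∈ range (h*K), (if n % h = c then f n else 0) = ∑ n ∈ range (h*K), f n := by
  induction K with
  | zero => simp
  | succ K ih =>
    rw [Nat.mul_succ, Finset.sum_range_add, Finset.sum_range_add, mul_add, ih]
    congr 1
    have h1 : ∑ i ∈ range h, (if (h*K+i) % h = c then f (h*K+i) else 0) = f (h*K) := by
      rw [Finset.sum_eq_single c]
      · rw [Nat.mul_add_mod, Nat.mod_eq_of_lt hc, if_pos rfl, hf K c hc]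
      · intro i hi hic
        rw [Nat.mul_add_mod, Nat.mod_eq_of_lt (mem_range.1 hi), if_neg hic]
      · intro hcn
        exact absurd (mem_range.2 hc) hcn
    have h2 : ∑ i ∈ range h, f (h*K+i) = h * f (h*K) := by
      rw [Finset.sum_congr rfl (fun i hi => hf K i (mem_range.1 hi)), Finset.sum_const,
        Finset.card_range, nsmul_eq_mul]
    rw [h1, h2]

theorem formB_pow (M a : ℕ) (haM : a < M) : 2^M = 2^(M-(a+1)) * 2^(a+1) := by
  rw [← pow_add, Nat.sub_add_cancel (by omega)]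

theorem formB_blkFin (M a : ℕ) (haM : a < M) (c : ℕ) (hc : c < 2^(M-(a+1)))
    (u : Fin (2^M) → ℝ)
    (hu : ∀ x x' : Fin (2^M), (x:ℕ) / 2^(M-(a+1)) = (x':ℕ) / 2^(M-(a+1)) → u x = u x') :
    (2:ℝ)^(M-(a+1)) * ∑ z : Fin (2^M), (if (z:ℕ) % 2^(M-(a+1)) = c then u z else 0) =
      ∑ z, u z := by
  have hN := formB_pow M a haM
  generalize hh : 2^(M-(a+1)) = h at *
  have hpos : 0 < h := by omega
  let f : ℕ → ℝ := fun n => if hn : n < 2^M then u ⟨n, hn⟩ else 0
  have hfz : ∀ z : Fin (2^M), f z = u z := fun z => dif_pos z.2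
  have e1 : ∑ z : Fin (2^M), (if (z:ℕ) % h = c then u z else 0) =
      ∑ n ∈ range (2^M), (if n % h = c then f n else 0) := by
    rw [← Fin.sum_univ_eq_sum_range (fun n => if n % h = c then f n else 0) (2^M)]
    exact Finset.sum_congr rfl fun z _ => by rw [hfz]
  have e2 : ∑ z, u z = ∑ n ∈ range (2^M), f n := by
    rw [← Fin.sum_univ_eq_sum_range f (2^M)]
    exact Finset.sum_congr rfl fun z _ => by rw [hfz]
  have hf : ∀ k, ∀ i < h, f (h*k+i) = f (h*k) := by
    intro k i hi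
    by_cases hk : k < 2^(a+1)
    · have h1 : h * (k+1) ≤ 2^M := by
        rw [hN]
        exact Nat.mul_le_mul_left h hk
      rw [Nat.mul_succ] at h1
      have h2 : h*k+i < 2^M := by omega
      have h3 : h*k < 2^M := by omega
      show dite _ _ _ = dite _ _ _
      rw [dif_pos h2, dif_pos h3]
      apply hu
      show (h*k+i)/h = (h*k)/h
      rw [Nat.mul_add_div hpos, Nat.div_eq_of_lt hi, Nat.mul_div_cancel_left k hpos, add_zero]
    · have h1 : 2^M ≤ h * k := by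
        rw [hN]
        exact Nat.mul_le_mul_left h (not_lt.1 hk)
      show dite _ _ _ = dite _ _ _
      rw [dif_neg (by omega), dif_neg (by omega)]
  have key := formB_blk h (2^(a+1)) c hc f hf
  rw [← hN] at key
  rw [e1, e2, ← key]
  congr 1
  rw [← hh]
  push_cast
  rfl

theorem formB_Jsum (M a : ℕ) (haM : a < M) (u : Fin (2^M) → ℝ) (hu0 : ∀ x, 0 ≤ u x)
    (hu : ∀ x x' : Fin (2^M), (x:ℕ) / 2^(M-(a+1)) = (x':ℕ) / 2^(M-(a+1)) → u x = u x') :
    ∑ z : Fin (2^M), (if 2^(M-(a+1)) ∣ (z:ℕ) then u z + u (formB_pr M z) else 0) ≤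
      2 / (2:ℝ)^(M-(a+1)) * ∑ z, u z := by
  have hN := formB_pow M a haM
  have hpos : 0 < 2^(M-(a+1)) := by positivity
  have b1 := formB_blkFin M a haM 0 hpos u hu
  have b2 := formB_blkFin M a haM (2^(M-(a+1)) - 1) (by omega) u hu
  have h1 : ∑ z : Fin (2^M), (if 2^(M-(a+1)) ∣ (z:ℕ) then u z + u (formB_pr M z) else 0) ≤
      ∑ z : Fin (2^M), (if (z:ℕ) % 2^(M-(a+1)) = 0 then u z else 0) +
      ∑ z : Fin (2^M), (if (z:ℕ) % 2^(M-(a+1)) = 2^(M-(a+1)) - 1 then u z else 0) := by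
    rw [← (formB_pr_bij M).sum_comp
      (fun z => if (z:ℕ) % 2^(M-(a+1)) = 2^(M-(a+1)) - 1 then u z else 0),
      ← Finset.sum_add_distrib]
    refine Finset.sum_le_sum fun z _ => ?_
    by_cases hz : 2^(M-(a+1)) ∣ (z:ℕ)
    · rw [if_pos hz, if_pos (Nat.mod_eq_zero_of_dvd hz)]
      have h2 : ((formB_pr M z : Fin (2^M)) : ℕ) % 2^(M-(a+1)) = 2^(M-(a+1)) - 1 := by
        show ((z:ℕ) + 2^M - 1) % 2^M % 2^(M-(a+1)) = _
        rw [Nat.mod_mod_of_dvd _ ⟨_, hN⟩]
        obtain ⟨m, hm⟩ := hz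
        have h3 : 2^(a+1) = (2^(a+1) - 1) + 1 := by
          have : 0 < 2^(a+1) := by positivity
          omega
        have h4 : (z:ℕ) + 2^M - 1 =
            (2^(M-(a+1)) - 1) + 2^(M-(a+1)) * (m + (2^(a+1) - 1)) := by
          rw [hm, hN]
          conv_lhs => rw [h3]
          rw [Nat.mul_succ, Nat.mul_add]
          omega
        rw [h4, Nat.add_mul_mod_self_left, Nat.mod_eq_of_lt (by omega)]
      rw [if_pos h2]
    · rw [if_neg hz]
      apply add_nonneg
      · split_ifs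
        · exact hu0 _
        · exact le_rfl
      · split_ifs
        · exact hu0 _
        · exact le_rfl
  refine h1.trans (le_of_eq ?_)
  have hp : (0:ℝ) < (2:ℝ)^(M-(a+1)) := by positivity
  have h5 : ∑ z : Fin (2^M), (if (z:ℕ) % 2^(M-(a+1)) = 0 then u z else 0) =
      (∑ z, u z) / (2:ℝ)^(M-(a+1)) := by
    rw [eq_div_iff hp.ne', mul_comm]
    exact b1
  have h6 : ∑ z : Fin (2^M), (if (z:ℕ) % 2^(M-(a+1)) = 2^(M-(a+1)) - 1 then u z else 0) =
      (∑ z, u z) / (2:ℝ)^(M-(a+1)) := by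
    rw [eq_div_iff hp.ne', mul_comm]
    exact b2
  rw [h5, h6]
  ring

theorem formB_J0 (M a : ℕ) (haM : a < M) (v : Fin (2^M) → ℂ) (hv : Haar M a v)
    (z : Fin (2^M)) (hz : ¬ 2^(M-(a+1)) ∣ (z:ℕ)) : v (formB_pr M z) = v z := by
  apply formB_const M a haM v hv
  have hz0 : (z:ℕ) ≠ 0 := by
    intro h
    rw [h] at hz
    exact hz (dvd_zero _)
  rw [formB_pr_val, if_neg hz0]
  obtain ⟨y, hy⟩ : ∃ y, (z:ℕ) = y + 1 := ⟨(z:ℕ) - 1, by omega⟩
  rw [hy] at hz ⊢
  rw [Nat.succ_div, if_neg hz, Nat.add_sub_cancel, add_zero]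

/-- the weight -/
noncomputable def formB_w (M p : ℕ) (x z : Fin (2^M)) : ℝ :=
  1 / (1 + 2^p * |Real.sin (Real.pi * (((x:ℤ) - (z:ℤ) : ℤ) : ℝ) / 2^M)|)^2

theorem formB_w_nonneg (M p : ℕ) (x z : Fin (2^M)) : 0 ≤ formB_w M p x z := by
  unfold formB_w
  positivity

theorem formB_w_le (M p : ℕ) (x z : Fin (2^M)) : formB_w M p x z ≤
    1 / (1 + 2^p * (formB_rr (2^M) x z : ℝ) / 2^M)^2 +
      1 / (1 + 2^p * (formB_rr (2^M) z x : ℝ) / 2^M)^2 := by
  have h := formB_ker (2^M) x z x.2 z.2 (2^p) (by positivity)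
  unfold formB_w
  push_cast at h ⊢
  exact h

theorem formB_rescale (M p : ℕ) (hp : p ≤ M) (t : ℝ) (ht : 0 ≤ t) :
    1 / (1 + 2^p * t / 2^M)^2 = ((2:ℝ)^(M-p))^2 * (1 / ((2:ℝ)^(M-p) + t)^2) := by
  have hM : (2:ℝ)^M = 2^p * 2^(M-p) := by rw [← pow_add, Nat.add_sub_cancel' hp]
  have h1 : (0:ℝ) < 2^p := by positivity
  have h2 : (0:ℝ) < 2^(M-p) := by positivity
  rw [hM]
  generalize (2:ℝ)^(M-p) = L at *
  generalize (2:ℝ)^p = P at *
  have h3 : 0 < L + t := by linarith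
  have h4 : 1 + P * t / (P * L) = (L + t) / L := by
    field_simp
  rw [h4]
  field_simp

theorem formB_W2a (M p : ℕ) (hp : p ≤ M) (f : Fin (2^M) → ℕ) (hf : Function.Injective f) :
    ∑ x : Fin (2^M), 1 / (1 + 2^p * (f x : ℝ) / 2^M)^2 ≤ 2 * (2:ℝ)^(M-p) := by
  apply formB_inj_sum univ f hf.injOn (fun k => 1 / (1 + 2^p * (k : ℝ) / 2^M)^2)
    (fun k => by positivity)
  intro n
  have hL : (1:ℝ) ≤ (2:ℝ)^(M-p) := one_le_pow₀ (by norm_num)
  calc ∑ k ∈ range n, 1 / (1 + 2^p * (k : ℝ) / 2^M)^2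
      = ((2:ℝ)^(M-p))^2 * ∑ k ∈ range n, 1 / ((2:ℝ)^(M-p) + (k:ℝ))^2 := by
        rw [Finset.mul_sum]
        exact Finset.sum_congr rfl fun k _ => formB_rescale M p hp k (Nat.cast_nonneg k)
    _ ≤ ((2:ℝ)^(M-p))^2 * (2 / (2:ℝ)^(M-p)) :=
        mul_le_mul_of_nonneg_left (formB_tel _ hL n) (by positivity)
    _ = 2 * (2:ℝ)^(M-p) := by
        field_simp

theorem formB_W2 (M p : ℕ) (hp : p ≤ M) (z : Fin (2^M)) :
    ∑ x : Fin (2^M), formB_w M p x z ≤ 4 * (2:ℝ)^(M-p) := by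
  calc ∑ x : Fin (2^M), formB_w M p x z
      ≤ ∑ x : Fin (2^M), (1 / (1 + 2^p * (formB_rr (2^M) x z : ℝ) / 2^M)^2 +
        1 / (1 + 2^p * (formB_rr (2^M) z x : ℝ) / 2^M)^2) :=
        Finset.sum_le_sum fun x _ => formB_w_le M p x z
    _ = ∑ x : Fin (2^M), 1 / (1 + 2^p * (formB_rr (2^M) x z : ℝ) / 2^M)^2 +
        ∑ x : Fin (2^M), 1 / (1 + 2^p * (formB_rr (2^M) z x : ℝ) / 2^M)^2 :=
        Finset.sum_add_distrib
    _ ≤ 2 * (2:ℝ)^(M-p) + 2 * (2:ℝ)^(M-p) := by
        apply add_le_add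
        · apply formB_W2a M p hp (fun x => formB_rr (2^M) x z)
          intro x x' h
          ext
          exact formB_rr_inj1 (2^M) z x x' z.2 x.2 x'.2 h
        · apply formB_W2a M p hp (fun x => formB_rr (2^M) z x)
          intro x x' h
          ext
          exact formB_rr_inj2 (2^M) z x x' z.2 x.2 x'.2 h
    _ = 4 * (2:ℝ)^(M-p) := by ring

theorem formB_W1a (M p a : ℕ) (hap : a < p) (hp : p ≤ M) (f : Fin (2^M) → ℕ)
    (hf : Function.Injective f) (s : Finset (Fin (2^M)))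
    (hs : ∀ z ∈ s, ∀ z' ∈ s, f z % 2^(M-(a+1)) = f z' % 2^(M-(a+1))) :
    ∑ z ∈ s, 1 / (1 + 2^p * (f z : ℝ) / 2^M)^2 ≤ 2 := by
  have hL : (0:ℝ) < (2:ℝ)^(M-p) := by positivity
  have hh : (0:ℝ) < (2:ℝ)^(M-(a+1)) := by positivity
  have hLh : (2:ℝ)^(M-p) ≤ (2:ℝ)^(M-(a+1)) := pow_le_pow_right₀ (by norm_num) (by omega)
  have hle : ∀ z ∈ s, 1 / (1 + 2^p * (f z : ℝ) / 2^M)^2 ≤
      (fun k : ℕ => 1 / ((1:ℝ) + k)^2) (f z / 2^(M-(a+1))) := by
    intro z _
    simp only
    have h1 : ((f z / 2^(M-(a+1)) : ℕ) : ℝ) ≤ 2^p * (f z : ℝ) / 2^M := by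
      have hM : (2:ℝ)^M = 2^p * 2^(M-p) := by rw [← pow_add, Nat.add_sub_cancel' hp]
      calc ((f z / 2^(M-(a+1)) : ℕ) : ℝ) ≤ (f z : ℝ) / ((2^(M-(a+1)) : ℕ) : ℝ) :=
            Nat.cast_div_le
        _ = (f z : ℝ) / (2:ℝ)^(M-(a+1)) := by push_cast; rfl
        _ ≤ (f z : ℝ) / (2:ℝ)^(M-p) :=
            div_le_div_of_nonneg_left (Nat.cast_nonneg _) hL hLh
        _ = 2^p * (f z : ℝ) / 2^M := by
            rw [hM]
            field_simp
    apply one_div_le_one_div_of_le (by positivity)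
    gcongr
  refine (Finset.sum_le_sum hle).trans ?_
  apply formB_inj_sum s (fun z => f z / 2^(M-(a+1))) _ (fun k : ℕ => 1 / ((1:ℝ) + k)^2)
    (fun k => by positivity)
  · intro n
    have := formB_tel 1 le_rfl n
    rw [div_one] at this
    exact this
  · intro z hz z' hz' h
    apply hf
    simp only at h
    rw [← Nat.div_add_mod (f z) (2^(M-(a+1))), ← Nat.div_add_mod (f z') (2^(M-(a+1))), h,
      hs z hz z' hz']

theorem formB_W1 (M p a : ℕ) (hap : a < p) (hp : p ≤ M) (x : Fin (2^M)) :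
    ∑ z ∈ univ.filter (fun z : Fin (2^M) => 2^(M-(a+1)) ∣ (z:ℕ)), formB_w M p x z ≤ 4 := by
  have hN := formB_pow M a (by omega)
  calc ∑ z ∈ univ.filter (fun z : Fin (2^M) => 2^(M-(a+1)) ∣ (z:ℕ)), formB_w M p x z
      ≤ ∑ z ∈ univ.filter (fun z : Fin (2^M) => 2^(M-(a+1)) ∣ (z:ℕ)),
        (1 / (1 + 2^p * (formB_rr (2^M) x z : ℝ) / 2^M)^2 +
        1 / (1 + 2^p * (formB_rr (2^M) z x : ℝ) / 2^M)^2) :=
        Finset.sum_le_sum fun z _ => formB_w_le M p x z
    _ = ∑ z ∈ univ.filter (fun z : Fin (2^M) => 2^(M-(a+1)) ∣ (z:ℕ)),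
          1 / (1 + 2^p * (formB_rr (2^M) x z : ℝ) / 2^M)^2 +
        ∑ z ∈ univ.filter (fun z : Fin (2^M) => 2^(M-(a+1)) ∣ (z:ℕ)),
          1 / (1 + 2^p * (formB_rr (2^M) z x : ℝ) / 2^M)^2 :=
        Finset.sum_add_distrib
    _ ≤ 2 + 2 := by
        apply add_le_add
        · apply formB_W1a M p a hap hp (fun z => formB_rr (2^M) x z)
          · intro z z' h
            ext
            exact formB_rr_inj2 (2^M) x z z' x.2 z.2 z'.2 h
          · intro z hz z' hz'
            rw [Finset.mem_filter] at hz hz'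
            rw [formB_rr_mod1 (2^M) x z _ z.2 ⟨_, hN⟩ hz.2,
              formB_rr_mod1 (2^M) x z' _ z'.2 ⟨_, hN⟩ hz'.2]
        · apply formB_W1a M p a hap hp (fun z => formB_rr (2^M) z x)
          · intro z z' h
            ext
            exact formB_rr_inj1 (2^M) x z z' x.2 z.2 z'.2 h
          · intro z hz z' hz'
            rw [Finset.mem_filter] at hz hz'
            rw [formB_rr_mod2 (2^M) x z _ x.2 ⟨_, hN⟩ hz.2,
              formB_rr_mod2 (2^M) x z' _ x.2 ⟨_, hN⟩ hz'.2]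
    _ = 4 := by norm_num

theorem formB_W3a (M p : ℕ) (hp : p ≤ M) (D : ℕ) (hD : 0 < D) (f : Fin (2^M) → ℕ)
    (hf : Function.Injective f) (s : Finset (Fin (2^M))) (hs : ∀ x ∈ s, D ≤ f x) :
    ∑ x ∈ s, 1 / (1 + 2^p * (f x : ℝ) / 2^M)^2 ≤ 2 * ((2:ℝ)^(M-p))^2 / D := by
  have hL : (0:ℝ) < (2:ℝ)^(M-p) := by positivity
  have hD' : (1:ℝ) ≤ D := by exact_mod_cast hD
  have hle : ∀ x ∈ s, 1 / (1 + 2^p * (f x : ℝ) / 2^M)^2 ≤
      (fun k : ℕ => ((2:ℝ)^(M-p))^2 * (1 / ((D:ℝ) + k)^2)) (f x - D) := by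
    intro x hx
    simp only
    rw [formB_rescale M p hp _ (Nat.cast_nonneg _), Nat.cast_sub (hs x hx)]
    apply mul_le_mul_of_nonneg_left _ (by positivity)
    have h1 : (D:ℝ) ≤ f x := by exact_mod_cast hs x hx
    have h2 : (D:ℝ) + ((f x : ℝ) - D) = f x := by ring
    rw [h2]
    have h3 : (0:ℝ) < f x := by linarith
    apply one_div_le_one_div_of_le (by positivity)
    gcongr
    linarith
  refine (Finset.sum_le_sum hle).trans ?_
  apply formB_inj_sum s (fun x => f x - D) _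
    (fun k : ℕ => ((2:ℝ)^(M-p))^2 * (1 / ((D:ℝ) + k)^2)) (fun k => by positivity)
  · intro n
    rw [← Finset.mul_sum]
    calc ((2:ℝ)^(M-p))^2 * ∑ k ∈ range n, 1 / ((D:ℝ) + k)^2
        ≤ ((2:ℝ)^(M-p))^2 * (2 / D) :=
          mul_le_mul_of_nonneg_left (formB_tel _ hD' n) (by positivity)
      _ = 2 * ((2:ℝ)^(M-p))^2 / D := by ring
  · intro x hx x' hx' h
    apply hf
    have h1 := hs x hx
    have h2 := hs x' hx'
    simp only at h
    omega

theorem formB_W3 (M p : ℕ) (hp : p ≤ M) (D : ℕ) (hD : 0 < D) (z : Fin (2^M))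
    (s : Finset (Fin (2^M)))
    (hs : ∀ x ∈ s, D ≤ formB_rr (2^M) x z ∧ D ≤ formB_rr (2^M) z x) :
    ∑ x ∈ s, formB_w M p x z ≤ 4 * ((2:ℝ)^(M-p))^2 / D := by
  calc ∑ x ∈ s, formB_w M p x z
      ≤ ∑ x ∈ s, (1 / (1 + 2^p * (formB_rr (2^M) x z : ℝ) / 2^M)^2 +
        1 / (1 + 2^p * (formB_rr (2^M) z x : ℝ) / 2^M)^2) :=
        Finset.sum_le_sum fun x _ => formB_w_le M p x z
    _ = ∑ x ∈ s, 1 / (1 + 2^p * (formB_rr (2^M) x z : ℝ) / 2^M)^2 +
        ∑ x ∈ s, 1 / (1 + 2^p * (formB_rr (2^M) z x : ℝ) / 2^M)^2 :=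
        Finset.sum_add_distrib
    _ ≤ 2 * ((2:ℝ)^(M-p))^2 / D + 2 * ((2:ℝ)^(M-p))^2 / D := by
        apply add_le_add
        · apply formB_W3a M p hp D hD (fun x => formB_rr (2^M) x z)
          · intro x x' h
            ext
            exact formB_rr_inj1 (2^M) z x x' z.2 x.2 x'.2 h
          · exact fun x hx => (hs x hx).1
        · apply formB_W3a M p hp D hD (fun x => formB_rr (2^M) z x)
          · intro x x' h
            ext
            exact formB_rr_inj2 (2^M) z x x' z.2 x.2 x'.2 h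
          · exact fun x hx => (hs x hx).2
    _ = 4 * ((2:ℝ)^(M-p))^2 / D := by ring

/-- the distance of a far point -/
theorem formB_dist (D K c b i z : ℕ) (hD : 0 < D) (hc : c < K) (hb : b < K) (hi : i < D)
    (hz : z < D * K)
    (hbc : b ≠ c) (hb1 : (b + 1) % K ≠ c) (hb2 : b ≠ (c + 1) % K)
    (hzc : z / D = c ∨ (∃ y, y < D * K ∧ y / D = c ∧ (y + 1) % (D * K) = z)) :
    D ≤ formB_rr (D * K) (D * b + i) z ∧ D ≤ formB_rr (D * K) z (D * b + i) := by
  -- the position of `z`: between `D*c` and `D*(c+1)` or `z = 0` and `c + 1 = K`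
  have hbK : D * (b + 1) ≤ D * K := Nat.mul_le_mul_left D hb
  have hcK : D * (c + 1) ≤ D * K := Nat.mul_le_mul_left D hc
  rw [Nat.mul_succ] at hbK hcK
  have hx : D * b + i < D * K := by omega
  have hzpos : (D * c ≤ z ∧ z ≤ D * c + D) ∨ (z = 0 ∧ c + 1 = K) := by
    rcases hzc with h | ⟨y, hy, hyc, hyz⟩
    · left
      have h1 := Nat.div_add_mod z D
      have h2 := Nat.mod_lt z hD
      rw [h] at h1
      omega
    · have h1 := Nat.div_add_mod y D
      have h2 := Nat.mod_lt y hD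
      rw [hyc] at h1
      rcases Nat.lt_or_ge (y + 1) (D * K) with h3 | h3
      · left
        rw [Nat.mod_eq_of_lt h3] at hyz
        omega
      · right
        have h4 : y + 1 = D * K := by omega
        rw [h4, Nat.mod_self] at hyz
        refine ⟨hyz.symm, ?_⟩
        by_contra hne
        have h5 : c + 2 ≤ K := by omega
        have h6 : D * (c + 2) ≤ D * K := Nat.mul_le_mul_left D h5
        rw [Nat.mul_add] at h6
        omega
  rw [formB_rr_eq (D * K) _ z hx hz, formB_rr_eq (D * K) z _ hz hx]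
  rcases Nat.lt_or_gt_of_ne hbc with hlt | hgt
  · -- b < c
    have h1 : b + 1 ≠ c := by
      intro h
      apply hb1
      rw [Nat.mod_eq_of_lt (by omega)]
      exact h
    have h2 : b + 2 ≤ c := by omega
    have h3 : D * (b + 2) ≤ D * c := Nat.mul_le_mul_left D h2
    rw [Nat.mul_add] at h3
    have h4 : c + 2 ≤ K + b := by
      rcases Nat.eq_zero_or_pos b with h0 | h0
      · have h5 : c + 1 ≠ K := by
          intro h
          apply hb2
          rw [h, Nat.mod_self, h0]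
        omega
      · omega
    have h6 : D * (c + 2) ≤ D * (K + b) := Nat.mul_le_mul_left D h4
    rw [Nat.mul_add, Nat.mul_add] at h6
    rcases hzpos with ⟨h7, h8⟩ | ⟨h7, h8⟩
    · constructor
      · split_ifs <;> omega
      · split_ifs <;> omega
    · -- z = 0, c + 1 = K, b >= 1
      have h9 : b ≠ 0 := by
        intro h0
        apply hb2
        rw [h8, Nat.mod_self, h0]
      have h10 : D * 1 ≤ D * b := Nat.mul_le_mul_left D (by omega)
      rw [Nat.mul_one] at h10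
      constructor
      · split_ifs <;> omega
      · split_ifs <;> omega
  · -- c < b
    have h1 : c + 1 ≠ b := by
      intro h
      apply hb2
      rw [Nat.mod_eq_of_lt (by omega)]
      exact h.symm
    have h2 : c + 2 ≤ b := by omega
    have h3 : D * (c + 2) ≤ D * b := Nat.mul_le_mul_left D h2
    rw [Nat.mul_add] at h3
    have h4 : b + 2 ≤ K + c := by
      rcases Nat.eq_zero_or_pos c with h0 | h0
      · have h5 : b + 1 ≠ K := by
          intro h
          apply hb1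
          rw [h, Nat.mod_self, h0]
        omega
      · omega
    have h6 : D * (b + 2) ≤ D * (K + c) := Nat.mul_le_mul_left D h4
    rw [Nat.mul_add, Nat.mul_add] at h6
    rcases hzpos with ⟨h7, h8⟩ | ⟨h7, h8⟩
    · constructor
      · split_ifs <;> omega
      · split_ifs <;> omega
    · omega

theorem formB : ∃ C : ℝ, 0 < C ∧ ∀ (M a p : ℕ) (ε : ℝ), a < p → p ≤ M → 0 ≤ ε →
    ∀ T : Matrix (Fin (2^M)) (Fin (2^M)) ℂ,
    (∀ v, Haar M a v → ∀ x : Fin (2^M), ‖(T *ᵥ v) x‖ ≤ ε *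
      ∑ z : Fin (2^M), ‖v z - (Sh M *ᵥ v) z‖ /
        (1 + 2^p * |Real.sin (Real.pi * (((x:ℤ) - (z:ℤ) : ℤ) : ℝ) / 2^M)|)^2) →
    L2b M a T (C * ε * (2:ℝ)^(-(((p:ℝ) - a)/2))) ∧
    Far M a T (C * ε * (2:ℝ)^(-(((p:ℝ) - a)/2))) := by
  classical
  refine ⟨16, by norm_num, ?_⟩
  intro M a p ε hap hpM hε T hT
  have haM : a < M := by omega
  have hN := formB_pow M a haM
  have hTw : ∀ v, Haar M a v → ∀ x : Fin (2^M), ‖(T *ᵥ v) x‖ ≤ ε *
      ∑ z : Fin (2^M), ‖v z - v (formB_pr M z)‖ * formB_w M p x z := by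
    intro v hv x
    refine (hT v hv x).trans (le_of_eq ?_)
    congr 1
    refine Finset.sum_congr rfl fun z _ => ?_
    rw [formB_Sh, div_eq_mul_one_div]
    rfl
  have hJ0 : ∀ v, Haar M a v → ∀ z : Fin (2^M), ¬ 2^(M-(a+1)) ∣ (z:ℕ) →
      ‖v z - v (formB_pr M z)‖ = 0 := by
    intro v hv z hz
    rw [formB_J0 M a haM v hv z hz, sub_self, norm_zero]
  have hLh : (2:ℝ)^(M-p) / (2:ℝ)^(M-(a+1)) = 2 * ((2:ℝ)^a / 2^p) := by
    have h1 : (2:ℝ)^M = 2^p * 2^(M-p) := by rw [← pow_add, Nat.add_sub_cancel' hpM]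
    have h2 : (2:ℝ)^M = 2^(a+1) * 2^(M-(a+1)) := by
      rw [← pow_add, Nat.add_sub_cancel' (by omega)]
    have h3 : (0:ℝ) < 2^p := by positivity
    have h4 : (0:ℝ) < 2^(M-(a+1)) := by positivity
    rw [div_eq_iff h4.ne']
    have h5 : (2:ℝ)^p * 2^(M-p) = 2^(a+1) * 2^(M-(a+1)) := by rw [← h1, h2]
    field_simp
    rw [mul_comm ((2:ℝ)^p) _] at h5
    rw [pow_succ] at h5
    linarith
  constructor
  · -- the L2 bound
    intro v hv
    have hx : ∀ x : Fin (2^M), ‖(T *ᵥ v) x‖^2 ≤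
        ε^2 * (4 * ∑ z : Fin (2^M), ‖v z - v (formB_pr M z)‖^2 * formB_w M p x z) := by
      intro x
      have h1 := hTw v hv x
      have h2 : (∑ z : Fin (2^M), ‖v z - v (formB_pr M z)‖ * formB_w M p x z)^2 ≤
          4 * ∑ z : Fin (2^M), ‖v z - v (formB_pr M z)‖^2 * formB_w M p x z := by
        have h3 : ∑ z : Fin (2^M), ‖v z - v (formB_pr M z)‖ * formB_w M p x z =
            ∑ z ∈ univ.filter (fun z : Fin (2^M) => 2^(M-(a+1)) ∣ (z:ℕ)),
              Real.sqrt (formB_w M p x z) *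
                (‖v z - v (formB_pr M z)‖ * Real.sqrt (formB_w M p x z)) := by
          rw [Finset.sum_filter]
          refine Finset.sum_congr rfl fun z _ => ?_
          split_ifs with hz
          · calc ‖v z - v (formB_pr M z)‖ * formB_w M p x z
                = ‖v z - v (formB_pr M z)‖ *
                  (Real.sqrt (formB_w M p x z) * Real.sqrt (formB_w M p x z)) := by
                  rw [Real.mul_self_sqrt (formB_w_nonneg M p x z)]
              _ = _ := by ring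
          · rw [hJ0 v hv z hz, zero_mul]
        rw [h3]
        refine (Finset.sum_mul_sq_le_sq_mul_sq _ _ _).trans ?_
        apply mul_le_mul
        · refine le_trans (le_of_eq ?_) (formB_W1 M p a hap hpM x)
          exact Finset.sum_congr rfl fun z _ => Real.sq_sqrt (formB_w_nonneg M p x z)
        · refine le_trans (Finset.sum_le_sum_of_subset_of_nonneg (Finset.filter_subset _ univ)
            (fun z _ _ => sq_nonneg _)) (le_of_eq ?_)
          refine Finset.sum_congr rfl fun z _ => ?_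
          rw [mul_pow, Real.sq_sqrt (formB_w_nonneg M p x z)]
        · exact Finset.sum_nonneg fun z _ => sq_nonneg _
        · norm_num
      calc ‖(T *ᵥ v) x‖^2
          ≤ (ε * ∑ z : Fin (2^M), ‖v z - v (formB_pr M z)‖ * formB_w M p x z)^2 :=
            pow_le_pow_left₀ (norm_nonneg _) h1 2
        _ = ε^2 * (∑ z : Fin (2^M), ‖v z - v (formB_pr M z)‖ * formB_w M p x z)^2 := by ring
        _ ≤ _ := mul_le_mul_of_nonneg_left h2 (sq_nonneg _)
    have hJ2 : ∑ z : Fin (2^M), ‖v z - v (formB_pr M z)‖^2 ≤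
        2 / (2:ℝ)^(M-(a+1)) * ∑ z, 2 * ‖v z‖^2 := by
      refine le_trans ?_ (formB_Jsum M a haM (fun z => 2 * ‖v z‖^2) (fun z => by positivity)
        (fun x x' h => by rw [formB_const M a haM v hv x x' h]))
      refine Finset.sum_le_sum fun z _ => ?_
      split_ifs with hz
      · have h1 : ‖v z - v (formB_pr M z)‖ ≤ ‖v z‖ + ‖v (formB_pr M z)‖ := norm_sub_le _ _
        have h2 := norm_nonneg (v z - v (formB_pr M z))
        nlinarith [sq_nonneg (‖v z‖ - ‖v (formB_pr M z)‖)]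
      · rw [hJ0 v hv z hz]
        norm_num
    calc ∑ x, ‖(T *ᵥ v) x‖^2
        ≤ ∑ x : Fin (2^M),
          ε^2 * (4 * ∑ z : Fin (2^M), ‖v z - v (formB_pr M z)‖^2 * formB_w M p x z) :=
          Finset.sum_le_sum fun x _ => hx x
      _ = 4 * ε^2 * ∑ z : Fin (2^M), ‖v z - v (formB_pr M z)‖^2 *
            ∑ x : Fin (2^M), formB_w M p x z := by
          rw [← Finset.mul_sum, ← Finset.mul_sum, Finset.sum_comm]
          simp only [Finset.mul_sum]
          refine Finset.sum_congr rfl fun z _ => Finset.sum_congr rfl fun x _ => ?_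
          ring
      _ ≤ 4 * ε^2 * ∑ z : Fin (2^M), ‖v z - v (formB_pr M z)‖^2 * (4 * (2:ℝ)^(M-p)) := by
          apply mul_le_mul_of_nonneg_left _ (by positivity)
          exact Finset.sum_le_sum fun z _ =>
            mul_le_mul_of_nonneg_left (formB_W2 M p hpM z) (sq_nonneg _)
      _ = 16 * ε^2 * (2:ℝ)^(M-p) * ∑ z : Fin (2^M), ‖v z - v (formB_pr M z)‖^2 := by
          rw [← Finset.sum_mul]
          ring
      _ ≤ 16 * ε^2 * (2:ℝ)^(M-p) * (2 / (2:ℝ)^(M-(a+1)) * ∑ z, 2 * ‖v z‖^2) :=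
          mul_le_mul_of_nonneg_left hJ2 (by positivity)
      _ = 64 * ε^2 * ((2:ℝ)^(M-p) / (2:ℝ)^(M-(a+1))) * ∑ z, ‖v z‖^2 := by
          rw [← Finset.mul_sum]
          ring
      _ ≤ (16 * ε * (2:ℝ)^(-(((p:ℝ) - a)/2)))^2 * ∑ x, ‖v x‖^2 := by
          apply mul_le_mul_of_nonneg_right _ (Finset.sum_nonneg fun z _ => sq_nonneg _)
          rw [hLh]
          have h1 : ((2:ℝ)^(-(((p:ℝ) - a)/2)))^2 = (2:ℝ)^a / 2^p := by
            rw [← Real.rpow_natCast ((2:ℝ)^(-(((p:ℝ) - a)/2))) 2,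
              ← Real.rpow_mul (by norm_num)]
            rw [show -(((p:ℝ) - a)/2) * ((2:ℕ):ℝ) = (a:ℝ) - p by push_cast; ring]
            rw [Real.rpow_sub (by norm_num), Real.rpow_natCast, Real.rpow_natCast]
          rw [mul_pow, mul_pow, h1]
          have h2 : 0 ≤ ε^2 * ((2:ℝ)^a / 2^p) := by positivity
          nlinarith
  · -- the far bound
    intro q hqa c hc v hv hsupp
    have hNq : 2^M = 2^(M-q) * 2^q := by rw [← pow_add, Nat.sub_add_cancel (by omega)]
    have hJ1 : ∑ z : Fin (2^M), ‖v z - v (formB_pr M z)‖ ≤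
        2 / (2:ℝ)^(M-(a+1)) * ∑ z, ‖v z‖ := by
      refine le_trans ?_ (formB_Jsum M a haM (fun z => ‖v z‖) (fun z => by positivity)
        (fun x x' h => by rw [formB_const M a haM v hv x x' h]))
      refine Finset.sum_le_sum fun z _ => ?_
      split_ifs with hz
      · exact norm_sub_le _ _
      · rw [hJ0 v hv z hz]
    have hDpos : 0 < 2^(M-q) := by positivity
    have hfar : ∀ z : Fin (2^M), ‖v z - v (formB_pr M z)‖ *
        ∑ x ∈ univ.filter (fun x => ¬ near M q c x), formB_w M p x z ≤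
        ‖v z - v (formB_pr M z)‖ * (4 * ((2:ℝ)^(M-p))^2 / ((2^(M-q) : ℕ) : ℝ)) := by
      intro z
      by_cases h0 : (z:ℕ) / 2^(M-q) = c ∨ ((formB_pr M z : Fin (2^M)) : ℕ) / 2^(M-q) = c
      · apply mul_le_mul_of_nonneg_left _ (norm_nonneg _)
        apply formB_W3 M p hpM (2^(M-q)) hDpos z
        intro x hx
        rw [Finset.mem_filter] at hx
        have hnear := hx.2
        unfold near at hnear
        push Not at hnear
        obtain ⟨hn1, hn2, hn3⟩ := hnear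
        have hxd := Nat.div_add_mod (x:ℕ) (2^(M-q))
        have hxm := Nat.mod_lt (x:ℕ) hDpos
        have hxb : (x:ℕ) / 2^(M-q) < 2^q := by
          apply Nat.div_lt_of_lt_mul
          rw [← hNq]
          exact x.2
        have hzlt : (z:ℕ) < 2^(M-q) * 2^q := by rw [← hNq]; exact z.2
        have hzc : (z:ℕ) / 2^(M-q) = c ∨ (∃ y, y < 2^(M-q) * 2^q ∧ y / 2^(M-q) = c ∧
            (y + 1) % (2^(M-q) * 2^q) = z) := by
          rcases h0 with h0 | h0
          · exact Or.inl h0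
          · refine Or.inr ⟨(formB_pr M z : Fin (2^M)), ?_, h0, ?_⟩
            · rw [← hNq]; exact (formB_pr M z).2
            · rw [← hNq, formB_pr_val]
              have hz2 := z.2
              split_ifs with h1
              · rw [show 2^M - 1 + 1 = 2^M by omega, Nat.mod_self, h1]
              · rw [show (z:ℕ) - 1 + 1 = z by omega, Nat.mod_eq_of_lt hz2]
        have hd := formB_dist (2^(M-q)) (2^q) c ((x:ℕ) / 2^(M-q)) ((x:ℕ) % 2^(M-q)) z hDpos hc
          hxb hxm hzlt hn1 hn2 hn3 hzc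
        rw [hxd, ← hNq] at hd
        exact hd
      · push Not at h0
        rw [hsupp z h0.1, hsupp (formB_pr M z) h0.2, sub_zero, norm_zero, zero_mul, zero_mul]
    calc ∑ x ∈ univ.filter (fun x => ¬ near M q c x), ‖(T *ᵥ v) x‖
        ≤ ∑ x ∈ univ.filter (fun x => ¬ near M q c x),
          ε * ∑ z : Fin (2^M), ‖v z - v (formB_pr M z)‖ * formB_w M p x z :=
          Finset.sum_le_sum fun x _ => hTw v hv x
      _ = ε * ∑ z : Fin (2^M), ‖v z - v (formB_pr M z)‖ *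
            ∑ x ∈ univ.filter (fun x => ¬ near M q c x), formB_w M p x z := by
          rw [← Finset.mul_sum, Finset.sum_comm]
          simp only [Finset.mul_sum]
      _ ≤ ε * ∑ z : Fin (2^M), ‖v z - v (formB_pr M z)‖ *
            (4 * ((2:ℝ)^(M-p))^2 / ((2^(M-q) : ℕ) : ℝ)) := by
          apply mul_le_mul_of_nonneg_left _ hε
          exact Finset.sum_le_sum fun z _ => hfar z
      _ = ε * (4 * ((2:ℝ)^(M-p))^2 / ((2^(M-q) : ℕ) : ℝ)) *
            ∑ z : Fin (2^M), ‖v z - v (formB_pr M z)‖ := by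
          rw [← Finset.sum_mul]
          ring
      _ ≤ ε * (4 * ((2:ℝ)^(M-p))^2 / ((2^(M-q) : ℕ) : ℝ)) *
            (2 / (2:ℝ)^(M-(a+1)) * ∑ z, ‖v z‖) :=
          mul_le_mul_of_nonneg_left hJ1 (by positivity)
      _ = ε * (8 * ((2:ℝ)^(M-p) / (2:ℝ)^(M-q)) * ((2:ℝ)^(M-p) / (2:ℝ)^(M-(a+1)))) *
            ∑ z, ‖v z‖ := by
          push_cast
          ring
      _ ≤ 16 * ε * (2:ℝ)^(-(((p:ℝ) - a)/2)) * (2:ℝ)^(-(((a:ℝ) - q)/4)) * ∑ x, ‖v x‖ := by
          apply mul_le_mul_of_nonneg_right _ (Finset.sum_nonneg fun z _ => norm_nonneg _)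
          rw [hLh]
          have h1 : (2:ℝ)^(M-p) / (2:ℝ)^(M-q) = (2:ℝ)^q / 2^p := by
            have e1 : (2:ℝ)^M = 2^p * 2^(M-p) := by rw [← pow_add, Nat.add_sub_cancel' hpM]
            have e2 : (2:ℝ)^M = 2^q * 2^(M-q) := by
              rw [← pow_add, Nat.add_sub_cancel' (by omega)]
            have e3 : (0:ℝ) < 2^p := by positivity
            have e4 : (0:ℝ) < 2^(M-q) := by positivity
            rw [div_eq_div_iff e4.ne' e3.ne', ← e2, e1]
            ring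
          rw [h1]
          have h2 : (2:ℝ)^q / 2^p * ((2:ℝ)^a / 2^p) = (2:ℝ)^((q:ℝ) + a - 2 * p) := by
            rw [Real.rpow_sub (by norm_num), Real.rpow_add (by norm_num), Real.rpow_natCast,
              Real.rpow_natCast, two_mul, Real.rpow_add (by norm_num), Real.rpow_natCast]
            field_simp
          have h3 : (2:ℝ)^((q:ℝ) + a - 2 * p) ≤
              (2:ℝ)^(-(((p:ℝ) - a)/2)) * (2:ℝ)^(-(((a:ℝ) - q)/4)) := by
            rw [← Real.rpow_add (by norm_num)]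
            apply Real.rpow_le_rpow_of_exponent_le (by norm_num)
            have h4 : (a:ℝ) ≤ p := by exact_mod_cast hap.le
            have h5 : (q:ℝ) ≤ a := by exact_mod_cast hqa
            linarith
          calc ε * (8 * ((2:ℝ)^q / 2^p) * (2 * ((2:ℝ)^a / 2^p)))
              = 16 * ε * ((2:ℝ)^q / 2^p * ((2:ℝ)^a / 2^p)) := by ring
            _ = 16 * ε * (2:ℝ)^((q:ℝ) + a - 2 * p) := by rw [h2]
            _ ≤ 16 * ε * ((2:ℝ)^(-(((p:ℝ) - a)/2)) * (2:ℝ)^(-(((a:ℝ) - q)/4))) :=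
                mul_le_mul_of_nonneg_left h3 (by positivity)
            _ = _ := by ring

end BernT.ST4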