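import Pool.Agent.Helper643.BernT

open Finset Matrix



open Finset Matrix
namespace BernT.ST5
theorem t5_blk_sum (h q n : ℕ) (hh : 0 < h) (hq : q * h + h ≤ n) (f : ℕ → ℂ) :
    ∑ z ∈ range n, (if z / h = q then f z else 0) = ∑ k ∈ range h, f (q * h + k) := by
  rw [← Finset.sum_filter]
  have h1 : (range n).filter (fun z => z / h = q) = Finset.Ico (q * h) (q * h + h) := by
    ext z
    simp only [Finset.mem_filter, Finset.mem_range, Finset.mem_Ico]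
    constructor
    · rintro ⟨_, h2⟩
      rw [← h2]
      have := Nat.div_add_mod z h
      have h3 := Nat.mod_lt z hh
      constructor
      · exact Nat.div_mul_le_self z h
      · rw [mul_comm] at this; omega
    · rintro ⟨h2, h3⟩
      refine ⟨by omega, ?_⟩
      apply Nat.div_eq_of_lt_le
      · exact h2
      · rw [Nat.add_mul, one_mul]; exact h3
  rw [h1, Finset.sum_Ico_eq_sum_range]
  congr 1
  congr 1
  omega

/-- extension of a function on `Fin n` to `ℕ` -/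
def t5w (n : ℕ) (v : Fin n → ℂ) (k : ℕ) : ℂ := if hk : k < n then v ⟨k, hk⟩ else 0

theorem t5w_coe (n : ℕ) (v : Fin n → ℂ) (z : Fin n) : t5w n v z = v z := by
  unfold t5w
  rw [dif_pos z.2]

theorem t5_Em (M b : ℕ) (hb : b ≤ M) (v : Fin (2^M) → ℂ) (x : Fin (2^M)) :
    (Em M b *ᵥ v) x = ((2:ℂ)^(M-b))⁻¹ *
      ∑ k ∈ range (2^(M-b)), t5w (2^M) v (((x:ℕ) / 2^(M-b)) * 2^(M-b) + k) := by
  have hl : 0 < 2^(M-b) := by positivity
  have hn : 2^M = 2^b * 2^(M-b) := by rw [← pow_add]; congr 1; omega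
  have hq : (x:ℕ) / 2^(M-b) * 2^(M-b) + 2^(M-b) ≤ 2^M := by
    have h1 : (x:ℕ) / 2^(M-b) < 2^b := by
      rw [Nat.div_lt_iff_lt_mul hl, ← hn]; exact x.2
    calc (x:ℕ) / 2^(M-b) * 2^(M-b) + 2^(M-b) = ((x:ℕ) / 2^(M-b) + 1) * 2^(M-b) := by ring
      _ ≤ 2^b * 2^(M-b) := Nat.mul_le_mul_right _ h1
      _ = 2^M := hn.symm
  rw [Finset.mul_sum, ← t5_blk_sum (2^(M-b)) ((x:ℕ) / 2^(M-b)) (2^M) hl hq
    (fun k => ((2:ℂ)^(M-b))⁻¹ * t5w (2^M) v k),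
    ← Fin.sum_univ_eq_sum_range (fun z => if z / 2^(M-b) = (x:ℕ) / 2^(M-b) then
      ((2:ℂ)^(M-b))⁻¹ * t5w (2^M) v z else 0) (2^M)]
  unfold Matrix.mulVec dotProduct
  refine Finset.sum_congr rfl fun z _ => ?_
  rw [t5w_coe]
  unfold Em
  beta_reduce
  by_cases h : (x:ℕ) / 2^(M-b) = (z:ℕ) / 2^(M-b)
  · rw [if_pos h, if_pos h.symm]
  · rw [if_neg h, if_neg (fun h' => h h'.symm), zero_mul]

theorem t5_div (x h : ℕ) : x / (2 * h) = (x / h) / 2 := by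
  rw [Nat.div_div_eq_div_mul, mul_comm]

/-- a Haar function is constant on the half blocks -/
theorem t5_const (M a : ℕ) (ha : a < M) (v : Fin (2^M) → ℂ) (hv : Haar M a v)
    (x y : Fin (2^M)) (hxy : (x:ℕ) / 2^(M-(a+1)) = (y:ℕ) / 2^(M-(a+1))) : v x = v y := by
  have hL : 2^(M-a) = 2 * 2^(M-(a+1)) := by
    rw [← pow_succ']; congr 1; omega
  have h1 : ∀ z, v z = (Em M (a+1) *ᵥ v) z - (Em M a *ᵥ v) z := by
    intro z
    have h2 := congrFun hv z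
    unfold Dm at h2
    rw [Matrix.sub_mulVec, Pi.sub_apply] at h2
    exact h2.symm
  have h3 : (x:ℕ) / 2^(M-a) = (y:ℕ) / 2^(M-a) := by
    rw [hL, t5_div, t5_div, hxy]
  rw [h1 x, h1 y, t5_Em M (a+1) (by omega), t5_Em M (a+1) (by omega), t5_Em M a (by omega),
    t5_Em M a (by omega), hxy, h3]

theorem t5_const' (M a : ℕ) (ha : a < M) (v : Fin (2^M) → ℂ) (hv : Haar M a v)
    (q k : ℕ) (hq : q < 2^(a+1)) (hk : k < 2^(M-(a+1))) :
    t5w (2^M) v (q * 2^(M-(a+1)) + k) = t5w (2^M) v (q * 2^(M-(a+1))) := by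
  have hl : 0 < 2^(M-(a+1)) := by positivity
  have hn : 2^M = 2^(a+1) * 2^(M-(a+1)) := by rw [← pow_add]; congr 1; omega
  have h1 : q * 2^(M-(a+1)) + k < 2^M := by
    rw [hn]
    calc q * 2^(M-(a+1)) + k < q * 2^(M-(a+1)) + 2^(M-(a+1)) := by omega
      _ = (q + 1) * 2^(M-(a+1)) := by ring
      _ ≤ 2^(a+1) * 2^(M-(a+1)) := Nat.mul_le_mul_right _ hq
  have h2 : q * 2^(M-(a+1)) < 2^M := by omega
  unfold t5w
  rw [dif_pos h1, dif_pos h2]
  apply t5_const M a ha v hv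
  show (q * 2^(M-(a+1)) + k) / 2^(M-(a+1)) = (q * 2^(M-(a+1))) / 2^(M-(a+1))
  rw [Nat.mul_div_cancel _ hl, mul_comm q, Nat.mul_add_div hl, Nat.div_eq_of_lt hk, add_zero]

/-- a Haar function has zero sum on blocks -/
theorem t5_zero (M a : ℕ) (ha : a < M) (v : Fin (2^M) → ℂ) (hv : Haar M a v)
    (b : ℕ) (hb : b < 2^a) :
    ∑ k ∈ range (2^(M-a)), t5w (2^M) v (b * 2^(M-a) + k) = 0 := by
  have hl : 0 < 2^(M-(a+1)) := by positivity
  have hl' : 0 < 2^(M-a) := by positivity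
  have hL : 2^(M-a) = 2 * 2^(M-(a+1)) := by
    rw [← pow_succ']; congr 1; omega
  have hn : 2^M = 2^a * 2^(M-a) := by rw [← pow_add]; congr 1; omega
  have hbn : b * 2^(M-a) < 2^M := by
    rw [hn]; exact Nat.mul_lt_mul_of_pos_right hb hl'
  set x : Fin (2^M) := ⟨b * 2^(M-a), hbn⟩ with hx
  have h1 : v x = (Em M (a+1) *ᵥ v) x - (Em M a *ᵥ v) x := by
    have h2 := congrFun hv x
    unfold Dm at h2
    rw [Matrix.sub_mulVec, Pi.sub_apply] at h2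
    exact h2.symm
  have hxq : (x:ℕ) / 2^(M-(a+1)) = 2 * b := by
    show (b * 2^(M-a)) / 2^(M-(a+1)) = 2 * b
    rw [hL, show b * (2 * 2^(M-(a+1))) = (2 * b) * 2^(M-(a+1)) by ring, Nat.mul_div_cancel _ hl]
  have hxb : (x:ℕ) / 2^(M-a) = b := Nat.mul_div_cancel _ hl'
  have h2b : 2 * b < 2^(a+1) := by rw [pow_succ]; omega
  have h2 : (Em M (a+1) *ᵥ v) x = v x := by
    rw [t5_Em M (a+1) (by omega), hxq]
    rw [Finset.sum_congr rfl (fun k hk => t5_const' M a ha v hv (2*b) k h2b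
      (Finset.mem_range.1 hk)), Finset.sum_const, Finset.card_range, nsmul_eq_mul]
    have h3 : t5w (2^M) v (2 * b * 2^(M-(a+1))) = v x := by
      rw [← t5w_coe (2^M) v x]
      congr 1
      show 2 * b * 2^(M-(a+1)) = b * 2^(M-a)
      rw [hL]; ring
    rw [h3]
    push_cast
    rw [← mul_assoc, inv_mul_cancel₀ (pow_ne_zero _ two_ne_zero), one_mul]
  rw [h2] at h1
  have h4 : (Em M a *ᵥ v) x = 0 := by
    have := h1
    linear_combination this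
  rw [t5_Em M a (by omega), hxb] at h4
  rcases mul_eq_zero.1 h4 with h5 | h5
  · exact absurd h5 (inv_ne_zero (pow_ne_zero _ two_ne_zero))
  · exact h5

theorem t5_part (M a : ℕ) (ha : a < M) (v : Fin (2^M) → ℂ) (hv : Haar M a v)
    (b : ℕ) (hb : b ≤ 2^a) :
    ∑ k ∈ range (b * 2^(M-a)), t5w (2^M) v k = 0 := by
  induction b with
  | zero => simp
  | succ b ih =>
    rw [show (b + 1) * 2^(M-a) = b * 2^(M-a) + 2^(M-a) by ring, Finset.sum_range_add,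
      ih (by omega), t5_zero M a ha v hv b (by omega), add_zero]

theorem t5_norm (M a : ℕ) (ha : a < M) (v : Fin (2^M) → ℂ) (hv : Haar M a v)
    (b i : ℕ) (hb : b < 2^a) (hi : i < 2^(M-a)) :
    ‖t5w (2^M) v (b * 2^(M-a) + i)‖ = ‖t5w (2^M) v (b * 2^(M-a))‖ := by
  have hl : 0 < 2^(M-(a+1)) := by positivity
  have hL : 2^(M-a) = 2 * 2^(M-(a+1)) := by
    rw [← pow_succ']; congr 1; omega
  have h2b : 2 * b < 2^(a+1) := by rw [pow_succ]; omega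
  have h2b' : 2 * b + 1 < 2^(a+1) := by rw [pow_succ]; omega
  set h := 2^(M-(a+1)) with hh
  set c1 := t5w (2^M) v (2 * b * h) with hc1
  set c2 := t5w (2^M) v ((2 * b + 1) * h) with hc2
  have e1 : ∀ k, k < h → t5w (2^M) v (b * 2^(M-a) + k) = c1 := by
    intro k hk
    rw [hc1, ← t5_const' M a ha v hv (2*b) k h2b hk, hL]
    congr 1
    ring
  have e2 : ∀ k, k < h → t5w (2^M) v (b * 2^(M-a) + (h + k)) = c2 := by
    intro k hk
    rw [hc2, ← t5_const' M a ha v hv (2*b+1) k h2b' hk, hL]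
    congr 1
    ring
  have h0 := t5_zero M a ha v hv b hb
  rw [show range (2^(M-a)) = range (h + h) by rw [hL, two_mul], Finset.sum_range_add,
    Finset.sum_congr rfl (fun k hk => e1 k (Finset.mem_range.1 hk)),
    Finset.sum_congr rfl (fun k hk => e2 k (Finset.mem_range.1 hk)), Finset.sum_const,
    Finset.sum_const, Finset.card_range, nsmul_eq_mul, nsmul_eq_mul, ← mul_add] at h0
  have h3 : c1 + c2 = 0 := by
    rcases mul_eq_zero.1 h0 with h4 | h4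
    · exact absurd (Nat.cast_eq_zero.1 h4) hl.ne'
    · exact h4
  have h4 : ‖c2‖ = ‖c1‖ := by
    rw [show c2 = -c1 by linear_combination h3, norm_neg]
  have h5 : t5w (2^M) v (b * 2^(M-a)) = c1 := by
    have := e1 0 hl
    rwa [add_zero] at this
  rw [h5]
  by_cases hi' : i < h
  · rw [e1 i hi']
  · have h6 : i = h + (i - h) := by omega
    rw [h6, e2 (i - h) (by omega), h4]

/-- the primitive -/
noncomputable def t5H (n : ℕ) (v : Fin n → ℂ) (z : Fin n) : ℂ :=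
  ∑ k ∈ range ((z:ℕ) + 1), t5w n v k

theorem t5_Hbound (M a : ℕ) (ha : a < M) (v : Fin (2^M) → ℂ) (hv : Haar M a v)
    (z : Fin (2^M)) : ‖t5H (2^M) v z‖ ≤ 2^(M-a) * ‖v z‖ := by
  have hl' : 0 < 2^(M-a) := by positivity
  have hn : 2^M = 2^a * 2^(M-a) := by rw [← pow_add]; congr 1; omega
  have hb : (z:ℕ) / 2^(M-a) < 2^a := by
    rw [Nat.div_lt_iff_lt_mul hl', ← hn]; exact z.2
  have ho : (z:ℕ) % 2^(M-a) < 2^(M-a) := Nat.mod_lt _ hl'
  have hz : (z:ℕ) = (z:ℕ) / 2^(M-a) * 2^(M-a) + (z:ℕ) % 2^(M-a) := by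
    rw [mul_comm]; exact (Nat.div_add_mod _ _).symm
  set b := (z:ℕ) / 2^(M-a) with hbdef
  set o := (z:ℕ) % 2^(M-a) with hodef
  unfold t5H
  rw [show (z:ℕ) + 1 = b * 2^(M-a) + (o + 1) by omega, Finset.sum_range_add,
    t5_part M a ha v hv b hb.le, zero_add]
  have h1 : ‖v z‖ = ‖t5w (2^M) v (b * 2^(M-a))‖ := by
    rw [← t5w_coe (2^M) v z, hz]
    exact t5_norm M a ha v hv b o hb ho
  refine (norm_sum_le _ _).trans ?_
  rw [Finset.sum_congr rfl (fun i hi => t5_norm M a ha v hv b i hb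
    (by have := Finset.mem_range.1 hi; omega)), Finset.sum_const, Finset.card_range,
    nsmul_eq_mul, ← h1]
  apply mul_le_mul_of_nonneg_right _ (norm_nonneg _)
  have : ((o + 1 : ℕ) : ℝ) ≤ ((2^(M-a) : ℕ) : ℝ) := Nat.cast_le.2 (by omega)
  push_cast at this ⊢
  exact this

theorem t5_Sh (M : ℕ) (g : Fin (2^M) → ℂ) (z w0 : Fin (2^M)) (h : ((w0:ℕ) + 1) % 2^M = z) :
    (Sh M *ᵥ g) z = g w0 := by
  unfold Matrix.mulVec dotProduct Sh
  rw [Finset.sum_eq_single w0]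
  · beta_reduce
    rw [if_pos h, one_mul]
  · intro w _ hw
    beta_reduce
    rw [if_neg, zero_mul]
    intro h'
    apply hw
    rw [← h] at h'
    have h1 := w.2
    have h2 := w0.2
    apply Fin.ext
    have hm : (w:ℕ) + 1 ≡ (w0:ℕ) + 1 [MOD 2^M] := h'
    have hm2 : (w:ℕ) ≡ (w0:ℕ) [MOD 2^M] := Nat.ModEq.add_right_cancel' 1 hm
    exact Nat.ModEq.eq_of_lt_of_lt hm2 h1 h2
  · intro h'
    exact absurd (Finset.mem_univ _) h'

theorem t5_HSh (M a : ℕ) (ha : a < M) (v : Fin (2^M) → ℂ) (hv : Haar M a v)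
    (z : Fin (2^M)) : v z = t5H (2^M) v z - (Sh M *ᵥ t5H (2^M) v) z := by
  have hp : 0 < 2^M := by positivity
  have hn : 2^M = 2^a * 2^(M-a) := by rw [← pow_add]; congr 1; omega
  by_cases h0 : (z:ℕ) = 0
  · have h1 : (((⟨2^M - 1, by omega⟩ : Fin (2^M)) : ℕ) + 1) % 2^M = z := by
      show (2^M - 1 + 1) % 2^M = (z:ℕ)
      rw [Nat.sub_add_cancel hp, Nat.mod_self, h0]
    rw [t5_Sh M _ z _ h1]
    unfold t5H
    show v z = _ - ∑ k ∈ range (2^M - 1 + 1), t5w (2^M) v k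
    rw [Nat.sub_add_cancel hp]
    have h2 := t5_part M a ha v hv (2^a) le_rfl
    rw [← hn] at h2
    rw [h2, sub_zero, h0, zero_add, Finset.sum_range_one, ← t5w_coe (2^M) v z, h0]
  · have h1 : (((⟨(z:ℕ) - 1, by omega⟩ : Fin (2^M)) : ℕ) + 1) % 2^M = z := by
      show ((z:ℕ) - 1 + 1) % 2^M = (z:ℕ)
      rw [Nat.sub_add_cancel (by omega), Nat.mod_eq_of_lt z.2]
    rw [t5_Sh M _ z _ h1]
    unfold t5H
    show v z = _ - ∑ k ∈ range ((z:ℕ) - 1 + 1), t5w (2^M) v k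
    rw [Nat.sub_add_cancel (by omega), Finset.sum_range_succ, t5w_coe]
    ring

theorem t5_reindex (M : ℕ) (f : ℤ → ℂ) (hper : ∀ j, f (j + 2^M) = f j) (g : Fin (2^M) → ℂ)
    (x : Fin (2^M)) :
    ∑ z : Fin (2^M), f ((x:ℤ) - (z:ℤ)) * (Sh M *ᵥ g) z =
      ∑ z : Fin (2^M), f ((x:ℤ) - (z:ℤ) - 1) * g z := by
  have hp : 0 < 2^M := by positivity
  unfold Matrix.mulVec dotProduct Sh
  simp only [Finset.mul_sum]
  rw [Finset.sum_comm]
  refine Finset.sum_congr rfl fun w _ => ?_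
  rw [Finset.sum_eq_single (⟨((w:ℕ) + 1) % 2^M, Nat.mod_lt _ hp⟩ : Fin (2^M))]
  · rw [if_pos rfl, one_mul]
    congr 1
    by_cases h : (w:ℕ) + 1 < 2^M
    · congr 1
      show (x:ℤ) - (((w:ℕ) + 1) % 2^M : ℕ) = _
      rw [Nat.mod_eq_of_lt h]
      push_cast
      ring
    · have h1 : (w:ℕ) + 1 = 2^M := by have := w.2; omega
      rw [← hper ((x:ℤ) - (w:ℤ) - 1)]
      congr 1
      show (x:ℤ) - (((w:ℕ) + 1) % 2^M : ℕ) = _
      rw [h1, Nat.mod_self]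
      have h2 : (w:ℤ) + 1 = 2^M := by exact_mod_cast h1
      push_cast
      linear_combination h2
  · intro z _ hz
    rw [if_neg, zero_mul, mul_zero]
    intro h
    exact hz (Fin.ext h.symm)
  · intro h'
    exact absurd (Finset.mem_univ _) h'

theorem kAm (M a p : ℕ) (hpa : p ≤ a) (ha : a < M) (A : ℝ) (hA : 0 ≤ A) (κ : ℤ → ℂ)
    (hper : ∀ j, κ (j + 2^M) = κ j)
    (hκ : ∀ j, ‖κ j - κ (j-1)‖ ≤ A * 2^p / 4^M * wt M p j) :
    ∀ v, Haar M a v → ∀ x, ‖(Cm M κ *ᵥ v) x‖ ≤ A * (1/2)^(a-p) / 2^M *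
      ∑ z : Fin (2^M), wt M p ((x:ℤ) - (z:ℤ)) * ‖v z‖ := by
  intro v hv x
  have h1 : (Cm M κ *ᵥ v) x = ∑ z : Fin (2^M),
      (κ ((x:ℤ) - (z:ℤ)) - κ ((x:ℤ) - (z:ℤ) - 1)) * t5H (2^M) v z := by
    have h2 : (Cm M κ *ᵥ v) x = ∑ z : Fin (2^M), κ ((x:ℤ) - (z:ℤ)) * v z := rfl
    rw [h2]
    simp only [sub_mul]
    rw [Finset.sum_sub_distrib, ← t5_reindex M κ hper (t5H (2^M) v) x,
      ← Finset.sum_sub_distrib]
    refine Finset.sum_congr rfl fun z _ => ?_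
    conv_lhs => rw [t5_HSh M a ha v hv z]
    ring
  rw [h1, Finset.mul_sum]
  refine (norm_sum_le _ _).trans (Finset.sum_le_sum fun z _ => ?_)
  rw [norm_mul]
  have hw : 0 ≤ wt M p ((x:ℤ) - (z:ℤ)) := by unfold wt; positivity
  calc ‖κ ((x:ℤ) - (z:ℤ)) - κ ((x:ℤ) - (z:ℤ) - 1)‖ * ‖t5H (2^M) v z‖
      ≤ (A * 2^p / 4^M * wt M p ((x:ℤ) - (z:ℤ))) * (2^(M-a) * ‖v z‖) :=
        mul_le_mul (hκ _) (t5_Hbound M a ha v hv z) (norm_nonneg _) (by positivity)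
    _ = (A * ((2:ℝ)^p * 2^(M-a) / 4^M)) * (wt M p ((x:ℤ) - (z:ℤ)) * ‖v z‖) := by ring
    _ = A * (1/2)^(a-p) / 2^M * (wt M p ((x:ℤ) - (z:ℤ)) * ‖v z‖) := by
        have h3 : (2:ℝ)^p * 2^(M-a) / 4^M = (1/2)^(a-p) / 2^M := by
          rw [div_eq_div_iff (by positivity) (by positivity), one_div, inv_pow,
            show (4:ℝ) = 2 * 2 by norm_num, mul_pow]
          have h4 : (2:ℝ)^M = 2^(M-a) * 2^(a-p) * 2^p := by
            rw [← pow_add, ← pow_add]; congr 1; omega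
          have h5 : ((2:ℝ)^(a-p)) ≠ 0 := by positivity
          field_simp
          rw [h4]
          ring
        rw [h3]
        ring

theorem kBm (M p : ℕ) (A : ℝ) (hA : 0 ≤ A) (κ κ' : ℤ → ℂ)
    (hper : ∀ j, κ' (j + 2^M) = κ' j) (hd : ∀ j, κ j = κ' j - κ' (j-1))
    (hκ : ∀ j, ‖κ' j‖ ≤ A / (1 + 2^p * |Real.sin (Real.pi * (j:ℝ) / 2^M)|)^2) :
    ∀ v, ∀ x : Fin (2^M), ‖(Cm M κ *ᵥ v) x‖ ≤ A *
      ∑ z : Fin (2^M), ‖v z - (Sh M *ᵥ v) z‖ /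
        (1 + 2^p * |Real.sin (Real.pi * (((x:ℤ) - (z:ℤ) : ℤ) : ℝ) / 2^M)|)^2 := by
  intro v x
  have h1 : (Cm M κ *ᵥ v) x = ∑ z : Fin (2^M), κ' ((x:ℤ) - (z:ℤ)) * (v z - (Sh M *ᵥ v) z) := by
    have h2 : (Cm M κ *ᵥ v) x = ∑ z : Fin (2^M), κ ((x:ℤ) - (z:ℤ)) * v z := rfl
    rw [h2]
    simp only [hd, sub_mul, mul_sub]
    rw [Finset.sum_sub_distrib, Finset.sum_sub_distrib, t5_reindex M κ' hper v x]
  rw [h1, Finset.mul_sum]
  refine (norm_sum_le _ _).trans (Finset.sum_le_sum fun z _ => ?_)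
  rw [norm_mul]
  calc ‖κ' ((x:ℤ) - (z:ℤ))‖ * ‖v z - (Sh M *ᵥ v) z‖
      ≤ (A / (1 + 2^p * |Real.sin (Real.pi * (((x:ℤ) - (z:ℤ) : ℤ) : ℝ) / 2^M)|)^2) *
        ‖v z - (Sh M *ᵥ v) z‖ := mul_le_mul_of_nonneg_right (hκ _) (norm_nonneg _)
    _ = _ := by ring

end BernT.ST5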