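import Pool.Agent.Helper643.BernT

open Finset Matrix



open Finset Matrix
namespace BernT.ST7
/-- extension by zero to the natural numbers -/
noncomputable def kvE (M : ℕ) (v : Fin (2^M) → ℂ) (w : ℕ) : ℂ :=
  if h : w < 2^M then v ⟨w, h⟩ else 0

theorem kvE_coe (M : ℕ) (v : Fin (2^M) → ℂ) (z : Fin (2^M)) : kvE M v z = v z := by
  simp [kvE]

theorem kvE_lt (M : ℕ) (v : Fin (2^M) → ℂ) (w : ℕ) (h : w < 2^M) : kvE M v w = v ⟨w, h⟩ := by
  simp [kvE, h]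

theorem kv_block (M b : ℕ) (hb : b ≤ M) (x : Fin (2^M)) :
    (range (2^M)).filter (fun z => (x:ℕ) / 2^(M-b) = z / 2^(M-b)) =
      Ico (2^(M-b) * ((x:ℕ) / 2^(M-b))) (2^(M-b) * ((x:ℕ) / 2^(M-b)) + 2^(M-b)) := by
  have hL : 0 < 2^(M-b) := by positivity
  have hM : 2^M = 2^(M-b) * 2^b := by rw [← pow_add]; congr 1; omega
  have hq : (x:ℕ) / 2^(M-b) < 2^b := Nat.div_lt_of_lt_mul (by rw [← hM]; exact x.2)
  have hle : 2^(M-b) * ((x:ℕ) / 2^(M-b)) + 2^(M-b) ≤ 2^M := by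
    calc 2^(M-b) * ((x:ℕ) / 2^(M-b)) + 2^(M-b) = 2^(M-b) * ((x:ℕ) / 2^(M-b) + 1) := by ring
      _ ≤ 2^(M-b) * 2^b := Nat.mul_le_mul_left _ hq
      _ = 2^M := hM.symm
  ext z
  simp only [mem_filter, mem_range, mem_Ico]
  constructor
  · rintro ⟨_, h2⟩
    rw [h2]
    refine ⟨Nat.mul_div_le z _, ?_⟩
    have := Nat.lt_mul_div_succ z hL
    linarith
  · rintro ⟨h1, h2⟩
    refine ⟨lt_of_lt_of_le h2 hle, ?_⟩
    symm
    apply Nat.div_eq_of_lt_le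
    · rw [mul_comm]; exact h1
    · calc z < 2^(M-b) * ((x:ℕ) / 2^(M-b)) + 2^(M-b) := h2
        _ = ((x:ℕ) / 2^(M-b) + 1) * 2^(M-b) := by ring

theorem kv_Em (M b : ℕ) (hb : b ≤ M) (v : Fin (2^M) → ℂ) (x : Fin (2^M)) :
    (Em M b *ᵥ v) x = ((2:ℂ)^(M-b))⁻¹ *
      ∑ w ∈ Ico (2^(M-b) * ((x:ℕ) / 2^(M-b))) (2^(M-b) * ((x:ℕ) / 2^(M-b)) + 2^(M-b)),
        kvE M v w := by
  rw [← kv_block M b hb x, Finset.mul_sum, Finset.sum_filter]
  simp only [Matrix.mulVec, dotProduct, Em]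
  rw [← Fin.sum_univ_eq_sum_range
    (fun w => if (x:ℕ)/2^(M-b) = w/2^(M-b) then ((2:ℂ)^(M-b))⁻¹ * kvE M v w else 0) (2^M)]
  refine sum_congr rfl fun z _ => ?_
  rw [kvE_coe]
  split_ifs <;> simp

/-- variation bound for the average -/
theorem kv_avg (M b : ℕ) (hb : b ≤ M) (g : Fin (2^M) → ℂ) (x : Fin (2^M)) (C : ℝ)
    (h : ∀ w : Fin (2^M), (x:ℕ) / 2^(M-b) = (w:ℕ) / 2^(M-b) → ‖g w - g x‖ ≤ C) :
    ‖(Em M b *ᵥ g) x - g x‖ ≤ C := by
  have hL : (0:ℝ) < 2^(M-b) := by positivity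
  have hL' : ((2:ℂ)^(M-b)) ≠ 0 := pow_ne_zero _ two_ne_zero
  rw [kv_Em M b hb g x]
  have e : ((2:ℂ)^(M-b))⁻¹ *
      ∑ w ∈ Ico (2^(M-b) * ((x:ℕ) / 2^(M-b))) (2^(M-b) * ((x:ℕ) / 2^(M-b)) + 2^(M-b)),
        kvE M g w - g x = ((2:ℂ)^(M-b))⁻¹ *
      ∑ w ∈ Ico (2^(M-b) * ((x:ℕ) / 2^(M-b))) (2^(M-b) * ((x:ℕ) / 2^(M-b)) + 2^(M-b)),
        (kvE M g w - g x) := by
    rw [Finset.sum_sub_distrib, mul_sub, Finset.sum_const, Nat.card_Ico, Nat.add_sub_cancel_left,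
      nsmul_eq_mul]
    push_cast
    rw [← mul_assoc, inv_mul_cancel₀ hL', one_mul]
  rw [e, norm_mul, norm_inv, norm_pow, Complex.norm_ofNat]
  rw [inv_mul_le_iff₀ hL]
  refine (norm_sum_le _ _).trans ?_
  have h2 : ∀ w ∈ Ico (2^(M-b) * ((x:ℕ) / 2^(M-b))) (2^(M-b) * ((x:ℕ) / 2^(M-b)) + 2^(M-b)),
      ‖kvE M g w - g x‖ ≤ C := by
    intro w hw
    rw [← kv_block M b hb x, mem_filter, mem_range] at hw
    rw [kvE_lt M g w hw.1]
    exact h ⟨w, hw.1⟩ hw.2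
  refine (Finset.sum_le_sum h2).trans (le_of_eq ?_)
  rw [Finset.sum_const, Nat.card_Ico, Nat.add_sub_cancel_left, nsmul_eq_mul]
  push_cast
  rfl

/-- variation bound for a Haar block -/
theorem kv_Dm (M a' : ℕ) (g : Fin (2^M) → ℂ) (x : Fin (2^M)) (G : ℝ) (hG : 0 ≤ G)
    (h : a' < M → ∀ u w : Fin (2^M), (u:ℕ) / 2^(M-a') = (x:ℕ) / 2^(M-a') →
      (u:ℕ) = w + 1 → ‖g u - g w‖ ≤ G) :
    ‖(Dm M a' *ᵥ g) x‖ ≤ 2 * (2^(M-a') * G) := by
  rcases Nat.lt_or_ge a' M with ha | ha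
  · have h := h ha
    have hL : 0 < 2^(M-a') := by positivity
    have hvar : ∀ n : ℕ, ∀ u w : Fin (2^M), (u:ℕ) / 2^(M-a') = (x:ℕ) / 2^(M-a') →
        (w:ℕ) / 2^(M-a') = (x:ℕ) / 2^(M-a') → (u:ℕ) = w + n → ‖g u - g w‖ ≤ n * G := by
      intro n
      induction n with
      | zero =>
        intro u w _ _ huw
        have : u = w := Fin.ext (by simpa using huw)
        rw [this, sub_self, norm_zero]
        simp
      | succ n ih =>
        intro u w hu hw huw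
        have hm : (w:ℕ) + n < 2^M := by have := u.2; omega
        have hm2 : ((⟨w + n, hm⟩ : Fin (2^M)) : ℕ) / 2^(M-a') = (x:ℕ) / 2^(M-a') := by
          apply le_antisymm
          · rw [← hu]
            exact Nat.div_le_div_right (by simp only; omega)
          · rw [← hw]
            exact Nat.div_le_div_right (by simp only; omega)
        have h1 := h u ⟨w + n, hm⟩ hu (by simp only; omega)
        have h2 := ih ⟨w + n, hm⟩ w hm2 hw rfl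
        calc ‖g u - g w‖ = ‖(g u - g ⟨w + n, hm⟩) + (g ⟨w + n, hm⟩ - g w)‖ := by congr 1; ring
          _ ≤ ‖g u - g ⟨w + n, hm⟩‖ + ‖g ⟨w + n, hm⟩ - g w‖ := norm_add_le _ _
          _ ≤ G + n * G := add_le_add h1 h2
          _ = ((n + 1 : ℕ) : ℝ) * G := by push_cast; ring
    have hblk : ∀ w : Fin (2^M), (w:ℕ) / 2^(M-a') = (x:ℕ) / 2^(M-a') →
        ‖g w - g x‖ ≤ 2^(M-a') * G := by
      intro w hw
      have e1 := Nat.div_add_mod (w:ℕ) (2^(M-a'))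
      have e2 := Nat.div_add_mod (x:ℕ) (2^(M-a'))
      have e3 := Nat.mod_lt (w:ℕ) hL
      have e4 := Nat.mod_lt (x:ℕ) hL
      rw [hw] at e1
      rcases le_total (x:ℕ) (w:ℕ) with hxw | hxw
      · obtain ⟨n, hn⟩ := Nat.exists_eq_add_of_le hxw
        have hn2 : n ≤ 2^(M-a') := by omega
        refine (hvar n w x hw rfl hn).trans (mul_le_mul_of_nonneg_right ?_ hG)
        exact_mod_cast hn2
      · obtain ⟨n, hn⟩ := Nat.exists_eq_add_of_le hxw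
        have hn2 : n ≤ 2^(M-a') := by omega
        rw [norm_sub_rev]
        refine (hvar n x w rfl hw hn).trans (mul_le_mul_of_nonneg_right ?_ hG)
        exact_mod_cast hn2
    have k1 := kv_avg M a' ha.le g x (2^(M-a') * G) fun w hw => hblk w hw.symm
    have k2 := kv_avg M (a' + 1) ha g x (2^(M-a') * G) fun w hw => by
      apply hblk w
      have e : 2^(M-a') = 2^(M-(a'+1)) * 2 := by
        rw [← pow_succ]; congr 1; omega
      rw [e, ← Nat.div_div_eq_div_mul, ← Nat.div_div_eq_div_mul, hw]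
    have e : (Dm M a' *ᵥ g) x = ((Em M (a' + 1) *ᵥ g) x - g x) - ((Em M a' *ᵥ g) x - g x) := by
      rw [Dm, Matrix.sub_mulVec, Pi.sub_apply]
      ring
    rw [e]
    refine (norm_sub_le _ _).trans ?_
    linarith
  · have e : Dm M a' = 0 := by
      have h1 : M - (a' + 1) = 0 := by omega
      have h2 : M - a' = 0 := by omega
      unfold Dm Em
      rw [h1, h2]
      simp
    rw [e, Matrix.zero_mulVec, Pi.zero_apply, norm_zero]
    positivity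

theorem kv_Sh (M : ℕ) (f : Fin (2^M) → ℂ) (x z0 : Fin (2^M)) (h : ((z0:ℕ) + 1) % 2^M = (x:ℕ)) :
    (Sh M *ᵥ f) x = f z0 := by
  simp only [Matrix.mulVec, dotProduct, Sh]
  rw [Finset.sum_eq_single z0]
  · rw [if_pos h, one_mul]
  · intro z _ hz
    rw [if_neg, zero_mul]
    intro h2
    apply hz
    have h3 : (z:ℕ) + 1 ≡ z0 + 1 [MOD 2^M] := h2.trans h.symm
    have h4 : (z:ℕ) ≡ z0 [MOD 2^M] := Nat.ModEq.add_right_cancel' 1 h3
    have h5 : (z:ℕ) % 2^M = z0 % 2^M := h4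
    rw [Nat.mod_eq_of_lt z.2, Nat.mod_eq_of_lt z0.2] at h5
    exact Fin.ext h5
  · intro h
    exact absurd (mem_univ _) h

/-- cyclic summation by parts -/
theorem kv_shift (M : ℕ) (κ : ℤ → ℂ) (hper : ∀ j, κ (j + 2^M) = κ j) (H : Fin (2^M) → ℂ) (x : ℤ) :
    ∑ z : Fin (2^M), κ (x - (z:ℤ)) * (Sh M *ᵥ H) z = ∑ z : Fin (2^M), κ (x - 1 - (z:ℤ)) * H z := by
  have e1 : ∀ z : Fin (2^M), κ (x - (z:ℤ)) * (Sh M *ᵥ H) z =
      ∑ w : Fin (2^M), if z = ⟨((w:ℕ) + 1) % 2^M, Nat.mod_lt _ (by positivity)⟩ then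
        κ (x - (z:ℤ)) * H w else 0 := by
    intro z
    simp only [Matrix.mulVec, dotProduct, Sh]
    rw [Finset.mul_sum]
    refine sum_congr rfl fun w _ => ?_
    by_cases hw : ((w:ℕ) + 1) % 2^M = (z:ℕ)
    · rw [if_pos hw, if_pos (Fin.ext hw.symm), one_mul]
    · rw [if_neg hw, if_neg (fun h => hw (by rw [h])), zero_mul, mul_zero]
  rw [Finset.sum_congr rfl fun z _ => e1 z, Finset.sum_comm]
  refine sum_congr rfl fun w _ => ?_
  rw [Finset.sum_ite_eq' univ]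
  rw [if_pos (mem_univ _)]
  congr 1
  simp only
  rcases Nat.lt_or_ge ((w:ℕ) + 1) (2^M) with h | h
  · rw [Nat.mod_eq_of_lt h]
    congr 1
    push_cast
    ring
  · have h2 : (w:ℕ) + 1 = 2^M := le_antisymm w.2 h
    rw [h2, Nat.mod_self, ← hper (x - 1 - (w:ℤ))]
    congr 1
    have h3 : ((w:ℕ):ℤ) + 1 = 2^M := by exact_mod_cast h2
    rw [← h3]
    push_cast
    ring

/-- structure of Haar functions -/
theorem kv_haar (M a : ℕ) (ha : a < M) (v : Fin (2^M) → ℂ) (hv : Haar M a v) (q : ℕ)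
    (hq : q < 2^a) : ∃ c : ℂ,
      (∀ w, 2 * 2^(M-(a+1)) * q ≤ w → w < 2 * 2^(M-(a+1)) * q + 2^(M-(a+1)) → kvE M v w = c) ∧
      (∀ w, 2 * 2^(M-(a+1)) * q + 2^(M-(a+1)) ≤ w →
        w < 2 * 2^(M-(a+1)) * q + 2 * 2^(M-(a+1)) → kvE M v w = -c) := by
  have hl : 0 < 2^(M-(a+1)) := by positivity
  have hL : 2^(M-a) = 2 * 2^(M-(a+1)) := by rw [← pow_succ']; congr 1; omega
  have hLC : (2:ℂ)^(M-a) = 2 * 2^(M-(a+1)) := by rw [← pow_succ']; congr 1; omega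
  have hM : 2^M = 2 * 2^(M-(a+1)) * 2^a := by rw [← hL, ← pow_add]; congr 1; omega
  have hle : 2 * 2^(M-(a+1)) * q + 2 * 2^(M-(a+1)) ≤ 2^M := by
    calc 2 * 2^(M-(a+1)) * q + 2 * 2^(M-(a+1)) = 2 * 2^(M-(a+1)) * (q + 1) := by ring
      _ ≤ 2 * 2^(M-(a+1)) * 2^a := Nat.mul_le_mul_left _ hq
      _ = 2^M := hM.symm
  have hne : (2:ℂ)^(M-(a+1)) ≠ 0 := pow_ne_zero _ two_ne_zero
  -- value of `v` at a point of the block
  have key : ∀ w, w < 2^M → kvE M v w = ((2:ℂ)^(M-(a+1)))⁻¹ *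
      ∑ w' ∈ Ico (2^(M-(a+1)) * (w / 2^(M-(a+1)))) (2^(M-(a+1)) * (w / 2^(M-(a+1))) + 2^(M-(a+1))),
        kvE M v w' - (2 * (2:ℂ)^(M-(a+1)))⁻¹ *
      ∑ w' ∈ Ico (2 * 2^(M-(a+1)) * (w / (2 * 2^(M-(a+1)))))
        (2 * 2^(M-(a+1)) * (w / (2 * 2^(M-(a+1)))) + 2 * 2^(M-(a+1))), kvE M v w' := by
    intro w hw
    have h1 : (Dm M a *ᵥ v) ⟨w, hw⟩ = v ⟨w, hw⟩ := congrFun hv _
    rw [Dm, Matrix.sub_mulVec, Pi.sub_apply, kv_Em M (a+1) ha, kv_Em M a ha.le] at h1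
    rw [kvE_lt M v w hw, ← h1, hLC, hL]
  generalize 2^(M-(a+1)) = l at *
  generalize (2:ℂ)^(M-(a+1)) = lC at *
  have hsplit : ∑ w' ∈ Ico (2 * l * q) (2 * l * q + 2 * l), kvE M v w' =
      ∑ w' ∈ Ico (2 * l * q) (2 * l * q + l), kvE M v w' +
      ∑ w' ∈ Ico (2 * l * q + l) (2 * l * q + 2 * l), kvE M v w' :=
    (Finset.sum_Ico_consecutive _ (by omega) (by omega)).symm
  refine ⟨(2 * lC)⁻¹ * (∑ w' ∈ Ico (2 * l * q) (2 * l * q + l), kvE M v w' -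
    ∑ w' ∈ Ico (2 * l * q + l) (2 * l * q + 2 * l), kvE M v w'), ?_, ?_⟩
  · intro w h1 h2
    have d1 : w / l = 2 * q := by
      apply Nat.div_eq_of_lt_le
      · calc 2 * q * l = 2 * l * q := by ring
          _ ≤ w := h1
      · calc w < 2 * l * q + l := h2
          _ = (2 * q + 1) * l := by ring
    have d2 : w / (2 * l) = q := by
      apply Nat.div_eq_of_lt_le
      · calc q * (2 * l) = 2 * l * q := by ring
          _ ≤ w := h1
      · calc w < 2 * l * q + l := h2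
          _ ≤ (q + 1) * (2 * l) := by nlinarith
    rw [key w (by omega), d1, d2, hsplit, show l * (2 * q) = 2 * l * q by ring]
    field_simp
    ring
  · intro w h1 h2
    have d1 : w / l = 2 * q + 1 := by
      apply Nat.div_eq_of_lt_le
      · calc (2 * q + 1) * l = 2 * l * q + l := by ring
          _ ≤ w := h1
      · calc w < 2 * l * q + 2 * l := h2
          _ = (2 * q + 1 + 1) * l := by ring
    have d2 : w / (2 * l) = q := by
      apply Nat.div_eq_of_lt_le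
      · calc q * (2 * l) = 2 * l * q := by ring
          _ ≤ w := by omega
      · calc w < 2 * l * q + 2 * l := h2
          _ = (q + 1) * (2 * l) := by ring
    rw [key w (by omega), d1, d2, hsplit, show l * (2 * q + 1) = 2 * l * q + l by ring,
      show 2 * l * q + l + l = 2 * l * q + 2 * l by ring]
    field_simp
    ring

/-- the primitive of a Haar function -/
theorem kv_prim (M a : ℕ) (ha : a < M) (v : Fin (2^M) → ℂ) (hv : Haar M a v) :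
    ∃ H : Fin (2^M) → ℂ, (∀ z, v z = H z - (Sh M *ᵥ H) z) ∧ ∀ z, ‖H z‖ ≤ 2^(M-a) * ‖v z‖ := by
  have hl : 0 < 2^(M-(a+1)) := by positivity
  have hL : 2^(M-a) = 2 * 2^(M-(a+1)) := by rw [← pow_succ']; congr 1; omega
  have hLR : (2:ℝ)^(M-a) = ((2 * 2^(M-(a+1)) : ℕ) : ℝ) := by rw [← hL]; push_cast; rfl
  have hM : 2^M = 2 * 2^(M-(a+1)) * 2^a := by rw [← hL, ← pow_add]; congr 1; omega
  have key := kv_haar M a ha v hv
  rw [hLR]
  generalize 2^(M-(a+1)) = l at *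
  -- full blocks
  have hfull : ∀ q ≤ 2^a, ∑ w ∈ range (2 * l * q), kvE M v w = 0 := by
    intro q
    induction q with
    | zero => intro _; simp
    | succ q ih =>
      intro hq
      obtain ⟨c, hc1, hc2⟩ := key q hq
      have e1 : ∑ w ∈ range (2 * l * (q + 1)), kvE M v w =
          ∑ w ∈ range (2 * l * q), kvE M v w +
          (∑ w ∈ Ico (2 * l * q) (2 * l * q + l), kvE M v w +
            ∑ w ∈ Ico (2 * l * q + l) (2 * l * q + 2 * l), kvE M v w) := by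
        rw [Finset.sum_Ico_consecutive _ (by omega) (by omega), Finset.range_eq_Ico,
          Finset.range_eq_Ico, Finset.sum_Ico_consecutive _ (by omega) (by omega)]
        congr 1
      have e2 : ∑ w ∈ Ico (2 * l * q) (2 * l * q + l), kvE M v w = l * c := by
        rw [Finset.sum_congr rfl fun w hw => hc1 w (mem_Ico.1 hw).1 (mem_Ico.1 hw).2,
          Finset.sum_const, Nat.card_Ico, Nat.add_sub_cancel_left, nsmul_eq_mul]
      have e3 : ∑ w ∈ Ico (2 * l * q + l) (2 * l * q + 2 * l), kvE M v w = l * -c := by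
        rw [Finset.sum_congr rfl fun w hw => hc2 w (mem_Ico.1 hw).1 (mem_Ico.1 hw).2,
          Finset.sum_const, Nat.card_Ico, nsmul_eq_mul]
        congr 2
        omega
      rw [e1, e2, e3, ih (by omega)]
      ring
  have htot : ∑ w ∈ range (2^M), kvE M v w = 0 := by
    rw [hM]
    exact hfull _ le_rfl
  refine ⟨fun z => ∑ w ∈ range ((z:ℕ) + 1), kvE M v w, ?_, ?_⟩
  · intro z
    have hSh : (Sh M *ᵥ fun z : Fin (2^M) => ∑ w ∈ range ((z:ℕ) + 1), kvE M v w) z =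
        ∑ w ∈ range (z:ℕ), kvE M v w := by
      rcases Nat.eq_zero_or_pos (z:ℕ) with hz | hz
      · have hlt : 2^M - 1 < 2^M := Nat.sub_lt (by positivity) one_pos
        have hs : 2^M - 1 + 1 = 2^M := Nat.sub_add_cancel (Nat.one_le_two_pow)
        rw [kv_Sh M _ z ⟨2^M - 1, hlt⟩ (by simp only [hs, Nat.mod_self, hz])]
        simp only [hs, hz]
        rw [htot]
        simp
      · have hlt : (z:ℕ) - 1 < 2^M := by have := z.2; omega
        have hs : (z:ℕ) - 1 + 1 = z := Nat.sub_add_cancel hz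
        rw [kv_Sh M _ z ⟨(z:ℕ) - 1, hlt⟩ (by simp only [hs]; exact Nat.mod_eq_of_lt z.2)]
        simp only [hs]
    rw [hSh]
    simp only
    rw [Finset.sum_range_succ, kvE_coe]
    ring
  · intro z
    simp only
    have hq : (z:ℕ) / (2 * l) < 2^a := Nat.div_lt_of_lt_mul (by rw [← hM]; exact z.2)
    have hz1 : 2 * l * ((z:ℕ) / (2 * l)) ≤ z := Nat.mul_div_le _ _
    have hz2 : (z:ℕ) < 2 * l * ((z:ℕ) / (2 * l)) + 2 * l := by
      have := Nat.lt_mul_div_succ (z:ℕ) (show 0 < 2 * l by omega)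
      linarith
    obtain ⟨c, hc1, hc2⟩ := key _ hq
    have hf := hfull _ hq.le
    generalize (z:ℕ) / (2 * l) = q at *
    have hnorm : ∀ w, 2 * l * q ≤ w → w < 2 * l * q + 2 * l → ‖kvE M v w‖ = ‖c‖ := by
      intro w h1 h2
      rcases Nat.lt_or_ge w (2 * l * q + l) with h3 | h3
      · rw [hc1 w h1 h3]
      · rw [hc2 w h3 h2, norm_neg]
    have e1 : ∑ w ∈ range ((z:ℕ) + 1), kvE M v w = ∑ w ∈ Ico (2 * l * q) ((z:ℕ) + 1), kvE M v w := by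
      have := Finset.sum_Ico_consecutive (kvE M v) (Nat.zero_le (2 * l * q))
        (show 2 * l * q ≤ (z:ℕ) + 1 by omega)
      rw [Finset.range_eq_Ico, ← this, ← Finset.range_eq_Ico, hf, zero_add]
    rw [e1]
    refine (norm_sum_le _ _).trans ?_
    rw [Finset.sum_congr rfl fun w hw => hnorm w (mem_Ico.1 hw).1
      (by have := (mem_Ico.1 hw).2; omega), Finset.sum_const, Nat.card_Ico, nsmul_eq_mul,
      ← kvE_coe M v z, hnorm z hz1 hz2]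
    refine mul_le_mul_of_nonneg_right ?_ (norm_nonneg _)
    exact_mod_cast (show (z:ℕ) + 1 - 2 * l * q ≤ 2 * l by omega)

/-- the kernel majorant varies slowly -/
theorem kv_wt_aux (M p a' : ℕ) (hp : p ≤ a') (ha : a' ≤ M) (x u : ℕ)
    (h : u / 2^(M-a') = x / 2^(M-a')) (z : ℤ) :
    1 + 2^p * |Real.sin (Real.pi * (((x:ℤ) - z : ℤ) : ℝ) / 2^M)| ≤
      (1 + Real.pi) * (1 + 2^p * |Real.sin (Real.pi * (((u:ℤ) - z : ℤ) : ℝ) / 2^M)|) := by
  have hL : 0 < 2^(M-a') := by positivity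
  have hM : (2:ℝ)^M = 2^(M-a') * 2^a' := by rw [← pow_add]; congr 1; omega
  have hd : |((x:ℝ) - (u:ℝ))| ≤ 2^(M-a') := by
    have e1 := Nat.div_add_mod u (2^(M-a'))
    have e2 := Nat.div_add_mod x (2^(M-a'))
    have e3 := Nat.mod_lt u hL
    have e4 := Nat.mod_lt x hL
    rw [h] at e1
    have e5 : x ≤ u + 2^(M-a') := by omega
    have e6 : u ≤ x + 2^(M-a') := by omega
    have e5' : (x:ℝ) ≤ u + 2^(M-a') := by exact_mod_cast e5
    have e6' : (u:ℝ) ≤ x + 2^(M-a') := by exact_mod_cast e6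
    rw [abs_le]
    constructor <;> linarith
  have h1 : |Real.sin (Real.pi * (((x:ℤ) - z : ℤ) : ℝ) / 2^M)| ≤
      |Real.sin (Real.pi * (((u:ℤ) - z : ℤ) : ℝ) / 2^M)| + Real.pi / 2^a' := by
    have h2 : |Real.sin (Real.pi * (((x:ℤ) - z : ℤ) : ℝ) / 2^M) -
        Real.sin (Real.pi * (((u:ℤ) - z : ℤ) : ℝ) / 2^M)| ≤
        |Real.pi * (((x:ℤ) - z : ℤ) : ℝ) / 2^M - Real.pi * (((u:ℤ) - z : ℤ) : ℝ) / 2^M| :=
      Real.abs_sin_sub_sin_le _ _
    have h3 : Real.pi * (((x:ℤ) - z : ℤ) : ℝ) / 2^M - Real.pi * (((u:ℤ) - z : ℤ) : ℝ) / 2^M =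
        Real.pi * ((x:ℝ) - u) / 2^M := by
      push_cast
      ring
    have h4 : |Real.pi * ((x:ℝ) - u) / 2^M| ≤ Real.pi / 2^a' := by
      rw [abs_div, abs_mul, abs_of_pos Real.pi_pos, abs_of_pos (by positivity : (0:ℝ) < 2^M), hM,
        div_le_div_iff₀ (by positivity) (by positivity)]
      calc Real.pi * |(x:ℝ) - u| * 2^a' ≤ Real.pi * 2^(M-a') * 2^a' := by gcongr
        _ = Real.pi * (2^(M-a') * 2^a') := by ring
    rw [h3] at h2
    have h5 := abs_sub_abs_le_abs_sub (Real.sin (Real.pi * (((x:ℤ) - z : ℤ) : ℝ) / 2^M))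
      (Real.sin (Real.pi * (((u:ℤ) - z : ℤ) : ℝ) / 2^M))
    linarith
  have h6 : (2:ℝ)^p * (Real.pi / 2^a') ≤ Real.pi := by
    have h7 : (2:ℝ)^p ≤ 2^a' := pow_le_pow_right₀ (by norm_num) hp
    rw [mul_div_assoc', div_le_iff₀ (by positivity), mul_comm]
    exact mul_le_mul_of_nonneg_left h7 Real.pi_pos.le
  have h8 := mul_le_mul_of_nonneg_left h1 (by positivity : (0:ℝ) ≤ 2^p)
  have h9 : 0 ≤ Real.pi * (2^p * |Real.sin (Real.pi * (((u:ℤ) - z : ℤ) : ℝ) / 2^M)|) := by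
    have := Real.pi_pos
    positivity
  nlinarith [h8, h9, h6]

theorem kv_wt (M p a' : ℕ) (hp : p ≤ a') (ha : a' ≤ M) (x u : ℕ)
    (h : u / 2^(M-a') = x / 2^(M-a')) (z : ℤ) :
    wt M p ((u:ℤ) - z) ≤ 18 * wt M p ((x:ℤ) - z) := by
  have h1 := kv_wt_aux M p a' hp ha x u h z
  unfold wt
  have hπ : Real.pi < 3.15 := Real.pi_lt_d2
  have hπ0 := Real.pi_pos
  have p1 : 0 < 1 + 2^p * |Real.sin (Real.pi * (((x:ℤ) - z : ℤ) : ℝ) / 2^M)| := by positivity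
  have p2 : 0 < 1 + 2^p * |Real.sin (Real.pi * (((u:ℤ) - z : ℤ) : ℝ) / 2^M)| := by positivity
  generalize 1 + 2^p * |Real.sin (Real.pi * (((x:ℤ) - z : ℤ) : ℝ) / 2^M)| = X at *
  generalize 1 + 2^p * |Real.sin (Real.pi * (((u:ℤ) - z : ℤ) : ℝ) / 2^M)| = U at *
  have h2 : X^2 ≤ 18 * U^2 := by
    calc X^2 ≤ ((1 + Real.pi) * U)^2 := by gcongr
      _ = (1 + Real.pi)^2 * U^2 := by ring
      _ ≤ 18 * U^2 := by
        apply mul_le_mul_of_nonneg_right _ (sq_nonneg U)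
        nlinarith
  rw [mul_div_assoc', div_le_div_iff₀ (by positivity) (by positivity)]
  calc 2^p * X^2 ≤ 2^p * (18 * U^2) := by gcongr
    _ = 18 * 2^p * U^2 := by ring

theorem wt_nonneg' (M p : ℕ) (j : ℤ) : 0 ≤ wt M p j := by
  unfold wt
  positivity

theorem kv_half (p a : ℕ) (h : p ≤ a) : ((1:ℝ)/2)^(a-p) = 2^p / 2^a := by
  have : (2:ℝ)^a = 2^p * 2^(a-p) := by rw [← pow_add]; congr 1; omega
  rw [this, one_div, inv_pow]
  field_simp

theorem kVA (M a p a' : ℕ) (hp : p ≤ a') (hpa : p ≤ a) (ha : a < M) (A : ℝ) (hA : 0 ≤ A)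
    (κ : ℤ → ℂ) (hper : ∀ j, κ (j + 2^M) = κ j)
    (hκ : ∀ j, ‖κ j - 2 * κ (j-1) + κ (j-2)‖ ≤ A * (2^p/2^M)^2 / 2^M * wt M p j) :
    ∀ v, Haar M a v → ∀ x, ‖((Dm M a' * Cm M κ) *ᵥ v) x‖ ≤
      (40 * A * (1/2)^(a'-p)) * (1/2)^(a-p) / 2^M *
      ∑ z : Fin (2^M), wt M p ((x:ℤ) - (z:ℤ)) * ‖v z‖ := by
  intro v hv x
  obtain ⟨H, hH1, hH2⟩ := kv_prim M a ha v hv
  rw [← Matrix.mulVec_mulVec]
  have hS : 0 ≤ ∑ z : Fin (2^M), wt M p ((x:ℤ) - (z:ℤ)) * ‖v z‖ :=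
    Finset.sum_nonneg fun z _ => mul_nonneg (wt_nonneg' _ _ _) (norm_nonneg _)
  rcases Nat.lt_or_ge M a' with haM | haM
  · refine (kv_Dm M a' _ x 0 le_rfl fun h => absurd h (by omega)).trans ?_
    rw [mul_zero, mul_zero]
    positivity
  have hM0 : (0:ℝ) < 2^M := by positivity
  refine (kv_Dm M a' (Cm M κ *ᵥ v) x (18 * (A * (2^p/2^M)^2 / 2^M * 2^(M-a) *
    ∑ z : Fin (2^M), wt M p ((x:ℤ) - (z:ℤ)) * ‖v z‖)) (by positivity) ?_).trans ?_
  · intro haM' u w hu huw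
    have hw : ((w:ℕ):ℤ) = (u:ℤ) - 1 := by rw [huw]; push_cast; ring
    -- first difference
    have e1 : (Cm M κ *ᵥ v) u - (Cm M κ *ᵥ v) w =
        ∑ z : Fin (2^M), (fun j => κ j - κ (j - 1)) ((u:ℤ) - (z:ℤ)) * v z := by
      simp only [Matrix.mulVec, dotProduct, Cm, hw]
      rw [← Finset.sum_sub_distrib]
      refine sum_congr rfl fun z _ => ?_
      rw [show (u:ℤ) - 1 - (z:ℤ) = (u:ℤ) - (z:ℤ) - 1 by ring]
      ring
    have hper' : ∀ j, (fun j => κ j - κ (j - 1)) (j + 2^M) = (fun j => κ j - κ (j - 1)) j := by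
      intro j
      simp only
      rw [hper j, show j + 2^M - 1 = (j - 1) + 2^M by ring, hper (j - 1)]
    have e2 : ∑ z : Fin (2^M), (fun j => κ j - κ (j - 1)) ((u:ℤ) - (z:ℤ)) * v z =
        ∑ z : Fin (2^M), (κ ((u:ℤ) - (z:ℤ)) - 2 * κ ((u:ℤ) - (z:ℤ) - 1) +
          κ ((u:ℤ) - (z:ℤ) - 2)) * H z := by
      have e3 : ∀ z : Fin (2^M), (fun j => κ j - κ (j - 1)) ((u:ℤ) - (z:ℤ)) * v z =
          (fun j => κ j - κ (j - 1)) ((u:ℤ) - (z:ℤ)) * H z -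
          (fun j => κ j - κ (j - 1)) ((u:ℤ) - (z:ℤ)) * (Sh M *ᵥ H) z := by
        intro z
        rw [← mul_sub, ← hH1 z]
      have hsh := kv_shift M (fun j => κ j - κ (j - 1)) hper' H (u:ℤ)
      rw [Finset.sum_congr rfl fun z _ => e3 z, Finset.sum_sub_distrib,
        hsh, ← Finset.sum_sub_distrib]
      refine sum_congr rfl fun z _ => ?_
      simp only
      rw [show (u:ℤ) - 1 - (z:ℤ) = (u:ℤ) - (z:ℤ) - 1 by ring,
        show (u:ℤ) - (z:ℤ) - 1 - 1 = (u:ℤ) - (z:ℤ) - 2 by ring]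
      ring
    rw [e1, e2]
    refine (norm_sum_le _ _).trans ?_
    rw [← mul_assoc, Finset.mul_sum]
    refine Finset.sum_le_sum fun z _ => ?_
    rw [norm_mul]
    have hw1 := kv_wt M p a' hp haM'.le (x:ℕ) (u:ℕ) hu (z:ℤ)
    calc ‖κ ((u:ℤ) - (z:ℤ)) - 2 * κ ((u:ℤ) - (z:ℤ) - 1) + κ ((u:ℤ) - (z:ℤ) - 2)‖ * ‖H z‖ ≤
          (A * (2^p/2^M)^2 / 2^M * wt M p ((u:ℤ) - (z:ℤ))) * (2^(M-a) * ‖v z‖) :=
          mul_le_mul (hκ _) (hH2 z) (norm_nonneg _)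
            (mul_nonneg (by positivity) (wt_nonneg' _ _ _))
      _ ≤ (A * (2^p/2^M)^2 / 2^M * (18 * wt M p ((x:ℤ) - (z:ℤ)))) * (2^(M-a) * ‖v z‖) := by
          apply mul_le_mul_of_nonneg_right _ (by positivity)
          exact mul_le_mul_of_nonneg_left hw1 (by positivity)
      _ = 18 * (A * (2^p/2^M)^2 / 2^M * 2^(M-a)) * (wt M p ((x:ℤ) - (z:ℤ)) * ‖v z‖) := by ring
  · rw [kv_half p a' hp, kv_half p a hpa]
    have g1 : (2:ℝ)^(M-a') = 2^M / 2^a' := by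
      rw [eq_div_iff (by positivity), ← pow_add]; congr 1; omega
    have g2 : (2:ℝ)^(M-a) = 2^M / 2^a := by
      rw [eq_div_iff (by positivity), ← pow_add]; congr 1; omega
    rw [g1, g2]
    generalize ∑ z : Fin (2^M), wt M p ((x:ℤ) - (z:ℤ)) * ‖v z‖ = Sg at *
    have e : 2 * ((2:ℝ)^M / 2^a' * (18 * (A * (2^p/2^M)^2 / 2^M * (2^M / 2^a) * Sg))) =
        36 * (A * (2^p / 2^a') * (2^p / 2^a) / 2^M * Sg) := by
      field_simp
      ring
    rw [e]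
    have hnn : 0 ≤ A * (2^p / 2^a') * (2^p / 2^a) / 2^M * Sg := by positivity
    calc 36 * (A * (2^p / 2^a') * (2^p / 2^a) / 2^M * Sg) ≤
          40 * (A * (2^p / 2^a') * (2^p / 2^a) / 2^M * Sg) := by linarith
      _ = _ := by ring

theorem kVB (M p a' : ℕ) (hp : p ≤ a') (A : ℝ) (hA : 0 ≤ A)
    (κ : ℤ → ℂ) (hper : ∀ j, κ (j + 2^M) = κ j)
    (hκ : ∀ j, ‖κ j‖ ≤ A / 2^M * wt M p j) :
    ∀ v, ∀ x : Fin (2^M), ‖((Dm M a' * Cm M κ) *ᵥ v) x‖ ≤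
      (40 * A * (1/2)^(a'-p)) *
      ∑ z : Fin (2^M), ‖v z - (Sh M *ᵥ v) z‖ /
        (1 + 2^p * |Real.sin (Real.pi * (((x:ℤ) - (z:ℤ) : ℤ) : ℝ) / 2^M)|)^2 := by
  intro v x
  rw [← Matrix.mulVec_mulVec]
  have hS : 0 ≤ ∑ z : Fin (2^M), ‖v z - (Sh M *ᵥ v) z‖ /
        (1 + 2^p * |Real.sin (Real.pi * (((x:ℤ) - (z:ℤ) : ℤ) : ℝ) / 2^M)|)^2 :=
    Finset.sum_nonneg fun z _ => by positivity
  rcases Nat.lt_or_ge M a' with haM | haM
  · refine (kv_Dm M a' _ x 0 le_rfl fun h => absurd h (by omega)).trans ?_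
    rw [mul_zero, mul_zero]
    positivity
  refine (kv_Dm M a' (Cm M κ *ᵥ v) x (18 * (A / 2^M * 2^p *
    ∑ z : Fin (2^M), ‖v z - (Sh M *ᵥ v) z‖ /
        (1 + 2^p * |Real.sin (Real.pi * (((x:ℤ) - (z:ℤ) : ℤ) : ℝ) / 2^M)|)^2))
    (by positivity) ?_).trans ?_
  · intro haM' u w hu huw
    have hw : ((w:ℕ):ℤ) = (u:ℤ) - 1 := by rw [huw]; push_cast; ring
    have e1 : (Cm M κ *ᵥ v) u - (Cm M κ *ᵥ v) w =
        ∑ z : Fin (2^M), κ ((u:ℤ) - (z:ℤ)) * (v z - (Sh M *ᵥ v) z) := by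
      have e2 : (Cm M κ *ᵥ v) w = ∑ z : Fin (2^M), κ ((u:ℤ) - (z:ℤ)) * (Sh M *ᵥ v) z := by
        rw [kv_shift M κ hper v (u:ℤ)]
        simp only [Matrix.mulVec, dotProduct, Cm, hw]
      rw [e2]
      simp only [Matrix.mulVec, dotProduct, Cm]
      rw [← Finset.sum_sub_distrib]
      refine sum_congr rfl fun z _ => ?_
      ring
    rw [e1]
    refine (norm_sum_le _ _).trans ?_
    rw [← mul_assoc, Finset.mul_sum]
    refine Finset.sum_le_sum fun z _ => ?_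
    rw [norm_mul]
    have hw1 := kv_wt M p a' hp haM'.le (x:ℕ) (u:ℕ) hu (z:ℤ)
    calc ‖κ ((u:ℤ) - (z:ℤ))‖ * ‖v z - (Sh M *ᵥ v) z‖ ≤
          (A / 2^M * wt M p ((u:ℤ) - (z:ℤ))) * ‖v z - (Sh M *ᵥ v) z‖ :=
          mul_le_mul_of_nonneg_right (hκ _) (norm_nonneg _)
      _ ≤ (A / 2^M * (18 * wt M p ((x:ℤ) - (z:ℤ)))) * ‖v z - (Sh M *ᵥ v) z‖ := by
          apply mul_le_mul_of_nonneg_right _ (norm_nonneg _)
          exact mul_le_mul_of_nonneg_left hw1 (by positivity)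
      _ = 18 * (A / 2^M * 2^p) * (‖v z - (Sh M *ᵥ v) z‖ /
        (1 + 2^p * |Real.sin (Real.pi * (((x:ℤ) - (z:ℤ) : ℤ) : ℝ) / 2^M)|)^2) := by
          unfold wt
          ring
  · rw [kv_half p a' hp]
    have g1 : (2:ℝ)^(M-a') = 2^M / 2^a' := by
      rw [eq_div_iff (by positivity), ← pow_add]; congr 1; omega
    rw [g1]
    generalize ∑ z : Fin (2^M), ‖v z - (Sh M *ᵥ v) z‖ /
        (1 + 2^p * |Real.sin (Real.pi * (((x:ℤ) - (z:ℤ) : ℤ) : ℝ) / 2^M)|)^2 = Sg at *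
    have e : 2 * ((2:ℝ)^M / 2^a' * (18 * (A / 2^M * 2^p * Sg))) =
        36 * (A * (2^p / 2^a') * Sg) := by
      field_simp
      ring
    rw [e]
    have hnn : 0 ≤ A * (2^p / 2^a') * Sg := by positivity
    calc 36 * (A * (2^p / 2^a') * Sg) ≤ 40 * (A * (2^p / 2^a') * Sg) := by linarith
      _ = _ := by ring

end BernT.ST7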