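import Pool.Agent.Helper643.BernT

open Finset Matrix



open Finset Matrix
namespace BernT.ST9
theorem kerBound_ex_add (M : ℕ) (a b : ℤ) : ex M (a + b) = ex M a * ex M b := by
  unfold ex
  rw [← Complex.exp_add]
  congr 1
  push_cast
  ring

theorem kerBound_ex_zero (M : ℕ) : ex M 0 = 1 := by
  unfold ex
  simp

theorem kerBound_ex_neg (M : ℕ) (a : ℤ) : ex M a * ex M (-a) = 1 := by
  rw [← kerBound_ex_add, add_neg_cancel, kerBound_ex_zero]

theorem kerBound_ex_eq (M : ℕ) (j : ℤ) :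
    ex M j = Complex.exp (((2 * Real.pi * j / 2 ^ M : ℝ) : ℂ) * Complex.I) := by
  unfold ex
  congr 1
  push_cast
  ring

theorem kerBound_ex_norm (M : ℕ) (a : ℤ) : ‖ex M a‖ = 1 := by
  rw [kerBound_ex_eq, Complex.norm_exp_ofReal_mul_I]

theorem kerBound_ex_per (M : ℕ) (k : ℤ) : ex M (k * 2 ^ M) = 1 := by
  unfold ex
  have h : (2 * Real.pi * Complex.I * ((k * 2 ^ M : ℤ) : ℂ) / (2 : ℂ) ^ M : ℂ) =
      (k : ℂ) * (2 * Real.pi * Complex.I) := by
    have : ((2 : ℂ) ^ M) ≠ 0 := pow_ne_zero _ (by norm_num)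
    push_cast
    field_simp
  rw [h]
  exact Complex.exp_int_mul_two_pi_mul_I k

theorem kerBound_sin (M : ℕ) (j : ℤ) :
    ex M j + ex M (-j) - 2 = ((-(4 * Real.sin (Real.pi * j / 2 ^ M) ^ 2) : ℝ) : ℂ) := by
  rw [kerBound_ex_eq, kerBound_ex_eq]
  have e1 : ((2 * Real.pi * ((-j : ℤ) : ℝ) / 2 ^ M : ℝ) : ℂ) =
      -((2 * Real.pi * j / 2 ^ M : ℝ) : ℂ) := by
    push_cast
    ring
  rw [e1, neg_mul]
  set x : ℂ := ((2 * Real.pi * j / 2 ^ M : ℝ) : ℂ) with hx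
  have h1 : Complex.exp (x * Complex.I) + Complex.exp (-(x * Complex.I)) = 2 * Complex.cos x := by
    rw [Complex.cos, neg_mul]
    ring
  rw [h1, hx, ← Complex.ofReal_cos]
  have h2 : (2 * Real.pi * j / 2 ^ M : ℝ) = 2 * (Real.pi * j / 2 ^ M) := by ring
  rw [h2, Real.cos_two_mul, Real.cos_sq']
  push_cast
  ring

theorem kerBound_shift (f : ℤ → ℂ) (B : ℕ) (h : ∀ k : ℤ, (B : ℤ) < |k| → f k = 0) (c : ℤ)
    (hc : |c| ≤ 1) :
    ∑ k ∈ Icc (-(B : ℤ) - 1) ((B : ℤ) + 1), f (k + c) = ∑ k ∈ Icc (-(B : ℤ)) (B : ℤ), f k := by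
  have h1 : ∑' k : ℤ, f (k + c) = ∑ k ∈ Icc (-(B : ℤ) - 1) ((B : ℤ) + 1), f (k + c) := by
    apply tsum_eq_sum
    intro k hk
    apply h
    rw [Finset.mem_Icc] at hk
    rw [abs_le] at hc
    rw [lt_abs]
    omega
  have h2 : ∑' k : ℤ, f k = ∑ k ∈ Icc (-(B : ℤ)) (B : ℤ), f k := by
    apply tsum_eq_sum
    intro k hk
    apply h
    rw [Finset.mem_Icc] at hk
    rw [lt_abs]
    omega
  rw [← h1, ← h2]
  exact (Equiv.addRight c).tsum_eq f

theorem kerBound (M B p : ℕ) (μ : ℤ → ℂ) (A : ℝ) (hA : 0 ≤ A)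
    (hsupp : ∀ k : ℤ, (B:ℤ) < |k| → μ k = 0)
    (h1 : ∑ k ∈ Icc (-(B:ℤ)) (B:ℤ), ‖μ k‖ ≤ A * 2^p)
    (h2 : ∑ k ∈ Icc (-(B:ℤ)-1) ((B:ℤ)+1), ‖μ (k+1) - 2 * μ k + μ (k-1)‖ ≤ A / 2^p) :
    (∀ j, ‖ker M B μ j‖ ≤ 3 * A / 2^M * wt M p j) ∧
    (∀ j, ker M B μ (j + 2^M) = ker M B μ j) ∧
    (∀ j, ker M B μ j - ker M B μ (j-1) = ker M B (fun k => μ k * (1 - ex M (-k))) j) := by
  refine ⟨?_, ?_, ?_⟩
  · intro j
    set S := ∑ k ∈ Icc (-(B:ℤ)) (B:ℤ), μ k * ex M (k*j) with hS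
    have hker : ‖ker M B μ j‖ = (2 ^ M)⁻¹ * ‖S‖ := by
      unfold ker
      rw [← hS, norm_mul, norm_inv, norm_pow]
      norm_num
    have hb1 : ‖S‖ ≤ A * 2 ^ p := by
      refine le_trans (norm_sum_le _ _) (le_trans (Finset.sum_le_sum fun k _ => ?_) h1)
      rw [norm_mul, kerBound_ex_norm, mul_one]
    have hz : ∀ k : ℤ, (B : ℤ) < |k| → μ k * ex M (k * j) = 0 := fun k hk => by
      rw [hsupp k hk, zero_mul]
    have s0 := kerBound_shift (fun k => μ k * ex M (k * j)) B hz 0 (by norm_num)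
    have s1 := kerBound_shift (fun k => μ k * ex M (k * j)) B hz 1 (by norm_num)
    have s2 := kerBound_shift (fun k => μ k * ex M (k * j)) B hz (-1) (by norm_num)
    simp only [add_zero] at s0
    rw [← hS] at s0 s1 s2
    have t1 : ∑ k ∈ Icc (-(B : ℤ) - 1) ((B : ℤ) + 1), μ (k + 1) * ex M (k * j) =
        ex M (-j) * S := by
      rw [← s1, Finset.mul_sum]
      apply Finset.sum_congr rfl
      intro k _
      have e : (k + 1) * j = k * j + j := by ring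
      simp only [e, kerBound_ex_add]
      calc μ (k + 1) * ex M (k * j) = μ (k + 1) * ex M (k * j) * 1 := by ring
        _ = μ (k + 1) * ex M (k * j) * (ex M j * ex M (-j)) := by rw [kerBound_ex_neg]
        _ = _ := by ring
    have t2 : ∑ k ∈ Icc (-(B : ℤ) - 1) ((B : ℤ) + 1), μ (k - 1) * ex M (k * j) =
        ex M j * S := by
      rw [← s2, Finset.mul_sum]
      apply Finset.sum_congr rfl
      intro k _
      have e : (k + -1) * j = k * j + -j := by ring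
      simp only [e, kerBound_ex_add]
      have e' : k + -1 = k - 1 := by ring
      rw [e']
      calc μ (k - 1) * ex M (k * j) = μ (k - 1) * ex M (k * j) * 1 := by ring
        _ = μ (k - 1) * ex M (k * j) * (ex M j * ex M (-j)) := by rw [kerBound_ex_neg]
        _ = _ := by ring
    have t3 : ∑ k ∈ Icc (-(B : ℤ) - 1) ((B : ℤ) + 1),
        (μ (k + 1) - 2 * μ k + μ (k - 1)) * ex M (k * j) =
        (ex M j + ex M (-j) - 2) * S := by
      have : ∀ k : ℤ, (μ (k + 1) - 2 * μ k + μ (k - 1)) * ex M (k * j) =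
          μ (k + 1) * ex M (k * j) - 2 * (μ k * ex M (k * j)) + μ (k - 1) * ex M (k * j) := by
        intro k; ring
      simp only [this]
      rw [Finset.sum_add_distrib, Finset.sum_sub_distrib, t1, t2, ← Finset.mul_sum, s0]
      ring
    have hb2 : 4 * |Real.sin (Real.pi * j / 2 ^ M)| ^ 2 * ‖S‖ ≤ A / 2 ^ p := by
      have e : 4 * |Real.sin (Real.pi * j / 2 ^ M)| ^ 2 * ‖S‖ =
          ‖(ex M j + ex M (-j) - 2) * S‖ := by
        rw [norm_mul, kerBound_sin, Complex.norm_real, Real.norm_eq_abs, abs_neg, abs_mul, abs_pow]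
        norm_num
      rw [e, ← t3]
      refine le_trans (norm_sum_le _ _) (le_trans (Finset.sum_le_sum fun k _ => ?_) h2)
      rw [norm_mul, kerBound_ex_norm, mul_one]
    rw [hker]
    unfold wt
    set s := |Real.sin (Real.pi * j / 2 ^ M)| with hs
    have hs0 : 0 ≤ s := abs_nonneg _
    have hp : (0 : ℝ) < 2 ^ p := by positivity
    have key : ‖S‖ ≤ 3 * A * (2 ^ p / (1 + 2 ^ p * s) ^ 2) := by
      rw [mul_div_assoc', le_div_iff₀ (by positivity)]
      by_cases hu : 2 ^ p * s ≤ 1 / 2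
      · have h3 : (1 + 2 ^ p * s) ^ 2 ≤ 3 := by nlinarith [mul_nonneg hp.le hs0]
        calc ‖S‖ * (1 + 2 ^ p * s) ^ 2 ≤ (A * 2 ^ p) * 3 :=
              mul_le_mul hb1 h3 (by positivity) (by positivity)
          _ = _ := by ring
      · push Not at hu
        have h3 : (1 + 2 ^ p * s) ^ 2 ≤ 12 * (2 ^ p * s) ^ 2 := by nlinarith
        calc ‖S‖ * (1 + 2 ^ p * s) ^ 2 ≤ ‖S‖ * (12 * (2 ^ p * s) ^ 2) :=
              mul_le_mul_of_nonneg_left h3 (norm_nonneg _)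
          _ = 3 * (2 ^ p) ^ 2 * (4 * s ^ 2 * ‖S‖) := by ring
          _ ≤ 3 * (2 ^ p) ^ 2 * (A / 2 ^ p) := mul_le_mul_of_nonneg_left hb2 (by positivity)
          _ = _ := by field_simp
    calc (2 ^ M)⁻¹ * ‖S‖ ≤ (2 ^ M)⁻¹ * (3 * A * (2 ^ p / (1 + 2 ^ p * s) ^ 2)) :=
          mul_le_mul_of_nonneg_left key (by positivity)
      _ = _ := by ring
  · intro j
    unfold ker
    congr 1
    apply Finset.sum_congr rfl
    intro k _
    rw [mul_add, kerBound_ex_add, kerBound_ex_per, mul_one]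
  · intro j
    unfold ker
    rw [← mul_sub, ← Finset.sum_sub_distrib]
    congr 1
    apply Finset.sum_congr rfl
    intro k _
    have e : k * (j - 1) = k * j + -k := by ring
    rw [e, kerBound_ex_add]
    ring

end BernT.ST9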