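import Pool.Agent.Helper643.Bern.DFinal
import Pool.Agent.Helper643.Bern.T1
import Pool.Agent.Helper643.Bern.T2
import Pool.Agent.Helper643.Bern.T3
import Pool.Agent.Helper643.Bern.T4
import Pool.Agent.Helper643.Bern.T5
import Pool.Agent.Helper643.Bern.T7
import Pool.Agent.Helper643.Bern.T9
import Pool.Agent.Helper643.Bern.T10
import Pool.Agent.Helper643.Bern.S1
import Pool.Agent.Helper643.Bern.S2
import Pool.Agent.Helper643.Bern.S3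
import Pool.Agent.Helper643.Bern.T12
import Pool.Agent.Helper643.Bern.T13a
import Pool.Agent.Helper643.Bern.T13b
import Pool.Agent.Helper643.Bern.T14a
import Pool.Agent.Helper643.Bern.T14b
import Pool.Agent.Helper643.Bern.T14c
import Pool.Agent.Helper643.Bern.T15a
import Pool.Agent.Helper643.Bern.T15b1
import Pool.Agent.Helper643.Bern.T15b2
import Pool.Agent.Helper643.Bern.T15c
import Pool.Agent.Helper643.Bern.T16a
import Pool.Agent.Helper643.Bern.T17a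
import Pool.Agent.Helper643.Bern.T17b
import Pool.Agent.Helper643.Bern.T18
import Pool.Agent.Helper643.Bern.T19
import Pool.Agent.Helper643.Bern.N1
import Pool.Agent.Helper643.BernP

open Finset Matrix

namespace BernT

theorem absorb' :
    ∃ C : ℝ, 0 < C ∧ ∃ L : ℕ, ∀ (M n : ℕ) (f : Matrix (Fin (2^M)) (Fin (2^M)) ℂ),
      Spec M n f → n + L ≤ M → ∀ m, NN M m f ≤ C * (|(m:ℝ) - n| + 1)^2 * L1 M f := by
  have vfam := ST13a.vfam ST3.formA ST4.formB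
    (fun M a p a' h1 h2 h3 A hA κ h4 h5 => ST7.kVA M a p a' h1 h2 h3 A hA κ h4 h5)
    (fun M p a' h1 A hA κ h4 h5 => ST7.kVB M p a' h1 A hA κ h4 h5)
    (ST10.vker (fun M B p μ A h1 h2 h3 h4 => ST9.kerBound M B p μ A h1 h2 h3 h4))
    (fun M T δ hδ hfar hL2 => (ST2.famOp
      (fun M Nrm h0 hadd δ hδ hH => ST1.glc M Nrm h0 hadd δ hδ hH) M T δ hδ hfar).1 hL2)
  have decay := ST14c.decay (ST14a.xdir vfam) (ST14b.xydir vfam)
  have hD := ST15b2.hD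
    (fun M K hK h g hg a l hal x y => ST15b1.haarFormula M K hK h g hg a l hal x y)
    (fun K g hadd l hl => BernD.dyadic K g hadd l hl)
  have hmart := ST15c.hmart (fun M Nrm h0 hadd δ hδ hH => ST1.glc M Nrm h0 hadd δ hδ hH)
  exact ST15a.absorb decay hD hmart

theorem blockSum' (r : ℝ) (hr : 0 ≤ r) :
    ∃ C : ℝ, 0 < C ∧ ∀ (M m : ℕ) (u v u' v' : ℂ), ‖u‖ ≤ 1 → ‖v‖ ≤ 1 → ‖u'‖ ≤ 1 → ‖v'‖ ≤ 1 →
      m + 2 ≤ M → ∀ (f : Matrix (Fin (2^M)) (Fin (2^M)) ℂ), Em M 0 * f = 0 → f * Em M 0 = 0 →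
      L1 M (∑ t ∈ range (m+1), Mm r u v M t * f * (Mm r u' v' M (m-t))ᵀ) ≤
        C * ∑ s ∈ range (2*M), (2:ℝ)^(-(|(s:ℝ)-m|/4)) * NN M s f := by
  have mfam := ST13b.mfam ST3.formA ST4.formB
    (fun M a p h1 h2 A hA κ h3 h4 => ST5.kAm M a p h1 h2 A hA κ h3 h4)
    (fun M p A hA κ κ' h1 h2 h3 => ST5.kBm M p A hA κ κ' h1 h2 h3) r
    (SS3.mker (fun M B p μ A h1 h2 h3 h4 => ST9.kerBound M B p μ A h1 h2 h3 h4) SS2.symE r
      (SS1.symR r hr))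
    (fun M n B hB μ hμ v => ST12.nearOrth M n B hB μ hμ v)
    (fun M T δ hδ hfar => ST2.famOp
      (fun M Nrm h0 hadd δ hδ hH => ST1.glc M Nrm h0 hadd δ hδ hH) M T δ hδ hfar)
  exact ST16a.blockSum r mfam

theorem L1_sum_le (M : ℕ) (s : Finset ℕ) (F : ℕ → Matrix (Fin (2^M)) (Fin (2^M)) ℂ) :
    L1 M (∑ i ∈ s, F i) ≤ ∑ i ∈ s, L1 M (F i) := by
  classical
  induction s using Finset.induction_on with
  | empty => simp [L1]
  | insert a s ha ih =>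
    rw [sum_insert ha, sum_insert ha]
    refine le_trans ?_ (add_le_add (le_refl _) ih)
    unfold L1
    rw [← sum_add_distrib]
    apply sum_le_sum; intro x _
    rw [← sum_add_distrib]
    apply sum_le_sum; intro y _
    exact norm_add_le _ _

theorem L1_smul (M : ℕ) (a : ℂ) (f : Matrix (Fin (2^M)) (Fin (2^M)) ℂ) :
    L1 M (a • f) = ‖a‖ * L1 M f := by
  unfold L1
  simp only [Matrix.smul_apply, smul_eq_mul, norm_mul, ← mul_sum]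

theorem L1_nonneg (M : ℕ) (f : Matrix (Fin (2^M)) (Fin (2^M)) ℂ) : 0 ≤ L1 M f := by
  unfold L1; positivity

/-- the grid version of the two dimensional `L¹` Bernstein inequality. -/
theorem grid (r : ℝ) (hr : 0 < r) : ∃ C : ℝ, 0 < C ∧ ∃ L : ℕ, ∀ (M n : ℕ) (S : Finset (ℤ × ℤ))
    (c : ℤ × ℤ → ℂ) (u v u' v' : ℂ), ‖u‖ ≤ 1 → ‖v‖ ≤ 1 → ‖u'‖ ≤ 1 → ‖v'‖ ≤ 1 →
    (∀ k ∈ S, k.1 ≠ 0 ∧ k.2 ≠ 0 ∧ |k.1| * |k.2| ≤ 2^n) → n + L ≤ M →
    L1 M (tp M S (fun k => ((((|(k.1:ℝ)|)^r : ℝ) : ℂ) * (if 0 < k.1 then u else v)) *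
      ((((|(k.2:ℝ)|)^r : ℝ) : ℂ) * (if 0 < k.2 then u' else v')) * c k)) ≤
      C * (2:ℝ)^(r*n) * L1 M (tp M S c) := by
  obtain ⟨C1, hC1, L, h1⟩ := absorb'
  obtain ⟨C2, hC2, h2⟩ := blockSum' r hr.le
  obtain ⟨C3, hC3, h3⟩ := SN1.numA
  obtain ⟨C4, hC4, h4⟩ := SN1.numB r hr
  refine ⟨C2 * C1 * C3 * C4, by positivity, L + 4, ?_⟩
  intro M n S c u v u' v' hu hv hu' hv' hS hM
  have hspec := ST17a.specTrig M n (by omega) S c hS
  have hNN := h1 M n (tp M S c) hspec (by omega)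
  rw [← ST17b.derivTrig M n (by omega) r hr u v u' v' S c hS]
  have hblock : ∀ m ∈ range (n+2), L1 M (∑ t ∈ range (m+1), Mm r u v M t * tp M S c *
      (Mm r u' v' M (m-t))ᵀ) ≤ C2 * C1 * C3 * (|(m:ℝ)-n|+1)^2 * L1 M (tp M S c) := by
    intro m hm
    rw [mem_range] at hm
    have hb := h2 M m u v u' v' hu hv hu' hv' (by omega) (tp M S c) hspec.1 hspec.2.1
    refine hb.trans ?_
    have hs : ∑ s ∈ range (2*M), (2:ℝ)^(-(|(s:ℝ)-m|/4)) * NN M s (tp M S c) ≤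
        ∑ s ∈ range (2*M), ((2:ℝ)^(-(|(s:ℝ)-m|/4)) * (|(s:ℝ)-n|+1)^2) * (C1 * L1 M (tp M S c)) := by
      apply sum_le_sum
      intro s _
      have := hNN s
      have h5 : (0:ℝ) ≤ (2:ℝ)^(-(|(s:ℝ)-m|/4)) := by positivity
      calc (2:ℝ)^(-(|(s:ℝ)-m|/4)) * NN M s (tp M S c)
          ≤ (2:ℝ)^(-(|(s:ℝ)-m|/4)) * (C1 * (|(s:ℝ)-n|+1)^2 * L1 M (tp M S c)) :=
            mul_le_mul_of_nonneg_left this h5
        _ = _ := by ring
    rw [← sum_mul] at hs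
    have hs2 := h3 (2*M) m n
    have hL := L1_nonneg M (tp M S c)
    calc C2 * ∑ s ∈ range (2*M), (2:ℝ)^(-(|(s:ℝ)-m|/4)) * NN M s (tp M S c)
        ≤ C2 * ((∑ s ∈ range (2*M), (2:ℝ)^(-(|(s:ℝ)-m|/4)) * (|(s:ℝ)-n|+1)^2) *
            (C1 * L1 M (tp M S c))) := mul_le_mul_of_nonneg_left hs hC2.le
      _ ≤ C2 * ((C3 * (|(m:ℝ)-n|+1)^2) * (C1 * L1 M (tp M S c))) := by
          apply mul_le_mul_of_nonneg_left _ hC2.le
          exact mul_le_mul_of_nonneg_right hs2 (by positivity)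
      _ = _ := by ring
  refine (L1_sum_le M _ _).trans ?_
  calc ∑ m ∈ range (n+2), L1 M ((((2:ℝ)^(r*m) : ℝ) : ℂ) • ∑ t ∈ range (m+1),
        Mm r u v M t * tp M S c * (Mm r u' v' M (m-t))ᵀ)
      ≤ ∑ m ∈ range (n+2), ((2:ℝ)^(r*m) * (|(m:ℝ)-n|+1)^2) * (C2 * C1 * C3 * L1 M (tp M S c)) := by
        apply sum_le_sum
        intro m hm
        rw [L1_smul]
        have e : ‖(((2:ℝ)^(r*m) : ℝ) : ℂ)‖ = (2:ℝ)^(r*m) := by
          rw [Complex.norm_real, Real.norm_of_nonneg (by positivity)]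
        rw [e]
        calc (2:ℝ)^(r*m) * L1 M (∑ t ∈ range (m+1), Mm r u v M t * tp M S c *
              (Mm r u' v' M (m-t))ᵀ)
            ≤ (2:ℝ)^(r*m) * (C2 * C1 * C3 * (|(m:ℝ)-n|+1)^2 * L1 M (tp M S c)) :=
              mul_le_mul_of_nonneg_left (hblock m hm) (by positivity)
          _ = _ := by ring
    _ = (∑ m ∈ range (n+2), (2:ℝ)^(r*m) * (|(m:ℝ)-n|+1)^2) * (C2 * C1 * C3 * L1 M (tp M S c)) := by
        rw [sum_mul]
    _ ≤ (C4 * (2:ℝ)^(r*n)) * (C2 * C1 * C3 * L1 M (tp M S c)) := by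
        apply mul_le_mul_of_nonneg_right (h4 n)
        have := L1_nonneg M (tp M S c)
        positivity
    _ = _ := by ring

open BernP in
/-- the two dimensional `L¹` Bernstein inequality on the torus, away from the axes. -/
theorem torus (r : ℝ) (hr : 0 < r) : ∃ C : ℝ, 0 < C ∧ ∀ (n : ℕ) (S : Finset (ℤ × ℤ))
    (c : ℤ × ℤ → ℂ) (u v u' v' : ℂ), ‖u‖ ≤ 1 → ‖v‖ ≤ 1 → ‖u'‖ ≤ 1 → ‖v'‖ ≤ 1 →
    (∀ k ∈ S, k.1 ≠ 0 ∧ k.2 ≠ 0 ∧ |k.1| * |k.2| ≤ 2^n) →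
    nrm1 (P S (fun k => ((((|(k.1:ℝ)|)^r : ℝ) : ℂ) * (if 0 < k.1 then u else v)) *
      ((((|(k.2:ℝ)|)^r : ℝ) : ℂ) * (if 0 < k.2 then u' else v')) * c k)) ≤
      C * (2:ℝ)^(r*n) * nrm1 (P S c) := by
  obtain ⟨C, hC, L, h⟩ := grid r hr
  refine ⟨C, hC, ?_⟩
  intro n S c u v u' v' hu hv hu' hv' hS
  exact ST19.toTorus n L (C * (2:ℝ)^(r*n)) S c _ (fun S c => ST18.riemann S c)
    (fun M hM => h M n S c u v u' v' hu hv hu' hv' hS hM)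

end BernT
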