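import Pool.Agent.Helper643.BernT

open Finset Matrix



open Finset Matrix
namespace BernT.SS3
noncomputable def hh (r : ℝ) (t : ℕ) (k : ℤ) : ℝ := (|(k:ℝ)| / 2^t)^r * bt t k

theorem ms_eq (r : ℝ) (u v : ℂ) (t : ℕ) (k : ℤ) :
    ms r u v t k = ((hh r t k : ℝ) : ℂ) * (if 0 < k then u else v) := rfl

def ins (t : ℕ) (x : ℤ) : Prop := (2:ℤ)^t ≤ 2 * |x| ∧ |x| ≤ 2 * (2:ℤ)^t

theorem ins_real {t : ℕ} {x : ℤ} (h : ins t x) :
    (2:ℝ)^t / 2 ≤ |(x:ℝ)| ∧ |(x:ℝ)| ≤ 2^(t+1) := by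
  obtain ⟨h1, h2⟩ := h
  have h1' : (2:ℝ)^t ≤ 2 * |(x:ℝ)| := by exact_mod_cast h1
  have h2' : |(x:ℝ)| ≤ 2 * (2:ℝ)^t := by exact_mod_cast h2
  refine ⟨by linarith, by rw [pow_succ]; linarith⟩

theorem bt_zero {t : ℕ} {x : ℤ} (h : ¬ ins t x) : bt t x = 0 := by
  have hT : (0:ℝ) < 2^t := by positivity
  unfold bt
  apply max_eq_left
  by_cases h1 : (2:ℤ)^t ≤ 2 * |x|
  · have h2 : ¬ |x| ≤ 2 * (2:ℤ)^t := fun h2 => h ⟨h1, h2⟩
    push Not at h2
    have h2' : 2 * (2:ℝ)^t < |(x:ℝ)| := by exact_mod_cast h2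
    refine (min_le_right _ _).trans ?_
    rw [sub_nonpos, le_div_iff₀ hT]
    exact h2'.le
  · push Not at h1
    have h1' : 2 * |(x:ℝ)| < (2:ℝ)^t := by exact_mod_cast h1
    refine (min_le_left _ _).trans ?_
    rw [sub_nonpos]
    have : |(x:ℝ)| / 2^t ≤ 1/2 := by rw [div_le_iff₀ hT]; linarith
    linarith

theorem hh_zero {r : ℝ} {t : ℕ} {x : ℤ} (h : ¬ ins t x) : hh r t x = 0 := by
  unfold hh
  rw [bt_zero h, mul_zero]

theorem hh_at_zero (r : ℝ) (t : ℕ) : hh r t 0 = 0 := by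
  apply hh_zero
  rintro ⟨h1, _⟩
  have : (0:ℤ) < 2^t := by positivity
  rw [abs_zero, mul_zero] at h1
  omega

theorem hh_neg (r : ℝ) (t : ℕ) (k : ℤ) : hh r t (-k) = hh r t k := by
  unfold hh bt
  push_cast
  rw [abs_neg]

section msb
variable {r : ℝ} {u v : ℂ} {t : ℕ} (hu : ‖u‖ ≤ 1) (hv : ‖v‖ ≤ 1)
include hu hv

theorem ms_norm (k : ℤ) : ‖ms r u v t k‖ ≤ |hh r t k| := by
  rw [ms_eq, norm_mul, Complex.norm_real, Real.norm_eq_abs]
  have hc : ‖(if 0 < k then u else v)‖ ≤ 1 := by split_ifs <;> assumption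
  have := mul_le_mul_of_nonneg_left hc (abs_nonneg (hh r t k))
  linarith

theorem real_mul_le {x : ℝ} {c : ℂ} (hc : ‖c‖ ≤ 1) : ‖(x : ℂ) * c‖ ≤ |x| := by
  rw [norm_mul, Complex.norm_real, Real.norm_eq_abs]
  have := mul_le_mul_of_nonneg_left hc (abs_nonneg x)
  linarith

theorem ms_diff (k : ℤ) : ‖ms r u v t (k+1) - ms r u v t k‖ ≤ |hh r t (k+1) - hh r t k| := by
  rw [ms_eq, ms_eq]
  by_cases hk : 0 < k
  · rw [if_pos hk, if_pos (by omega), ← sub_mul, ← Complex.ofReal_sub]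
    exact real_mul_le hu hv hu
  · rw [if_neg hk]
    by_cases hk1 : 0 < k + 1
    · have h0 : k = 0 := by omega
      subst h0
      rw [if_pos hk1, hh_at_zero, Complex.ofReal_zero, zero_mul, sub_zero, sub_zero]
      exact real_mul_le hu hv hu
    · rw [if_neg hk1, ← sub_mul, ← Complex.ofReal_sub]
      exact real_mul_le hu hv hv

theorem ms_diff2 (k : ℤ) : ‖ms r u v t (k+1) - 2 * ms r u v t k + ms r u v t (k-1)‖ ≤
    |hh r t (k+1) - 2 * hh r t k + hh r t (k-1)| := by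
  rw [ms_eq, ms_eq, ms_eq]
  by_cases hk : 0 < k - 1
  · rw [if_pos hk, if_pos (show 0 < k by omega), if_pos (show 0 < k + 1 by omega)]
    have : ((hh r t (k+1) : ℝ) : ℂ) * u - 2 * (((hh r t k : ℝ) : ℂ) * u) +
        ((hh r t (k-1) : ℝ) : ℂ) * u =
        ((hh r t (k+1) - 2 * hh r t k + hh r t (k-1) : ℝ) : ℂ) * u := by
      push_cast; ring
    rw [this]
    exact real_mul_le hu hv hu
  · rw [if_neg hk]
    by_cases hk0 : 0 < k
    · have h1 : k = 1 := by omega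
      subst h1
      have e0 : (1:ℤ) - 1 = 0 := by norm_num
      rw [if_pos hk0, if_pos (show (0:ℤ) < 1 + 1 by omega), e0, hh_at_zero]
      have : ((hh r t (1+1) : ℝ) : ℂ) * u - 2 * (((hh r t 1 : ℝ) : ℂ) * u) +
          ((0 : ℝ) : ℂ) * v =
          ((hh r t (1+1) - 2 * hh r t 1 + 0 : ℝ) : ℂ) * u := by
        push_cast; ring
      rw [this]
      exact real_mul_le hu hv hu
    · rw [if_neg hk0]
      by_cases hk1 : 0 < k + 1
      · have h0 : k = 0 := by omega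
        subst h0
        have e0 : (0:ℤ) - 1 = -1 := by norm_num
        have e1 : (0:ℤ) + 1 = 1 := by norm_num
        rw [if_pos hk1, e0, e1, hh_neg, hh_at_zero, Complex.ofReal_zero, zero_mul, mul_zero,
          mul_zero, sub_zero, sub_zero]
        have h2 : |hh r t 1 + hh r t 1| = |hh r t 1| + |hh r t 1| := by
          rw [← two_mul, abs_mul, abs_two, two_mul]
        rw [h2]
        exact (norm_add_le _ _).trans (add_le_add (real_mul_le hu hv hu) (real_mul_le hu hv hv))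
      · rw [if_neg hk1]
        have : ((hh r t (k+1) : ℝ) : ℂ) * v - 2 * (((hh r t k : ℝ) : ℂ) * v) +
            ((hh r t (k-1) : ℝ) : ℂ) * v =
            ((hh r t (k+1) - 2 * hh r t k + hh r t (k-1) : ℝ) : ℂ) * v := by
          push_cast; ring
        rw [this]
        exact real_mul_le hu hv hv

end msb

theorem prod_rule (f g : ℤ → ℂ) (k : ℤ) :
    ‖f (k+1) * g (k+1) - 2 * (f k * g k) + f (k-1) * g (k-1)‖ ≤
      ‖f (k+1) - 2 * f k + f (k-1)‖ * ‖g k‖ + ‖f k‖ * ‖g (k+1) - 2 * g k + g (k-1)‖ +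
      ‖f (k+1) - f k‖ * ‖g (k+1) - g k‖ + ‖f k - f (k-1)‖ * ‖g k - g (k-1)‖ := by
  have h : f (k+1) * g (k+1) - 2 * (f k * g k) + f (k-1) * g (k-1) =
      (f (k+1) - 2 * f k + f (k-1)) * g k + f k * (g (k+1) - 2 * g k + g (k-1)) +
      (f (k+1) - f k) * (g (k+1) - g k) + (f k - f (k-1)) * (g k - g (k-1)) := by ring
  rw [h]
  simp only [← norm_mul]
  refine (norm_add_le _ _).trans (add_le_add ((norm_add_le _ _).trans
    (add_le_add (norm_add_le _ _) le_rfl)) le_rfl)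

def Sbd (t : ℕ) : Finset ℤ :=
  ({((2:ℤ)^t + 1) / 2 - 1, ((2:ℤ)^t + 1) / 2, 2 * (2:ℤ)^t, 2 * (2:ℤ)^t + 1} : Finset ℤ) ∪
  ({-(((2:ℤ)^t + 1) / 2 - 1), -(((2:ℤ)^t + 1) / 2), -(2 * (2:ℤ)^t), -(2 * (2:ℤ)^t + 1)} : Finset ℤ)

theorem Sbd_card (t : ℕ) : (Sbd t).card ≤ 8 := by
  unfold Sbd
  refine (Finset.card_union_le _ _).trans ?_
  have h1 : ({((2:ℤ)^t + 1) / 2 - 1, ((2:ℤ)^t + 1) / 2, 2 * (2:ℤ)^t, 2 * (2:ℤ)^t + 1} : Finset ℤ).card ≤ 4 :=
    Finset.card_le_four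
  have h2 : ({-(((2:ℤ)^t + 1) / 2 - 1), -(((2:ℤ)^t + 1) / 2), -(2 * (2:ℤ)^t), -(2 * (2:ℤ)^t + 1)} : Finset ℤ).card ≤ 4 :=
    Finset.card_le_four
  omega

theorem not_ins_of {t : ℕ} {k : ℤ} (hk : k ∉ Sbd t)
    (hn : ¬ (ins t (k-1) ∧ ins t k ∧ ins t (k+1))) :
    ¬ ins t (k-1) ∧ ¬ ins t k ∧ ¬ ins t (k+1) := by
  have hT : (1:ℤ) ≤ 2^t := one_le_pow₀ (by norm_num)
  unfold Sbd at hk
  simp only [Finset.mem_union, Finset.mem_insert, Finset.mem_singleton, not_or] at hk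
  obtain ⟨⟨h1, h2, h3, h4⟩, h5, h6, h7, h8⟩ := hk
  unfold ins at *
  generalize (2:ℤ)^t = T at *
  have e1 := abs_cases (k-1)
  have e2 := abs_cases k
  have e3 := abs_cases (k+1)
  omega

theorem mker
    (kerBound : ∀ (M B p : ℕ) (μ : ℤ → ℂ) (A : ℝ), 0 ≤ A →
      (∀ k : ℤ, (B:ℤ) < |k| → μ k = 0) →
      (∑ k ∈ Icc (-(B:ℤ)) (B:ℤ), ‖μ k‖ ≤ A * 2^p) →
      (∑ k ∈ Icc (-(B:ℤ)-1) ((B:ℤ)+1), ‖μ (k+1) - 2 * μ k + μ (k-1)‖ ≤ A / 2^p) →
      (∀ j, ‖ker M B μ j‖ ≤ 3 * A / 2^M * wt M p j) ∧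
      (∀ j, ker M B μ (j + 2^M) = ker M B μ j) ∧
      (∀ j, ker M B μ j - ker M B μ (j-1) = ker M B (fun k => μ k * (1 - ex M (-k))) j))
    (symE : ∃ A : ℝ, 0 < A ∧ ∀ M t : ℕ, t + 2 ≤ M →
      (∀ k : ℤ, (2:ℝ)^t / 2 ≤ |(k:ℝ)| → |(k:ℝ)| ≤ 2^(t+1) → 
        1 - ex M (-k) ≠ 0 ∧ ‖(1 - ex M (-k))⁻¹‖ ≤ A * 2^M / 2^t) ∧
      (∀ k : ℤ, (2:ℝ)^t / 2 ≤ |(k:ℝ)| → |(k:ℝ)| ≤ 2^(t+1) →
        (2:ℝ)^t / 2 ≤ |((k+1:ℤ):ℝ)| → |((k+1:ℤ):ℝ)| ≤ 2^(t+1) →
        ‖(1 - ex M (-(k+1)))⁻¹ - (1 - ex M (-k))⁻¹‖ ≤ A * 2^M / 4^t) ∧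
      (∀ k : ℤ, (2:ℝ)^t / 2 ≤ |(k:ℝ)| → |(k:ℝ)| ≤ 2^(t+1) →
        (2:ℝ)^t / 2 ≤ |((k+1:ℤ):ℝ)| → |((k+1:ℤ):ℝ)| ≤ 2^(t+1) →
        (2:ℝ)^t / 2 ≤ |((k-1:ℤ):ℝ)| → |((k-1:ℤ):ℝ)| ≤ 2^(t+1) →
        ‖(1 - ex M (-(k+1)))⁻¹ - 2 * (1 - ex M (-k))⁻¹ + (1 - ex M (-(k-1)))⁻¹‖ ≤ A * 2^M / 8^t) ∧
      (∀ k : ℤ, |(k:ℝ)| ≤ 2^(t+1) + 1 → ‖1 - ex M (-k)‖ ≤ A * 2^t / 2^M) ∧
      (∀ k : ℤ, ‖(1 - ex M (-(k+1))) - (1 - ex M (-k))‖ ≤ A / 2^M) ∧
      (∀ k : ℤ, ‖(1 - ex M (-(k+1))) - 2 * (1 - ex M (-k)) + (1 - ex M (-(k-1)))‖ ≤ A / 4^M))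
    (r : ℝ)
    (symR : ∃ A : ℝ, 0 < A ∧ ∀ t : ℕ,
      (∀ k : ℤ, |(|(k:ℝ)| / 2^t)^r * bt t k| ≤ A) ∧
      (∀ k : ℤ, |(|((k+1:ℤ):ℝ)| / 2^t)^r * bt t (k+1) - (|(k:ℝ)| / 2^t)^r * bt t k| ≤ A / 2^t) ∧
      (∑ k ∈ Icc (-(2:ℤ)^(t+1)-1) ((2:ℤ)^(t+1)+1),
        |(|((k+1:ℤ):ℝ)| / 2^t)^r * bt t (k+1) - 2 * ((|(k:ℝ)| / 2^t)^r * bt t k)
          + (|((k-1:ℤ):ℝ)| / 2^t)^r * bt t (k-1)| ≤ A / 2^t)) :
    ∃ A : ℝ, 0 < A ∧ ∀ M t : ℕ, t + 2 ≤ M → ∀ u v : ℂ, ‖u‖ ≤ 1 → ‖v‖ ≤ 1 →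
      (∀ j, ker M (2^(t+1)) (ms r u v t) (j + 2^M) = ker M (2^(t+1)) (ms r u v t) j) ∧
      (∀ j, ‖ker M (2^(t+1)) (ms r u v t) j - ker M (2^(t+1)) (ms r u v t) (j-1)‖ ≤
        A * 2^t / 4^M * wt M t j) ∧
      (∃ κ' : ℤ → ℂ, (∀ j, κ' (j + 2^M) = κ' j) ∧
        (∀ j, ker M (2^(t+1)) (ms r u v t) j = κ' j - κ' (j-1)) ∧
        ∀ j, ‖κ' j‖ ≤ A / (1 + 2^t * |Real.sin (Real.pi * (j:ℝ) / 2^M)|)^2) := by
  classical
  obtain ⟨aE, haE, hE⟩ := symE
  obtain ⟨aR, haR, hR⟩ := symR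
  refine ⟨3 * (86 * aR * aE), by positivity, ?_⟩
  intro M t htM u v hu hv
  obtain ⟨hE1, hE2, hE3, hE4, hE5, hE6⟩ := hE M t htM
  obtain ⟨hR1, hR2, hR3⟩ := hR t
  have hR1' : ∀ k : ℤ, |hh r t k| ≤ aR := hR1
  have hR2' : ∀ k : ℤ, |hh r t (k+1) - hh r t k| ≤ aR / 2^t := hR2
  have hR3' : ∑ k ∈ Icc (-(2:ℤ)^(t+1)-1) ((2:ℤ)^(t+1)+1),
        |hh r t (k+1) - 2 * hh r t k + hh r t (k-1)| ≤ aR / 2^t := hR3
  have hBc : (((2^(t+1) : ℕ)) : ℤ) = (2:ℤ)^(t+1) := by push_cast; rfl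
  have hTpos : (0:ℝ) < 2^t := by positivity
  have hT1 : (1:ℝ) ≤ 2^t := one_le_pow₀ (by norm_num)
  have hPpos : (0:ℝ) < 2^M := by positivity
  have hTP : (2:ℝ)^t ≤ 2^M := pow_le_pow_right₀ (by norm_num) (by omega)
  have h4t : (4:ℝ)^t = 2^t * 2^t := by rw [← mul_pow]; norm_num
  have h8t : (8:ℝ)^t = 2^t * 2^t * 2^t := by rw [← mul_pow, ← mul_pow]; norm_num
  have h4M : (4:ℝ)^M = 2^M * 2^M := by rw [← mul_pow]; norm_num
  -- support
  have hsupp : ∀ k : ℤ, ((2^(t+1) : ℕ) : ℤ) < |k| → ms r u v t k = 0 := by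
    intro k hk
    rw [hBc] at hk
    have : ¬ ins t k := by
      rintro ⟨_, h2⟩
      rw [pow_succ] at hk
      omega
    rw [ms_eq, hh_zero this, Complex.ofReal_zero, zero_mul]
  -- cardinalities
  have hcard1 : ((Icc (-(((2^(t+1) : ℕ)) : ℤ)) (((2^(t+1) : ℕ)) : ℤ)).card : ℝ) ≤ 5 * 2^t := by
    rw [Int.card_Icc, hBc]
    have e : ((2:ℤ)^(t+1) + 1 - -(2:ℤ)^(t+1)).toNat = 4 * 2^t + 1 := by
      have e1 : (2:ℤ)^(t+1) + 1 - -(2:ℤ)^(t+1) = ((4 * 2^t + 1 : ℕ) : ℤ) := by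
        push_cast; ring
      rw [e1, Int.toNat_natCast]
    rw [e]
    push_cast
    linarith
  have hcard2 : ((Icc (-(((2^(t+1) : ℕ)) : ℤ) - 1) ((((2^(t+1) : ℕ)) : ℤ) + 1)).card : ℝ) ≤ 7 * 2^t := by
    rw [Int.card_Icc, hBc]
    have e : ((2:ℤ)^(t+1) + 1 + 1 - (-(2:ℤ)^(t+1) - 1)).toNat = 4 * 2^t + 3 := by
      have e1 : (2:ℤ)^(t+1) + 1 + 1 - (-(2:ℤ)^(t+1) - 1) = ((4 * 2^t + 3 : ℕ) : ℤ) := by
        push_cast; ring
      rw [e1, Int.toNat_natCast]
    rw [e]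
    push_cast
    linarith
  have hD2 : ∑ k ∈ Icc (-(((2^(t+1) : ℕ)) : ℤ) - 1) ((((2^(t+1) : ℕ)) : ℤ) + 1),
      ‖ms r u v t (k+1) - 2 * ms r u v t k + ms r u v t (k-1)‖ ≤ aR / 2^t := by
    rw [hBc]
    exact (Finset.sum_le_sum fun k _ => ms_diff2 hu hv k).trans hR3'
  -- general bound for first sums
  have hfirst : ∀ (g : ℤ → ℂ) (G : ℝ), 0 ≤ G → (∀ k, ‖ms r u v t k * g k‖ ≤ aR * G) →
      ∑ k ∈ Icc (-(((2^(t+1) : ℕ)) : ℤ)) (((2^(t+1) : ℕ)) : ℤ), ‖ms r u v t k * g k‖ ≤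
        5 * 2^t * (aR * G) := by
    intro g G hG hg
    refine (Finset.sum_le_card_nsmul _ _ _ (fun k _ => hg k)).trans ?_
    rw [nsmul_eq_mul]
    exact mul_le_mul_of_nonneg_right hcard1 (by positivity)
  refine ⟨?_, ?_, ?_⟩
  · -- periodicity
    refine (kerBound M (2^(t+1)) t (ms r u v t) (5 * aR) (by positivity) hsupp ?_ ?_).2.1
    · have h1 := hfirst (fun _ => 1) 1 (by norm_num) (fun k => by
        rw [mul_one, mul_one]
        exact (ms_norm hu hv k).trans (hR1' k))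
      simp only [mul_one] at h1
      linarith
    · refine hD2.trans ?_
      apply div_le_div_of_nonneg_right _ hTpos.le
      linarith
  · -- part (a)
    intro j
    have hper := kerBound M (2^(t+1)) t (ms r u v t) (5 * aR) (by positivity) hsupp (by
      have h1 := hfirst (fun _ => 1) 1 (by norm_num) (fun k => by
        rw [mul_one, mul_one]
        exact (ms_norm hu hv k).trans (hR1' k))
      simp only [mul_one] at h1
      linarith) (by
      refine hD2.trans ?_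
      apply div_le_div_of_nonneg_right _ hTpos.le
      linarith)
    rw [hper.2.2 j]
    have hb := (kerBound M (2^(t+1)) t (fun k => ms r u v t k * (1 - ex M (-k)))
      (86 * aR * aE * 2^t / 2^M) (by positivity) (fun k hk => by
        simp only [hsupp k hk, zero_mul]) ?_ ?_).1 j
    · refine hb.trans (le_of_eq ?_)
      rw [h4M]
      field_simp
    · refine (hfirst (fun k => 1 - ex M (-k)) (aE * 2^t / 2^M) (by positivity) ?_).trans ?_
      · intro k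
        rw [norm_mul]
        by_cases hk : ins t k
        · apply mul_le_mul ((ms_norm hu hv k).trans (hR1' k)) (hE4 k _) (norm_nonneg _) haR.le
          exact (ins_real hk).2.trans (by linarith)
        · rw [ms_eq, hh_zero hk, Complex.ofReal_zero, zero_mul, norm_zero, zero_mul]
          positivity
      · have h0 : 0 ≤ aR * aE * 2^t * 2^t / 2^M := by positivity
        have e1 : 5 * 2^t * (aR * (aE * 2^t / 2^M)) = 5 * (aR * aE * 2^t * 2^t / 2^M) := by ring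
        have e2 : 86 * aR * aE * 2^t / 2^M * 2^t = 86 * (aR * aE * 2^t * 2^t / 2^M) := by ring
        rw [e1, e2]
        linarith
    · have hpt : ∀ k ∈ Icc (-(((2^(t+1) : ℕ)) : ℤ) - 1) ((((2^(t+1) : ℕ)) : ℤ) + 1),
          ‖ms r u v t (k+1) * (1 - ex M (-(k+1))) - 2 * (ms r u v t k * (1 - ex M (-k))) +
            ms r u v t (k-1) * (1 - ex M (-(k-1)))‖ ≤
          ‖ms r u v t (k+1) - 2 * ms r u v t k + ms r u v t (k-1)‖ * (aE * 2^t / 2^M) +
            (aR * (aE / 4^M) + 2 * (aR / 2^t * (aE / 2^M))) := by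
        intro k hk
        refine (prod_rule (ms r u v t) (fun k => 1 - ex M (-k)) k).trans ?_
        have b1 : ‖ms r u v t (k+1) - 2 * ms r u v t k + ms r u v t (k-1)‖ * ‖1 - ex M (-k)‖ ≤
            ‖ms r u v t (k+1) - 2 * ms r u v t k + ms r u v t (k-1)‖ * (aE * 2^t / 2^M) := by
          apply mul_le_mul_of_nonneg_left _ (norm_nonneg _)
          apply hE4
          rw [Finset.mem_Icc, hBc] at hk
          have h1 : |k| ≤ (2:ℤ)^(t+1) + 1 := by
            rw [abs_le]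
            constructor <;> omega
          exact_mod_cast h1
        have b2 : ‖ms r u v t k‖ * ‖(1 - ex M (-(k+1))) - 2 * (1 - ex M (-k)) +
            (1 - ex M (-(k-1)))‖ ≤ aR * (aE / 4^M) :=
          mul_le_mul ((ms_norm hu hv k).trans (hR1' k)) (hE6 k) (norm_nonneg _) haR.le
        have b3 : ‖ms r u v t (k+1) - ms r u v t k‖ * ‖(1 - ex M (-(k+1))) - (1 - ex M (-k))‖ ≤
            aR / 2^t * (aE / 2^M) :=
          mul_le_mul ((ms_diff hu hv k).trans (hR2' k)) (hE5 k) (norm_nonneg _) (by positivity)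
        have b4 : ‖ms r u v t k - ms r u v t (k-1)‖ * ‖(1 - ex M (-k)) - (1 - ex M (-(k-1)))‖ ≤
            aR / 2^t * (aE / 2^M) := by
          have h1 := ms_diff (r := r) (t := t) hu hv (k-1)
          have h2 := hR2' (k-1)
          have h3 := hE5 (k-1)
          rw [sub_add_cancel] at h1 h2 h3
          exact mul_le_mul (h1.trans h2) h3 (norm_nonneg _) (by positivity)
        linarith
      refine (Finset.sum_le_sum hpt).trans ?_
      rw [Finset.sum_add_distrib, ← Finset.sum_mul, Finset.sum_const, nsmul_eq_mul]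
      have c1 := mul_le_mul_of_nonneg_right hD2 (show 0 ≤ aE * 2^t / 2^M by positivity)
      have c2 := mul_le_mul_of_nonneg_right hcard2
        (show 0 ≤ aR * (aE / 4^M) + 2 * (aR / 2^t * (aE / 2^M)) by positivity)
      have c3 : aR / 2^t * (aE * 2^t / 2^M) = aR * aE / 2^M := by field_simp
      have c4 : 7 * 2^t * (aR * (aE / 4^M) + 2 * (aR / 2^t * (aE / 2^M))) =
          7 * (aR * aE / 2^M) * (2^t / 2^M) + 14 * (aR * aE / 2^M) := by
        rw [h4M]; field_simp; ring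
      have c5 : (2:ℝ)^t / 2^M ≤ 1 := by rw [div_le_one hPpos]; exact hTP
      have c6 : 86 * aR * aE * 2^t / 2^M / 2^t = 86 * (aR * aE / 2^M) := by field_simp
      have c7 : 0 ≤ aR * aE / 2^M := by positivity
      have c8 : 7 * (aR * aE / 2^M) * (2^t / 2^M) ≤ 7 * (aR * aE / 2^M) := by
        have := mul_le_mul_of_nonneg_left c5 (show 0 ≤ 7 * (aR * aE / 2^M) by positivity)
        linarith
      rw [c6]
      rw [c3] at c1
      rw [c4] at c2
      linarith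
  · -- part (b)
    have hGb : ∀ k, ‖ms r u v t k * (1 - ex M (-k))⁻¹‖ ≤ |hh r t k| * (aE * 2^M / 2^t) := by
      intro k
      rw [norm_mul]
      by_cases hk : ins t k
      · apply mul_le_mul (ms_norm hu hv k) (hE1 k (ins_real hk).1 (ins_real hk).2).2
          (norm_nonneg _) (abs_nonneg _)
      · rw [ms_eq, hh_zero hk, Complex.ofReal_zero, zero_mul, norm_zero, zero_mul, abs_zero, zero_mul]
    have hkb := kerBound M (2^(t+1)) t (fun k => ms r u v t k * (1 - ex M (-k))⁻¹)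
      (86 * aR * aE * 2^M / 2^t) (by positivity) (fun k hk => by
        simp only [hsupp k hk, zero_mul]) ?_ ?_
    · refine ⟨ker M (2^(t+1)) (fun k => ms r u v t k * (1 - ex M (-k))⁻¹), hkb.2.1, ?_, ?_⟩
      · intro j
        rw [hkb.2.2 j]
        congr 1
        funext k
        by_cases hk : ins t k
        · have h1 := (hE1 k (ins_real hk).1 (ins_real hk).2).1
          rw [mul_assoc, inv_mul_cancel₀ h1, mul_one]
        · rw [ms_eq, hh_zero hk, Complex.ofReal_zero, zero_mul, zero_mul, zero_mul]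
      · intro j
        refine (hkb.1 j).trans (le_of_eq ?_)
        unfold wt
        field_simp
    · refine (hfirst (fun k => (1 - ex M (-k))⁻¹) (aE * 2^M / 2^t) (by positivity) ?_).trans ?_
      · intro k
        refine (hGb k).trans ?_
        exact mul_le_mul_of_nonneg_right (hR1' k) (by positivity)
      · have h0 : 0 ≤ aR * aE * 2^M := by positivity
        have e1 : 5 * 2^t * (aR * (aE * 2^M / 2^t)) = 5 * (aR * aE * 2^M) := by field_simp
        have e2 : 86 * aR * aE * 2^M / 2^t * 2^t = 86 * (aR * aE * 2^M) := by field_simp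
        rw [e1, e2]
        linarith
    · have hpt : ∀ k ∈ Icc (-(((2^(t+1) : ℕ)) : ℤ) - 1) ((((2^(t+1) : ℕ)) : ℤ) + 1),
          ‖ms r u v t (k+1) * (1 - ex M (-(k+1)))⁻¹ - 2 * (ms r u v t k * (1 - ex M (-k))⁻¹) +
            ms r u v t (k-1) * (1 - ex M (-(k-1)))⁻¹‖ ≤
          ‖ms r u v t (k+1) - 2 * ms r u v t k + ms r u v t (k-1)‖ * (aE * 2^M / 2^t) +
            3 * (aR * aE * 2^M / 8^t) + (if k ∈ Sbd t then 8 * (aR * aE * 2^M / 4^t) else 0) := by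
        intro k hk
        by_cases hin : ins t (k-1) ∧ ins t k ∧ ins t (k+1)
        · obtain ⟨hin1, hin2, hin3⟩ := hin
          have i1 := ins_real hin1
          have i2 := ins_real hin2
          have i3 := ins_real hin3
          refine (prod_rule (ms r u v t) (fun k => (1 - ex M (-k))⁻¹) k).trans ?_
          have b1 : ‖ms r u v t (k+1) - 2 * ms r u v t k + ms r u v t (k-1)‖ *
              ‖(1 - ex M (-k))⁻¹‖ ≤
              ‖ms r u v t (k+1) - 2 * ms r u v t k + ms r u v t (k-1)‖ * (aE * 2^M / 2^t) :=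
            mul_le_mul_of_nonneg_left (hE1 k i2.1 i2.2).2 (norm_nonneg _)
          have b2 : ‖ms r u v t k‖ * ‖(1 - ex M (-(k+1)))⁻¹ - 2 * (1 - ex M (-k))⁻¹ +
              (1 - ex M (-(k-1)))⁻¹‖ ≤ aR * (aE * 2^M / 8^t) :=
            mul_le_mul ((ms_norm hu hv k).trans (hR1' k)) (hE3 k i2.1 i2.2 i3.1 i3.2 i1.1 i1.2)
              (norm_nonneg _) haR.le
          have b3 : ‖ms r u v t (k+1) - ms r u v t k‖ *
              ‖(1 - ex M (-(k+1)))⁻¹ - (1 - ex M (-k))⁻¹‖ ≤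
              aR / 2^t * (aE * 2^M / 4^t) :=
            mul_le_mul ((ms_diff hu hv k).trans (hR2' k)) (hE2 k i2.1 i2.2 i3.1 i3.2)
              (norm_nonneg _) (by positivity)
          have b4 : ‖ms r u v t k - ms r u v t (k-1)‖ *
              ‖(1 - ex M (-k))⁻¹ - (1 - ex M (-(k-1)))⁻¹‖ ≤
              aR / 2^t * (aE * 2^M / 4^t) := by
            have h1 := ms_diff (r := r) (t := t) hu hv (k-1)
            have h2 := hR2' (k-1)
            have h3 := hE2 (k-1) i1.1 i1.2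
            rw [sub_add_cancel] at h1 h2 h3
            exact mul_le_mul (h1.trans h2) (h3 i2.1 i2.2) (norm_nonneg _) (by positivity)
          have b5 : aR / 2^t * (aE * 2^M / 4^t) = aR * aE * 2^M / 8^t := by
            rw [h4t, h8t]; field_simp
          have b6 : aR * (aE * 2^M / 8^t) = aR * aE * 2^M / 8^t := by ring
          have b7 : 0 ≤ (if k ∈ Sbd t then 8 * (aR * aE * 2^M / 4^t) else 0) := by
            split_ifs
            · positivity
            · exact le_refl _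
          rw [b5] at b3 b4
          rw [b6] at b2
          linarith
        · by_cases hS : k ∈ Sbd t
          · rw [if_pos hS]
            have L1 := hR2' k
            have L2 := hR2' (k-1)
            rw [sub_add_cancel] at L2
            rw [abs_le] at L1 L2
            have hδ : 0 ≤ aR / 2^t := by positivity
            have hall : |hh r t (k+1)| ≤ 2 * (aR / 2^t) ∧ |hh r t k| ≤ 2 * (aR / 2^t) ∧
                |hh r t (k-1)| ≤ 2 * (aR / 2^t) := by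
              have hz : hh r t (k-1) = 0 ∨ hh r t k = 0 ∨ hh r t (k+1) = 0 := by
                by_contra hcon
                push Not at hcon
                apply hin
                refine ⟨?_, ?_, ?_⟩
                · by_contra h; exact hcon.1 (hh_zero h)
                · by_contra h; exact hcon.2.1 (hh_zero h)
                · by_contra h; exact hcon.2.2 (hh_zero h)
              rw [abs_le, abs_le, abs_le]
              rcases hz with hz | hz | hz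
              · refine ⟨⟨?_, ?_⟩, ⟨?_, ?_⟩, ⟨?_, ?_⟩⟩ <;> linarith [L1.1, L1.2, L2.1, L2.2]
              · refine ⟨⟨?_, ?_⟩, ⟨?_, ?_⟩, ⟨?_, ?_⟩⟩ <;> linarith [L1.1, L1.2, L2.1, L2.2]
              · refine ⟨⟨?_, ?_⟩, ⟨?_, ?_⟩, ⟨?_, ?_⟩⟩ <;> linarith [L1.1, L1.2, L2.1, L2.2]
            have hG0 : 0 ≤ aE * 2^M / 2^t := by positivity
            have m1 := (hGb (k+1)).trans (mul_le_mul_of_nonneg_right hall.1 hG0)
            have m2 := (hGb k).trans (mul_le_mul_of_nonneg_right hall.2.1 hG0)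
            have m3 := (hGb (k-1)).trans (mul_le_mul_of_nonneg_right hall.2.2 hG0)
            have m4 : ‖ms r u v t (k+1) * (1 - ex M (-(k+1)))⁻¹ -
                2 * (ms r u v t k * (1 - ex M (-k))⁻¹) +
                ms r u v t (k-1) * (1 - ex M (-(k-1)))⁻¹‖ ≤
                ‖ms r u v t (k+1) * (1 - ex M (-(k+1)))⁻¹‖ +
                2 * ‖ms r u v t k * (1 - ex M (-k))⁻¹‖ +
                ‖ms r u v t (k-1) * (1 - ex M (-(k-1)))⁻¹‖ := by
              refine (norm_add_le _ _).trans (add_le_add ((norm_sub_le _ _).trans ?_) le_rfl)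
              rw [norm_mul (2:ℂ), Complex.norm_ofNat]
            have m5 : 2 * (aR / 2^t) * (aE * 2^M / 2^t) = 2 * (aR * aE * 2^M / 4^t) := by
              rw [h4t]; field_simp
            rw [m5] at m1 m2 m3
            have m6 : 0 ≤ ‖ms r u v t (k+1) - 2 * ms r u v t k + ms r u v t (k-1)‖ *
              (aE * 2^M / 2^t) := by positivity
            have m7 : 0 ≤ 3 * (aR * aE * 2^M / 8^t) := by positivity
            linarith
          · rw [if_neg hS]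
            obtain ⟨n1, n2, n3⟩ := not_ins_of hS hin
            have z1 := hGb (k-1)
            have z2 := hGb k
            have z3 := hGb (k+1)
            rw [hh_zero n1, abs_zero, zero_mul] at z1
            rw [hh_zero n2, abs_zero, zero_mul] at z2
            rw [hh_zero n3, abs_zero, zero_mul] at z3
            rw [norm_le_zero_iff.1 z1, norm_le_zero_iff.1 z2, norm_le_zero_iff.1 z3]
            rw [mul_zero, sub_zero, zero_add, norm_zero]
            positivity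
      refine (Finset.sum_le_sum hpt).trans ?_
      rw [Finset.sum_add_distrib, Finset.sum_add_distrib, ← Finset.sum_mul, Finset.sum_const,
        nsmul_eq_mul]
      have c1 := mul_le_mul_of_nonneg_right hD2 (show 0 ≤ aE * 2^M / 2^t by positivity)
      have c2 := mul_le_mul_of_nonneg_right hcard2
        (show 0 ≤ 3 * (aR * aE * 2^M / 8^t) by positivity)
      have c3 : ∑ k ∈ Icc (-(((2^(t+1) : ℕ)) : ℤ) - 1) ((((2^(t+1) : ℕ)) : ℤ) + 1),
          (if k ∈ Sbd t then 8 * (aR * aE * 2^M / 4^t) else 0) ≤ 64 * (aR * aE * 2^M / 4^t) := by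
        rw [← Finset.sum_filter, Finset.sum_const, nsmul_eq_mul]
        have d1 : (((Icc (-(((2^(t+1) : ℕ)) : ℤ) - 1) ((((2^(t+1) : ℕ)) : ℤ) + 1)).filter
            (fun k => k ∈ Sbd t)).card : ℝ) ≤ 8 := by
          have : ((Icc (-(((2^(t+1) : ℕ)) : ℤ) - 1) ((((2^(t+1) : ℕ)) : ℤ) + 1)).filter
            (fun k => k ∈ Sbd t)).card ≤ 8 := by
            refine (Finset.card_le_card ?_).trans (Sbd_card t)
            intro x hx
            exact (Finset.mem_filter.1 hx).2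
          exact_mod_cast this
        have := mul_le_mul_of_nonneg_right d1 (show 0 ≤ 8 * (aR * aE * 2^M / 4^t) by positivity)
        linarith
      have c4 : aR / 2^t * (aE * 2^M / 2^t) = aR * aE * 2^M / 4^t := by
        rw [h4t]; field_simp
      have c5 : 7 * 2^t * (3 * (aR * aE * 2^M / 8^t)) = 21 * (aR * aE * 2^M / 4^t) := by
        rw [h4t, h8t]; field_simp; norm_num
      have c6 : 86 * aR * aE * 2^M / 2^t / 2^t = 86 * (aR * aE * 2^M / 4^t) := by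
        rw [h4t]; field_simp
      rw [c4] at c1
      rw [c5] at c2
      rw [c6]
      linarith

end BernT.SS3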