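import Pool.Agent.Helper643.BernT

open Finset Matrix



open Finset Matrix
namespace BernT.ST17a
noncomputable def ev (M : ℕ) (k : ℤ) : Fin (2^M) → ℂ := fun x => ex M (k * (x:ℤ))

theorem tp_eq (M : ℕ) (S : Finset (ℤ × ℤ)) (c : ℤ × ℤ → ℂ) :
    tp M S c = ∑ k ∈ S, c k • vecMulVec (ev M k.1) (ev M k.2) := by
  ext x y
  simp [tp, Matrix.sum_apply, vecMulVec_apply, ev, mul_assoc]

theorem ex_add (M : ℕ) (a b : ℤ) : ex M (a + b) = ex M a * ex M b := by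
  unfold ex; rw [← Complex.exp_add]; congr 1; push_cast; ring

theorem ex_mul_nat (M : ℕ) (a : ℤ) (n : ℕ) : ex M (a * (n:ℤ)) = ex M a ^ n := by
  unfold ex; rw [← Complex.exp_nat_mul]; congr 1; push_cast; ring

theorem ex_eq_one_iff (M : ℕ) (a : ℤ) : ex M a = 1 ↔ (2^M : ℤ) ∣ a := by
  unfold ex
  rw [Complex.exp_eq_one_iff]
  have hpi : (2 * Real.pi * Complex.I : ℂ) ≠ 0 := Complex.two_pi_I_ne_zero
  have h2 : (2:ℂ)^M ≠ 0 := pow_ne_zero _ two_ne_zero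
  constructor
  · rintro ⟨n, hn⟩
    refine ⟨n, ?_⟩
    have h1 : (a:ℂ) = 2^M * n := by
      rw [div_eq_iff h2] at hn
      have : (2 * Real.pi * Complex.I : ℂ) * a = (2 * Real.pi * Complex.I : ℂ) * (2^M * n) := by
        rw [hn]; ring
      exact mul_left_cancel₀ hpi this
    exact_mod_cast h1
  · rintro ⟨n, hn⟩
    refine ⟨n, ?_⟩
    rw [div_eq_iff h2, hn]
    push_cast
    ring

theorem sum_ex (M : ℕ) (j : ℤ) :
    ∑ z : Fin (2^M), ex M (j * ((z:ℕ):ℤ)) = if (2^M : ℤ) ∣ j then (2:ℂ)^M else 0 := by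
  simp only [ex_mul_nat]
  split_ifs with h
  · rw [(ex_eq_one_iff M j).2 h]
    simp
  · have h1 : ex M j ≠ 1 := fun h2 => h ((ex_eq_one_iff M j).1 h2)
    rw [Fin.sum_univ_eq_sum_range (fun z => ex M j ^ z) (2^M), geom_sum_eq h1]
    have h3 : ex M j ^ (2^M) = 1 := by
      rw [← ex_mul_nat, ex_eq_one_iff]
      exact ⟨j, by push_cast; ring⟩
    rw [h3, sub_self, zero_div]

theorem Vs_zero (p : ℕ) (k : ℤ) (h : (2:ℤ)^(p+1) < |k|) : Vs p k = 0 := by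
  unfold Vs
  have h1 : (2:ℝ)^(p+1) < |(k:ℝ)| := by exact_mod_cast h
  have h2 : 2 - |(k:ℝ)| / 2^p ≤ 0 := by
    rw [sub_nonpos, le_div_iff₀ (by positivity)]
    rw [pow_succ] at h1
    linarith
  exact max_eq_left ((min_le_right _ _).trans h2)

theorem Vs_one (p : ℕ) (k : ℤ) (h : |k| ≤ (2:ℤ)^p) : Vs p k = 1 := by
  unfold Vs
  have h1 : |(k:ℝ)| ≤ (2:ℝ)^p := by exact_mod_cast h
  have h2 : |(k:ℝ)| / 2^p ≤ 1 := by
    rw [div_le_iff₀ (by positivity)]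
    linarith
  rw [min_eq_left (by linarith)]
  exact max_eq_right zero_le_one

theorem Vm_ev (M p : ℕ) (k : ℤ) (h : |k| + 2^(p+1) < (2:ℤ)^M) :
    Vm M p *ᵥ ev M k = (Vs p k : ℂ) • ev M k := by
  ext x
  have h0 : (Vm M p *ᵥ ev M k) x = ∑ z : Fin (2^M), (((2:ℂ)^M)⁻¹ *
      ∑ k' ∈ Icc (-((2^(p+1):ℕ):ℤ)) ((2^(p+1):ℕ):ℤ), (Vs p k' : ℂ) * ex M (k' * (((x:ℕ):ℤ) - ((z:ℕ):ℤ)))) *
        ex M (k * ((z:ℕ):ℤ)) := rfl
  rw [h0]
  have h1 : ∀ z : Fin (2^M), (((2:ℂ)^M)⁻¹ *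
      ∑ k' ∈ Icc (-((2^(p+1):ℕ):ℤ)) ((2^(p+1):ℕ):ℤ), (Vs p k' : ℂ) * ex M (k' * (((x:ℕ):ℤ) - ((z:ℕ):ℤ)))) *
        ex M (k * ((z:ℕ):ℤ)) = ∑ k' ∈ Icc (-((2^(p+1):ℕ):ℤ)) ((2^(p+1):ℕ):ℤ),
          ((2:ℂ)^M)⁻¹ * (Vs p k' : ℂ) * ex M (k' * ((x:ℕ):ℤ)) * ex M ((k - k') * ((z:ℕ):ℤ)) := by
    intro z
    rw [Finset.mul_sum, Finset.sum_mul]
    refine Finset.sum_congr rfl fun k' _ => ?_
    have h2 : ex M (k' * (((x:ℕ):ℤ) - ((z:ℕ):ℤ))) * ex M (k * ((z:ℕ):ℤ)) =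
        ex M (k' * ((x:ℕ):ℤ)) * ex M ((k - k') * ((z:ℕ):ℤ)) := by
      rw [← ex_add, ← ex_add]
      congr 1
      ring
    calc _ = ((2:ℂ)^M)⁻¹ * (Vs p k' : ℂ) * (ex M (k' * (((x:ℕ):ℤ) - ((z:ℕ):ℤ))) * ex M (k * ((z:ℕ):ℤ))) := by ring
      _ = _ := by rw [h2]; ring
  simp only [h1]
  rw [Finset.sum_comm]
  simp only [← Finset.mul_sum, sum_ex]
  have hM0 : (2:ℂ)^M ≠ 0 := pow_ne_zero _ two_ne_zero
  have h3 : ∀ k' ∈ Icc (-((2^(p+1):ℕ):ℤ)) ((2^(p+1):ℕ):ℤ), k' ≠ k → ¬ ((2:ℤ)^M ∣ k - k') := by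
    intro k' hk' hne hd
    rw [Finset.mem_Icc] at hk'
    push_cast at hk'
    have h4 : |k - k'| < (2:ℤ)^M := by
      have := abs_sub k k'
      have h5 : |k'| ≤ 2^(p+1) := abs_le.2 hk'
      linarith
    have := Int.eq_zero_of_abs_lt_dvd hd h4
    exact hne (by linarith)
  by_cases hk : k ∈ Icc (-((2^(p+1):ℕ):ℤ)) ((2^(p+1):ℕ):ℤ)
  · rw [Finset.sum_eq_single_of_mem k hk]
    · rw [if_pos (by simp)]
      show _ = (Vs p k : ℂ) * ex M (k * ((x:ℕ):ℤ))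
      field_simp
    · intro k' hk' hne
      rw [if_neg (h3 k' hk' hne), mul_zero]
  · rw [Finset.sum_eq_zero]
    · have : Vs p k = 0 := by
        apply Vs_zero
        by_contra hcon
        apply hk
        rw [Finset.mem_Icc]
        push_cast
        exact abs_le.1 (not_lt.1 hcon)
      simp [this]
    · intro k' hk'
      rw [if_neg (h3 k' hk' (fun h => hk (h ▸ hk'))), mul_zero]

theorem Em_ev (M : ℕ) (k : ℤ) (h0 : k ≠ 0) (h : |k| < (2:ℤ)^M) : Em M 0 *ᵥ ev M k = 0 := by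
  ext x
  have h1 : (Em M 0 *ᵥ ev M k) x = ∑ z : Fin (2^M), (if (x:ℕ) / 2^(M-0) = (z:ℕ) / 2^(M-0) then ((2:ℂ)^(M-0))⁻¹ else 0) *
      ex M (k * ((z:ℕ):ℤ)) := rfl
  rw [h1]
  have h2 : ∀ z : Fin (2^M), (if (x:ℕ) / 2^(M-0) = (z:ℕ) / 2^(M-0) then ((2:ℂ)^(M-0))⁻¹ else 0) *
      ex M (k * ((z:ℕ):ℤ)) = ((2:ℂ)^M)⁻¹ * ex M (k * ((z:ℕ):ℤ)) := by
    intro z
    have hx : (x:ℕ) / 2^(M-0) = 0 := Nat.div_eq_of_lt x.2
    have hz : (z:ℕ) / 2^(M-0) = 0 := Nat.div_eq_of_lt z.2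
    rw [if_pos (by rw [hx, hz]), Nat.sub_zero]
  simp only [h2]
  rw [← Finset.mul_sum, sum_ex, if_neg, mul_zero]
  · rfl
  · intro hd
    exact h0 (Int.eq_zero_of_abs_lt_dvd hd h)

theorem Em_symm (M : ℕ) : (Em M 0)ᵀ = Em M 0 := by
  ext x z
  simp only [Matrix.transpose_apply, Em, eq_comm]

theorem mul_tp (M : ℕ) (S : Finset (ℤ × ℤ)) (c : ℤ × ℤ → ℂ) (A : Matrix (Fin (2^M)) (Fin (2^M)) ℂ)
    (α : ℤ × ℤ → ℂ) (hA : ∀ k ∈ S, A *ᵥ ev M k.1 = α k • ev M k.1) :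
    A * tp M S c = tp M S (fun k => α k * c k) := by
  rw [tp_eq, tp_eq, Matrix.mul_sum]
  refine Finset.sum_congr rfl fun k hk => ?_
  rw [Matrix.mul_smul, Matrix.mul_vecMulVec, hA k hk, Matrix.smul_vecMulVec, smul_smul, mul_comm]

theorem tp_mul (M : ℕ) (S : Finset (ℤ × ℤ)) (c : ℤ × ℤ → ℂ) (A : Matrix (Fin (2^M)) (Fin (2^M)) ℂ)
    (α : ℤ × ℤ → ℂ) (hA : ∀ k ∈ S, A *ᵥ ev M k.2 = α k • ev M k.2) :
    tp M S c * Aᵀ = tp M S (fun k => α k * c k) := by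
  rw [tp_eq, tp_eq, Matrix.sum_mul]
  refine Finset.sum_congr rfl fun k hk => ?_
  rw [Matrix.smul_mul, Matrix.vecMulVec_mul, Matrix.vecMul_transpose, hA k hk,
    Matrix.vecMulVec_smul, smul_smul, mul_comm]

theorem tp_congr (M : ℕ) (S : Finset (ℤ × ℤ)) (c d : ℤ × ℤ → ℂ) (h : ∀ k ∈ S, c k = d k) :
    tp M S c = tp M S d := by
  ext x y
  unfold tp
  exact Finset.sum_congr rfl fun k hk => by rw [h k hk]

theorem tp_zero (M : ℕ) (S : Finset (ℤ × ℤ)) : tp M S (fun _ => 0) = 0 := by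
  ext x y
  simp [tp]

theorem specTrig (M n : ℕ) (hM : n + 3 ≤ M) (S : Finset (ℤ × ℤ)) (c : ℤ × ℤ → ℂ)
    (hS : ∀ k ∈ S, k.1 ≠ 0 ∧ k.2 ≠ 0 ∧ |k.1| * |k.2| ≤ 2^n) :
    Spec M n (tp M S c) := by
  have hb : ∀ k ∈ S, |k.1| ≤ 2^n ∧ |k.2| ≤ 2^n := by
    intro k hk
    obtain ⟨h1, h2, h3⟩ := hS k hk
    have h4 : 1 ≤ |k.1| := Int.one_le_abs h1
    have h5 : 1 ≤ |k.2| := Int.one_le_abs h2
    constructor <;> nlinarith
  have hpow : (2:ℤ)^n < 2^M := pow_lt_pow_right₀ one_lt_two (by omega)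
  have hVn : ∀ p ≤ n, (2:ℤ)^n + 2^(p+1) < 2^M := by
    intro p hp
    have h1 : (2:ℤ)^(p+1) ≤ 2^(n+1) := pow_le_pow_right₀ one_le_two (by omega)
    have h2 : (2:ℤ)^(n+2) ≤ 2^M := pow_le_pow_right₀ one_le_two (by omega)
    have h3 : (0:ℤ) < 2^n := by positivity
    rw [pow_succ (2:ℤ) n] at h1
    rw [pow_add] at h2
    linarith
  have hVq : ∀ q, n < q → q + 2 ≤ M → (2:ℤ)^n + 2^(q+1) < 2^M := by
    intro q hq hqM
    have h1 : (2:ℤ)^n ≤ 2^q := pow_le_pow_right₀ one_le_two (by omega)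
    have h2 : (2:ℤ)^(q+2) ≤ 2^M := pow_le_pow_right₀ one_le_two (by omega)
    have h3 : (0:ℤ) < 2^q := by positivity
    rw [pow_add] at h2
    rw [pow_succ]
    linarith
  refine ⟨?_, ?_, ?_, ?_⟩
  · rw [mul_tp M S c (Em M 0) (fun _ => 0)]
    · simp only [zero_mul]
      exact tp_zero M S
    · intro k hk
      rw [Em_ev M k.1 (hS k hk).1 ((hb k hk).1.trans_lt hpow), zero_smul]
  · rw [← Em_symm, tp_mul M S c (Em M 0) (fun _ => 0)]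
    · simp only [zero_mul]
      exact tp_zero M S
    · intro k hk
      rw [Em_ev M k.2 (hS k hk).2.1 ((hb k hk).2.trans_lt hpow), zero_smul]
  · intro p hp
    have hp2 : n - p ≤ n := Nat.sub_le _ _
    have hA1 : ∀ k ∈ S, Vm M p *ᵥ ev M k.1 = (Vs p k.1 : ℂ) • ev M k.1 := fun k hk =>
      Vm_ev M p k.1 (by linarith [(hb k hk).1, hVn p hp])
    have hA2 : ∀ k ∈ S, Vm M (n-p) *ᵥ ev M k.2 = (Vs (n-p) k.2 : ℂ) • ev M k.2 := fun k hk =>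
      Vm_ev M (n-p) k.2 (by linarith [(hb k hk).2, hVn (n-p) hp2])
    rw [mul_tp M S c (Vm M p) (fun k => (Vs p k.1 : ℂ)) hA1,
      tp_mul M S c (Vm M (n-p)) (fun k => (Vs (n-p) k.2 : ℂ)) hA2,
      tp_mul M S _ (Vm M (n-p)) (fun k => (Vs (n-p) k.2 : ℂ)) hA2]
    have hadd : ∀ (c₁ c₂ : ℤ × ℤ → ℂ), tp M S c₁ + tp M S c₂ = tp M S (fun k => c₁ k + c₂ k) := by
      intro c₁ c₂
      ext x y
      simp only [tp, Matrix.add_apply, ← Finset.sum_add_distrib]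
      exact Finset.sum_congr rfl fun k _ => by ring
    have hsub : ∀ (c₁ c₂ : ℤ × ℤ → ℂ), tp M S c₁ - tp M S c₂ = tp M S (fun k => c₁ k - c₂ k) := by
      intro c₁ c₂
      ext x y
      simp only [tp, Matrix.sub_apply, ← Finset.sum_sub_distrib]
      exact Finset.sum_congr rfl fun k _ => by ring
    rw [hadd, hsub]
    apply tp_congr
    intro k hk
    have h1 : |k.1| ≤ 2^p ∨ |k.2| ≤ 2^(n-p) := by
      by_contra hcon
      push Not at hcon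
      have h2 := (hS k hk).2.2
      have h3 : (2:ℤ)^n = 2^p * 2^(n-p) := by
        rw [← pow_add]; congr 1; omega
      have h4 : (2:ℤ)^p * 2^(n-p) < |k.1| * |k.2| :=
        mul_lt_mul'' hcon.1 hcon.2 (by positivity) (by positivity)
      linarith
    rcases h1 with h1 | h1
    · rw [Vs_one p k.1 h1]; push_cast; ring
    · rw [Vs_one (n-p) k.2 h1]; push_cast; ring
  · intro q hq hqM
    have hle : (2:ℤ)^n ≤ 2^q := pow_le_pow_right₀ one_le_two (by omega)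
    constructor
    · rw [tp_mul M S c (Vm M q) (fun _ => 1)]
      · simp only [one_mul]
      · intro k hk
        rw [Vm_ev M q k.2 (by linarith [(hb k hk).2, hVq q hq hqM]), Vs_one q k.2 (by linarith [(hb k hk).2])]
        simp
    · rw [mul_tp M S c (Vm M q) (fun _ => 1)]
      · simp only [one_mul]
      · intro k hk
        rw [Vm_ev M q k.1 (by linarith [(hb k hk).1, hVq q hq hqM]), Vs_one q k.1 (by linarith [(hb k hk).1])]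
        simp

end BernT.ST17a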